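import Pool.Agent.GOD.StmtG

/-!
The circuits of a faithful cover are alternating, and so are the removable circuits.
-/

set_option autoImplicit false
set_option linter.unusedSectionVars false

namespace Pool.GOD

namespace MGraph

namespace AltX

variable {V E : Type*} [Fintype V] [DecidableEq V] [Fintype E] [DecidableEq E] {G : MGraph V E}

lemma mem_two {w : E → ℕ} {e : E} : e ∈ two w ↔ w e = 2 := by simp [two]

lemma mem_one {w : E → ℕ} {e : E} : e ∈ one w ↔ w e = 1 := by simp [one]

lemma mem_at {X : Finset E} {v : V} {e : E} :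
    e ∈ X.filter (fun e => v ∈ G.ends e) ↔ e ∈ X ∧ v ∈ G.ends e := Finset.mem_filter

/-- the support of `w - χ_D` -/
lemma supp_eq {w : E → ℕ} (hw : ∀ e, w e = 1 ∨ w e = 2) (D : Finset E) :
    Finset.univ.filter (fun e => 0 < w e - chi D e) = rest w D := by
  ext e
  rw [Finset.mem_filter, rest, Finset.mem_sdiff, Finset.mem_inter, mem_one, chi]
  rcases hw e with h | h <;> by_cases he : e ∈ D <;> simp [h, he]

/-- a vertex where `D` has two edges of weight 1 -/
lemma no_two {w : E → ℕ} (hw : ∀ e, w e = 1 ∨ w e = 2)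
    (hd : ∀ v, G.deg (two w) v = 1 ∧ G.deg (one w) v = 2) {D : Finset E} {v : V}
    (h2 : G.deg D v = 2) (h1 : G.deg (D ∩ two w) v ≠ 1) :
    (∀ f, v ∈ G.ends f → w f = 1 → f ∈ D) ∧ ∃ m, v ∈ G.ends m ∧ w m = 2 ∧ m ∉ D ∧
      ∀ f, v ∈ G.ends f → w f = 2 → f = m := by
  have h3 : G.deg (D ∩ two w) v ≤ G.deg (two w) v := G.deg_mono Finset.inter_subset_right v
  rw [(hd v).1] at h3
  have h0 : G.deg (D ∩ two w) v = 0 := by omega
  have h4 : ∀ f, v ∈ G.ends f → w f = 2 → f ∉ D := by
    intro f hf hf2 hfD
    have : f ∈ (D ∩ two w).filter (fun e => v ∈ G.ends e) :=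
      Finset.mem_filter.mpr ⟨Finset.mem_inter.mpr ⟨hfD, mem_two.mpr hf2⟩, hf⟩
    rw [deg, Finset.card_eq_zero] at h0
    rw [h0] at this
    exact absurd this (Finset.notMem_empty f)
  constructor
  · have hsub : D.filter (fun e => v ∈ G.ends e) ⊆ (one w).filter (fun e => v ∈ G.ends e) := by
      intro f hf
      rw [Finset.mem_filter] at hf ⊢
      refine ⟨mem_one.mpr ?_, hf.2⟩
      rcases hw f with h | h
      · exact h
      · exact absurd hf.1 (h4 f hf.2 h)
    have heq : D.filter (fun e => v ∈ G.ends e) = (one w).filter (fun e => v ∈ G.ends e) := by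
      refine Finset.eq_of_subset_of_card_le hsub ?_
      have e1 : ((one w).filter (fun e => v ∈ G.ends e)).card = 2 := (hd v).2
      have e2 : (D.filter (fun e => v ∈ G.ends e)).card = 2 := h2
      rw [e1, e2]
    intro f hf hf1
    have : f ∈ (one w).filter (fun e => v ∈ G.ends e) :=
      Finset.mem_filter.mpr ⟨mem_one.mpr hf1, hf⟩
    rw [← heq, Finset.mem_filter] at this
    exact this.1
  · have h5 : ((two w).filter (fun e => v ∈ G.ends e)).card = 1 := (hd v).1
    obtain ⟨m, hm⟩ := Finset.card_eq_one.mp h5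
    have hmm : m ∈ (two w).filter (fun e => v ∈ G.ends e) := by
      rw [hm]; exact Finset.mem_singleton_self m
    rw [Finset.mem_filter, mem_two] at hmm
    refine ⟨m, hmm.2, hmm.1, h4 m hmm.2 hmm.1, ?_⟩
    intro f hf hf2
    have : f ∈ (two w).filter (fun e => v ∈ G.ends e) :=
      Finset.mem_filter.mpr ⟨mem_two.mpr hf2, hf⟩
    rw [hm, Finset.mem_singleton] at this
    exact this

/-- the sum of the weights at a vertex is 4 -/
lemma sum_w {w : E → ℕ} (hw : ∀ e, w e = 1 ∨ w e = 2)
    (hd : ∀ v, G.deg (two w) v = 1 ∧ G.deg (one w) v = 2) (v : V) :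
    ∑ e ∈ Finset.univ.filter (fun e => v ∈ G.ends e), w e = 4 := by
  have h1 : Finset.univ.filter (fun e => v ∈ G.ends e) =
      (one w).filter (fun e => v ∈ G.ends e) ∪ (two w).filter (fun e => v ∈ G.ends e) := by
    ext e
    rw [Finset.mem_union, Finset.mem_filter, Finset.mem_filter, Finset.mem_filter, mem_one, mem_two]
    have := hw e
    simp only [Finset.mem_univ, true_and]
    tauto
  have h2 : Disjoint ((one w).filter (fun e => v ∈ G.ends e))
      ((two w).filter (fun e => v ∈ G.ends e)) := by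
    rw [Finset.disjoint_left]
    intro e he he'
    rw [Finset.mem_filter, mem_one] at he
    rw [Finset.mem_filter, mem_two] at he'
    omega
  rw [h1, Finset.sum_union h2]
  have h3 : ∑ e ∈ (one w).filter (fun e => v ∈ G.ends e), w e = 2 := by
    rw [Finset.sum_congr rfl (g := fun _ => 1)]
    · rw [Finset.sum_const, smul_eq_mul, mul_one]
      exact (hd v).2
    · intro e he
      rw [Finset.mem_filter, mem_one] at he
      exact he.1
  have h4 : ∑ e ∈ (two w).filter (fun e => v ∈ G.ends e), w e = 2 := by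
    rw [Finset.sum_congr rfl (g := fun _ => 2)]
    · rw [Finset.sum_const, smul_eq_mul]
      have : ((two w).filter (fun e => v ∈ G.ends e)).card = 1 := (hd v).1
      rw [this]
    · intro e he
      rw [Finset.mem_filter, mem_two] at he
      exact he.1
  rw [h3, h4]

lemma eul {w : E → ℕ} (hw : ∀ e, w e = 1 ∨ w e = 2)
    (hd : ∀ v, G.deg (two w) v = 1 ∧ G.deg (one w) v = 2) {D : Finset E} (hD : G.IsCircuit D) :
    G.IsEul (rest w D) (fun e => w e - chi D e) := by
  rw [G.isEul_iff]
  constructor
  · intro e he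
    rw [← supp_eq hw D, Finset.mem_filter] at he
    have h1 := he.2
    have h2 := hw e
    omega
  · intro v
    have h1 : ∑ e ∈ (rest w D).filter (fun e => v ∈ G.ends e), (w e - chi D e) =
        ∑ e ∈ Finset.univ.filter (fun e => v ∈ G.ends e), (w e - chi D e) := by
      refine Finset.sum_subset ?_ ?_
      · exact Finset.filter_subset_filter _ (Finset.subset_univ _)
      · intro e he hne
        rw [Finset.mem_filter] at he hne
        by_contra hpos
        apply hne
        refine ⟨?_, he.2⟩
        rw [← supp_eq hw D, Finset.mem_filter]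
        exact ⟨Finset.mem_univ _, Nat.pos_of_ne_zero hpos⟩
    have h2 : ∑ e ∈ Finset.univ.filter (fun e => v ∈ G.ends e), (w e - chi D e) +
        ∑ e ∈ Finset.univ.filter (fun e => v ∈ G.ends e), chi D e = 4 := by
      rw [← Finset.sum_add_distrib, ← sum_w hw hd v]
      refine Finset.sum_congr rfl fun e _ => ?_
      have h3 := hw e
      have h4 : chi D e ≤ 1 := by unfold chi; split_ifs <;> omega
      omega
    have h3 : ∑ e ∈ Finset.univ.filter (fun e => v ∈ G.ends e), chi D e = G.deg D v := by
      unfold chi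
      rw [Finset.sum_ite_mem, Finset.sum_const, smul_eq_mul, mul_one, deg]
      congr 1
      ext e
      simp only [Finset.mem_inter, Finset.mem_filter, Finset.mem_univ, true_and]
      tauto
    have h4 : Even (G.deg D v) := hD.isEven G v
    rw [h3] at h2
    rw [h1]
    have h5 : Even (4 : ℕ) := by decide
    rw [← h2, Nat.even_add] at h5
    exact h5.mpr h4

lemma alt_of_removable {w : E → ℕ} (hw : ∀ e, w e = 1 ∨ w e = 2)
    (hd : ∀ v, G.deg (two w) v = 1 ∧ G.deg (one w) v = 2) {D : Finset E} (hD : G.IsCircuit D)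
    (hb : G.Bridgeless (rest w D)) : G.IsAlt w D := by
  refine ⟨hD, fun v hv => ?_⟩
  by_contra hne
  obtain ⟨h1, m, hm, hm2, hmD, hmu⟩ := no_two hw hd hv hne
  apply hb m
  rw [G.isBridge_iff]
  refine ⟨{v}, ?_⟩
  rw [G.cut_singleton]
  ext f
  rw [Finset.mem_inter, G.mem_star, Finset.mem_singleton, rest, Finset.mem_sdiff, Finset.mem_inter,
    mem_one]
  constructor
  · rintro ⟨⟨-, hf⟩, hfv⟩
    rcases hw f with h | h
    · exact absurd ⟨h1 f hfv h, h⟩ hf
    · exact hmu f hfv h
  · rintro rfl
    exact ⟨⟨Finset.mem_univ _, fun h => hmD h.1⟩, hm⟩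

lemma two_le_countP {α : Type*} {L : List α} {p : α → Bool} {a b : α} (ha : a ∈ L) (hb : b ∈ L)
    (hab : a ≠ b) (pa : p a = true) (pb : p b = true) : 2 ≤ L.countP p := by
  rw [List.countP_eq_length_filter]
  have h1 : a ∈ L.filter p := List.mem_filter.mpr ⟨ha, pa⟩
  have h2 : b ∈ L.filter p := List.mem_filter.mpr ⟨hb, pb⟩
  rcases hL : L.filter p with _ | ⟨x, _ | ⟨y, l⟩⟩
  · rw [hL] at h1
    exact absurd h1 List.not_mem_nil
  · rw [hL] at h1 h2
    rw [List.mem_singleton] at h1 h2
    exact absurd (h1.trans h2.symm) hab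
  · simp

end AltX

open AltX in
/-- The circuits of a faithful cover of a permutation graph are alternating; the same holds for
the removable circuits. -/
theorem t_Alt : Stmt_Alt := by
  intro V E _ _ _ _ G w hw hd
  constructor
  · intro D
    constructor
    · rintro ⟨hD, -, -, hb⟩
      rw [supp_eq hw D] at hb
      exact ⟨alt_of_removable hw hd hD hb, hb⟩
    · rintro ⟨hA, hb⟩
      refine ⟨hA.1, Finset.subset_univ _, ?_, ?_⟩
      · rw [supp_eq hw D]
        exact eul hw hd hA.1
      · rw [supp_eq hw D]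
        exact hb
  · intro L hL hc D hDL
    refine ⟨hL D hDL, fun v hv => ?_⟩
    by_contra hne
    obtain ⟨h1, m, hm, hm2, hmD, hmu⟩ := no_two hw hd hv hne
    -- a member containing `m`
    have h3 : 0 < L.countP (fun D => decide (m ∈ D)) := by rw [hc m, hm2]; omega
    obtain ⟨C, hC, hmC⟩ := List.countP_pos_iff.mp h3
    have hmC' : m ∈ C := of_decide_eq_true hmC
    have h4 : G.deg C v = 2 := by
      rcases (hL C hC).2.1 v with h | h
      · exfalso
        have : 0 < G.deg C v := G.deg_pos_iff.mpr ⟨m, hmC', hm⟩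
        omega
      · exact h
    -- another edge of `C` at `v`
    have h5 : ∃ f ∈ C, v ∈ G.ends f ∧ f ≠ m := by
      have h6 : 1 < (C.filter (fun e => v ∈ G.ends e)).card := by
        have : (C.filter (fun e => v ∈ G.ends e)).card = 2 := h4
        omega
      obtain ⟨f, hf, hfm⟩ := Finset.exists_mem_ne h6 m
      rw [Finset.mem_filter] at hf
      exact ⟨f, hf.1, hf.2, hfm⟩
    obtain ⟨f, hfC, hfv, hfm⟩ := h5
    have hf1 : w f = 1 := by
      rcases hw f with h | h
      · exact h
      · exact absurd (hmu f hfv h) hfm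
    have hfD : f ∈ D := h1 f hfv hf1
    have hCD : C ≠ D := fun h => hmD (h ▸ hmC')
    have h7 := two_le_countP (p := fun D => decide (f ∈ D)) hC hDL hCD (decide_eq_true hfC)
      (decide_eq_true hfD)
    rw [hc f, hf1] at h7
    omega

end MGraph

end Pool.GOD
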