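import Pool.Agent.GOD.StmtG

/-!
Every edge of `X` which is not a bridge of `X` lies on a circuit contained in `X`.
-/

set_option autoImplicit false
set_option linter.unusedSectionVars false

namespace Pool.GOD.MGraph

section pth

variable {V E : Type*} [Fintype V] [DecidableEq V] [Fintype E] [DecidableEq E] (G : MGraph V E)

/-- `P` is the edge set of a path from `a` to `c`. -/
inductive IsPth (a : V) : V → Finset E → Prop
  | nil : IsPth a a ∅
  | cons {c w : V} {P : Finset E} {f : E} : IsPth a c P → G.ends f = s(c, w) → w ≠ a →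
      G.deg P w = 0 → IsPth a w (insert f P)

lemma bcirc_deg_insert {P : Finset E} {f : E} (hf : f ∉ P) (v : V) :
    G.deg (insert f P) v = (if v ∈ G.ends f then 1 else 0) + G.deg P v := by
  unfold deg
  rw [Finset.filter_insert]
  by_cases h : v ∈ G.ends f
  · rw [if_pos h, if_pos h, Finset.card_insert_of_notMem]
    · omega
    · intro h'
      exact hf (Finset.mem_filter.mp h').1
  · rw [if_neg h, if_neg h]
    omega

lemma IsPth.notMem {P : Finset E} {f : E} {c w : V} (hf : G.ends f = s(c, w))
    (hw : G.deg P w = 0) : f ∉ P := by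
  intro h
  have : 0 < G.deg P w := G.deg_pos_iff.mpr ⟨f, h, by rw [hf]; exact Sym2.mem_mk_right c w⟩
  omega

/-- Subpaths. -/
lemma IsPth.sub {a c : V} {P : Finset E} (h : G.IsPth a c P) :
    ∀ w, (w = a ∨ 0 < G.deg P w) → ∃ P', P' ⊆ P ∧ G.IsPth a w P' := by
  induction h with
  | nil =>
    intro w hw
    rcases hw with rfl | hw
    · exact ⟨∅, Finset.Subset.refl _, IsPth.nil⟩
    · simp [deg] at hw
  | @cons c w P f hP hf hwa hw0 ih =>
    intro u hu
    by_cases huw : u = w
    · subst huw
      exact ⟨insert f P, Finset.Subset.refl _, IsPth.cons hP hf hwa hw0⟩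
    · have hnot : f ∉ P := IsPth.notMem G hf hw0
      rcases hu with rfl | hu
      · obtain ⟨P', h1, h2⟩ := ih u (Or.inl rfl)
        exact ⟨P', h1.trans (Finset.subset_insert _ _), h2⟩
      · rw [G.bcirc_deg_insert hnot] at hu
        by_cases h1 : 0 < G.deg P u
        · obtain ⟨P', h3, h4⟩ := ih u (Or.inr h1)
          exact ⟨P', h3.trans (Finset.subset_insert _ _), h4⟩
        · have h2 : u ∈ G.ends f := by
            by_contra h2
            rw [if_neg h2] at hu
            omega
          rw [hf, Sym2.mem_iff] at h2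
          rcases h2 with rfl | h2
          · exact ⟨P, Finset.subset_insert _ _, hP⟩
          · exact absurd h2 huw

/-- Degrees of paths. -/
lemma IsPth.degs {a c : V} {P : Finset E} (h : G.IsPth a c P) :
    (c = a ∧ P = ∅) ∨ (c ≠ a ∧ G.deg P a = 1 ∧ G.deg P c = 1 ∧
      ∀ v, v ≠ a → v ≠ c → G.deg P v = 0 ∨ G.deg P v = 2) := by
  induction h with
  | nil => exact Or.inl ⟨rfl, rfl⟩
  | @cons c w P f hP hf hwa hw0 ih =>
    right
    have hnot : f ∉ P := IsPth.notMem G hf hw0
    have hcw : c ≠ w := G.ne_of_ends hf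
    have hmem : ∀ v, v ∈ G.ends f ↔ v = c ∨ v = w := by
      intro v
      rw [hf, Sym2.mem_iff]
    rcases ih with ⟨h1, h2⟩ | ⟨h1, h2, h3, h4⟩
    · subst h1
      subst h2
      refine ⟨hwa, ?_, ?_, ?_⟩
      · rw [G.bcirc_deg_insert hnot, if_pos ((hmem _).mpr (Or.inl rfl))]
        simp [deg]
      · rw [G.bcirc_deg_insert hnot, if_pos ((hmem _).mpr (Or.inr rfl))]
        simp [deg]
      · intro v hv1 hv2
        left
        rw [G.bcirc_deg_insert hnot, if_neg (fun h => ((hmem _).mp h).elim hv1 hv2)]
        simp [deg]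
    · refine ⟨hwa, ?_, ?_, ?_⟩
      · rw [G.bcirc_deg_insert hnot, if_neg (fun h => ((hmem _).mp h).elim
          (fun h => h1 h.symm) (fun h => hwa h.symm)), h2]
      · rw [G.bcirc_deg_insert hnot, if_pos ((hmem _).mpr (Or.inr rfl)), hw0]
      · intro v hv1 hv2
        rw [G.bcirc_deg_insert hnot]
        by_cases hvc : v = c
        · subst hvc
          rw [if_pos ((hmem _).mpr (Or.inl rfl)), h3]
          right; rfl
        · rw [if_neg (fun h => ((hmem _).mp h).elim hvc hv2)]
          rcases h4 v hv1 hvc with h | h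
          · left; omega
          · right; omega

/-- Paths are connected. -/
lemma IsPth.conn {a c : V} {P : Finset E} (h : G.IsPth a c P) :
    ∀ v, (v = a ∨ v = c ∨ 0 < G.deg P v) → G.ConnIn P a v := by
  induction h with
  | nil =>
    intro v hv
    rcases hv with rfl | rfl | hv
    · exact ConnIn.refl _ _
    · exact ConnIn.refl _ _
    · simp [deg] at hv
  | @cons c w P f hP hf hwa hw0 ih =>
    intro v hv
    have hnot : f ∉ P := IsPth.notMem G hf hw0
    have hmono : ∀ v, G.ConnIn P a v → G.ConnIn (insert f P) a v := fun v h =>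
      ConnIn.mono (Finset.subset_insert _ _) h
    have hc : G.ConnIn (insert f P) a c := hmono c (ih c (Or.inr (Or.inl rfl)))
    have hw : G.ConnIn (insert f P) a w :=
      ConnIn.trans hc (ConnIn.single (Finset.mem_insert_self _ _) hf)
    rcases hv with rfl | rfl | hv
    · exact ConnIn.refl _ _
    · exact hw
    · rw [G.bcirc_deg_insert hnot] at hv
      by_cases h1 : 0 < G.deg P v
      · exact hmono v (ih v (Or.inr (Or.inr h1)))
      · have h2 : v ∈ G.ends f := by
          by_contra h2
          rw [if_neg h2] at hv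
          omega
        rw [hf, Sym2.mem_iff] at h2
        rcases h2 with rfl | rfl
        · exact hc
        · exact hw

/-- Existence of paths. -/
lemma exists_pth {Y : Finset E} {a b : V} (h : G.ConnIn Y a b) : ∃ P, P ⊆ Y ∧ G.IsPth a b P := by
  unfold ConnIn at h
  induction h with
  | refl => exact ⟨∅, Finset.empty_subset _, IsPth.nil⟩
  | @tail c w _ hadj ih =>
    obtain ⟨P, hP, hp⟩ := ih
    obtain ⟨f, hf, hcw⟩ := hadj
    by_cases h1 : w = a ∨ 0 < G.deg P w
    · obtain ⟨P', h2, h3⟩ := hp.sub G w h1
      exact ⟨P', h2.trans hP, h3⟩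
    · push Not at h1
      exact ⟨insert f P, Finset.insert_subset hf hP, IsPth.cons hp hcw h1.1 (by omega)⟩

end pth

theorem t_BCirc : Stmt_BCirc := by
  intro V E _ _ _ _ G X e heX hbr
  have hex : ∃ a b, G.ends e = s(a, b) ∧ G.ConnIn (X.erase e) a b := by
    by_contra hcon
    push Not at hcon
    exact hbr ⟨heX, hcon⟩
  obtain ⟨a, b, he, hconn⟩ := hex
  have hab : a ≠ b := G.ne_of_ends he
  obtain ⟨P, hP, hp⟩ := G.exists_pth hconn
  have heP : e ∉ P := fun h => (Finset.mem_erase.mp (hP h)).1 rfl
  have hmem : ∀ v, v ∈ G.ends e ↔ v = a ∨ v = b := by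
    intro v
    rw [he, Sym2.mem_iff]
  rcases hp.degs G with ⟨h1, -⟩ | ⟨h1, h2, h3, h4⟩
  · exact absurd h1.symm hab
  · have hda : G.deg (insert e P) a = 2 := by
      rw [G.bcirc_deg_insert heP, if_pos ((hmem _).mpr (Or.inl rfl)), h2]
    have hconn' : ∀ v, G.deg (insert e P) v = 2 → G.ConnIn (insert e P) a v := by
      intro v hv
      rw [G.bcirc_deg_insert heP] at hv
      refine ConnIn.mono (Finset.subset_insert _ _) (hp.conn G v ?_)
      right; right
      split_ifs at hv <;> omega
    refine ⟨insert e P, ?_, Finset.mem_insert_self _ _, ?_, ?_, ?_⟩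
    · refine Finset.insert_subset heX (hP.trans (Finset.erase_subset _ _))
    · exact ⟨e, Finset.mem_insert_self _ _⟩
    · intro v
      by_cases hva : v = a
      · subst hva; exact Or.inr hda
      · by_cases hvb : v = b
        · subst hvb
          right
          rw [G.bcirc_deg_insert heP, if_pos ((hmem _).mpr (Or.inr rfl)), h3]
        · rw [G.bcirc_deg_insert heP, if_neg (fun h => ((hmem _).mp h).elim hva hvb)]
          rcases h4 v hva hvb with h | h
          · left; omega
          · right; omega
    · intro u v hu hv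
      exact ConnIn.trans (ConnIn.symm (hconn' u hu)) (hconn' v hv)

end Pool.GOD.MGraph
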