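import Pool.Agent.GOD.StmtG

/-!
Circuits are minimal among the nonempty even sets, and even sets are disjoint unions of circuits.
-/

set_option autoImplicit false

namespace Pool.GOD.MGraph

theorem t_BMin : Stmt_BMin := by
  intro V E _ _ _ _ G D D' hD hsub hne hev
  -- degrees of `D'`
  have hdeg : ∀ v, G.deg D' v = 0 ∨ (G.deg D' v = 2 ∧ G.deg D v = 2) := by
    intro v
    have h1 := G.deg_mono hsub v
    have h2 := hev v
    rcases hD.2.1 v with h3 | h3
    · left; omega
    · obtain ⟨k, hk⟩ := h2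
      by_cases h4 : G.deg D' v = 0
      · exact Or.inl h4
      · right
        exact ⟨by omega, h3⟩
  -- at a vertex of `D'` all edges of `D` are in `D'`
  have hfull : ∀ v e, G.deg D' v = 2 → G.deg D v = 2 → e ∈ D → v ∈ G.ends e → e ∈ D' := by
    intro v e h1 h2 he hv
    have h3 : D'.filter (fun e => v ∈ G.ends e) = D.filter (fun e => v ∈ G.ends e) := by
      apply Finset.eq_of_subset_of_card_le (Finset.filter_subset_filter _ hsub)
      unfold deg at h1 h2
      rw [h1, h2]
    have h4 : e ∈ D.filter (fun e => v ∈ G.ends e) := Finset.mem_filter.mpr ⟨he, hv⟩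
    rw [← h3] at h4
    exact (Finset.mem_filter.mp h4).1
  by_contra hDD
  have hex : ∃ e ∈ D, e ∉ D' := by
    by_contra hcon
    push Not at hcon
    exact hDD (Finset.Subset.antisymm hsub hcon)
  obtain ⟨e, heD, heD'⟩ := hex
  obtain ⟨c, d, -, hcd⟩ := G.exists_ends e
  obtain ⟨f, hf⟩ := hne
  obtain ⟨a, b, -, hab⟩ := G.exists_ends f
  have ha : 0 < G.deg D' a := G.deg_pos_iff.mpr ⟨f, hf, by rw [hab]; exact Sym2.mem_mk_left a b⟩
  have ha2 : G.deg D' a = 2 ∧ G.deg D a = 2 := by
    rcases hdeg a with h | h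
    · omega
    · exact h
  have hc : 0 < G.deg D c := G.deg_pos_iff.mpr ⟨e, heD, by rw [hcd]; exact Sym2.mem_mk_left c d⟩
  have hc2 : G.deg D c = 2 := by
    rcases hD.2.1 c with h | h
    · omega
    · exact h
  have hc0 : G.deg D' c = 0 := by
    rcases hdeg c with h | h
    · exact h
    · exact absurd (hfull c e h.1 h.2 heD (by rw [hcd]; exact Sym2.mem_mk_left c d)) heD'
  have hconn := hD.2.2 a c ha2.2 hc2
  obtain ⟨g, hgD, hgcut⟩ := G.exists_cut_of_connIn hconn
    (S := Finset.univ.filter (fun v => G.deg D' v = 2))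
    (by rw [Finset.mem_filter]; exact ⟨Finset.mem_univ _, ha2.1⟩)
    (by rw [Finset.mem_filter]; rintro ⟨-, h⟩; omega)
  obtain ⟨x, y, -, hxy⟩ := G.exists_ends g
  have key : ∀ x y, G.ends g = s(x, y) → G.deg D' x = 2 → G.deg D' y ≠ 2 → False := by
    intro x y hxy hx hy
    have hx2 : G.deg D x = 2 := by
      rcases hdeg x with h | h
      · omega
      · exact h.2
    have hg : g ∈ D' := hfull x g hx hx2 hgD (by rw [hxy]; exact Sym2.mem_mk_left x y)
    have hpos : 0 < G.deg D' y :=
      G.deg_pos_iff.mpr ⟨g, hg, by rw [hxy]; exact Sym2.mem_mk_right x y⟩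
    rcases hdeg y with h | h
    · omega
    · exact hy h.1
  rcases (G.mem_cut hxy).mp hgcut with ⟨h1, h2⟩ | ⟨h1, h2⟩
  · rw [Finset.mem_filter] at h1 h2
    exact key x y hxy h1.2 (fun h => h2 ⟨Finset.mem_univ _, h⟩)
  · rw [Finset.mem_filter] at h1 h2
    exact key y x (by rw [hxy, Sym2.eq_swap]) h1.2 (fun h => h2 ⟨Finset.mem_univ _, h⟩)

theorem t_BDeco (hBCirc : Stmt_BCirc) : Stmt_BDeco := by
  intro V E _ _ _ _ G D
  induction hn : D.card using Nat.strong_induction_on generalizing D with
  | _ n ih =>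
    intro hev
    rcases D.eq_empty_or_nonempty with rfl | ⟨e, he⟩
    · refine ⟨[], by simp, ?_⟩
      intro e
      simp [chi]
    · obtain ⟨C, hCD, heC, hC⟩ := hBCirc V E G D e he (hev.bridgeless G e)
      have hev' : G.IsEven (D \ C) := hev.sdiff G (hC.isEven G) hCD
      have hlt : (D \ C).card < n := by
        rw [← hn]
        apply Finset.card_lt_card
        rw [Finset.ssubset_iff_of_subset Finset.sdiff_subset]
        exact ⟨e, he, fun h => (Finset.mem_sdiff.mp h).2 heC⟩
      obtain ⟨L, hL1, hL2⟩ := ih _ hlt (D \ C) rfl hev'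
      refine ⟨C :: L, ?_, ?_⟩
      · intro C' hC'
        rcases List.mem_cons.mp hC' with rfl | hC'
        · exact ⟨hC, hCD⟩
        · exact ⟨(hL1 C' hC').1, (hL1 C' hC').2.trans Finset.sdiff_subset⟩
      · intro f
        rw [List.countP_cons, hL2 f]
        unfold chi
        by_cases h1 : f ∈ C
        · have h2 : f ∈ D := hCD h1
          simp [h1, h2]
        · by_cases h2 : f ∈ D <;> simp [h1, h2]

end Pool.GOD.MGraph
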