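import Pool.Agent.GOD.StmtG

/-!
Cyclic enumeration of a circuit.
-/

set_option autoImplicit false
set_option linter.unusedSectionVars false

namespace Pool.GOD

namespace MGraph

namespace BEnumX

section

variable {V E : Type} [Fintype V] [DecidableEq V] [Fintype E] [DecidableEq E] (G : MGraph V E)

/-- Two different edges of `D` at a vertex are all the edges of `D` there. -/
lemma filter_eq {D : Finset E} (hD : G.IsCircuit D) {v : V} {e f : E} (he : e ∈ D) (hf : f ∈ D)
    (hev : v ∈ G.ends e) (hfv : v ∈ G.ends f) (hne : e ≠ f) :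
    D.filter (fun g => v ∈ G.ends g) = {e, f} := by
  have h2 : G.deg D v = 2 := by
    rcases hD.2.1 v with h | h
    · have : 0 < G.deg D v := G.deg_pos_iff.mpr ⟨e, he, hev⟩
      omega
    · exact h
  symm
  apply Finset.eq_of_subset_of_card_le
  · intro g hg
    rw [Finset.mem_insert, Finset.mem_singleton] at hg
    rw [Finset.mem_filter]
    rcases hg with rfl | rfl
    · exact ⟨he, hev⟩
    · exact ⟨hf, hfv⟩
  · rw [Finset.card_pair hne]
    exact le_of_eq h2

lemma step {D : Finset E} (hD : G.IsCircuit D) (v : V) (e : E) (he : e ∈ D)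
    (hv : v ∈ G.ends e) :
    ∃ (v' : V) (e' : E), (e' ∈ D ∧ v' ∈ G.ends e') ∧ G.ends e = s(v, v') ∧ e' ≠ e := by
  obtain ⟨v', hv'⟩ : ∃ v', G.ends e = s(v, v') := hv
  have h1 : v' ∈ G.ends e := by rw [hv']; exact Sym2.mem_mk_right v v'
  have h2 : G.deg D v' = 2 := by
    rcases hD.2.1 v' with h | h
    · have : 0 < G.deg D v' := G.deg_pos_iff.mpr ⟨e, he, h1⟩
      omega
    · exact h
  have h3 : 1 < (D.filter (fun g => v' ∈ G.ends g)).card := by
    have : (D.filter (fun g => v' ∈ G.ends g)).card = 2 := h2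
    omega
  obtain ⟨e', he', hne⟩ := Finset.exists_mem_ne h3 e
  rw [Finset.mem_filter] at he'
  exact ⟨v', e', he', hv', hne⟩

lemma exists_walk {D : Finset E} (hD : G.IsCircuit D) :
    ∃ (a : ℕ → V) (p : ℕ → E), (∀ k, p k ∈ D) ∧ (∀ k, G.ends (p k) = s(a k, a (k + 1))) ∧
      ∀ k, p (k + 1) ≠ p k := by
  obtain ⟨e0, he0⟩ := hD.1
  obtain ⟨v0, v1, -, hv⟩ := G.exists_ends e0
  have hstep : ∀ x : {x : V × E // x.2 ∈ D ∧ x.1 ∈ G.ends x.2},
      ∃ y : {x : V × E // x.2 ∈ D ∧ x.1 ∈ G.ends x.2},
        G.ends x.1.2 = s(x.1.1, y.1.1) ∧ y.1.2 ≠ x.1.2 := by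
    rintro ⟨⟨v, e⟩, he, hv⟩
    obtain ⟨v', e', h1, h2, h3⟩ := step G hD v e he hv
    exact ⟨⟨(v', e'), h1⟩, h2, h3⟩
  choose f hf using hstep
  let x0 : {x : V × E // x.2 ∈ D ∧ x.1 ∈ G.ends x.2} :=
    ⟨(v0, e0), he0, by simp only [hv]; exact Sym2.mem_mk_left v0 v1⟩
  refine ⟨fun k => (f^[k] x0).1.1, fun k => (f^[k] x0).1.2, ?_, ?_, ?_⟩
  · intro k
    exact (f^[k] x0).2.1
  · intro k
    have := (hf (f^[k] x0)).1
    simp only [Function.iterate_succ_apply']
    exact this
  · intro k
    have := (hf (f^[k] x0)).2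
    simp only [Function.iterate_succ_apply']
    exact this

end

end BEnumX

open BEnumX in
theorem t_BEnum (_hBCirc : Stmt_BCirc) (hBMin : Stmt_BMin) : Stmt_BEnum := by
  intro V E _ _ _ _ G D hD
  obtain ⟨a, p, hpD, hends, hne⟩ := exists_walk G hD
  have hal : ∀ k, a k ∈ G.ends (p k) := fun k => by rw [hends]; exact Sym2.mem_mk_left _ _
  have har : ∀ k, a (k + 1) ∈ G.ends (p k) := fun k => by rw [hends]; exact Sym2.mem_mk_right _ _
  have hloop : ∀ k, a k ≠ a (k + 1) := fun k => G.ne_of_ends (hends k)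
  -- the first repetition
  have hex : ∃ N, ∃ j < N, a N = a j := by
    obtain ⟨i, j, hij, h⟩ := Finite.exists_ne_map_eq_of_infinite a
    rcases lt_or_gt_of_ne hij with hl | hl
    · exact ⟨j, i, hl, h.symm⟩
    · exact ⟨i, j, hl, h⟩
  classical
  obtain ⟨N, hN⟩ : ∃ N, N = Nat.find hex := ⟨_, rfl⟩
  have hNs : ∃ j < N, a N = a j := by rw [hN]; exact Nat.find_spec hex
  have hNm : ∀ m < N, ∀ j < m, a m ≠ a j := by
    intro m hm j hj h
    rw [hN] at hm
    exact Nat.find_min hex hm ⟨j, hj, h⟩
  have hinj : ∀ i < N, ∀ j < N, a i = a j → i = j := by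
    intro i hi j hj h
    by_contra hij
    rcases lt_or_gt_of_ne hij with hl | hl
    · exact hNm j hj i hl h.symm
    · exact hNm i hi j hl h
  obtain ⟨j, hj, hja⟩ := hNs
  have hN2 : 2 ≤ N := by
    by_contra h
    have h1 : N = 1 := by omega
    have h2 : j = 0 := by omega
    subst h1 h2
    exact hloop 0 hja.symm
  obtain ⟨K, rfl⟩ : ∃ K, N = K + 1 := ⟨N - 1, by omega⟩
  -- consecutive edges differ, also at the end
  have hedge : ∀ i < K + 1, ∀ l < K + 1, i < l → p i = p l → False := by
    intro i hi l hl hil h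
    have h1 : a l ∈ G.ends (p i) := by rw [h]; exact hal l
    rw [hends, Sym2.mem_iff] at h1
    rcases h1 with h1 | h1
    · have := hinj l hl i hi h1
      omega
    · have := hinj l hl (i + 1) (by omega) h1
      subst this
      exact hne i h.symm
  have hj0 : j = 0 := by
    by_contra hj0
    obtain ⟨i, rfl⟩ : ∃ i, j = i + 1 := ⟨j - 1, by omega⟩
    have h1 := filter_eq G hD (hpD i) (hpD (i + 1)) (har i) (hal (i + 1)) (hne i).symm
    have h2 : p K ∈ D.filter (fun g => a (i + 1) ∈ G.ends g) := by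
      rw [Finset.mem_filter, ← hja]
      exact ⟨hpD K, har K⟩
    rw [h1, Finset.mem_insert, Finset.mem_singleton] at h2
    rcases h2 with h2 | h2
    · exact hedge i (by omega) K (by omega) (by omega) h2.symm
    · by_cases hKi : i + 1 = K
      · -- then the last edge is a loop
        have h3 : a (K + 1) = a K := by rw [hja, hKi]
        exact hloop K h3.symm
      · exact hedge (i + 1) (by omega) K (by omega) (by omega) h2.symm
  subst hj0
  have hlast : p K ≠ p 0 := by
    intro h
    exact hedge 0 (by omega) K (by omega) (by omega) h.symm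
  have hpinj : ∀ i < K + 1, ∀ l < K + 1, p i = p l → i = l := by
    intro i hi l hl h
    by_contra hil
    rcases lt_or_gt_of_ne hil with h' | h'
    · exact hedge i hi l hl h' h
    · exact hedge l hl i hi h' h.symm
  -- the set of edges
  have hsub : (Finset.range (K + 1)).image p ⊆ D := by
    intro e he
    rw [Finset.mem_image] at he
    obtain ⟨k, -, rfl⟩ := he
    exact hpD k
  have hdeg : ∀ i < K + 1, G.deg ((Finset.range (K + 1)).image p) (a i) = 2 := by
    intro i hi
    obtain ⟨e, f, hef, he, hf, hea, hfa⟩ : ∃ e f, e ≠ f ∧ e ∈ (Finset.range (K + 1)).image p ∧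
        f ∈ (Finset.range (K + 1)).image p ∧ a i ∈ G.ends e ∧ a i ∈ G.ends f := by
      rcases Nat.eq_zero_or_pos i with rfl | hi0
      · refine ⟨p K, p 0, hlast, Finset.mem_image_of_mem _ (Finset.mem_range.mpr (by omega)),
          Finset.mem_image_of_mem _ (Finset.mem_range.mpr (by omega)), ?_, hal 0⟩
        rw [← hja]
        exact har K
      · obtain ⟨l, rfl⟩ : ∃ l, i = l + 1 := ⟨i - 1, by omega⟩
        exact ⟨p l, p (l + 1), (hne l).symm,
          Finset.mem_image_of_mem _ (Finset.mem_range.mpr (by omega)),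
          Finset.mem_image_of_mem _ (Finset.mem_range.mpr hi), har l, hal (l + 1)⟩
    have h1 := filter_eq G hD (hsub he) (hsub hf) hea hfa hef
    have h2 : ((Finset.range (K + 1)).image p).filter (fun g => a i ∈ G.ends g) = {e, f} := by
      apply Finset.Subset.antisymm
      · rw [← h1]
        exact Finset.filter_subset_filter _ hsub
      · intro g hg
        rw [Finset.mem_insert, Finset.mem_singleton] at hg
        rw [Finset.mem_filter]
        rcases hg with rfl | rfl
        · exact ⟨he, hea⟩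
        · exact ⟨hf, hfa⟩
    unfold deg
    rw [h2, Finset.card_pair hef]
  have hEven : G.IsEven ((Finset.range (K + 1)).image p) := by
    intro v
    by_cases h0 : G.deg ((Finset.range (K + 1)).image p) v = 0
    · rw [h0]; exact ⟨0, rfl⟩
    · obtain ⟨e, he, hv⟩ := G.deg_pos_iff.mp (Nat.pos_of_ne_zero h0)
      rw [Finset.mem_image] at he
      obtain ⟨k, hk, rfl⟩ := he
      rw [Finset.mem_range] at hk
      rw [hends, Sym2.mem_iff] at hv
      rcases hv with rfl | rfl
      · rw [hdeg k hk]; exact ⟨1, rfl⟩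
      · by_cases hk1 : k + 1 < K + 1
        · rw [hdeg (k + 1) hk1]; exact ⟨1, rfl⟩
        · have : k = K := by omega
          subst this
          rw [hja, hdeg 0 (by omega)]; exact ⟨1, rfl⟩
  have hDeq : (Finset.range (K + 1)).image p = D :=
    hBMin V E G D _ hD hsub ⟨p 0, Finset.mem_image_of_mem _ (Finset.mem_range.mpr (by omega))⟩
      hEven
  have hcard : D.card = K + 1 := by
    rw [← hDeq, Finset.card_image_of_injOn, Finset.card_range]
    intro i hi l hl h
    rw [Finset.coe_range, Set.mem_Iio] at hi hl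
    exact hpinj i hi l hl h
  rw [hcard]
  have hval : ∀ i : ZMod (K + 1), i.val < K + 1 := fun i => ZMod.val_lt i
  have hsucc : ∀ i : ZMod (K + 1), a (i + 1).val = a (i.val + 1) := by
    intro i
    have h3 : (1 : ZMod (K + 1)).val = 1 := by
      have : Fact (1 < K + 1) := ⟨by omega⟩
      exact ZMod.val_one (K + 1)
    by_cases h : i.val + 1 < K + 1
    · rw [ZMod.val_add, h3, Nat.mod_eq_of_lt h]
    · have h1 : i.val = K := by have := hval i; omega
      have h2 : (i + 1).val = 0 := by rw [ZMod.val_add, h3, h1, Nat.mod_self]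
      rw [h2, h1, hja]
  refine ⟨fun i => a i.val, fun i => p i.val, hN2, ?_, ?_, ?_, ?_, ?_⟩
  · intro i l h
    exact ZMod.val_injective _ (hinj _ (hval i) _ (hval l) h)
  · intro i l h
    exact ZMod.val_injective _ (hpinj _ (hval i) _ (hval l) h)
  · intro i
    show G.ends (p i.val) = s(a i.val, a (i + 1).val)
    rw [hsucc, hends]
  · intro e
    constructor
    · intro he
      rw [← hDeq, Finset.mem_image] at he
      obtain ⟨k, hk, rfl⟩ := he
      rw [Finset.mem_range] at hk
      exact ⟨(k : ZMod (K + 1)), by simp only [ZMod.val_natCast_of_lt hk]⟩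
    · rintro ⟨i, rfl⟩
      exact hpD _
  · intro v
    constructor
    · intro hv
      obtain ⟨e, he, hve⟩ := G.deg_pos_iff.mp (by omega : 0 < G.deg D v)
      rw [← hDeq, Finset.mem_image] at he
      obtain ⟨k, hk, rfl⟩ := he
      rw [Finset.mem_range] at hk
      rw [hends, Sym2.mem_iff] at hve
      have hk' : ((k : ZMod (K + 1))).val = k := ZMod.val_natCast_of_lt hk
      rcases hve with rfl | rfl
      · exact ⟨(k : ZMod (K + 1)), by simp only [hk']⟩
      · refine ⟨(k : ZMod (K + 1)) + 1, ?_⟩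
        show a (k + 1) = a ((k : ZMod (K + 1)) + 1).val
        rw [hsucc, hk']
    · rintro ⟨i, rfl⟩
      rw [← hDeq]
      exact hdeg _ (hval i)

end MGraph

end Pool.GOD
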