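import Mathlib

/-!
Graph-theoretic base layer for MP_7b7176_co (Goddyn's question on minimal contra pairs).

Graphs are finite loopless multigraphs: a type `V` of vertices, a type `E` of edges and the map
`ends : E → Sym2 V`.  Subgraphs are given by their edge sets `X : Finset E`.
Weights are maps `w : E → ℕ`.
-/

set_option autoImplicit false

namespace Pool.GOD

/-- A loopless multigraph with vertices `V` and edges `E`. -/
structure MGraph (V E : Type*) where
  /-- the two ends of an edge -/
  ends : E → Sym2 V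
  /-- there are no loops -/
  loopless : ∀ e, ¬ (ends e).IsDiag

namespace MGraph

variable {V E : Type*}

section defs

variable [Fintype V] [DecidableEq V] [Fintype E] [DecidableEq E] (G : MGraph V E)

/-- The edges at the vertex `v`. -/
def star (v : V) : Finset E := Finset.univ.filter (fun e => v ∈ G.ends e)

/-- The degree of `v` in the subgraph with edge set `X`. -/
def deg (X : Finset E) (v : V) : ℕ := (X.filter (fun e => v ∈ G.ends e)).card

/-- All degrees are 3. -/
def Cubic : Prop := ∀ v, G.deg Finset.univ v = 3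

/-- The edge cut of the vertex set `S`: the edges with exactly one end in `S`. -/
def cut (S : Finset V) : Finset E :=
  Finset.univ.filter (fun e => (∃ a ∈ G.ends e, a ∈ S) ∧ (∃ b ∈ G.ends e, b ∉ S))

/-- Two vertices joined by an edge of `X`. -/
def AdjIn (X : Finset E) (a b : V) : Prop := ∃ e ∈ X, G.ends e = s(a, b)

/-- Two vertices joined by a path in `X`. -/
def ConnIn (X : Finset E) (a b : V) : Prop := Relation.ReflTransGen (G.AdjIn X) a b

/-- A circuit: the edge set of a connected 2-regular subgraph. -/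
def IsCircuit (D : Finset E) : Prop :=
  D.Nonempty ∧ (∀ v, G.deg D v = 0 ∨ G.deg D v = 2) ∧
    ∀ a b, G.deg D a = 2 → G.deg D b = 2 → G.ConnIn D a b

/-- `e` is a bridge of the subgraph `X`. -/
def IsBridge (X : Finset E) (e : E) : Prop :=
  e ∈ X ∧ ∀ a b, G.ends e = s(a, b) → ¬ G.ConnIn (X.erase e) a b

/-- `X` has no bridge. -/
def Bridgeless (X : Finset E) : Prop := ∀ e, ¬ G.IsBridge X e

/-- `w` is an eulerian `(1,2)`-weight of the subgraph `X`. -/
def IsEul (X : Finset E) (w : E → ℕ) : Prop :=
  (∀ e ∈ X, w e = 1 ∨ w e = 2) ∧ ∀ S : Finset V, Even (∑ e ∈ X ∩ G.cut S, w e)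

/-- A faithful cover of `(X, w)`: a family of circuits of `X` such that every edge `e` of `X` is in
exactly `w e` members. -/
def HasCover (X : Finset E) (w : E → ℕ) : Prop :=
  ∃ L : List (Finset E), (∀ D ∈ L, G.IsCircuit D ∧ D ⊆ X) ∧
    ∀ e ∈ X, L.countP (fun D => decide (e ∈ D)) = w e

/-- `(X, w)` is a contra pair. -/
def IsContra (X : Finset E) (w : E → ℕ) : Prop := G.Bridgeless X ∧ ¬ G.HasCover X w

/-- The indicator function of `D`. -/
def chi (D : Finset E) (e : E) : ℕ := if e ∈ D then 1 else 0

/-- The circuit `D` of `X` is removable in `(X, w)`. -/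
def IsRemovable (X : Finset E) (w : E → ℕ) (D : Finset E) : Prop :=
  G.IsCircuit D ∧ D ⊆ X ∧
    G.IsEul (X.filter (fun e => 0 < w e - chi D e)) (fun e => w e - chi D e) ∧
    G.Bridgeless (X.filter (fun e => 0 < w e - chi D e))

/-- Minimal contra pairs. -/
def MinContra (w : E → ℕ) : Prop :=
  G.Cubic ∧ G.IsEul Finset.univ w ∧ G.IsContra Finset.univ w ∧
    (∀ D, ¬ G.IsRemovable Finset.univ w D) ∧
    ∀ e, w e = 2 → G.HasCover (Finset.univ.erase e) w

end defs

/-- Isomorphism of weighted multigraphs. -/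
def WIso {V' E' : Type*} (G : MGraph V E) (w : E → ℕ) (G' : MGraph V' E') (w' : E' → ℕ) : Prop :=
  ∃ (φ : V ≃ V') (ψ : E ≃ E'), (∀ e, G'.ends (ψ e) = (G.ends e).map φ) ∧ ∀ e, w' (ψ e) = w e

/-- The ends of the edges of the Petersen graph: edges `0..4` form the outer pentagon
`0 1 2 3 4`, edges `5..9` are the spokes `i, i + 5`, edges `10..14` form the inner pentagram. -/
def p10ends : Fin 15 → Sym2 (Fin 10) :=
  ![s(0, 1), s(1, 2), s(2, 3), s(3, 4), s(4, 0), s(0, 5), s(1, 6), s(2, 7), s(3, 8), s(4, 9),
    s(5, 7), s(6, 8), s(7, 9), s(8, 5), s(9, 6)]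

/-- The Petersen graph. -/
def P10 : MGraph (Fin 10) (Fin 15) where
  ends := p10ends
  loopless := by decide

/-- The weight: 2 on the spokes, 1 on the two pentagons. -/
def w10 : Fin 15 → ℕ := ![1, 1, 1, 1, 1, 2, 2, 2, 2, 2, 1, 1, 1, 1, 1]

/-- The statement of Q1: the minimal contra pairs are exactly the weighted graphs isomorphic to
`(P10, w10)`. -/
def Q1 : Prop :=
  ∀ (V E : Type) [Fintype V] [DecidableEq V] [Fintype E] [DecidableEq E] (G : MGraph V E)
    (w : E → ℕ), G.MinContra w ↔ WIso G w P10 w10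

end MGraph

end Pool.GOD
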