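import Pool.Agent.GOD.Base

/-!
Elementary facts on the multigraphs of `Pool.Agent.GOD.Base`: degrees, cuts, parity.
-/

set_option autoImplicit false
set_option linter.unusedSectionVars false

namespace Pool.GOD

namespace MGraph

variable {V E : Type*} (G : MGraph V E)

lemma exists_ends (e : E) : ∃ a b, a ≠ b ∧ G.ends e = s(a, b) := by
  have h := G.loopless e
  revert h
  induction G.ends e with | h a b => ?_
  intro h
  exact ⟨a, b, fun hab => h (by rw [hab]; exact Sym2.mk_isDiag_iff.mpr rfl), rfl⟩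

lemma ne_of_ends {e : E} {a b : V} (h : G.ends e = s(a, b)) : a ≠ b := by
  intro hab
  apply G.loopless e
  rw [h, hab]
  exact Sym2.mk_isDiag_iff.mpr rfl

section

variable [Fintype V] [DecidableEq V] [Fintype E] [DecidableEq E]

lemma mem_star {e : E} {v : V} : e ∈ G.star v ↔ v ∈ G.ends e := by
  simp [star]

lemma mem_cut {S : Finset V} {e : E} {a b : V} (h : G.ends e = s(a, b)) :
    e ∈ G.cut S ↔ (a ∈ S ∧ b ∉ S) ∨ (b ∈ S ∧ a ∉ S) := by
  simp only [cut, Finset.mem_filter, Finset.mem_univ, true_and, h, Sym2.mem_iff]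
  constructor
  · rintro ⟨⟨x, hx | hx, hxS⟩, ⟨y, hy | hy, hyS⟩⟩ <;> subst hx <;> subst hy <;> tauto
  · rintro (⟨h1, h2⟩ | ⟨h1, h2⟩)
    · exact ⟨⟨a, Or.inl rfl, h1⟩, ⟨b, Or.inr rfl, h2⟩⟩
    · exact ⟨⟨b, Or.inr rfl, h1⟩, ⟨a, Or.inl rfl, h2⟩⟩

lemma cut_compl (S : Finset V) : G.cut Sᶜ = G.cut S := by
  ext e
  obtain ⟨a, b, -, h⟩ := G.exists_ends e
  rw [G.mem_cut h, G.mem_cut h, Finset.mem_compl, Finset.mem_compl]
  tauto

@[simp] lemma cut_empty : G.cut ∅ = ∅ := by
  ext e
  simp [cut]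

@[simp] lemma cut_univ : G.cut Finset.univ = ∅ := by
  ext e
  simp [cut]

lemma cut_singleton (v : V) : G.cut {v} = G.star v := by
  ext e
  obtain ⟨a, b, hab, h⟩ := G.exists_ends e
  rw [G.mem_cut h, G.mem_star, h, Sym2.mem_iff, Finset.mem_singleton, Finset.mem_singleton]
  constructor
  · rintro (⟨h1, -⟩ | ⟨h1, -⟩)
    · exact Or.inl h1.symm
    · exact Or.inr h1.symm
  · rintro (rfl | rfl)
    · exact Or.inl ⟨rfl, fun h' => hab h'.symm⟩
    · exact Or.inr ⟨rfl, hab⟩

/-- The number of ends of an edge in `S`. -/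
lemma card_ends (e : E) (S : Finset V) :
    (S.filter (fun v => v ∈ G.ends e)).card =
      (if e ∈ G.cut S then 1 else 0) + 2 * (if ∀ a ∈ G.ends e, a ∈ S then 1 else 0) := by
  obtain ⟨a, b, hab, h⟩ := G.exists_ends e
  have h1 : S.filter (fun v => v ∈ G.ends e) = S.filter (fun v => v = a) ∪
      S.filter (fun v => v = b) := by
    ext v
    simp only [Finset.mem_filter, Finset.mem_union, h, Sym2.mem_iff]
    tauto
  have h2 : (∀ x ∈ G.ends e, x ∈ S) ↔ a ∈ S ∧ b ∈ S := by
    rw [h]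
    constructor
    · intro hh
      exact ⟨hh a (Sym2.mem_mk_left a b), hh b (Sym2.mem_mk_right a b)⟩
    · rintro ⟨ha, hb⟩ x hx
      rcases Sym2.mem_iff.mp hx with rfl | rfl
      · exact ha
      · exact hb
  have h3 : Disjoint (S.filter (fun v => v = a)) (S.filter (fun v => v = b)) := by
    rw [Finset.disjoint_left]
    intro v hv hv'
    rw [Finset.mem_filter] at hv hv'
    exact hab (hv.2.symm.trans hv'.2)
  rw [h1, Finset.card_union_of_disjoint h3, Finset.filter_eq', Finset.filter_eq']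
  simp only [h2, G.mem_cut h]
  by_cases ha : a ∈ S <;> by_cases hb : b ∈ S <;> simp [ha, hb]

/-- Summing a weight over the vertices of `S`. -/
lemma sum_star (X : Finset E) (f : E → ℕ) (S : Finset V) :
    ∑ v ∈ S, ∑ e ∈ X.filter (fun e => v ∈ G.ends e), f e =
      ∑ e ∈ X ∩ G.cut S, f e +
        2 * ∑ e ∈ X.filter (fun e => ∀ a ∈ G.ends e, a ∈ S), f e := by
  have h1 : ∑ v ∈ S, ∑ e ∈ X.filter (fun e => v ∈ G.ends e), f e =
      ∑ e ∈ X, f e * (S.filter (fun v => v ∈ G.ends e)).card := by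
    simp only [Finset.sum_filter]
    rw [Finset.sum_comm]
    refine Finset.sum_congr rfl fun e _ => ?_
    rw [Finset.card_filter, Finset.mul_sum]
    refine Finset.sum_congr rfl fun v _ => ?_
    split_ifs <;> simp
  rw [h1]
  simp only [G.card_ends, mul_add]
  rw [Finset.sum_add_distrib]
  congr 1
  · rw [← Finset.filter_mem_eq_inter, Finset.sum_filter]
    refine Finset.sum_congr rfl fun e _ => ?_
    split_ifs <;> simp
  · rw [Finset.sum_filter, Finset.mul_sum]
    refine Finset.sum_congr rfl fun e _ => ?_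
    split_ifs <;> simp [mul_comm]

lemma sum_deg (X : Finset E) (S : Finset V) :
    ∑ v ∈ S, G.deg X v =
      (X ∩ G.cut S).card + 2 * (X.filter (fun e => ∀ a ∈ G.ends e, a ∈ S)).card := by
  have := G.sum_star X (fun _ => 1) S
  simpa [deg] using this

/-- All degrees are even. -/
def IsEven (D : Finset E) : Prop := ∀ v, Even (G.deg D v)

lemma IsEven.card_inter_cut {D : Finset E} (h : G.IsEven D) (S : Finset V) :
    Even (D ∩ G.cut S).card := by
  have h1 := G.sum_deg D S
  have h2 : Even (∑ v ∈ S, G.deg D v) := Finset.even_sum _ (fun v _ => h v)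
  rw [h1] at h2
  exact (Nat.even_add.mp h2).mpr ⟨_, by ring⟩

lemma isEven_iff {D : Finset E} : G.IsEven D ↔ ∀ S : Finset V, Even (D ∩ G.cut S).card := by
  refine ⟨fun h => h.card_inter_cut, fun h v => ?_⟩
  have h1 := h {v}
  rw [cut_singleton] at h1
  have h2 : D ∩ G.star v = D.filter (fun e => v ∈ G.ends e) := by
    ext e
    rw [Finset.mem_inter, mem_star, Finset.mem_filter]
  rwa [h2] at h1

/-- Eulerian weights are those with even sum at every vertex. -/
lemma isEul_iff {X : Finset E} {w : E → ℕ} : G.IsEul X w ↔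
    (∀ e ∈ X, w e = 1 ∨ w e = 2) ∧ ∀ v, Even (∑ e ∈ X.filter (fun e => v ∈ G.ends e), w e) := by
  constructor
  · rintro ⟨h1, h2⟩
    refine ⟨h1, fun v => ?_⟩
    have h3 := h2 {v}
    rw [cut_singleton] at h3
    have h4 : X ∩ G.star v = X.filter (fun e => v ∈ G.ends e) := by
      ext e
      rw [Finset.mem_inter, mem_star, Finset.mem_filter]
    rwa [h4] at h3
  · rintro ⟨h1, h2⟩
    refine ⟨h1, fun S => ?_⟩
    have h3 := G.sum_star X w S
    have h4 : Even (∑ v ∈ S, ∑ e ∈ X.filter (fun e => v ∈ G.ends e), w e) :=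
      Finset.even_sum _ (fun v _ => h2 v)
    rw [h3] at h4
    exact (Nat.even_add.mp h4).mpr ⟨_, by ring⟩

lemma deg_union {X Y : Finset E} (h : Disjoint X Y) (v : V) :
    G.deg (X ∪ Y) v = G.deg X v + G.deg Y v := by
  unfold deg
  rw [Finset.filter_union]
  exact Finset.card_union_of_disjoint (Finset.disjoint_filter_filter h)

lemma deg_mono {X Y : Finset E} (h : X ⊆ Y) (v : V) : G.deg X v ≤ G.deg Y v :=
  Finset.card_le_card (Finset.filter_subset_filter _ h)

lemma deg_sdiff {X Y : Finset E} (h : Y ⊆ X) (v : V) :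
    G.deg (X \ Y) v + G.deg Y v = G.deg X v := by
  rw [← G.deg_union Finset.sdiff_disjoint, Finset.sdiff_union_of_subset h]

lemma deg_pos_iff {X : Finset E} {v : V} : 0 < G.deg X v ↔ ∃ e ∈ X, v ∈ G.ends e := by
  unfold deg
  rw [Finset.card_pos]
  constructor
  · rintro ⟨e, he⟩
    rw [Finset.mem_filter] at he
    exact ⟨e, he.1, he.2⟩
  · rintro ⟨e, h1, h2⟩
    exact ⟨e, Finset.mem_filter.mpr ⟨h1, h2⟩⟩

lemma IsEven.sdiff {X Y : Finset E} (hX : G.IsEven X) (hY : G.IsEven Y) (h : Y ⊆ X) :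
    G.IsEven (X \ Y) := by
  intro v
  have h1 := G.deg_sdiff h v
  have h2 := hX v
  rw [← h1] at h2
  exact (Nat.even_add.mp h2).mpr (hY v)

lemma IsEven.union {X Y : Finset E} (hX : G.IsEven X) (hY : G.IsEven Y) (h : Disjoint X Y) :
    G.IsEven (X ∪ Y) := by
  intro v
  rw [G.deg_union h]
  exact (hX v).add (hY v)

lemma isEven_empty : G.IsEven (∅ : Finset E) := by
  intro v
  simp [deg]

lemma IsCircuit.isEven {D : Finset E} (h : G.IsCircuit D) : G.IsEven D := by
  intro v
  rcases h.2.1 v with h | h <;> rw [h] <;> decide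

end

section

variable {G}

lemma AdjIn.symm {X : Finset E} {a b : V} (h : G.AdjIn X a b) : G.AdjIn X b a := by
  obtain ⟨e, h1, h2⟩ := h
  exact ⟨e, h1, by rw [h2, Sym2.eq_swap]⟩

lemma AdjIn.mono {X Y : Finset E} (hXY : X ⊆ Y) {a b : V} (h : G.AdjIn X a b) :
    G.AdjIn Y a b := by
  obtain ⟨e, h1, h2⟩ := h
  exact ⟨e, hXY h1, h2⟩

lemma ConnIn.refl (X : Finset E) (a : V) : G.ConnIn X a a := Relation.ReflTransGen.refl

lemma ConnIn.trans {X : Finset E} {a b c : V} (h : G.ConnIn X a b) (h' : G.ConnIn X b c) :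
    G.ConnIn X a c := Relation.ReflTransGen.trans h h'

lemma ConnIn.symm {X : Finset E} {a b : V} (h : G.ConnIn X a b) : G.ConnIn X b a := by
  induction h with
  | refl => exact ConnIn.refl X a
  | tail _ h2 ih => exact ConnIn.trans (Relation.ReflTransGen.single h2.symm) ih

lemma ConnIn.mono {X Y : Finset E} (hXY : X ⊆ Y) {a b : V} (h : G.ConnIn X a b) :
    G.ConnIn Y a b := by
  induction h with
  | refl => exact ConnIn.refl Y a
  | tail _ h2 ih => exact ConnIn.trans ih (Relation.ReflTransGen.single (h2.mono hXY))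

lemma ConnIn.single {X : Finset E} {e : E} (he : e ∈ X) {a b : V} (h : G.ends e = s(a, b)) :
    G.ConnIn X a b := Relation.ReflTransGen.single ⟨e, he, h⟩

end

section

variable [Fintype V] [DecidableEq V] [Fintype E] [DecidableEq E]

/-- A path from `S` to its complement uses an edge of the cut. -/
lemma exists_cut_of_connIn {X : Finset E} {a b : V} (h : G.ConnIn X a b) {S : Finset V}
    (ha : a ∈ S) (hb : b ∉ S) : ∃ e ∈ X, e ∈ G.cut S := by
  induction h with
  | refl => exact absurd ha hb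
  | @tail c d _ h2 ih =>
    by_cases hc : c ∈ S
    · obtain ⟨e, he, h3⟩ := h2
      exact ⟨e, he, (G.mem_cut h3).mpr (Or.inl ⟨hc, hb⟩)⟩
    · exact ih hc

open Classical in
/-- The component of `a` in `X`. -/
noncomputable def comp (X : Finset E) (a : V) : Finset V :=
  Finset.univ.filter (fun b => G.ConnIn X a b)

lemma mem_comp {X : Finset E} {a b : V} : b ∈ G.comp X a ↔ G.ConnIn X a b := by
  simp [comp]

lemma self_mem_comp (X : Finset E) (a : V) : a ∈ G.comp X a := by
  rw [mem_comp]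
  exact ConnIn.refl X a

lemma inter_cut_comp (X : Finset E) (a : V) : X ∩ G.cut (G.comp X a) = ∅ := by
  rw [Finset.eq_empty_iff_forall_notMem]
  intro e he
  rw [Finset.mem_inter] at he
  obtain ⟨c, d, -, h⟩ := G.exists_ends e
  rw [G.mem_cut h, mem_comp, mem_comp] at he
  rcases he.2 with ⟨h1, h2⟩ | ⟨h1, h2⟩
  · exact h2 (h1.trans (ConnIn.single he.1 h))
  · exact h2 (h1.trans (ConnIn.single he.1 h).symm)

/-- An edge is a bridge iff it is the only edge of `X` in some cut. -/
lemma isBridge_iff {X : Finset E} {e : E} :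
    G.IsBridge X e ↔ ∃ S : Finset V, X ∩ G.cut S = {e} := by
  constructor
  · rintro ⟨he, h⟩
    obtain ⟨a, b, -, hab⟩ := G.exists_ends e
    refine ⟨G.comp (X.erase e) a, ?_⟩
    have h1 := G.inter_cut_comp (X.erase e) a
    have h2 := h a b hab
    ext f
    rw [Finset.mem_inter, Finset.mem_singleton]
    constructor
    · rintro ⟨hf, hf'⟩
      by_contra hne
      have : f ∈ X.erase e ∩ G.cut (G.comp (X.erase e) a) :=
        Finset.mem_inter.mpr ⟨Finset.mem_erase.mpr ⟨hne, hf⟩, hf'⟩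
      rw [h1] at this
      exact absurd this (Finset.notMem_empty f)
    · rintro rfl
      refine ⟨he, ?_⟩
      rw [G.mem_cut hab]
      exact Or.inl ⟨G.self_mem_comp _ a, by rw [mem_comp]; exact h2⟩
  · rintro ⟨S, hS⟩
    have he : e ∈ X ∩ G.cut S := by rw [hS]; exact Finset.mem_singleton_self e
    rw [Finset.mem_inter] at he
    refine ⟨he.1, ?_⟩
    intro a b hab hc
    have key : ∀ x y, G.ConnIn (X.erase e) x y → x ∈ S → y ∉ S → False := by
      intro x y hxy hx hy
      obtain ⟨f, hf, hf'⟩ := G.exists_cut_of_connIn hxy hx hy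
      rw [Finset.mem_erase] at hf
      have : f ∈ X ∩ G.cut S := Finset.mem_inter.mpr ⟨hf.2, hf'⟩
      rw [hS, Finset.mem_singleton] at this
      exact hf.1 this
    rcases (G.mem_cut hab).mp he.2 with ⟨h1, h2⟩ | ⟨h1, h2⟩
    · exact key a b hc h1 h2
    · exact key b a hc.symm h1 h2

/-- Even sets have no bridges. -/
lemma IsEven.bridgeless {D : Finset E} (h : G.IsEven D) : G.Bridgeless D := by
  intro e he
  obtain ⟨S, hS⟩ := G.isBridge_iff.mp he
  have h1 := h.card_inter_cut G S
  rw [hS, Finset.card_singleton] at h1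
  exact absurd h1 (by decide)

end

end MGraph

end Pool.GOD
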