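import Pool.Agent.GOD.StmtG

/-!
The circuits of a cover of `G - e` form a chain (`Stmt_Chain`).
-/

set_option autoImplicit false
set_option linter.unusedSectionVars false

namespace Pool.GOD

namespace MGraph

namespace ChainX

/-- Counting the members of a list through its indices. -/
lemma countP_fin {α : Type*} (L : List α) (q : α → Bool) :
    L.countP q = (Finset.univ.filter (fun i : Fin L.length => q (L.get i) = true)).card := by
  rw [Finset.card_filter]
  induction L with
  | nil => rfl
  | cons a L ih =>
    rw [List.countP_cons, ih]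
    have h := Fin.sum_univ_succ
      (fun i : Fin (L.length + 1) => if q ((a :: L).get i) = true then 1 else 0)
    simp only [List.length_cons]
    rw [h]
    simp only [List.get_cons_zero]
    rw [add_comm]
    rfl

section

variable {V E : Type} [Fintype V] [DecidableEq V] [Fintype E] [DecidableEq E] (G : MGraph V E)

/-- An edge of a circuit: its ends have degree 2. -/
lemma deg_two {D : Finset E} (hD : G.IsCircuit D) {f : E} (hf : f ∈ D) {v : V}
    (hv : v ∈ G.ends f) : G.deg D v = 2 := by
  have h1 : 0 < G.deg D v := (G.deg_pos_iff).mpr ⟨f, hf, hv⟩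
  rcases hD.2.1 v with h | h
  · omega
  · exact h

variable {t : ℕ} (C : Fin t → Finset E)

/-- The number of members through `g` other than `C k`. -/
lemma card_erase (w : E → ℕ) {g : E} (hN : (Finset.univ.filter (fun i => g ∈ C i)).card = w g)
    (k : Fin t) : ((Finset.univ.filter (fun i => g ∈ C i)).erase k).card = w g - chi (C k) g := by
  rw [Finset.card_erase_eq_ite, hN]
  unfold chi
  by_cases h : g ∈ C k
  · simp [h]
  · simp [h]

lemma exists_other (w : E → ℕ) {g : E}
    (hN : (Finset.univ.filter (fun i => g ∈ C i)).card = w g) (k : Fin t) :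
    0 < w g - chi (C k) g ↔ ∃ l, l ≠ k ∧ g ∈ C l := by
  rw [← card_erase C w hN k, Finset.card_pos]
  constructor
  · rintro ⟨l, hl⟩
    rw [Finset.mem_erase, Finset.mem_filter] at hl
    exact ⟨l, hl.1, hl.2.2⟩
  · rintro ⟨l, h1, h2⟩
    exact ⟨l, Finset.mem_erase.mpr ⟨h1, Finset.mem_filter.mpr ⟨Finset.mem_univ l, h2⟩⟩⟩

/-- `x` and `y` are not joined in the union of the other circuits. -/
lemma not_conn (w : E → ℕ) (hE : G.IsEul Finset.univ w)
    (hR : ∀ D, ¬ G.IsRemovable Finset.univ w D) {e : E} {x y : V} (he : w e = 2)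
    (hxy : G.ends e = s(x, y)) (hC : ∀ i, G.IsCircuit (C i)) (hCe : ∀ i, e ∉ C i)
    (hN : ∀ f, f ≠ e → (Finset.univ.filter (fun i => f ∈ C i)).card = w f) (k : Fin t) :
    ¬ G.ConnIn ((Finset.univ.erase k).biUnion C) x y := by
  intro hconn
  apply hR (C k)
  have hchi : ∀ g, chi (C k) g ≤ 1 := by
    intro g
    unfold chi
    split_ifs <;> omega
  have hle : ∀ g, chi (C k) g ≤ w g := by
    intro g
    have h1 := hchi g
    rcases hE.1 g (Finset.mem_univ g) with h | h <;> omega
  refine ⟨hC k, Finset.subset_univ _, ⟨?_, ?_⟩, ?_⟩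
  · intro f hf
    rw [Finset.mem_filter] at hf
    have h1 : 0 < w f - chi (C k) f := hf.2
    change w f - chi (C k) f = 1 ∨ w f - chi (C k) f = 2
    rcases hE.1 f (Finset.mem_univ f) with h | h
    · left
      omega
    · have h2 := hchi f
      omega
  · intro S
    have h1 : ∑ f ∈ Finset.univ.filter (fun f => 0 < w f - chi (C k) f) ∩ G.cut S,
        (w f - chi (C k) f) = ∑ f ∈ Finset.univ ∩ G.cut S, (w f - chi (C k) f) := by
      apply Finset.sum_subset
      · exact Finset.inter_subset_inter (Finset.filter_subset _ _) (Finset.Subset.refl _)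
      · intro f hf hf'
        rw [Finset.mem_inter, Finset.mem_filter] at hf'
        rw [Finset.mem_inter] at hf
        by_contra hne
        exact hf' ⟨⟨Finset.mem_univ f, Nat.pos_of_ne_zero hne⟩, hf.2⟩
    rw [h1]
    have h2 : ∑ f ∈ Finset.univ ∩ G.cut S, w f =
        ∑ f ∈ Finset.univ ∩ G.cut S, (w f - chi (C k) f) +
          ∑ f ∈ Finset.univ ∩ G.cut S, chi (C k) f := by
      rw [← Finset.sum_add_distrib]
      refine Finset.sum_congr rfl fun f _ => ?_
      have := hle f
      omega
    have h3 : ∑ f ∈ Finset.univ ∩ G.cut S, chi (C k) f = (C k ∩ G.cut S).card := by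
      unfold chi
      rw [← Finset.card_filter]
      congr 1
      ext f
      simp only [Finset.mem_filter, Finset.mem_inter, Finset.mem_univ, true_and]
      exact and_comm
    have h4 := hE.2 S
    rw [h2, h3] at h4
    exact (Nat.even_add.mp h4).mpr ((hC k).isEven.card_inter_cut G S)
  · intro f hf
    have hsub : ∀ l, l ≠ k → C l ⊆ Finset.univ.filter (fun f => 0 < w f - chi (C k) f) := by
      intro l hl g hg
      rw [Finset.mem_filter]
      refine ⟨Finset.mem_univ g, ?_⟩
      have hge : g ≠ e := by
        rintro rfl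
        exact hCe l hg
      exact (exists_other C w (hN g hge) k).mpr ⟨l, hl, hg⟩
    by_cases hfe : f = e
    · subst hfe
      apply hf.2 x y hxy
      refine hconn.mono ?_
      intro g hg
      rw [Finset.mem_biUnion] at hg
      obtain ⟨l, hl, hg⟩ := hg
      rw [Finset.mem_erase] at hl
      refine Finset.mem_erase.mpr ⟨?_, hsub l hl.1 hg⟩
      rintro rfl
      exact hCe l hg
    · obtain ⟨S, hS⟩ := G.isBridge_iff.mp hf
      have hf1 := hf.1
      rw [Finset.mem_filter] at hf1
      obtain ⟨l, hl, hfl⟩ := (exists_other C w (hN f hfe) k).mp hf1.2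
      have hfS : f ∈ G.cut S := by
        have : f ∈ Finset.univ.filter (fun f => 0 < w f - chi (C k) f) ∩ G.cut S := by
          rw [hS]
          exact Finset.mem_singleton_self f
        exact (Finset.mem_inter.mp this).2
      have h5 : C l ∩ G.cut S = {f} := by
        apply Finset.Subset.antisymm
        · rw [← hS]
          exact Finset.inter_subset_inter (hsub l hl) (Finset.Subset.refl _)
        · rw [Finset.singleton_subset_iff]
          exact Finset.mem_inter.mpr ⟨hfl, hfS⟩
      have h6 := (hC l).isEven.card_inter_cut G S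
      rw [h5, Finset.card_singleton] at h6
      exact absurd h6 (by decide)

/-- The intersection graph of the circuits. -/
def J : SimpleGraph (Fin t) where
  Adj i j := i ≠ j ∧ ∃ v, G.deg (C i) v = 2 ∧ G.deg (C j) v = 2
  symm := ⟨fun _ _ h => ⟨h.1.symm, h.2.imp fun _ hv => ⟨hv.2, hv.1⟩⟩⟩
  loopless := ⟨fun _ h => h.1 rfl⟩

lemma conn_of_walk (hC : ∀ i, G.IsCircuit (C i)) (I : Finset (Fin t)) :
    ∀ {i j : Fin t} (q : (J G C).Walk i j), (∀ k ∈ q.support, k ∈ I) →
      ∀ u v, G.deg (C i) u = 2 → G.deg (C j) v = 2 → G.ConnIn (I.biUnion C) u v := by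
  intro i j q
  induction q with
  | @nil a =>
    intro hk u v hu hv
    have ha : a ∈ I := hk a (by simp)
    exact ((hC a).2.2 u v hu hv).mono (Finset.subset_biUnion_of_mem C ha)
  | @cons a b c hab q ih =>
    intro hk u v hu hv
    have ha : a ∈ I := hk a (by simp)
    obtain ⟨z, hz1, hz2⟩ := hab.2
    have h1 : G.ConnIn (I.biUnion C) u z :=
      ((hC a).2.2 u z hu hz1).mono (Finset.subset_biUnion_of_mem C ha)
    refine h1.trans (ih ?_ z v hz2 hv)
    intro k hk'
    exact hk k (by rw [SimpleGraph.Walk.support_cons]; exact List.mem_cons_of_mem _ hk')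

lemma walk_of_conn (hC : ∀ i, G.IsCircuit (C i)) {x y : V}
    (h : G.ConnIn (Finset.univ.biUnion C) x y) :
    y = x ∨ ∃ i j, G.deg (C i) x = 2 ∧ G.deg (C j) y = 2 ∧ (J G C).Reachable i j := by
  induction h with
  | refl => exact Or.inl rfl
  | @tail b c _ h2 ih =>
    right
    obtain ⟨f, hf, hbc⟩ := h2
    rw [Finset.mem_biUnion] at hf
    obtain ⟨k, -, hf⟩ := hf
    have hb : G.deg (C k) b = 2 := deg_two G (hC k) hf (by rw [hbc]; exact Sym2.mem_mk_left b c)
    have hc : G.deg (C k) c = 2 := deg_two G (hC k) hf (by rw [hbc]; exact Sym2.mem_mk_right b c)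
    rcases ih with rfl | ⟨i, j, hi, hj, hij⟩
    · exact ⟨k, k, hb, hc, SimpleGraph.Reachable.refl k⟩
    · refine ⟨i, k, hi, hc, ?_⟩
      by_cases hjk : j = k
      · subst hjk
        exact hij
      · exact hij.trans (SimpleGraph.Adj.reachable ⟨hjk, b, hj, hb⟩)

/-- The path structure. -/
lemma path_struct {x y : V} (hxy : x ≠ y) (hC : ∀ i, G.IsCircuit (C i))
    (hconn : G.ConnIn (Finset.univ.biUnion C) x y)
    (hcut : ∀ k, ¬ G.ConnIn ((Finset.univ.erase k).biUnion C) x y) :
    ∃ σ : ℕ → Fin t, 0 < t ∧ (∀ k, ∃ n < t, σ n = k) ∧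
      (∀ m < t, ∀ n < t, σ m = σ n → m = n) ∧
      (∀ n, n + 1 < t → ∃ v, G.deg (C (σ n)) v = 2 ∧ G.deg (C (σ (n + 1))) v = 2) ∧
      (∀ m < t, ∀ n < t, m + 1 < n → ∀ v, G.deg (C (σ m)) v = 2 → G.deg (C (σ n)) v = 2 → False) ∧
      (∀ n < t, G.deg (C (σ n)) x = 2 ↔ n = 0) ∧ (∀ n < t, G.deg (C (σ n)) y = 2 ↔ n + 1 = t) := by
  -- every walk passes every index
  have hall : ∀ {i j : Fin t} (q : (J G C).Walk i j), G.deg (C i) x = 2 → G.deg (C j) y = 2 →
      t ≤ q.length + 1 := by
    intro i j q hi hj
    have h1 : ∀ k, k ∈ q.support := by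
      intro k
      by_contra hk
      apply hcut k
      refine conn_of_walk G C hC (Finset.univ.erase k) q ?_ x y hi hj
      intro l hl
      refine Finset.mem_erase.mpr ⟨?_, Finset.mem_univ l⟩
      rintro rfl
      exact hk hl
    have h2 : (Finset.univ : Finset (Fin t)) ⊆ q.support.toFinset := by
      intro k _
      exact List.mem_toFinset.mpr (h1 k)
    have h3 := Finset.card_le_card h2
    rw [Finset.card_univ, Fintype.card_fin] at h3
    have h4 := List.toFinset_card_le q.support
    rw [SimpleGraph.Walk.length_support] at h4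
    omega
  rcases walk_of_conn G C hC hconn with h | ⟨i0, j0, hi0, hj0, hr⟩
  · exact absurd h.symm hxy
  obtain ⟨p, hp⟩ := hr.exists_isPath
  have hlen1 := hall p hi0 hj0
  have hlen2 : p.length + 1 ≤ t := by
    have h1 := hp.support_nodup.length_le_card
    rwa [SimpleGraph.Walk.length_support, Fintype.card_fin] at h1
  have hlen : p.length + 1 = t := by omega
  refine ⟨p.getVert, by omega, ?_, ?_, ?_, ?_, ?_, ?_⟩
  · intro k
    have h1 : k ∈ p.support := by
      by_contra hk
      apply hcut k
      refine conn_of_walk G C hC (Finset.univ.erase k) p ?_ x y hi0 hj0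
      intro l hl
      refine Finset.mem_erase.mpr ⟨?_, Finset.mem_univ l⟩
      rintro rfl
      exact hk hl
    obtain ⟨n, hn, hn'⟩ := SimpleGraph.Walk.mem_support_iff_exists_getVert.mp h1
    exact ⟨n, by omega, hn⟩
  · intro m hm n hn hmn
    exact hp.getVert_injOn (by simp only [Set.mem_ofPred_eq]; omega)
      (by simp only [Set.mem_ofPred_eq]; omega) hmn
  · intro n hn
    exact (p.adj_getVert_succ (by omega : n < p.length)).2
  · intro m hm n hn hmn v hv1 hv2
    have hadj : (J G C).Adj (p.getVert m) (p.getVert n) := by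
      refine ⟨?_, v, hv1, hv2⟩
      intro h
      have := hp.getVert_injOn (by simp only [Set.mem_ofPred_eq]; omega)
        (by simp only [Set.mem_ofPred_eq]; omega) h
      omega
    have h1 := hall ((p.take m).append (SimpleGraph.Walk.cons hadj (p.drop n))) hi0 hj0
    rw [SimpleGraph.Walk.length_append, SimpleGraph.Walk.length_cons,
      SimpleGraph.Walk.take_length, SimpleGraph.Walk.drop_length] at h1
    omega
  · intro n hn
    constructor
    · intro hx
      have h1 := hall (p.drop n) hx hj0
      rw [SimpleGraph.Walk.drop_length] at h1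
      omega
    · rintro rfl
      rw [SimpleGraph.Walk.getVert_zero]
      exact hi0
  · intro n hn
    constructor
    · intro hy
      have h1 := hall (p.take n) hi0 hy
      rw [SimpleGraph.Walk.take_length] at h1
      omega
    · intro hn'
      have : p.getVert n = j0 := by
        have h2 : n = p.length := by omega
        rw [h2, SimpleGraph.Walk.getVert_length]
      rw [this]
      exact hj0

end

end ChainX

/-- The circuits of a cover of `G - e` form a chain. -/
theorem t_Chain (hBCirc : Stmt_BCirc) : Stmt_Chain := by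
  intro V E _ _ _ _ G w hmin e x y he hxy L hL hcount
  obtain ⟨hcub, hE, hcontra, hR, -⟩ := hmin
  have hxyne : x ≠ y := G.ne_of_ends hxy
  -- indexing
  have hC : ∀ i : Fin L.length, G.IsCircuit (L.get i) := fun i => (hL _ (List.get_mem L i)).1
  have hCe : ∀ i : Fin L.length, e ∉ L.get i := by
    intro i hi
    have := (hL _ (List.get_mem L i)).2 hi
    exact absurd rfl (Finset.mem_erase.mp this).1
  have hN : ∀ f, f ≠ e → (Finset.univ.filter (fun i : Fin L.length => f ∈ L.get i)).card = w f := by
    intro f hf
    have h1 := hcount f (Finset.mem_erase.mpr ⟨hf, Finset.mem_univ f⟩)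
    rw [ChainX.countP_fin] at h1
    simpa using h1
  have hw : ∀ f, w f = 1 ∨ w f = 2 := fun f => hE.1 f (Finset.mem_univ f)
  -- connectivity
  have hconn : G.ConnIn (Finset.univ.biUnion (fun i : Fin L.length => L.get i)) x y := by
    have h1 : G.ConnIn (Finset.univ.erase e) x y := by
      have h2 := hcontra.1 e
      unfold IsBridge at h2
      push Not at h2
      obtain ⟨a, b, hab, hc⟩ := h2 (Finset.mem_univ e)
      rw [hxy] at hab
      rcases Sym2.eq_iff.mp hab with ⟨rfl, rfl⟩ | ⟨rfl, rfl⟩
      · exact hc
      · exact hc.symm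
    refine h1.mono ?_
    intro f hf
    rw [Finset.mem_erase] at hf
    have h3 : 0 < (Finset.univ.filter (fun i : Fin L.length => f ∈ L.get i)).card := by
      rw [hN f hf.1]
      rcases hw f with h | h <;> omega
    obtain ⟨i, hi⟩ := Finset.card_pos.mp h3
    rw [Finset.mem_filter] at hi
    exact Finset.mem_biUnion.mpr ⟨i, Finset.mem_univ i, hi.2⟩
  obtain ⟨σ, ht, hsurj, hinj, hmeet, hdisj, hfirst, hlast⟩ :=
    ChainX.path_struct G (fun i : Fin L.length => L.get i) hxyne hC hconn
      (fun k => ChainX.not_conn G (fun i : Fin L.length => L.get i) w hE hR he hxy hC hCe hN k)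
  -- edges of weight 2 other than e
  have hcover2 : ∀ f, w f = 2 → f ≠ e → ∃ i, i + 1 < L.length ∧ f ∈ L.get (σ i) ∧
      f ∈ L.get (σ (i + 1)) ∧ ∀ j < L.length, f ∈ L.get (σ j) → j = i ∨ j = i + 1 := by
    intro f hf hfe
    have h1 := hN f hfe
    rw [hf, Finset.card_eq_two] at h1
    obtain ⟨a, b, hab, h1⟩ := h1
    obtain ⟨m, hm, rfl⟩ := hsurj a
    obtain ⟨n, hn, rfl⟩ := hsurj b
    have hfm : f ∈ L.get (σ m) := by
      have : σ m ∈ Finset.univ.filter (fun i : Fin L.length => f ∈ L.get i) := by
        rw [h1]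
        simp
      exact (Finset.mem_filter.mp this).2
    have hfn : f ∈ L.get (σ n) := by
      have : σ n ∈ Finset.univ.filter (fun i : Fin L.length => f ∈ L.get i) := by
        rw [h1]
        simp
      exact (Finset.mem_filter.mp this).2
    have hall : ∀ j < L.length, f ∈ L.get (σ j) → j = m ∨ j = n := by
      intro j hj hfj
      have : σ j ∈ ({σ m, σ n} : Finset (Fin L.length)) := by
        rw [← h1]
        exact Finset.mem_filter.mpr ⟨Finset.mem_univ _, hfj⟩
      rw [Finset.mem_insert, Finset.mem_singleton] at this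
      rcases this with h | h
      · exact Or.inl (hinj j hj m hm h)
      · exact Or.inr (hinj j hj n hn h)
    obtain ⟨u, v, -, huv⟩ := G.exists_ends f
    have hum : G.deg (L.get (σ m)) u = 2 :=
      ChainX.deg_two G (hC _) hfm (by rw [huv]; exact Sym2.mem_mk_left u v)
    have hun : G.deg (L.get (σ n)) u = 2 :=
      ChainX.deg_two G (hC _) hfn (by rw [huv]; exact Sym2.mem_mk_left u v)
    have hmn : m ≠ n := by
      rintro rfl
      exact hab rfl
    rcases lt_or_gt_of_ne hmn with h | h
    · have h2 : n = m + 1 := by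
        by_contra h3
        exact hdisj m hm n hn (by omega) u hum hun
      subst h2
      exact ⟨m, hn, hfm, hfn, hall⟩
    · have h2 : m = n + 1 := by
        by_contra h3
        exact hdisj n hn m hm (by omega) u hun hum
      subst h2
      exact ⟨n, hm, hfn, hfm, fun j hj hfj => (hall j hj hfj).symm⟩
  -- the vertices other than x, y
  have halt : ∀ i < L.length, ∀ v, v ≠ x → v ≠ y → G.deg (L.get (σ i)) v = 2 →
      G.deg (L.get (σ i) ∩ two w) v = 1 := by
    intro i hi v hvx hvy hv
    have hve : ∀ f, v ∈ G.ends f → f ≠ e := by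
      rintro f hf rfl
      rw [hxy, Sym2.mem_iff] at hf
      rcases hf with h | h
      · exact hvx h
      · exact hvy h
    -- two circuits through v are consecutive
    have hclose : ∀ m < L.length, ∀ n < L.length, G.deg (L.get (σ m)) v = 2 →
        G.deg (L.get (σ n)) v = 2 → n ≤ m + 1 := by
      intro m hm n hn h1 h2
      by_contra h3
      exact hdisj m hm n hn (by omega) v h1 h2
    -- a weight 2 edge at v is in every circuit through v
    have hmem : ∀ f, w f = 2 → v ∈ G.ends f → f ∈ L.get (σ i) := by
      intro f hf hvf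
      obtain ⟨a, ha, h1, h2, -⟩ := hcover2 f hf (hve f hvf)
      have d1 := ChainX.deg_two G (hC _) h1 hvf
      have d2 := ChainX.deg_two G (hC _) h2 hvf
      have c1 := hclose i hi (a + 1) ha hv d2
      have c2 := hclose a (by omega) i hi d1 hv
      have : i = a ∨ i = a + 1 := by omega
      rcases this with rfl | rfl
      · exact h1
      · exact h2
    -- parity at v
    have hpar := (G.isEul_iff.mp hE).2 v
    have hdeg3 := hcub v
    unfold deg at hdeg3
    have hsum : ∑ f ∈ Finset.univ.filter (fun f => v ∈ G.ends f), w f =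
        3 + ((Finset.univ.filter (fun f => v ∈ G.ends f)).filter (fun f => w f = 2)).card := by
      have hc2 : ((Finset.univ.filter (fun f => v ∈ G.ends f)).filter
          (fun f => w f = 2)).card =
          ∑ f ∈ Finset.univ.filter (fun f => v ∈ G.ends f), if w f = 2 then 1 else 0 :=
        Finset.card_filter (fun f => w f = 2) _
      rw [hc2, ← hdeg3, Finset.card_eq_sum_ones, ← Finset.sum_add_distrib]
      refine Finset.sum_congr rfl fun f _ => ?_
      rcases hw f with h | h
      · rw [h]
        simp
      · rw [h]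
        simp
    rw [hsum] at hpar
    have hset : (L.get (σ i) ∩ two w).filter (fun f => v ∈ G.ends f) =
        (Finset.univ.filter (fun f => v ∈ G.ends f)).filter (fun f => w f = 2) := by
      ext f
      simp only [two, Finset.mem_filter, Finset.mem_inter, Finset.mem_univ, true_and]
      constructor
      · rintro ⟨⟨-, h1⟩, h2⟩
        exact ⟨h2, h1⟩
      · rintro ⟨h1, h2⟩
        exact ⟨⟨hmem f h2 h1, h2⟩, h1⟩
    have hle : G.deg (L.get (σ i) ∩ two w) v ≤ G.deg (L.get (σ i)) v :=
      G.deg_mono Finset.inter_subset_left v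
    unfold deg at hle hv ⊢
    rw [hset] at hle ⊢
    rw [hv] at hle
    obtain ⟨r, hr⟩ := hpar
    omega
  refine ⟨fun n => L.get (σ n), ?_, ?_⟩
  · refine ⟨ht, hxy, fun i _ => hC _, fun i _ => hCe _, halt, ?_, hcover2, ?_, ?_, hfirst, hlast⟩
    · intro f hf
      have hfe : f ≠ e := by
        rintro rfl
        omega
      have h1 := hN f hfe
      rw [hf, Finset.card_eq_one] at h1
      obtain ⟨a, h1⟩ := h1
      obtain ⟨m, hm, rfl⟩ := hsurj a
      refine ⟨m, ⟨hm, ?_⟩, ?_⟩
      · have : σ m ∈ Finset.univ.filter (fun i : Fin L.length => f ∈ L.get i) := by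
          rw [h1]
          simp
        exact (Finset.mem_filter.mp this).2
      · rintro n ⟨hn, hfn⟩
        have : σ n ∈ ({σ m} : Finset (Fin L.length)) := by
          rw [← h1]
          exact Finset.mem_filter.mpr ⟨Finset.mem_univ _, hfn⟩
        exact hinj n hn m hm (Finset.mem_singleton.mp this)
    · intro i hi j hj hij v
      rcases (hC (σ i)).2.1 v with h | h
      · exact Or.inl h
      · rcases (hC (σ j)).2.1 v with h' | h'
        · exact Or.inr h'
        · exact (hdisj i hi j hj hij v h h').elim
    · intro i hi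
      obtain ⟨v, hv1, hv2⟩ := hmeet i hi
      -- a common edge
      have h3 : ∃ f, f ∈ L.get (σ i) ∧ f ∈ L.get (σ (i + 1)) := by
        by_contra hno
        push Not at hno
        have hd : Disjoint (L.get (σ i)) (L.get (σ (i + 1))) := by
          rw [Finset.disjoint_left]
          exact fun f h1 h2 => hno f h1 h2
        have h4 := G.deg_union hd v
        have h5 := G.deg_mono (Finset.subset_univ (L.get (σ i) ∪ L.get (σ (i + 1)))) v
        rw [hcub v, h4, hv1, hv2] at h5
        omega
      obtain ⟨f, h1, h2⟩ := h3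
      refine ⟨f, ?_, h1, h2⟩
      have hfe : f ≠ e := by
        rintro rfl
        exact hCe _ h1
      rcases hw f with h | h
      · exfalso
        have h6 := hN f hfe
        rw [h, Finset.card_eq_one] at h6
        obtain ⟨a, h6⟩ := h6
        have e1 : σ i ∈ ({a} : Finset (Fin L.length)) := by
          rw [← h6]
          exact Finset.mem_filter.mpr ⟨Finset.mem_univ _, h1⟩
        have e2 : σ (i + 1) ∈ ({a} : Finset (Fin L.length)) := by
          rw [← h6]
          exact Finset.mem_filter.mpr ⟨Finset.mem_univ _, h2⟩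
        rw [Finset.mem_singleton] at e1 e2
        have := hinj i (by omega) (i + 1) hi (by rw [e1, e2])
        omega
      · exact h
  · intro D
    constructor
    · intro hD
      obtain ⟨i, hi⟩ := List.mem_iff_get.mp hD
      obtain ⟨n, hn, hn'⟩ := hsurj i
      exact ⟨n, hn, by rw [← hi, ← hn']⟩
    · rintro ⟨n, -, rfl⟩
      exact List.get_mem L (σ n)

end MGraph

end Pool.GOD
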