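import Pool.Agent.GOD.StmtG

/-!
Small cuts of permutation graphs (MP_7b7176_co).
-/

set_option autoImplicit false
set_option linter.unusedSectionVars false

namespace Pool.GOD

namespace MGraph

namespace Cyc4X

lemma cyc_step {n : ℕ} [NeZero n] {P : ZMod n → Prop} (h : ∀ i, P i → P (i + 1)) {i0 : ZMod n}
    (h0 : P i0) : ∀ i, P i := by
  have key : ∀ k : ℕ, P (i0 + (k : ZMod n)) := by
    intro k
    induction k with
    | zero => simpa using h0
    | succ k ih =>
      have := h _ ih
      rwa [add_assoc, ← Nat.cast_succ] at this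
  intro i
  have h1 := key (i - i0).val
  rw [ZMod.natCast_zmod_val] at h1
  simpa using h1

/-- If `P` holds somewhere and fails somewhere then it changes in both directions. -/
lemma cyc_change {n : ℕ} [NeZero n] {P : ZMod n → Prop} (h1 : ∃ i, P i) (h2 : ∃ i, ¬ P i) :
    (∃ i, P i ∧ ¬ P (i + 1)) ∧ ∃ i, ¬ P i ∧ P (i + 1) := by
  obtain ⟨i1, h1⟩ := h1
  obtain ⟨i2, h2⟩ := h2
  constructor
  · by_contra hc
    push Not at hc
    exact h2 (cyc_step hc h1 i2)
  · by_contra hc
    push Not at hc
    exact cyc_step (P := fun i => ¬ P i) hc h2 i1 h1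

variable {V E : Type*} [Fintype V] [DecidableEq V] [Fintype E] [DecidableEq E] {G : MGraph V E}
  {w : E → ℕ} {n : ℕ} {a b : ZMod n → V} {p q m : ZMod n → E} {π : Equiv.Perm (ZMod n)}

lemma swap (h : G.PermData w n a b p q m π) :
    G.PermData w n b a q p (fun i => m (π.symm i)) π.symm where
  odd := h.odd
  five := h.five
  inja := h.injb
  injb := h.inja
  disj := fun i j hij => h.disj j i hij.symm
  surj := fun v => (h.surj v).symm
  endp := h.endq
  endq := h.endp
  endm := by
    intro i
    rw [h.endm, Equiv.apply_symm_apply, Sym2.eq_swap]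
  wp := h.wq
  wq := h.wp
  wm := fun i => h.wm _
  surjE := by
    intro e
    rcases h.surjE e with h1 | h1 | ⟨i, h1⟩
    · exact Or.inr (Or.inl h1)
    · exact Or.inl h1
    · exact Or.inr (Or.inr ⟨π i, by rw [Equiv.symm_apply_apply]; exact h1⟩)

lemma m_inj (h : G.PermData w n a b p q m π) : Function.Injective m := by
  intro i j hij
  have h1 := congrArg G.ends hij
  rw [h.endm, h.endm, Sym2.eq_iff] at h1
  rcases h1 with ⟨h1, -⟩ | ⟨h1, -⟩
  · exact h.inja h1
  · exact absurd h1 (h.disj _ _)

lemma p_inj (h : G.PermData w n a b p q m π) : Function.Injective p := by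
  intro i j hij
  have h1 := congrArg G.ends hij
  rw [h.endp, h.endp, Sym2.eq_iff] at h1
  rcases h1 with ⟨h1, -⟩ | ⟨h1, h2⟩
  · exact h.inja h1
  · have h3 := h.inja h1
    have h4 := h.inja h2
    exfalso
    have h5 : ((2 : ℕ) : ZMod n) = 0 := by
      rw [h3] at h4
      have : j + (1 + 1) = j + 0 := by rw [← add_assoc, h4, add_zero]
      have h6 := add_left_cancel this
      rw [Nat.cast_ofNat]
      rw [← one_add_one_eq_two]
      exact h6
    have h6 := Nat.le_of_dvd (by norm_num) ((ZMod.natCast_eq_zero_iff 2 n).1 h5)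
    have h7 := h.five
    omega

lemma m_ne_p (h : G.PermData w n a b p q m π) (i j : ZMod n) : m i ≠ p j := by
  intro hij
  have h1 := h.wm i
  rw [hij, h.wp] at h1
  omega

lemma p_ne_q (h : G.PermData w n a b p q m π) (i j : ZMod n) : p i ≠ q j := by
  intro hij
  have h1 := congrArg G.ends hij
  rw [h.endp, h.endq, Sym2.eq_iff] at h1
  rcases h1 with ⟨h1, -⟩ | ⟨h1, -⟩
  · exact h.disj _ _ h1
  · exact h.disj _ _ h1

/-- Two edges of the first circuit in the cut. -/
lemma two_p [NeZero n] (h : G.PermData w n a b p q m π) {S : Finset V} (h1 : ∃ i, a i ∈ S)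
    (h2 : ∃ i, a i ∉ S) : ∃ i j, i ≠ j ∧ p i ∈ G.cut S ∧ p j ∈ G.cut S := by
  obtain ⟨⟨i, hi, hi'⟩, ⟨j, hj, hj'⟩⟩ := cyc_change (P := fun i => a i ∈ S) h1 h2
  refine ⟨i, j, ?_, ?_, ?_⟩
  · intro hij
    rw [hij] at hi
    exact hj hi
  · rw [G.mem_cut (h.endp i)]
    exact Or.inl ⟨hi, hi'⟩
  · rw [G.mem_cut (h.endp j)]
    exact Or.inr ⟨hj', hj⟩

/-- All vertices of the second circuit are outside `S`. -/
lemma core [NeZero n] (h : G.PermData w n a b p q m π) {S : Finset V} (hb : ∀ j, b j ∉ S)
    (hc : (G.cut S).card ≤ 3) : S = ∅ ∨ ∃ v, S = {v} := by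
  classical
  let A : Finset (ZMod n) := Finset.univ.filter (fun i => a i ∈ S)
  have hmA : ∀ i ∈ A, m i ∈ G.cut S := by
    intro i hi
    rw [G.mem_cut (h.endm i)]
    exact Or.inl ⟨(Finset.mem_filter.1 hi).2, hb _⟩
  have hcA : (A.image m).card = A.card := Finset.card_image_of_injective A (m_inj h)
  have hSA : S = A.image a := by
    ext v
    rw [Finset.mem_image]
    constructor
    · intro hv
      rcases h.surj v with ⟨i, rfl⟩ | ⟨j, rfl⟩
      · exact ⟨i, Finset.mem_filter.2 ⟨Finset.mem_univ _, hv⟩, rfl⟩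
      · exact absurd hv (hb j)
    · rintro ⟨i, hi, rfl⟩
      exact (Finset.mem_filter.1 hi).2
  by_cases h1 : ∃ i, a i ∈ S
  · by_cases h2 : ∃ i, a i ∉ S
    · right
      obtain ⟨i, j, hij, hi, hj⟩ := two_p h h1 h2
      have hsub : A.image m ∪ {p i, p j} ⊆ G.cut S := by
        intro e he
        rw [Finset.mem_union, Finset.mem_image, Finset.mem_insert, Finset.mem_singleton] at he
        rcases he with ⟨k, hk, rfl⟩ | rfl | rfl
        · exact hmA k hk
        · exact hi
        · exact hj
      have hdis : Disjoint (A.image m) {p i, p j} := by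
        rw [Finset.disjoint_left]
        intro e he he'
        rw [Finset.mem_image] at he
        obtain ⟨k, -, rfl⟩ := he
        rw [Finset.mem_insert, Finset.mem_singleton] at he'
        rcases he' with he' | he'
        · exact m_ne_p h _ _ he'
        · exact m_ne_p h _ _ he'
      have h3 := Finset.card_le_card hsub
      rw [Finset.card_union_of_disjoint hdis, hcA,
        Finset.card_pair (fun hpp => hij (p_inj h hpp))] at h3
      have h4 : 0 < A.card := by
        obtain ⟨k, hk⟩ := h1
        exact Finset.card_pos.2 ⟨k, Finset.mem_filter.2 ⟨Finset.mem_univ _, hk⟩⟩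
      have h5 : A.card = 1 := by omega
      obtain ⟨k, hk⟩ := Finset.card_eq_one.1 h5
      refine ⟨a k, ?_⟩
      rw [hSA, hk, Finset.image_singleton]
    · exfalso
      push Not at h2
      have h3 : A = Finset.univ := by
        ext i
        simp [A, h2 i]
      have h4 : (A.image m).card ≤ 3 := by
        refine le_trans (Finset.card_le_card ?_) hc
        intro e he
        rw [Finset.mem_image] at he
        obtain ⟨k, hk, rfl⟩ := he
        exact hmA k hk
      rw [hcA, h3, Finset.card_univ, ZMod.card] at h4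
      have := h.five
      omega
  · left
    push Not at h1
    have h3 : A = ∅ := by
      ext i
      simp [A, h1 i]
    rw [hSA, h3, Finset.image_empty]

lemma core' [NeZero n] (h : G.PermData w n a b p q m π) {S : Finset V}
    (hb : (∀ j, b j ∉ S) ∨ ∀ j, b j ∈ S) (hc : (G.cut S).card ≤ 3) :
    S = ∅ ∨ S = Finset.univ ∨ (∃ v, S = {v}) ∨ ∃ v, S = {v}ᶜ := by
  rcases hb with hb | hb
  · rcases core h hb hc with h1 | h1
    · exact Or.inl h1
    · exact Or.inr (Or.inr (Or.inl h1))
  · have hb' : ∀ j, b j ∉ Sᶜ := by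
      intro j hj
      exact Finset.mem_compl.1 hj (hb j)
    have hc' : (G.cut Sᶜ).card ≤ 3 := by
      rw [G.cut_compl]
      exact hc
    rcases core h hb' hc' with h1 | ⟨v, h1⟩
    · right
      left
      rw [← compl_compl S, h1, Finset.compl_empty]
    · right
      right
      right
      exact ⟨v, by rw [← h1, compl_compl]⟩

end Cyc4X

theorem t_Cyc4 : Stmt_Cyc4 := by
  intro V E _ _ _ _ G w n a b p q m π h S hc
  have hn : NeZero n := ⟨by have := h.five; omega⟩
  by_cases hb : (∀ j, b j ∉ S) ∨ ∀ j, b j ∈ S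
  · exact Cyc4X.core' h hb hc
  · by_cases ha : (∀ j, a j ∉ S) ∨ ∀ j, a j ∈ S
    · exact Cyc4X.core' (Cyc4X.swap h) ha hc
    · exfalso
      push Not at ha hb
      obtain ⟨⟨i1, h1⟩, ⟨i2, h2⟩⟩ := ha
      obtain ⟨⟨j1, h3⟩, ⟨j2, h4⟩⟩ := hb
      obtain ⟨i, i', hi, hi1, hi2⟩ := Cyc4X.two_p h ⟨i1, h1⟩ ⟨i2, h2⟩
      obtain ⟨j, j', hj, hj1, hj2⟩ := Cyc4X.two_p (Cyc4X.swap h) ⟨j1, h3⟩ ⟨j2, h4⟩
      have hsub : ({p i, p i'} : Finset E) ∪ {q j, q j'} ⊆ G.cut S := by
        intro e he
        simp only [Finset.mem_union, Finset.mem_insert, Finset.mem_singleton] at he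
        rcases he with (rfl | rfl) | (rfl | rfl) <;> assumption
      have hdis : Disjoint ({p i, p i'} : Finset E) {q j, q j'} := by
        rw [Finset.disjoint_left]
        intro e he he'
        simp only [Finset.mem_insert, Finset.mem_singleton] at he he'
        rcases he with rfl | rfl <;> rcases he' with he' | he' <;>
          exact Cyc4X.p_ne_q h _ _ he'
      have h5 := Finset.card_le_card hsub
      rw [Finset.card_union_of_disjoint hdis,
        Finset.card_pair (fun hpp => hi (Cyc4X.p_inj h hpp)),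
        Finset.card_pair (fun hpp => hj (Cyc4X.p_inj (Cyc4X.swap h) hpp))] at h5
      omega

end MGraph

end Pool.GOD
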