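import Pool.Agent.GOD.Sys

/-!
The torus instance of the abstract systems (MP_7b7176_co, part I.2).

Two injective maps `p q : V → ℕ` give two cyclic orders on `V`; `gT p q red x y` (`x ≠ y`) says that
the two linear orders agree on `x, y`. `Cyc p a b c` says that `a, b, c` are in this cyclic order, i.e.
that `b` is in the open cyclic interval from `a` to `c`. `InA p q x y t` and `InD p q x y t` are the
open rectangles `A(x,y) = (x → y)_p ∩ (y → x)_q` and `D(x,y) = (x → y)_p ∩ (x → y)_q`.
-/

namespace Pool.GOD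

variable {V : Type*}

/-- the system given by two orders and a colouring -/
def gT [DecidableEq V] (p q : V → ℕ) (red : V → Bool) (x y : V) : Bool :=
  if x = y then red x else decide (p x < p y ↔ q x < q y)

/-- `b` is in the open cyclic interval from `a` to `c` -/
def Cyc (p : V → ℕ) (a b c : V) : Prop :=
  (p a < p b ∧ p b < p c) ∨ (p b < p c ∧ p c < p a) ∨ (p c < p a ∧ p a < p b)

instance (p : V → ℕ) (a b c : V) : Decidable (Cyc p a b c) := by
  unfold Cyc; infer_instance

/-- the open rectangle `A(x,y)` -/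
def InA (p q : V → ℕ) (x y t : V) : Prop := Cyc p x t y ∧ Cyc q y t x

/-- the open rectangle `D(x,y)` -/
def InD (p q : V → ℕ) (x y t : V) : Prop := Cyc p x t y ∧ Cyc q x t y

/-! ### cyclic orders -/

section cyc

variable {p : V → ℕ} {a b c d : V}

theorem Cyc.rot (h : Cyc p a b c) : Cyc p b c a := by unfold Cyc at *; omega

theorem Cyc.rot' (h : Cyc p a b c) : Cyc p c a b := h.rot.rot

theorem Cyc.ne (h : Cyc p a b c) : a ≠ b ∧ b ≠ c ∧ a ≠ c := by
  refine ⟨?_, ?_, ?_⟩ <;> (rintro rfl; unfold Cyc at h; omega)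

theorem Cyc.not_swap (h : Cyc p a b c) : ¬ Cyc p a c b := by unfold Cyc at *; omega

theorem Cyc.or_swap (hp : Function.Injective p) (hab : a ≠ b) (hac : a ≠ c) (hbc : b ≠ c) :
    Cyc p a b c ∨ Cyc p a c b := by
  have h1 := hp.ne hab
  have h2 := hp.ne hac
  have h3 := hp.ne hbc
  unfold Cyc
  omega

/-- the linear order obtained by cutting at `a` -/
theorem Cyc.trans (h : Cyc p a b c) (h' : Cyc p a c d) : Cyc p a b d := by unfold Cyc at *; omega

theorem not_cyc_self_left : ¬ Cyc p a a b := by unfold Cyc; omega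

theorem not_cyc_self_right : ¬ Cyc p a b b := by unfold Cyc; omega

theorem not_cyc_self_mid : ¬ Cyc p a b a := by unfold Cyc; omega

theorem cyc_iff_bool (hp : Function.Injective p) (hab : a ≠ b) (hac : a ≠ c) (hbc : b ≠ c) :
    Cyc p a b c ↔
      xor (xor (decide (p a < p b)) (decide (p b < p c))) (decide (p a < p c)) = true := by
  have h1 := hp.ne hab
  have h2 := hp.ne hac
  have h3 := hp.ne hbc
  unfold Cyc
  by_cases ha : p a < p b <;> by_cases hb : p b < p c <;> by_cases hc : p a < p c <;>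
    simp [ha, hb, hc] <;> omega

end cyc

/-! ### the system `gT` -/

section gT

variable [DecidableEq V] {p q : V → ℕ} {red : V → Bool}

@[simp] theorem gT_self (x : V) : gT p q red x x = red x := by simp [gT]

theorem gT_ne {x y : V} (h : x ≠ y) : gT p q red x y = decide (p x < p y ↔ q x < q y) := by
  simp [gT, h]

theorem gT_symm (hp : Function.Injective p) (hq : Function.Injective q) (x y : V) :
    gT p q red x y = gT p q red y x := by
  by_cases h : x = y
  · rw [h]
  · rw [gT_ne h, gT_ne (Ne.symm h)]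
    have h1 := hp.ne h
    have h2 := hq.ne h
    congr 1
    rw [eq_iff_iff]
    omega

/-- the rooted graph at `u` -/
theorem rt_gT (hp : Function.Injective p) (hq : Function.Injective q) {u x y : V} (hux : u ≠ x)
    (huy : u ≠ y) (hxy : x ≠ y) :
    rt (gT p q red) u x y = xor (red u) (decide (Cyc p u x y ↔ Cyc q u x y)) := by
  have e1 : decide (Cyc p u x y ↔ Cyc q u x y) = !xor (decide (Cyc p u x y)) (decide (Cyc q u x y)) := by
    by_cases h : Cyc p u x y <;> by_cases h' : Cyc q u x y <;> simp [h, h']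
  have e2 : ∀ a b : V, decide (p a < p b ↔ q a < q b) = !xor (decide (p a < p b)) (decide (q a < q b)) := by
    intro a b
    by_cases h : p a < p b <;> by_cases h' : q a < q b <;> simp [h, h']
  have e3 : decide (Cyc p u x y) =
      xor (xor (decide (p u < p x)) (decide (p x < p y))) (decide (p u < p y)) := by
    rw [Bool.eq_iff_iff, decide_eq_true_iff]
    exact cyc_iff_bool hp hux huy hxy
  have e4 : decide (Cyc q u x y) =
      xor (xor (decide (q u < q x)) (decide (q x < q y))) (decide (q u < q y)) := by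
    rw [Bool.eq_iff_iff, decide_eq_true_iff]
    exact cyc_iff_bool hq hux huy hxy
  rw [e1, e3, e4, rt, bil, gT_self, gT_symm hp hq x u, gT_ne huy, gT_ne hux, gT_ne hxy, e2, e2, e2]
  generalize decide (p u < p x) = a1
  generalize decide (p x < p y) = a2
  generalize decide (p u < p y) = a3
  generalize decide (q u < q x) = b1
  generalize decide (q x < q y) = b2
  generalize decide (q u < q y) = b3
  generalize red u = r
  revert a1 a2 a3 b1 b2 b3 r
  decide

theorem rt_gT_self_left (u x : V) : rt (gT p q red) u u x = false := by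
  unfold rt bil
  simp

theorem rt_gT_self_right (hp : Function.Injective p) (hq : Function.Injective q) (u x : V) :
    rt (gT p q red) u x u = false := by
  unfold rt bil
  rw [gT_symm hp hq x u]
  simp

theorem rt_gT_diag (hp : Function.Injective p) (hq : Function.Injective q) (u x : V) :
    rt (gT p q red) u x x = xor (red u) (red x) := by
  unfold rt bil
  rw [gT_symm hp hq x u, gT_self, gT_self]
  generalize gT p q red u x = a
  generalize red u = b
  generalize red x = c
  revert a b c
  decide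

theorem cmpOn_gT (hp : Function.Injective p) (hq : Function.Injective q) (W : Finset V) :
    CmpOn (gT p q red) W := by
  intro u _ hu
  rw [gT_self] at hu
  refine ⟨fun x y => Cyc p u x y ∧ Cyc q u x y, ?_, ?_, ?_⟩
  · rintro a ⟨h, _⟩
    exact not_cyc_self_right h
  · rintro a b c ⟨h1, h2⟩ ⟨h3, h4⟩
    exact ⟨h1.trans h3, h2.trans h4⟩
  · intro x _ y _ hxu hyu hxy
    rw [rt_gT hp hq (Ne.symm hxu) (Ne.symm hyu) hxy, hu, Bool.false_xor, decide_eq_true_iff]
    have h1 := Cyc.or_swap hp (Ne.symm hxu) (Ne.symm hyu) hxy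
    have h2 := Cyc.or_swap hq (Ne.symm hxu) (Ne.symm hyu) hxy
    constructor
    · intro h
      rcases h1 with h1 | h1
      · exact Or.inl ⟨h1, h.1 h1⟩
      · rcases h2 with h2 | h2
        · exact absurd (h.2 h2) h1.not_swap
        · exact Or.inr ⟨h1, h2⟩
    · rintro (⟨h3, h4⟩ | ⟨h3, h4⟩)
      · exact iff_of_true h3 h4
      · exact iff_of_false h3.not_swap h4.not_swap

/-! ### the dictionary -/

/-- the points `t` of `R(x,y)` for a red pair: `A(x,y) ∪ A(y,x)` -/
theorem rt_red (hp : Function.Injective p) (hq : Function.Injective q) {x y t : V}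
    (hx : red x = true) (hxy : x ≠ y) (hxt : x ≠ t) (hyt : y ≠ t) :
    rt (gT p q red) x y t = true ↔ InA p q x y t ∨ InA p q y x t := by
  rw [rt_gT hp hq hxy hxt hyt, hx, Bool.true_xor, Bool.not_eq_true', decide_eq_false_iff_not]
  have h1 := Cyc.or_swap hp hxy hxt hyt
  have h2 := Cyc.or_swap hq hxy hxt hyt
  unfold InA
  constructor
  · intro h
    rcases h1 with h1 | h1 <;> rcases h2 with h2 | h2
    · exact absurd (iff_of_true h1 h2) h
    · exact Or.inr ⟨h1.rot, h2⟩
    · exact Or.inl ⟨h1, h2.rot⟩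
    · exact absurd (iff_of_false h1.not_swap h2.not_swap) h
  · rintro (⟨h3, h4⟩ | ⟨h3, h4⟩) h
    · exact h3.not_swap (h.2 h4.rot')
    · exact h4.not_swap (h.1 h3.rot')

/-- the points `t` of `R(x,y)` for a blue pair, and of `S(y,x)` for blue `x` and red `y`:
`D(x,y) ∪ D(y,x)` -/
theorem rt_blue (hp : Function.Injective p) (hq : Function.Injective q) {x y t : V}
    (hx : red x = false) (hxy : x ≠ y) (hxt : x ≠ t) (hyt : y ≠ t) :
    rt (gT p q red) x y t = true ↔ InD p q x y t ∨ InD p q y x t := by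
  rw [rt_gT hp hq hxy hxt hyt, hx, Bool.false_xor, decide_eq_true_iff]
  have h1 := Cyc.or_swap hp hxy hxt hyt
  have h2 := Cyc.or_swap hq hxy hxt hyt
  unfold InD
  constructor
  · intro h
    rcases h1 with h1 | h1
    · exact Or.inr ⟨h1.rot, (h.1 h1).rot⟩
    · rcases h2 with h2 | h2
      · exact absurd (h.2 h2) h1.not_swap
      · exact Or.inl ⟨h1, h2⟩
  · rintro (⟨h3, h4⟩ | ⟨h3, h4⟩)
    · exact iff_of_false h3.not_swap h4.not_swap
    · exact iff_of_true h3.rot' h4.rot'

/-- twins, red pair: both rectangles are empty -/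
theorem twinOn_red (hp : Function.Injective p) (hq : Function.Injective q) {W : Finset V} {x y : V}
    (hx : red x = true) (hy : red y = true) (hxy : x ≠ y) :
    TwinOn (gT p q red) W x y ↔ ∀ t ∈ W, ¬ InA p q x y t ∧ ¬ InA p q y x t := by
  unfold TwinOn
  rw [gT_self, gT_self, hx, hy]
  constructor
  · rintro ⟨_, h⟩ t ht
    by_cases hxt : x = t
    · subst hxt
      exact ⟨fun h' => not_cyc_self_left h'.1, fun h' => not_cyc_self_right h'.1⟩
    by_cases hyt : y = t
    · subst hyt
      exact ⟨fun h' => not_cyc_self_right h'.1, fun h' => not_cyc_self_left h'.1⟩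
    have h1 := h t ht
    have h2 := rt_red hp hq (t := t) hx hxy hxt hyt
    rw [h1] at h2
    simp only [Bool.false_eq_true, false_iff, not_or] at h2
    exact h2
  · intro h
    refine ⟨rfl, fun t ht => ?_⟩
    by_cases hxt : x = t
    · subst hxt
      exact rt_gT_self_right hp hq _ _
    by_cases hyt : y = t
    · subst hyt
      rw [rt_gT_diag hp hq, hx, hy]; rfl
    rw [← Bool.not_eq_true, rt_red hp hq hx hxy hxt hyt, not_or]
    exact h t ht

/-- twins, blue pair: both rectangles are empty -/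
theorem twinOn_blue (hp : Function.Injective p) (hq : Function.Injective q) {W : Finset V} {x y : V}
    (hx : red x = false) (hy : red y = false) (hxy : x ≠ y) :
    TwinOn (gT p q red) W x y ↔ ∀ t ∈ W, ¬ InD p q x y t ∧ ¬ InD p q y x t := by
  unfold TwinOn
  rw [gT_self, gT_self, hx, hy]
  constructor
  · rintro ⟨_, h⟩ t ht
    by_cases hxt : x = t
    · subst hxt
      exact ⟨fun h' => not_cyc_self_left h'.1, fun h' => not_cyc_self_right h'.1⟩
    by_cases hyt : y = t
    · subst hyt
      exact ⟨fun h' => not_cyc_self_right h'.1, fun h' => not_cyc_self_left h'.1⟩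
    have h1 := h t ht
    have h2 := rt_blue hp hq (t := t) hx hxy hxt hyt
    rw [h1] at h2
    simp only [Bool.false_eq_true, false_iff, not_or] at h2
    exact h2
  · intro h
    refine ⟨rfl, fun t ht => ?_⟩
    by_cases hxt : x = t
    · subst hxt
      exact rt_gT_self_right hp hq _ _
    by_cases hyt : y = t
    · subst hyt
      rw [rt_gT_diag hp hq, hx, hy]; rfl
    rw [← Bool.not_eq_true, rt_blue hp hq hx hxy hxt hyt, not_or]
    exact h t ht

/-- `S(x,u)` for red `x` and blue `u` (the row of `x` in the graph rooted at `u`):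
`{x} ∪ D(x,u) ∪ D(u,x)` -/
theorem mem_side_red (hp : Function.Injective p) (hq : Function.Injective q) {x u t : V}
    (hx : red x = true) (hu : red u = false) :
    rt (gT p q red) u x t = true ↔ t = x ∨ InD p q x u t ∨ InD p q u x t := by
  have hxu : x ≠ u := by rintro rfl; rw [hx] at hu; exact Bool.noConfusion hu
  by_cases htx : t = x
  · subst htx
    rw [rt_gT_diag hp hq, hx, hu]
    simp
  by_cases htu : t = u
  · subst htu
    rw [rt_gT_self_right hp hq]
    simp only [Bool.false_eq_true, htx, false_or, false_iff, not_or]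
    exact ⟨fun h => not_cyc_self_right h.1, fun h => not_cyc_self_left h.1⟩
  rw [rt_blue hp hq hu (Ne.symm hxu) (Ne.symm htu) (Ne.symm htx)]
  simp only [htx, false_or]
  exact or_comm

/-- `S(x,u)` for blue `x` and red `u`: `{x} ∪ A(x,u) ∪ A(u,x)` -/
theorem mem_side_blue (hp : Function.Injective p) (hq : Function.Injective q) {x u t : V}
    (hx : red x = false) (hu : red u = true) :
    rt (gT p q red) u x t = true ↔ t = x ∨ InA p q x u t ∨ InA p q u x t := by
  have hxu : x ≠ u := by rintro rfl; rw [hx] at hu; exact Bool.noConfusion hu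
  by_cases htx : t = x
  · subst htx
    rw [rt_gT_diag hp hq, hx, hu]
    simp
  by_cases htu : t = u
  · subst htu
    rw [rt_gT_self_right hp hq]
    simp only [Bool.false_eq_true, htx, false_or, false_iff, not_or]
    exact ⟨fun h => not_cyc_self_right h.1, fun h => not_cyc_self_left h.1⟩
  rw [rt_red hp hq hu (Ne.symm hxu) (Ne.symm htu) (Ne.symm htx)]
  simp only [htx, false_or]
  exact or_comm

/-! ### splitters -/

omit [DecidableEq V] in
theorem Cyc.cases (hp : Function.Injective p) {a b c d : V} (_h : Cyc p a b c) (_h' : Cyc p a d c)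
    (hbd : b ≠ d) : Cyc p a d b ∨ Cyc p b d c := by
  have h1 := hp.ne hbd
  unfold Cyc at *
  omega

omit [DecidableEq V] in
theorem Cyc.left_sub {a b c d : V} (h : Cyc p a b c) (h' : Cyc p a d b) : Cyc p a d c := by
  unfold Cyc at *
  omega

omit [DecidableEq V] in
theorem Cyc.right_sub {a b c d : V} (h : Cyc p a b c) (h' : Cyc p b d c) : Cyc p a d c := by
  unfold Cyc at *
  omega

omit [DecidableEq V] in
theorem Cyc.after {v x y t : V} (h : Cyc p v y x) (h' : Cyc p v x t) : Cyc p x t y := by
  unfold Cyc at *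
  omega

omit [DecidableEq V] in
theorem Cyc.before {v x y t : V} (h : Cyc p v y x) (h' : Cyc p v t y) : Cyc p x t y := by
  unfold Cyc at *
  omega

theorem splitOn_key (hp : Function.Injective p) (hq : Function.Injective q) {W : Finset V}
    {x y v : V} (hxy : x ≠ y) (hvx : v ≠ x) (hvy : v ≠ y) (hv : red v = false)
    (hA : InA p q x y v) :
    (∀ t ∈ W, ¬ (rt (gT p q red) v x t = true ∧ rt (gT p q red) v y t = true)) ↔
      ∀ t ∈ W, InA p q x y t → t = v ∨ InA p q x v t ∨ InA p q v y t := by
  have hP : Cyc p v y x := hA.1.rot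
  have hQ : Cyc q v x y := hA.2.rot
  constructor
  · rintro h t ht ⟨h1, h2⟩
    by_cases htv : t = v
    · exact Or.inl htv
    right
    have hxt : x ≠ t := h1.ne.1
    have hyt : y ≠ t := h1.ne.2.1.symm
    have h3 := h t ht
    rw [rt_gT hp hq hvx (Ne.symm htv) hxt, rt_gT hp hq hvy (Ne.symm htv) hyt, hv,
      Bool.false_xor, Bool.false_xor, decide_eq_true_iff, decide_eq_true_iff] at h3
    rcases Cyc.cases hp hA.1 h1 (Ne.symm htv) with h4 | h4
    · rcases Cyc.cases hq hA.2 h2 (Ne.symm htv) with h5 | h5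
      · exact absurd ⟨iff_of_true h4.rot' (hQ.trans h5.rot'),
          iff_of_true (hP.trans h4.rot') h5.rot'⟩ h3
      · exact Or.inl ⟨h4, h5⟩
    · rcases Cyc.cases hq hA.2 h2 (Ne.symm htv) with h5 | h5
      · exact Or.inr ⟨h4, h5⟩
      · exact absurd ⟨iff_of_false (h4.trans hP).not_swap h5.not_swap,
          iff_of_false h4.not_swap (h5.trans hQ).not_swap⟩ h3
  · rintro h t ht ⟨h1, h2⟩
    by_cases htv : t = v
    · subst htv
      rw [rt_gT_self_right hp hq] at h1
      exact Bool.noConfusion h1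
    by_cases htx : t = x
    · subst htx
      rw [rt_gT hp hq hvy hvx (Ne.symm hxy), hv, Bool.false_xor, decide_eq_true_iff] at h2
      exact hQ.not_swap (h2.1 hP)
    by_cases hty : t = y
    · subst hty
      rw [rt_gT hp hq hvx hvy hxy, hv, Bool.false_xor, decide_eq_true_iff] at h1
      exact hP.not_swap (h1.2 hQ)
    rw [rt_gT hp hq hvx (Ne.symm htv) (Ne.symm htx), hv, Bool.false_xor, decide_eq_true_iff] at h1
    rw [rt_gT hp hq hvy (Ne.symm htv) (Ne.symm hty), hv, Bool.false_xor, decide_eq_true_iff] at h2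
    by_cases c1 : Cyc p v x t
    · have c2 : Cyc q v x t := h1.1 c1
      have c3 : Cyc p v y t := hP.trans c1
      have c4 : Cyc q v y t := h2.1 c3
      rcases h t ht ⟨hP.after c1, hQ.after c4⟩ with h7 | ⟨_, h7⟩ | ⟨h7, _⟩
      · exact htv h7
      · exact c2.not_swap h7
      · exact c3.not_swap h7
    · have c1' : Cyc p v t x :=
        (Cyc.or_swap hp hvx (Ne.symm htv) (Ne.symm htx)).resolve_left c1
      have c2 : ¬ Cyc q v x t := fun h => c1 (h1.2 h)
      have c2' : Cyc q v t x :=
        (Cyc.or_swap hq hvx (Ne.symm htv) (Ne.symm htx)).resolve_left c2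
      have c3' : Cyc q v t y := c2'.trans hQ
      have c3 : ¬ Cyc q v y t := c3'.not_swap
      have c4 : ¬ Cyc p v y t := fun h => c3 (h2.1 h)
      have c4' : Cyc p v t y :=
        (Cyc.or_swap hp hvy (Ne.symm htv) (Ne.symm hty)).resolve_left c4
      rcases h t ht ⟨hP.before c4', hQ.before c2'⟩ with h7 | ⟨h7, _⟩ | ⟨_, h7⟩
      · exact htv h7
      · exact c1 h7.rot'
      · exact c3 h7.rot'

/-- A blue `v` splits the red pair `x, y` iff `v` is in `A(x,y)` and all other points of `A(x,y)` are
in `A(x,v)` or in `A(v,y)`, or the same with `x` and `y` exchanged. -/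
theorem splitOn_red (hp : Function.Injective p) (hq : Function.Injective q) {W : Finset V}
    {x y v : V} (hxW : x ∈ W) (hx : red x = true) (hy : red y = true) (hxy : x ≠ y) :
    SplitOn (gT p q red) W v x y ↔ v ∈ W ∧ red v = false ∧
      ((InA p q x y v ∧ ∀ t ∈ W, InA p q x y t → t = v ∨ InA p q x v t ∨ InA p q v y t) ∨
        (InA p q y x v ∧ ∀ t ∈ W, InA p q y x t → t = v ∨ InA p q y v t ∨ InA p q v x t)) := by
  unfold SplitOn
  rw [gT_self, gT_self, gT_self, hx, hy]
  constructor
  · rintro ⟨hvW, h1, -, h2⟩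
    have hv : red v = false := by
      cases h : red v
      · rfl
      · exact absurd h h1
    have hvx : v ≠ x := by rintro rfl; rw [hx] at hv; exact Bool.noConfusion hv
    have hvy : v ≠ y := by rintro rfl; rw [hy] at hv; exact Bool.noConfusion hv
    refine ⟨hvW, hv, ?_⟩
    have h3 := h2 x hxW
    rw [rt_gT_diag hp hq, hx, hv, rt_gT hp hq hvy hvx (Ne.symm hxy), hv] at h3
    simp only [Bool.false_xor, true_and, decide_eq_true_iff] at h3
    have h4 := Cyc.or_swap hp hvy hvx (Ne.symm hxy)
    have h5 := Cyc.or_swap hq hvy hvx (Ne.symm hxy)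
    rcases h4 with h4 | h4
    · rcases h5 with h5 | h5
      · exact absurd (iff_of_true h4 h5) h3
      · have hA : InA p q x y v := ⟨h4.rot', h5.rot'⟩
        exact Or.inl ⟨hA, (splitOn_key hp hq hxy hvx hvy hv hA).1 h2⟩
    · rcases h5 with h5 | h5
      · have hA : InA p q y x v := ⟨h4.rot', h5.rot'⟩
        exact Or.inr ⟨hA, (splitOn_key hp hq (Ne.symm hxy) hvy hvx hv hA).1
          fun t ht h => h2 t ht ⟨h.2, h.1⟩⟩
      · exact absurd (iff_of_false h4.not_swap h5.not_swap) h3
  · rintro ⟨hvW, hv, h⟩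
    have hvx : v ≠ x := by rintro rfl; rw [hx] at hv; exact Bool.noConfusion hv
    have hvy : v ≠ y := by rintro rfl; rw [hy] at hv; exact Bool.noConfusion hv
    refine ⟨hvW, by rw [hv]; exact Bool.noConfusion, by rw [hv]; exact Bool.noConfusion, ?_⟩
    rcases h with ⟨hA, h⟩ | ⟨hA, h⟩
    · exact (splitOn_key hp hq hxy hvx hvy hv hA).2 h
    · intro t ht h'
      exact (splitOn_key hp hq (Ne.symm hxy) hvy hvx hv hA).2 h t ht ⟨h'.2, h'.1⟩

theorem splitOn_key' (hp : Function.Injective p) (hq : Function.Injective q) {W : Finset V}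
    {x y v : V} (hxy : x ≠ y) (hvx : v ≠ x) (hvy : v ≠ y) (hv : red v = true)
    (hA : InD p q x y v) :
    (∀ t ∈ W, ¬ (rt (gT p q red) v x t = true ∧ rt (gT p q red) v y t = true)) ↔
      ∀ t ∈ W, InD p q x y t → t = v ∨ InD p q x v t ∨ InD p q v y t := by
  have hP : Cyc p v y x := hA.1.rot
  have hQ : Cyc q v y x := hA.2.rot
  constructor
  · rintro h t ht ⟨h1, h2⟩
    by_cases htv : t = v
    · exact Or.inl htv
    right
    have hxt : x ≠ t := h1.ne.1
    have hyt : y ≠ t := h1.ne.2.1.symm
    have h3 := h t ht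
    rw [rt_gT hp hq hvx (Ne.symm htv) hxt, rt_gT hp hq hvy (Ne.symm htv) hyt, hv,
      Bool.true_xor, Bool.true_xor, Bool.not_eq_true', Bool.not_eq_true', decide_eq_false_iff_not,
      decide_eq_false_iff_not] at h3
    rcases Cyc.cases hp hA.1 h1 (Ne.symm htv) with h4 | h4
    · rcases Cyc.cases hq hA.2 h2 (Ne.symm htv) with h5 | h5
      · exact Or.inl ⟨h4, h5⟩
      · exact absurd ⟨fun h => (h5.trans hQ).not_swap (h.1 h4.rot'),
          fun h => h5.not_swap (h.1 (hP.trans h4.rot'))⟩ h3
    · rcases Cyc.cases hq hA.2 h2 (Ne.symm htv) with h5 | h5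
      · exact absurd ⟨fun h => (h4.trans hP).not_swap (h.2 h5.rot'),
          fun h => h4.not_swap (h.2 (hQ.trans h5.rot'))⟩ h3
      · exact Or.inr ⟨h4, h5⟩
  · rintro h t ht ⟨h1, h2⟩
    by_cases htv : t = v
    · subst htv
      rw [rt_gT_self_right hp hq] at h1
      exact Bool.noConfusion h1
    by_cases htx : t = x
    · subst htx
      rw [rt_gT hp hq hvy hvx (Ne.symm hxy), hv, Bool.true_xor, Bool.not_eq_true',
        decide_eq_false_iff_not] at h2
      exact h2 (iff_of_true hP hQ)
    by_cases hty : t = y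
    · subst hty
      rw [rt_gT hp hq hvx hvy hxy, hv, Bool.true_xor, Bool.not_eq_true',
        decide_eq_false_iff_not] at h1
      exact h1 (iff_of_false hP.not_swap hQ.not_swap)
    rw [rt_gT hp hq hvx (Ne.symm htv) (Ne.symm htx), hv, Bool.true_xor, Bool.not_eq_true',
      decide_eq_false_iff_not] at h1
    rw [rt_gT hp hq hvy (Ne.symm htv) (Ne.symm hty), hv, Bool.true_xor, Bool.not_eq_true',
      decide_eq_false_iff_not] at h2
    by_cases c1 : Cyc p v x t
    · have c2 : ¬ Cyc q v x t := fun h => h1 (iff_of_true c1 h)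
      have c2' : Cyc q v t x :=
        (Cyc.or_swap hq hvx (Ne.symm htv) (Ne.symm htx)).resolve_left c2
      have c3 : Cyc p v y t := hP.trans c1
      have c4 : ¬ Cyc q v y t := fun h => h2 (iff_of_true c3 h)
      have c4' : Cyc q v t y :=
        (Cyc.or_swap hq hvy (Ne.symm htv) (Ne.symm hty)).resolve_left c4
      rcases h t ht ⟨hP.after c1, hQ.before c4'⟩ with h7 | ⟨_, h7⟩ | ⟨h7, _⟩
      · exact htv h7
      · exact c2 h7.rot'
      · exact c3.not_swap h7
    · have c1' : Cyc p v t x :=
        (Cyc.or_swap hp hvx (Ne.symm htv) (Ne.symm htx)).resolve_left c1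
      have c2 : Cyc q v x t := by
        by_contra h
        exact h1 (iff_of_false c1 h)
      have c3 : Cyc q v y t := hQ.trans c2
      have c4 : ¬ Cyc p v y t := fun h => h2 (iff_of_true h c3)
      have c4' : Cyc p v t y :=
        (Cyc.or_swap hp hvy (Ne.symm htv) (Ne.symm hty)).resolve_left c4
      rcases h t ht ⟨hP.before c4', hQ.after c2⟩ with h7 | ⟨h7, _⟩ | ⟨_, h7⟩
      · exact htv h7
      · exact c1 h7.rot'
      · exact c3.not_swap h7

/-- A red `v` splits the blue pair `x, y` iff `v` is in `D(x,y)` and all other points of `D(x,y)` are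
in `D(x,v)` or in `D(v,y)`, or the same with `x` and `y` exchanged. -/
theorem splitOn_blue (hp : Function.Injective p) (hq : Function.Injective q) {W : Finset V}
    {x y v : V} (hxW : x ∈ W) (hx : red x = false) (hy : red y = false) (hxy : x ≠ y) :
    SplitOn (gT p q red) W v x y ↔ v ∈ W ∧ red v = true ∧
      ((InD p q x y v ∧ ∀ t ∈ W, InD p q x y t → t = v ∨ InD p q x v t ∨ InD p q v y t) ∨
        (InD p q y x v ∧ ∀ t ∈ W, InD p q y x t → t = v ∨ InD p q y v t ∨ InD p q v x t)) := by
  unfold SplitOn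
  rw [gT_self, gT_self, gT_self, hx, hy]
  constructor
  · rintro ⟨hvW, h1, -, h2⟩
    have hv : red v = true := by
      cases h : red v
      · exact absurd h h1
      · rfl
    have hvx : v ≠ x := by rintro rfl; rw [hx] at hv; exact Bool.noConfusion hv
    have hvy : v ≠ y := by rintro rfl; rw [hy] at hv; exact Bool.noConfusion hv
    refine ⟨hvW, hv, ?_⟩
    have h3 := h2 x hxW
    rw [rt_gT_diag hp hq, hx, hv, rt_gT hp hq hvy hvx (Ne.symm hxy), hv] at h3
    simp only [Bool.true_xor, Bool.not_false, true_and, Bool.not_eq_true',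
      decide_eq_false_iff_not, not_not] at h3
    have h4 := Cyc.or_swap hp hvy hvx (Ne.symm hxy)
    have h5 := Cyc.or_swap hq hvy hvx (Ne.symm hxy)
    rcases h4 with h4 | h4
    · have hA : InD p q x y v := ⟨h4.rot', (h3.1 h4).rot'⟩
      exact Or.inl ⟨hA, (splitOn_key' hp hq hxy hvx hvy hv hA).1 h2⟩
    · rcases h5 with h5 | h5
      · exact absurd (h3.2 h5) h4.not_swap
      · have hA : InD p q y x v := ⟨h4.rot', h5.rot'⟩
        exact Or.inr ⟨hA, (splitOn_key' hp hq (Ne.symm hxy) hvy hvx hv hA).1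
          fun t ht h => h2 t ht ⟨h.2, h.1⟩⟩
  · rintro ⟨hvW, hv, h⟩
    have hvx : v ≠ x := by rintro rfl; rw [hx] at hv; exact Bool.noConfusion hv
    have hvy : v ≠ y := by rintro rfl; rw [hy] at hv; exact Bool.noConfusion hv
    refine ⟨hvW, by rw [hv]; exact Bool.noConfusion, by rw [hv]; exact Bool.noConfusion, ?_⟩
    rcases h with ⟨hA, h⟩ | ⟨hA, h⟩
    · exact (splitOn_key' hp hq hxy hvx hvy hv hA).2 h
    · intro t ht h'
      exact (splitOn_key' hp hq (Ne.symm hxy) hvy hvx hv hA).2 h t ht ⟨h'.2, h'.1⟩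

/-- `(HW)` in the torus model -/
theorem hwOn_gT (hp : Function.Injective p) (hq : Function.Injective q) {W : Finset V}
    (hR : ∀ x ∈ W, ∀ y ∈ W, red x = true → red y = true → x ≠ y →
      (∃ t ∈ W, InA p q x y t ∨ InA p q y x t) → ∃ v ∈ W, red v = false ∧
        ((InA p q x y v ∧ ∀ t ∈ W, InA p q x y t → t = v ∨ InA p q x v t ∨ InA p q v y t) ∨
          (InA p q y x v ∧ ∀ t ∈ W, InA p q y x t → t = v ∨ InA p q y v t ∨ InA p q v x t)))
    (hB : ∀ x ∈ W, ∀ y ∈ W, red x = false → red y = false → x ≠ y →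
      (∃ t ∈ W, InD p q x y t ∨ InD p q y x t) → ∃ v ∈ W, red v = true ∧
        ((InD p q x y v ∧ ∀ t ∈ W, InD p q x y t → t = v ∨ InD p q x v t ∨ InD p q v y t) ∨
          (InD p q y x v ∧ ∀ t ∈ W, InD p q y x t → t = v ∨ InD p q y v t ∨ InD p q v x t))) :
    HWOn (gT p q red) W := by
  intro x hxW y hyW hc htw
  rw [gT_self, gT_self] at hc
  have hxy : x ≠ y := by
    rintro rfl
    exact htw ⟨rfl, fun t _ => rt_gT_self_left x t⟩
  cases hx : red x with
  | true =>
    have hy : red y = true := hc ▸ hx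
    rw [twinOn_red hp hq hx hy hxy] at htw
    push Not at htw
    obtain ⟨t, ht, h⟩ := htw
    have h' : InA p q x y t ∨ InA p q y x t := by
      by_cases h1 : InA p q x y t
      · exact Or.inl h1
      · exact Or.inr (h h1)
    obtain ⟨v, hv, h1, h2⟩ := hR x hxW y hyW hx hy hxy ⟨t, ht, h'⟩
    exact ⟨v, (splitOn_red hp hq hxW hx hy hxy).2 ⟨hv, h1, h2⟩⟩
  | false =>
    have hy : red y = false := hc ▸ hx
    rw [twinOn_blue hp hq hx hy hxy] at htw
    push Not at htw
    obtain ⟨t, ht, h⟩ := htw
    have h' : InD p q x y t ∨ InD p q y x t := by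
      by_cases h1 : InD p q x y t
      · exact Or.inl h1
      · exact Or.inr (h h1)
    obtain ⟨v, hv, h1, h2⟩ := hB x hxW y hyW hx hy hxy ⟨t, ht, h'⟩
    exact ⟨v, (splitOn_blue hp hq hxW hx hy hxy).2 ⟨hv, h1, h2⟩⟩

end gT

end Pool.GOD
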