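import Pool.Agent.GOD.Walk
import Pool.Agent.GOD.Torus

/-!
The graph to torus dictionary (MP_7b7176_co).

`D1`, `D2` are two circuits with cyclic enumerations `v1, e1` and `v2, e2`; `idx e1`, `idx e2` are the
positions of the edges.  For common edges `x ≠ y` which are passed in the same direction by both
circuits, `SuppA` describes the edges of the closed trail that follows `D1` from `x` to `y` and `D2`
from `y` to `x`; for common edges which are passed in opposite directions, `SuppD` describes the closed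
trail that follows `D1` from `x` to `y` and then `D2` backwards from `y` to `x`.
-/

set_option autoImplicit false

namespace Pool.GOD

namespace MGraph

variable {V E : Type*}

/-- the position of an edge in an enumeration -/
noncomputable def idx (e : ℕ → E) (f : E) : ℕ := sInf {i | e i = f}

/-- the offset of the position `z` from the position `r` on a cycle of length `n` -/
def off (n r z : ℕ) : ℕ := if r ≤ z then z - r else z + n - r

theorem off_self (n r : ℕ) : off n r r = 0 := by simp [off]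

theorem off_lt {n r z : ℕ} (hr : r < n) (hz : z < n) : off n r z < n := by
  unfold off; split_ifs <;> omega

theorem off_eq_zero {n r z : ℕ} (hr : r < n) (h : off n r z = 0) : z = r := by
  unfold off at h; split_ifs at h <;> omega

theorem cyc_off {A : Type*} {p : A → ℕ} {n r : ℕ} {a b c : A} (hr : r < n) (ha : p a < n)
    (hb : p b < n) (hc : p c < n) :
    Cyc p a b c ↔ Cyc (fun z => off n r (p z)) a b c := by
  unfold Cyc off
  simp only
  split_ifs <;> omega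

section idx

variable {G : MGraph V E} {D : Finset E} {n : ℕ} {v : ℕ → V} {e : ℕ → E} {f g : E}

theorem Enum.idx_spec (h : Enum G D n v e) (hf : f ∈ D) : e (idx e f) = f ∧ idx e f < n := by
  obtain ⟨i, hi, hif⟩ := (h.mem f).1 hf
  have h1 : sInf {i | e i = f} ∈ {i | e i = f} := Nat.sInf_mem ⟨i, hif⟩
  exact ⟨h1, lt_of_le_of_lt (Nat.sInf_le hif) hi⟩

theorem Enum.e_idx (h : Enum G D n v e) (hf : f ∈ D) : e (idx e f) = f := (h.idx_spec hf).1

theorem Enum.idx_lt (h : Enum G D n v e) (hf : f ∈ D) : idx e f < n := (h.idx_spec hf).2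

theorem Enum.idx_e (h : Enum G D n v e) {i : ℕ} (hi : i < n) : idx e (e i) = i :=
  h.inje _ _ (h.idx_lt (h.e_mem i)) hi (h.e_idx (h.e_mem i))

theorem Enum.idx_inj (h : Enum G D n v e) (hf : f ∈ D) (hg : g ∈ D) (hfg : idx e f = idx e g) :
    f = g := by rw [← h.e_idx hf, ← h.e_idx hg, hfg]

/-- the position of `f` counted from position `r` -/
theorem Enum.e_off (h : Enum G D n v e) {r : ℕ} (hr : r < n) (hf : f ∈ D) :
    e (off n r (idx e f) + r) = f := by
  unfold off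
  split_ifs with h1
  · rw [Nat.sub_add_cancel h1, h.e_idx hf]
  · have := h.idx_lt hf
    rw [show idx e f + n - r + r = idx e f + n by omega, h.pe, h.e_idx hf]

theorem Enum.v_off (h : Enum G D n v e) {r : ℕ} (hr : r < n) (hf : f ∈ D) :
    v (off n r (idx e f) + r) = v (idx e f) := by
  unfold off
  split_ifs with h1
  · rw [Nat.sub_add_cancel h1]
  · have := h.idx_lt hf
    rw [show idx e f + n - r + r = idx e f + n by omega, h.pv]

/-- positions in the reversed enumeration -/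
theorem Enum.idx_rev (h : Enum G D n v e) (hf : f ∈ D) :
    idx (fun i => e (n - 1 - i % n)) f = n - 1 - idx e f := by
  have h1 := h.idx_lt hf
  have h2 : e (n - 1 - (n - 1 - idx e f) % n) = f := by
    rw [Nat.mod_eq_of_lt (by omega), show n - 1 - (n - 1 - idx e f) = idx e f by omega,
      h.e_idx hf]
  have h3 := h.rev.idx_e (i := n - 1 - idx e f) (by omega)
  rwa [h2] at h3

theorem Enum.ends_idx (h : Enum G D n v e) (hf : f ∈ D) :
    G.ends f = s(v (idx e f), v (idx e f + 1)) := by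
  conv_lhs => rw [← h.e_idx hf]
  exact h.ends _

end idx

section same

variable [DecidableEq E] {G : MGraph V E} {D1 D2 : Finset E} {n1 n2 : ℕ} {v1 v2 : ℕ → V}
  {e1 e2 : ℕ → E} {x y u : E} {X : Finset E}

/-- the edges of the closed trail through `x` and `y` (same direction) -/
def SuppA (D1 D2 : Finset E) (p q : E → ℕ) (x y f : E) : Prop :=
  f = x ∨ f = y ∨ (f ∈ D1 ∧ Cyc p x f y) ∨ (f ∈ D2 ∧ Cyc q y f x)

/-- the edges of the closed trail through `x` and `y` (opposite directions) -/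
def SuppD (D1 D2 : Finset E) (p q : E → ℕ) (x y f : E) : Prop :=
  f = x ∨ f = y ∨ (f ∈ D1 ∧ Cyc p x f y) ∨ (f ∈ D2 ∧ Cyc q x f y)

/-- the two circuits pass the edge `f` in the same direction -/
def SameDir (v1 : ℕ → V) (e1 : ℕ → E) (v2 : ℕ → V) (e2 : ℕ → E) (f : E) : Prop :=
  v1 (idx e1 f) = v2 (idx e2 f)

/-- Bridges of the trail through `x` and `y` (same direction) are cut points of `A(x,y)`. -/
theorem bridge_same (h1 : Enum G D1 n1 v1 e1) (h2 : Enum G D2 n2 v2 e2) (hx1 : x ∈ D1)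
    (hx2 : x ∈ D2) (hy1 : y ∈ D1) (hy2 : y ∈ D2) (hxy : x ≠ y)
    (dx : SameDir v1 e1 v2 e2 x) (dy : SameDir v1 e1 v2 e2 y)
    (hX : ∀ f, f ∈ X ↔ SuppA D1 D2 (idx e1) (idx e2) x y f) (hb : G.IsBridge X u) :
    u ∈ D1 ∧ u ∈ D2 ∧ InA (idx e1) (idx e2) x y u ∧ ¬ SameDir v1 e1 v2 e2 u ∧
      ∀ t, t ∈ D1 → t ∈ D2 → InA (idx e1) (idx e2) x y t →
        t = u ∨ InA (idx e1) (idx e2) x u t ∨ InA (idx e1) (idx e2) u y t := by
  set r1 := idx e1 x with hr1
  set r2 := idx e2 x with hr2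
  have lr1 : r1 < n1 := h1.idx_lt hx1
  have lr2 : r2 < n2 := h2.idx_lt hx2
  set o1 : E → ℕ := fun f => off n1 r1 (idx e1 f) with ho1
  set o2 : E → ℕ := fun f => off n2 r2 (idx e2 f) with ho2
  have ox1 : o1 x = 0 := off_self _ _
  have ox2 : o2 x = 0 := off_self _ _
  have lo1 : ∀ f, f ∈ D1 → o1 f < n1 := fun f hf => off_lt lr1 (h1.idx_lt hf)
  have lo2 : ∀ f, f ∈ D2 → o2 f < n2 := fun f hf => off_lt lr2 (h2.idx_lt hf)
  have eo1 : ∀ f, f ∈ D1 → e1 (o1 f + r1) = f := fun f hf => h1.e_off lr1 hf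
  have eo2 : ∀ f, f ∈ D2 → e2 (o2 f + r2) = f := fun f hf => h2.e_off lr2 hf
  have vo1 : ∀ f, f ∈ D1 → v1 (o1 f + r1) = v1 (idx e1 f) := fun f hf => h1.v_off lr1 hf
  have vo2 : ∀ f, f ∈ D2 → v2 (o2 f + r2) = v2 (idx e2 f) := fun f hf => h2.v_off lr2 hf
  have c1 : ∀ a b c, a ∈ D1 → b ∈ D1 → c ∈ D1 → (Cyc (idx e1) a b c ↔ Cyc o1 a b c) :=
    fun a b c ha hb hc => cyc_off lr1 (h1.idx_lt ha) (h1.idx_lt hb) (h1.idx_lt hc)
  have c2 : ∀ a b c, a ∈ D2 → b ∈ D2 → c ∈ D2 → (Cyc (idx e2) a b c ↔ Cyc o2 a b c) :=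
    fun a b c ha hb hc => cyc_off lr2 (h2.idx_lt ha) (h2.idx_lt hb) (h2.idx_lt hc)
  have r1' := h1.rot r1
  have r2' := h2.rot r2
  have oe1 : ∀ i, i < n1 → o1 (e1 (i + r1)) = i := by
    intro i hi
    refine r1'.inje _ _ (lo1 _ (h1.e_mem _)) hi ?_
    show e1 (o1 (e1 (i + r1)) + r1) = e1 (i + r1)
    exact eo1 _ (h1.e_mem _)
  have oe2 : ∀ i, i < n2 → o2 (e2 (i + r2)) = i := by
    intro i hi
    refine r2'.inje _ _ (lo2 _ (h2.e_mem _)) hi ?_
    show e2 (o2 (e2 (i + r2)) + r2) = e2 (i + r2)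
    exact eo2 _ (h2.e_mem _)
  have py1 : 0 < o1 y := by
    rcases Nat.eq_zero_or_pos (o1 y) with h | h
    · exact absurd (h1.idx_inj hy1 hx1 (off_eq_zero lr1 h)).symm hxy
    · exact h
  have py2 : 0 < o2 y := by
    rcases Nat.eq_zero_or_pos (o2 y) with h | h
    · exact absurd (h2.idx_inj hy2 hx2 (off_eq_zero lr2 h)).symm hxy
    · exact h
  -- membership in the arcs
  have a1 : ∀ f, f ∈ D1 → (Cyc (idx e1) x f y ↔ 0 < o1 f ∧ o1 f < o1 y) := by
    intro f hf
    rw [c1 _ _ _ hx1 hf hy1]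
    unfold Cyc
    rw [ox1]
    omega
  have a2 : ∀ f, f ∈ D2 → (Cyc (idx e2) y f x ↔ o2 y < o2 f) := by
    intro f hf
    rw [c2 _ _ _ hy2 hf hx2]
    unfold Cyc
    rw [ox2]
    omega
  have key := splice_bridge (k1 := o1 y) (k2 := o2 y) (X := X) (u := u) r1'.toCWalk r2'.toCWalk
    r1'.inje r2'.inje (lo1 y hy1) (lo2 y hy2) py2
    (by
      show e1 (0 + r1) = e2 (0 + r2)
      rw [Nat.zero_add, Nat.zero_add, h1.e_idx hx1, h2.e_idx hx2])
    (by
      show e1 (o1 y + r1) = e2 (o2 y + r2)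
      rw [eo1 y hy1, eo2 y hy2])
    (by
      show v1 (0 + r1) = v2 (0 + r2)
      rw [Nat.zero_add, Nat.zero_add]
      exact dx)
    (by
      show v1 (o1 y + 1 + r1) = v2 (o2 y + 1 + r2)
      have g1 : G.ends y = s(v1 (o1 y + r1), v1 (o1 y + r1 + 1)) := by
        conv_lhs => rw [← eo1 y hy1]
        exact h1.ends _
      have g2 : G.ends y = s(v2 (o2 y + r2), v2 (o2 y + r2 + 1)) := by
        conv_lhs => rw [← eo2 y hy2]
        exact h2.ends _
      have g3 : v1 (o1 y + r1) = v2 (o2 y + r2) := by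
        rw [vo1 y hy1, vo2 y hy2]; exact dy
      rw [g1, g3] at g2
      rw [show o1 y + 1 + r1 = o1 y + r1 + 1 by omega,
        show o2 y + 1 + r2 = o2 y + r2 + 1 by omega]
      exact Sym2.congr_right.1 g2)
    (by
      intro i hi
      show e1 (i + r1) ∈ X
      rw [hX]
      have hin : i < n1 := lt_of_le_of_lt hi (lo1 y hy1)
      have hD := h1.e_mem (i + r1)
      rcases Nat.eq_zero_or_pos i with h | h
      · left
        rw [h, Nat.zero_add, h1.e_idx hx1]
      · rcases Nat.lt_or_ge i (o1 y) with h' | h'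
        · right; right; left
          exact ⟨hD, (a1 _ hD).2 (by rw [oe1 i hin]; exact ⟨h, h'⟩)⟩
        · right; left
          have : i = o1 y := by omega
          rw [this, eo1 y hy1])
    (by
      intro j hj hj'
      show e2 (j + r2) ∈ X
      rw [hX]
      have hD := h2.e_mem (j + r2)
      right; right; right
      exact ⟨hD, (a2 _ hD).2 (by rw [oe2 j hj']; exact hj)⟩)
    (by
      intro f hf
      rw [hX] at hf
      rcases hf with rfl | rfl | ⟨hD, hC⟩ | ⟨hD, hC⟩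
      · exact Or.inl ⟨0, Nat.zero_le _, by
          show e1 (0 + r1) = f
          rw [Nat.zero_add, h1.e_idx hx1]⟩
      · exact Or.inl ⟨o1 f, le_rfl, eo1 f hy1⟩
      · exact Or.inl ⟨o1 f, ((a1 f hD).1 hC).2.le, eo1 f hD⟩
      · exact Or.inr ⟨o2 f, (a2 f hD).1 hC, lo2 f hD, eo2 f hD⟩)
    hb
  obtain ⟨i, j, hi0, hi, hj, hj', hiu, hju, hv, hall⟩ := key
  have hiu' : e1 (i + r1) = u := hiu
  have hju' : e2 (j + r2) = u := hju
  have hv' : v1 (i + r1) ≠ v2 (j + r2) := hv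
  have hin : i < n1 := lt_trans hi (lo1 y hy1)
  have hu1 : u ∈ D1 := by rw [← hiu']; exact h1.e_mem _
  have hu2 : u ∈ D2 := by rw [← hju']; exact h2.e_mem _
  have ou1 : o1 u = i := by rw [← hiu']; exact oe1 i hin
  have ou2 : o2 u = j := by rw [← hju']; exact oe2 j hj'
  refine ⟨hu1, hu2, ⟨(a1 u hu1).2 ⟨by omega, by omega⟩, (a2 u hu2).2 (by omega)⟩, ?_, ?_⟩
  · intro hs
    apply hv'
    have g1 := vo1 u hu1
    have g2 := vo2 u hu2
    rw [ou1] at g1
    rw [ou2] at g2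
    rw [g1, g2]
    exact hs
  · intro t ht1 ht2 ht
    by_cases htu : t = u
    · exact Or.inl htu
    · right
      have b1 := (a1 t ht1).1 ht.1
      have b2 := (a2 t ht2).1 ht.2
      have hne : o1 t ≠ i := by
        intro h
        apply htu
        rw [← eo1 t ht1, h, hiu']
      have hte : e1 (o1 t + r1) = e2 (o2 t + r2) := by rw [eo1 t ht1, eo2 t ht2]
      rcases hall (o1 t) (o2 t) b1.1 b1.2 b2 (lo2 t ht2) hte hne with h | h
      · left
        refine ⟨(c1 _ _ _ hx1 ht1 hu1).2 ?_, (c2 _ _ _ hu2 ht2 hx2).2 ?_⟩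
        · unfold Cyc; omega
        · unfold Cyc; omega
      · right
        refine ⟨(c1 _ _ _ hu1 ht1 hy1).2 ?_, (c2 _ _ _ hy2 ht2 hu2).2 ?_⟩
        · unfold Cyc; omega
        · unfold Cyc; omega

/-- Bridges of the trail through `x` and `y` (opposite directions) are cut points of `D(x,y)`. -/
theorem bridge_opp (h1 : Enum G D1 n1 v1 e1) (h2 : Enum G D2 n2 v2 e2) (hx1 : x ∈ D1)
    (hx2 : x ∈ D2) (hy1 : y ∈ D1) (hy2 : y ∈ D2) (hxy : x ≠ y)
    (dx : ¬ SameDir v1 e1 v2 e2 x) (dy : ¬ SameDir v1 e1 v2 e2 y)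
    (hX : ∀ f, f ∈ X ↔ SuppD D1 D2 (idx e1) (idx e2) x y f) (hb : G.IsBridge X u) :
    u ∈ D1 ∧ u ∈ D2 ∧ InD (idx e1) (idx e2) x y u ∧ SameDir v1 e1 v2 e2 u ∧
      ∀ t, t ∈ D1 → t ∈ D2 → InD (idx e1) (idx e2) x y t →
        t = u ∨ InD (idx e1) (idx e2) x u t ∨ InD (idx e1) (idx e2) u y t := by
  have hc : ∀ a b c, a ∈ D2 → b ∈ D2 → c ∈ D2 →
      (Cyc (idx fun i => e2 (n2 - 1 - i % n2)) a b c ↔ Cyc (idx e2) c b a) := by
    intro a b c ha hb hc
    unfold Cyc
    rw [h2.idx_rev ha, h2.idx_rev hb, h2.idx_rev hc]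
    have l1 := h2.idx_lt ha
    have l2 := h2.idx_lt hb
    have l3 := h2.idx_lt hc
    omega
  have hdir : ∀ f, f ∈ D1 → f ∈ D2 →
      (SameDir v1 e1 (fun i => v2 (n2 - i % n2)) (fun i => e2 (n2 - 1 - i % n2)) f ↔
        ¬ SameDir v1 e1 v2 e2 f) := by
    intro f hf1 hf2
    unfold SameDir
    rw [h2.idx_rev hf2]
    have l := h2.idx_lt hf2
    show v1 (idx e1 f) = v2 (n2 - (n2 - 1 - idx e2 f) % n2) ↔ ¬ v1 (idx e1 f) = v2 (idx e2 f)
    rw [Nat.mod_eq_of_lt (by omega : n2 - 1 - idx e2 f < n2),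
      show n2 - (n2 - 1 - idx e2 f) = idx e2 f + 1 by omega]
    have g1 := h1.ends_idx hf1
    have g2 := h2.ends_idx hf2
    have g3 := h2.v_ne_succ (idx e2 f)
    rw [g1] at g2
    have g4 : v1 (idx e1 f) ∈ s(v2 (idx e2 f), v2 (idx e2 f + 1)) := by
      rw [← g2]; exact Sym2.mem_mk_left _ _
    rw [Sym2.mem_iff] at g4
    constructor
    · intro h h'
      rw [h] at h'
      exact g3 h'.symm
    · intro h
      rcases g4 with g4 | g4
      · exact absurd g4 h
      · exact g4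
  have hX' : ∀ f, f ∈ X ↔
      SuppA D1 D2 (idx e1) (idx fun i => e2 (n2 - 1 - i % n2)) x y f := by
    intro f
    rw [hX]
    unfold SuppA SuppD
    constructor
    · rintro (h | h | h | ⟨h, h'⟩)
      · exact Or.inl h
      · exact Or.inr (Or.inl h)
      · exact Or.inr (Or.inr (Or.inl h))
      · exact Or.inr (Or.inr (Or.inr ⟨h, (hc _ _ _ hy2 h hx2).2 h'⟩))
    · rintro (h | h | h | ⟨h, h'⟩)
      · exact Or.inl h
      · exact Or.inr (Or.inl h)
      · exact Or.inr (Or.inr (Or.inl h))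
      · exact Or.inr (Or.inr (Or.inr ⟨h, (hc _ _ _ hy2 h hx2).1 h'⟩))
  obtain ⟨hu1, hu2, hA, hd, hall⟩ := bridge_same h1 h2.rev hx1 hx2 hy1 hy2 hxy
    ((hdir x hx1 hx2).2 dx) ((hdir y hy1 hy2).2 dy) hX' hb
  refine ⟨hu1, hu2, ⟨hA.1, (hc _ _ _ hy2 hu2 hx2).1 hA.2⟩, ?_, ?_⟩
  · by_contra h
    exact hd ((hdir u hu1 hu2).2 h)
  · intro t ht1 ht2 ht
    rcases hall t ht1 ht2 ⟨ht.1, (hc _ _ _ hy2 ht2 hx2).2 ht.2⟩ with h | h | h
    · exact Or.inl h
    · exact Or.inr (Or.inl ⟨h.1, (hc _ _ _ hu2 ht2 hx2).1 h.2⟩)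
    · exact Or.inr (Or.inr ⟨h.1, (hc _ _ _ hy2 ht2 hu2).1 h.2⟩)

end same

end MGraph

end Pool.GOD
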