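import Pool.Agent.GOD.Dict

/-!
The graph to torus dictionary, second part (MP_7b7176_co).

`circuit_same`, `circuit_opp`: the trail through two common edges `x`, `y` of the circuits `D1`, `D2`
is a circuit if its rectangle has no further common edge.  `supp_compl_same`, `supp_compl_opp`: the
support of the complementary trail.
-/

set_option autoImplicit false

namespace Pool.GOD

namespace MGraph

variable {V E : Type*}

section deg

variable [DecidableEq V] [DecidableEq E] {G : MGraph V E} {n : ℕ} {v : ℕ → V} {e : ℕ → E}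
  {T : Finset E}

/-- the degree of a vertex in the edge set of a closed walk with different edges is twice the
number of passages -/
theorem CWalk.deg_eq (h : CWalk G n v e) (inj : ∀ i j, i < n → j < n → e i = e j → i = j)
    (hT : ∀ f, f ∈ T ↔ ∃ i, i < n ∧ e i = f) (a : V) :
    G.deg T a = 2 * ((Finset.range n).filter (fun i => v i = a)).card := by
  have h1 : T.filter (fun f => a ∈ G.ends f) =
      ((Finset.range n).filter (fun i => a ∈ G.ends (e i))).image e := by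
    ext f
    rw [Finset.mem_filter, Finset.mem_image, hT]
    constructor
    · rintro ⟨⟨i, hi, rfl⟩, ha⟩
      exact ⟨i, Finset.mem_filter.2 ⟨Finset.mem_range.2 hi, ha⟩, rfl⟩
    · rintro ⟨i, hi, rfl⟩
      rw [Finset.mem_filter, Finset.mem_range] at hi
      exact ⟨⟨i, hi.1, rfl⟩, hi.2⟩
  have h2 : ((Finset.range n).filter (fun i => v (i + 1) = a)).card =
      ((Finset.range n).filter (fun i => v i = a)).card := by
    have h3 : ∀ m, ((Finset.range m).filter (fun i => v (i + 1) = a)).card +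
        (if v 0 = a then 1 else 0) =
        ((Finset.range m).filter (fun i => v i = a)).card + (if v m = a then 1 else 0) := by
      intro m
      induction m with
      | zero => simp
      | succ m ih =>
        rw [Finset.range_add_one, Finset.filter_insert, Finset.filter_insert]
        by_cases c1 : v (m + 1) = a <;> by_cases c2 : v m = a
        · rw [if_pos c1, if_pos c2, Finset.card_insert_of_notMem (by simp),
            Finset.card_insert_of_notMem (by simp), if_pos c1]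
          rw [if_pos c2] at ih
          omega
        · rw [if_pos c1, if_neg c2, Finset.card_insert_of_notMem (by simp), if_pos c1]
          rw [if_neg c2] at ih
          omega
        · rw [if_neg c1, if_pos c2, Finset.card_insert_of_notMem (by simp), if_neg c1]
          rw [if_pos c2] at ih
          omega
        · rw [if_neg c1, if_neg c2, if_neg c1]
          rw [if_neg c2] at ih
          omega
    have h4 := h3 n
    have h5 : v n = v 0 := by
      have := h.pv 0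
      rwa [Nat.zero_add] at this
    rw [h5] at h4
    omega
  unfold deg
  rw [h1, Finset.card_image_of_injOn]
  · have h6 : (Finset.range n).filter (fun i => a ∈ G.ends (e i)) =
        (Finset.range n).filter (fun i => v i = a) ∪
          (Finset.range n).filter (fun i => v (i + 1) = a) := by
      ext i
      rw [Finset.mem_union, Finset.mem_filter, Finset.mem_filter, Finset.mem_filter, h.ends,
        Sym2.mem_iff]
      constructor
      · rintro ⟨h7, h8 | h8⟩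
        · exact Or.inl ⟨h7, h8.symm⟩
        · exact Or.inr ⟨h7, h8.symm⟩
      · rintro (⟨h7, h8⟩ | ⟨h7, h8⟩)
        · exact ⟨h7, Or.inl h8.symm⟩
        · exact ⟨h7, Or.inr h8.symm⟩
    rw [h6, Finset.card_union_of_disjoint, h2]
    · omega
    · rw [Finset.disjoint_left]
      intro i hi hi'
      rw [Finset.mem_filter] at hi hi'
      exact h.v_ne_succ i (hi.2.trans hi'.2.symm)
  · intro i hi j hj hij
    rw [Finset.mem_coe, Finset.mem_filter, Finset.mem_range] at hi hj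
    exact inj i j hi.1 hj.1 hij

/-- a closed walk with different edges in a graph of maximal degree three is a circuit -/
theorem CWalk.isCircuit (h : CWalk G n v e) (inj : ∀ i j, i < n → j < n → e i = e j → i = j)
    (hT : ∀ f, f ∈ T ↔ ∃ i, i < n ∧ e i = f) (hdeg : ∀ a, G.deg T a ≤ 3) : G.IsCircuit T := by
  have hk : ∀ k, e k ∈ T := by
    intro k
    rw [hT]
    exact ⟨k % n, Nat.mod_lt _ h.pos, h.e_mod k⟩
  refine ⟨⟨e 0, hk 0⟩, ?_, ?_⟩
  · intro a
    have h1 := h.deg_eq inj hT a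
    have h2 := hdeg a
    omega
  · intro a b ha hb
    have h1 : ∀ c, G.deg T c = 2 → ∃ i, i < n ∧ v i = c := by
      intro c hc
      rw [h.deg_eq inj hT c] at hc
      have h2 : 0 < ((Finset.range n).filter (fun i => v i = c)).card := by omega
      obtain ⟨i, hi⟩ := Finset.card_pos.1 h2
      rw [Finset.mem_filter, Finset.mem_range] at hi
      exact ⟨i, hi⟩
    obtain ⟨i, _, rfl⟩ := h1 a ha
    obtain ⟨j, _, rfl⟩ := h1 b hb
    rcases Nat.le_total i j with hij | hij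
    · exact h.seg hij fun k _ _ => hk k
    · exact (h.seg hij fun k _ _ => hk k).symm

end deg

section same

variable [DecidableEq V] [DecidableEq E] {G : MGraph V E} {D1 D2 : Finset E} {n1 n2 : ℕ}
  {v1 v2 : ℕ → V} {e1 e2 : ℕ → E} {x y u : E} {T : Finset E}

omit [DecidableEq V] [DecidableEq E] in
/-- the two enumerations, rotated to start at `x` -/
theorem walk_enum (h1 : Enum G D1 n1 v1 e1) (h2 : Enum G D2 n2 v2 e2) (hx1 : x ∈ D1)
    (hx2 : x ∈ D2) (hy1 : y ∈ D1) (hy2 : y ∈ D2) (hxy : x ≠ y)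
    (dx : SameDir v1 e1 v2 e2 x) (dy : SameDir v1 e1 v2 e2 y) :
    ∃ (k1 k2 : ℕ) (V1 V2 : ℕ → V) (E1 E2 : ℕ → E), Enum G D1 n1 V1 E1 ∧ Enum G D2 n2 V2 E2 ∧
      0 < k1 ∧ k1 < n1 ∧ 0 < k2 ∧ k2 < n2 ∧ E1 0 = x ∧ E2 0 = x ∧ E1 k1 = y ∧ E2 k2 = y ∧
      V1 0 = V2 0 ∧ V1 (k1 + 1) = V2 (k2 + 1) ∧
      (∀ i, 0 < i → i < k1 → E1 i ∈ D1 ∧ Cyc (idx e1) x (E1 i) y) ∧
      (∀ f ∈ D1, Cyc (idx e1) x f y → ∃ i, 0 < i ∧ i < k1 ∧ E1 i = f) ∧
      (∀ j, k2 < j → j < n2 → E2 j ∈ D2 ∧ Cyc (idx e2) y (E2 j) x) ∧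
      (∀ f ∈ D2, Cyc (idx e2) y f x → ∃ j, k2 < j ∧ j < n2 ∧ E2 j = f) := by
  set r1 := idx e1 x with hr1
  set r2 := idx e2 x with hr2
  have lr1 : r1 < n1 := h1.idx_lt hx1
  have lr2 : r2 < n2 := h2.idx_lt hx2
  set o1 : E → ℕ := fun f => off n1 r1 (idx e1 f) with ho1
  set o2 : E → ℕ := fun f => off n2 r2 (idx e2 f) with ho2
  have ox1 : o1 x = 0 := off_self _ _
  have ox2 : o2 x = 0 := off_self _ _
  have lo1 : ∀ f, f ∈ D1 → o1 f < n1 := fun f hf => off_lt lr1 (h1.idx_lt hf)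
  have lo2 : ∀ f, f ∈ D2 → o2 f < n2 := fun f hf => off_lt lr2 (h2.idx_lt hf)
  have eo1 : ∀ f, f ∈ D1 → e1 (o1 f + r1) = f := fun f hf => h1.e_off lr1 hf
  have eo2 : ∀ f, f ∈ D2 → e2 (o2 f + r2) = f := fun f hf => h2.e_off lr2 hf
  have vo1 : ∀ f, f ∈ D1 → v1 (o1 f + r1) = v1 (idx e1 f) := fun f hf => h1.v_off lr1 hf
  have vo2 : ∀ f, f ∈ D2 → v2 (o2 f + r2) = v2 (idx e2 f) := fun f hf => h2.v_off lr2 hf
  have c1 : ∀ a b c, a ∈ D1 → b ∈ D1 → c ∈ D1 → (Cyc (idx e1) a b c ↔ Cyc o1 a b c) :=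
    fun a b c ha hb hc => cyc_off lr1 (h1.idx_lt ha) (h1.idx_lt hb) (h1.idx_lt hc)
  have c2 : ∀ a b c, a ∈ D2 → b ∈ D2 → c ∈ D2 → (Cyc (idx e2) a b c ↔ Cyc o2 a b c) :=
    fun a b c ha hb hc => cyc_off lr2 (h2.idx_lt ha) (h2.idx_lt hb) (h2.idx_lt hc)
  have r1' := h1.rot r1
  have r2' := h2.rot r2
  have oe1 : ∀ i, i < n1 → o1 (e1 (i + r1)) = i := by
    intro i hi
    refine r1'.inje _ _ (lo1 _ (h1.e_mem _)) hi ?_
    show e1 (o1 (e1 (i + r1)) + r1) = e1 (i + r1)
    exact eo1 _ (h1.e_mem _)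
  have oe2 : ∀ i, i < n2 → o2 (e2 (i + r2)) = i := by
    intro i hi
    refine r2'.inje _ _ (lo2 _ (h2.e_mem _)) hi ?_
    show e2 (o2 (e2 (i + r2)) + r2) = e2 (i + r2)
    exact eo2 _ (h2.e_mem _)
  have py1 : 0 < o1 y := by
    rcases Nat.eq_zero_or_pos (o1 y) with h | h
    · exact absurd (h1.idx_inj hy1 hx1 (off_eq_zero lr1 h)).symm hxy
    · exact h
  have py2 : 0 < o2 y := by
    rcases Nat.eq_zero_or_pos (o2 y) with h | h
    · exact absurd (h2.idx_inj hy2 hx2 (off_eq_zero lr2 h)).symm hxy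
    · exact h
  have a1 : ∀ f, f ∈ D1 → (Cyc (idx e1) x f y ↔ 0 < o1 f ∧ o1 f < o1 y) := by
    intro f hf
    rw [c1 _ _ _ hx1 hf hy1]
    unfold Cyc
    rw [ox1]
    omega
  have a2 : ∀ f, f ∈ D2 → (Cyc (idx e2) y f x ↔ o2 y < o2 f) := by
    intro f hf
    rw [c2 _ _ _ hy2 hf hx2]
    unfold Cyc
    rw [ox2]
    omega
  refine ⟨o1 y, o2 y, fun i => v1 (i + r1), fun i => v2 (i + r2), fun i => e1 (i + r1),
    fun i => e2 (i + r2), r1', r2', py1, lo1 y hy1, py2,
    lo2 y hy2, ?_, ?_, eo1 y hy1, eo2 y hy2, ?_, ?_, ?_, ?_, ?_, ?_⟩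
  · show e1 (0 + r1) = x
    rw [Nat.zero_add, h1.e_idx hx1]
  · show e2 (0 + r2) = x
    rw [Nat.zero_add, h2.e_idx hx2]
  · show v1 (0 + r1) = v2 (0 + r2)
    rw [Nat.zero_add, Nat.zero_add]
    exact dx
  · show v1 (o1 y + 1 + r1) = v2 (o2 y + 1 + r2)
    have g1 : G.ends y = s(v1 (o1 y + r1), v1 (o1 y + r1 + 1)) := by
      conv_lhs => rw [← eo1 y hy1]
      exact h1.ends _
    have g2 : G.ends y = s(v2 (o2 y + r2), v2 (o2 y + r2 + 1)) := by
      conv_lhs => rw [← eo2 y hy2]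
      exact h2.ends _
    have g3 : v1 (o1 y + r1) = v2 (o2 y + r2) := by
      rw [vo1 y hy1, vo2 y hy2]; exact dy
    rw [g1, g3] at g2
    rw [show o1 y + 1 + r1 = o1 y + r1 + 1 by omega,
      show o2 y + 1 + r2 = o2 y + r2 + 1 by omega]
    exact Sym2.congr_right.1 g2
  · intro i hi hi'
    have hD := h1.e_mem (i + r1)
    exact ⟨hD, (a1 _ hD).2 (by rw [oe1 i (hi'.trans (lo1 y hy1))]; exact ⟨hi, hi'⟩)⟩
  · intro f hf hC
    exact ⟨o1 f, ((a1 f hf).1 hC).1, ((a1 f hf).1 hC).2, eo1 f hf⟩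
  · intro j hj hj'
    have hD := h2.e_mem (j + r2)
    exact ⟨hD, (a2 _ hD).2 (by rw [oe2 j hj']; exact hj)⟩
  · intro f hf hC
    exact ⟨o2 f, (a2 f hf).1 hC, lo2 f hf, eo2 f hf⟩

omit [DecidableEq V] [DecidableEq E] in
/-- the two enumerations, rotated to start at `x` -/
theorem walk_same (h1 : Enum G D1 n1 v1 e1) (h2 : Enum G D2 n2 v2 e2) (hx1 : x ∈ D1)
    (hx2 : x ∈ D2) (hy1 : y ∈ D1) (hy2 : y ∈ D2) (hxy : x ≠ y)
    (dx : SameDir v1 e1 v2 e2 x) (dy : SameDir v1 e1 v2 e2 y) :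
    ∃ (k1 k2 : ℕ) (V1 V2 : ℕ → V) (E1 E2 : ℕ → E), CWalk G n1 V1 E1 ∧ CWalk G n2 V2 E2 ∧
      (∀ i j, i < n1 → j < n1 → E1 i = E1 j → i = j) ∧
      (∀ i j, i < n2 → j < n2 → E2 i = E2 j → i = j) ∧
      0 < k1 ∧ k1 < n1 ∧ 0 < k2 ∧ k2 < n2 ∧ E1 0 = x ∧ E2 0 = x ∧ E1 k1 = y ∧ E2 k2 = y ∧
      V1 0 = V2 0 ∧ V1 (k1 + 1) = V2 (k2 + 1) ∧
      (∀ i, 0 < i → i < k1 → E1 i ∈ D1 ∧ Cyc (idx e1) x (E1 i) y) ∧
      (∀ f ∈ D1, Cyc (idx e1) x f y → ∃ i, 0 < i ∧ i < k1 ∧ E1 i = f) ∧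
      (∀ j, k2 < j → j < n2 → E2 j ∈ D2 ∧ Cyc (idx e2) y (E2 j) x) ∧
      (∀ f ∈ D2, Cyc (idx e2) y f x → ∃ j, k2 < j ∧ j < n2 ∧ E2 j = f) := by
  obtain ⟨k1, k2, V1, V2, E1, E2, w1, w2, h⟩ := walk_enum h1 h2 hx1 hx2 hy1 hy2 hxy dx dy
  exact ⟨k1, k2, V1, V2, E1, E2, w1.toCWalk, w2.toCWalk, w1.inje, w2.inje, h⟩

/-- the trail with an empty rectangle is a circuit (same direction) -/
theorem circuit_same (h1 : Enum G D1 n1 v1 e1) (h2 : Enum G D2 n2 v2 e2) (hx1 : x ∈ D1)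
    (hx2 : x ∈ D2) (hy1 : y ∈ D1) (hy2 : y ∈ D2) (hxy : x ≠ y)
    (dx : SameDir v1 e1 v2 e2 x) (dy : SameDir v1 e1 v2 e2 y)
    (hdeg : ∀ a, G.deg T a ≤ 3)
    (hT : ∀ f, f ∈ T ↔ SuppA D1 D2 (idx e1) (idx e2) x y f)
    (hemp : ∀ t, t ∈ D1 → t ∈ D2 → ¬ InA (idx e1) (idx e2) x y t) : G.IsCircuit T := by
  obtain ⟨k1, k2, V1, V2, E1, E2, w1, w2, i1, i2, pk1, lk1, pk2, lk2, x1, x2, y1, y2, hv0, hvk,
    m1, m1', m2, m2'⟩ := walk_same h1 h2 hx1 hx2 hy1 hy2 hxy dx dy
  have hW := splice w1 w2 lk2 hv0 hvk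
  -- values
  have hL : ∀ i, i ≤ k1 → spl k1 k2 n2 E1 E2 i = E1 i := fun i hi => spl_left E1 E2 lk2 hi
  have hR : ∀ k, k1 < k → k < k1 + (n2 - k2) →
      spl k1 k2 n2 E1 E2 k = E2 (k - k1 + k2) := by
    intro k hk' hk''
    have := spl_right (k1 := k1) E1 E2 (j := k - k1 + k2) (k2 := k2) (n2 := n2) (by omega)
      (by omega)
    rwa [show k1 + (k - k1 + k2 - k2) = k by omega] at this
  have cross : ∀ i j, i ≤ k1 → k2 < j → j < n2 → E1 i ≠ E2 j := by
    intro i j hi hj hj' hij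
    rcases Nat.eq_zero_or_pos i with h | h
    · rw [h, x1, ← x2] at hij
      have := i2 _ _ (by omega) hj' hij
      omega
    · rcases Nat.lt_or_ge i k1 with h' | h'
      · obtain ⟨g1, g2⟩ := m1 i h h'
        obtain ⟨g3, g4⟩ := m2 j hj hj'
        rw [← hij] at g3 g4
        exact hemp _ g1 g3 ⟨g2, g4⟩
      · have : i = k1 := by omega
        rw [this, y1, ← y2] at hij
        have := i2 _ _ (by omega) hj' hij
        omega
  refine hW.isCircuit ?_ ?_ hdeg
  · intro i j hi hj hij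
    rcases Nat.lt_or_ge k1 i with c1 | c1 <;> rcases Nat.lt_or_ge k1 j with c2 | c2
    · rw [hR i c1 hi, hR j c2 hj] at hij
      have := i2 _ _ (by omega) (by omega) hij
      omega
    · rw [hR i c1 hi, hL j c2] at hij
      exact absurd hij.symm (cross _ _ c2 (by omega) (by omega))
    · rw [hL i c1, hR j c2 hj] at hij
      exact absurd hij (cross _ _ c1 (by omega) (by omega))
    · rw [hL i c1, hL j c2] at hij
      exact i1 _ _ (by omega) (by omega) hij
  · intro f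
    rw [hT]
    constructor
    · rintro (rfl | rfl | ⟨hD, hC⟩ | ⟨hD, hC⟩)
      · exact ⟨0, by omega, by rw [hL 0 (by omega), x1]⟩
      · exact ⟨k1, by omega, by rw [hL k1 le_rfl, y1]⟩
      · obtain ⟨i, hi, hi', h⟩ := m1' f hD hC
        exact ⟨i, by omega, by rw [hL i (by omega), h]⟩
      · obtain ⟨j, hj, hj', h⟩ := m2' f hD hC
        exact ⟨k1 + (j - k2), by omega, by rw [spl_right E1 E2 hj hj', h]⟩
    · rintro ⟨i, hi, rfl⟩
      rcases Nat.lt_or_ge k1 i with c1 | c1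
      · rw [hR i c1 hi]
        exact Or.inr (Or.inr (Or.inr (m2 _ (by omega) (by omega))))
      · rw [hL i c1]
        rcases Nat.eq_zero_or_pos i with h | h
        · rw [h, x1]; exact Or.inl rfl
        · rcases Nat.lt_or_ge i k1 with h' | h'
          · exact Or.inr (Or.inr (Or.inl (m1 i h h')))
          · have : i = k1 := by omega
            rw [this, y1]
            exact Or.inr (Or.inl rfl)

omit [DecidableEq V] in
/-- the support of the complementary trail (same direction) -/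
theorem supp_compl_same (h1 : Enum G D1 n1 v1 e1) (h2 : Enum G D2 n2 v2 e2) (hx1 : x ∈ D1)
    (hx2 : x ∈ D2) (hy1 : y ∈ D1) (hy2 : y ∈ D2) (hxy : x ≠ y)
    (hT : ∀ f, f ∈ T ↔ SuppA D1 D2 (idx e1) (idx e2) x y f)
    (hemp : ∀ t, t ∈ D1 → t ∈ D2 → ¬ InA (idx e1) (idx e2) x y t) (f : E) :
    0 < chi D1 f + chi D2 f - chi T f ↔ SuppA D1 D2 (idx e1) (idx e2) y x f := by
  by_cases fx : f = x
  · subst fx
    unfold chi
    rw [if_pos hx1, if_pos hx2]
    constructor
    · intro _; exact Or.inr (Or.inl rfl)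
    · intro _; split_ifs <;> omega
  by_cases fy : f = y
  · subst fy
    unfold chi
    rw [if_pos hy1, if_pos hy2]
    constructor
    · intro _; exact Or.inl rfl
    · intro _; split_ifs <;> omega
  have t1 : f ∈ D1 → (¬ Cyc (idx e1) x f y ↔ Cyc (idx e1) y f x) := by
    intro hf
    have g1 : idx e1 f ≠ idx e1 x := fun h => fx (h1.idx_inj hf hx1 h)
    have g2 : idx e1 f ≠ idx e1 y := fun h => fy (h1.idx_inj hf hy1 h)
    have g3 : idx e1 x ≠ idx e1 y := fun h => hxy (h1.idx_inj hx1 hy1 h)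
    unfold Cyc; omega
  have t2 : f ∈ D2 → (¬ Cyc (idx e2) y f x ↔ Cyc (idx e2) x f y) := by
    intro hf
    have g1 : idx e2 f ≠ idx e2 x := fun h => fx (h2.idx_inj hf hx2 h)
    have g2 : idx e2 f ≠ idx e2 y := fun h => fy (h2.idx_inj hf hy2 h)
    have g3 : idx e2 x ≠ idx e2 y := fun h => hxy (h2.idx_inj hx2 hy2 h)
    unfold Cyc; omega
  have hTf := hT f
  unfold SuppA at hTf ⊢
  simp only [fx, fy, false_or] at hTf ⊢
  unfold chi
  by_cases f1 : f ∈ D1 <;> by_cases f2 : f ∈ D2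
  · have g := hemp f f1 f2
    have t1' := t1 f1
    have t2' := t2 f2
    unfold InA at g
    rw [if_pos f1, if_pos f2]
    constructor
    · intro _
      by_cases c : Cyc (idx e1) y f x
      · exact Or.inl ⟨f1, c⟩
      · have : Cyc (idx e1) x f y := by
          by_contra c'; exact c (t1'.1 c')
        exact Or.inr ⟨f2, t2'.1 fun c' => g ⟨this, c'⟩⟩
    · intro _; split_ifs <;> omega
  · have t1' := t1 f1
    rw [if_pos f1, if_neg f2]
    simp only [f1, f2, true_and, false_and, or_false] at hTf ⊢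
    by_cases c : f ∈ T
    · rw [if_pos c]
      have c' := hTf.1 c
      constructor
      · intro h; omega
      · intro h; exact absurd c' (t1'.2 h)
    · rw [if_neg c]
      constructor
      · intro _; exact t1'.1 fun h => c (hTf.2 h)
      · intro _; omega
  · have t2' := t2 f2
    rw [if_neg f1, if_pos f2]
    simp only [f1, f2, true_and, false_and, false_or] at hTf ⊢
    by_cases c : f ∈ T
    · rw [if_pos c]
      have c' := hTf.1 c
      constructor
      · intro h; omega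
      · intro h; exact absurd c' (t2'.2 h)
    · rw [if_neg c]
      constructor
      · intro _; exact t2'.1 fun h => c (hTf.2 h)
      · intro _; omega
  · rw [if_neg f1, if_neg f2]
    simp only [f1, f2, false_and, or_false, iff_false] at hTf ⊢
    omega

omit [DecidableEq V] [DecidableEq E] in
/-- reversing the second enumeration exchanges the two kinds of pairs -/
theorem rev_facts (h1 : Enum G D1 n1 v1 e1) (h2 : Enum G D2 n2 v2 e2) :
    (∀ a b c, a ∈ D2 → b ∈ D2 → c ∈ D2 →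
      (Cyc (idx fun i => e2 (n2 - 1 - i % n2)) a b c ↔ Cyc (idx e2) c b a)) ∧
    (∀ f, f ∈ D1 → f ∈ D2 →
      (SameDir v1 e1 (fun i => v2 (n2 - i % n2)) (fun i => e2 (n2 - 1 - i % n2)) f ↔
        ¬ SameDir v1 e1 v2 e2 f)) := by
  constructor
  · intro a b c ha hb hc
    unfold Cyc
    rw [h2.idx_rev ha, h2.idx_rev hb, h2.idx_rev hc]
    have l1 := h2.idx_lt ha
    have l2 := h2.idx_lt hb
    have l3 := h2.idx_lt hc
    omega
  · intro f hf1 hf2
    unfold SameDir
    rw [h2.idx_rev hf2]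
    have l := h2.idx_lt hf2
    show v1 (idx e1 f) = v2 (n2 - (n2 - 1 - idx e2 f) % n2) ↔ ¬ v1 (idx e1 f) = v2 (idx e2 f)
    rw [Nat.mod_eq_of_lt (by omega : n2 - 1 - idx e2 f < n2),
      show n2 - (n2 - 1 - idx e2 f) = idx e2 f + 1 by omega]
    have g1 := h1.ends_idx hf1
    have g2 := h2.ends_idx hf2
    have g3 := h2.v_ne_succ (idx e2 f)
    rw [g1] at g2
    have g4 : v1 (idx e1 f) ∈ s(v2 (idx e2 f), v2 (idx e2 f + 1)) := by
      rw [← g2]; exact Sym2.mem_mk_left _ _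
    rw [Sym2.mem_iff] at g4
    constructor
    · intro h h'
      rw [h] at h'
      exact g3 h'.symm
    · intro h
      rcases g4 with g4 | g4
      · exact absurd g4 h
      · exact g4

omit [DecidableEq V] [DecidableEq E] in
theorem suppD_iff (h1 : Enum G D1 n1 v1 e1) (h2 : Enum G D2 n2 v2 e2) (hx2 : x ∈ D2)
    (hy2 : y ∈ D2) (f : E) :
    SuppD D1 D2 (idx e1) (idx e2) x y f ↔
      SuppA D1 D2 (idx e1) (idx fun i => e2 (n2 - 1 - i % n2)) x y f := by
  obtain ⟨hc, -⟩ := rev_facts h1 h2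
  unfold SuppA SuppD
  constructor
  · rintro (h | h | h | ⟨h, h'⟩)
    · exact Or.inl h
    · exact Or.inr (Or.inl h)
    · exact Or.inr (Or.inr (Or.inl h))
    · exact Or.inr (Or.inr (Or.inr ⟨h, (hc _ _ _ hy2 h hx2).2 h'⟩))
  · rintro (h | h | h | ⟨h, h'⟩)
    · exact Or.inl h
    · exact Or.inr (Or.inl h)
    · exact Or.inr (Or.inr (Or.inl h))
    · exact Or.inr (Or.inr (Or.inr ⟨h, (hc _ _ _ hy2 h hx2).1 h'⟩))

omit [DecidableEq V] [DecidableEq E] in
theorem inD_iff (h1 : Enum G D1 n1 v1 e1) (h2 : Enum G D2 n2 v2 e2) (hx2 : x ∈ D2)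
    (hy2 : y ∈ D2) {t : E} (ht : t ∈ D2) :
    InD (idx e1) (idx e2) x y t ↔
      InA (idx e1) (idx fun i => e2 (n2 - 1 - i % n2)) x y t := by
  obtain ⟨hc, -⟩ := rev_facts h1 h2
  unfold InA InD
  rw [hc _ _ _ hy2 ht hx2]

/-- the trail with an empty rectangle is a circuit (opposite directions) -/
theorem circuit_opp (h1 : Enum G D1 n1 v1 e1) (h2 : Enum G D2 n2 v2 e2) (hx1 : x ∈ D1)
    (hx2 : x ∈ D2) (hy1 : y ∈ D1) (hy2 : y ∈ D2) (hxy : x ≠ y)
    (dx : ¬ SameDir v1 e1 v2 e2 x) (dy : ¬ SameDir v1 e1 v2 e2 y)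
    (hdeg : ∀ a, G.deg T a ≤ 3)
    (hT : ∀ f, f ∈ T ↔ SuppD D1 D2 (idx e1) (idx e2) x y f)
    (hemp : ∀ t, t ∈ D1 → t ∈ D2 → ¬ InD (idx e1) (idx e2) x y t) : G.IsCircuit T := by
  obtain ⟨-, hd⟩ := rev_facts h1 h2
  exact circuit_same h1 h2.rev hx1 hx2 hy1 hy2 hxy ((hd x hx1 hx2).2 dx) ((hd y hy1 hy2).2 dy)
    hdeg (fun f => (hT f).trans (suppD_iff h1 h2 hx2 hy2 f))
    (fun t ht1 ht2 h => hemp t ht1 ht2 ((inD_iff h1 h2 hx2 hy2 ht2).2 h))

omit [DecidableEq V] in
/-- the support of the complementary trail (opposite directions) -/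
theorem supp_compl_opp (h1 : Enum G D1 n1 v1 e1) (h2 : Enum G D2 n2 v2 e2) (hx1 : x ∈ D1)
    (hx2 : x ∈ D2) (hy1 : y ∈ D1) (hy2 : y ∈ D2) (hxy : x ≠ y)
    (hT : ∀ f, f ∈ T ↔ SuppD D1 D2 (idx e1) (idx e2) x y f)
    (hemp : ∀ t, t ∈ D1 → t ∈ D2 → ¬ InD (idx e1) (idx e2) x y t) (f : E) :
    0 < chi D1 f + chi D2 f - chi T f ↔ SuppD D1 D2 (idx e1) (idx e2) y x f := by
  rw [suppD_iff h1 h2 hy2 hx2]
  exact supp_compl_same h1 h2.rev hx1 hx2 hy1 hy2 hxy
    (fun f => (hT f).trans (suppD_iff h1 h2 hx2 hy2 f))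
    (fun t ht1 ht2 h => hemp t ht1 ht2 ((inD_iff h1 h2 hx2 hy2 ht2).2 h)) f

end same

section eul

variable [Fintype V] [DecidableEq V] [Fintype E] [DecidableEq E] {G : MGraph V E}

omit [Fintype V] [Fintype E] in
theorem sum_chi (X D : Finset E) (hD : D ⊆ X) (a : V) :
    ∑ e ∈ X.filter (fun e => a ∈ G.ends e), chi D e = G.deg D a := by
  unfold chi deg
  rw [← Finset.sum_filter, Finset.sum_const, smul_eq_mul, mul_one]
  congr 1
  ext e
  simp only [Finset.mem_filter]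
  constructor
  · rintro ⟨⟨_, h2⟩, h3⟩; exact ⟨h3, h2⟩
  · rintro ⟨h1, h2⟩; exact ⟨⟨hD h1, h2⟩, h1⟩

/-- the weight minus a circuit is eulerian on its support -/
theorem isEul_sub {X : Finset E} {w : E → ℕ} (hw : G.IsEul X w) {D : Finset E}
    (hD : G.IsCircuit D) (hX : D ⊆ X) :
    G.IsEul (X.filter (fun e => 0 < w e - chi D e)) (fun e => w e - chi D e) := by
  rw [G.isEul_iff] at hw ⊢
  refine ⟨?_, fun a => ?_⟩
  · intro e he
    rw [Finset.mem_filter] at he
    have := hw.1 e he.1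
    omega
  · have h1 := hw.2 a
    have h2 := hD.isEven G a
    have h3 : ∑ e ∈ (X.filter (fun e => 0 < w e - chi D e)).filter (fun e => a ∈ G.ends e),
        (w e - chi D e) = ∑ e ∈ X.filter (fun e => a ∈ G.ends e), (w e - chi D e) := by
      refine Finset.sum_subset ?_ ?_
      · intro e he
        simp only [Finset.mem_filter] at he ⊢
        exact ⟨he.1.1, he.2⟩
      · intro e he he'
        simp only [Finset.mem_filter, not_and] at he he'
        by_contra hne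
        exact he' ⟨he.1, by omega⟩ he.2
    have h4 : ∑ e ∈ X.filter (fun e => a ∈ G.ends e), (w e - chi D e) +
        ∑ e ∈ X.filter (fun e => a ∈ G.ends e), chi D e =
        ∑ e ∈ X.filter (fun e => a ∈ G.ends e), w e := by
      rw [← Finset.sum_add_distrib]
      refine Finset.sum_congr rfl fun e he => ?_
      rw [Finset.mem_filter] at he
      have h5 := hw.1 e he.1
      have h6 : chi D e ≤ 1 := by unfold chi; split_ifs <;> omega
      omega
    rw [sum_chi X D hX a] at h4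
    rw [h3]
    rw [← h4] at h1
    exact (Nat.even_add.1 h1).2 h2

/-- the sum of two circuits is an eulerian weight on their union -/
theorem isEul_pair {D1 D2 : Finset E} (h1 : G.IsCircuit D1) (h2 : G.IsCircuit D2) :
    G.IsEul (D1 ∪ D2) (fun e => chi D1 e + chi D2 e) := by
  rw [G.isEul_iff]
  refine ⟨?_, fun a => ?_⟩
  · intro e he
    unfold chi
    rcases Finset.mem_union.1 he with h | h
    · rw [if_pos h]; split_ifs <;> omega
    · rw [if_pos h]; split_ifs <;> omega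
  · rw [Finset.sum_add_distrib, sum_chi _ _ Finset.subset_union_left,
      sum_chi _ _ Finset.subset_union_right]
    exact (h1.isEven G a).add (h2.isEven G a)

end eul

end MGraph

end Pool.GOD
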