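import Pool.Agent.GOD.Dict2

/-!
The graph to torus dictionary, third part (MP_7b7176_co).

`G` is a cubic graph covered by two circuits `H1`, `H2` (then both are Hamilton circuits and
`M = H1 ∩ H2` is a perfect matching).  If `H1` and `H2` are the only removable circuits of
`χ_H1 + χ_H2`, then every pair of edges of `M` of the same colour (direction) one of whose two
rectangles is empty has a cut point of the other colour in its other rectangle.
-/

set_option autoImplicit false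

namespace Pool.GOD

/-- every monochromatic pair with an empty rectangle has a cut point of the other colour in its
other rectangle -/
structure HWcut {V : Type*} (p q : V → ℕ) (red : V → Bool) (W : Finset V) : Prop where
  rr : ∀ x ∈ W, ∀ y ∈ W, x ≠ y → red x = true → red y = true → (∀ t ∈ W, ¬ InA p q x y t) →
    ∃ v ∈ W, red v = false ∧ InA p q y x v ∧
      ∀ t ∈ W, InA p q y x t → t = v ∨ InA p q y v t ∨ InA p q v x t
  bb : ∀ x ∈ W, ∀ y ∈ W, x ≠ y → red x = false → red y = false → (∀ t ∈ W, ¬ InD p q x y t) →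
    ∃ v ∈ W, red v = true ∧ InD p q y x v ∧
      ∀ t ∈ W, InD p q y x t → t = v ∨ InD p q y v t ∨ InD p q v x t

namespace MGraph

variable {V E : Type*}

/-- `H1` and `H2` are circuits covering the cubic graph `G` -/
structure HamPair [Fintype V] [DecidableEq V] [Fintype E] [DecidableEq E] (G : MGraph V E)
    (H1 H2 : Finset E) : Prop where
  cubic : G.Cubic
  c1 : G.IsCircuit H1
  c2 : G.IsCircuit H2
  cov : ∀ e, e ∈ H1 ∨ e ∈ H2

section ham

variable [Fintype V] [DecidableEq V] [Fintype E] [DecidableEq E] {G : MGraph V E}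
  {H1 H2 : Finset E}

theorem HamPair.union (h : G.HamPair H1 H2) : H1 ∪ H2 = Finset.univ := by
  ext e
  simp only [Finset.mem_union, Finset.mem_univ, iff_true]
  exact h.cov e

theorem HamPair.deg_le (h : G.HamPair H1 H2) (T : Finset E) (a : V) : G.deg T a ≤ 3 := by
  rw [← h.cubic a]
  exact G.deg_mono (Finset.subset_univ T) a

theorem HamPair.deg1 (h : G.HamPair H1 H2) (a : V) : G.deg H1 a = 2 ∧ G.deg H2 a = 2 := by
  have h1 : G.deg Finset.univ a ≤ G.deg H1 a + G.deg H2 a := by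
    rw [← h.union]
    unfold deg
    rw [Finset.filter_union]
    exact Finset.card_union_le _ _
  rw [h.cubic a] at h1
  have h2 := h.c1.2.1 a
  have h3 := h.c2.2.1 a
  omega

/-- different common edges are not adjacent -/
theorem HamPair.not_adj (h : G.HamPair H1 H2) {x s : E} (hx1 : x ∈ H1) (hx2 : x ∈ H2)
    (hs1 : s ∈ H1) (hs2 : s ∈ H2) {a : V} (ax : a ∈ G.ends x) (as : a ∈ G.ends s) : x = s := by
  by_contra hne
  have h1 : Finset.univ.filter (fun e => a ∈ G.ends e) ⊆ {x, s} := by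
    intro z hz
    rw [Finset.mem_filter] at hz
    rw [Finset.mem_insert, Finset.mem_singleton]
    rcases h.cov z with hz1 | hz1
    · exact eq_or_eq_of_deg_two (h.deg1 a).1 hx1 hs1 hz1 ax as hz.2 hne
    · exact eq_or_eq_of_deg_two (h.deg1 a).2 hx2 hs2 hz1 ax as hz.2 hne
  have h2 := Finset.card_le_card h1
  have h3 : (Finset.univ.filter (fun e => a ∈ G.ends e)).card = 3 := h.cubic a
  have h4 := Finset.card_le_two (a := x) (b := s)
  omega

theorem HamPair.symm (h : G.HamPair H1 H2) : G.HamPair H2 H1 where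
  cubic := h.cubic
  c1 := h.c2
  c2 := h.c1
  cov e := (h.cov e).symm

variable {n1 n2 : ℕ} {v1 v2 : ℕ → V} {e1 e2 : ℕ → E} {x y : E} {T : Finset E}

/-- the trail of a pair is different from both Hamilton circuits (same direction) -/
theorem HamPair.ne_same (h : G.HamPair H1 H2) (h1 : Enum G H1 n1 v1 e1)
    (h2 : Enum G H2 n2 v2 e2) (hx1 : x ∈ H1) (hx2 : x ∈ H2) (hy1 : y ∈ H1) (hy2 : y ∈ H2)
    (hxy : x ≠ y) (dx : SameDir v1 e1 v2 e2 x) (dy : SameDir v1 e1 v2 e2 y)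
    (hT : ∀ f, f ∈ T ↔ SuppA H1 H2 (idx e1) (idx e2) x y f) : T ≠ H1 ∧ T ≠ H2 := by
  obtain ⟨k1, k2, V1, V2, E1, E2, w1, w2, i1, i2, pk1, lk1, pk2, lk2, x1, x2, y1, y2, hv0, hvk,
    m1, m1', m2, m2'⟩ := walk_same h1 h2 hx1 hx2 hy1 hy2 hxy dx dy
  constructor
  · intro hTH
    -- the edge after `y` on `H2`
    have hs : E2 (k2 + 1) ∈ H2 ∧ E2 (k2 + 1) ∈ T ∧ E2 (k2 + 1) ≠ y := by
      rcases Nat.lt_or_ge (k2 + 1) n2 with c | c
      · obtain ⟨g1, g2⟩ := m2 (k2 + 1) (by omega) c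
        refine ⟨g1, (hT _).2 (Or.inr (Or.inr (Or.inr ⟨g1, g2⟩))), ?_⟩
        intro h'
        rw [← y2] at h'
        have := i2 _ _ c lk2 h'
        omega
      · have h3 : k2 + 1 = 0 + n2 := by omega
        have h4 : E2 (k2 + 1) = x := by rw [h3, w2.pe, x2]
        rw [h4]
        exact ⟨hx2, (hT _).2 (Or.inl rfl), hxy⟩
    obtain ⟨s2, sT, sy⟩ := hs
    rw [hTH] at sT
    refine sy (h.not_adj hy1 hy2 sT s2 (a := V2 (k2 + 1)) ?_ ?_).symm
    · rw [← y2, w2.ends]; exact Sym2.mem_mk_right _ _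
    · rw [w2.ends]; exact Sym2.mem_mk_left _ _
  · intro hTH
    have hs : E1 1 ∈ H1 ∧ E1 1 ∈ T ∧ E1 1 ≠ x := by
      have hne : E1 1 ≠ x := by
        intro h'
        rw [← x1] at h'
        have := i1 _ _ (by omega) (by omega) h'
        omega
      rcases Nat.lt_or_ge 1 k1 with c | c
      · obtain ⟨g1, g2⟩ := m1 1 (by omega) c
        exact ⟨g1, (hT _).2 (Or.inr (Or.inr (Or.inl ⟨g1, g2⟩))), hne⟩
      · have h3 : 1 = k1 := by omega
        have h4 : E1 1 = y := by rw [h3, y1]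
        rw [h4] at hne ⊢
        exact ⟨hy1, (hT _).2 (Or.inr (Or.inl rfl)), hne⟩
    obtain ⟨s2, sT, sx⟩ := hs
    rw [hTH] at sT
    refine sx (h.not_adj hx1 hx2 s2 sT (a := V1 1) ?_ ?_).symm
    · rw [← x1, w1.ends]; exact Sym2.mem_mk_right _ _
    · rw [w1.ends]; exact Sym2.mem_mk_left _ _

/-- **red pairs** -/
theorem HamPair.cut_same (h : G.HamPair H1 H2)
    (hrem : ∀ D, G.IsRemovable Finset.univ (fun e => chi H1 e + chi H2 e) D → D = H1 ∨ D = H2)
    (h1 : Enum G H1 n1 v1 e1)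
    (h2 : Enum G H2 n2 v2 e2) (hx1 : x ∈ H1) (hx2 : x ∈ H2) (hy1 : y ∈ H1) (hy2 : y ∈ H2)
    (hxy : x ≠ y) (dx : SameDir v1 e1 v2 e2 x) (dy : SameDir v1 e1 v2 e2 y)
    (hemp : ∀ t, t ∈ H1 → t ∈ H2 → ¬ InA (idx e1) (idx e2) x y t) :
    ∃ u, u ∈ H1 ∧ u ∈ H2 ∧ InA (idx e1) (idx e2) y x u ∧ ¬ SameDir v1 e1 v2 e2 u ∧
      ∀ t, t ∈ H1 → t ∈ H2 → InA (idx e1) (idx e2) y x t →
        t = u ∨ InA (idx e1) (idx e2) y u t ∨ InA (idx e1) (idx e2) u x t := by
  classical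
  set T : Finset E := Finset.univ.filter (fun f => SuppA H1 H2 (idx e1) (idx e2) x y f) with hTd
  have hT : ∀ f, f ∈ T ↔ SuppA H1 H2 (idx e1) (idx e2) x y f := by
    intro f; rw [hTd, Finset.mem_filter]; simp
  have hc := circuit_same h1 h2 hx1 hx2 hy1 hy2 hxy dx dy (h.deg_le T) hT hemp
  have hne := h.ne_same h1 h2 hx1 hx2 hy1 hy2 hxy dx dy hT
  have hw : G.IsEul Finset.univ (fun e => chi H1 e + chi H2 e) := by
    rw [← h.union]; exact isEul_pair h.c1 h.c2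
  have hnr : ¬ G.Bridgeless (Finset.univ.filter
      (fun e => 0 < chi H1 e + chi H2 e - chi T e)) := by
    intro hb
    rcases hrem T ⟨hc, Finset.subset_univ T, isEul_sub hw hc (Finset.subset_univ T), hb⟩ with
      h' | h'
    · exact hne.1 h'
    · exact hne.2 h'
  unfold Bridgeless at hnr
  push Not at hnr
  obtain ⟨u, hu⟩ := hnr
  obtain ⟨g1, g2, g3, g4, g5⟩ := bridge_same h1 h2 hy1 hy2 hx1 hx2 (Ne.symm hxy) dy dx
    (fun f => by
      rw [Finset.mem_filter]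
      simp only [Finset.mem_univ, true_and]
      exact supp_compl_same h1 h2 hx1 hx2 hy1 hy2 hxy hT hemp f) hu
  exact ⟨u, g1, g2, g3, g4, g5⟩

/-- **blue pairs** -/
theorem HamPair.cut_opp (h : G.HamPair H1 H2)
    (hrem : ∀ D, G.IsRemovable Finset.univ (fun e => chi H1 e + chi H2 e) D → D = H1 ∨ D = H2)
    (h1 : Enum G H1 n1 v1 e1)
    (h2 : Enum G H2 n2 v2 e2) (hx1 : x ∈ H1) (hx2 : x ∈ H2) (hy1 : y ∈ H1) (hy2 : y ∈ H2)
    (hxy : x ≠ y) (dx : ¬ SameDir v1 e1 v2 e2 x) (dy : ¬ SameDir v1 e1 v2 e2 y)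
    (hemp : ∀ t, t ∈ H1 → t ∈ H2 → ¬ InD (idx e1) (idx e2) x y t) :
    ∃ u, u ∈ H1 ∧ u ∈ H2 ∧ InD (idx e1) (idx e2) y x u ∧ SameDir v1 e1 v2 e2 u ∧
      ∀ t, t ∈ H1 → t ∈ H2 → InD (idx e1) (idx e2) y x t →
        t = u ∨ InD (idx e1) (idx e2) y u t ∨ InD (idx e1) (idx e2) u x t := by
  obtain ⟨-, hd⟩ := rev_facts h1 h2
  obtain ⟨u, g1, g2, g3, g4, g5⟩ := h.cut_same hrem h1 h2.rev hx1 hx2 hy1 hy2 hxy
    ((hd x hx1 hx2).2 dx) ((hd y hy1 hy2).2 dy)
    (fun t ht1 ht2 h' => hemp t ht1 ht2 ((inD_iff h1 h2 hx2 hy2 ht2).2 h'))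
  refine ⟨u, g1, g2, (inD_iff h1 h2 hy2 hx2 g2).2 g3, ?_, ?_⟩
  · by_contra h'
    exact g4 ((hd u g1 g2).2 h')
  · intro t t1 t2 ht
    rcases g5 t t1 t2 ((inD_iff h1 h2 hy2 hx2 t2).1 ht) with h' | h' | h'
    · exact Or.inl h'
    · exact Or.inr (Or.inl ((inD_iff h1 h2 hy2 g2 t2).2 h'))
    · exact Or.inr (Or.inr ((inD_iff h1 h2 g2 hx2 t2).2 h'))

open Classical in
/-- the colour of a common edge -/
noncomputable def colour (v1 : ℕ → V) (e1 : ℕ → E) (v2 : ℕ → V) (e2 : ℕ → E) {M : Finset E}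
    (s : M) : Bool := decide (SameDir v1 e1 v2 e2 s.1)

omit [Fintype V] [DecidableEq V] [Fintype E] [DecidableEq E] in
theorem colour_true {M : Finset E} (s : M) :
    colour v1 e1 v2 e2 s = true ↔ SameDir v1 e1 v2 e2 s.1 := by
  classical
  simp [colour]

omit [Fintype V] [DecidableEq V] [Fintype E] [DecidableEq E] in
theorem colour_false {M : Finset E} (s : M) :
    colour v1 e1 v2 e2 s = false ↔ ¬ SameDir v1 e1 v2 e2 s.1 := by
  rw [← colour_true, Bool.not_eq_true]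

/-- the torus system of a pair of Hamilton circuits without further removable circuits -/
theorem HamPair.hwcut (h : G.HamPair H1 H2)
    (hrem : ∀ D, G.IsRemovable Finset.univ (fun e => chi H1 e + chi H2 e) D → D = H1 ∨ D = H2)
    (h1 : Enum G H1 n1 v1 e1) (h2 : Enum G H2 n2 v2 e2) :
    Function.Injective (fun s : ↥(H1 ∩ H2) => idx e1 s.1) ∧
    Function.Injective (fun s : ↥(H1 ∩ H2) => idx e2 s.1) ∧
    HWcut (fun s : ↥(H1 ∩ H2) => idx e1 s.1) (fun s : ↥(H1 ∩ H2) => idx e2 s.1)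
      (colour v1 e1 v2 e2) Finset.univ := by
  have hm1 : ∀ s : ↥(H1 ∩ H2), s.1 ∈ H1 := fun s => (Finset.mem_inter.1 s.2).1
  have hm2 : ∀ s : ↥(H1 ∩ H2), s.1 ∈ H2 := fun s => (Finset.mem_inter.1 s.2).2
  refine ⟨?_, ?_, ?_, ?_⟩
  · intro s t hst
    exact Subtype.ext (h1.idx_inj (hm1 s) (hm1 t) hst)
  · intro s t hst
    exact Subtype.ext (h2.idx_inj (hm2 s) (hm2 t) hst)
  · intro x _ y _ hxy hx hy hemp
    rw [colour_true] at hx hy
    obtain ⟨u, g1, g2, g3, g4, g5⟩ := h.cut_same hrem h1 h2 (hm1 x) (hm2 x) (hm1 y) (hm2 y)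
      (fun h' => hxy (Subtype.ext h')) hx hy
      (fun t t1 t2 ht => hemp ⟨t, Finset.mem_inter.2 ⟨t1, t2⟩⟩ (Finset.mem_univ _) ht)
    refine ⟨⟨u, Finset.mem_inter.2 ⟨g1, g2⟩⟩, Finset.mem_univ _, ?_, g3, ?_⟩
    · exact (colour_false _).2 g4
    · intro t _ ht
      rcases g5 t.1 (hm1 t) (hm2 t) ht with h' | h' | h'
      · exact Or.inl (Subtype.ext h')
      · exact Or.inr (Or.inl h')
      · exact Or.inr (Or.inr h')
  · intro x _ y _ hxy hx hy hemp
    rw [colour_false] at hx hy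
    obtain ⟨u, g1, g2, g3, g4, g5⟩ := h.cut_opp hrem h1 h2 (hm1 x) (hm2 x) (hm1 y) (hm2 y)
      (fun h' => hxy (Subtype.ext h')) hx hy
      (fun t t1 t2 ht => hemp ⟨t, Finset.mem_inter.2 ⟨t1, t2⟩⟩ (Finset.mem_univ _) ht)
    refine ⟨⟨u, Finset.mem_inter.2 ⟨g1, g2⟩⟩, Finset.mem_univ _, ?_, g3, ?_⟩
    · exact (colour_true _).2 g4
    · intro t _ ht
      rcases g5 t.1 (hm1 t) (hm2 t) ht with h' | h' | h'
      · exact Or.inl (Subtype.ext h')
      · exact Or.inr (Or.inl h')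
      · exact Or.inr (Or.inr h')

end ham

end MGraph

end Pool.GOD
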