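import Mathlib
import Pool.Agent.GOD.Torus

/-!
GOD, part I.3: consequences of the tree structure in the torus instance (helper88).
Part A: cyclic orders, edge splits and intervals.
-/

namespace Pool.GOD.Lf

variable {V : Type*}

/-- `y` is the successor of `x` on the circuit `p` restricted to `W` -/
def Next (p : V → ℕ) (W : Finset V) (x y : V) : Prop :=
  x ≠ y ∧ ∀ t ∈ W, t ≠ x → t ≠ y → Cyc p x y t

/-- the rooted graph of two cyclic orders: equal (blue root) resp. different (red root)
orientation -/
theorem rt_gT' [DecidableEq V] {p q : V → ℕ} (hp : Function.Injective p)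
    (hq : Function.Injective q) (red : V → Bool) {u x y : V} (hux : u ≠ x) (huy : u ≠ y)
    (hxy : x ≠ y) :
    (rt (gT p q red) u x y = true) ↔
      (red u = false ↔ (Cyc p u x y ↔ Cyc q u x y)) := by
  have h1 : p u ≠ p x := fun e => hux (hp e)
  have h2 : p u ≠ p y := fun e => huy (hp e)
  have h3 : p x ≠ p y := fun e => hxy (hp e)
  have h4 : q u ≠ q x := fun e => hux (hq e)
  have h5 : q u ≠ q y := fun e => huy (hq e)
  have h6 : q x ≠ q y := fun e => hxy (hq e)
  have hxu : ¬ x = u := fun e => hux e.symm
  unfold rt bil gT Cyc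
  rw [if_pos rfl, if_neg huy, if_neg hxu, if_neg hxy]
  rcases lt_or_gt_of_ne h1 with a | a <;> rcases lt_or_gt_of_ne h2 with b | b <;>
    rcases lt_or_gt_of_ne h3 with c | c <;> rcases lt_or_gt_of_ne h4 with d | d <;>
    rcases lt_or_gt_of_ne h5 with e | e <;> rcases lt_or_gt_of_ne h6 with f | f <;>
    (have a' := not_lt_of_gt a; have b' := not_lt_of_gt b; have c' := not_lt_of_gt c
     have d' := not_lt_of_gt d; have e' := not_lt_of_gt e; have f' := not_lt_of_gt f
     first
     | omega
     | (cases red u <;> simp [a, b, c, d, e, f, a', b', c', d', e', f']))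

end Pool.GOD.Lf
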