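import Mathlib
import Pool.Agent.GOD.LeafA

/-!
GOD, part I.3 (helper88), part B: edge splits and twin-free trees (abstract layer).
-/

namespace Pool.GOD.Lf

variable {V : Type*}

theorem bil_swap_left (g : V → V → Bool) (x y z t : V) : bil g x y z t = bil g y x z t := by
  unfold bil
  cases g x z <;> cases g x t <;> cases g y z <;> cases g y t <;> rfl

theorem bil_swap_right (g : V → V → Bool) (x y z t : V) : bil g x y z t = bil g x y t z := by
  unfold bil
  cases g x z <;> cases g x t <;> cases g y z <;> cases g y t <;> rfl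

theorem bil_add_left (g : V → V → Bool) (x w y z t : V) :
    bil g x y z t = xor (bil g x w z t) (bil g w y z t) := by
  unfold bil
  cases g x z <;> cases g x t <;> cases g y z <;> cases g y t <;> cases g w z <;>
    cases g w t <;> rfl

theorem bil_add_right (g : V → V → Bool) (x y z w t : V) :
    bil g x y z t = xor (bil g x y z w) (bil g x y w t) := by
  unfold bil
  cases g x z <;> cases g x t <;> cases g y z <;> cases g y t <;> cases g x w <;>
    cases g y w <;> rfl

theorem bil_comm {g : V → V → Bool} (hs : ∀ x y, g x y = g y x) (x y z t : V) :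
    bil g x y z t = bil g z t x y := by
  unfold bil
  rw [hs x z, hs x t, hs y z, hs y t]
  cases g z x <;> cases g t x <;> cases g z y <;> cases g t y <;> rfl

theorem bil_self_left (g : V → V → Bool) (x z t : V) : bil g x x z t = false := by
  unfold bil
  cases g x z <;> cases g x t <;> rfl

theorem bil_self_right (g : V → V → Bool) (x y z : V) : bil g x y z z = false := by
  unfold bil
  cases g x z <;> cases g y z <;> rfl

/-- `K` and `K'` are the two sides of the edge `z u` (`z` in `K`, `u` in `K'`) -/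
structure ESplit (g : V → V → Bool) (K K' : Finset V) (z u : V) : Prop where
  hz : z ∈ K
  hu : u ∈ K'
  hd : Disjoint K K'
  hzu : g z z ≠ g u u
  h1 : ∀ t ∈ K, ∀ s ∈ K', bil g z t z s = false
  h2 : ∀ s ∈ K', bil g u s z u = false

namespace ESplit

variable {g : V → V → Bool} {K K' : Finset V} {z u : V}

theorem cross (h : ESplit g K K' z u) {x y s : V} (hx : x ∈ K) (hy : y ∈ K) (hs : s ∈ K') :
    bil g x y z s = false := by
  rw [bil_add_left g x z y, bil_swap_left, h.h1 x hx s hs, h.h1 y hy s hs]; rfl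

/-- pairs of the first side are orthogonal to all pairs through the edge -/
theorem orth (h : ESplit g K K' z u) {x y s t : V} (hx : x ∈ K) (hy : y ∈ K) (hs : s ∈ K')
    (ht : t ∈ K') : bil g x y s t = false := by
  rw [bil_add_right g x y s z t, bil_swap_right, h.cross hx hy hs, h.cross hx hy ht]; rfl

theorem symm (hs : ∀ x y, g x y = g y x) (h : ESplit g K K' z u) : ESplit g K' K u z := by
  refine ⟨h.hu, h.hz, h.hd.symm, fun e => h.hzu e.symm, ?_, ?_⟩
  · intro s hs' t ht
    -- B(u+s,u+t) = B(u+s,u+z) + B(u+s,z+t)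
    rw [bil_add_right g u s u z t, bil_swap_right g u s u z, h.h2 s hs',
      bil_comm hs u s z t, h.orth h.hz ht h.hu hs']
    rfl
  · intro t ht
    -- B(z+t,u+z)
    rw [bil_swap_right, h.h1 t ht u h.hu]

theorem mono_left (h : ESplit g K K' z u) {L : Finset V} (hL : L ⊆ K) (hz : z ∈ L) :
    ESplit g L K' z u :=
  ⟨hz, h.hu, Finset.disjoint_of_subset_left hL h.hd, h.hzu,
    fun t ht s hs => h.h1 t (hL ht) s hs, h.h2⟩

variable [DecidableEq V]

/-- (E2) enlarge the far side of a split of `K = K1 ∪ K2` -/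
theorem extend {K1 K2 : Finset V} {z1 z2 : V} (h : ESplit g K K' z u) (h' : ESplit g K1 K2 z1 z2)
    (hK : K1 ∪ K2 = K) (hz : z ∈ K2) (hs : ∀ x y, g x y = g y x) :
    ESplit g K1 (K2 ∪ K') z1 z2 := by
  have s1 : K1 ⊆ K := hK ▸ Finset.subset_union_left
  have s2 : K2 ⊆ K := hK ▸ Finset.subset_union_right
  refine ⟨h'.hz, Finset.mem_union_left _ h'.hu, ?_, h'.hzu, ?_, ?_⟩
  · rw [Finset.disjoint_union_right]
    exact ⟨h'.hd, Finset.disjoint_of_subset_left s1 h.hd⟩
  · intro t ht s hs'
    rcases Finset.mem_union.1 hs' with hs' | hs'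
    · exact h'.h1 t ht s hs'
    · rw [bil_add_right g z1 t z1 z s, h'.h1 t ht z hz,
        h.cross (s1 h'.hz) (s1 ht) hs']
      rfl
  · intro s hs'
    rcases Finset.mem_union.1 hs' with hs' | hs'
    · exact h'.h2 s hs'
    · -- B(z2+s, z1+z2) = B(z2+z, z1+z2) + B(z+s, z1+z2)
      rw [bil_add_left g z2 z s z1 z2, h'.h2 z hz, bil_comm hs z s z1 z2,
        h.cross (s1 h'.hz) (s2 h'.hu) hs']
      rfl

end ESplit

variable [DecidableEq V]

/-- twin-free trees -/
inductive TreeE (g : V → V → Bool) : Finset V → Prop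
  | single (z : V) : TreeE g {z}
  | edge (K K' : Finset V) (z u : V) (h : ESplit g K K' z u) (hK : TreeE g K)
      (hK' : TreeE g K') : TreeE g (K ∪ K')

/-- the branch at `z` containing `x` -/
theorem TreeE.branch {g : V → V → Bool} (hs : ∀ x y, g x y = g y x) {W : Finset V}
    (h : TreeE g W) : ∀ z ∈ W, ∀ x ∈ W, x ≠ z →
      ∃ K K' z1, ESplit g K K' z1 z ∧ TreeE g K ∧ TreeE g K' ∧ K ∪ K' = W ∧ x ∈ K := by
  induction h with
  | single z0 =>
    intro z hz x hx hne
    rw [Finset.mem_singleton] at hz hx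
    exact absurd (hx.trans hz.symm) hne
  | edge L L' z0 u0 hE hL hL' ihL ihL' =>
    -- the statement is symmetric in the two sides
    have main : ∀ (L L' : Finset V) (z0 u0 : V), ESplit g L L' z0 u0 → TreeE g L →
        TreeE g L' →
        (∀ z ∈ L, ∀ x ∈ L, x ≠ z →
          ∃ K K' z1, ESplit g K K' z1 z ∧ TreeE g K ∧ TreeE g K' ∧ K ∪ K' = L ∧ x ∈ K) →
        ∀ z ∈ L, ∀ x ∈ L ∪ L', x ≠ z →
          ∃ K K' z1, ESplit g K K' z1 z ∧ TreeE g K ∧ TreeE g K' ∧ K ∪ K' = L ∪ L' ∧
            x ∈ K := by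
      intro L L' z0 u0 hE hL hL' ih z hz x hx hne
      -- extension of a split of `L` to `L ∪ L'`
      have ext : ∀ K1 K2 z1, ESplit g K1 K2 z1 z → TreeE g K1 → TreeE g K2 → K1 ∪ K2 = L →
          (z0 ∈ K1 → ∃ K K' z1, ESplit g K K' z1 z ∧ TreeE g K ∧ TreeE g K' ∧
            K ∪ K' = L ∪ L' ∧ K1 ∪ L' ⊆ K) ∧
          (z0 ∈ K2 → ∃ K K' z1, ESplit g K K' z1 z ∧ TreeE g K ∧ TreeE g K' ∧
            K ∪ K' = L ∪ L' ∧ K1 ⊆ K) := by
        intro K1 K2 z1 h1 t1 t2 hU
        have s1 : K1 ⊆ L := hU ▸ Finset.subset_union_left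
        have s2 : K2 ⊆ L := hU ▸ Finset.subset_union_right
        constructor
        · intro hz0
          refine ⟨K1 ∪ L', K2, z1, ?_, ?_, t2, ?_, Finset.Subset.refl _⟩
          · have h2 := hE.extend (h1.symm hs) (by rw [Finset.union_comm]; exact hU) hz0 hs
            exact h2.symm hs
          · exact TreeE.edge K1 L' z0 u0 (hE.mono_left s1 hz0) t1 hL'
          · rw [← hU, Finset.union_assoc, Finset.union_comm L' K2, ← Finset.union_assoc]
        · intro hz0
          refine ⟨K1, K2 ∪ L', z1, ?_, t1, ?_, ?_, Finset.Subset.refl _⟩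
          · exact hE.extend h1 hU hz0 hs
          · exact TreeE.edge K2 L' z0 u0 (hE.mono_left s2 hz0) t2 hL'
          · rw [← hU, Finset.union_assoc]
      rcases Finset.mem_union.1 hx with hx | hx
      · obtain ⟨K1, K2, z1, e1, t1, t2, hU, hx1⟩ := ih z hz x hx hne
        have hz0 : z0 ∈ K1 ∪ K2 := hU ▸ hE.hz
        rcases Finset.mem_union.1 hz0 with hz0 | hz0
        · obtain ⟨K, K', z1', a, b, c, d, e⟩ := (ext K1 K2 z1 e1 t1 t2 hU).1 hz0
          exact ⟨K, K', z1', a, b, c, d, e (Finset.mem_union_left _ hx1)⟩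
        · obtain ⟨K, K', z1', a, b, c, d, e⟩ := (ext K1 K2 z1 e1 t1 t2 hU).2 hz0
          exact ⟨K, K', z1', a, b, c, d, e hx1⟩
      · by_cases hzz : z0 = z
        · subst hzz
          exact ⟨L', L, u0, hE.symm hs, hL', hL, Finset.union_comm _ _, hx⟩
        · obtain ⟨K1, K2, z1, e1, t1, t2, hU, hx1⟩ := ih z hz z0 hE.hz hzz
          obtain ⟨K, K', z1', a, b, c, d, e⟩ := (ext K1 K2 z1 e1 t1 t2 hU).1 hx1
          exact ⟨K, K', z1', a, b, c, d, e (Finset.mem_union_right _ hx)⟩
    intro z hz x hx hne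
    rcases Finset.mem_union.1 hz with hz | hz
    · exact main L L' z0 u0 hE hL hL' ihL z hz x hx hne
    · have hx' : x ∈ L' ∪ L := by rw [Finset.union_comm]; exact hx
      obtain ⟨K, K', z1, a, b, c, d, e⟩ := main L' L u0 z0 (hE.symm hs) hL' hL ihL' z hz x hx' hne
      exact ⟨K, K', z1, a, b, c, by rw [d, Finset.union_comm], e⟩

end Pool.GOD.Lf
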