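import Mathlib
import Pool.Agent.GOD.LeafB

/-!
GOD, part I.3 (helper88), part C: a twin-free tree of two cyclic orders has, if it has at least
three points, two triangles with different leaves.  (A triangle with leaf `w` at `v`: a bichromatic
pair which is consecutive on both circuits, in the same direction if `v` is red and in opposite
directions if `v` is blue.)
-/

namespace Pool.GOD.Lf

variable {V : Type*}

theorem cyc_rot {p : V → ℕ} {x y z : V} (h : Cyc p x y z) : Cyc p y z x := by
  unfold Cyc at *; omega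

theorem cyc_asymm {p : V → ℕ} {x y z : V} (h : Cyc p x y z) : ¬ Cyc p x z y := by
  unfold Cyc at *; omega

theorem cyc_total {p : V → ℕ} (hp : Function.Injective p) {x y z : V} (hxy : x ≠ y)
    (hxz : x ≠ z) (hyz : y ≠ z) : Cyc p x y z ∨ Cyc p x z y := by
  have h1 : p x ≠ p y := fun e => hxy (hp e)
  have h2 : p x ≠ p z := fun e => hxz (hp e)
  have h3 : p y ≠ p z := fun e => hyz (hp e)
  unfold Cyc; omega

theorem cyc_trans {p : V → ℕ} {z a b c : V} (h1 : Cyc p z a b) (h2 : Cyc p z b c) :
    Cyc p z a c := by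
  unfold Cyc at *; omega

theorem cyc_mid {p : V → ℕ} {z a b c : V} (h1 : Cyc p z a b) (h2 : Cyc p z b c) :
    Cyc p a b c := by
  unfold Cyc at *; omega

theorem cyc_not {p : V → ℕ} (hp : Function.Injective p) {x y z : V} (hxy : x ≠ y)
    (hxz : x ≠ z) (hyz : y ≠ z) : ¬ Cyc p x y z ↔ Cyc p x z y := by
  constructor
  · intro h; exact (cyc_total hp hxy hxz hyz).resolve_left h
  · intro h; exact cyc_asymm (by exact h)

/-- the second linear order at the root `z`: cut at `z`, reversed if `z` is red -/
def Ord2 (q : V → ℕ) (red : V → Bool) (z a b : V) : Prop :=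
  if red z = true then Cyc q z b a else Cyc q z a b

theorem ord2_trans {q : V → ℕ} {red : V → Bool} {z a b c : V} (h1 : Ord2 q red z a b)
    (h2 : Ord2 q red z b c) : Ord2 q red z a c := by
  unfold Ord2 at *
  by_cases h : red z = true
  · rw [if_pos h] at *; exact cyc_trans h2 h1
  · rw [if_neg h] at *; exact cyc_trans h1 h2

theorem ord2_total {q : V → ℕ} (hq : Function.Injective q) (red : V → Bool) {z a b : V}
    (hza : z ≠ a) (hzb : z ≠ b) (hab : a ≠ b) : Ord2 q red z a b ∨ Ord2 q red z b a := by
  unfold Ord2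
  by_cases h : red z = true
  · rw [if_pos h, if_pos h]; exact cyc_total hq hzb hza hab.symm
  · rw [if_neg h, if_neg h]; exact cyc_total hq hza hzb hab

theorem ord2_asymm {q : V → ℕ} {red : V → Bool} {z a b : V} (h : Ord2 q red z a b) :
    ¬ Ord2 q red z b a := by
  unfold Ord2 at *
  by_cases h' : red z = true
  · rw [if_pos h'] at *; exact cyc_asymm h
  · rw [if_neg h'] at *; exact cyc_asymm h

variable [DecidableEq V]

theorem rt_iff {p q : V → ℕ} (hp : Function.Injective p) (hq : Function.Injective q)
    (red : V → Bool) {z a b : V} (hza : z ≠ a) (hzb : z ≠ b) (hab : a ≠ b) :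
    rt (gT p q red) z a b = true ↔ (Cyc p z a b ↔ Ord2 q red z a b) := by
  rw [rt_gT' hp hq red hza hzb hab]
  unfold Ord2
  by_cases h : red z = true
  · rw [if_pos h, ← cyc_not hq hza hzb hab]
    have h0 : ¬ (red z = false) := by rw [h]; decide
    constructor
    · intro H
      have H' : ¬ (Cyc p z a b ↔ Cyc q z a b) := fun e => h0 (H.2 e)
      by_cases c1 : Cyc p z a b
      · by_cases c2 : Cyc q z a b
        · exact absurd (iff_of_true c1 c2) H'
        · exact iff_of_true c1 c2
      · by_cases c2 : Cyc q z a b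
        · exact iff_of_false c1 (fun e => e c2)
        · exact absurd (iff_of_false c1 c2) H'
    · intro H
      constructor
      · intro e; exact absurd e h0
      · intro e
        exfalso
        by_cases c2 : Cyc q z a b
        · exact (H.1 (e.2 c2)) c2
        · exact c2 (e.1 (H.2 c2))
  · have h0 : red z = false := by cases hr : red z with
      | false => rfl
      | true => exact absurd hr h
    rw [if_neg h]
    constructor
    · intro H; exact H.1 h0
    · intro H; exact ⟨fun _ => H, fun _ => h0⟩

omit [DecidableEq V] in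
/-- two linear orders `A, B`; `w, v` on one side, `t` on the other side, `u` a universal point of
the side of `w, v`: `t` is not between `w` and `v` -/
theorem not_between {A B : V → V → Prop}
    (tA : ∀ a b c, A a b → A b c → A a c) (tB : ∀ a b c, B a b → B b c → B a c)
    (aA : ∀ a b, A a b → ¬ A b a) (aB : ∀ a b, B a b → ¬ B b a)
    {w v t u : V} (cB1 : B w t ∨ B t w) (cB2 : B t v ∨ B v t)
    (cA4 : A u t ∨ A t u) (cB4 : B u t ∨ B t u)
    (h1 : ¬ (A w t ↔ B w t)) (h2 : ¬ (A t v ↔ B t v)) (h3 : ¬ (A u t ↔ B u t))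
    (h5 : u ≠ v → (A u v ↔ B u v)) (h4' : u ≠ w → (A w u ↔ B w u))
    (h6 : u = w ∨ u = v → (A w v ↔ B w v)) :
    ¬ (A w t ∧ A t v) := by
  rintro ⟨a1, a2⟩
  have b1 : B t w := by
    rcases cB1 with h | h
    · exact absurd (iff_of_true a1 h) h1
    · exact h
  have b2 : B v t := by
    rcases cB2 with h | h
    · exact absurd (iff_of_true a2 h) h2
    · exact h
  have b3 : B v w := tB _ _ _ b2 b1
  have a3 : A w v := tA _ _ _ a1 a2
  have huw : u ≠ w := fun e => aB _ _ b3 ((h6 (Or.inl e)).1 a3)
  have huv : u ≠ v := fun e => aB _ _ b3 ((h6 (Or.inr e)).1 a3)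
  rcases cA4 with a4 | a4
  · have b4 : B t u := by
      rcases cB4 with h | h
      · exact absurd (iff_of_true a4 h) h3
      · exact h
    have a5 : A u v := tA _ _ _ a4 a2
    have b5 : B u v := (h5 huv).1 a5
    exact aB _ _ (tB _ _ _ b4 b5) b2
  · have b4 : B u t := by
      rcases cB4 with h | h
      · exact h
      · exact absurd (iff_of_false (aA _ _ a4) (aB _ _ h)) h3
    have a5 : A w u := tA _ _ _ a1 a4
    have b5 : B w u := (h4' huw).1 a5
    exact aB _ _ (tB _ _ _ b5 b4) b1

omit [DecidableEq V] in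
theorem rt_comm {g : V → V → Bool} (hs : ∀ x y, g x y = g y x) (u x y : V) :
    rt g u x y = rt g u y x := by
  unfold rt; exact bil_comm hs u x u y

/-- root `z` in `K`; for `w, v` in the other side `K'` no other point of `K` lies between them in
either of the two linear orders at `z` -/
theorem ESplit.not_btw {p q : V → ℕ} (hp : Function.Injective p) (hq : Function.Injective q)
    {red : V → Bool} {K K' : Finset V} {z u : V} (h : ESplit (gT p q red) K K' z u)
    {w v t : V} (hw : w ∈ K') (hv : v ∈ K') (hwv : w ≠ v) (ht : t ∈ K) (htz : t ≠ z) :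
    ¬ (Cyc p z w t ∧ Cyc p z t v) ∧ ¬ (Ord2 q red z w t ∧ Ord2 q red z t v) := by
  have hs : ∀ x y, gT p q red x y = gT p q red y x := gT_symm hp hq
  have dis : ∀ s ∈ K', ∀ t ∈ K, s ≠ t := fun s hs' t ht' e =>
    Finset.disjoint_left.1 h.hd ht' (e ▸ hs')
  have hz0 : ∀ s ∈ K', z ≠ s := fun s hs' => (dis s hs' z h.hz).symm
  have far : ∀ s ∈ K', ¬ (Cyc p z s t ↔ Ord2 q red z s t) := by
    intro s hs' H
    have h1 : rt (gT p q red) z s t = true :=
      (rt_iff hp hq red (hz0 s hs') htz.symm (dis s hs' t ht)).2 H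
    rw [rt_comm hs] at h1
    have h2 : rt (gT p q red) z t s = false := h.h1 t ht s hs'
    rw [h2] at h1; exact Bool.noConfusion h1
  have far' : ∀ s ∈ K', ¬ (Cyc p z t s ↔ Ord2 q red z t s) := by
    intro s hs' H
    have h1 : rt (gT p q red) z t s = true :=
      (rt_iff hp hq red htz.symm (hz0 s hs') (dis s hs' t ht).symm).2 H
    have h2 : rt (gT p q red) z t s = false := h.h1 t ht s hs'
    rw [h2] at h1; exact Bool.noConfusion h1
  have near : ∀ s ∈ K', s ≠ u → rt (gT p q red) z s u = true := by
    intro s hs' _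
    show bil (gT p q red) z s z u = true
    have h2 := h.h2 s hs'
    rw [bil_add_left _ z u s z u, h2]
    have : bil (gT p q red) z u z u = true := by
      have hc := h.hzu
      unfold bil
      rw [hs u z]
      revert hc
      cases gT p q red z z <;> cases gT p q red u u <;> cases gT p q red z u <;> decide
    rw [this]; rfl
  have near1 : ∀ s ∈ K', u ≠ s → (Cyc p z s u ↔ Ord2 q red z s u) := fun s hs' hne =>
    (rt_iff hp hq red (hz0 s hs') (hz0 u h.hu) hne.symm).1 (near s hs' hne.symm)
  have near2 : ∀ s ∈ K', u ≠ s → (Cyc p z u s ↔ Ord2 q red z u s) := fun s hs' hne =>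
    (rt_iff hp hq red (hz0 u h.hu) (hz0 s hs') hne).1
      (by rw [rt_comm hs]; exact near s hs' hne.symm)
  have near3 : u = w ∨ u = v → (Cyc p z w v ↔ Ord2 q red z w v) := by
    rintro (e | e)
    · subst e; exact near2 v hv hwv
    · subst e; exact near1 w hw (fun e => hwv e.symm)
  have totA : ∀ s ∈ K', Cyc p z s t ∨ Cyc p z t s := fun s hs' =>
    cyc_total hp (hz0 s hs') htz.symm (dis s hs' t ht)
  have totB : ∀ s ∈ K', Ord2 q red z s t ∨ Ord2 q red z t s := fun s hs' =>
    ord2_total hq red (hz0 s hs') htz.symm (dis s hs' t ht)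
  constructor
  · exact not_between (A := Cyc p z) (B := Ord2 q red z) (fun _ _ _ => cyc_trans)
      (fun _ _ _ => ord2_trans) (fun _ _ => cyc_asymm) (fun _ _ => ord2_asymm)
      (totB w hw) (totB v hv).symm (totA u h.hu) (totB u h.hu) (far w hw) (far' v hv)
      (far u h.hu) (near2 v hv) (near1 w hw) near3
  · exact not_between (A := Ord2 q red z) (B := Cyc p z) (fun _ _ _ => ord2_trans)
      (fun _ _ _ => cyc_trans) (fun _ _ => ord2_asymm) (fun _ _ => cyc_asymm)
      (totA w hw) (totA v hv).symm (totB u h.hu) (totA u h.hu)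
      (fun e => far w hw e.symm) (fun e => far' v hv e.symm)
      (fun e => far u h.hu e.symm) (fun e => (near2 v hv e).symm)
      (fun e => (near1 w hw e).symm) (fun e => (near3 e).symm)

omit [DecidableEq V] in
theorem cyc_out {p : V → ℕ} (hp : Function.Injective p) {z w v t : V} (hzw : z ≠ w)
    (hzv : z ≠ v) (hzt : z ≠ t) (hwt : w ≠ t) (hvt : v ≠ t) (h : Cyc p z w v)
    (hn : ¬ (Cyc p z w t ∧ Cyc p z t v)) : Cyc p w v t := by
  rcases cyc_total hp hzw hzt hwt with h1 | h1
  · rcases cyc_total hp hzv hzt hvt with h2 | h2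
    · exact cyc_mid h h2
    · exact absurd ⟨h1, h2⟩ hn
  · exact cyc_rot (cyc_mid h1 h)

/-- successor pairs inside a side survive -/
theorem ESplit.next_p {p q : V → ℕ} (hp : Function.Injective p) (hq : Function.Injective q)
    {red : V → Bool} {K K' : Finset V} {z u : V} (h : ESplit (gT p q red) K K' z u)
    {w v : V} (hw : w ∈ K') (hv : v ∈ K') (hN : Next p (insert z K') w v) :
    Next p (K ∪ K') w v := by
  have dis : ∀ s ∈ K', ∀ t ∈ K, s ≠ t := fun s hs' t ht' e =>
    Finset.disjoint_left.1 h.hd ht' (e ▸ hs')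
  refine ⟨hN.1, ?_⟩
  intro t ht htw htv
  rcases Finset.mem_union.1 ht with ht | ht
  · have hz := hN.2 z (Finset.mem_insert_self _ _) (dis w hw z h.hz).symm
      (dis v hv z h.hz).symm
    by_cases htz : t = z
    · subst htz; exact hz
    · have hz' : Cyc p z w v := cyc_rot (cyc_rot hz)
      exact cyc_out hp (dis w hw z h.hz).symm (dis v hv z h.hz).symm (fun e => htz e.symm)
        (dis w hw t ht) (dis v hv t ht) hz' (h.not_btw hp hq hw hv hN.1 ht htz).1
  · exact hN.2 t (Finset.mem_insert_of_mem ht) htw htv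

theorem ESplit.next_q {p q : V → ℕ} (hp : Function.Injective p) (hq : Function.Injective q)
    {red : V → Bool} {K K' : Finset V} {z u : V} (h : ESplit (gT p q red) K K' z u)
    {w v : V} (hw : w ∈ K') (hv : v ∈ K') (hN : Next q (insert z K') w v) :
    Next q (K ∪ K') w v := by
  have dis : ∀ s ∈ K', ∀ t ∈ K, s ≠ t := fun s hs' t ht' e =>
    Finset.disjoint_left.1 h.hd ht' (e ▸ hs')
  refine ⟨hN.1, ?_⟩
  intro t ht htw htv
  rcases Finset.mem_union.1 ht with ht | ht
  · have hz := hN.2 z (Finset.mem_insert_self _ _) (dis w hw z h.hz).symm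
      (dis v hv z h.hz).symm
    by_cases htz : t = z
    · subst htz; exact hz
    · have hz' : Cyc q z w v := cyc_rot (cyc_rot hz)
      refine cyc_out hq (dis w hw z h.hz).symm (dis v hv z h.hz).symm (fun e => htz e.symm)
        (dis w hw t ht) (dis v hv t ht) hz' ?_
      by_cases hr : red z = true
      · have h1 := (h.not_btw hp hq hv hw (fun e => hN.1 e.symm) ht htz).2
        unfold Ord2 at h1
        rw [if_pos hr, if_pos hr] at h1
        exact fun e => h1 ⟨e.2, e.1⟩
      · have h1 := (h.not_btw hp hq hw hv hN.1 ht htz).2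
        unfold Ord2 at h1
        rw [if_neg hr, if_neg hr] at h1
        exact h1
  · exact hN.2 t (Finset.mem_insert_of_mem ht) htw htv

/-- triangle with leaf `w` at `v` -/
def Tri (p q : V → ℕ) (red : V → Bool) (W : Finset V) (w v : V) : Prop :=
  w ∈ W ∧ v ∈ W ∧ red w ≠ red v ∧
    ((Next p W v w ∧ (red v = true → Next q W v w) ∧ (red v = false → Next q W w v)) ∨
     (Next p W w v ∧ (red v = true → Next q W w v) ∧ (red v = false → Next q W v w)))

theorem Tri.lift {p q : V → ℕ} (hp : Function.Injective p) (hq : Function.Injective q)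
    {red : V → Bool} {K K' : Finset V} {z u : V} (h : ESplit (gT p q red) K K' z u)
    {w v : V} (hw : w ∈ K') (hv : v ∈ K') (hT : Tri p q red (insert z K') w v) :
    Tri p q red (K ∪ K') w v := by
  obtain ⟨_, _, hc, hT⟩ := hT
  refine ⟨Finset.mem_union_right _ hw, Finset.mem_union_right _ hv, hc, ?_⟩
  rcases hT with ⟨h1, h2, h3⟩ | ⟨h1, h2, h3⟩
  · left
    exact ⟨h.next_p hp hq hv hw h1, fun e => h.next_q hp hq hv hw (h2 e),
      fun e => h.next_q hp hq hw hv (h3 e)⟩
  · right
    exact ⟨h.next_p hp hq hw hv h1, fun e => h.next_q hp hq hw hv (h2 e),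
      fun e => h.next_q hp hq hv hw (h3 e)⟩

omit [DecidableEq V] in
theorem cyc_cycle {p : V → ℕ} {x y z : V} (h : Cyc p x y z) : Cyc p z x y := cyc_rot (cyc_rot h)

/-- the leaf of a triangle is isolated in the rooted graph -/
theorem Tri.leaf {p q : V → ℕ} (hp : Function.Injective p) (hq : Function.Injective q)
    {red : V → Bool} {W : Finset V} {w v : V} (hT : Tri p q red W w v) :
    ∀ t ∈ W, t ≠ w → rt (gT p q red) v w t = false := by
  intro t ht htw
  have hs : ∀ x y, gT p q red x y = gT p q red y x := gT_symm hp hq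
  by_cases htv : t = v
  · subst htv; show bil _ _ _ _ _ = false; exact bil_self_right _ _ _ _
  obtain ⟨_, _, hc, hT⟩ := hT
  have hvw : v ≠ w := by intro e; subst e; exact hc rfl
  rw [← Bool.not_eq_true, rt_gT' hp hq red hvw (fun e => htv e.symm) (fun e => htw e.symm)]
  intro H
  cases hr : red v with
  | false =>
    have H' := H.1 hr
    rcases hT with ⟨h1, _, h3⟩ | ⟨h1, _, h3⟩
    · have a := h1.2 t ht htv htw
      have b := (h3 hr).2 t ht htw htv
      exact cyc_asymm (H'.1 a) (cyc_rot b)
    · have a := h1.2 t ht htw htv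
      have b := (h3 hr).2 t ht htv htw
      exact cyc_asymm (H'.2 b) (cyc_rot a)
  | true =>
    have hr' : ¬ (red v = false) := by rw [hr]; decide
    rcases hT with ⟨h1, h2, _⟩ | ⟨h1, h2, _⟩
    · have a := h1.2 t ht htv htw
      have b := (h2 hr).2 t ht htv htw
      exact hr' (H.2 (iff_of_true a b))
    · have a := h1.2 t ht htw htv
      have b := (h2 hr).2 t ht htw htv
      exact hr' (H.2 (iff_of_false (fun e => cyc_asymm e (cyc_rot a))
        (fun e => cyc_asymm e (cyc_rot b))))

omit [DecidableEq V] in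
theorem exists_first {p : V → ℕ} (hp : Function.Injective p) (z : V) (S : Finset V)
    (hS : S.Nonempty) (hz : z ∉ S) : ∃ m ∈ S, ∀ t ∈ S, t ≠ m → Cyc p z m t := by
  classical
  induction hS using Finset.Nonempty.cons_induction with
  | singleton a =>
    refine ⟨a, Finset.mem_singleton_self a, ?_⟩
    intro t ht hne
    exact absurd (Finset.mem_singleton.1 ht) hne
  | cons a S ha hS ih =>
    rw [Finset.mem_cons, not_or] at hz
    obtain ⟨m, hm, hmin⟩ := ih hz.2
    have ham : a ≠ m := fun e => ha (e ▸ hm)
    have hzm : z ≠ m := fun e => hz.2 (e ▸ hm)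
    rcases cyc_total hp hz.1 hzm ham with h | h
    · refine ⟨a, Finset.mem_cons_self a S, ?_⟩
      intro t ht hne
      rcases Finset.mem_cons.1 ht with ht | ht
      · exact absurd ht hne
      · by_cases htm : t = m
        · subst htm; exact h
        · exact cyc_trans h (hmin t ht htm)
    · refine ⟨m, Finset.mem_cons_of_mem hm, ?_⟩
      intro t ht hne
      rcases Finset.mem_cons.1 ht with ht | ht
      · subst ht; exact h
      · exact hmin t ht hne

omit [DecidableEq V] in
theorem exists_last {p : V → ℕ} (hp : Function.Injective p) (z : V) (S : Finset V)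
    (hS : S.Nonempty) (hz : z ∉ S) : ∃ m ∈ S, ∀ t ∈ S, t ≠ m → Cyc p z t m := by
  classical
  induction hS using Finset.Nonempty.cons_induction with
  | singleton a =>
    refine ⟨a, Finset.mem_singleton_self a, ?_⟩
    intro t ht hne
    exact absurd (Finset.mem_singleton.1 ht) hne
  | cons a S ha hS ih =>
    rw [Finset.mem_cons, not_or] at hz
    obtain ⟨m, hm, hmin⟩ := ih hz.2
    have ham : a ≠ m := fun e => ha (e ▸ hm)
    have hzm : z ≠ m := fun e => hz.2 (e ▸ hm)
    rcases cyc_total hp hz.1 hzm ham with h | h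
    · refine ⟨m, Finset.mem_cons_of_mem hm, ?_⟩
      intro t ht hne
      rcases Finset.mem_cons.1 ht with ht | ht
      · subst ht; exact h
      · exact hmin t ht hne
    · refine ⟨a, Finset.mem_cons_self a S, ?_⟩
      intro t ht hne
      rcases Finset.mem_cons.1 ht with ht | ht
      · exact absurd ht hne
      · by_cases htm : t = m
        · subst htm; exact h
        · exact cyc_trans (hmin t ht htm) h

/-- a star with centre `z`: the first and the last leaf give triangles -/
theorem star_tri {p q : V → ℕ} (hp : Function.Injective p) (hq : Function.Injective q)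
    {red : V → Bool} {W : Finset V} {z u : V} (hz : z ∈ W)
    (hcol : ∀ x ∈ W, x ≠ z → red x ≠ red z)
    (hleaf : ∀ x ∈ W, ∀ y ∈ W, x ≠ z → y ≠ z → x ≠ y →
      rt (gT p q red) z x y = false) (hcard : 3 ≤ W.card) :
    ∃ w ∈ W, w ≠ z ∧ w ≠ u ∧ Tri p q red W w z := by
  have hzS : z ∉ W.erase z := Finset.notMem_erase z W
  have hcS : 2 ≤ (W.erase z).card := by rw [Finset.card_erase_of_mem hz]; omega
  have hne : (W.erase z).Nonempty := Finset.card_pos.1 (by omega)
  obtain ⟨w1, hw1, hmin⟩ := exists_first hp z _ hne hzS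
  obtain ⟨w2, hw2, hmax⟩ := exists_last hp z _ hne hzS
  have hno : ∀ x ∈ W, ∀ y ∈ W, x ≠ z → y ≠ z → x ≠ y →
      ¬ (Cyc p z x y ↔ Ord2 q red z x y) := by
    intro x hx y hy hxz hyz hxy H
    have h1 := (rt_iff hp hq red hxz.symm hyz.symm hxy).2 H
    rw [hleaf x hx y hy hxz hyz hxy] at h1
    exact Bool.noConfusion h1
  have hw1' := Finset.mem_erase.1 hw1
  have hw2' := Finset.mem_erase.1 hw2
  have T1 : Tri p q red W w1 z := by
    refine ⟨hw1'.2, hz, hcol w1 hw1'.2 hw1'.1, Or.inl ⟨⟨hw1'.1.symm, ?_⟩, ?_, ?_⟩⟩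
    · intro t ht htz htw
      exact hmin t (Finset.mem_erase.2 ⟨htz, ht⟩) htw
    · intro hr
      refine ⟨hw1'.1.symm, ?_⟩
      intro t ht htz htw
      have a := hmin t (Finset.mem_erase.2 ⟨htz, ht⟩) htw
      have b := hno w1 hw1'.2 t ht hw1'.1 htz htw.symm
      unfold Ord2 at b
      rw [if_pos hr] at b
      rcases cyc_total hq hw1'.1.symm htz.symm htw.symm with c | c
      · exact c
      · exact absurd (iff_of_true a c) b
    · intro hr
      refine ⟨hw1'.1, ?_⟩
      intro t ht htw htz
      have a := hmin t (Finset.mem_erase.2 ⟨htz, ht⟩) htw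
      have b := hno w1 hw1'.2 t ht hw1'.1 htz htw.symm
      unfold Ord2 at b
      rw [if_neg (by rw [hr]; decide)] at b
      rcases cyc_total hq hw1'.1.symm htz.symm htw.symm with c | c
      · exact absurd (iff_of_true a c) b
      · exact cyc_cycle c
  have T2 : Tri p q red W w2 z := by
    refine ⟨hw2'.2, hz, hcol w2 hw2'.2 hw2'.1, Or.inr ⟨⟨hw2'.1, ?_⟩, ?_, ?_⟩⟩
    · intro t ht htw htz
      exact cyc_cycle (hmax t (Finset.mem_erase.2 ⟨htz, ht⟩) htw)
    · intro hr
      refine ⟨hw2'.1, ?_⟩
      intro t ht htw htz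
      have a := hmax t (Finset.mem_erase.2 ⟨htz, ht⟩) htw
      have b := hno t ht w2 hw2'.2 htz hw2'.1 htw
      unfold Ord2 at b
      rw [if_pos hr] at b
      rcases cyc_total hq hw2'.1.symm htz.symm htw.symm with c | c
      · exact absurd (iff_of_true a c) b
      · exact cyc_cycle c
    · intro hr
      refine ⟨hw2'.1.symm, ?_⟩
      intro t ht htz htw
      have a := hmax t (Finset.mem_erase.2 ⟨htz, ht⟩) htw
      have b := hno t ht w2 hw2'.2 htz hw2'.1 htw
      unfold Ord2 at b
      rw [if_neg (by rw [hr]; decide)] at b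
      rcases cyc_total hq hw2'.1.symm htz.symm htw.symm with c | c
      · exact c
      · exact absurd (iff_of_true a c) b
  by_cases h1u : w1 = u
  · -- then the last leaf is different
    have h12 : w2 ≠ w1 := by
      intro e
      obtain ⟨t, ht, htne⟩ := Finset.exists_mem_ne (by omega : 1 < (W.erase z).card) w1
      have a := hmin t ht htne
      have b := hmax t ht (by rw [e]; exact htne)
      rw [e] at b
      exact cyc_asymm a b
    exact ⟨w2, hw2'.2, hw2'.1, fun e => h12 (e.trans h1u.symm), T2⟩
  · exact ⟨w1, hw1'.2, hw1'.1, h1u, T1⟩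

theorem insert_eq_union' (K : Finset V) (u : V) : insert u K = K ∪ {u} := by
  ext x; simp only [Finset.mem_insert, Finset.mem_union, Finset.mem_singleton]; tauto

/-- **Q**: a tree `K` with at least two points, an external point `u` attached at `z`: there is a
triangle of `K + u` inside `K` whose leaf is not `z` -/
theorem exists_tri {p q : V → ℕ} (hp : Function.Injective p) (hq : Function.Injective q)
    {red : V → Bool} : ∀ (n : ℕ) (K : Finset V) (z u : V), K.card ≤ n →
      TreeE (gT p q red) K → z ∈ K → u ∉ K →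
      (∀ t ∈ K, bil (gT p q red) z t z u = false) → red z ≠ red u → 2 ≤ K.card →
      ∃ w ∈ K, ∃ v ∈ K, w ≠ z ∧ Tri p q red (insert u K) w v := by
  have hs : ∀ x y, gT p q red x y = gT p q red y x := gT_symm hp hq
  have hdiag : ∀ x, gT p q red x x = red x := by intro x; unfold gT; rw [if_pos rfl]
  intro n
  induction n with
  | zero => intro K z u h1 _ _ _ _ _ h2; omega
  | succ n ih =>
    intro K z u hn hT hz hu hzu hc h2
    have hE : ESplit (gT p q red) K {u} z u := by
      refine ⟨hz, Finset.mem_singleton_self u, Finset.disjoint_singleton_right.2 hu,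
        by rw [hdiag, hdiag]; exact hc, ?_, ?_⟩
      · intro t ht s hs'; rw [Finset.mem_singleton] at hs'; subst hs'; exact hzu t ht
      · intro s hs'; rw [Finset.mem_singleton] at hs'; subst hs'; exact bil_self_left _ _ _ _
    by_cases H : ∃ K1 K2 z1, ESplit (gT p q red) K1 K2 z1 z ∧ TreeE (gT p q red) K1 ∧
        K1 ∪ K2 = K ∧ 2 ≤ K1.card
    · obtain ⟨K1, K2, z1, e1, t1, hU, hc1⟩ := H
      have hzK1 : z ∉ K1 := fun h => Finset.disjoint_left.1 e1.hd h e1.hu
      have hcard : K1.card ≤ n := by
        have : K1.card + K2.card = K.card := by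
          rw [← hU, Finset.card_union_of_disjoint e1.hd]
        have : 0 < K2.card := Finset.card_pos.2 ⟨z, e1.hu⟩
        omega
      obtain ⟨w, hw, v, hv, hwz, hTri⟩ := ih K1 z1 z hcard t1 e1.hz hzK1
        (fun t ht => e1.h1 t ht z e1.hu) (by have := e1.hzu; rw [hdiag, hdiag] at this; exact this)
        hc1
      have s1 : K1 ⊆ K := hU ▸ Finset.subset_union_left
      have e2 : ESplit (gT p q red) K1 (K2 ∪ {u}) z1 z := hE.extend e1 hU e1.hu hs
      have e3 := e2.symm hs
      have T := hTri.lift hp hq e3 hw hv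
      have hset : (K2 ∪ {u}) ∪ K1 = insert u K := by
        rw [insert_eq_union', ← hU]
        ext x; simp only [Finset.mem_union, Finset.mem_singleton]; tauto
      rw [hset] at T
      refine ⟨w, s1 hw, v, s1 hv, ?_, T⟩
      intro e; exact hzK1 (e ▸ hw)
    · -- all branches are single points: a star
      have single : ∀ x ∈ K, x ≠ z → ∃ K2, ESplit (gT p q red) {x} K2 x z ∧ {x} ∪ K2 = K := by
        intro x hx hxz
        obtain ⟨K1, K2, z1, e1, t1, _, hU, hx1⟩ := hT.branch hs z hz x hx hxz
        have hc1 : K1.card ≤ 1 := by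
          by_contra hcon
          exact H ⟨K1, K2, z1, e1, t1, hU, by omega⟩
        have hK1 : K1 = {x} := Finset.eq_singleton_iff_unique_mem.2
          ⟨hx1, fun y hy => Finset.card_le_one.1 hc1 y hy x hx1⟩
        subst hK1
        have hz1 : z1 = x := Finset.mem_singleton.1 e1.hz
        subst hz1
        exact ⟨K2, e1, hU⟩
      have hcard3 : 3 ≤ (insert u K).card := by
        rw [Finset.card_insert_of_notMem hu]; omega
      have hcol : ∀ x ∈ insert u K, x ≠ z → red x ≠ red z := by
        intro x hx hxz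
        rcases Finset.mem_insert.1 hx with hx | hx
        · subst hx; exact hc.symm
        · obtain ⟨K2, e, _⟩ := single x hx hxz
          have := e.hzu; rw [hdiag, hdiag] at this; exact this
      have hleaf : ∀ x ∈ insert u K, ∀ y ∈ insert u K, x ≠ z → y ≠ z → x ≠ y →
          rt (gT p q red) z x y = false := by
        intro x hx y hy hxz hyz hxy
        rcases Finset.mem_insert.1 hx with hx' | hx'
        · rcases Finset.mem_insert.1 hy with hy' | hy'
          · exact absurd (hx'.trans hy'.symm) hxy
          · rw [rt_comm hs, hx']; exact hzu y hy'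
        · rcases Finset.mem_insert.1 hy with hy' | hy'
          · rw [hy']; exact hzu x hx'
          · obtain ⟨K2, e, hU⟩ := single x hx' hxz
            have hy2 : y ∈ K2 := by
              have : y ∈ {x} ∪ K2 := hU ▸ hy'
              rcases Finset.mem_union.1 this with h | h
              · exact absurd (Finset.mem_singleton.1 h).symm hxy
              · exact h
            rw [rt_comm hs]
            exact (e.symm hs).h1 y hy2 x (Finset.mem_singleton_self x)
      obtain ⟨w, hw, hwz, hwu, T⟩ := star_tri hp hq (W := insert u K) (z := z) (u := u)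
        (red := red) (Finset.mem_insert_of_mem hz) hcol hleaf hcard3
      exact ⟨w, (Finset.mem_insert.1 hw).resolve_left hwu, z, hz, hwz, T⟩

/-- **I.3 (b)**: a twin-free tree of two cyclic orders with at least three points has two
triangles with different leaves -/
theorem two_tri {p q : V → ℕ} (hp : Function.Injective p) (hq : Function.Injective q)
    {red : V → Bool} {W : Finset V} (hT : TreeE (gT p q red) W) (h3 : 3 ≤ W.card) :
    ∃ w v w' v', Tri p q red W w v ∧ Tri p q red W w' v' ∧ w ≠ w' ∧ w' ≠ v ∧ v' ≠ w := by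
  have hs : ∀ x y, gT p q red x y = gT p q red y x := gT_symm hp hq
  have hdiag : ∀ x, gT p q red x x = red x := by intro x; unfold gT; rw [if_pos rfl]
  -- the first triangle
  have first : ∃ w v, Tri p q red W w v := by
    cases hT with
    | single z => simp at h3
    | edge K K' z u hE hK hK' =>
      have hcard : (K ∪ K').card = K.card + K'.card := Finset.card_union_of_disjoint hE.hd
      have aux : ∀ (K K' : Finset V) (z u : V), ESplit (gT p q red) K K' z u →
          TreeE (gT p q red) K → 2 ≤ K.card → ∃ w v, Tri p q red (K ∪ K') w v := by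
        intro K K' z u hE hK h2
        have huK : u ∉ K := fun h => Finset.disjoint_left.1 hE.hd h hE.hu
        obtain ⟨w, hw, v, hv, _, T⟩ := exists_tri hp hq K.card K z u le_rfl hK hE.hz huK
          (fun t ht => hE.h1 t ht u hE.hu)
          (by have := hE.hzu; rw [hdiag, hdiag] at this; exact this) h2
        have T' := T.lift hp hq (hE.symm hs) hw hv
        rw [Finset.union_comm] at T'
        exact ⟨w, v, T'⟩
      rcases Nat.lt_or_ge K.card 2 with h | h
      · have := aux K' K u z (hE.symm hs) hK' (by omega)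
        rw [Finset.union_comm] at this
        exact this
      · exact aux K K' z u hE hK h
  obtain ⟨w, v, T⟩ := first
  have hwv : w ≠ v := by intro e; subst e; exact T.2.2.1 rfl
  obtain ⟨K1, K2, z1, e1, _, t2, hU, hw1⟩ := hT.branch hs v T.2.1 w T.1 hwv
  have s1 : K1 ⊆ W := hU ▸ Finset.subset_union_left
  have hleaf := T.leaf hp hq
  have huniv : ∀ s ∈ K1, rt (gT p q red) v s z1 = true := by
    intro s hs'
    show bil (gT p q red) v s v z1 = true
    have h2 := (e1.symm hs).h2 s hs'
    rw [bil_add_left _ v z1 s v z1, h2]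
    have : bil (gT p q red) v z1 v z1 = true := by
      have hc := e1.hzu
      unfold bil
      rw [hs z1 v]
      revert hc
      cases gT p q red z1 z1 <;> cases gT p q red v v <;> cases gT p q red v z1 <;> decide
    rw [this]; rfl
  have hz1 : z1 = w := by
    by_contra hne
    have a := huniv w hw1
    rw [hleaf z1 (s1 e1.hz) hne] at a
    exact Bool.noConfusion a
  subst hz1
  have hK1 : K1 = {z1} := by
    refine Finset.eq_singleton_iff_unique_mem.2 ⟨hw1, ?_⟩
    intro s hs'
    by_contra hne
    have a := huniv s hs'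
    rw [rt_comm hs, hleaf s (s1 hs') hne] at a
    exact Bool.noConfusion a
  subst hK1
  have hz1K2 : z1 ∉ K2 := fun h => Finset.disjoint_left.1 e1.hd (Finset.mem_singleton_self z1) h
  have hc2 : 2 ≤ K2.card := by
    have : ({z1} ∪ K2).card = 1 + K2.card := by
      rw [Finset.card_union_of_disjoint e1.hd, Finset.card_singleton]
    rw [hU] at this; omega
  obtain ⟨w', hw', v', hv', hne', T'⟩ := exists_tri hp hq K2.card K2 v z1 le_rfl t2 e1.hu hz1K2
    (fun t ht => (e1.symm hs).h1 t ht z1 (Finset.mem_singleton_self z1)) T.2.2.1.symm hc2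
  have hset : insert z1 K2 = W := by rw [← hU, Finset.insert_eq]
  rw [hset] at T'
  refine ⟨z1, v, w', v', T, T', ?_, hne', ?_⟩
  · intro e; exact hz1K2 (e ▸ hw')
  · intro e; exact hz1K2 (e ▸ hv')

end Pool.GOD.Lf
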