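import Mathlib
import Pool.Agent.GOD.Leaf

/-!
GOD, part I.3 (helper88), final form: consequences of `TreeOn` for the torus system `gT p q red`
without twins.

* `exists_triangle` : at least two points give a triangle (leaf `w` at `v`);
* `two_triangles` : at least three points give two triangles with different leaves;
* `Tri.leaf` (file Leaf) : the leaf of a triangle is isolated in the rooted graph at its neighbour;
* `exists_branch`, `side_interval` : branches at a point, both sides of an edge are intervals of
  both circuits.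
-/

namespace Pool.GOD

variable {V : Type*} [DecidableEq V]

/-- no two different points of `W` are twins -/
def NoTwins (g : V → V → Bool) (W : Finset V) : Prop :=
  ∀ x ∈ W, ∀ y ∈ W, x ≠ y → ¬ TwinOn g W x y

open Lf

omit [DecidableEq V] in
theorem Lf.eSplit_of_edge {g : V → V → Bool} {K K' : Finset V} {z u : V} (hz : z ∈ K)
    (hu : u ∈ K') (hd : Disjoint K K') (hB : ∀ t ∈ K, ∀ s ∈ K', bil g z t u s = false)
    (h1 : ∀ t ∈ K, bil g z t z u = false) (h2 : ∀ s ∈ K', bil g u s z u = false)
    (hzu : g z z ≠ g u u) : ESplit g K K' z u := by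
  refine ⟨hz, hu, hd, hzu, ?_, h2⟩
  intro t ht s hs
  rw [bil_add_right g z t z u s, h1 t ht, hB t ht s hs]; rfl

theorem Lf.twin_lift {g : V → V → Bool} {K K' : Finset V} {z u : V} (h : ESplit g K K' z u)
    {x y : V} (hx : x ∈ K) (hy : y ∈ K) (hT : TwinOn g K x y) : TwinOn g (K ∪ K') x y := by
  refine ⟨hT.1, ?_⟩
  intro t ht
  rcases Finset.mem_union.1 ht with ht | ht
  · exact hT.2 t ht
  · -- B(x+y, x+t) = B(x+y, x+z) + B(x+y, z+t)
    show bil g x y x t = false
    rw [bil_add_right g x y x z t, h.cross hx hy ht]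
    have := hT.2 z h.hz
    unfold rt at this
    rw [this]; rfl

theorem Lf.treeE_of_treeOn {g : V → V → Bool} (hs : ∀ x y, g x y = g y x) {W : Finset V}
    (h : TreeOn g W) : W.Nonempty → NoTwins g W → TreeE g W := by
  induction h with
  | twins W h =>
    intro hne hT
    obtain ⟨x, hx⟩ := hne
    have : W = {x} := by
      refine Finset.eq_singleton_iff_unique_mem.2 ⟨hx, ?_⟩
      intro y hy
      by_contra hyx
      exact hT y hy x hx hyx (h y hy x hx)
    rw [this]; exact TreeE.single x
  | edge K K' z u hz hu hd hB h1 h2 hzu _ _ ihK ihK' =>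
    intro _ hT
    have e := eSplit_of_edge hz hu hd hB h1 h2 hzu
    refine TreeE.edge K K' z u e (ihK ⟨z, hz⟩ ?_) (ihK' ⟨u, hu⟩ ?_)
    · intro x hx y hy hxy htw
      exact hT x (Finset.mem_union_left _ hx) y (Finset.mem_union_left _ hy) hxy
        (twin_lift e hx hy htw)
    · intro x hx y hy hxy htw
      have h3 := twin_lift (e.symm hs) hx hy htw
      rw [Finset.union_comm] at h3
      exact hT x (Finset.mem_union_right _ hx) y (Finset.mem_union_right _ hy) hxy h3

variable {p q : V → ℕ} {red : V → Bool} {W : Finset V}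

/-- **I.3 (b)** -/
theorem two_triangles (hp : Function.Injective p) (hq : Function.Injective q)
    (hT : TreeOn (gT p q red) W) (hN : NoTwins (gT p q red) W) (h3 : 3 ≤ W.card) :
    ∃ w v w' v', Tri p q red W w v ∧ Tri p q red W w' v' ∧ w ≠ w' ∧ w' ≠ v ∧ v' ≠ w :=
  two_tri hp hq (treeE_of_treeOn (gT_symm hp hq) hT (Finset.card_pos.1 (by omega)) hN) h3

/-- **I.3 (a)** -/
theorem exists_triangle (hp : Function.Injective p) (hq : Function.Injective q)
    (hT : TreeOn (gT p q red) W) (hN : NoTwins (gT p q red) W) (h2 : 2 ≤ W.card) :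
    ∃ w v, Tri p q red W w v := by
  rcases Nat.lt_or_ge W.card 3 with h | h
  · have hE := treeE_of_treeOn (gT_symm hp hq) hT (Finset.card_pos.1 (by omega)) hN
    cases hE with
    | single z => simp at h2
    | edge K K' z u e hK hK' =>
      have hcard : (K ∪ K').card = K.card + K'.card := Finset.card_union_of_disjoint e.hd
      have h4 : 0 < K.card := Finset.card_pos.2 ⟨z, e.hz⟩
      have h5 : 0 < K'.card := Finset.card_pos.2 ⟨u, e.hu⟩
      have h6 : K.card ≤ 1 := by omega
      have h7 : K'.card ≤ 1 := by omega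
      have hzu : z ≠ u := fun h => Finset.disjoint_left.1 e.hd e.hz (h ▸ e.hu)
      have hmem : ∀ t ∈ K ∪ K', t = z ∨ t = u := by
        intro t ht
        rcases Finset.mem_union.1 ht with ht | ht
        · exact Or.inl (Finset.card_le_one.1 h6 t ht z e.hz)
        · exact Or.inr (Finset.card_le_one.1 h7 t ht u e.hu)
      have hN1 : ∀ r : V → ℕ, Next r (K ∪ K') u z := by
        intro r
        refine ⟨hzu.symm, ?_⟩
        intro t ht h1 h2
        rcases hmem t ht with h | h
        · exact absurd h h2
        · exact absurd h h1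
      have hN2 : ∀ r : V → ℕ, Next r (K ∪ K') z u := by
        intro r
        refine ⟨hzu, ?_⟩
        intro t ht h1 h2
        rcases hmem t ht with h | h
        · exact absurd h h1
        · exact absurd h h2
      refine ⟨z, u, Finset.mem_union_left _ e.hz, Finset.mem_union_right _ e.hu, ?_,
        Or.inl ⟨hN1 p, fun _ => hN1 q, fun _ => hN2 q⟩⟩
      have := e.hzu
      rwa [gT_self, gT_self] at this
  · obtain ⟨w, v, _, _, T, _⟩ := two_triangles hp hq hT hN h
    exact ⟨w, v, T⟩

/-- the branch at `v` containing `x` -/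
theorem exists_branch (hp : Function.Injective p) (hq : Function.Injective q)
    (hT : TreeOn (gT p q red) W) (hN : NoTwins (gT p q red) W) {v x : V} (hv : v ∈ W)
    (hx : x ∈ W) (hne : x ≠ v) :
    ∃ K K' z, ESplit (gT p q red) K K' z v ∧ TreeE (gT p q red) K ∧ TreeE (gT p q red) K' ∧
      K ∪ K' = W ∧ x ∈ K :=
  (treeE_of_treeOn (gT_symm hp hq) hT ⟨v, hv⟩ hN).branch (gT_symm hp hq) v hv x hx hne

/-- **I.3 (c)**: both sides of an edge are intervals of both circuits: two points of one side and
two points of the other side do not cross -/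
theorem side_interval (hp : Function.Injective p) (hq : Function.Injective q)
    {K K' : Finset V} {z u : V} (h : ESplit (gT p q red) K K' z u) {w v s t : V} (hw : w ∈ K')
    (hv : v ∈ K') (hwv : w ≠ v) (hs : s ∈ K) (ht : t ∈ K) :
    (Cyc p w v s ↔ Cyc p w v t) ∧ (Cyc q w v s ↔ Cyc q w v t) := by
  have dis : ∀ s ∈ K', ∀ t ∈ K, s ≠ t := fun s hs' t ht' e =>
    Finset.disjoint_left.1 h.hd ht' (e ▸ hs')
  -- everything on the side of `z`
  have P : ∀ w v, w ∈ K' → v ∈ K' → w ≠ v → ∀ t ∈ K, Cyc p w v z → Cyc p w v t := by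
    intro w v hw hv hwv t ht hz
    by_cases htz : t = z
    · subst htz; exact hz
    · exact cyc_out hp (dis w hw z h.hz).symm (dis v hv z h.hz).symm (fun e => htz e.symm)
        (dis w hw t ht) (dis v hv t ht) (cyc_rot (cyc_rot hz))
        (h.not_btw hp hq hw hv hwv ht htz).1
  have Q : ∀ w v, w ∈ K' → v ∈ K' → w ≠ v → ∀ t ∈ K, Cyc q w v z → Cyc q w v t := by
    intro w v hw hv hwv t ht hz
    by_cases htz : t = z
    · subst htz; exact hz
    · refine cyc_out hq (dis w hw z h.hz).symm (dis v hv z h.hz).symm (fun e => htz e.symm)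
        (dis w hw t ht) (dis v hv t ht) (cyc_rot (cyc_rot hz)) ?_
      by_cases hr : red z = true
      · have h1 := (h.not_btw hp hq hv hw (fun e => hwv e.symm) ht htz).2
        unfold Ord2 at h1
        rw [if_pos hr, if_pos hr] at h1
        exact fun e => h1 ⟨e.2, e.1⟩
      · have h1 := (h.not_btw hp hq hw hv hwv ht htz).2
        unfold Ord2 at h1
        rw [if_neg hr, if_neg hr] at h1
        exact h1
  have iffP : ∀ t ∈ K, (Cyc p w v z ↔ Cyc p w v t) := by
    intro t ht
    refine ⟨P w v hw hv hwv t ht, ?_⟩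
    intro H
    rcases cyc_total hp hwv (dis w hw z h.hz) (dis v hv z h.hz) with c | c
    · exact c
    · exfalso
      have c' : Cyc p v w z := cyc_rot (cyc_rot c)
      have := P v w hv hw (fun e => hwv e.symm) t ht c'
      exact cyc_asymm H (cyc_rot this)
  have iffQ : ∀ t ∈ K, (Cyc q w v z ↔ Cyc q w v t) := by
    intro t ht
    refine ⟨Q w v hw hv hwv t ht, ?_⟩
    intro H
    rcases cyc_total hq hwv (dis w hw z h.hz) (dis v hv z h.hz) with c | c
    · exact c
    · exfalso
      have c' : Cyc q v w z := cyc_rot (cyc_rot c)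
      have := Q v w hv hw (fun e => hwv e.symm) t ht c'
      exact cyc_asymm H (cyc_rot this)
  exact ⟨(iffP s hs).symm.trans (iffP t ht), (iffQ s hs).symm.trans (iffQ t ht)⟩

end Pool.GOD
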