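import Pool.Agent.GOD.Dict3
import Pool.Agent.GOD.LeafC

/-!
The graph to torus dictionary, fourth part (MP_7b7176_co): triangles.

In a cubic graph covered by the circuits `H1`, `H2` a pair `w`, `v` of common edges of different
colours which is consecutive on both circuits (in the same order if `v` is red, in opposite orders if
`v` is blue) gives a triangle through `w` and an end of `v`.
-/

set_option autoImplicit false

namespace Pool.GOD

namespace MGraph

variable {V E : Type*}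

section tri

variable [Fintype V] [DecidableEq V] [Fintype E] [DecidableEq E] {G : MGraph V E}
  {H1 H2 : Finset E}

/-- `w = s(a, b)` is a common edge, `f = s(c, a)` is only in `H1`, `g = s(c, b)` is only in `H2`,
and `c` is an end of the common edge `v`. -/
structure IsTriangle (G : MGraph V E) (H1 H2 : Finset E) (w v f g : E) (a b c : V) : Prop where
  w1 : w ∈ H1
  w2 : w ∈ H2
  v1 : v ∈ H1
  v2 : v ∈ H2
  f1 : f ∈ H1
  f2 : f ∉ H2
  g1 : g ∉ H1
  g2 : g ∈ H2
  ew : G.ends w = s(a, b)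
  ef : G.ends f = s(c, a)
  eg : G.ends g = s(c, b)
  cv : c ∈ G.ends v

theorem mod_small {m n : ℕ} (h : m < 2 * n) : m % n = if m < n then m else m - n := by
  split_ifs with c
  · exact Nat.mod_eq_of_lt c
  · rw [Nat.mod_eq_sub_mod (by omega)]
    exact Nat.mod_eq_of_lt (by omega)

variable {n : ℕ} {v : ℕ → V} {e : ℕ → E}

/-- in a Hamilton pair the edge after a common edge is not common, the next one is -/
theorem HamPair.alternate (h : G.HamPair H1 H2) (h1 : Enum G H1 n v e) {i : ℕ}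
    (hi : e i ∈ H2) : e (i + 1) ∉ H2 ∧ e (i + 2) ∈ H2 := by
  have n2 := h1.two
  have d1 : ∀ k, e k ≠ e (k + 1) := by
    intro k hk
    have h2 := (h1.e_eq_iff _ _).1 hk
    have h3 : (k + 1) % n = (k % n + 1) % n := by
      rw [Nat.add_mod, Nat.mod_eq_of_lt (show 1 < n by omega)]
    have h4 : k % n < n := Nat.mod_lt _ (by omega)
    rw [h3] at h2
    by_cases h5 : k % n + 1 = n
    · rw [h5, Nat.mod_self] at h2
      omega
    · rw [Nat.mod_eq_of_lt (show k % n + 1 < n by omega)] at h2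
      omega
  have a1 : e (i + 1) ∉ H2 := by
    intro h2
    refine d1 i (h.not_adj (h1.e_mem i) hi (h1.e_mem (i + 1)) h2 (a := v (i + 1)) ?_ ?_)
    · rw [h1.ends]; exact Sym2.mem_mk_right _ _
    · rw [h1.ends]; exact Sym2.mem_mk_left _ _
  refine ⟨a1, ?_⟩
  by_contra a2
  -- at the vertex `v (i + 2)` the circuit `H2` would use only one edge
  have h2 := (h.deg1 (v (i + 2))).2
  have h3 : G.deg Finset.univ (v (i + 2)) = 3 := h.cubic _
  have h4 : H2.filter (fun z => v (i + 2) ∈ G.ends z) ⊆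
      ((Finset.univ.filter (fun z => v (i + 2) ∈ G.ends z)).erase (e (i + 1))).erase
        (e (i + 2)) := by
    intro z hz
    rw [Finset.mem_filter] at hz
    rw [Finset.mem_erase, Finset.mem_erase, Finset.mem_filter]
    refine ⟨?_, ?_, Finset.mem_univ _, hz.2⟩
    · rintro rfl; exact a2 hz.1
    · rintro rfl; exact a1 hz.1
  have h5 := Finset.card_le_card h4
  have h6 : e (i + 1) ∈ Finset.univ.filter (fun z => v (i + 2) ∈ G.ends z) := by
    rw [Finset.mem_filter, h1.ends]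
    exact ⟨Finset.mem_univ _, Sym2.mem_mk_right _ _⟩
  have h7 : e (i + 2) ∈ (Finset.univ.filter (fun z => v (i + 2) ∈ G.ends z)).erase
      (e (i + 1)) := by
    rw [Finset.mem_erase, Finset.mem_filter, h1.ends]
    exact ⟨(d1 (i + 1)).symm, Finset.mem_univ _, Sym2.mem_mk_left _ _⟩
  rw [Finset.card_erase_of_mem h7, Finset.card_erase_of_mem h6] at h5
  unfold deg at h2 h3
  omega

/-- consecutive common edges -/
theorem HamPair.next_pos (h : G.HamPair H1 H2) (h1 : Enum G H1 n v e) {x y : ↥(H1 ∩ H2)}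
    (hN : Lf.Next (fun s : ↥(H1 ∩ H2) => idx e s.1) Finset.univ x y) :
    e (idx e x.1 + 2) = y.1 := by
  have n2 := h1.two
  have hm1 : ∀ s : ↥(H1 ∩ H2), s.1 ∈ H1 := fun s => (Finset.mem_inter.1 s.2).1
  have hm2 : ∀ s : ↥(H1 ∩ H2), s.1 ∈ H2 := fun s => (Finset.mem_inter.1 s.2).2
  set i := idx e x.1 with hi
  have hil : i < n := h1.idx_lt (hm1 x)
  have hix : e i = x.1 := h1.e_idx (hm1 x)
  obtain ⟨a1, a2⟩ := h.alternate h1 (i := i) (by rw [hix]; exact hm2 x)
  have hj : idx e y.1 < n := h1.idx_lt (hm1 y)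
  have hjy : e (idx e y.1) = y.1 := h1.e_idx (hm1 y)
  have hne : idx e y.1 ≠ i := by
    intro h'
    apply hN.1
    exact Subtype.ext (by rw [← hjy, h', hix])
  by_contra hc
  -- the common edge `s` two steps after `x`
  have s1 : e (i + 2) ∈ H1 ∩ H2 := Finset.mem_inter.2 ⟨h1.e_mem _, a2⟩
  have hs : idx e (e (i + 2)) = (i + 2) % n := by
    rw [← h1.e_mod (i + 2), h1.idx_e (Nat.mod_lt _ (by omega))]
  have hy1 : idx e y.1 ≠ (i + 1) % n := by
    intro h'
    apply a1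
    rw [← h1.e_mod (i + 1), ← h', hjy]
    exact hm2 y
  have hy2 : idx e y.1 ≠ (i + 2) % n := by
    intro h'
    apply hc
    rw [← h1.e_mod (i + 2), ← h', hjy]
  have e1 : (i + 1) % n = if i + 1 < n then i + 1 else i + 1 - n := mod_small (by omega)
  have e2 : (i + 2) % n = if i + 2 < n then i + 2 else i + 2 - n := mod_small (by omega)
  by_cases hn : n = 2
  · subst hn
    rw [e1] at hy1
    split_ifs at hy1 <;> omega
  · have hsx : (⟨e (i + 2), s1⟩ : ↥(H1 ∩ H2)) ≠ x := by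
      intro h'
      have h2 := congrArg (fun s : ↥(H1 ∩ H2) => idx e s.1) h'
      simp only at h2
      rw [hs, ← hi, e2] at h2
      split_ifs at h2 <;> omega
    have hsy : (⟨e (i + 2), s1⟩ : ↥(H1 ∩ H2)) ≠ y := by
      intro h'
      apply hc
      rw [← h']
    have h3 := hN.2 ⟨e (i + 2), s1⟩ (Finset.mem_univ _) hsx hsy
    unfold Cyc at h3
    simp only at h3
    rw [hs, ← hi, e2] at h3
    rw [e1] at hy1
    rw [e2] at hy2
    split_ifs at h3 hy1 hy2 <;> omega

variable {n1 n2 : ℕ} {v1 v2 : ℕ → V} {e1 e2 : ℕ → E}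

omit [Fintype V] [DecidableEq V] [Fintype E] [DecidableEq E] in
theorem dir_of (h1 : Enum G H1 n1 v1 e1) (h2 : Enum G H2 n2 v2 e2) {t : E} {i j : ℕ}
    (hi : e1 i = t) (hj : e2 j = t) :
    (SameDir v1 e1 v2 e2 t → v1 i = v2 j ∧ v1 (i + 1) = v2 (j + 1)) ∧
      (¬ SameDir v1 e1 v2 e2 t → v1 i = v2 (j + 1) ∧ v1 (i + 1) = v2 j) := by
  have g1 : idx e1 t = i % n1 := by
    rw [← hi, ← h1.e_mod i, h1.idx_e (Nat.mod_lt _ h1.pos)]
  have g2 : idx e2 t = j % n2 := by
    rw [← hj, ← h2.e_mod j, h2.idx_e (Nat.mod_lt _ h2.pos)]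
  have g3 : SameDir v1 e1 v2 e2 t ↔ v1 i = v2 j := by
    unfold SameDir
    rw [g1, g2, h1.v_mod, h2.v_mod]
  have g4 : s(v1 i, v1 (i + 1)) = s(v2 j, v2 (j + 1)) := by
    rw [← h1.ends i, ← h2.ends j, hi, hj]
  rw [g3]
  have g5 := Sym2.eq_iff.1 g4
  constructor
  · intro h
    rcases g5 with g | g
    · exact g
    · exact absurd (h.symm.trans g.1) (h2.v_ne_succ j)
  · intro h
    rcases g5 with g | g
    · exact absurd g.1 h
    · exact g

/-- **triangles** -/
theorem HamPair.triangle (h : G.HamPair H1 H2) (h1 : Enum G H1 n1 v1 e1)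
    (h2 : Enum G H2 n2 v2 e2) {w v : ↥(H1 ∩ H2)}
    (hT : Lf.Tri (fun s : ↥(H1 ∩ H2) => idx e1 s.1) (fun s : ↥(H1 ∩ H2) => idx e2 s.1)
      (colour v1 e1 v2 e2) Finset.univ w v) :
    ∃ f g a b c, IsTriangle G H1 H2 w.1 v.1 f g a b c := by
  obtain ⟨-, -, hc, hT⟩ := hT
  have w1 : w.1 ∈ H1 := (Finset.mem_inter.1 w.2).1
  have w2 : w.1 ∈ H2 := (Finset.mem_inter.1 w.2).2
  have m1 : v.1 ∈ H1 := (Finset.mem_inter.1 v.2).1
  have m2 : v.1 ∈ H2 := (Finset.mem_inter.1 v.2).2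
  have w1' := h1.e_idx w1
  have w2' := h2.e_idx w2
  have m1' := h1.e_idx m1
  have m2' := h2.e_idx m2
  have hx : (colour v1 e1 v2 e2 w = true ∧ colour v1 e1 v2 e2 v = false) ∨
      (colour v1 e1 v2 e2 w = false ∧ colour v1 e1 v2 e2 v = true) := by
    revert hc
    cases colour v1 e1 v2 e2 w <;> cases colour v1 e1 v2 e2 v <;> simp
  -- positions on `H2` by symmetry
  have sw : ∀ x y : ↥(H1 ∩ H2),
      Lf.Next (fun s : ↥(H1 ∩ H2) => idx e2 s.1) Finset.univ x y → e2 (idx e2 x.1 + 2) = y.1 := by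
    intro x y hN
    have ix : x.1 ∈ H2 ∩ H1 := by rw [Finset.inter_comm]; exact x.2
    have iy : y.1 ∈ H2 ∩ H1 := by rw [Finset.inter_comm]; exact y.2
    refine h.symm.next_pos h2 (x := ⟨x.1, ix⟩) (y := ⟨y.1, iy⟩) ⟨?_, ?_⟩
    · intro h'
      exact hN.1 (Subtype.ext (congrArg (fun s : ↥(H2 ∩ H1) => s.1) h'))
    · intro t _ tx ty
      have it : t.1 ∈ H1 ∩ H2 := by rw [Finset.inter_comm]; exact t.2
      exact hN.2 ⟨t.1, it⟩ (Finset.mem_univ _)
        (fun h' => tx (Subtype.ext (congrArg (fun s : ↥(H1 ∩ H2) => s.1) h')))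
        (fun h' => ty (Subtype.ext (congrArg (fun s : ↥(H1 ∩ H2) => s.1) h')))
  rcases hT with ⟨hp, hr, hb⟩ | ⟨hp, hr, hb⟩
  · -- `w` follows `v` on `H1`
    have p1 := h.next_pos h1 hp
    obtain ⟨f2, -⟩ := h.alternate h1 (i := idx e1 v.1) (by rw [m1']; exact m2)
    set i := idx e1 v.1 with hi
    rcases hx with ⟨cw, cv⟩ | ⟨cw, cv⟩
    · -- `v` blue, `w` red
      have q1 := sw _ _ (hb cv)
      obtain ⟨g1, -⟩ := h.symm.alternate h2 (i := idx e2 w.1) (by rw [w2']; exact w1)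
      set k := idx e2 w.1 with hk
      have dv := (dir_of h1 h2 m1' q1).2 ((colour_false _).1 cv)
      have dw := (dir_of h1 h2 p1 w2').1 ((colour_true _).1 cw)
      refine ⟨e1 (i + 1), e2 (k + 1), v1 (i + 2), v1 (i + 3), v1 (i + 1), w1, w2, m1, m2,
        h1.e_mem _, f2, g1, h2.e_mem _, ?_, h1.ends _, ?_, ?_⟩
      · rw [← p1]; exact h1.ends _
      · rw [h2.ends, ← dw.2, ← dv.2, Sym2.eq_swap]
      · rw [← m1', h1.ends]; exact Sym2.mem_mk_right _ _
    · -- `v` red, `w` blue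
      have q1 := sw _ _ (hr cv)
      obtain ⟨g1, -⟩ := h.symm.alternate h2 (i := idx e2 v.1) (by rw [m2']; exact m1)
      set j := idx e2 v.1 with hj
      have dv := (dir_of h1 h2 m1' m2').1 ((colour_true _).1 cv)
      have dw := (dir_of h1 h2 p1 q1).2 ((colour_false _).1 cw)
      refine ⟨e1 (i + 1), e2 (j + 1), v1 (i + 2), v1 (i + 3), v1 (i + 1), w1, w2, m1, m2,
        h1.e_mem _, f2, g1, h2.e_mem _, ?_, h1.ends _, ?_, ?_⟩
      · rw [← p1]; exact h1.ends _
      · rw [h2.ends, ← dv.2, show v1 (i + 3) = v1 (i + 2 + 1) from rfl, dw.2]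
      · rw [← m1', h1.ends]; exact Sym2.mem_mk_right _ _
  · -- `v` follows `w` on `H1`
    have p1 := h.next_pos h1 hp
    obtain ⟨f2, -⟩ := h.alternate h1 (i := idx e1 w.1) (by rw [w1']; exact w2)
    set i := idx e1 w.1 with hi
    rcases hx with ⟨cw, cv⟩ | ⟨cw, cv⟩
    · -- `v` blue, `w` red
      have q1 := sw _ _ (hb cv)
      obtain ⟨g1, -⟩ := h.symm.alternate h2 (i := idx e2 v.1) (by rw [m2']; exact m1)
      set j := idx e2 v.1 with hj
      have dv := (dir_of h1 h2 p1 m2').2 ((colour_false _).1 cv)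
      have dw := (dir_of h1 h2 w1' q1).1 ((colour_true _).1 cw)
      refine ⟨e1 (i + 1), e2 (j + 1), v1 (i + 1), v1 i, v1 (i + 2), w1, w2, m1, m2,
        h1.e_mem _, f2, g1, h2.e_mem _, ?_, ?_, ?_, ?_⟩
      · rw [← w1', h1.ends, Sym2.eq_swap]
      · rw [h1.ends, Sym2.eq_swap]
      · rw [h2.ends, ← dw.1, dv.1]
      · rw [← p1, h1.ends]; exact Sym2.mem_mk_left _ _
    · -- `v` red, `w` blue
      have q1 := sw _ _ (hr cv)
      obtain ⟨g1, -⟩ := h.symm.alternate h2 (i := idx e2 w.1) (by rw [w2']; exact w1)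
      set k := idx e2 w.1 with hk
      have dv := (dir_of h1 h2 p1 q1).1 ((colour_true _).1 cv)
      have dw := (dir_of h1 h2 w1' w2').2 ((colour_false _).1 cw)
      refine ⟨e1 (i + 1), e2 (k + 1), v1 (i + 1), v1 i, v1 (i + 2), w1, w2, m1, m2,
        h1.e_mem _, f2, g1, h2.e_mem _, ?_, ?_, ?_, ?_⟩
      · rw [← w1', h1.ends, Sym2.eq_swap]
      · rw [h1.ends, Sym2.eq_swap]
      · rw [h2.ends, dw.1, dv.1, Sym2.eq_swap]
      · rw [← p1, h1.ends]; exact Sym2.mem_mk_left _ _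

end tri

end MGraph

end Pool.GOD
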