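import Pool.Agent.GOD.BaseApi

/-!
Closed walks and cyclic enumerations of circuits in a multigraph (MP_7b7176_co).

`CWalk G n v e`: the `n`-periodic sequences `v`, `e` form a closed walk of length `n`.
`Enum G D n v e`: the closed walk is a cyclic enumeration of the circuit `D` (all `n` vertices are
different, all `n` edges are different).
-/

set_option autoImplicit false

namespace Pool.GOD

namespace MGraph

variable {V E : Type*}

section conn

variable {G : MGraph V E} {X Y : Finset E} {a b c : V}

theorem ConnIn.of_adj (h : G.AdjIn X a b) : G.ConnIn X a b := Relation.ReflTransGen.single h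

theorem ends_ne {G : MGraph V E} {e : E} {a b : V} (h : G.ends e = s(a, b)) : a ≠ b := by
  intro hab
  exact G.loopless e (by rw [h]; exact Sym2.mk_isDiag_iff.2 hab)

end conn

/-- closed walk of length `n` given by `n`-periodic sequences -/
structure CWalk (G : MGraph V E) (n : ℕ) (v : ℕ → V) (e : ℕ → E) : Prop where
  pos : 0 < n
  pv : ∀ i, v (i + n) = v i
  pe : ∀ i, e (i + n) = e i
  ends : ∀ i, G.ends (e i) = s(v i, v (i + 1))

namespace CWalk

variable {G : MGraph V E} {n : ℕ} {v : ℕ → V} {e : ℕ → E} {X : Finset E}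

theorem pv_mul (h : CWalk G n v e) (i k : ℕ) : v (i + k * n) = v i := by
  induction k with
  | zero => simp
  | succ k ih => rw [Nat.succ_mul, ← Nat.add_assoc, h.pv, ih]

theorem pe_mul (h : CWalk G n v e) (i k : ℕ) : e (i + k * n) = e i := by
  induction k with
  | zero => simp
  | succ k ih => rw [Nat.succ_mul, ← Nat.add_assoc, h.pe, ih]

theorem v_mod (h : CWalk G n v e) (i : ℕ) : v (i % n) = v i := by
  conv_rhs => rw [← Nat.mod_add_div i n, Nat.mul_comm]
  exact (h.pv_mul _ _).symm

theorem e_mod (h : CWalk G n v e) (i : ℕ) : e (i % n) = e i := by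
  conv_rhs => rw [← Nat.mod_add_div i n, Nat.mul_comm]
  exact (h.pe_mul _ _).symm

theorem v_ne_succ (h : CWalk G n v e) (i : ℕ) : v i ≠ v (i + 1) := ends_ne (h.ends i)

theorem adj (h : CWalk G n v e) {i : ℕ} (hX : e i ∈ X) : G.AdjIn X (v i) (v (i + 1)) :=
  ⟨e i, hX, h.ends i⟩

/-- segments of a closed walk connect their ends -/
theorem seg (h : CWalk G n v e) {i j : ℕ} (hij : i ≤ j) (hX : ∀ k, i ≤ k → k < j → e k ∈ X) :
    G.ConnIn X (v i) (v j) := by
  induction j, hij using Nat.le_induction with
  | base => exact ConnIn.refl _ _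
  | succ j hij ih =>
    exact (ih fun k h1 h2 => hX k h1 (by omega)).trans
      (ConnIn.of_adj (h.adj (hX j hij (by omega))))

/-- rotation of a closed walk -/
theorem rot (h : CWalk G n v e) (r : ℕ) : CWalk G n (fun i => v (i + r)) (fun i => e (i + r)) where
  pos := h.pos
  pv i := by
    show v (i + n + r) = v (i + r)
    rw [show i + n + r = i + r + n by omega, h.pv]
  pe i := by
    show e (i + n + r) = e (i + r)
    rw [show i + n + r = i + r + n by omega, h.pe]
  ends i := by
    show G.ends (e (i + r)) = s(v (i + r), v (i + 1 + r))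
    rw [show i + 1 + r = i + r + 1 by omega]
    exact h.ends _

/-- reversed closed walk -/
theorem rev (h : CWalk G n v e) :
    CWalk G n (fun i => v (n - i % n)) (fun i => e (n - 1 - i % n)) where
  pos := h.pos
  pv i := by simp
  pe i := by simp
  ends i := by
    have hn := h.pos
    have hr : i % n < n := Nat.mod_lt _ hn
    show G.ends (e (n - 1 - i % n)) = s(v (n - i % n), v (n - (i + 1) % n))
    have h1 : v (n - (i + 1) % n) = v (n - 1 - i % n) := by
      by_cases hi : i % n = n - 1
      · have : (i + 1) % n = 0 := by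
          rw [Nat.add_mod, hi]
          by_cases h1 : n = 1
          · subst h1; simp
          · rw [Nat.mod_eq_of_lt (by omega : 1 < n)]
            rw [show n - 1 + 1 = n by omega, Nat.mod_self]
        rw [this, hi]
        have h2 := h.pv 0
        simp only [Nat.zero_add] at h2
        simp [h2]
      · have : (i + 1) % n = i % n + 1 := by
          rw [Nat.add_mod, Nat.mod_eq_of_lt (by omega : 1 < n)]
          exact Nat.mod_eq_of_lt (by omega)
        rw [this, Nat.sub_sub, Nat.add_comm 1]
    rw [h1, h.ends, show n - 1 - i % n + 1 = n - i % n by omega, Sym2.eq_swap]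

end CWalk

/-- the closed walk `v, e` of length `n` is a cyclic enumeration of the circuit `D` -/
structure Enum (G : MGraph V E) (D : Finset E) (n : ℕ) (v : ℕ → V) (e : ℕ → E) : Prop
    extends CWalk G n v e where
  two : 2 ≤ n
  injv : ∀ i j, i < n → j < n → v i = v j → i = j
  inje : ∀ i j, i < n → j < n → e i = e j → i = j
  mem : ∀ f, f ∈ D ↔ ∃ i, i < n ∧ e i = f

namespace Enum

variable {G : MGraph V E} {D : Finset E} {n : ℕ} {v : ℕ → V} {e : ℕ → E}

theorem e_mem (h : Enum G D n v e) (i : ℕ) : e i ∈ D :=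
  (h.mem _).2 ⟨i % n, Nat.mod_lt _ h.pos, h.e_mod i⟩

theorem v_eq_iff (h : Enum G D n v e) (i j : ℕ) : v i = v j ↔ i % n = j % n := by
  constructor
  · intro hij
    rw [← h.v_mod i, ← h.v_mod j] at hij
    exact h.injv _ _ (Nat.mod_lt _ h.pos) (Nat.mod_lt _ h.pos) hij
  · intro hij
    rw [← h.v_mod i, ← h.v_mod j, hij]

theorem e_eq_iff (h : Enum G D n v e) (i j : ℕ) : e i = e j ↔ i % n = j % n := by
  constructor
  · intro hij
    rw [← h.e_mod i, ← h.e_mod j] at hij
    exact h.inje _ _ (Nat.mod_lt _ h.pos) (Nat.mod_lt _ h.pos) hij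
  · intro hij
    rw [← h.e_mod i, ← h.e_mod j, hij]

theorem rot (h : Enum G D n v e) (r : ℕ) :
    Enum G D n (fun i => v (i + r)) (fun i => e (i + r)) where
  toCWalk := h.toCWalk.rot r
  two := h.two
  injv i j hi hj hij := by
    have h1 := (h.v_eq_iff _ _).1 hij
    have h2 : i % n = j % n := Nat.ModEq.add_right_cancel' r h1
    rwa [Nat.mod_eq_of_lt hi, Nat.mod_eq_of_lt hj] at h2
  inje i j hi hj hij := by
    have h1 := (h.e_eq_iff _ _).1 hij
    have h2 : i % n = j % n := Nat.ModEq.add_right_cancel' r h1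
    rwa [Nat.mod_eq_of_lt hi, Nat.mod_eq_of_lt hj] at h2
  mem f := by
    rw [h.mem f]
    constructor
    · rintro ⟨i, hi, rfl⟩
      refine ⟨(i + (n - r % n)) % n, Nat.mod_lt _ h.pos, ?_⟩
      rw [h.e_eq_iff]
      have hr : r % n < n := Nat.mod_lt _ h.pos
      have h1 : ((i + (n - r % n)) % n + r) % n = (i + (n - r % n) + r) % n := by
        rw [Nat.mod_add_mod]
      rw [h1]
      have h2 : (i + (n - r % n) + r) % n = (i + (n - r % n) + r % n) % n := by
        rw [Nat.add_mod_mod]
      rw [h2, show i + (n - r % n) + r % n = i + n by omega, Nat.add_mod_right]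
    · rintro ⟨i, _, rfl⟩
      exact ⟨(i + r) % n, Nat.mod_lt _ h.pos, h.e_mod _⟩

theorem rev (h : Enum G D n v e) :
    Enum G D n (fun i => v (n - i % n)) (fun i => e (n - 1 - i % n)) where
  toCWalk := h.toCWalk.rev
  two := h.two
  injv i j hi hj hij := by
    have hij' : v (n - i) = v (n - j) := by
      simpa only [Nat.mod_eq_of_lt hi, Nat.mod_eq_of_lt hj] using hij
    have h1 := (h.v_eq_iff _ _).1 hij'
    by_cases hi0 : i = 0
    · subst hi0
      by_cases hj0 : j = 0
      · exact hj0.symm
      · rw [Nat.sub_zero, Nat.mod_self, Nat.mod_eq_of_lt (by omega : n - j < n)] at h1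
        omega
    · by_cases hj0 : j = 0
      · subst hj0
        rw [Nat.sub_zero, Nat.mod_self, Nat.mod_eq_of_lt (by omega : n - i < n)] at h1
        omega
      · rw [Nat.mod_eq_of_lt (by omega : n - i < n), Nat.mod_eq_of_lt (by omega : n - j < n)] at h1
        omega
  inje i j hi hj hij := by
    have hij' : e (n - 1 - i) = e (n - 1 - j) := by
      simpa only [Nat.mod_eq_of_lt hi, Nat.mod_eq_of_lt hj] using hij
    have h1 := h.inje _ _ (by omega) (by omega) hij'
    omega
  mem f := by
    rw [h.mem f]
    constructor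
    · rintro ⟨i, hi, rfl⟩
      refine ⟨n - 1 - i, by omega, ?_⟩
      show e (n - 1 - (n - 1 - i) % n) = e i
      rw [Nat.mod_eq_of_lt (by omega : n - 1 - i < n), show n - 1 - (n - 1 - i) = i by omega]
    · rintro ⟨i, hi, rfl⟩
      exact ⟨n - 1 - i % n, by omega, rfl⟩

end Enum

section circuit

variable [DecidableEq V] {G : MGraph V E} {D : Finset E}

/-- paths in `D` -/
structure IsPathIn (G : MGraph V E) (D : Finset E) (k : ℕ) (v : ℕ → V) (e : ℕ → E) : Prop where
  ends : ∀ i, i < k → G.ends (e i) = s(v i, v (i + 1))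
  mem : ∀ i, i < k → e i ∈ D
  inj : ∀ i j, i ≤ k → j ≤ k → v i = v j → i = j

theorem eq_or_eq_of_deg_two {a : V} (h : G.deg D a = 2) {f g k : E} (hf : f ∈ D) (hg : g ∈ D)
    (hk : k ∈ D) (af : a ∈ G.ends f) (ag : a ∈ G.ends g) (ak : a ∈ G.ends k) (hfg : f ≠ g) :
    k = f ∨ k = g := by
  classical
  by_contra hc
  push Not at hc
  have h1 : ({f, g, k} : Finset E) ⊆ D.filter (fun e => a ∈ G.ends e) := by
    intro z hz
    simp only [Finset.mem_insert, Finset.mem_singleton] at hz
    rw [Finset.mem_filter]
    rcases hz with rfl | rfl | rfl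
    · exact ⟨hf, af⟩
    · exact ⟨hg, ag⟩
    · exact ⟨hk, ak⟩
  have h2 := Finset.card_le_card h1
  have h3 : ({f, g, k} : Finset E).card = 3 := by
    rw [Finset.card_eq_three]
    exact ⟨f, g, k, hfg, hc.1.symm, hc.2.symm, rfl⟩
  unfold deg at h
  omega

theorem exists_other_edge {a : V} (h : G.deg D a = 2) (f : E) :
    ∃ g ∈ D, a ∈ G.ends g ∧ g ≠ f := by
  classical
  have h1 : 1 < (D.filter (fun e => a ∈ G.ends e)).card := by
    unfold deg at h
    omega
  obtain ⟨g, hg, hne⟩ := Finset.exists_mem_ne h1 f
  rw [Finset.mem_filter] at hg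
  exact ⟨g, hg.1, hg.2, hne⟩

theorem IsCircuit.deg_eq_two (hD : G.IsCircuit D) {a : V} {f : E} (hf : f ∈ D)
    (af : a ∈ G.ends f) : G.deg D a = 2 := by
  rcases hD.2.1 a with h | h
  · exfalso
    unfold deg at h
    rw [Finset.card_eq_zero, Finset.filter_eq_empty_iff] at h
    exact h hf af
  · exact h

omit [DecidableEq V] in
theorem IsPathIn.extend {k : ℕ} {v : ℕ → V} {e : ℕ → E} (h : IsPathIn G D k v e) {f : E} {c : V}
    (hf : f ∈ D) (hfe : G.ends f = s(v k, c)) (hc : ∀ i, i ≤ k → v i ≠ c) :
    ∃ v' e', IsPathIn G D (k + 1) v' e' := by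
  refine ⟨fun i => if i ≤ k then v i else c, fun i => if i < k then e i else f, ?_, ?_, ?_⟩
  · intro i hi
    by_cases hik : i < k
    · rw [if_pos hik, if_pos hik.le, if_pos (show i + 1 ≤ k by omega)]
      exact h.ends i hik
    · have : i = k := by omega
      subst this
      rw [if_neg (lt_irrefl _), if_pos le_rfl, if_neg (by omega)]
      exact hfe
  · intro i hi
    by_cases hik : i < k
    · simp only [if_pos hik]
      exact h.mem i hik
    · simp only [if_neg hik]
      exact hf
  · intro i j hi hj hij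
    by_cases h1 : i ≤ k
    · by_cases h2 : j ≤ k
      · simp only [if_pos h1, if_pos h2] at hij
        exact h.inj i j h1 h2 hij
      · simp only [if_pos h1, if_neg h2] at hij
        exact absurd hij (hc i h1)
    · by_cases h2 : j ≤ k
      · simp only [if_neg h1, if_pos h2] at hij
        exact absurd hij.symm (hc j h2)
      · omega

/-- a maximal path -/
theorem exists_max_path [Fintype V] (hD : G.IsCircuit D) :
    ∃ k v e, 1 ≤ k ∧ IsPathIn G D k v e ∧ ¬ ∃ v' e', IsPathIn G D (k + 1) v' e' := by
  by_contra hc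
  push Not at hc
  have h1 : ∃ v e, IsPathIn G D 1 v e := by
    obtain ⟨f, hf⟩ := hD.1
    obtain ⟨a, b, hab⟩ : ∃ a b, G.ends f = s(a, b) := by
      induction h : G.ends f with
      | h a b => exact ⟨a, b, rfl⟩
    refine ⟨fun i => if i = 0 then a else b, fun _ => f, ?_, ?_, ?_⟩
    · intro i hi
      have : i = 0 := by omega
      subst this
      simpa using hab
    · intro i _
      exact hf
    · intro i j hi hj hij
      have hne := ends_ne hab
      by_cases h1 : i = 0
      · by_cases h2 : j = 0
        · omega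
        · simp only [if_pos h1, if_neg h2] at hij
          exact absurd hij hne
      · by_cases h2 : j = 0
        · simp only [if_neg h1, if_pos h2] at hij
          exact absurd hij.symm hne
        · omega
  have h2 : ∀ k, ∃ v e, IsPathIn G D (k + 1) v e := by
    intro k
    induction k with
    | zero => exact h1
    | succ k ih =>
      obtain ⟨v, e, h⟩ := ih
      obtain ⟨v', e', h'⟩ := hc (k + 1) v e (by omega) h
      exact ⟨v', e', h'⟩
  obtain ⟨v, e, h⟩ := h2 (Fintype.card V)
  have h3 : Function.Injective (fun i : Fin (Fintype.card V + 1) => v i) := by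
    intro i j hij
    exact Fin.ext (h.inj i j (by omega) (by omega) hij)
  have h4 := Fintype.card_le_of_injective _ h3
  rw [Fintype.card_fin] at h4
  omega

/-- Every circuit has a cyclic enumeration. -/
theorem IsCircuit.exists_enum [Fintype V] (hD : G.IsCircuit D) :
    ∃ n v e, Enum G D n v e := by
  obtain ⟨k, v, e, hk, hp, hmax⟩ := exists_max_path hD
  have hkm : e (k - 1) ∈ D := hp.mem _ (by omega)
  have hke : G.ends (e (k - 1)) = s(v (k - 1), v k) := by
    have := hp.ends (k - 1) (by omega)
    rwa [show k - 1 + 1 = k by omega] at this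
  have hvk : v k ∈ G.ends (e (k - 1)) := by rw [hke]; exact Sym2.mem_mk_right _ _
  obtain ⟨f, hf, hfk, hfne⟩ := exists_other_edge (hD.deg_eq_two hkm hvk) (e (k - 1))
  obtain ⟨c, hc⟩ : ∃ c, G.ends f = s(v k, c) := ⟨_, (Sym2.other_spec hfk).symm⟩
  have hnc : v k ≠ c := ends_ne hc
  have hex : ∃ j, j ≤ k ∧ v j = c := by
    by_contra hcon
    push Not at hcon
    exact hmax (hp.extend hf hc hcon)
  obtain ⟨j, hjk, hj⟩ := hex
  have hjk' : j < k := lt_of_le_of_ne hjk (by rintro rfl; exact hnc hj)
  have hcf : c ∈ G.ends f := by rw [hc]; exact Sym2.mem_mk_right _ _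
  have hj0 : j = 0 := by
    by_contra hj0
    have m1 : e (j - 1) ∈ D := hp.mem _ (by omega)
    have m2 : e j ∈ D := hp.mem _ hjk'
    have e1 : G.ends (e (j - 1)) = s(v (j - 1), v j) := by
      have := hp.ends (j - 1) (by omega)
      rwa [show j - 1 + 1 = j by omega] at this
    have e2 := hp.ends j hjk'
    have a1 : c ∈ G.ends (e (j - 1)) := by rw [e1, ← hj]; exact Sym2.mem_mk_right _ _
    have a2 : c ∈ G.ends (e j) := by rw [e2, ← hj]; exact Sym2.mem_mk_left _ _
    have hne : e (j - 1) ≠ e j := by
      intro h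
      rw [h, e2] at e1
      have : v (j - 1) ∈ s(v j, v (j + 1)) := by rw [e1]; exact Sym2.mem_mk_left _ _
      rw [Sym2.mem_iff] at this
      rcases this with h | h
      · have := hp.inj _ _ (by omega) (by omega) h
        omega
      · have := hp.inj _ _ (by omega) (by omega) h
        omega
    rcases eq_or_eq_of_deg_two (hD.deg_eq_two hf hcf) m1 m2 hf a1 a2 hcf hne with h | h
    · rw [h, e1, Sym2.mem_iff] at hfk
      rcases hfk with h | h
      · have := hp.inj _ _ (by omega) (by omega) h
        omega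
      · have := hp.inj _ _ (by omega) (by omega) h
        omega
    · have hfk' := hfk
      rw [h, e2, Sym2.mem_iff] at hfk'
      rcases hfk' with h' | h'
      · have := hp.inj _ _ (by omega) (by omega) h'
        omega
      · have := hp.inj _ _ (by omega) (by omega) h'
        have h1 : j = k - 1 := by omega
        rw [h1] at h
        exact hfne h
  subst hj0
  -- the enumeration
  set n := k + 1 with hn
  set v' : ℕ → V := fun i => v (i % n) with hv'
  set e' : ℕ → E := fun i => if i % n = k then f else e (i % n) with he'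
  have hlt : ∀ i, i % n < n := fun i => Nat.mod_lt _ (by omega)
  have hW : CWalk G n v' e' := by
    refine ⟨by omega, fun i => ?_, fun i => ?_, fun i => ?_⟩
    · simp only [hv', Nat.add_mod_right]
    · simp only [he', Nat.add_mod_right]
    · have hi := hlt i
      by_cases h : i % n = k
      · have h1 : (i + 1) % n = 0 := by
          rw [Nat.add_mod, h, Nat.mod_eq_of_lt (show 1 < n by omega), ← hn, Nat.mod_self]
        simp only [hv', he', if_pos h, h1, h]
        rw [hc, hj]
      · have h1 : (i + 1) % n = i % n + 1 := by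
          rw [Nat.add_mod, Nat.mod_eq_of_lt (show 1 < n by omega)]
          exact Nat.mod_eq_of_lt (by omega)
        simp only [hv', he', if_neg h, h1]
        exact hp.ends _ (by omega)
  have hmem' : ∀ i, e' i ∈ D := by
    intro i
    by_cases h : i % n = k
    · simp only [he', if_pos h]; exact hf
    · have := hlt i
      simp only [he', if_neg h]; exact hp.mem _ (by omega)
  have hinjv : ∀ i j, i < n → j < n → v' i = v' j → i = j := by
    intro i j hi hj h
    simp only [hv', Nat.mod_eq_of_lt hi, Nat.mod_eq_of_lt hj] at h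
    exact hp.inj i j (by omega) (by omega) h
  have hfe : ∀ i, i < k → e i ≠ f := by
    intro i hi h
    have h1 := hp.ends i hi
    rw [h, hc] at h1
    have h2 : v k ∈ s(v i, v (i + 1)) := by rw [← h1]; exact Sym2.mem_mk_left _ _
    rw [Sym2.mem_iff] at h2
    rcases h2 with h2 | h2
    · have := hp.inj _ _ (by omega) (by omega) h2
      omega
    · have := hp.inj _ _ (by omega) (by omega) h2
      have h3 : i = k - 1 := by omega
      rw [h3] at h
      exact hfne h.symm
  have hinje : ∀ i j, i < n → j < n → e' i = e' j → i = j := by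
    have key : ∀ i j, i < j → j < n → e' i = e' j → False := by
      intro i j hij hj h
      have hi : i < n := by omega
      by_cases h1 : j = k
      · simp only [he', Nat.mod_eq_of_lt hi, Nat.mod_eq_of_lt hj, if_pos h1,
          if_neg (show ¬ i = k by omega)] at h
        exact hfe i (by omega) h
      · simp only [he', Nat.mod_eq_of_lt hi, Nat.mod_eq_of_lt hj, if_neg h1,
          if_neg (show ¬ i = k by omega)] at h
        have h2 := hp.ends i (by omega)
        rw [h, hp.ends j (by omega)] at h2
        have h3 : v i ∈ s(v j, v (j + 1)) := by rw [h2]; exact Sym2.mem_mk_left _ _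
        rw [Sym2.mem_iff] at h3
        rcases h3 with h3 | h3
        · have := hp.inj _ _ (by omega) (by omega) h3
          omega
        · have := hp.inj _ _ (by omega) (by omega) h3
          omega
    intro i j hi hj h
    rcases lt_trichotomy i j with h1 | h1 | h1
    · exact absurd (key i j h1 hj h) id
    · exact h1
    · exact absurd (key j i h1 hi h.symm) id
  have hends' : ∀ i a, a ∈ G.ends (e' i) → ∃ j, v' j = a := by
    intro i a ha
    rw [hW.ends, Sym2.mem_iff] at ha
    rcases ha with rfl | rfl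
    · exact ⟨i, rfl⟩
    · exact ⟨i + 1, rfl⟩
  have hall : ∀ j g, g ∈ D → v' j ∈ G.ends g → ∃ i, e' i = g := by
    intro j g hg hvg
    have h1 : v' (j + n) = v' j := hW.pv j
    have m1 := hmem' (j + n - 1)
    have m2 := hmem' (j + n)
    have e1 : v' j ∈ G.ends (e' (j + n - 1)) := by
      rw [hW.ends, show j + n - 1 + 1 = j + n by omega, h1]
      exact Sym2.mem_mk_right _ _
    have e2 : v' j ∈ G.ends (e' (j + n)) := by
      rw [hW.ends, h1]
      exact Sym2.mem_mk_left _ _
    have hne : e' (j + n - 1) ≠ e' (j + n) := by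
      intro h
      have h2 : (j + n - 1) % n = (j + n) % n := by
        rw [← hW.e_mod (j + n - 1), ← hW.e_mod (j + n)] at h
        exact hinje _ _ (hlt _) (hlt _) h
      have h3 : (j + n - 1 + 1) % n = (j + n - 1) % n := by
        rw [h2]; congr 1
      have h4 := Nat.ModEq.add_left_cancel' (j + n - 1) (show j + n - 1 + 1 ≡ j + n - 1 + 0 [MOD n] from h3)
      have h5 : (1 : ℕ) % n = 0 % n := h4
      rw [Nat.mod_eq_of_lt (show 1 < n by omega), Nat.zero_mod] at h5
      omega
    rcases eq_or_eq_of_deg_two (hD.deg_eq_two hg hvg) m1 m2 hg e1 e2 hvg hne with h | h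
    · exact ⟨_, h.symm⟩
    · exact ⟨_, h.symm⟩
  have hconn : ∀ a, G.ConnIn D (v' 0) a → ∃ j, v' j = a := by
    intro a h
    induction h with
    | refl => exact ⟨0, rfl⟩
    | tail _ hb ih =>
      obtain ⟨j, rfl⟩ := ih
      obtain ⟨g, hg, hgE⟩ := hb
      obtain ⟨i, rfl⟩ := hall j g hg (by rw [hgE]; exact Sym2.mem_mk_left _ _)
      exact hends' i _ (by rw [hgE]; exact Sym2.mem_mk_right _ _)
  refine ⟨n, v', e', ⟨hW, by omega, hinjv, hinje, fun g => ⟨fun hg => ?_, ?_⟩⟩⟩
  · obtain ⟨a, b, hab⟩ : ∃ a b, G.ends g = s(a, b) := by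
      induction h : G.ends g with
      | h a b => exact ⟨a, b, rfl⟩
    have ha : a ∈ G.ends g := by rw [hab]; exact Sym2.mem_mk_left _ _
    have h0 : v' 0 ∈ G.ends (e' 0) := by rw [hW.ends]; exact Sym2.mem_mk_left _ _
    have hc0 := hD.2.2 (v' 0) a (hD.deg_eq_two (hmem' 0) h0) (hD.deg_eq_two hg ha)
    obtain ⟨j, hj⟩ := hconn a hc0
    obtain ⟨i, hi⟩ := hall j g hg (by rw [hj]; exact ha)
    exact ⟨i % n, hlt i, by rw [hW.e_mod, hi]⟩
  · rintro ⟨i, _, rfl⟩
    exact hmem' i

end circuit

end MGraph

end Pool.GOD
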