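import Pool.Agent.GOD.StmtG

/-!
The case `n = 5`: the permutation graph is the Petersen graph.
-/

set_option autoImplicit false
set_option linter.unusedSectionVars false

namespace Pool.GOD

namespace MGraph

namespace FiveX

/-- vertices of the Petersen graph -/
def gV : ZMod 5 ⊕ ZMod 5 → Fin 10
  | Sum.inl i => ![0, 1, 2, 3, 4] (i : Fin 5)
  | Sum.inr i => ![5, 6, 7, 8, 9] (i : Fin 5)

/-- edges of the Petersen graph -/
def gE : ZMod 5 ⊕ (ZMod 5 ⊕ ZMod 5) → Fin 15
  | Sum.inl i => ![0, 1, 2, 3, 4] (i : Fin 5)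
  | Sum.inr (Sum.inl i) => ![5, 6, 7, 8, 9] (i : Fin 5)
  | Sum.inr (Sum.inr i) => ![10, 11, 12, 13, 14] (i : Fin 5)

theorem gV_bij : Function.Bijective gV := by decide

theorem gE_inj : Function.Injective gE := by decide

theorem gE_surj : Function.Surjective gE := by decide

theorem gE_p : ∀ i : ZMod 5, P10.ends (gE (Sum.inl i)) = s(gV (Sum.inl i), gV (Sum.inl (i + 1))) := by
  decide

theorem gE_m : ∀ i : ZMod 5,
    P10.ends (gE (Sum.inr (Sum.inl i))) = s(gV (Sum.inl i), gV (Sum.inr i)) := by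
  decide

theorem gE_q : ∀ i : ZMod 5,
    P10.ends (gE (Sum.inr (Sum.inr i))) = s(gV (Sum.inr i), gV (Sum.inr (i + 2))) := by
  decide

theorem w_p : ∀ i : ZMod 5, w10 (gE (Sum.inl i)) = 1 := by decide

theorem w_m : ∀ i : ZMod 5, w10 (gE (Sum.inr (Sum.inl i))) = 2 := by decide

theorem w_q : ∀ i : ZMod 5, w10 (gE (Sum.inr (Sum.inr i))) = 1 := by decide

theorem two_or : ∀ d : ZMod 5, d ≠ 0 → d ≠ 1 → d ≠ -1 → d = 2 ∨ d = 3 := by decide

/-- the permutation is `2 i + c` or `- 2 i + c` -/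
theorem perm_form (π : Equiv.Perm (ZMod 5)) (h : ∀ i, π (i + 1) ≠ π i + 1 ∧ π (i + 1) ≠ π i - 1) :
    (∀ i, π (i + 1) = π i + 2) ∨ ∀ i, π (i + 1) = π i + 3 := by
  have h1 : ∀ i, π (i + 1) = π i + 2 ∨ π (i + 1) = π i + 3 := by
    intro i
    have h0 : π (i + 1) - π i ≠ 0 := by
      intro h2
      have h3 : i + 1 = i := π.injective (sub_eq_zero.1 h2)
      have h4 : (1 : ZMod 5) = 0 := by linear_combination h3
      exact absurd h4 (by decide)
    have h2 : π (i + 1) - π i ≠ 1 := fun h3 => (h i).1 (by linear_combination h3)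
    have h3 : π (i + 1) - π i ≠ -1 := fun h3 => (h i).2 (by linear_combination h3)
    rcases two_or _ h0 h2 h3 with h4 | h4
    · exact Or.inl (by linear_combination h4)
    · exact Or.inr (by linear_combination h4)
  have e1 : (0 : ZMod 5) + 1 = 1 := by decide
  have e2 : (1 : ZMod 5) + 1 = 2 := by decide
  have e3 : (2 : ZMod 5) + 1 = 3 := by decide
  have e4 : (3 : ZMod 5) + 1 = 4 := by decide
  have e5 : (4 : ZMod 5) + 1 = 0 := by decide
  have a0 := h1 0
  have a1 := h1 1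
  have a2 := h1 2
  have a3 := h1 3
  have a4 := h1 4
  rw [e1] at a0
  rw [e2] at a1
  rw [e3] at a2
  rw [e4] at a3
  rw [e5] at a4
  have hall : ∀ P : ZMod 5 → Prop, P 0 → P 1 → P 2 → P 3 → P 4 → ∀ i, P i := by
    intro P p0 p1 p2 p3 p4 i
    have hi : i = 0 ∨ i = 1 ∨ i = 2 ∨ i = 3 ∨ i = 4 := by
      revert i
      decide
    rcases hi with rfl | rfl | rfl | rfl | rfl <;> assumption
  have key : ∀ c0 c1 c2 c3 c4 d0 d1 d2 d3 d4 : ZMod 5, c1 = c0 + d0 → c2 = c1 + d1 →
      c3 = c2 + d2 → c4 = c3 + d3 → c0 = c4 + d4 → d0 + d1 + d2 + d3 + d4 = 0 := by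
    intro c0 c1 c2 c3 c4 d0 d1 d2 d3 d4 k0 k1 k2 k3 k4
    linear_combination -k0 - k1 - k2 - k3 - k4
  rcases a0 with a0 | a0 <;> rcases a1 with a1 | a1 <;> rcases a2 with a2 | a2 <;>
    rcases a3 with a3 | a3 <;> rcases a4 with a4 | a4 <;>
    first
    | (left
       refine hall _ ?_ ?_ ?_ ?_ ?_
       · rw [e1]; exact a0
       · rw [e2]; exact a1
       · rw [e3]; exact a2
       · rw [e4]; exact a3
       · rw [e5]; exact a4)
    | (right
       refine hall _ ?_ ?_ ?_ ?_ ?_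
       · rw [e1]; exact a0
       · rw [e2]; exact a1
       · rw [e3]; exact a2
       · rw [e4]; exact a3
       · rw [e5]; exact a4)
    | exact absurd (key _ _ _ _ _ _ _ _ _ _ a0 a1 a2 a3 a4) (by decide)

section

variable {V E : Type} [Fintype V] [DecidableEq V] [Fintype E] [DecidableEq E] {G : MGraph V E}
  {w : E → ℕ} {a b : ZMod 5 → V} {p q m : ZMod 5 → E} {π : Equiv.Perm (ZMod 5)}

/-- the inner edges -/
theorem exists_sigma (hd : G.PermData w 5 a b p q m π)
    (h : ∀ i, π (i + 1) ≠ π i + 1 ∧ π (i + 1) ≠ π i - 1) :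
    ∃ σ : Equiv.Perm (ZMod 5), ∀ i, G.ends (q (σ i)) = s(b (π i), b (π (i + 2))) := by
  have five : (5 : ZMod 5) = 0 := by decide
  rcases perm_form π h with h1 | h1
  · refine ⟨(Equiv.addRight (2 : ZMod 5)).trans π, fun i => ?_⟩
    have h2 : π (i + 2) + 1 = π i := by
      have k1 := h1 i
      have k2 := h1 (i + 1)
      have e : i + 1 + 1 = i + 2 := by ring
      rw [e] at k2
      linear_combination k1 + k2 + five
    have h3 : ((Equiv.addRight (2 : ZMod 5)).trans π) i = π (i + 2) := rfl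
    rw [h3, hd.endq, h2, Sym2.eq_swap]
  · refine ⟨π, fun i => ?_⟩
    have h2 : π (i + 2) = π i + 1 := by
      have k1 := h1 i
      have k2 := h1 (i + 1)
      have e : i + 1 + 1 = i + 2 := by ring
      rw [e] at k2
      linear_combination k1 + k2 + five
    rw [hd.endq, h2]

/-- vertices of `G` -/
def fV (a b : ZMod 5 → V) (π : Equiv.Perm (ZMod 5)) : ZMod 5 ⊕ ZMod 5 → V
  | Sum.inl i => a i
  | Sum.inr i => b (π i)

/-- edges of `G` -/
def fE (p q m : ZMod 5 → E) (σ : Equiv.Perm (ZMod 5)) : ZMod 5 ⊕ (ZMod 5 ⊕ ZMod 5) → E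
  | Sum.inl i => p i
  | Sum.inr (Sum.inl i) => m i
  | Sum.inr (Sum.inr i) => q (σ i)

theorem fV_bij (hd : G.PermData w 5 a b p q m π) : Function.Bijective (fV a b π) := by
  constructor
  · rintro (i | i) (j | j) h
    · exact congrArg Sum.inl (hd.inja h)
    · exact absurd h (hd.disj i (π j))
    · exact absurd h.symm (hd.disj j (π i))
    · exact congrArg Sum.inr (π.injective (hd.injb h))
  · intro v
    rcases hd.surj v with ⟨i, rfl⟩ | ⟨i, rfl⟩
    · exact ⟨Sum.inl i, rfl⟩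
    · exact ⟨Sum.inr (π.symm i), congrArg b (π.apply_symm_apply i)⟩

theorem p_inj (hd : G.PermData w 5 a b p q m π) : Function.Injective p := by
  intro i j h
  have h1 := hd.endp i
  rw [h, hd.endp j, Sym2.eq_iff] at h1
  rcases h1 with ⟨h2, -⟩ | ⟨h2, h3⟩
  · exact (hd.inja h2).symm
  · have k1 := hd.inja h2
    have k2 := hd.inja h3
    have k3 : (2 : ZMod 5) = 0 := by linear_combination k2 - k1
    exact absurd k3 (by decide)

theorem q_inj (hd : G.PermData w 5 a b p q m π) : Function.Injective q := by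
  intro i j h
  have h1 := hd.endq i
  rw [h, hd.endq j, Sym2.eq_iff] at h1
  rcases h1 with ⟨h2, -⟩ | ⟨h2, h3⟩
  · exact (hd.injb h2).symm
  · have k1 := hd.injb h2
    have k2 := hd.injb h3
    have k3 : (2 : ZMod 5) = 0 := by linear_combination k2 - k1
    exact absurd k3 (by decide)

theorem m_inj (hd : G.PermData w 5 a b p q m π) : Function.Injective m := by
  intro i j h
  have h1 := hd.endm i
  rw [h, hd.endm j, Sym2.eq_iff] at h1
  rcases h1 with ⟨h2, -⟩ | ⟨h2, -⟩
  · exact (hd.inja h2).symm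
  · exact absurd h2 (hd.disj _ _)

theorem p_ne_q (hd : G.PermData w 5 a b p q m π) (i j : ZMod 5) : p i ≠ q j := by
  intro h
  have h1 := hd.endp i
  rw [h, hd.endq j, Sym2.eq_iff] at h1
  rcases h1 with ⟨h2, -⟩ | ⟨h2, -⟩
  · exact hd.disj _ _ h2.symm
  · exact hd.disj _ _ h2.symm

theorem fE_bij (hd : G.PermData w 5 a b p q m π) (σ : Equiv.Perm (ZMod 5)) :
    Function.Bijective (fE p q m σ) := by
  have hpm : ∀ i j, p i ≠ m j := by
    intro i j h
    have h1 := hd.wp i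
    rw [h, hd.wm] at h1
    omega
  have hqm : ∀ i j, q i ≠ m j := by
    intro i j h
    have h1 := hd.wq i
    rw [h, hd.wm] at h1
    omega
  constructor
  · rintro (i | i | i) (j | j | j) h
    · exact congrArg Sum.inl (p_inj hd h)
    · exact absurd h (hpm i j)
    · exact absurd h (p_ne_q hd i (σ j))
    · exact absurd h.symm (hpm j i)
    · exact congrArg (fun x => Sum.inr (Sum.inl x)) (m_inj hd h)
    · exact absurd h.symm (hqm (σ j) i)
    · exact absurd h.symm (p_ne_q hd j (σ i))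
    · exact absurd h (hqm (σ i) j)
    · exact congrArg (fun x => Sum.inr (Sum.inr x)) (σ.injective (q_inj hd h))
  · intro e
    rcases hd.surjE e with ⟨i, rfl⟩ | ⟨i, rfl⟩ | ⟨i, rfl⟩
    · exact ⟨Sum.inl i, rfl⟩
    · exact ⟨Sum.inr (Sum.inr (σ.symm i)), congrArg q (σ.apply_symm_apply i)⟩
    · exact ⟨Sum.inr (Sum.inl i), rfl⟩

end

end FiveX

open FiveX

theorem t_Five : Stmt_Five := by
  intro V E _ _ _ _ G w a b p q m π hd h
  obtain ⟨σ, hσ⟩ := exists_sigma hd h
  let F := Equiv.ofBijective _ (fV_bij hd)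
  let FE := Equiv.ofBijective _ (fE_bij hd σ)
  let φ : V ≃ Fin 10 := F.symm.trans (Equiv.ofBijective _ gV_bij)
  let ψ : E ≃ Fin 15 := FE.symm.trans (Equiv.ofBijective _ ⟨gE_inj, gE_surj⟩)
  have hφ : ∀ x, φ (fV a b π x) = gV x := by
    intro x
    change gV (F.symm (F x)) = gV x
    rw [F.symm_apply_apply]
  have hψ : ∀ x, ψ (fE p q m σ x) = gE x := by
    intro x
    change gE (FE.symm (FE x)) = gE x
    rw [FE.symm_apply_apply]
  have hsurj : ∀ e, ∃ x, e = fE p q m σ x := by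
    intro e
    obtain ⟨x, hx⟩ := (fE_bij hd σ).2 e
    exact ⟨x, hx.symm⟩
  refine ⟨φ, ψ, fun e => ?_, fun e => ?_⟩
  · obtain ⟨x, rfl⟩ := hsurj e
    rw [hψ]
    rcases x with i | i | i
    · have e1 : G.ends (fE p q m σ (Sum.inl i)) =
          s(fV a b π (Sum.inl i), fV a b π (Sum.inl (i + 1))) := hd.endp i
      rw [e1, Sym2.map_mk, hφ, hφ, gE_p]
    · have e1 : G.ends (fE p q m σ (Sum.inr (Sum.inl i))) =
          s(fV a b π (Sum.inl i), fV a b π (Sum.inr i)) := hd.endm i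
      rw [e1, Sym2.map_mk, hφ, hφ, gE_m]
    · have e1 : G.ends (fE p q m σ (Sum.inr (Sum.inr i))) =
          s(fV a b π (Sum.inr i), fV a b π (Sum.inr (i + 2))) := hσ i
      rw [e1, Sym2.map_mk, hφ, hφ, gE_q]
  · obtain ⟨x, rfl⟩ := hsurj e
    rw [hψ]
    rcases x with i | i | i
    · rw [w_p]
      exact (hd.wp i).symm
    · rw [w_m]
      exact (hd.wm i).symm
    · rw [w_q]
      exact (hd.wq (σ i)).symm

end MGraph

end Pool.GOD
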