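import Pool.Agent.GOD.StmtG

/-!
Invariance of minimal contra pairs under isomorphism of weighted multigraphs.
-/

set_option autoImplicit false
set_option linter.unusedSectionVars false

namespace Pool.GOD

namespace MGraph

namespace IsoX

variable {V E V' E' : Type*} [Fintype V] [DecidableEq V] [Fintype E] [DecidableEq E]
  [Fintype V'] [DecidableEq V'] [Fintype E'] [DecidableEq E']
  {G : MGraph V E} {G' : MGraph V' E'} {φ : V ≃ V'} {ψ : E ≃ E'}

/-- `(φ, ψ)` is an isomorphism of multigraphs. -/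
def IsoD (G : MGraph V E) (G' : MGraph V' E') (φ : V ≃ V') (ψ : E ≃ E') : Prop :=
  ∀ e, G'.ends (ψ e) = (G.ends e).map φ

/-- The image of an edge set. -/
def im (ψ : E ≃ E') (X : Finset E) : Finset E' := X.map ψ.toEmbedding

lemma mem_im' {X : Finset E} {e : E'} : e ∈ im ψ X ↔ ψ.symm e ∈ X := by
  simp only [im, Finset.mem_map, Equiv.coe_toEmbedding]
  constructor
  · rintro ⟨a, ha, rfl⟩
    simpa using ha
  · intro h
    exact ⟨_, h, by simp⟩

lemma mem_im {X : Finset E} {e : E} : ψ e ∈ im ψ X ↔ e ∈ X := by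
  rw [mem_im', Equiv.symm_apply_apply]

lemma im_symm_im (X : Finset E) : im ψ.symm (im ψ X) = X := by
  ext e
  rw [mem_im', mem_im']
  simp

lemma im_im_symm (X : Finset E') : im ψ (im ψ.symm X) = X := by
  ext e
  rw [mem_im', mem_im']
  simp

lemma im_card (X : Finset E) : (im ψ X).card = X.card := Finset.card_map _

lemma im_erase (X : Finset E) (e : E) : im ψ (X.erase e) = (im ψ X).erase (ψ e) := by
  ext f
  rw [mem_im', Finset.mem_erase, Finset.mem_erase, mem_im']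
  constructor
  · rintro ⟨h1, h2⟩
    refine ⟨fun h => h1 ?_, h2⟩
    rw [h, Equiv.symm_apply_apply]
  · rintro ⟨h1, h2⟩
    refine ⟨fun h => h1 ?_, h2⟩
    rw [← h, Equiv.apply_symm_apply]

lemma im_univ : im ψ (Finset.univ : Finset E) = Finset.univ := by
  ext f
  rw [mem_im']
  simp

lemma im_inter (X Y : Finset E) : im ψ (X ∩ Y) = im ψ X ∩ im ψ Y := by
  ext f
  rw [mem_im', Finset.mem_inter, Finset.mem_inter, mem_im', mem_im']

lemma im_subset {X Y : Finset E} (h : X ⊆ Y) : im ψ X ⊆ im ψ Y := by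
  intro e he
  rw [mem_im'] at he ⊢
  exact h he

lemma IsoD.symm (h : IsoD G G' φ ψ) : IsoD G' G φ.symm ψ.symm := by
  intro e
  have h1 := h (ψ.symm e)
  rw [Equiv.apply_symm_apply] at h1
  rw [h1, Sym2.map_map]
  have h2 : (φ.symm ∘ φ : V → V) = id := by
    funext x
    simp
  rw [h2, Sym2.map_id, id]

lemma IsoD.ends (h : IsoD G G' φ ψ) {e : E} {a b : V} (he : G.ends e = s(a, b)) :
    G'.ends (ψ e) = s(φ a, φ b) := by
  rw [h e, he, Sym2.map_mk]

lemma IsoD.mem (h : IsoD G G' φ ψ) (e : E) (v : V) : φ v ∈ G'.ends (ψ e) ↔ v ∈ G.ends e := by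
  obtain ⟨a, b, -, hab⟩ := G.exists_ends e
  rw [h.ends hab, hab, Sym2.mem_iff, Sym2.mem_iff, φ.injective.eq_iff, φ.injective.eq_iff]

lemma IsoD.deg (h : IsoD G G' φ ψ) (X : Finset E) (v : V) :
    G'.deg (im ψ X) (φ v) = G.deg X v := by
  unfold MGraph.deg
  rw [← im_card (ψ := ψ)]
  congr 1
  ext e
  rw [Finset.mem_filter, mem_im', mem_im', Finset.mem_filter]
  have h1 := h.mem (ψ.symm e) v
  rw [Equiv.apply_symm_apply] at h1
  rw [h1]

lemma IsoD.deg' (h : IsoD G G' φ ψ) (X : Finset E) (v : V') :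
    G'.deg (im ψ X) v = G.deg X (φ.symm v) := by
  rw [← h.deg, Equiv.apply_symm_apply]

lemma IsoD.adj (h : IsoD G G' φ ψ) {X : Finset E} {a b : V} (hab : G.AdjIn X a b) :
    G'.AdjIn (im ψ X) (φ a) (φ b) := by
  obtain ⟨e, he, h1⟩ := hab
  exact ⟨ψ e, mem_im.mpr he, h.ends h1⟩

lemma IsoD.conn (h : IsoD G G' φ ψ) {X : Finset E} {a b : V} (hab : G.ConnIn X a b) :
    G'.ConnIn (im ψ X) (φ a) (φ b) := by
  induction hab with
  | refl => exact ConnIn.refl _ _
  | tail _ h2 ih => exact ih.trans (Relation.ReflTransGen.single (h.adj h2))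

lemma IsoD.conn_iff (h : IsoD G G' φ ψ) {X : Finset E} {a b : V} :
    G'.ConnIn (im ψ X) (φ a) (φ b) ↔ G.ConnIn X a b := by
  refine ⟨fun h1 => ?_, h.conn⟩
  have h2 := h.symm.conn h1
  rw [im_symm_im, Equiv.symm_apply_apply, Equiv.symm_apply_apply] at h2
  exact h2

lemma IsoD.circ (h : IsoD G G' φ ψ) {X : Finset E} (hX : G.IsCircuit X) :
    G'.IsCircuit (im ψ X) := by
  obtain ⟨⟨e, he⟩, h2, h3⟩ := hX
  refine ⟨⟨ψ e, mem_im.mpr he⟩, fun v => ?_, fun a b ha hb => ?_⟩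
  · rw [h.deg']
    exact h2 _
  · rw [h.deg'] at ha hb
    have h4 := h.conn (h3 _ _ ha hb)
    rwa [Equiv.apply_symm_apply, Equiv.apply_symm_apply] at h4

lemma IsoD.bridge (h : IsoD G G' φ ψ) {X : Finset E} {e : E} (hX : G.IsBridge X e) :
    G'.IsBridge (im ψ X) (ψ e) := by
  obtain ⟨h1, h2⟩ := hX
  refine ⟨mem_im.mpr h1, fun a b hab hc => ?_⟩
  have h3 := h.symm.ends hab
  rw [Equiv.symm_apply_apply] at h3
  apply h2 _ _ h3
  rw [← im_erase] at hc
  have h4 := h.symm.conn hc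
  rwa [im_symm_im] at h4

lemma IsoD.bridgeless (h : IsoD G G' φ ψ) {X : Finset E} (hX : G.Bridgeless X) :
    G'.Bridgeless (im ψ X) := by
  intro e he
  have h1 := h.symm.bridge he
  rw [im_symm_im] at h1
  exact hX _ h1

lemma IsoD.bridgeless_iff (h : IsoD G G' φ ψ) {X : Finset E} :
    G'.Bridgeless (im ψ X) ↔ G.Bridgeless X := by
  refine ⟨fun h1 => ?_, h.bridgeless⟩
  have h2 := h.symm.bridgeless h1
  rwa [im_symm_im] at h2

lemma IsoD.cubic (h : IsoD G G' φ ψ) (hG : G.Cubic) : G'.Cubic := by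
  intro v
  have h1 := h.deg' Finset.univ v
  rw [im_univ] at h1
  rw [h1]
  exact hG _

lemma IsoD.eul (h : IsoD G G' φ ψ) {w : E → ℕ} {w' : E' → ℕ} (hw : ∀ e, w' (ψ e) = w e)
    {X : Finset E} (hX : G.IsEul X w) : G'.IsEul (im ψ X) w' := by
  rw [isEul_iff] at hX ⊢
  obtain ⟨h1, h2⟩ := hX
  refine ⟨fun e he => ?_, fun v => ?_⟩
  · have h3 := h1 _ (mem_im'.mp he)
    rw [← hw, Equiv.apply_symm_apply] at h3
    exact h3
  · have h3 := h2 (φ.symm v)
    have h4 : (im ψ X).filter (fun e => v ∈ G'.ends e) =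
        (X.filter (fun e => φ.symm v ∈ G.ends e)).map ψ.toEmbedding := by
      change _ = im ψ _
      ext e
      rw [Finset.mem_filter, mem_im', mem_im', Finset.mem_filter]
      have h5 := h.mem (ψ.symm e) (φ.symm v)
      rw [Equiv.apply_symm_apply, Equiv.apply_symm_apply] at h5
      rw [h5]
    rw [h4, Finset.sum_map]
    simpa [hw] using h3

lemma IsoD.cover (h : IsoD G G' φ ψ) {w : E → ℕ} {w' : E' → ℕ} (hw : ∀ e, w' (ψ e) = w e)
    {X : Finset E} (hX : G.HasCover X w) : G'.HasCover (im ψ X) w' := by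
  obtain ⟨L, h1, h2⟩ := hX
  refine ⟨L.map (im ψ), ?_, ?_⟩
  · intro D hD
    rw [List.mem_map] at hD
    obtain ⟨D0, h3, rfl⟩ := hD
    exact ⟨h.circ (h1 _ h3).1, im_subset (h1 _ h3).2⟩
  · intro e he
    rw [mem_im'] at he
    have h3 := h2 _ he
    rw [← hw, Equiv.apply_symm_apply] at h3
    rw [List.countP_map, ← h3]
    congr 1
    funext D
    simp [mem_im']

lemma IsoD.cover_iff (h : IsoD G G' φ ψ) {w : E → ℕ} {w' : E' → ℕ}
    (hw : ∀ e, w' (ψ e) = w e) {X : Finset E} :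
    G'.HasCover (im ψ X) w' ↔ G.HasCover X w := by
  refine ⟨fun h1 => ?_, h.cover hw⟩
  have hw' : ∀ e, w (ψ.symm e) = w' e := by
    intro e
    rw [← hw, Equiv.apply_symm_apply]
  have h2 := h.symm.cover hw' h1
  rwa [im_symm_im] at h2

lemma IsoD.removable (h : IsoD G G' φ ψ) {w : E → ℕ} {w' : E' → ℕ}
    (hw : ∀ e, w' (ψ e) = w e) {X D : Finset E} (hX : G.IsRemovable X w D) :
    G'.IsRemovable (im ψ X) w' (im ψ D) := by
  obtain ⟨h1, h2, h3, h4⟩ := hX
  have hc : ∀ e, chi (im ψ D) (ψ e) = chi D e := by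
    intro e
    unfold chi
    simp only [mem_im]
  have h5 : (im ψ X).filter (fun e => 0 < w' e - chi (im ψ D) e) =
      im ψ (X.filter (fun e => 0 < w e - chi D e)) := by
    ext e
    rw [Finset.mem_filter, mem_im', mem_im', Finset.mem_filter, ← hw (ψ.symm e),
      ← hc (ψ.symm e), Equiv.apply_symm_apply]
  refine ⟨h.circ h1, im_subset h2, ?_, ?_⟩
  · rw [h5]
    refine h.eul ?_ h3
    intro e
    rw [hw, hc]
  · rw [h5]
    exact h.bridgeless h4

theorem minContra (h : IsoD G G' φ ψ) {w : E → ℕ} {w' : E' → ℕ}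
    (hw : ∀ e, w' (ψ e) = w e) (hG : G.MinContra w) : G'.MinContra w' := by
  obtain ⟨h1, h2, ⟨h3, h4⟩, h5, h6⟩ := hG
  have hw' : ∀ e, w (ψ.symm e) = w' e := by
    intro e
    rw [← hw, Equiv.apply_symm_apply]
  refine ⟨h.cubic h1, ?_, ⟨?_, ?_⟩, ?_, ?_⟩
  · have h7 := h.eul hw h2
    rwa [im_univ] at h7
  · have h7 := h.bridgeless h3
    rwa [im_univ] at h7
  · intro h7
    rw [← im_univ (ψ := ψ), h.cover_iff hw] at h7
    exact h4 h7
  · intro D hD
    have h7 := h.symm.removable hw' hD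
    rw [im_univ] at h7
    exact h5 _ h7
  · intro e he
    have h7 := h.cover hw (h6 (ψ.symm e) (by rw [hw', he]))
    rwa [im_erase, im_univ, Equiv.apply_symm_apply] at h7

end IsoX

/-- Minimal contra pairs are invariant under isomorphism. -/
theorem t_Iso : Stmt_Iso := by
  intro V E V' E' _ _ _ _ _ _ _ _ G w G' w' hI hG
  obtain ⟨φ, ψ, h1, h2⟩ := hI
  have h : IsoX.IsoD G G' φ ψ := h1
  refine IsoX.minContra h.symm ?_ hG
  intro e
  rw [← h2, Equiv.apply_symm_apply]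

end MGraph

end Pool.GOD
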