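import Pool.Agent.GOD.Alt

/-!
The weighted Petersen graph is a minimal contra pair (`Stmt_P10`).
-/

set_option autoImplicit false
set_option linter.unusedSectionVars false

namespace Pool.GOD

namespace MGraph

namespace P10X

instance (D : Finset (Fin 15)) (a b : Fin 10) : Decidable (P10.AdjIn D a b) :=
  inferInstanceAs (Decidable (∃ e ∈ D, P10.ends e = s(a, b)))

lemma conn_of_chain (D : Finset (Fin 15)) : ∀ (l : List (Fin 10)) (a : Fin 10),
    List.IsChain (P10.AdjIn D) (a :: l) → ∀ b ∈ a :: l, P10.ConnIn D a b := by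
  intro l
  induction l with
  | nil =>
    intro a _ b hb
    rw [List.mem_singleton] at hb
    subst hb
    exact ConnIn.refl D b
  | cons c l ih =>
    intro a h b hb
    rw [List.isChain_cons_cons] at h
    rcases List.mem_cons.mp hb with rfl | hb
    · exact ConnIn.refl D b
    · exact ConnIn.trans (Relation.ReflTransGen.single h.1) (ih c h.2 b hb)

lemma isCircuit_of (D : Finset (Fin 15)) (a : Fin 10) (l : List (Fin 10)) (h1 : D.Nonempty)
    (h2 : ∀ v, P10.deg D v = 0 ∨ P10.deg D v = 2) (h3 : ∀ v, P10.deg D v = 2 → v ∈ a :: l)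
    (h4 : List.IsChain (P10.AdjIn D) (a :: l)) : P10.IsCircuit D := by
  refine ⟨h1, h2, ?_⟩
  intro x y hx hy
  exact (conn_of_chain D l a h4 x (h3 x hx)).symm.trans (conn_of_chain D l a h4 y (h3 y hy))

/-- Incident edges of the vertices. -/
def inc : Fin 10 → Fin 15 × Fin 15 × Fin 15 :=
  ![(4, 0, 5), (0, 1, 6), (1, 2, 7), (2, 3, 8), (3, 4, 9), (13, 10, 5), (14, 11, 6), (10, 12, 7),
    (11, 13, 8), (12, 14, 9)]

lemma inc_eq (v : Fin 10) : Finset.univ.filter (fun e => v ∈ P10.ends e) =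
    {(inc v).1, (inc v).2.1, (inc v).2.2} := by
  revert v
  decide

lemma inc_ne (v : Fin 10) : (inc v).1 ≠ (inc v).2.1 ∧ (inc v).1 ≠ (inc v).2.2 ∧
    (inc v).2.1 ≠ (inc v).2.2 ∧ w10 (inc v).1 = 1 ∧ w10 (inc v).2.1 = 1 ∧
    w10 (inc v).2.2 = 2 := by
  revert v
  decide

lemma deg_eq (D : Finset (Fin 15)) (v : Fin 10) :
    P10.deg D v = chi D (inc v).1 + (chi D (inc v).2.1 + chi D (inc v).2.2) := by
  have h1 : P10.deg D v = ∑ e ∈ Finset.univ.filter (fun e => v ∈ P10.ends e), chi D e := by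
    unfold deg chi
    rw [Finset.card_filter, Finset.sum_filter]
    rw [← Finset.sum_filter_add_sum_filter_not Finset.univ (fun e => e ∈ D)]
    have h2 : ∑ x ∈ Finset.univ.filter (fun x => x ∉ D),
        (if v ∈ P10.ends x then (if x ∈ D then 1 else 0) else 0) = 0 := by
      apply Finset.sum_eq_zero
      intro x hx
      rw [Finset.mem_filter] at hx
      rw [if_neg hx.2, ite_self]
    rw [h2, add_zero]
    have h3 : Finset.univ.filter (fun e => e ∈ D) = D := by
      ext x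
      simp
    rw [h3]
    apply Finset.sum_congr rfl
    intro x hx
    rw [if_pos hx]
  rw [h1, inc_eq]
  obtain ⟨h2, h3, h4, -⟩ := inc_ne v
  rw [Finset.sum_insert, Finset.sum_insert, Finset.sum_singleton]
  · rw [Finset.mem_singleton]
    exact h4
  · rw [Finset.mem_insert, Finset.mem_singleton]
    rintro (h | h)
    · exact h2 h
    · exact h3 h

lemma vert {D : Finset (Fin 15)} (h : P10.IsAlt w10 D) (v : Fin 10) :
    chi D (inc v).1 + chi D (inc v).2.1 = chi D (inc v).2.2 := by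
  have h1 := h.1.2.1 v
  have h2 := h.2 v
  have h3 := deg_eq D v
  have h4 := deg_eq (D ∩ two w10) v
  obtain ⟨-, -, -, h5, h6, h7⟩ := inc_ne v
  have h8 : chi (D ∩ two w10) (inc v).1 = 0 := by
    unfold chi
    rw [if_neg]
    rw [Finset.mem_inter, AltX.mem_two]
    rintro ⟨-, hh⟩
    omega
  have h9 : chi (D ∩ two w10) (inc v).2.1 = 0 := by
    unfold chi
    rw [if_neg]
    rw [Finset.mem_inter, AltX.mem_two]
    rintro ⟨-, hh⟩
    omega
  have h10 : chi (D ∩ two w10) (inc v).2.2 = chi D (inc v).2.2 := by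
    unfold chi
    by_cases hD : (inc v).2.2 ∈ D
    · rw [if_pos hD, if_pos]
      rw [Finset.mem_inter, AltX.mem_two]
      exact ⟨hD, h7⟩
    · rw [if_neg hD, if_neg]
      rw [Finset.mem_inter]
      exact fun hh => hD hh.1
  rw [h8, h9, h10] at h4
  rcases h1 with h1 | h1
  · omega
  · have := h2 h1
    omega

lemma chi_le (D : Finset (Fin 15)) (e : Fin 15) : chi D e ≤ 1 := by
  unfold chi
  split_ifs <;> omega

/-- Elementary arithmetic: the solutions of the vertex equations. -/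
lemma arith (r0 r1 r2 r3 r4 q0 q1 q2 q3 q4 : ℕ) (a0 : r4 + r0 ≤ 1) (a1 : r0 + r1 ≤ 1)
    (a2 : r1 + r2 ≤ 1) (a3 : r2 + r3 ≤ 1) (a4 : r3 + r4 ≤ 1) (e0 : q3 + q0 = r4 + r0)
    (e1 : q4 + q1 = r0 + r1) (e2 : q0 + q2 = r1 + r2) (e3 : q1 + q3 = r2 + r3)
    (e4 : q2 + q4 = r3 + r4) (hne : r0 + r1 + r2 + r3 + r4 ≠ 0) :
    (r1 = 1 ∧ r3 = 1 ∧ q1 = 1 ∧ q2 = 1) ∨ (r2 = 1 ∧ r4 = 1 ∧ q2 = 1 ∧ q3 = 1) ∨
    (r3 = 1 ∧ r0 = 1 ∧ q3 = 1 ∧ q4 = 1) ∨ (r4 = 1 ∧ r1 = 1 ∧ q4 = 1 ∧ q0 = 1) ∨
    (r0 = 1 ∧ r2 = 1 ∧ q0 = 1 ∧ q1 = 1) := by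
  have h0 : r0 = 0 ∨ r0 = 1 := by omega
  have h1 : r1 = 0 ∨ r1 = 1 := by omega
  have h2 : r2 = 0 ∨ r2 = 1 := by omega
  have h3 : r3 = 0 ∨ r3 = 1 := by omega
  have h4 : r4 = 0 ∨ r4 = 1 := by omega
  rcases h0 with rfl | rfl <;> rcases h1 with rfl | rfl <;> rcases h2 with rfl | rfl <;>
    rcases h3 with rfl | rfl <;> rcases h4 with rfl | rfl <;>
    first
    | (exfalso; omega)
    | (left; exact ⟨by omega, by omega, by omega, by omega⟩)
    | (right; left; exact ⟨by omega, by omega, by omega, by omega⟩)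
    | (right; right; left; exact ⟨by omega, by omega, by omega, by omega⟩)
    | (right; right; right; left; exact ⟨by omega, by omega, by omega, by omega⟩)
    | (right; right; right; right; exact ⟨by omega, by omega, by omega, by omega⟩)

/-- The alternating circuits of `(P10, w10)`. -/
lemma alt_cases {D : Finset (Fin 15)} (h : P10.IsAlt w10 D) :
    (chi D 5 = 0 ∧ chi D 6 = 1 ∧ chi D 7 = 1 ∧ chi D 8 = 1 ∧ chi D 9 = 1 ∧ chi D 1 = 1 ∧
      chi D 3 = 1 ∧ chi D 11 = 1 ∧ chi D 12 = 1) ∨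
    (chi D 6 = 0 ∧ chi D 5 = 1 ∧ chi D 7 = 1 ∧ chi D 8 = 1 ∧ chi D 9 = 1 ∧ chi D 2 = 1 ∧
      chi D 4 = 1 ∧ chi D 12 = 1 ∧ chi D 13 = 1) ∨
    (chi D 7 = 0 ∧ chi D 5 = 1 ∧ chi D 6 = 1 ∧ chi D 8 = 1 ∧ chi D 9 = 1 ∧ chi D 3 = 1 ∧
      chi D 0 = 1 ∧ chi D 13 = 1 ∧ chi D 14 = 1) ∨
    (chi D 8 = 0 ∧ chi D 5 = 1 ∧ chi D 6 = 1 ∧ chi D 7 = 1 ∧ chi D 9 = 1 ∧ chi D 4 = 1 ∧
      chi D 1 = 1 ∧ chi D 14 = 1 ∧ chi D 10 = 1) ∨
    (chi D 9 = 0 ∧ chi D 5 = 1 ∧ chi D 6 = 1 ∧ chi D 7 = 1 ∧ chi D 8 = 1 ∧ chi D 0 = 1 ∧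
      chi D 2 = 1 ∧ chi D 10 = 1 ∧ chi D 11 = 1) := by
  have v0 := vert h 0
  have v1 := vert h 1
  have v2 := vert h 2
  have v3 := vert h 3
  have v4 := vert h 4
  have v5 := vert h 5
  have v6 := vert h 6
  have v7 := vert h 7
  have v8 := vert h 8
  have v9 := vert h 9
  have hne : ∃ e, chi D e = 1 := by
    obtain ⟨e, he⟩ := h.1.1
    exact ⟨e, by unfold chi; rw [if_pos he]⟩
  have hle := chi_le D
  have l0 := hle 0
  have l1 := hle 1
  have l2 := hle 2
  have l3 := hle 3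
  have l4 := hle 4
  have l5 := hle 5
  have l6 := hle 6
  have l7 := hle 7
  have l8 := hle 8
  have l9 := hle 9
  have l10 := hle 10
  have l11 := hle 11
  have l12 := hle 12
  have l13 := hle 13
  have l14 := hle 14
  change chi D 4 + chi D 0 = chi D 5 at v0
  change chi D 0 + chi D 1 = chi D 6 at v1
  change chi D 1 + chi D 2 = chi D 7 at v2
  change chi D 2 + chi D 3 = chi D 8 at v3
  change chi D 3 + chi D 4 = chi D 9 at v4
  change chi D 13 + chi D 10 = chi D 5 at v5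
  change chi D 14 + chi D 11 = chi D 6 at v6
  change chi D 10 + chi D 12 = chi D 7 at v7
  change chi D 11 + chi D 13 = chi D 8 at v8
  change chi D 12 + chi D 14 = chi D 9 at v9
  have hsum : chi D 0 + chi D 1 + chi D 2 + chi D 3 + chi D 4 ≠ 0 := by
    intro h0
    obtain ⟨e, he⟩ := hne
    have c0 : chi D 0 = 0 := by omega
    have c1 : chi D 1 = 0 := by omega
    have c2 : chi D 2 = 0 := by omega
    have c3 : chi D 3 = 0 := by omega
    have c4 : chi D 4 = 0 := by omega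
    have c5 : chi D 5 = 0 := by omega
    have c6 : chi D 6 = 0 := by omega
    have c7 : chi D 7 = 0 := by omega
    have c8 : chi D 8 = 0 := by omega
    have c9 : chi D 9 = 0 := by omega
    have c10 : chi D 10 = 0 := by omega
    have c11 : chi D 11 = 0 := by omega
    have c12 : chi D 12 = 0 := by omega
    have c13 : chi D 13 = 0 := by omega
    have c14 : chi D 14 = 0 := by omega
    have : chi D e = 0 := by
      fin_cases e <;> assumption
    omega
  rcases arith (chi D 0) (chi D 1) (chi D 2) (chi D 3) (chi D 4) (chi D 10) (chi D 11)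
    (chi D 12) (chi D 13) (chi D 14) (by omega) (by omega) (by omega) (by omega) (by omega)
    (by omega) (by omega) (by omega) (by omega) (by omega) hsum with
    ⟨h1, h2, h3, h4⟩ | ⟨h1, h2, h3, h4⟩ | ⟨h1, h2, h3, h4⟩ | ⟨h1, h2, h3, h4⟩ | ⟨h1, h2, h3, h4⟩
  · left
    exact ⟨by omega, by omega, by omega, by omega, by omega, h1, h2, h3, h4⟩
  · right; left
    exact ⟨by omega, by omega, by omega, by omega, by omega, h1, h2, h3, h4⟩
  · right; right; left
    exact ⟨by omega, by omega, by omega, by omega, by omega, h1, h2, h3, h4⟩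
  · right; right; right; left
    exact ⟨by omega, by omega, by omega, by omega, by omega, h1, h2, h3, h4⟩
  · right; right; right; right
    exact ⟨by omega, by omega, by omega, by omega, by omega, h1, h2, h3, h4⟩

lemma mem_of_chi {D : Finset (Fin 15)} {e : Fin 15} (h : chi D e = 1) : e ∈ D := by
  by_contra hn
  unfold chi at h
  rw [if_neg hn] at h
  omega

lemma w10_cases : ∀ e, w10 e = 1 ∨ w10 e = 2 := by decide

lemma deg_two_one : ∀ v, P10.deg (two w10) v = 1 ∧ P10.deg (one w10) v = 2 := by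
  decide

lemma countP_sum : ∀ L : List (Finset (Fin 15)),
    (∀ D ∈ L, chi D 5 + chi D 6 + chi D 7 + chi D 8 + chi D 9 = 4) →
    L.countP (fun D => decide ((5 : Fin 15) ∈ D)) + L.countP (fun D => decide ((6 : Fin 15) ∈ D)) +
    L.countP (fun D => decide ((7 : Fin 15) ∈ D)) + L.countP (fun D => decide ((8 : Fin 15) ∈ D)) +
    L.countP (fun D => decide ((9 : Fin 15) ∈ D)) = 4 * L.length := by
  intro L
  induction L with
  | nil =>
    intro _
    simp
  | cons D L ih =>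
    intro h
    have h1 := ih (fun C hC => h C (List.mem_cons_of_mem D hC))
    have h2 := h D List.mem_cons_self
    unfold chi at h2
    simp only [List.countP_cons, decide_eq_true_eq, List.length_cons]
    omega

lemma no_cover : ¬ P10.HasCover Finset.univ w10 := by
  rintro ⟨L, hL, hc⟩
  have halt := (t_Alt (Fin 10) (Fin 15) P10 w10 w10_cases deg_two_one).2 L
    (fun D hD => (hL D hD).1) (fun f => hc f (Finset.mem_univ f))
  have h := countP_sum L (fun D hD => by
    rcases alt_cases (halt D hD) with h | h | h | h | h <;> omega)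
  have c5 := hc 5 (Finset.mem_univ _)
  have c6 := hc 6 (Finset.mem_univ _)
  have c7 := hc 7 (Finset.mem_univ _)
  have c8 := hc 8 (Finset.mem_univ _)
  have c9 := hc 9 (Finset.mem_univ _)
  change _ = 2 at c5
  change _ = 2 at c6
  change _ = 2 at c7
  change _ = 2 at c8
  change _ = 2 at c9
  omega

lemma bridge_of {D : Finset (Fin 15)} (S : Finset (Fin 10)) (s a b c d : Fin 15)
    (hcut : P10.cut S = {s, a, b, c, d}) (hs : w10 s = 2) (ha : chi D a = 1) (hb : chi D b = 1)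
    (hc : chi D c = 1) (hd : chi D d = 1) (wa : w10 a = 1) (wb : w10 b = 1) (wc : w10 c = 1)
    (wd : w10 d = 1) : P10.IsBridge (rest w10 D) s := by
  rw [isBridge_iff]
  refine ⟨S, ?_⟩
  rw [hcut]
  have hrest : ∀ f, chi D f = 1 → w10 f = 1 → f ∉ rest w10 D := by
    intro f h1 h2 h3
    rw [rest, Finset.mem_sdiff] at h3
    exact h3.2 (Finset.mem_inter.mpr ⟨mem_of_chi h1, AltX.mem_one.mpr h2⟩)
  ext f
  rw [Finset.mem_inter, Finset.mem_singleton]
  constructor
  · rintro ⟨h1, h2⟩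
    simp only [Finset.mem_insert, Finset.mem_singleton] at h2
    rcases h2 with h | h | h | h | h
    · exact h
    · subst h
      exact absurd h1 (hrest f ha wa)
    · subst h
      exact absurd h1 (hrest f hb wb)
    · subst h
      exact absurd h1 (hrest f hc wc)
    · subst h
      exact absurd h1 (hrest f hd wd)
  · rintro rfl
    refine ⟨?_, Finset.mem_insert_self _ _⟩
    rw [rest, Finset.mem_sdiff]
    refine ⟨Finset.mem_univ _, ?_⟩
    intro h
    have := AltX.mem_one.mp (Finset.mem_inter.mp h).2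
    omega

lemma cut0 : P10.cut {0, 1, 4, 6, 9} = {5, 1, 3, 11, 12} := by decide

lemma cut1 : P10.cut {0, 1, 2, 5, 7} = {6, 2, 4, 12, 13} := by decide

lemma cut2 : P10.cut {1, 2, 3, 6, 8} = {7, 3, 0, 13, 14} := by decide

lemma cut3 : P10.cut {2, 3, 4, 7, 9} = {8, 4, 1, 14, 10} := by decide

lemma cut4 : P10.cut {0, 3, 4, 5, 8} = {9, 0, 2, 10, 11} := by decide

lemma no_removable (D : Finset (Fin 15)) : ¬ P10.IsRemovable Finset.univ w10 D := by
  intro h
  rw [(t_Alt (Fin 10) (Fin 15) P10 w10 w10_cases deg_two_one).1 D] at h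
  rcases alt_cases h.1 with ⟨-, -, -, -, -, h1, h2, h3, h4⟩ | ⟨-, -, -, -, -, h1, h2, h3, h4⟩ |
    ⟨-, -, -, -, -, h1, h2, h3, h4⟩ | ⟨-, -, -, -, -, h1, h2, h3, h4⟩ |
    ⟨-, -, -, -, -, h1, h2, h3, h4⟩
  · exact h.2 _ (bridge_of _ _ _ _ _ _ cut0 (by decide) h1 h2 h3 h4 (by decide) (by decide)
      (by decide) (by decide))
  · exact h.2 _ (bridge_of _ _ _ _ _ _ cut1 (by decide) h1 h2 h3 h4 (by decide) (by decide)
      (by decide) (by decide))
  · exact h.2 _ (bridge_of _ _ _ _ _ _ cut2 (by decide) h1 h2 h3 h4 (by decide) (by decide)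
      (by decide) (by decide))
  · exact h.2 _ (bridge_of _ _ _ _ _ _ cut3 (by decide) h1 h2 h3 h4 (by decide) (by decide)
      (by decide) (by decide))
  · exact h.2 _ (bridge_of _ _ _ _ _ _ cut4 (by decide) h1 h2 h3 h4 (by decide) (by decide)
      (by decide) (by decide))

lemma circ_x0 : P10.IsCircuit {0, 4, 6, 9, 14} :=
  isCircuit_of _ 4 [0, 1, 6, 9] (by decide) (by decide) (by decide) (by decide)

lemma circ_d0 : P10.IsCircuit {1, 3, 6, 7, 8, 9, 11, 12} :=
  isCircuit_of _ 1 [2, 7, 9, 4, 3, 8, 6] (by decide) (by decide) (by decide) (by decide)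

lemma circ_y0 : P10.IsCircuit {2, 7, 8, 10, 13} :=
  isCircuit_of _ 8 [5, 7, 2, 3] (by decide) (by decide) (by decide) (by decide)

lemma circ_x1 : P10.IsCircuit {0, 1, 5, 7, 10} :=
  isCircuit_of _ 0 [1, 2, 7, 5] (by decide) (by decide) (by decide) (by decide)

lemma circ_d1 : P10.IsCircuit {2, 4, 5, 7, 8, 9, 12, 13} :=
  isCircuit_of _ 2 [3, 8, 5, 0, 4, 9, 7] (by decide) (by decide) (by decide) (by decide)

lemma circ_y1 : P10.IsCircuit {3, 8, 9, 11, 14} :=
  isCircuit_of _ 9 [6, 8, 3, 4] (by decide) (by decide) (by decide) (by decide)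

lemma circ_x2 : P10.IsCircuit {1, 2, 6, 8, 11} :=
  isCircuit_of _ 1 [2, 3, 8, 6] (by decide) (by decide) (by decide) (by decide)

lemma circ_d2 : P10.IsCircuit {0, 3, 5, 6, 8, 9, 13, 14} :=
  isCircuit_of _ 3 [4, 9, 6, 1, 0, 5, 8] (by decide) (by decide) (by decide) (by decide)

lemma circ_y2 : P10.IsCircuit {4, 5, 9, 10, 12} :=
  isCircuit_of _ 5 [7, 9, 4, 0] (by decide) (by decide) (by decide) (by decide)

lemma circ_x3 : P10.IsCircuit {2, 3, 7, 9, 12} :=
  isCircuit_of _ 2 [3, 4, 9, 7] (by decide) (by decide) (by decide) (by decide)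

lemma circ_d3 : P10.IsCircuit {1, 4, 5, 6, 7, 9, 10, 14} :=
  isCircuit_of _ 4 [0, 5, 7, 2, 1, 6, 9] (by decide) (by decide) (by decide) (by decide)

lemma circ_y3 : P10.IsCircuit {0, 5, 6, 11, 13} :=
  isCircuit_of _ 6 [8, 5, 0, 1] (by decide) (by decide) (by decide) (by decide)

lemma circ_x4 : P10.IsCircuit {3, 4, 5, 8, 13} :=
  isCircuit_of _ 3 [4, 0, 5, 8] (by decide) (by decide) (by decide) (by decide)

lemma circ_d4 : P10.IsCircuit {0, 2, 5, 6, 7, 8, 10, 11} :=
  isCircuit_of _ 0 [1, 6, 8, 3, 2, 7, 5] (by decide) (by decide) (by decide) (by decide)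

lemma circ_y4 : P10.IsCircuit {1, 6, 7, 12, 14} :=
  isCircuit_of _ 7 [9, 6, 1, 2] (by decide) (by decide) (by decide) (by decide)

lemma cover0 : P10.HasCover (Finset.univ.erase 5) w10 := by
  refine ⟨[{0, 4, 6, 9, 14}, {1, 3, 6, 7, 8, 9, 11, 12}, {2, 7, 8, 10, 13}], ?_, by decide⟩
  intro D hD
  simp only [List.mem_cons, List.not_mem_nil, or_false] at hD
  rcases hD with rfl | rfl | rfl
  · exact ⟨circ_x0, by decide⟩
  · exact ⟨circ_d0, by decide⟩
  · exact ⟨circ_y0, by decide⟩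

lemma cover1 : P10.HasCover (Finset.univ.erase 6) w10 := by
  refine ⟨[{0, 1, 5, 7, 10}, {2, 4, 5, 7, 8, 9, 12, 13}, {3, 8, 9, 11, 14}], ?_, by decide⟩
  intro D hD
  simp only [List.mem_cons, List.not_mem_nil, or_false] at hD
  rcases hD with rfl | rfl | rfl
  · exact ⟨circ_x1, by decide⟩
  · exact ⟨circ_d1, by decide⟩
  · exact ⟨circ_y1, by decide⟩

lemma cover2 : P10.HasCover (Finset.univ.erase 7) w10 := by
  refine ⟨[{1, 2, 6, 8, 11}, {0, 3, 5, 6, 8, 9, 13, 14}, {4, 5, 9, 10, 12}], ?_, by decide⟩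
  intro D hD
  simp only [List.mem_cons, List.not_mem_nil, or_false] at hD
  rcases hD with rfl | rfl | rfl
  · exact ⟨circ_x2, by decide⟩
  · exact ⟨circ_d2, by decide⟩
  · exact ⟨circ_y2, by decide⟩

lemma cover3 : P10.HasCover (Finset.univ.erase 8) w10 := by
  refine ⟨[{2, 3, 7, 9, 12}, {1, 4, 5, 6, 7, 9, 10, 14}, {0, 5, 6, 11, 13}], ?_, by decide⟩
  intro D hD
  simp only [List.mem_cons, List.not_mem_nil, or_false] at hD
  rcases hD with rfl | rfl | rfl
  · exact ⟨circ_x3, by decide⟩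
  · exact ⟨circ_d3, by decide⟩
  · exact ⟨circ_y3, by decide⟩

lemma cover4 : P10.HasCover (Finset.univ.erase 9) w10 := by
  refine ⟨[{3, 4, 5, 8, 13}, {0, 2, 5, 6, 7, 8, 10, 11}, {1, 6, 7, 12, 14}], ?_, by decide⟩
  intro D hD
  simp only [List.mem_cons, List.not_mem_nil, or_false] at hD
  rcases hD with rfl | rfl | rfl
  · exact ⟨circ_x4, by decide⟩
  · exact ⟨circ_d4, by decide⟩
  · exact ⟨circ_y4, by decide⟩

lemma bridgeless : P10.Bridgeless Finset.univ := by
  intro e he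
  have key : ∀ C : Finset (Fin 15), e ∈ C → P10.IsCircuit C → False := by
    intro C h1 h2
    obtain ⟨S, hS⟩ := P10.isBridge_iff.mp he
    have h3 := (h2.isEven).card_inter_cut P10 S
    have h4 : C ∩ P10.cut S = {e} := by
      ext f
      rw [Finset.mem_inter, Finset.mem_singleton]
      constructor
      · rintro ⟨-, hf⟩
        have : f ∈ Finset.univ ∩ P10.cut S := Finset.mem_inter.mpr ⟨Finset.mem_univ f, hf⟩
        rw [hS, Finset.mem_singleton] at this
        exact this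
      · rintro rfl
        have : f ∈ Finset.univ ∩ P10.cut S := by
          rw [hS]
          exact Finset.mem_singleton_self f
        exact ⟨h1, (Finset.mem_inter.mp this).2⟩
    rw [h4, Finset.card_singleton] at h3
    exact absurd h3 (by decide)
  have h5 : e ∈ ({0, 4, 6, 9, 14} : Finset (Fin 15)) ∨ e ∈ ({0, 1, 5, 7, 10} : Finset (Fin 15)) ∨
      e ∈ ({1, 2, 6, 8, 11} : Finset (Fin 15)) ∨ e ∈ ({2, 3, 7, 9, 12} : Finset (Fin 15)) ∨
      e ∈ ({3, 4, 5, 8, 13} : Finset (Fin 15)) := by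
    clear he key
    revert e
    decide
  rcases h5 with h | h | h | h | h
  · exact key _ h circ_x0
  · exact key _ h circ_x1
  · exact key _ h circ_x2
  · exact key _ h circ_x3
  · exact key _ h circ_x4

end P10X

open P10X in
/-- The weighted Petersen graph is a minimal contra pair. -/
theorem t_P10 : Stmt_P10 := by
  refine ⟨by unfold Cubic; decide, ?_, ⟨bridgeless, no_cover⟩, no_removable, ?_⟩
  · rw [isEul_iff]
    exact ⟨by decide, by decide⟩
  · intro e he
    have h : ∀ e, w10 e = 2 → e = 5 ∨ e = 6 ∨ e = 7 ∨ e = 8 ∨ e = 9 := by decide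
    have h := h e he
    rcases h with rfl | rfl | rfl | rfl | rfl
    · exact cover0
    · exact cover1
    · exact cover2
    · exact cover3
    · exact cover4

end MGraph

end Pool.GOD
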