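import Pool.Agent.GOD.StmtG

/-!
A minimal contra pair is a permutation graph.
-/

set_option autoImplicit false
set_option linter.unusedSectionVars false

namespace Pool.GOD

namespace MGraph

namespace PermX

variable {V E : Type} [Fintype V] [DecidableEq V] [Fintype E] [DecidableEq E]
  {G : MGraph V E} {w : E → ℕ}

lemma mem_two {f : E} : f ∈ two w ↔ w f = 2 := by simp [two]

lemma mem_one {f : E} : f ∈ one w ↔ w f = 1 := by simp [one]

lemma deg_add (hw : ∀ e, w e = 1 ∨ w e = 2) (X : Finset E) (v : V) :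
    G.deg (X ∩ two w) v + G.deg (X ∩ one w) v = G.deg X v := by
  have hd : Disjoint (X ∩ two w) (X ∩ one w) := by
    rw [Finset.disjoint_left]
    intro f h1 h2
    rw [Finset.mem_inter, mem_two] at h1
    rw [Finset.mem_inter, mem_one] at h2
    omega
  rw [← G.deg_union hd]
  congr 1
  ext f
  simp only [Finset.mem_union, Finset.mem_inter, mem_two, mem_one]
  have := hw f
  tauto

lemma deg_two_one (hw : ∀ e, w e = 1 ∨ w e = 2) (v : V) :
    G.deg (two w) v + G.deg (one w) v = G.deg Finset.univ v := by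
  have h := deg_add (G := G) hw Finset.univ v
  rwa [Finset.univ_inter, Finset.univ_inter] at h

lemma odd_deg_two (hc : G.Cubic) (he : G.IsEul Finset.univ w) (v : V) :
    Odd (G.deg (two w) v) := by
  have h1 := (G.isEul_iff.mp he).2 v
  have h2 : ∑ e ∈ Finset.univ.filter (fun e => v ∈ G.ends e), w e =
      G.deg Finset.univ v + G.deg (two w) v := by
    have h3 : ∀ e, w e = 1 + if w e = 2 then 1 else 0 := by
      intro e
      rcases he.1 e (Finset.mem_univ e) with h | h <;> rw [h] <;> simp
    rw [Finset.sum_congr rfl (fun e _ => h3 e), Finset.sum_add_distrib]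
    congr 1
    · rw [Finset.sum_const, smul_eq_mul, mul_one]
      rfl
    · rw [← Finset.card_filter]
      unfold deg
      congr 1
      ext f
      simp only [Finset.mem_filter, Finset.mem_univ, true_and, mem_two]
      tauto
  rw [h2, hc v] at h1
  rcases Nat.even_or_odd (G.deg (two w) v) with h | h
  · exfalso
    rw [Nat.even_add] at h1
    exact absurd (h1.mpr h) (by decide)
  · exact h

lemma deg_ne_zero {X : Finset E} {v : V} {f : E} (h : f ∈ X) (hv : v ∈ G.ends f) :
    G.deg X v ≠ 0 := by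
  have := (G.deg_pos_iff (X := X) (v := v)).mpr ⟨f, h, hv⟩
  omega

lemma circ_deg {D : Finset E} (hD : G.IsCircuit D) {v : V} {f : E} (h : f ∈ D)
    (hv : v ∈ G.ends f) : G.deg D v = 2 := by
  rcases hD.2.1 v with h1 | h1
  · exact absurd h1 (deg_ne_zero h hv)
  · exact h1

/-- every vertex has exactly one edge of weight 2 -/
lemma deg_two (hChain : Stmt_Chain) (hm : G.MinContra w) (v : V) :
    G.deg (two w) v = 1 ∧ G.deg (one w) v = 2 := by
  have hc := hm.1
  have he := hm.2.1
  have hw : ∀ e, w e = 1 ∨ w e = 2 := fun e => he.1 e (Finset.mem_univ e)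
  have h1 := odd_deg_two hc he v
  have h2 := deg_two_one (G := G) hw v
  rw [hc v] at h2
  have h3 : G.deg (two w) v ≠ 3 := by
    intro h3
    -- an edge of weight 2 at v
    obtain ⟨e, he2, hev⟩ := (G.deg_pos_iff (X := two w) (v := v)).mp (by omega)
    rw [mem_two] at he2
    obtain ⟨y, hy⟩ := Sym2.mem_iff_exists.mp hev
    obtain ⟨L, hL1, hL2⟩ := hm.2.2.2.2 e he2
    obtain ⟨D, hD, -⟩ := hChain V E G w hm e v y he2 hy L hL1 hL2
    -- another edge
    have h4 : 1 < ((two w).filter (fun f => v ∈ G.ends f)).card := by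
      have : G.deg (two w) v = ((two w).filter (fun f => v ∈ G.ends f)).card := rfl
      omega
    obtain ⟨f, hf, hfe⟩ := Finset.exists_mem_ne h4 e
    rw [Finset.mem_filter, mem_two] at hf
    obtain ⟨i, hi, -, hfi, -⟩ := hD.cover2 f hf.1 hfe
    have h5 := circ_deg (hD.circ (i + 1) hi) hfi hf.2
    have h6 := (hD.first (i + 1) hi).mp h5
    omega
  obtain ⟨k, hk⟩ := h1
  omega

/-- The index of an edge of weight 1 is odd. -/
def OddC (D : ℕ → Finset E) (t : ℕ) (f : E) : Prop := ∃ j < t, j % 2 = 1 ∧ f ∈ D j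

lemma filter_eq {O : Finset E} {v : V} (hO : O ⊆ one w) (h1 : G.deg (one w) v = 2)
    (h2 : G.deg O v = 2) {f : E} (hf : w f = 1) (hv : v ∈ G.ends f) : f ∈ O := by
  have h3 : O.filter (fun e => v ∈ G.ends e) = (one w).filter (fun e => v ∈ G.ends e) := by
    refine Finset.eq_of_subset_of_card_le (Finset.filter_subset_filter _ hO) ?_
    have h4 : ((one w).filter (fun e => v ∈ G.ends e)).card = 2 := h1
    have h5 : (O.filter (fun e => v ∈ G.ends e)).card = 2 := h2
    rw [h4, h5]
  have h6 : f ∈ (one w).filter (fun e => v ∈ G.ends e) :=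
    Finset.mem_filter.mpr ⟨mem_one.mpr hf, hv⟩
  rw [← h3] at h6
  exact (Finset.mem_filter.mp h6).1

/-- two circuits of the 2-regular graph sharing a vertex are equal -/
lemma circ_sub (h1 : ∀ v, G.deg (one w) v = 2) {O O' : Finset E} (hO : O ⊆ one w)
    (hO' : O' ⊆ one w) (hc : G.IsCircuit O) (hc' : G.IsCircuit O') {v : V}
    (hv : G.deg O v = 2) (hv' : G.deg O' v = 2) : O ⊆ O' := by
  have key : ∀ u, G.ConnIn O v u → G.deg O' u = 2 := by
    intro u hu
    induction hu with
    | refl => exact hv'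
    | @tail b c _ h ih =>
      obtain ⟨f, hf, hbc⟩ := h
      have h2 : f ∈ O' := filter_eq hO' (h1 b) ih (mem_one.mp (hO hf))
        (by rw [hbc]; exact Sym2.mem_mk_left b c)
      exact circ_deg hc' h2 (by rw [hbc]; exact Sym2.mem_mk_right b c)
  intro f hf
  obtain ⟨a, b, -, hab⟩ := G.exists_ends f
  have ha : a ∈ G.ends f := by rw [hab]; exact Sym2.mem_mk_left a b
  exact filter_eq hO' (h1 a) (key a (hc.2.2 v a hv (circ_deg hc hf ha))) (mem_one.mp (hO hf)) ha

lemma circ_eq (h1 : ∀ v, G.deg (one w) v = 2) {O O' : Finset E} (hO : O ⊆ one w)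
    (hO' : O' ⊆ one w) (hc : G.IsCircuit O) (hc' : G.IsCircuit O') {v : V}
    (hv : G.deg O v = 2) (hv' : G.deg O' v = 2) : O = O' :=
  Finset.Subset.antisymm (circ_sub h1 hO hO' hc hc' hv hv') (circ_sub h1 hO' hO hc' hc hv' hv)

/-- a circuit of the 2-regular graph through a given vertex -/
lemma exists_circ (hBDeco : Stmt_BDeco) (h1 : ∀ v, G.deg (one w) v = 2) (v : V) :
    ∃ O, O ⊆ one w ∧ G.IsCircuit O ∧ G.deg O v = 2 := by
  have hev : G.IsEven (one w) := fun u => by rw [h1 u]; decide
  obtain ⟨L, hL1, hL2⟩ := hBDeco V E G (one w) hev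
  obtain ⟨f, hf, hfv⟩ := (G.deg_pos_iff (X := one w) (v := v)).mp (by rw [h1 v]; decide)
  have h2 : 0 < L.countP (fun C => decide (f ∈ C)) := by
    rw [hL2 f, chi, if_pos hf]
    exact Nat.one_pos
  rw [List.countP_pos_iff] at h2
  obtain ⟨C, hC, hfC⟩ := h2
  have h3 := hL1 C hC
  exact ⟨C, h3.2, h3.1, circ_deg h3.1 (of_decide_eq_true hfC) hfv⟩

/-- the number of vertices of a circuit -/
lemma card_verts {O : Finset E} (hc : G.IsCircuit O) :
    (Finset.univ.filter (fun v => G.deg O v = 2)).card = O.card := by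
  have h1 := G.sum_deg O Finset.univ
  rw [cut_univ, Finset.inter_empty, Finset.card_empty, zero_add] at h1
  have h2 : O.filter (fun e => ∀ a ∈ G.ends e, a ∈ (Finset.univ : Finset V)) = O := by
    rw [Finset.filter_eq_self]
    intro e _ a _
    exact Finset.mem_univ a
  rw [h2] at h1
  have h3 : ∑ v, G.deg O v = 2 * (Finset.univ.filter (fun v => G.deg O v = 2)).card := by
    rw [Finset.card_filter, Finset.mul_sum]
    refine Finset.sum_congr rfl fun v _ => ?_
    rcases hc.2.1 v with h | h <;> rw [h] <;> simp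
  omega

open Classical in
/-- the parity argument -/
lemma parity (hm : G.MinContra w) (h12 : ∀ v, G.deg (two w) v = 1 ∧ G.deg (one w) v = 2)
    {e : E} {x y : V} {t : ℕ} {D : ℕ → Finset E} (hD : G.IsChain w e x y t D)
    {O : Finset E} (hO : O ⊆ one w) (hc : G.IsCircuit O) :
    Even (((Finset.univ.filter (fun v => G.deg O v = 2)).erase x).erase y).card := by
  have hw : ∀ e, w e = 1 ∨ w e = 2 := fun e => hm.2.1.1 e (Finset.mem_univ e)
  -- the edges of odd index
  obtain ⟨K, hK⟩ : ∃ K : Finset E, K = O.filter (fun f => OddC D t f) := ⟨_, rfl⟩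
  have hKO : K ⊆ O := by rw [hK]; exact Finset.filter_subset _ _
  have hidx : ∀ f, w f = 1 → ∀ i < t, ∀ j < t, f ∈ D i → f ∈ D j → i = j := by
    intro f hf i hi j hj h1 h2
    obtain ⟨k, -, hk⟩ := hD.cover1 f hf
    exact (hk i ⟨hi, h1⟩).trans (hk j ⟨hj, h2⟩).symm
  -- vertices different from x, y
  have hA : ∀ v, v ≠ x → v ≠ y → G.deg O v = 2 → G.deg K v = 1 := by
    intro v hvx hvy hv
    obtain ⟨m, hm2, hmv⟩ := (G.deg_pos_iff (X := two w) (v := v)).mp (by rw [(h12 v).1]; decide)
    rw [mem_two] at hm2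
    have hme : m ≠ e := by
      rintro rfl
      rw [hD.ends, Sym2.mem_iff] at hmv
      rcases hmv with h | h
      · exact hvx h
      · exact hvy h
    obtain ⟨i, hi, hmi, hmi', hmu⟩ := hD.cover2 m hm2 hme
    -- every circuit through v contains m
    have hcm : ∀ j < t, G.deg (D j) v = 2 → m ∈ D j := by
      intro j hj hjv
      have h1 := hD.alt j hj v hvx hvy hjv
      obtain ⟨m', hm', hm'v⟩ := (G.deg_pos_iff (X := D j ∩ two w) (v := v)).mp (by omega)
      rw [Finset.mem_inter] at hm'
      have h2 : ((two w).filter (fun e => v ∈ G.ends e)).card = 1 := (h12 v).1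
      rw [Finset.card_eq_one] at h2
      obtain ⟨z, hz⟩ := h2
      have h3 : m' ∈ (two w).filter (fun e => v ∈ G.ends e) :=
        Finset.mem_filter.mpr ⟨hm'.2, hm'v⟩
      have h4 : m ∈ (two w).filter (fun e => v ∈ G.ends e) :=
        Finset.mem_filter.mpr ⟨mem_two.mpr hm2, hmv⟩
      rw [hz, Finset.mem_singleton] at h3 h4
      rw [h4, ← h3]
      exact hm'.1
    have hdeg1 : ∀ j < t, m ∈ D j → G.deg (D j ∩ one w) v = 1 := by
      intro j hj hmj
      have h1 := circ_deg (hD.circ j hj) hmj hmv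
      have h2 := hD.alt j hj v hvx hvy h1
      have h3 := deg_add (G := G) hw (D j) v
      omega
    -- the odd one of i, i + 1
    obtain ⟨k, hk, hkt, hk2, hmk⟩ : ∃ k, (k = i ∨ k = i + 1) ∧ k < t ∧ k % 2 = 1 ∧ m ∈ D k := by
      rcases Nat.mod_two_eq_zero_or_one i with h | h
      · exact ⟨i + 1, Or.inr rfl, hi, by omega, hmi'⟩
      · exact ⟨i, Or.inl rfl, by omega, h, hmi⟩
    have h5 : K.filter (fun e => v ∈ G.ends e) = (D k ∩ one w).filter (fun e => v ∈ G.ends e) := by
      ext f
      rw [Finset.mem_filter, Finset.mem_filter, hK, Finset.mem_filter, Finset.mem_inter]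
      constructor
      · rintro ⟨⟨hfO, j, hj, hj2, hfj⟩, hfv⟩
        have h6 := hcm j hj (circ_deg (hD.circ j hj) hfj hfv)
        have h7 := hmu j hj h6
        have h8 : j = k := by omega
        exact ⟨⟨h8 ▸ hfj, hO hfO⟩, hfv⟩
      · rintro ⟨⟨hfk, hf1⟩, hfv⟩
        refine ⟨⟨filter_eq hO (h12 v).2 hv (mem_one.mp hf1) hfv, k, hkt, hk2, hfk⟩, hfv⟩
    have h6 := hdeg1 k hkt hmk
    unfold deg at h6 ⊢
    rw [h5]
    exact h6
  have hB : Even (G.deg K x) := by
    have : G.deg K x = 0 := by
      by_contra h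
      obtain ⟨f, hf, hfx⟩ := (G.deg_pos_iff (X := K) (v := x)).mp (by omega)
      rw [hK, Finset.mem_filter] at hf
      obtain ⟨-, j, hj, hj2, hfj⟩ := hf
      have := (hD.first j hj).mp (circ_deg (hD.circ j hj) hfj hfx)
      omega
    rw [this]
    decide
  have hC : Even (G.deg K y) := by
    rcases hc.2.1 y with h | h
    · have h2 := G.deg_mono hKO y
      have : G.deg K y = 0 := by omega
      rw [this]
      decide
    · by_cases ht : (t - 1) % 2 = 1
      · have h2 : K.filter (fun e => y ∈ G.ends e) = O.filter (fun e => y ∈ G.ends e) := by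
          ext f
          rw [Finset.mem_filter, Finset.mem_filter, hK, Finset.mem_filter]
          constructor
          · rintro ⟨⟨hfO, -⟩, hfv⟩
            exact ⟨hfO, hfv⟩
          · rintro ⟨hfO, hfv⟩
            obtain ⟨j, ⟨hj, hfj⟩, -⟩ := hD.cover1 f (mem_one.mp (hO hfO))
            have h3 := (hD.last j hj).mp (circ_deg (hD.circ j hj) hfj hfv)
            exact ⟨⟨hfO, j, hj, by omega, hfj⟩, hfv⟩
        have h3 : G.deg K y = G.deg O y := by
          unfold deg
          rw [h2]
        rw [h3, h]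
        decide
      · have : G.deg K y = 0 := by
          by_contra h'
          obtain ⟨f, hf, hfx⟩ := (G.deg_pos_iff (X := K) (v := y)).mp (by omega)
          rw [hK, Finset.mem_filter] at hf
          obtain ⟨-, j, hj, hj2, hfj⟩ := hf
          have := (hD.last j hj).mp (circ_deg (hD.circ j hj) hfj hfx)
          omega
        rw [this]
        decide
  -- sum of the degrees
  have h1 := G.sum_deg K Finset.univ
  rw [cut_univ, Finset.inter_empty, Finset.card_empty, zero_add] at h1
  have h2 : ∑ v, G.deg K v = ∑ v ∈ (Finset.univ : Finset V),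
      ((if v ∈ ((Finset.univ.filter (fun v => G.deg O v = 2)).erase x).erase y then 1 else 0) +
      (if v = x ∨ v = y then G.deg K v else 0)) := by
    refine Finset.sum_congr rfl fun v _ => ?_
    by_cases hvx : v = x
    · rw [if_neg (by simp [hvx]), if_pos (Or.inl hvx), zero_add]
    · by_cases hvy : v = y
      · rw [if_neg (by simp [hvy]), if_pos (Or.inr hvy), zero_add]
      · rw [if_neg (not_or.mpr ⟨hvx, hvy⟩), add_zero]
        rcases hc.2.1 v with h | h
        · rw [if_neg]
          · have := G.deg_mono hKO v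
            omega
          · rw [Finset.mem_erase, Finset.mem_erase, Finset.mem_filter]
            rintro ⟨-, -, -, h'⟩
            omega
        · rw [hA v hvx hvy h, if_pos]
          rw [Finset.mem_erase, Finset.mem_erase, Finset.mem_filter]
          exact ⟨hvy, hvx, Finset.mem_univ v, h⟩
  rw [Finset.sum_add_distrib, ← Finset.card_filter] at h2
  have h3 : Finset.univ.filter (fun v => v ∈
      ((Finset.univ.filter (fun v => G.deg O v = 2)).erase x).erase y) =
      ((Finset.univ.filter (fun v => G.deg O v = 2)).erase x).erase y := by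
    ext v
    simp
  rw [h3] at h2
  have h4 : Even (∑ v ∈ (Finset.univ : Finset V), (if v = x ∨ v = y then G.deg K v else 0)) := by
    refine Finset.even_sum _ fun v _ => ?_
    split_ifs with h
    · rcases h with rfl | rfl
      · exact hB
      · exact hC
    · decide
  have h5 : Even (∑ v, G.deg K v) := by
    rw [h1]
    exact ⟨_, by ring⟩
  rw [h2] at h5
  exact (Nat.even_add.mp h5).mpr h4

/-- cyclic enumeration with a free length -/
lemma enum (hBEnum : Stmt_BEnum) {D : Finset E} (hD : G.IsCircuit D) :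
    ∃ (N : ℕ) (a : ZMod N → V) (p : ZMod N → E), N = D.card ∧
      2 ≤ N ∧ Function.Injective a ∧ Function.Injective p ∧
      (∀ i, G.ends (p i) = s(a i, a (i + 1))) ∧ (∀ e, e ∈ D ↔ ∃ i, e = p i) ∧
      ∀ v, G.deg D v = 2 ↔ ∃ i, v = a i := by
  obtain ⟨a, p, h⟩ := hBEnum V E G D hD
  exact ⟨D.card, a, p, rfl, h⟩

/-- half of an even circuit -/
lemma half_circ (hBEnum : Stmt_BEnum) {D : Finset E} (hD : G.IsCircuit D) (he : Even D.card) :
    ∃ D1 ⊆ D, ∀ v, 2 * G.deg D1 v = G.deg D v := by
  classical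
  obtain ⟨N, a, p, hNe, hN, ha, hp, hends, hmem, hdeg⟩ := enum hBEnum hD
  rw [← hNe] at he
  have h2N : 2 ∣ N := he.two_dvd
  obtain ⟨c, hc⟩ : ∃ c : ZMod N →+* ZMod 2, c = ZMod.castHom h2N (ZMod 2) := ⟨_, rfl⟩
  refine ⟨D.filter (fun f => ∃ i, f = p i ∧ c i = 0), Finset.filter_subset _ _, fun v => ?_⟩
  rcases hD.2.1 v with h | h
  · have h1 := G.deg_mono (Finset.filter_subset (fun f => ∃ i, f = p i ∧ c i = 0) D) v
    omega
  · obtain ⟨i, rfl⟩ := (hdeg v).mp h
    have hstar : ∀ j, a i ∈ G.ends (p j) ↔ j = i ∨ j = i - 1 := by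
      intro j
      rw [hends, Sym2.mem_iff, ha.eq_iff, ha.eq_iff]
      constructor
      · rintro (h | h)
        · exact Or.inl h.symm
        · right
          rw [h]
          ring
      · rintro (rfl | rfl)
        · exact Or.inl rfl
        · right
          ring
    have h01 : (c i = 0 ∧ c (i - 1) ≠ 0) ∨ (c i ≠ 0 ∧ c (i - 1) = 0) := by
      rw [map_sub, map_one]
      generalize c i = z
      revert z
      decide
    have h1 : G.deg (D.filter (fun f => ∃ i, f = p i ∧ c i = 0)) (a i) = 1 := by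
      unfold deg
      rw [Finset.card_eq_one]
      obtain ⟨k, hk, hk0, hk'⟩ : ∃ k, (k = i ∨ k = i - 1) ∧ c k = 0 ∧
          ∀ j, (j = i ∨ j = i - 1) → c j = 0 → j = k := by
        rcases h01 with ⟨h1, h2⟩ | ⟨h1, h2⟩
        · refine ⟨i, Or.inl rfl, h1, ?_⟩
          rintro j (rfl | rfl) h3
          · rfl
          · exact absurd h3 h2
        · refine ⟨i - 1, Or.inr rfl, h2, ?_⟩
          rintro j (rfl | rfl) h3
          · exact absurd h3 h1
          · rfl
      refine ⟨p k, ?_⟩
      ext f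
      rw [Finset.mem_filter, Finset.mem_filter, Finset.mem_singleton]
      constructor
      · rintro ⟨⟨-, j, rfl, hj0⟩, hj⟩
        rw [hstar] at hj
        rw [hk' j hj hj0]
      · rintro rfl
        exact ⟨⟨(hmem _).mpr ⟨k, rfl⟩, k, rfl, hk0⟩, (hstar k).mpr hk⟩
    rw [h1, h]

/-- half of an even set all of whose circuits are even -/
lemma half (hBEnum : Stmt_BEnum) (hBDeco : Stmt_BDeco) :
    ∀ (n : ℕ) (D : Finset E), D.card = n → G.IsEven D →
      (∀ C, C ⊆ D → G.IsCircuit C → Even C.card) → ∃ D1 ⊆ D, ∀ v, 2 * G.deg D1 v = G.deg D v := by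
  intro n
  induction n using Nat.strong_induction_on with
  | _ n ih =>
    intro D hn hD hC
    rcases D.eq_empty_or_nonempty with rfl | hne
    · exact ⟨∅, Finset.Subset.refl _, fun v => by simp [deg]⟩
    · obtain ⟨f, hf⟩ := hne
      obtain ⟨L, hL1, hL2⟩ := hBDeco V E G D hD
      have h2 : 0 < L.countP (fun C => decide (f ∈ C)) := by
        rw [hL2 f, chi, if_pos hf]
        exact Nat.one_pos
      rw [List.countP_pos_iff] at h2
      obtain ⟨C, hCL, -⟩ := h2
      obtain ⟨h3, h4⟩ := hL1 C hCL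
      obtain ⟨C1, hC1, hC1'⟩ := half_circ hBEnum h3 (hC C h4 h3)
      have h5 : (D \ C).card < n := by
        rw [← hn]
        refine Finset.card_lt_card ?_
        rw [Finset.ssubset_iff_subset_ne]
        refine ⟨Finset.sdiff_subset, fun h => ?_⟩
        obtain ⟨g, hg⟩ := h3.1
        have h6 := h4 hg
        rw [← h, Finset.mem_sdiff] at h6
        exact h6.2 hg
      obtain ⟨D1, hD1, hD1'⟩ := ih _ h5 (D \ C) rfl (hD.sdiff G h3.isEven h4)
        (fun C' hC' => hC C' (hC'.trans Finset.sdiff_subset))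
      refine ⟨C1 ∪ D1, Finset.union_subset (hC1.trans h4) (hD1.trans Finset.sdiff_subset), ?_⟩
      intro v
      have h7 : Disjoint C1 D1 := by
        rw [Finset.disjoint_left]
        intro g h8 h9
        exact (Finset.mem_sdiff.mp (hD1 h9)).2 (hC1 h8)
      have h8 := G.deg_sdiff h4 v
      rw [G.deg_union h7, mul_add, hC1' v, hD1' v]
      omega

/-- If all circuits of the graph of the edges of weight 1 are even, there is a cover. -/
lemma cover_of_even (hBEnum : Stmt_BEnum) (hBDeco : Stmt_BDeco)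
    (hw : ∀ e, w e = 1 ∨ w e = 2)
    (h12 : ∀ v, G.deg (two w) v = 1 ∧ G.deg (one w) v = 2)
    (hC : ∀ C, C ⊆ one w → G.IsCircuit C → Even C.card) : G.HasCover Finset.univ w := by
  obtain ⟨O, hO, hO'⟩ := half hBEnum hBDeco _ (one w) rfl (fun v => by rw [(h12 v).2]; decide) hC
  have hO1 : ∀ v, G.deg O v = 1 := fun v => by
    have h1 := hO' v
    rw [(h12 v).2] at h1
    omega
  have hO2 : ∀ v, G.deg (one w \ O) v = 1 := fun v => by
    have h1 := G.deg_sdiff hO v
    rw [hO1 v, (h12 v).2] at h1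
    omega
  have hd1 : Disjoint (two w) O := by
    rw [Finset.disjoint_left]
    intro f h1 h2
    have h3 := mem_one.mp (hO h2)
    rw [mem_two] at h1
    omega
  have hd2 : Disjoint (two w) (one w \ O) := by
    rw [Finset.disjoint_left]
    intro f h1 h2
    have h3 := mem_one.mp (Finset.mem_sdiff.mp h2).1
    rw [mem_two] at h1
    omega
  have he1 : G.IsEven (two w ∪ O) := fun v => by
    rw [G.deg_union hd1, (h12 v).1, hO1 v]
    decide
  have he2 : G.IsEven (two w ∪ (one w \ O)) := fun v => by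
    rw [G.deg_union hd2, (h12 v).1, hO2 v]
    decide
  obtain ⟨L1, hL1, hL1'⟩ := hBDeco V E G _ he1
  obtain ⟨L2, hL2, hL2'⟩ := hBDeco V E G _ he2
  refine ⟨L1 ++ L2, ?_, ?_⟩
  · intro D hD
    rw [List.mem_append] at hD
    rcases hD with hD | hD
    · exact ⟨(hL1 D hD).1, Finset.subset_univ D⟩
    · exact ⟨(hL2 D hD).1, Finset.subset_univ D⟩
  · intro e _
    rw [List.countP_append, hL1' e, hL2' e]
    unfold chi
    simp only [Finset.mem_union, Finset.mem_sdiff, mem_two, mem_one]
    rcases hw e with h | h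
    · by_cases hO3 : e ∈ O <;> simp [h, hO3]
    · simp [h]

/-- The data of a permutation graph. -/
structure PD (G : MGraph V E) (w : E → ℕ) (n : ℕ) (a b : ZMod n → V) (p q m : ZMod n → E)
    (π : Equiv.Perm (ZMod n)) : Prop where
  inja : Function.Injective a
  injb : Function.Injective b
  disj : ∀ i j, a i ≠ b j
  surj : ∀ v, (∃ i, v = a i) ∨ ∃ i, v = b i
  endp : ∀ i, G.ends (p i) = s(a i, a (i + 1))
  endq : ∀ i, G.ends (q i) = s(b i, b (i + 1))
  endm : ∀ i, G.ends (m i) = s(a i, b (π i))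
  wp : ∀ i, w (p i) = 1
  wq : ∀ i, w (q i) = 1
  wm : ∀ i, w (m i) = 2
  surjE : ∀ e, (∃ i, e = p i) ∨ (∃ i, e = q i) ∨ ∃ i, e = m i

/-- the three 4-circuits of the prism -/
lemma three (hBDeco : Stmt_BDeco) {a b : ZMod 3 → V} {p q m : ZMod 3 → E}
    {π : Equiv.Perm (ZMod 3)} (d : PD G w 3 a b p q m π) : G.HasCover Finset.univ w := by
  classical
  obtain ⟨X, hX⟩ : ∃ X : ZMod 3 → Finset E, X = fun k =>
      Finset.univ.filter (fun f => a k ∉ G.ends f ∧ b (π k) ∉ G.ends f) := ⟨_, rfl⟩
  have hmX : ∀ k f, f ∈ X k ↔ a k ∉ G.ends f ∧ b (π k) ∉ G.ends f := by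
    intro k f
    rw [hX, Finset.mem_filter]
    exact ⟨fun h => h.2, fun h => ⟨Finset.mem_univ f, h⟩⟩
  have hba : ∀ i j, b i ≠ a j := fun i j h => d.disj j i h.symm
  have hpX : ∀ k i, p i ∈ X k ↔ k ≠ i ∧ k ≠ i + 1 := by
    intro k i
    rw [hmX, d.endp, Sym2.mem_iff, Sym2.mem_iff, d.inja.eq_iff, d.inja.eq_iff]
    have h1 := hba (π k) i
    have h2 := hba (π k) (i + 1)
    tauto
  have hqX : ∀ k i, q i ∈ X k ↔ π k ≠ i ∧ π k ≠ i + 1 := by
    intro k i
    rw [hmX, d.endq, Sym2.mem_iff, Sym2.mem_iff, d.injb.eq_iff, d.injb.eq_iff]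
    have h1 := d.disj k i
    have h2 := d.disj k (i + 1)
    tauto
  have hmmX : ∀ k i, m i ∈ X k ↔ k ≠ i := by
    intro k i
    rw [hmX, d.endm, Sym2.mem_iff, Sym2.mem_iff, d.inja.eq_iff, d.injb.eq_iff,
      π.injective.eq_iff]
    have h1 := d.disj k (π i)
    have h2 := hba (π k) i
    tauto
  have hpm : ∀ i j, p i ≠ m j := by
    intro i j h
    have h1 := d.wp i
    rw [h, d.wm] at h1
    omega
  have hqm : ∀ i j, q i ≠ m j := by
    intro i j h
    have h1 := d.wq i
    rw [h, d.wm] at h1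
    omega
  -- the edges at the vertices
  have hsa : ∀ j f, a j ∈ G.ends f ↔ f = p j ∨ f = p (j - 1) ∨ f = m j := by
    intro j f
    constructor
    · intro h
      rcases d.surjE f with ⟨i, rfl⟩ | ⟨i, rfl⟩ | ⟨i, rfl⟩
      · rw [d.endp, Sym2.mem_iff, d.inja.eq_iff, d.inja.eq_iff] at h
        rcases h with rfl | rfl
        · exact Or.inl rfl
        · right; left; rw [add_sub_cancel_right]
      · rw [d.endq, Sym2.mem_iff] at h
        rcases h with h | h
        · exact absurd h (d.disj _ _)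
        · exact absurd h (d.disj _ _)
      · rw [d.endm, Sym2.mem_iff, d.inja.eq_iff] at h
        rcases h with rfl | h
        · right; right; rfl
        · exact absurd h (d.disj _ _)
    · rintro (rfl | rfl | rfl)
      · rw [d.endp]; exact Sym2.mem_mk_left _ _
      · rw [d.endp, sub_add_cancel]; exact Sym2.mem_mk_right _ _
      · rw [d.endm]; exact Sym2.mem_mk_left _ _
  have hsb : ∀ j f, b (π j) ∈ G.ends f ↔ f = q (π j) ∨ f = q (π j - 1) ∨ f = m j := by
    intro j f
    constructor
    · intro h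
      rcases d.surjE f with ⟨i, rfl⟩ | ⟨i, rfl⟩ | ⟨i, rfl⟩
      · rw [d.endp, Sym2.mem_iff] at h
        rcases h with h | h
        · exact absurd h (hba _ _)
        · exact absurd h (hba _ _)
      · rw [d.endq, Sym2.mem_iff, d.injb.eq_iff, d.injb.eq_iff] at h
        rcases h with h | h
        · left; rw [h]
        · right; left; rw [h, add_sub_cancel_right]
      · rw [d.endm, Sym2.mem_iff, d.injb.eq_iff, π.injective.eq_iff] at h
        rcases h with h | rfl
        · exact absurd h (hba _ _)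
        · right; right; rfl
    · rintro (rfl | rfl | rfl)
      · rw [d.endq]; exact Sym2.mem_mk_left _ _
      · rw [d.endq, sub_add_cancel]; exact Sym2.mem_mk_right _ _
      · rw [d.endm]; exact Sym2.mem_mk_right _ _
  have hd3 : ∀ k j : ZMod 3, j = k ∨ j = k + 1 ∨ j = k - 1 := by decide
  have hne : ∀ k : ZMod 3, k ≠ k + 1 ∧ k ≠ k - 1 ∧ k ≠ k + 1 + 1 ∧ k ≠ k - 1 - 1 ∧
      k = k - 1 + 1 ∧ k + 1 - 1 = k := by decide
  have hev : ∀ k, G.IsEven (X k) := by
    intro k v
    rcases d.surj v with ⟨j, rfl⟩ | ⟨j', rfl⟩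
    · rcases hd3 k j with rfl | rfl | rfl
      · have : G.deg (X j) (a j) = 0 := by
          by_contra h
          obtain ⟨f, hf, hf'⟩ := (G.deg_pos_iff (X := X j) (v := a j)).mp (by omega)
          exact ((hmX j f).mp hf).1 hf'
        rw [this]
        decide
      · have h1 : (X k).filter (fun f => a (k + 1) ∈ G.ends f) = {p (k + 1), m (k + 1)} := by
          ext f
          rw [Finset.mem_filter, hsa, Finset.mem_insert, Finset.mem_singleton]
          constructor
          · rintro ⟨h, rfl | rfl | rfl⟩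
            · exact Or.inl rfl
            · rw [hpX, (hne k).2.2.2.2.2] at h
              exact absurd rfl h.1
            · exact Or.inr rfl
          · rintro (rfl | rfl)
            · exact ⟨(hpX _ _).mpr ⟨(hne k).1, (hne k).2.2.1⟩, Or.inl rfl⟩
            · exact ⟨(hmmX _ _).mpr (hne k).1, Or.inr (Or.inr rfl)⟩
        have h2 : G.deg (X k) (a (k + 1)) = 2 := by
          unfold deg
          rw [h1, Finset.card_pair (hpm _ _)]
        rw [h2]
        decide
      · have h1 : (X k).filter (fun f => a (k - 1) ∈ G.ends f) = {p (k - 1 - 1), m (k - 1)} := by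
          ext f
          rw [Finset.mem_filter, hsa, Finset.mem_insert, Finset.mem_singleton]
          constructor
          · rintro ⟨h, rfl | rfl | rfl⟩
            · rw [hpX] at h
              exact absurd (hne k).2.2.2.2.1 h.2
            · exact Or.inl rfl
            · exact Or.inr rfl
          · rintro (rfl | rfl)
            · exact ⟨(hpX _ _).mpr ⟨(hne k).2.2.2.1, by
                rw [sub_add_cancel]; exact (hne k).2.1⟩, Or.inr (Or.inl rfl)⟩
            · exact ⟨(hmmX _ _).mpr (hne k).2.1, Or.inr (Or.inr rfl)⟩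
        have h2 : G.deg (X k) (a (k - 1)) = 2 := by
          unfold deg
          rw [h1, Finset.card_pair (hpm _ _)]
        rw [h2]
        decide
    · obtain ⟨j, rfl⟩ := π.surjective j'
      obtain ⟨l, hl⟩ : ∃ l, l = π k := ⟨_, rfl⟩
      rcases hd3 (π k) (π j) with h0 | h0 | h0
      · have : G.deg (X k) (b (π j)) = 0 := by
          by_contra h
          obtain ⟨f, hf, hf'⟩ := (G.deg_pos_iff (X := X k) (v := b (π j))).mp (by omega)
          rw [h0] at hf'
          exact ((hmX k f).mp hf).2 hf'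
        rw [this]
        decide
      · have hkj : k ≠ j := by
          rintro rfl
          exact (hne (π k)).1 h0
        have h1 : (X k).filter (fun f => b (π j) ∈ G.ends f) = {q (π j), m j} := by
          ext f
          rw [Finset.mem_filter, hsb, Finset.mem_insert, Finset.mem_singleton]
          constructor
          · rintro ⟨h, rfl | rfl | rfl⟩
            · exact Or.inl rfl
            · rw [hqX, h0, (hne (π k)).2.2.2.2.2] at h
              exact absurd rfl h.1
            · exact Or.inr rfl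
          · rintro (rfl | rfl)
            · refine ⟨(hqX _ _).mpr ?_, Or.inl rfl⟩
              rw [h0]
              exact ⟨(hne (π k)).1, (hne (π k)).2.2.1⟩
            · exact ⟨(hmmX _ _).mpr hkj, Or.inr (Or.inr rfl)⟩
        have h2 : G.deg (X k) (b (π j)) = 2 := by
          unfold deg
          rw [h1, Finset.card_pair (hqm _ _)]
        rw [h2]
        decide
      · have hkj : k ≠ j := by
          rintro rfl
          exact (hne (π k)).2.1 h0
        have h1 : (X k).filter (fun f => b (π j) ∈ G.ends f) = {q (π j - 1), m j} := by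
          ext f
          rw [Finset.mem_filter, hsb, Finset.mem_insert, Finset.mem_singleton]
          constructor
          · rintro ⟨h, rfl | rfl | rfl⟩
            · rw [hqX, h0] at h
              exact absurd (hne (π k)).2.2.2.2.1 h.2
            · exact Or.inl rfl
            · exact Or.inr rfl
          · rintro (rfl | rfl)
            · refine ⟨(hqX _ _).mpr ?_, Or.inr (Or.inl rfl)⟩
              rw [h0]
              exact ⟨(hne (π k)).2.2.2.1, by rw [sub_add_cancel]; exact (hne (π k)).2.1⟩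
            · exact ⟨(hmmX _ _).mpr hkj, Or.inr (Or.inr rfl)⟩
        have h2 : G.deg (X k) (b (π j)) = 2 := by
          unfold deg
          rw [h1, Finset.card_pair (hqm _ _)]
        rw [h2]
        decide
  choose L hL hL' using fun k => hBDeco V E G (X k) (hev k)
  refine ⟨L 0 ++ L 1 ++ L 2, ?_, ?_⟩
  · intro D hD
    rw [List.mem_append, List.mem_append] at hD
    rcases hD with (hD | hD) | hD
    · exact ⟨(hL _ D hD).1, Finset.subset_univ D⟩
    · exact ⟨(hL _ D hD).1, Finset.subset_univ D⟩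
    · exact ⟨(hL _ D hD).1, Finset.subset_univ D⟩
  · intro e he
    clear he
    rw [List.countP_append, List.countP_append, hL', hL', hL']
    unfold chi
    rcases d.surjE e with ⟨i, rfl⟩ | ⟨i, rfl⟩ | ⟨i, rfl⟩
    · rw [d.wp]
      simp only [hpX]
      revert i
      decide
    · rw [d.wq]
      simp only [hqX]
      have h1 : ∀ F : ZMod 3 → ℕ, F (π 0) + F (π 1) + F (π 2) = F 0 + F 1 + F 2 := by
        intro F
        have h2 := Equiv.sum_comp π F
        have h3 : ∀ H : ZMod 3 → ℕ, ∑ k, H k = H 0 + H 1 + H 2 := fun H => Fin.sum_univ_three H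
        rw [h3, h3] at h2
        exact h2
      have h2 := h1 (fun k => if k ≠ i ∧ k ≠ i + 1 then 1 else 0)
      refine h2.trans ?_
      clear h2
      revert i
      decide
    · rw [d.wm]
      simp only [hmmX]
      revert i
      decide

end PermX

open PermX in
theorem t_Perm (hChain : Stmt_Chain) (hBEnum : Stmt_BEnum) (hBDeco : Stmt_BDeco) : Stmt_Perm := by
  intro V E _ _ _ _ G w hm
  classical
  have h12 := deg_two (G := G) (w := w) hChain hm
  have hw : ∀ e, w e = 1 ∨ w e = 2 := fun e => hm.2.1.1 e (Finset.mem_univ e)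
  have hno : ¬ G.HasCover Finset.univ w := hm.2.2.1.2
  have h1 : ∀ v, G.deg (one w) v = 2 := fun v => (h12 v).2
  -- V is not empty
  obtain ⟨v0⟩ : Nonempty V := by
    by_contra hV
    rw [not_nonempty_iff] at hV
    refine hno ⟨[], fun D hD => absurd hD List.not_mem_nil, fun e _ => ?_⟩
    obtain ⟨a, -⟩ := G.exists_ends e
    exact hV.elim a
  -- chains
  have hch : ∀ e x y, w e = 2 → G.ends e = s(x, y) → ∃ t D, G.IsChain w e x y t D := by
    intro e x y he hxy
    obtain ⟨L, hL1, hL2⟩ := hm.2.2.2.2 e he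
    obtain ⟨D, hD, -⟩ := hChain V E G w hm e x y he hxy L hL1 hL2
    exact ⟨_, D, hD⟩
  -- the ends of an edge of weight 2 are on different circuits
  have hdiff : ∀ e x y, w e = 2 → G.ends e = s(x, y) → ∀ O, O ⊆ one w → G.IsCircuit O →
      G.deg O x = 2 → G.deg O y = 2 → False := by
    intro e x y he hxy O hO hc hx hy
    obtain ⟨t, D, hD⟩ := hch e x y he hxy
    apply hno
    refine cover_of_even hBEnum hBDeco hw h12 fun C hC hCc => ?_
    have hp := parity hm h12 hD hC hCc
    rw [← card_verts hCc]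
    have hne := G.ne_of_ends hxy
    by_cases hCx : G.deg C x = 2
    · have h2 := circ_eq h1 hO hC hc hCc hx hCx
      subst h2
      rw [Finset.card_erase_of_mem, Finset.card_erase_of_mem] at hp
      · have h3 : 2 ≤ (Finset.univ.filter (fun v => G.deg O v = 2)).card := by
          have h4 : ({x, y} : Finset V) ⊆ Finset.univ.filter (fun v => G.deg O v = 2) := by
            intro z hz
            rw [Finset.mem_insert, Finset.mem_singleton] at hz
            rw [Finset.mem_filter]
            rcases hz with rfl | rfl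
            · exact ⟨Finset.mem_univ _, hx⟩
            · exact ⟨Finset.mem_univ _, hy⟩
          have h5 := Finset.card_le_card h4
          rwa [Finset.card_pair hne] at h5
        obtain ⟨k, hk⟩ := hp
        exact ⟨k + 1, by omega⟩
      · rw [Finset.mem_filter]
        exact ⟨Finset.mem_univ _, hx⟩
      · rw [Finset.mem_erase, Finset.mem_filter]
        exact ⟨hne.symm, Finset.mem_univ _, hy⟩
    · have hCy : G.deg C y ≠ 2 := by
        intro h
        have h2 := circ_eq h1 hO hC hc hCc hy h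
        subst h2
        exact hCx hx
      rwa [Finset.erase_eq_of_notMem, Finset.erase_eq_of_notMem] at hp
      · rw [Finset.mem_filter]
        exact fun h => hCx h.2
      · rw [Finset.mem_erase, Finset.mem_filter]
        exact fun h => hCy h.2.2
  -- the circuit through an end of an edge of weight 2 is odd
  have hodd : ∀ O, O ⊆ one w → G.IsCircuit O → ∀ x, G.deg O x = 2 → Odd O.card := by
    intro O hO hc x hx
    obtain ⟨e, he, hex⟩ := (G.deg_pos_iff (X := two w) (v := x)).mp (by rw [(h12 x).1]; decide)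
    rw [mem_two] at he
    obtain ⟨y, hy⟩ := Sym2.mem_iff_exists.mp hex
    obtain ⟨t, D, hD⟩ := hch e x y he hy
    have hp := parity hm h12 hD hO hc
    have hyO : G.deg O y ≠ 2 := fun h => hdiff e x y he hy O hO hc hx h
    have h2 := card_verts hc
    rw [Finset.erase_eq_of_notMem (a := y), Finset.card_erase_of_mem] at hp
    · have h3 : 0 < (Finset.univ.filter (fun v => G.deg O v = 2)).card :=
        Finset.card_pos.mpr ⟨x, Finset.mem_filter.mpr ⟨Finset.mem_univ _, hx⟩⟩
      rw [← h2]
      obtain ⟨k, hk⟩ := hp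
      exact ⟨k, by omega⟩
    · rw [Finset.mem_filter]
      exact ⟨Finset.mem_univ _, hx⟩
    · rw [Finset.mem_erase, Finset.mem_filter]
      exact fun h => hyO h.2.2
  -- the two circuits
  obtain ⟨e0, he0, hev0⟩ := (G.deg_pos_iff (X := two w) (v := v0)).mp (by rw [(h12 v0).1]; decide)
  rw [mem_two] at he0
  obtain ⟨y0, hy0⟩ := Sym2.mem_iff_exists.mp hev0
  obtain ⟨O1, hO1, hc1, hv01⟩ := exists_circ hBDeco h1 v0
  obtain ⟨O2, hO2, hc2, hy02⟩ := exists_circ hBDeco h1 y0
  have hall : ∀ O, O ⊆ one w → G.IsCircuit O → ∀ v, G.deg O v = 2 → O = O1 ∨ O = O2 := by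
    intro O hO hc v hv
    by_contra hcon
    rw [not_or] at hcon
    obtain ⟨t, D, hD⟩ := hch e0 v0 y0 he0 hy0
    have hp := parity hm h12 hD hO hc
    have h2 := hodd O hO hc v hv
    have h3 : G.deg O v0 ≠ 2 := fun h => hcon.1 (circ_eq h1 hO hO1 hc hc1 h hv01)
    have h4 : G.deg O y0 ≠ 2 := fun h => hcon.2 (circ_eq h1 hO hO2 hc hc2 h hy02)
    rw [Finset.erase_eq_of_notMem, Finset.erase_eq_of_notMem, card_verts hc] at hp
    · exact (Nat.not_even_iff_odd.mpr h2) hp
    · rw [Finset.mem_filter]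
      exact fun h => h3 h.2
    · rw [Finset.mem_erase, Finset.mem_filter]
      exact fun h => h4 h.2.2
  have hcov : ∀ v, G.deg O1 v = 2 ∨ G.deg O2 v = 2 := by
    intro v
    obtain ⟨O, hO, hc, hv⟩ := exists_circ hBDeco h1 v
    rcases hall O hO hc v hv with rfl | rfl
    · exact Or.inl hv
    · exact Or.inr hv
  have hsep : ∀ v, ¬ (G.deg O1 v = 2 ∧ G.deg O2 v = 2) := by
    rintro v ⟨h2, h3⟩
    have h4 := circ_eq h1 hO1 hO2 hc1 hc2 h2 h3
    rw [← h4] at hy02
    exact hdiff e0 v0 y0 he0 hy0 O1 hO1 hc1 hv01 hy02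
  -- uniqueness of the edge of weight 2
  have huniq : ∀ v f f', w f = 2 → w f' = 2 → v ∈ G.ends f → v ∈ G.ends f' → f = f' := by
    intro v f f' hf hf' hv hv'
    have h2 : ((two w).filter (fun e => v ∈ G.ends e)).card = 1 := (h12 v).1
    rw [Finset.card_eq_one] at h2
    obtain ⟨z, hz⟩ := h2
    have h3 : f ∈ (two w).filter (fun e => v ∈ G.ends e) :=
      Finset.mem_filter.mpr ⟨mem_two.mpr hf, hv⟩
    have h4 : f' ∈ (two w).filter (fun e => v ∈ G.ends e) :=
      Finset.mem_filter.mpr ⟨mem_two.mpr hf', hv'⟩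
    rw [hz, Finset.mem_singleton] at h3 h4
    rw [h3, h4]
  obtain ⟨N, a, p, hN1, hN2, hainj, -, hendp, hmemp, hverta⟩ := enum hBEnum hc1
  obtain ⟨N', b, q, hN1', hN2', hbinj, -, hendq, hmemq, hvertb⟩ := enum hBEnum hc2
  -- the matching
  have hmat : ∀ i, ∃ f j, w f = 2 ∧ G.ends f = s(a i, b j) := by
    intro i
    obtain ⟨f, hf, hfv⟩ := (G.deg_pos_iff (X := two w) (v := a i)).mp
      (by rw [(h12 (a i)).1]; decide)
    rw [mem_two] at hf
    obtain ⟨y, hy⟩ := Sym2.mem_iff_exists.mp hfv
    have h2 : G.deg O1 (a i) = 2 := (hverta _).mpr ⟨i, rfl⟩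
    rcases hcov y with h3 | h3
    · exact (hdiff f (a i) y hf hy O1 hO1 hc1 h2 h3).elim
    · obtain ⟨j, rfl⟩ := (hvertb y).mp h3
      exact ⟨f, j, hf, hy⟩
  have hmat' : ∀ j, ∃ f i, w f = 2 ∧ G.ends f = s(a i, b j) := by
    intro j
    obtain ⟨f, hf, hfv⟩ := (G.deg_pos_iff (X := two w) (v := b j)).mp
      (by rw [(h12 (b j)).1]; decide)
    rw [mem_two] at hf
    obtain ⟨y, hy⟩ := Sym2.mem_iff_exists.mp hfv
    have h2 : G.deg O2 (b j) = 2 := (hvertb _).mpr ⟨j, rfl⟩
    rcases hcov y with h3 | h3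
    · obtain ⟨i, rfl⟩ := (hverta y).mp h3
      exact ⟨f, i, hf, by rw [hy, Sym2.eq_swap]⟩
    · exact (hdiff f (b j) y hf hy O2 hO2 hc2 h2 h3).elim
  have hab : ∀ i j, a i ≠ b j := by
    intro i j h
    refine hsep (a i) ⟨(hverta _).mpr ⟨i, rfl⟩, ?_⟩
    rw [h]
    exact (hvertb _).mpr ⟨j, rfl⟩
  choose m π hm2 hmends using hmat
  choose m' ρ hm2' hmends' using hmat'
  have hπ : Function.Injective π := by
    intro i i' h
    have h2 : m i = m i' := huniq (b (π i)) _ _ (hm2 i) (hm2 i')
      (by rw [hmends]; exact Sym2.mem_mk_right _ _)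
      (by rw [hmends, h]; exact Sym2.mem_mk_right _ _)
    have h3 : a i ∈ G.ends (m i') := by rw [← h2, hmends]; exact Sym2.mem_mk_left _ _
    rw [hmends, Sym2.mem_iff] at h3
    rcases h3 with h3 | h3
    · exact hainj h3
    · exact absurd h3 (hab _ _)
  have hρ : Function.Injective ρ := by
    intro i i' h
    have h2 : m' i = m' i' := huniq (a (ρ i)) _ _ (hm2' i) (hm2' i')
      (by rw [hmends']; exact Sym2.mem_mk_left _ _)
      (by rw [hmends', h]; exact Sym2.mem_mk_left _ _)
    have h3 : b i ∈ G.ends (m' i') := by rw [← h2, hmends']; exact Sym2.mem_mk_right _ _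
    rw [hmends', Sym2.mem_iff] at h3
    rcases h3 with h3 | h3
    · exact absurd h3.symm (hab _ _)
    · exact hbinj h3
  have : NeZero N := ⟨by omega⟩
  have : NeZero N' := ⟨by omega⟩
  have hNN : N = N' := by
    have h2 := Fintype.card_le_of_injective π hπ
    have h3 := Fintype.card_le_of_injective ρ hρ
    rw [ZMod.card, ZMod.card] at h2 h3
    omega
  subst hNN
  have hbij : Function.Bijective π := Finite.injective_iff_bijective.mp hπ
  have hd : PD G w N a b p q m (Equiv.ofBijective π hbij) := by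
    refine ⟨hainj, hbinj, hab, ?_, hendp, hendq, ?_, ?_, ?_, hm2, ?_⟩
    · intro v
      rcases hcov v with h | h
      · exact Or.inl ((hverta v).mp h)
      · exact Or.inr ((hvertb v).mp h)
    · intro i
      rw [Equiv.ofBijective_apply]
      exact hmends i
    · intro i
      exact mem_one.mp (hO1 ((hmemp _).mpr ⟨i, rfl⟩))
    · intro i
      exact mem_one.mp (hO2 ((hmemq _).mpr ⟨i, rfl⟩))
    · intro e
      obtain ⟨x, y, -, hxy⟩ := G.exists_ends e
      have hx : x ∈ G.ends e := by rw [hxy]; exact Sym2.mem_mk_left _ _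
      rcases hw e with h | h
      · rcases hcov x with h2 | h2
        · exact Or.inl ((hmemp e).mp (filter_eq hO1 (h1 x) h2 h hx))
        · exact Or.inr (Or.inl ((hmemq e).mp (filter_eq hO2 (h1 x) h2 h hx)))
      · right; right
        rcases hcov x with h2 | h2
        · obtain ⟨i, rfl⟩ := (hverta x).mp h2
          exact ⟨i, huniq (a i) _ _ h (hm2 i) hx (by rw [hmends]; exact Sym2.mem_mk_left _ _)⟩
        · obtain ⟨j, rfl⟩ := (hvertb x).mp h2
          obtain ⟨i, rfl⟩ := hbij.2 j
          exact ⟨i, huniq (b (π i)) _ _ h (hm2 i) hx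
            (by rw [hmends]; exact Sym2.mem_mk_right _ _)⟩
  have hoddN : Odd N := by
    rw [hN1]
    exact hodd O1 hO1 hc1 v0 hv01
  have hN3 : N ≠ 3 := by
    intro h
    subst h
    exact hno (three hBDeco hd)
  refine ⟨N, a, b, p, q, m, Equiv.ofBijective π hbij, ?_⟩
  refine ⟨hoddN, ?_, hd.inja, hd.injb, hd.disj, hd.surj, hd.endp, hd.endq, hd.endm, hd.wp, hd.wq,
    hd.wm, hd.surjE⟩
  obtain ⟨k, hk⟩ := hoddN
  omega

end MGraph

end Pool.GOD
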