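import Pool.Agent.GOD.StmtG

/-!
No alternating circuit with two edges of weight 2 in a minimal contra pair.
-/

set_option autoImplicit false
set_option linter.unusedSectionVars false

namespace Pool.GOD

namespace MGraph

namespace QuadX

variable {V E : Type} [Fintype V] [DecidableEq V] [Fintype E] [DecidableEq E] {G : MGraph V E}

lemma deg_eq_sum (D : Finset E) (v : V) :
    G.deg D v = ∑ e ∈ D, if v ∈ G.ends e then 1 else 0 := by
  rw [deg, Finset.card_filter]

/-- twice the number of edges is the sum of the degrees -/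
lemma sum_deg_univ (X : Finset E) : ∑ v, G.deg X v = 2 * X.card := by
  have h := G.sum_deg X Finset.univ
  rw [cut_univ, Finset.inter_empty, Finset.card_empty, zero_add] at h
  rw [h]
  congr 2
  ext e
  simp

lemma one_inter_two (w : E → ℕ) : Disjoint (one w) (two w) := by
  rw [Finset.disjoint_left]
  intro e h1 h2
  simp only [one, two, Finset.mem_filter, Finset.mem_univ, true_and] at h1 h2
  omega

lemma split_deg {w : E → ℕ} (hw : ∀ e, w e = 1 ∨ w e = 2) (D : Finset E) (v : V) :
    G.deg D v = G.deg (D ∩ one w) v + G.deg (D ∩ two w) v := by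
  have h1 : Disjoint (D ∩ one w) (D ∩ two w) :=
    Disjoint.mono Finset.inter_subset_right Finset.inter_subset_right (one_inter_two w)
  rw [← G.deg_union h1]
  congr 1
  ext e
  simp only [one, two, Finset.mem_union, Finset.mem_inter, Finset.mem_filter, Finset.mem_univ,
    true_and]
  rcases hw e with h | h <;> simp [h]

lemma split_card {w : E → ℕ} (hw : ∀ e, w e = 1 ∨ w e = 2) (D : Finset E) :
    D.card = (D ∩ one w).card + (D ∩ two w).card := by
  have h1 : Disjoint (D ∩ one w) (D ∩ two w) :=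
    Disjoint.mono Finset.inter_subset_right Finset.inter_subset_right (one_inter_two w)
  rw [← Finset.card_union_of_disjoint h1]
  congr 1
  ext e
  simp only [one, two, Finset.mem_union, Finset.mem_inter, Finset.mem_filter, Finset.mem_univ,
    true_and]
  rcases hw e with h | h <;> simp [h]

/-- an alternating circuit has as many edges of weight 1 as edges of weight 2 -/
lemma card_alt {w : E → ℕ} (hw : ∀ e, w e = 1 ∨ w e = 2) {D : Finset E} (hD : G.IsAlt w D) :
    (D ∩ one w).card = (D ∩ two w).card := by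
  have h1 : ∀ v, G.deg D v = 2 * G.deg (D ∩ two w) v := by
    intro v
    rcases hD.1.2.1 v with h | h
    · have h2 := split_deg (G := G) hw D v
      omega
    · rw [hD.2 v h, h]
  have h2 := sum_deg_univ (G := G) D
  have h3 := sum_deg_univ (G := G) (D ∩ two w)
  have h4 : ∑ v, G.deg D v = 2 * ∑ v, G.deg (D ∩ two w) v := by
    rw [Finset.mul_sum]
    exact Finset.sum_congr rfl fun v _ => h1 v
  have h5 := split_card hw D
  omega

lemma two_ne_zero_alt {w : E → ℕ} {D : Finset E} (hD : G.IsAlt w D) :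
    (D ∩ two w).card ≠ 0 := by
  intro h0
  obtain ⟨e, he⟩ := hD.1.1
  obtain ⟨a, b, -, hab⟩ := G.exists_ends e
  have h1 : 0 < G.deg D a := G.deg_pos_iff.2 ⟨e, he, by rw [hab]; exact Sym2.mem_mk_left a b⟩
  have h2 : G.deg D a = 2 := by
    rcases hD.1.2.1 a with h | h
    · omega
    · exact h
  have h3 := hD.2 a h2
  rw [Finset.card_eq_zero] at h0
  rw [h0] at h3
  simp [deg] at h3

/-- the first part for a graph with the cut property -/
lemma bridgeless_rest {w : E → ℕ} (hw : ∀ e, w e = 1 ∨ w e = 2) (hc : G.Cubic)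
    (hcut : ∀ S : Finset V, (G.cut S).card ≤ 3 →
      S = ∅ ∨ S = Finset.univ ∨ (∃ v, S = {v}) ∨ ∃ v, S = {v}ᶜ)
    {D : Finset E} (hD : G.IsAlt w D) (h2 : (D ∩ two w).card = 2) :
    G.Bridgeless (rest w D) := by
  intro h hb
  obtain ⟨S, hS⟩ := G.isBridge_iff.1 hb
  have h1 : (D ∩ one w).card = 2 := by rw [card_alt hw hD, h2]
  have hsub : G.cut S ⊆ insert h (D ∩ one w) := by
    intro e he
    rw [Finset.mem_insert]
    by_cases h3 : e ∈ D ∩ one w
    · exact Or.inr h3
    · left
      have : e ∈ rest w D ∩ G.cut S :=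
        Finset.mem_inter.2 ⟨Finset.mem_sdiff.2 ⟨Finset.mem_univ _, h3⟩, he⟩
      rw [hS, Finset.mem_singleton] at this
      exact this
  have hcard : (insert h (D ∩ one w)).card ≤ 3 := by
    have := Finset.card_insert_le h (D ∩ one w)
    omega
  have hmem : h ∈ G.cut S := by
    have : h ∈ rest w D ∩ G.cut S := by rw [hS]; exact Finset.mem_singleton_self h
    exact (Finset.mem_inter.1 this).2
  have key : ∀ v, G.cut S ≠ G.star v := by
    intro v hv
    have h3 : (G.cut S).card = 3 := by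
      rw [hv]
      exact hc v
    have h4 : G.cut S = insert h (D ∩ one w) :=
      Finset.eq_of_subset_of_card_le hsub (by omega)
    have h5 : D ∩ one w ⊆ G.star v := by
      rw [← hv, h4]
      exact Finset.subset_insert _ _
    have h6 : G.deg (D ∩ one w) v = 2 := by
      rw [deg, Finset.filter_true_of_mem, h1]
      intro e he
      exact G.mem_star.1 (h5 he)
    have h7 := split_deg (G := G) hw D v
    rcases hD.1.2.1 v with h8 | h8
    · omega
    · have h9 := hD.2 v h8
      omega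
  rcases hcut S ((Finset.card_le_card hsub).trans hcard) with rfl | rfl | ⟨v, rfl⟩ | ⟨v, rfl⟩
  · rw [cut_empty] at hmem
    exact absurd hmem (Finset.notMem_empty _)
  · rw [cut_univ] at hmem
    exact absurd hmem (Finset.notMem_empty _)
  · exact key v (G.cut_singleton v)
  · exact key v (by rw [cut_compl, G.cut_singleton v])

/-- a quadrilateral -/
lemma alt_quad {w : E → ℕ} {x1 x2 x3 x4 : V} {e1 e2 e3 e4 : E} (h12 : x1 ≠ x2) (h13 : x1 ≠ x3)
    (h14 : x1 ≠ x4) (h23 : x2 ≠ x3) (h24 : x2 ≠ x4) (h34 : x3 ≠ x4)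
    (he1 : G.ends e1 = s(x1, x2)) (he2 : G.ends e2 = s(x2, x3)) (he3 : G.ends e3 = s(x3, x4))
    (he4 : G.ends e4 = s(x4, x1)) (w1 : w e1 = 2) (w2 : w e2 = 1) (w3 : w e3 = 2)
    (w4 : w e4 = 1) :
    G.IsAlt w {e1, e2, e3, e4} ∧ (({e1, e2, e3, e4} : Finset E) ∩ two w).card = 2 := by
  have d12 : e1 ≠ e2 := by rintro rfl; omega
  have d14 : e1 ≠ e4 := by rintro rfl; omega
  have d23 : e2 ≠ e3 := by rintro rfl; omega
  have d34 : e3 ≠ e4 := by rintro rfl; omega
  have d13 : e1 ≠ e3 := by
    rintro rfl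
    rw [he1] at he3
    have : x1 ∈ (s(x3, x4) : Sym2 V) := he3 ▸ Sym2.mem_mk_left x1 x2
    rw [Sym2.mem_iff] at this
    tauto
  have d24 : e2 ≠ e4 := by
    rintro rfl
    rw [he2] at he4
    have : x2 ∈ (s(x4, x1) : Sym2 V) := he4 ▸ Sym2.mem_mk_left x2 x3
    rw [Sym2.mem_iff] at this
    rcases this with h | h
    · exact h24 h
    · exact h12 h.symm
  have hdeg : ∀ v, G.deg {e1, e2, e3, e4} v = (if v ∈ G.ends e1 then 1 else 0) +
      ((if v ∈ G.ends e2 then 1 else 0) + ((if v ∈ G.ends e3 then 1 else 0) +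
      (if v ∈ G.ends e4 then 1 else 0))) := by
    intro v
    rw [deg_eq_sum, Finset.sum_insert, Finset.sum_insert, Finset.sum_insert,
      Finset.sum_singleton]
    · simpa using d34
    · simp only [Finset.mem_insert, Finset.mem_singleton, not_or]
      exact ⟨d23, d24⟩
    · simp only [Finset.mem_insert, Finset.mem_singleton, not_or]
      exact ⟨d12, d13, d14⟩
  have hint : ({e1, e2, e3, e4} : Finset E) ∩ two w = {e1, e3} := by
    ext e
    simp only [two, Finset.mem_inter, Finset.mem_insert, Finset.mem_singleton, Finset.mem_filter,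
      Finset.mem_univ, true_and]
    constructor
    · rintro ⟨h | h | h | h, h2⟩
      · exact Or.inl h
      · rw [h] at h2; omega
      · exact Or.inr h
      · rw [h] at h2; omega
    · rintro (h | h)
      · exact ⟨Or.inl h, by rw [h]; exact w1⟩
      · exact ⟨Or.inr (Or.inr (Or.inl h)), by rw [h]; exact w3⟩
  have hdeg2 : ∀ v, G.deg {e1, e3} v = (if v ∈ G.ends e1 then 1 else 0) +
      (if v ∈ G.ends e3 then 1 else 0) := by
    intro v
    rw [deg_eq_sum, Finset.sum_insert, Finset.sum_singleton]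
    simpa using d13
  have hv : ∀ v, (v = x1 ∨ v = x2 ∨ v = x3 ∨ v = x4) ∨
      (v ≠ x1 ∧ v ≠ x2 ∧ v ≠ x3 ∧ v ≠ x4) := by
    intro v
    tauto
  have hval : ∀ v, (v = x1 ∨ v = x2 ∨ v = x3 ∨ v = x4) →
      G.deg {e1, e2, e3, e4} v = 2 ∧ G.deg {e1, e3} v = 1 := by
    intro v h
    rw [hdeg, hdeg2, he1, he2, he3, he4]
    simp only [Sym2.mem_iff]
    rcases h with rfl | rfl | rfl | rfl
    · simp [h12, h13, h14]
    · simp [h12.symm, h23, h24]
    · simp [h13.symm, h23.symm, h34]
    · simp [h14.symm, h24.symm, h34.symm]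
  have hval0 : ∀ v, (v ≠ x1 ∧ v ≠ x2 ∧ v ≠ x3 ∧ v ≠ x4) →
      G.deg {e1, e2, e3, e4} v = 0 := by
    rintro v ⟨h1, h2, h3, h4⟩
    rw [hdeg, he1, he2, he3, he4]
    simp [Sym2.mem_iff, h1, h2, h3, h4]
  have hc1 : G.ConnIn {e1, e2, e3, e4} x1 x2 := ConnIn.single (e := e1) (by simp) he1
  have hc2 : G.ConnIn {e1, e2, e3, e4} x1 x3 :=
    hc1.trans (ConnIn.single (e := e2) (by simp) he2)
  have hc3 : G.ConnIn {e1, e2, e3, e4} x1 x4 :=
    hc2.trans (ConnIn.single (e := e3) (by simp) he3)
  have hcv : ∀ v, G.deg {e1, e2, e3, e4} v = 2 → G.ConnIn {e1, e2, e3, e4} x1 v := by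
    intro v h
    rcases hv v with (rfl | rfl | rfl | rfl) | h'
    · exact ConnIn.refl _ _
    · exact hc1
    · exact hc2
    · exact hc3
    · rw [hval0 v h'] at h
      omega
  refine ⟨⟨⟨⟨e1, by simp⟩, fun v => ?_, fun a b ha hb => (hcv a ha).symm.trans (hcv b hb)⟩,
    fun v h => ?_⟩, ?_⟩
  · rcases hv v with h | h
    · exact Or.inr (hval v h).1
    · exact Or.inl (hval0 v h)
  · rw [hint]
    rcases hv v with h' | h'
    · exact (hval v h').2
    · rw [hval0 v h'] at h
      omega
  · rw [hint, Finset.card_insert_of_notMem (by simpa using d13), Finset.card_singleton]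

end QuadX

open QuadX in
theorem t_Quad (hAlt : Stmt_Alt) (hCyc4 : Stmt_Cyc4) : Stmt_Quad := by
  intro V E _ _ _ _ G w hM n a b p q m π hd
  have : NeZero n := ⟨by have := hd.five; omega⟩
  have hw : ∀ e, w e = 1 ∨ w e = 2 := by
    intro e
    rcases hd.surjE e with ⟨i, rfl⟩ | ⟨i, rfl⟩ | ⟨i, rfl⟩
    · exact Or.inl (hd.wp i)
    · exact Or.inl (hd.wq i)
    · exact Or.inr (hd.wm i)
  have hc : G.Cubic := hM.1
  have htwo : ∀ e, e ∈ two w ↔ ∃ i, e = m i := by
    intro e
    simp only [two, Finset.mem_filter, Finset.mem_univ, true_and]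
    constructor
    · intro h
      rcases hd.surjE e with ⟨i, rfl⟩ | ⟨i, rfl⟩ | ⟨i, rfl⟩
      · rw [hd.wp i] at h; omega
      · rw [hd.wq i] at h; omega
      · exact ⟨i, rfl⟩
    · rintro ⟨i, rfl⟩
      exact hd.wm i
  have hdeg2 : ∀ v, G.deg (two w) v = 1 := by
    intro v
    rw [deg, Finset.card_eq_one]
    rcases hd.surj v with ⟨i, rfl⟩ | ⟨i, rfl⟩
    · refine ⟨m i, ?_⟩
      ext e
      rw [Finset.mem_filter, Finset.mem_singleton, htwo]
      constructor
      · rintro ⟨⟨j, rfl⟩, h⟩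
        rw [hd.endm j, Sym2.mem_iff] at h
        rcases h with h | h
        · rw [hd.inja h]
        · exact absurd h (hd.disj _ _)
      · rintro rfl
        exact ⟨⟨i, rfl⟩, by rw [hd.endm i]; exact Sym2.mem_mk_left _ _⟩
    · refine ⟨m (π.symm i), ?_⟩
      ext e
      rw [Finset.mem_filter, Finset.mem_singleton, htwo]
      constructor
      · rintro ⟨⟨j, rfl⟩, h⟩
        rw [hd.endm j, Sym2.mem_iff] at h
        rcases h with h | h
        · exact absurd h.symm (hd.disj _ _)
        · rw [hd.injb h, Equiv.symm_apply_apply]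
      · rintro rfl
        refine ⟨⟨_, rfl⟩, ?_⟩
        rw [hd.endm, Equiv.apply_symm_apply]
        exact Sym2.mem_mk_right _ _
  have hdeg1 : ∀ v, G.deg (one w) v = 2 := by
    intro v
    have h1 := split_deg (G := G) hw Finset.univ v
    rw [Finset.univ_inter, Finset.univ_inter, hdeg2 v, hc v] at h1
    omega
  have hcutA : G.cut (Finset.univ.image a) = two w := by
    ext e
    rw [htwo]
    have hin : ∀ i, a i ∈ Finset.univ.image a := fun i =>
      Finset.mem_image.2 ⟨i, Finset.mem_univ _, rfl⟩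
    have hout : ∀ i, b i ∉ Finset.univ.image a := by
      intro i h
      obtain ⟨j, -, hj⟩ := Finset.mem_image.1 h
      exact hd.disj j i hj
    rcases hd.surjE e with ⟨i, rfl⟩ | ⟨i, rfl⟩ | ⟨i, rfl⟩
    · rw [G.mem_cut (hd.endp i)]
      constructor
      · rintro (⟨-, h⟩ | ⟨-, h⟩) <;> exact absurd (hin _) h
      · rintro ⟨j, hj⟩
        have h1 := hd.wp i
        rw [hj, hd.wm j] at h1
        omega
    · rw [G.mem_cut (hd.endq i)]
      constructor
      · rintro (⟨h, -⟩ | ⟨h, -⟩) <;> exact absurd h (hout _)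
      · rintro ⟨j, hj⟩
        have h1 := hd.wq i
        rw [hj, hd.wm j] at h1
        omega
    · rw [G.mem_cut (hd.endm i)]
      exact ⟨fun _ => ⟨i, rfl⟩, fun _ => Or.inl ⟨hin i, hout _⟩⟩
  have hfirst : ∀ D, G.IsAlt w D → 4 ≤ (D ∩ two w).card := by
    intro D hD
    have h1 : Even (D ∩ two w).card := by
      rw [← hcutA]
      exact IsEven.card_inter_cut G (IsCircuit.isEven G hD.1) _
    have h2 := two_ne_zero_alt hD
    have h3 : (D ∩ two w).card ≠ 2 := by
      intro h3
      have hb := bridgeless_rest hw hc (hCyc4 V E G w n a b p q m π hd) hD h3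
      exact hM.2.2.2.1 D
        (((hAlt V E G w hw fun v => ⟨hdeg2 v, hdeg1 v⟩).1 D).2 ⟨hD, hb⟩)
    obtain ⟨k, hk⟩ := h1
    omega
  have hne : ∀ i : ZMod n, i ≠ i + 1 := by
    intro i h
    have h1 : (1 : ZMod n) = 0 := by
      have := h.symm
      rwa [add_eq_left] at this
    have h5 := hd.five
    have : Fact (1 < n) := ⟨by omega⟩
    exact one_ne_zero h1
  have key : ∀ i g, G.ends g = s(b (π (i + 1)), b (π i)) → w g = 1 → False := by
    intro i g hg hg1
    have h1 : a i ≠ a (i + 1) := fun h => hne i (hd.inja h)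
    have h2 : b (π i) ≠ b (π (i + 1)) := fun h => hne i (π.injective (hd.injb h))
    have h3 := alt_quad (G := G) (w := w) (x1 := b (π i)) (x2 := a i) (x3 := a (i + 1))
      (x4 := b (π (i + 1))) (e1 := m i) (e2 := p i) (e3 := m (i + 1)) (e4 := g)
      (hd.disj _ _).symm (hd.disj _ _).symm h2 h1 (hd.disj _ _) (hd.disj _ _)
      (by rw [hd.endm, Sym2.eq_swap]) (hd.endp i) (hd.endm (i + 1)) hg (hd.wm _) (hd.wp _)
      (hd.wm _) hg1
    have h4 := hfirst _ h3.1
    rw [h3.2] at h4
    omega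
  refine ⟨hfirst, fun i => ⟨fun h => ?_, fun h => ?_⟩⟩
  · exact key i (q (π i)) (by rw [hd.endq, h, Sym2.eq_swap]) (hd.wq _)
  · refine key i (q (π i - 1)) ?_ (hd.wq _)
    rw [hd.endq, h, sub_add_cancel]

end MGraph

end Pool.GOD
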