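import Pool.Agent.GOD.StmtG
import Pool.Agent.GOD.BCirc
import Pool.Agent.GOD.BDeco
import Pool.Agent.GOD.BEnum
import Pool.Agent.GOD.Chain
import Pool.Agent.GOD.Perm
import Pool.Agent.GOD.Cyc4
import Pool.Agent.GOD.Alt
import Pool.Agent.GOD.Quad
import Pool.Agent.GOD.P10
import Pool.Agent.GOD.Iso
import Pool.Agent.GOD.Five

/-!
Assembly of the graph-theoretic base layer of MP_7b7176_co: everything except the main theorem
(`Stmt_Main`: a minimal contra pair, which is a permutation graph of odd order `n`, has `n = 5`).
-/

set_option autoImplicit false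

namespace Pool.GOD

namespace MGraph

/-- Even sets are unions of circuits. -/
theorem a_BDeco : Stmt_BDeco := t_BDeco t_BCirc

/-- Cyclic enumeration of circuits. -/
theorem a_BEnum : Stmt_BEnum := t_BEnum t_BCirc t_BMin

/-- The covers of `G - e` are chains. -/
theorem a_Chain : Stmt_Chain := t_Chain t_BCirc

/-- Minimal contra pairs are permutation graphs. -/
theorem a_Perm : Stmt_Perm := t_Perm a_Chain a_BEnum a_BDeco

/-- Minimal contra pairs have no alternating quadrilateral. -/
theorem a_Quad : Stmt_Quad := t_Quad t_Alt t_Cyc4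

/-- Q1 follows from the main theorem. -/
theorem q1_of_main (h : Stmt_Main) : Q1 :=
  q1_of a_Perm a_Quad t_P10 t_Iso t_Five h

end MGraph

end Pool.GOD
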