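import Pool.Agent.GOD.StmtS2
import Pool.Agent.GOD.S.Delta0
import Pool.Agent.GOD.S.PermSymm
import Pool.Agent.GOD.S.Basic
import Pool.Agent.GOD.S.Odd
import Pool.Agent.GOD.S.Delta
import Pool.Agent.GOD.S.EndE
import Pool.Agent.GOD.S.EndRev
import Pool.Agent.GOD.S.MidE
import Pool.Agent.GOD.S.Cut
import Pool.Agent.GOD.S.Next
import Pool.Agent.GOD.S.Tri
import Pool.Agent.GOD.S.NewEnd
import Pool.Agent.GOD.S.NewOther
import Pool.Agent.GOD.S.Sum
import Pool.Agent.GOD.S.Exch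
import Pool.Agent.GOD.S.Ext
import Pool.Agent.GOD.S.Pos
import Pool.Agent.GOD.S.BondsX
import Pool.Agent.GOD.S.Uniq
import Pool.Agent.GOD.S.K
import Pool.Agent.GOD.S.Struct
import Pool.Agent.GOD.S.Fin
import Pool.Agent.GOD.S.Pi
import Pool.Agent.GOD.S.Arith
import Pool.Agent.GOD.S.IsoExt
import Pool.Agent.GOD.S.P10Ext

/-!
The strong version of Q1 of MP_7b7176_co: assembly.
-/

set_option autoImplicit false

namespace Pool.GOD

namespace MGraph

theorem a_S_Delta0 : Stmt_S_Delta0 := s_Delta0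
theorem a_S_PermSymm : Stmt_S_PermSymm := s_PermSymm
theorem a_S_Basic : Stmt_S_Basic := s_Basic
theorem a_S_Odd : Stmt_S_Odd := s_Odd a_S_Delta0 a_S_PermSymm
theorem a_S_Delta : Stmt_S_Delta := s_Delta a_S_Delta0 a_S_PermSymm
theorem a_S_EndE : Stmt_S_EndE := s_EndE
theorem a_S_EndRev : Stmt_S_EndRev := s_EndRev
theorem a_S_MidE : Stmt_S_MidE := s_MidE
theorem a_S_Cut : Stmt_S_Cut := s_Cut
theorem a_S_Next : Stmt_S_Next := s_Next
theorem a_S_Tri : Stmt_S_Tri := s_Tri a_S_EndE a_S_MidE a_S_Next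
theorem a_S_NewEnd : Stmt_S_NewEnd := s_NewEnd
theorem a_S_NewOther : Stmt_S_NewOther := s_NewOther
theorem a_S_Sum : Stmt_S_Sum := s_Sum
theorem a_S_Exch : Stmt_S_Exch := s_Exch a_S_NewEnd a_S_NewOther a_S_Sum
theorem a_S_Ext : Stmt_S_Ext := s_Ext a_S_Exch a_S_EndE
theorem a_S_Pos : Stmt_S_Pos := s_Pos a_S_Ext
theorem a_S_Bonds : Stmt_S_Bonds := s_BondsX a_S_EndE a_S_Cut a_S_Tri a_S_Pos
theorem a_S_Uniq : Stmt_S_Uniq := s_Uniq
theorem a_S_K : Stmt_S_K := s_K a_S_Uniq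
theorem a_S_Struct : Stmt_S_Struct := s_Struct a_S_EndRev a_S_Bonds a_S_Exch a_S_K
theorem a_S_Fin : Stmt_S_Fin := s_Fin a_S_EndE a_S_NewEnd a_S_Exch a_S_Struct
theorem a_S_Pi : Stmt_S_Pi := s_Pi a_S_EndE
theorem a_S_Arith : Stmt_S_Arith := s_Arith

/-- **the strong version** -/
theorem strong {V E : Type} [Fintype V] [DecidableEq V] [Fintype E] [DecidableEq E]
    (G : MGraph V E) (w : E → ℕ) (hm : G.MinContra w) (hx : G.Extendable w) :
    WIso G w P10 w10 :=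
  strong_of a_S_Basic a_S_Odd a_S_Delta a_S_PermSymm a_S_EndE a_S_Fin a_S_Pi a_S_Arith G w hm hx

/-- **characterisation of `(P10, w10)`** -/
theorem strong_iff {V E : Type} [Fintype V] [DecidableEq V] [Fintype E] [DecidableEq E]
    (G : MGraph V E) (w : E → ℕ) : (G.MinContra w ∧ G.Extendable w) ↔ WIso G w P10 w10 :=
  char_of s_IsoExt s_P10Ext (fun _ _ _ _ _ _ G w => strong G w) G w

end MGraph

end Pool.GOD
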