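import Mathlib

/-!
Lemma P' of helper30 (problem MP_7b7176_co): the one-rooted statement for two linear orders which
uses only the pairs with exactly one empty rectangle.

A finite set `X` of points with coordinates `a`, `b` (injective), `lt x y` iff both coordinates are
smaller, a set of red points.  `Nb lt red x t` is the rooted matrix.
-/

namespace Pool.GOD.P2

variable {X : Type*}

/-- the rooted matrix: comparable, or the same red point -/
def Nb (lt : X → X → Prop) (red : X → Prop) (x t : X) : Prop :=
  lt x t ∨ lt t x ∨ (x = t ∧ red x)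

/-- the row of `x` is contained in the row of `y` -/
def Le (lt : X → X → Prop) (red : X → Prop) (x y : X) : Prop :=
  ∀ t, Nb lt red x t → Nb lt red y t

/-- `v` is a splitter of the comparable red points `p, q` on the side of `p` -/
def Side (lt : X → X → Prop) (red : X → Prop) (p q v : X) : Prop :=
  ¬ red v ∧ Nb lt red p v ∧ ¬ Nb lt red q v ∧
    (∀ t, Nb lt red v t → Nb lt red p t → Nb lt red q t) ∧
    (∀ t, Nb lt red q t → Nb lt red v t ∨ Nb lt red p t)

/-- vertical strip -/
def AV (a b : X → ℤ) (p q t : X) : Prop := a p < a t ∧ a t < a q ∧ (b q < b t ∨ b t < b p)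

/-- the hypotheses of Lemma P' -/
structure Hyp (a b : X → ℤ) (lt : X → X → Prop) (red : X → Prop) : Prop where
  ha : Function.Injective a
  hb : Function.Injective b
  hlt : ∀ x y, lt x y ↔ (a x < a y ∧ b x < b y)
  /-- no twins among the red points -/
  ntw : ∀ p q, red p → red q → lt p q → (∃ t, AV a b p q t) ∨ (∃ t, AV b a p q t)
  h1 : ∀ v, ¬ red v → (∃ t, Nb lt red v t) → ((∀ t, ¬ lt t v) ∨ (∀ t, ¬ lt v t)) →
    ∃ z, red z ∧ Nb lt red v z ∧ Le lt red v z
  h2 : ∀ p q, red p → red q → lt p q →
    (((∀ t, ¬ AV a b p q t) ∧ ∃ t, AV b a p q t) ∨ ((∀ t, ¬ AV b a p q t) ∧ ∃ t, AV a b p q t)) →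
    ∃ v, Side lt red p q v ∨ Side lt red q p v
  h3 : ∀ p q, red p → red q → a p < a q → b q < b p →
    (∀ t, ¬ (a p < a t ∧ a t < a q ∧ b q < b t ∧ b t < b p)) →
    (∃ t, Nb lt red p t ∧ Nb lt red q t) →
    ∃ v, ¬ red v ∧ ¬ Nb lt red p v ∧ ¬ Nb lt red q v ∧
      (∀ t, Nb lt red p t → Nb lt red q t → Nb lt red v t) ∧
      (∀ t, Nb lt red v t → Nb lt red p t ∨ Nb lt red q t)

variable {a b : X → ℤ} {lt : X → X → Prop} {red : X → Prop}

theorem Nb.symm {x t : X} (h : Nb lt red x t) : Nb lt red t x := by
  rcases h with h | h | ⟨h, h'⟩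
  · exact Or.inr (Or.inl h)
  · exact Or.inl h
  · subst h; exact Or.inr (Or.inr ⟨rfl, h'⟩)

/-- exchange of the coordinates -/
theorem Hyp.swap (h : Hyp a b lt red) : Hyp b a lt red where
  ha := h.hb
  hb := h.ha
  hlt := fun x y => by rw [h.hlt]; exact and_comm
  ntw := fun p q hp hq hpq => (h.ntw p q hp hq hpq).symm
  h1 := h.h1
  h2 := fun p q hp hq hpq H => h.h2 p q hp hq hpq H.symm
  h3 := by
    intro p q hp hq hpq hqp hE hN
    obtain ⟨t, ht1, ht2⟩ := hN
    obtain ⟨v, hv, h1, h2, h3, h4⟩ := h.h3 q p hq hp hqp hpq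
      (fun t ht => hE t ⟨ht.2.2.1, ht.2.2.2, ht.1, ht.2.1⟩) ⟨t, ht2, ht1⟩
    exact ⟨v, hv, h2, h1, fun t h5 h6 => h3 t h6 h5, fun t ht => (h4 t ht).symm⟩

/-- a red point with an inclusion-maximal row -/
def Star (lt : X → X → Prop) (red : X → Prop) (s : X) : Prop :=
  red s ∧ ∀ s', red s' → Le lt red s s' → s' = s

theorem Hyp.irr (h : Hyp a b lt red) (x : X) : ¬ lt x x := by
  rw [h.hlt]; omega

theorem Hyp.trans (h : Hyp a b lt red) {x y z : X} (h1 : lt x y) (h2 : lt y z) : lt x z := by
  rw [h.hlt] at *; omega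

theorem Hyp.anti (h : Hyp a b lt red) {x y : X} (hx : red x) (hy : red y)
    (h1 : Le lt red x y) (h2 : Le lt red y x) : x = y := by
  by_contra hne
  -- a red pair with the same row is comparable
  have key : ∀ x y, red x → red y → lt x y → Le lt red x y → Le lt red y x → False := by
    intro x y hx hy hxy h1 h2
    have hl := (h.hlt x y).1 hxy
    rcases h.ntw x y hx hy hxy with ⟨t, ht1, ht2, ht3⟩ | ⟨t, ht1, ht2, ht3⟩
    · rcases ht3 with ht3 | ht3
      · have hxt : Nb lt red x t := Or.inl ((h.hlt x t).2 ⟨ht1, by omega⟩)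
        rcases h1 t hxt with h4 | h4 | ⟨h4, _⟩
        · rw [h.hlt] at h4; omega
        · rw [h.hlt] at h4; omega
        · subst h4; omega
      · have hyt : Nb lt red y t := Or.inr (Or.inl ((h.hlt t y).2 ⟨ht2, by omega⟩))
        rcases h2 t hyt with h4 | h4 | ⟨h4, _⟩
        · rw [h.hlt] at h4; omega
        · rw [h.hlt] at h4; omega
        · subst h4; omega
    · rcases ht3 with ht3 | ht3
      · have hxt : Nb lt red x t := Or.inl ((h.hlt x t).2 ⟨by omega, ht1⟩)
        rcases h1 t hxt with h4 | h4 | ⟨h4, _⟩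
        · rw [h.hlt] at h4; omega
        · rw [h.hlt] at h4; omega
        · subst h4; omega
      · have hyt : Nb lt red y t := Or.inr (Or.inl ((h.hlt t y).2 ⟨by omega, ht2⟩))
        rcases h2 t hyt with h4 | h4 | ⟨h4, _⟩
        · rw [h.hlt] at h4; omega
        · rw [h.hlt] at h4; omega
        · subst h4; omega
  have h3 : Nb lt red y x := h1 x (Or.inr (Or.inr ⟨rfl, hx⟩))
  rcases h3 with h3 | h3 | ⟨h3, _⟩
  · exact key y x hy hx h3 h2 h1
  · exact key x y hx hy h3 h1 h2
  · exact hne h3.symm

theorem Hyp.exists_star_red [Finite X] (h : Hyp a b lt red) {x : X} (hx : red x) :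
    ∃ s, Star lt red s ∧ Le lt red x s := by
  classical
  have : Fintype X := Fintype.ofFinite X
  let f : X → ℕ := fun s => (Finset.univ.filter (fun t => Nb lt red s t)).card
  have hne : (Finset.univ.filter (fun s => red s ∧ Le lt red x s)).Nonempty :=
    ⟨x, by simp only [Finset.mem_filter, Finset.mem_univ, true_and]; exact ⟨hx, fun t h => h⟩⟩
  obtain ⟨s, hs, hmax⟩ := Finset.exists_max_image _ f hne
  simp only [Finset.mem_filter, Finset.mem_univ, true_and] at hs hmax
  refine ⟨s, ⟨hs.1, ?_⟩, hs.2⟩
  intro s' hs' hle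
  have h1 : f s' ≤ f s := hmax s' ⟨hs', fun t ht => hle t (hs.2 t ht)⟩
  have hsub : Finset.univ.filter (fun t => Nb lt red s t) ⊆
      Finset.univ.filter (fun t => Nb lt red s' t) := by
    intro t ht
    simp only [Finset.mem_filter, Finset.mem_univ, true_and] at ht ⊢
    exact hle t ht
  have heq := Finset.eq_of_subset_of_card_le hsub h1
  apply h.anti hs' hs.1 _ hle
  intro t ht
  have : t ∈ Finset.univ.filter (fun t => Nb lt red s' t) := by
    simp only [Finset.mem_filter, Finset.mem_univ, true_and]; exact ht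
  rw [← heq] at this
  simpa only [Finset.mem_filter, Finset.mem_univ, true_and] using this

/-- red points and minimal or maximal points with a neighbour have a star -/
theorem Hyp.exists_star [Finite X] (h : Hyp a b lt red) {t : X} (ht : ∃ s, Nb lt red t s)
    (hm : (∀ s, ¬ lt s t) ∨ (∀ s, ¬ lt t s)) :
    ∃ d, Star lt red d ∧ Nb lt red d t ∧ Le lt red t d := by
  classical
  by_cases hr : red t
  · obtain ⟨s, hs, hle⟩ := h.exists_star_red hr
    exact ⟨s, hs, hle t (Or.inr (Or.inr ⟨rfl, hr⟩)), hle⟩
  · obtain ⟨z, hz, htz, hle⟩ := h.h1 t hr ht hm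
    obtain ⟨s, hs, hle'⟩ := h.exists_star_red hz
    exact ⟨s, hs, hle' t htz.symm, fun u hu => hle' u (hle u hu)⟩

/-- a minimal point below `t` -/
theorem Hyp.exists_min [Finite X] (h : Hyp a b lt red) (t : X) :
    ∃ m, (∀ s, ¬ lt s m) ∧ (m = t ∨ lt m t) := by
  classical
  have : Fintype X := Fintype.ofFinite X
  have hne : (Finset.univ.filter (fun s => s = t ∨ lt s t)).Nonempty :=
    ⟨t, Finset.mem_filter.2 ⟨Finset.mem_univ _, Or.inl rfl⟩⟩
  obtain ⟨m, hm, hmin⟩ := Finset.exists_min_image _ a hne
  simp only [Finset.mem_filter, Finset.mem_univ, true_and] at hm hmin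
  refine ⟨m, ?_, hm⟩
  intro s hs
  have h1 : s = t ∨ lt s t := by
    rcases hm with hm | hm
    · subst hm; exact Or.inr hs
    · exact Or.inr (h.trans hs hm)
  have := hmin s h1
  rw [h.hlt] at hs; omega

/-- a maximal point above `t` -/
theorem Hyp.exists_max [Finite X] (h : Hyp a b lt red) (t : X) :
    ∃ m, (∀ s, ¬ lt m s) ∧ (m = t ∨ lt t m) := by
  classical
  have : Fintype X := Fintype.ofFinite X
  have hne : (Finset.univ.filter (fun s => s = t ∨ lt t s)).Nonempty :=
    ⟨t, Finset.mem_filter.2 ⟨Finset.mem_univ _, Or.inl rfl⟩⟩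
  obtain ⟨m, hm, hmax⟩ := Finset.exists_max_image _ a hne
  simp only [Finset.mem_filter, Finset.mem_univ, true_and] at hm hmax
  refine ⟨m, ?_, hm⟩
  intro s hs
  have h1 : s = t ∨ lt t s := by
    rcases hm with hm | hm
    · subst hm; exact Or.inr hs
    · exact Or.inr (h.trans hm hs)
  have := hmax s h1
  rw [h.hlt] at hs; omega

/-- the configuration of the proof: `q` is a star such that the stars below `q` are minimal -/
structure Conf (lt : X → X → Prop) (red : X → Prop) (q : X) : Prop where
  hq : Star lt red q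
  low : ∀ x y, Star lt red x → lt x q → Star lt red y → ¬ lt y x

/-- the stars below `q` -/
def Blk (lt : X → X → Prop) (red : X → Prop) (q x : X) : Prop := Star lt red x ∧ lt x q

/-- minimal points below `q` whose row is contained in the row of `q` -/
def UU (lt : X → X → Prop) (red : X → Prop) (q w : X) : Prop :=
  (∀ s, ¬ lt s w) ∧ lt w q ∧ Le lt red w q

section

variable {q : X}

theorem Conf.anti (c : Conf lt red q) {x y : X} (hx : Blk lt red q x) (hy : Blk lt red q y)
    (h : Nb lt red x y) : x = y := by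
  rcases h with h | h | ⟨h, _⟩
  · exact absurd h (c.low y x hy.1 hy.2 hx.1)
  · exact absurd h (c.low x y hx.1 hx.2 hy.1)
  · exact h

theorem Blk.not_le {x : X} (h : Hyp a b lt red) (c : Conf lt red q) (hx : Blk lt red q x) :
    ¬ Le lt red x q := by
  intro hle
  have := hx.1.2 q c.hq.1 hle
  rw [this] at hx
  exact h.irr _ hx.2

/-- (*) -/
theorem Conf.star_of [Finite X] (h : Hyp a b lt red) (c : Conf lt red q) {t w : X}
    (ht : lt t q) (hw : ∀ s, ¬ lt s w) (hwt : w = t ∨ lt w t) (hU : ¬ UU lt red q w) :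
    ∃ x, Blk lt red q x ∧ Nb lt red x t := by
  have hwq : lt w q := by
    rcases hwt with e | e
    · rw [e]; exact ht
    · exact h.trans e ht
  obtain ⟨d, hd, hdw, hle⟩ := h.exists_star (t := w) ⟨q, Or.inl hwq⟩ (Or.inl hw)
  have hdq : Nb lt red d q := hle q (Or.inl hwq)
  have hfin : Blk lt red q d → ∃ x, Blk lt red q x ∧ Nb lt red x t := by
    intro hB
    refine ⟨d, hB, ?_⟩
    rcases hwt with e | e
    · rw [← e]; exact hdw
    · exact hle t (Or.inl e)
  rcases hdq with e | e | ⟨e, _⟩
  · exact hfin ⟨hd, e⟩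
  · exfalso
    -- then the row of `q` is contained in the row of `d`
    have : Le lt red q d := by
      intro t ht
      rcases ht with h' | h' | ⟨h', _⟩
      · exact hle t (Or.inl (h.trans hwq h'))
      · exact Or.inr (Or.inl (h.trans h' e))
      · subst h'; exact Or.inr (Or.inl e)
    have := c.hq.2 d hd.1 this
    rw [this] at e
    exact h.irr _ e
  · subst e
    exact absurd ⟨hw, hwq, hle⟩ hU

theorem UU.inc (h : Hyp a b lt red) (c : Conf lt red q) {w x : X} (hw : UU lt red q w)
    (hx : Blk lt red q x) : ¬ lt w x ∧ ¬ lt x w ∧ w ≠ x := by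
  refine ⟨?_, hw.1 x, ?_⟩
  · intro hwx
    apply hx.not_le h c
    intro t ht
    rcases ht with h' | h' | ⟨h', _⟩
    · exact hw.2.2 t (Or.inl (h.trans hwx h'))
    · exact Or.inr (Or.inl (h.trans h' hx.2))
    · subst h'; exact Or.inr (Or.inl hx.2)
  · intro e
    subst e
    exact hx.not_le h c hw.2.2

/-- `w ∈ U` north-west of `x` kills the top arm -/
theorem UU.top (h : Hyp a b lt red) {w x t : X} (hw : UU lt red q w) (h1 : a w < a x)
    (h3 : a x < a t) (h4 : a t < a q) (h5 : b q < b t) : False := by
  have hwq := (h.hlt w q).1 hw.2.1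
  have hwt : Nb lt red w t := Or.inl ((h.hlt w t).2 ⟨by omega, by omega⟩)
  rcases hw.2.2 t hwt with e | e | ⟨e, _⟩
  · rw [h.hlt] at e; omega
  · rw [h.hlt] at e; omega
  · subst e; omega

/-- step (3): no element of `U` is north-west of the last star of the block -/
theorem Conf.noU [Finite X] (h : Hyp a b lt red) (c : Conf lt red q) {x w : X}
    (hx : Blk lt red q x) (hlast : ∀ y, Blk lt red q y → a y ≤ a x) (hw : UU lt red q w)
    (hwx : a w < a x) : False := by
  have hxq := (h.hlt x q).1 hx.2
  have hwq := (h.hlt w q).1 hw.2.1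
  have hinc := hw.inc h c hx
  have hbwx : b x < b w := by
    have h1 : b w ≠ b x := fun e => hinc.2.2 (h.hb e)
    have h2 : ¬ (a w < a x ∧ b w < b x) := fun e => hinc.1 ((h.hlt w x).2 e)
    omega
  -- the top arm is empty
  have htop : ∀ t, ¬ (a x < a t ∧ a t < a q ∧ b q < b t) := fun t ht =>
    hw.top h hwx ht.1 ht.2.1 ht.2.2
  -- the right arm is not
  obtain ⟨y, hy1, hy2, hy3⟩ : ∃ y, a q < a y ∧ b x < b y ∧ b y < b q := by
    by_contra hcon
    push Not at hcon
    apply hx.not_le h c
    intro t ht
    rcases ht with h' | h' | ⟨h', _⟩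
    · have h6 := (h.hlt x t).1 h'
      by_cases htq : t = q
      · subst htq; exact Or.inr (Or.inr ⟨rfl, c.hq.1⟩)
      · have h7 : a t ≠ a q := fun e => htq (h.ha e)
        have h8 : b t ≠ b q := fun e => htq (h.hb e)
        have h9 := htop t
        have h10 := hcon t
        rcases lt_or_gt_of_ne h7 with h11 | h11
        · rcases lt_or_gt_of_ne h8 with h12 | h12
          · exact Or.inr (Or.inl ((h.hlt t q).2 ⟨h11, h12⟩))
          · exact absurd ⟨h6.1, h11, h12⟩ h9
        · rcases lt_or_gt_of_ne h8 with h12 | h12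
          · exact absurd (h10 h11 h6.2) (by omega)
          · exact Or.inl ((h.hlt q t).2 ⟨h11, h12⟩)
    · exact Or.inr (Or.inl (h.trans h' hx.2))
    · subst h'; exact Or.inr (Or.inl hx.2)
  -- an element of `U` south-east of `x` is impossible
  have hSE : ∀ w', UU lt red q w' → b w' < b x → False := by
    intro w' hw' hb'
    -- `y > w'` would be comparable to `q`
    have h1 := hw'.inc h c hx
    have h2 := (h.hlt w' q).1 hw'.2.1
    have h3 : Nb lt red w' y := Or.inl ((h.hlt w' y).2 ⟨by omega, by omega⟩)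
    rcases hw'.2.2 y h3 with e | e | ⟨e, _⟩
    · rw [h.hlt] at e; omega
    · rw [h.hlt] at e; omega
    · subst e; omega
  -- the bottom arm is empty
  have hbot : ∀ t, ¬ (a x < a t ∧ a t < a q ∧ b t < b x) := by
    rintro t ⟨h1, h2, h3⟩
    have htq : lt t q := (h.hlt t q).2 ⟨h2, by omega⟩
    obtain ⟨m, hm, hmt⟩ := h.exists_min t
    by_cases hU : UU lt red q m
    · refine hSE m hU ?_
      rcases hmt with e | e
      · rw [e]; exact h3
      · rw [h.hlt] at e; omega
    · obtain ⟨x', hx', hN⟩ := c.star_of h htq hm hmt hU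
      have h4 := hlast x' hx'
      by_cases hxx : x' = x
      · subst hxx
        rcases hN with e | e | ⟨e, _⟩
        · rw [h.hlt] at e; omega
        · rw [h.hlt] at e; omega
        · subst e; omega
      · have h5 : ¬ lt x' x := c.low x x' hx.1 hx.2 hx'.1
        rw [h.hlt] at h5
        have h6 : a x' ≠ a x := fun e => hxx (h.ha e)
        rcases hN with e | e | ⟨e, _⟩
        · rw [h.hlt] at e; omega
        · rw [h.hlt] at e; omega
        · subst e; omega
  -- (2') for the pair `x, q`
  obtain ⟨v, hv⟩ := h.h2 x q hx.1.1 c.hq.1 hx.2 (Or.inl ⟨fun t ht => by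
    rcases ht with ⟨h1, h2, h3 | h3⟩
    · exact htop t ⟨h1, h2, h3⟩
    · exact hbot t ⟨h1, h2, h3⟩, ⟨y, hy2, hy3, Or.inl hy1⟩⟩)
  have hqw : Nb lt red q w := Or.inr (Or.inl hw.2.1)
  have hxw : ¬ Nb lt red x w := by
    rintro (e | e | ⟨e, _⟩)
    · exact hinc.2.1 e
    · exact hinc.1 e
    · exact hinc.2.2 e.symm
  have hqy : ¬ Nb lt red q y := by
    rintro (e | e | ⟨e, _⟩)
    · rw [h.hlt] at e; omega
    · rw [h.hlt] at e; omega
    · subst e; omega
  rcases hv with ⟨_, _, hqv, _, hcov⟩ | ⟨hvb, hqv, hxv, hin, hcov⟩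
  · rcases hcov w hqw with e | e
    · exact hqv (hw.2.2 v e.symm)
    · exact hxw e
  · -- `v < q`
    have hvq : lt v q := by
      rcases hqv with e | e | ⟨e, e'⟩
      · exact absurd (Or.inl (h.trans hx.2 e)) hxv
      · exact e
      · subst e; exact absurd e' hvb
    obtain ⟨m, hm, hmv⟩ := h.exists_min v
    by_cases hU : UU lt red q m
    · -- `y > v ≥ m`
      have hxy : Nb lt red x y := Or.inl ((h.hlt x y).2 ⟨by omega, hy2⟩)
      rcases hcov y hxy with e | e
      · have hvq' := (h.hlt v q).1 hvq
        have hvy : lt v y := by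
          rcases e with e | e | ⟨e, e'⟩
          · exact e
          · rw [h.hlt] at e; omega
          · subst e; omega
        have hmy : Nb lt red m y := by
          rcases hmv with e' | e'
          · rw [e']; exact Or.inl hvy
          · exact Or.inl (h.trans e' hvy)
        exact hqy (hU.2.2 y hmy)
      · exact hqy e
    · obtain ⟨x', hx', hN⟩ := c.star_of h hvq hm hmv hU
      have h1 : Nb lt red x x' := hin x' hN.symm (Or.inr (Or.inl hx'.2))
      have h2 := c.anti hx hx' h1
      subst h2
      exact hxv hN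

end

/-- no star has a star below it -/
theorem Hyp.no_below [Finite X] (h : Hyp a b lt red) (p q : X) (hp : Star lt red p)
    (hq : Star lt red q) (hpq : lt p q) : False := by
  classical
  have : Fintype X := Fintype.ofFinite X
  -- choose `q` minimal
  have hex : ∃ q, Conf lt red q ∧ ∃ p, Blk lt red q p := by
    have hne : (Finset.univ.filter (fun s => Star lt red s ∧ ∃ p, Blk lt red s p)).Nonempty :=
      ⟨q, by
        simp only [Finset.mem_filter, Finset.mem_univ, true_and]; exact ⟨hq, p, hp, hpq⟩⟩
    obtain ⟨m, hm, hmin⟩ := Finset.exists_min_image _ a hne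
    simp only [Finset.mem_filter, Finset.mem_univ, true_and] at hm hmin
    refine ⟨m, ⟨hm.1, ?_⟩, hm.2⟩
    intro x y hx hxm hy hyx
    have := hmin x ⟨hx, y, hy, hyx⟩
    rw [h.hlt] at hxm; omega
  clear hpq hp hq p q
  obtain ⟨q, c, p, hp⟩ := hex
  have hneB : (Finset.univ.filter (fun s => Blk lt red q s)).Nonempty :=
    ⟨p, by simp only [Finset.mem_filter, Finset.mem_univ, true_and]; exact hp⟩
  -- `U` is empty
  have hU : ∀ w, ¬ UU lt red q w := by
    intro w hw
    obtain ⟨xk, hxk, hmaxk⟩ := Finset.exists_max_image _ a hneB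
    obtain ⟨x1, hx1, hmax1⟩ := Finset.exists_max_image _ b hneB
    simp only [Finset.mem_filter, Finset.mem_univ, true_and] at hxk hmaxk hx1 hmax1
    by_cases h1 : a w < a xk
    · exact c.noU h hxk hmaxk hw h1
    · -- `w` is south-east of `xk`, hence of `x1`
      have i1 := hw.inc h c hxk
      have h2 : a w ≠ a xk := fun e => i1.2.2 (h.ha e)
      have h3 : b w < b xk := by
        have h4 : b w ≠ b xk := fun e => i1.2.2 (h.hb e)
        have h5 := i1.2.1
        rw [h.hlt] at h5
        omega
      have h6 := hmax1 xk hxk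
      exact c.noU h.swap hx1 hmax1 hw (by omega)
  have hstar : ∀ t, lt t q → ∃ x, Blk lt red q x ∧ Nb lt red x t := by
    intro t ht
    obtain ⟨m, hm, hmt⟩ := h.exists_min t
    exact c.star_of h ht hm hmt (hU m)
  by_cases h1 : ∀ x, Blk lt red q x → x = p
  · -- the block is one star
    have hqp : ¬ Le lt red q p := by
      intro hle
      have := c.hq.2 p hp.1.1 hle
      rw [this] at hp
      exact h.irr _ hp.2
    apply hqp
    intro t ht
    rcases ht with e | e | ⟨e, _⟩
    · exact Or.inl (h.trans hp.2 e)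
    · obtain ⟨x, hx, hN⟩ := hstar t e
      rw [h1 x hx] at hN
      exact hN
    · subst e; exact Or.inl hp.2
  · push Not at h1
    obtain ⟨p', hp', hne⟩ := h1
    -- the two first stars of the block
    obtain ⟨x1, hx1, hmin1⟩ := Finset.exists_min_image _ a hneB
    simp only [Finset.mem_filter, Finset.mem_univ, true_and] at hx1 hmin1
    have hneB2 : (Finset.univ.filter (fun s => Blk lt red q s ∧ s ≠ x1)).Nonempty := by
      by_cases e : p = x1
      · refine ⟨p', ?_⟩
        simp only [Finset.mem_filter, Finset.mem_univ, true_and]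
        exact ⟨hp', fun e' => hne (e'.trans e.symm)⟩
      · refine ⟨p, ?_⟩
        simp only [Finset.mem_filter, Finset.mem_univ, true_and]
        exact ⟨hp, e⟩
    obtain ⟨x2, hx2, hmin2⟩ := Finset.exists_min_image _ a hneB2
    simp only [Finset.mem_filter, Finset.mem_univ, true_and] at hx2 hmin2
    obtain ⟨hx2, hx21⟩ := hx2
    have ha12 : a x1 < a x2 := by
      have := hmin1 x2 hx2
      have h3 : a x2 ≠ a x1 := fun e => hx21 (h.ha e)
      omega
    have hb12 : b x2 < b x1 := by
      have h3 := c.low x2 x1 hx2.1 hx2.2 hx1.1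
      rw [h.hlt] at h3
      have h4 : b x2 ≠ b x1 := fun e => hx21 (h.hb e)
      omega
    have hx1q := (h.hlt x1 q).1 hx1.2
    have hx2q := (h.hlt x2 q).1 hx2.2
    have hempty : ∀ t, ¬ (a x1 < a t ∧ a t < a x2 ∧ b x2 < b t ∧ b t < b x1) := by
      rintro t ⟨h3, h4, h5, h6⟩
      obtain ⟨x, hx, hN⟩ := hstar t ((h.hlt t q).2 ⟨by omega, by omega⟩)
      by_cases e1 : x = x1
      · subst e1
        rcases hN with e | e | ⟨e, _⟩
        · rw [h.hlt] at e; omega
        · rw [h.hlt] at e; omega
        · subst e; omega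
      · have h7 := hmin2 x ⟨hx, e1⟩
        have h8 : ¬ lt x2 x := c.low x x2 hx.1 hx.2 hx2.1
        rw [h.hlt] at h8
        by_cases e2 : x = x2
        · subst e2
          rcases hN with e | e | ⟨e, _⟩
          · rw [h.hlt] at e; omega
          · rw [h.hlt] at e; omega
          · subst e; omega
        · have h9 : a x ≠ a x2 := fun e => e2 (h.ha e)
          rcases hN with e | e | ⟨e, _⟩
          · rw [h.hlt] at e; omega
          · rw [h.hlt] at e; omega
          · subst e; omega
    obtain ⟨v, hvb, hv1, hv2, hin, hout⟩ := h.h3 x1 x2 hx1.1.1 hx2.1.1 ha12 hb12 hempty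
      ⟨q, Or.inl hx1.2, Or.inl hx2.2⟩
    have hvq0 : Nb lt red v q := hin q (Or.inl hx1.2) (Or.inl hx2.2)
    have hvq : lt v q := by
      rcases hvq0 with e | e | ⟨e, e'⟩
      · exact e
      · exact absurd (Or.inl (h.trans hx1.2 e)) hv1
      · exact absurd e' hvb
    obtain ⟨x, hx, hN⟩ := hstar v hvq
    rcases hout x hN.symm with e | e
    · have := c.anti hx1 hx e
      subst this
      exact hv1 hN
    · have := c.anti hx2 hx e
      subst this
      exact hv2 hN

/-- **Lemma P'** (helper30) -/
theorem Hyp.lemmaP' [Finite X] (h : Hyp a b lt red) (r : X) (hr : red r) :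
    ∃ z, red z ∧ ∀ t, Relation.ReflTransGen (fun x y => lt x y ∨ lt y x) r t →
      Nb lt red z t := by
  classical
  have htw : ∀ s s', Star lt red s → Star lt red s' → Nb lt red s s' → s = s' := by
    intro s s' hs hs' hN
    rcases hN with e | e | ⟨e, _⟩
    · exact (h.no_below s s' hs hs' e).elim
    · exact (h.no_below s' s hs' hs e).elim
    · exact e
  obtain ⟨z, hz, hzr⟩ := h.exists_star_red hr
  refine ⟨z, hz.1, ?_⟩
  have main : ∀ t, Relation.ReflTransGen (fun x y => lt x y ∨ lt y x) r t →
      ∀ m, (∀ s, ¬ lt s m) → (m = t ∨ lt m t) →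
        ∀ d, Star lt red d → Nb lt red d m → Le lt red m d → d = z := by
    intro t ht
    induction ht with
    | refl =>
      intro m hm hmr d hd hdm hle
      have hN : Nb lt red z d := by
        rcases hmr with e | e
        · subst e
          exact hzr d hdm.symm
        · have h1 : Nb lt red d r := hle r (Or.inl e)
          exact hzr d h1.symm
      exact (htw z d hz hd hN).symm
    | tail _ hbc ih =>
      rename_i b' c' _
      rcases hbc with hbc | hbc
      · -- `b' < c'`: through a maximal point above `c'`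
        intro m hm hmc d hd hdm hle
        obtain ⟨M, hM, hcM⟩ := h.exists_max c'
        obtain ⟨m', hm', hm'b⟩ := h.exists_min b'
        have hbM : lt b' M := by
          rcases hcM with e | e
          · rw [e]; exact hbc
          · exact h.trans hbc e
        have hm'M : lt m' M := by
          rcases hm'b with e | e
          · rw [e]; exact hbM
          · exact h.trans e hbM
        obtain ⟨D, hD, hDM, hDle⟩ := h.exists_star (t := M) ⟨m', Or.inr (Or.inl hm'M)⟩
          (Or.inr hM)
        obtain ⟨d', hd', hd'm, hle'⟩ := h.exists_star (t := m') ⟨M, Or.inl hm'M⟩ (Or.inl hm')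
        have e1 : d' = z := ih m' hm' hm'b d' hd' hd'm hle'
        have e2 : D = z := by
          have h1 : Nb lt red D m' := hDle m' (Or.inr (Or.inl hm'M))
          have h2 : Nb lt red d' D := hle' D h1.symm
          rw [← e1]
          exact (htw d' D hd' hD h2).symm
        have hmM : lt m M := by
          have hmM' : m = M ∨ lt m M := by
            rcases hmc with e | e
            · rcases hcM with e' | e'
              · exact Or.inl (e.trans e'.symm)
              · rw [e]; exact Or.inr e'
            · rcases hcM with e' | e'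
              · rw [e']; exact Or.inr e
              · exact Or.inr (h.trans e e')
          rcases hmM' with e | e
          · exfalso
            exact hm m' (by rw [e]; exact hm'M)
          · exact e
        have h1 : Nb lt red D m := hDle m (Or.inr (Or.inl hmM))
        have h2 : Nb lt red d D := hle D h1.symm
        rw [← e2]
        exact htw d D hd hD h2
      · intro m hm hmc d hd hdm hle
        refine ih m hm ?_ d hd hdm hle
        rcases hmc with e | e
        · rw [e]; exact Or.inr hbc
        · exact Or.inr (h.trans e hbc)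
  intro t ht
  by_cases htr : t = r
  · rw [htr]; exact hzr r (Or.inr (Or.inr ⟨rfl, hr⟩))
  · obtain ⟨m, hm, hmt⟩ := h.exists_min t
    have hnbt : ∃ s, Nb lt red t s := by
      rcases Relation.ReflTransGen.cases_tail ht with e | ⟨s, _, e⟩
      · exact absurd e htr
      · rcases e with e | e
        · exact ⟨s, Or.inr (Or.inl e)⟩
        · exact ⟨s, Or.inl e⟩
    have hnbm : ∃ s, Nb lt red m s := by
      rcases hmt with e | e
      · rw [e]; exact hnbt
      · exact ⟨t, Or.inl e⟩
    obtain ⟨d, hd, hdm, hle⟩ := h.exists_star hnbm (Or.inl hm)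
    have e := main t ht m hm hmt d hd hdm hle
    subst e
    rcases hmt with e | e
    · rw [← e]; exact hdm
    · exact hle t (Or.inl e)

end Pool.GOD.P2
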