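import Mathlib
import Pool.Agent.GOD.LeafC
import Pool.Agent.GOD.LemmaP2

/-!
GOD (helper88): the torus instance of Lemma P' (helper30).

`HWc p q red W`: only the monochromatic pairs with an EMPTY rectangle are required to be split (in
the other rectangle; in particular no pair has both rectangles empty).  Conclusion of this file: at
every root every point lies in a side of an edge.
-/

namespace Pool.GOD

variable {V : Type*} [DecidableEq V]

/-- pairs with an empty rectangle are split -/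
structure HWc (p q : V → ℕ) (red : V → Bool) (W : Finset V) : Prop where
  rr : ∀ x ∈ W, ∀ y ∈ W, red x = true → red y = true → x ≠ y → (∀ t ∈ W, ¬ InA p q y x t) →
    ∃ v ∈ W, red v = false ∧ InA p q x y v ∧
      ∀ t ∈ W, InA p q x y t → t = v ∨ InA p q x v t ∨ InA p q v y t
  bb : ∀ x ∈ W, ∀ y ∈ W, red x = false → red y = false → x ≠ y →
    (∀ t ∈ W, ¬ InD p q y x t) →
    ∃ v ∈ W, red v = true ∧ InD p q x y v ∧
      ∀ t ∈ W, InD p q x y t → t = v ∨ InD p q x v t ∨ InD p q v y t

namespace SC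

open Lf

/-- rotated position: the circuit is cut at `u` -/
def sh (N : ℕ) (p : V → ℕ) (u x : V) : ℤ := if p u < p x then (p x : ℤ) else (p x : ℤ) + N

omit [DecidableEq V] in
theorem cyc_u {N : ℕ} {p : V → ℕ} (hp : Function.Injective p) {u x y : V} (hx : p x < N)
    (hy : p y < N) (hxu : x ≠ u) (hyu : y ≠ u) : Cyc p u x y ↔ sh N p u x < sh N p u y := by
  have h1 : p x ≠ p u := fun e => hxu (hp e)
  have h2 : p y ≠ p u := fun e => hyu (hp e)
  unfold Cyc sh
  split_ifs with h3 h4 h4 <;> omega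

omit [DecidableEq V] in
theorem cyc_sh {N : ℕ} {p : V → ℕ} (hp : Function.Injective p) {u x t y : V} (hx : p x < N)
    (ht : p t < N) (hy : p y < N) (hxu : x ≠ u) (htu : t ≠ u) (hyu : y ≠ u) :
    Cyc p x t y ↔ ((sh N p u x < sh N p u t ∧ sh N p u t < sh N p u y) ∨
      (sh N p u t < sh N p u y ∧ sh N p u y < sh N p u x) ∨
      (sh N p u y < sh N p u x ∧ sh N p u x < sh N p u t)) := by
  have h1 : p x ≠ p u := fun e => hxu (hp e)
  have h2 : p y ≠ p u := fun e => hyu (hp e)
  have h3 : p t ≠ p u := fun e => htu (hp e)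
  unfold Cyc sh
  split_ifs <;> omega

omit [DecidableEq V] in
theorem cyc_mid_u {N : ℕ} {p : V → ℕ} (hp : Function.Injective p) {u x y : V} (hx : p x < N)
    (hy : p y < N) (hxu : x ≠ u) (hyu : y ≠ u) : Cyc p x u y ↔ sh N p u y < sh N p u x := by
  rw [← cyc_u hp hy hx hyu hxu]
  unfold Cyc; omega

omit [DecidableEq V] in
theorem sh_inj {N : ℕ} {p : V → ℕ} (hp : Function.Injective p) {u x y : V} (hx : p x < N)
    (hy : p y < N) (h : sh N p u x = sh N p u y) : x = y := by
  apply hp
  unfold sh at h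
  split_ifs at h <;> omega

omit [DecidableEq V] in
/-- the form in terms of the rooted matrix -/
theorem bil_rt (g : V → V → Bool) (u x y z t : V) :
    bil g x y z t = xor (xor (rt g u x z) (rt g u x t)) (xor (rt g u y z) (rt g u y t)) := by
  unfold rt bil
  cases g x z <;> cases g x t <;> cases g y z <;> cases g y t <;> cases g u z <;>
    cases g u t <;> cases g u u <;> cases g x u <;> cases g y u <;> rfl

section

variable {p q : V → ℕ} {red : V → Bool} {W : Finset V} {u : V} {N : ℕ}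

/-- the points of `W` different from the root -/
abbrev XX (W : Finset V) (u : V) : Type _ := {x : V // x ∈ W ∧ x ≠ u}

instance (W : Finset V) (u : V) : Finite (XX W u) := by
  have : Finite {x : V // x ∈ W} := Finite.of_fintype _
  exact Finite.of_injective (fun x : XX W u => (⟨x.1, x.2.1⟩ : {x : V // x ∈ W}))
    (fun a b h => Subtype.ext (congrArg (fun z : {x : V // x ∈ W} => z.1) h))

/-- the order at a blue root -/
def ltu (p q : V → ℕ) (W : Finset V) (u : V) (x y : XX W u) : Prop :=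
  Cyc p u x.1 y.1 ∧ Cyc q u x.1 y.1

/-- the red points -/
def rd (red : V → Bool) (W : Finset V) (u : V) (x : XX W u) : Prop := red x.1 = true

theorem nb_iff (hp : Function.Injective p) (hq : Function.Injective q) (hu : red u = false)
    (x t : XX W u) :
    P2.Nb (ltu p q W u) (rd red W u) x t ↔ rt (gT p q red) u x.1 t.1 = true := by
  by_cases hxt : x = t
  · subst hxt
    rw [rt_gT_diag hp hq, hu]
    unfold P2.Nb ltu rd
    constructor
    · rintro (h | h | h)
      · exact absurd h.1 not_cyc_self_right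
      · exact absurd h.1 not_cyc_self_right
      · rw [h.2]; rfl
    · intro h
      right; right
      refine ⟨rfl, ?_⟩
      cases hr : red x.1 with
      | true => rfl
      | false => rw [hr] at h; exact Bool.noConfusion h
  · have hne : x.1 ≠ t.1 := fun e => hxt (Subtype.ext e)
    rw [rt_gT hp hq x.2.2.symm t.2.2.symm hne, hu]
    have e1 : xor false (decide (Cyc p u x.1 t.1 ↔ Cyc q u x.1 t.1)) = true ↔
        (Cyc p u x.1 t.1 ↔ Cyc q u x.1 t.1) := by
      rw [Bool.false_xor, decide_eq_true_iff]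
    rw [e1]
    unfold P2.Nb ltu
    constructor
    · rintro (h | h | h)
      · exact iff_of_true h.1 h.2
      · exact iff_of_false h.1.not_swap h.2.not_swap
      · exact absurd h.1 hxt
    · intro h
      rcases Cyc.or_swap hp x.2.2.symm t.2.2.symm hne with h1 | h1
      · exact Or.inl ⟨h1, h.1 h1⟩
      · right; left
        refine ⟨h1, ?_⟩
        rcases Cyc.or_swap hq x.2.2.symm t.2.2.symm hne with h2 | h2
        · exact absurd (h.2 h2) h1.not_swap
        · exact h2

/-- a splitter in the sense of the form gives the side conditions -/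
theorem side_of_split (hp : Function.Injective p) (hq : Function.Injective q)
    (hu : red u = false) (huW : u ∈ W) {x y : XX W u} (hx : red x.1 = true)
    (hy : red y.1 = true) (hxy : rt (gT p q red) u x.1 y.1 = true) {v : V}
    (hv : SplitOn (gT p q red) W v x.1 y.1) :
    ∃ w : XX W u, P2.Side (ltu p q W u) (rd red W u) x y w ∨
      P2.Side (ltu p q W u) (rd red W u) y x w := by
  have hs : ∀ a b, gT p q red a b = gT p q red b a := gT_symm hp hq
  obtain ⟨hvW, hv1, hv2, hv3⟩ := hv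
  have hvb : red v = false := by
    rw [gT_self, gT_self, hx] at hv1
    cases h : red v
    · rfl
    · exact absurd h hv1
  have dx : rt (gT p q red) u x.1 x.1 = true := by rw [rt_gT_diag hp hq, hu, hx]; rfl
  have dy : rt (gT p q red) u y.1 y.1 = true := by rw [rt_gT_diag hp hq, hu, hy]; rfl
  have hyx : rt (gT p q red) u y.1 x.1 = true := by rw [rt_comm hs]; exact hxy
  have hvu : v ≠ u := by
    intro e
    subst e
    exact hv3 x.1 x.2.1 ⟨dx, hyx⟩
  have dv : rt (gT p q red) u v v = false := by rw [rt_gT_diag hp hq, hu, hvb]; rfl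
  -- the matrix at `v` in terms of the matrix at `u`
  have f : ∀ a t : V, rt (gT p q red) v a t =
      xor (xor (rt (gT p q red) u v v) (rt (gT p q red) u v t))
        (xor (rt (gT p q red) u a v) (rt (gT p q red) u a t)) := by
    intro a t; exact bil_rt _ u v a v t
  have c1 := hv3 x.1 x.2.1
  have c2 := hv3 u huW
  rw [f, f] at c1 c2
  rw [dv, rt_comm hs u v x.1] at c1
  have k0 : ∀ a, rt (gT p q red) u a u = false := fun a => rt_gT_self_right hp hq u a
  rw [dv, k0, k0, k0] at c2
  rw [dx, hyx] at c1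
  set A := rt (gT p q red) u x.1 v with hA
  set B := rt (gT p q red) u y.1 v with hB
  have hAB : (A = true ∧ B = false) ∨ (A = false ∧ B = true) := by
    revert c1 c2
    cases A <;> cases B <;> decide
  have key : ∀ t ∈ W, ¬ (xor (xor false (rt (gT p q red) u v t))
      (xor A (rt (gT p q red) u x.1 t)) = true ∧
      xor (xor false (rt (gT p q red) u v t)) (xor B (rt (gT p q red) u y.1 t)) = true) := by
    intro t ht
    have := hv3 t ht
    rw [f, f, dv] at this
    exact this
  refine ⟨⟨v, hvW, hvu⟩, ?_⟩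
  rcases hAB with ⟨h1, h2⟩ | ⟨h1, h2⟩
  · left
    refine ⟨by unfold rd; rw [hvb]; decide, (nb_iff hp hq hu _ _).2 h1, ?_, ?_, ?_⟩
    · rw [nb_iff hp hq hu]
      show ¬ (B = true)
      rw [h2]; decide
    · intro t ht1 ht2
      rw [nb_iff hp hq hu] at ht1 ht2 ⊢
      have := key t.1 t.2.1
      rw [ht1, ht2, h1, h2] at this
      revert this
      cases rt (gT p q red) u y.1 t.1 <;> decide
    · intro t ht1
      rw [nb_iff hp hq hu] at ht1
      rw [nb_iff hp hq hu, nb_iff hp hq hu]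
      have := key t.1 t.2.1
      rw [ht1, h1, h2] at this
      revert this
      show _ → rt (gT p q red) u v t.1 = true ∨ _
      cases rt (gT p q red) u v t.1 <;> cases rt (gT p q red) u x.1 t.1 <;> decide
  · right
    refine ⟨by unfold rd; rw [hvb]; decide, (nb_iff hp hq hu _ _).2 h2, ?_, ?_, ?_⟩
    · rw [nb_iff hp hq hu]
      show ¬ (A = true)
      rw [h1]; decide
    · intro t ht1 ht2
      rw [nb_iff hp hq hu] at ht1 ht2 ⊢
      have := key t.1 t.2.1
      rw [ht1, ht2, h1, h2] at this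
      revert this
      cases rt (gT p q red) u x.1 t.1 <;> decide
    · intro t ht1
      rw [nb_iff hp hq hu] at ht1
      rw [nb_iff hp hq hu, nb_iff hp hq hu]
      have := key t.1 t.2.1
      rw [ht1, h1, h2] at this
      revert this
      show _ → rt (gT p q red) u v t.1 = true ∨ _
      cases rt (gT p q red) u v t.1 <;> cases rt (gT p q red) u y.1 t.1 <;> decide

/-- the same for pairs that are not adjacent -/
theorem far_of_split (hp : Function.Injective p) (hq : Function.Injective q)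
    (hu : red u = false) (huW : u ∈ W) {x y : XX W u} (hx : red x.1 = true)
    (hy : red y.1 = true) (hxy : rt (gT p q red) u x.1 y.1 = false)
    (hc : ∃ t : XX W u, P2.Nb (ltu p q W u) (rd red W u) x t ∧
      P2.Nb (ltu p q W u) (rd red W u) y t) {v : V}
    (hv : SplitOn (gT p q red) W v x.1 y.1) :
    ∃ w : XX W u, ¬ rd red W u w ∧ ¬ P2.Nb (ltu p q W u) (rd red W u) x w ∧
      ¬ P2.Nb (ltu p q W u) (rd red W u) y w ∧
      (∀ t, P2.Nb (ltu p q W u) (rd red W u) x t → P2.Nb (ltu p q W u) (rd red W u) y t →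
        P2.Nb (ltu p q W u) (rd red W u) w t) ∧
      (∀ t, P2.Nb (ltu p q W u) (rd red W u) w t → P2.Nb (ltu p q W u) (rd red W u) x t ∨
        P2.Nb (ltu p q W u) (rd red W u) y t) := by
  have hs : ∀ a b, gT p q red a b = gT p q red b a := gT_symm hp hq
  obtain ⟨hvW, hv1, hv2, hv3⟩ := hv
  have hvb : red v = false := by
    rw [gT_self, gT_self, hx] at hv1
    cases h : red v
    · rfl
    · exact absurd h hv1
  have dx : rt (gT p q red) u x.1 x.1 = true := by rw [rt_gT_diag hp hq, hu, hx]; rfl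
  have hyx : rt (gT p q red) u y.1 x.1 = false := by rw [rt_comm hs]; exact hxy
  have hvu : v ≠ u := by
    intro e
    obtain ⟨t, ht1, ht2⟩ := hc
    rw [nb_iff hp hq hu] at ht1 ht2
    rw [e] at hv3
    exact hv3 t.1 t.2.1 ⟨ht1, ht2⟩
  have dv : rt (gT p q red) u v v = false := by rw [rt_gT_diag hp hq, hu, hvb]; rfl
  have f : ∀ a t : V, rt (gT p q red) v a t =
      xor (xor (rt (gT p q red) u v v) (rt (gT p q red) u v t))
        (xor (rt (gT p q red) u a v) (rt (gT p q red) u a t)) := by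
    intro a t; exact bil_rt _ u v a v t
  have c1 := hv3 x.1 x.2.1
  have c2 := hv3 u huW
  rw [f, f] at c1 c2
  rw [dv, rt_comm hs u v x.1] at c1
  have k0 : ∀ a, rt (gT p q red) u a u = false := fun a => rt_gT_self_right hp hq u a
  rw [dv, k0, k0, k0] at c2
  rw [dx, hyx] at c1
  set A := rt (gT p q red) u x.1 v with hA
  set B := rt (gT p q red) u y.1 v with hB
  have hAB : A = false ∧ B = false := by
    revert c1 c2
    cases A <;> cases B <;> decide
  obtain ⟨h1, h2⟩ := hAB
  have key : ∀ t ∈ W, ¬ (xor (xor false (rt (gT p q red) u v t))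
      (xor A (rt (gT p q red) u x.1 t)) = true ∧
      xor (xor false (rt (gT p q red) u v t)) (xor B (rt (gT p q red) u y.1 t)) = true) := by
    intro t ht
    have := hv3 t ht
    rw [f, f, dv] at this
    exact this
  refine ⟨⟨v, hvW, hvu⟩, by unfold rd; rw [hvb]; decide, ?_, ?_, ?_, ?_⟩
  · rw [nb_iff hp hq hu]
    show ¬ (A = true)
    rw [h1]; decide
  · rw [nb_iff hp hq hu]
    show ¬ (B = true)
    rw [h2]; decide
  · intro t ht1 ht2
    rw [nb_iff hp hq hu] at ht1 ht2 ⊢
    have := key t.1 t.2.1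
    rw [ht1, ht2, h1, h2] at this
    revert this
    show _ → rt (gT p q red) u v t.1 = true
    cases rt (gT p q red) u v t.1 <;> decide
  · intro t ht1
    rw [nb_iff hp hq hu] at ht1
    rw [nb_iff hp hq hu, nb_iff hp hq hu]
    have ht1' : rt (gT p q red) u v t.1 = true := ht1
    have := key t.1 t.2.1
    rw [ht1', h1, h2] at this
    revert this
    cases rt (gT p q red) u x.1 t.1 <;> cases rt (gT p q red) u y.1 t.1 <;> decide

theorem lt_rt (hp : Function.Injective p) (hq : Function.Injective q) (hu : red u = false)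
    {x y : XX W u} (h : ltu p q W u x y) : rt (gT p q red) u x.1 y.1 = true :=
  (nb_iff hp hq hu x y).1 (Or.inl h)

omit [DecidableEq V] in
/-- the rectangles of a comparable pair -/
theorem strip1 (hp : Function.Injective p) (hq : Function.Injective q)
    (hN : ∀ x ∈ W, p x < N ∧ q x < N) {x y t : XX W u} (h : ltu p q W u x y) :
    InA p q x.1 y.1 t.1 ↔
      P2.AV (fun x : XX W u => sh N p u x.1) (fun x : XX W u => sh N q u x.1) x y t := by
  have hx := hN x.1 x.2.1
  have hy := hN y.1 y.2.1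
  have ht := hN t.1 t.2.1
  have h1 := (cyc_u hp hx.1 hy.1 x.2.2 y.2.2).1 h.1
  have h2 := (cyc_u hq hx.2 hy.2 x.2.2 y.2.2).1 h.2
  unfold InA P2.AV
  beta_reduce
  rw [cyc_sh hp hx.1 ht.1 hy.1 x.2.2 t.2.2 y.2.2, cyc_sh hq hy.2 ht.2 hx.2 y.2.2 t.2.2 x.2.2]
  constructor
  · rintro ⟨h3, h4⟩
    refine ⟨by omega, by omega, by omega⟩
  · rintro ⟨h3, h4, h5⟩
    refine ⟨by omega, by omega⟩

omit [DecidableEq V] in
theorem strip2 (hp : Function.Injective p) (hq : Function.Injective q)
    (hN : ∀ x ∈ W, p x < N ∧ q x < N) {x y t : XX W u} (h : ltu p q W u x y) :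
    InA p q y.1 x.1 t.1 ↔
      P2.AV (fun x : XX W u => sh N q u x.1) (fun x : XX W u => sh N p u x.1) x y t := by
  have hx := hN x.1 x.2.1
  have hy := hN y.1 y.2.1
  have ht := hN t.1 t.2.1
  have h1 := (cyc_u hp hx.1 hy.1 x.2.2 y.2.2).1 h.1
  have h2 := (cyc_u hq hx.2 hy.2 x.2.2 y.2.2).1 h.2
  unfold InA P2.AV
  beta_reduce
  rw [cyc_sh hp hy.1 ht.1 hx.1 y.2.2 t.2.2 x.2.2, cyc_sh hq hx.2 ht.2 hy.2 x.2.2 t.2.2 y.2.2]
  constructor
  · rintro ⟨h3, h4⟩
    refine ⟨by omega, by omega, by omega⟩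
  · rintro ⟨h3, h4, h5⟩
    refine ⟨by omega, by omega⟩

/-- emptiness of a rectangle can be tested on the points different from the root -/
theorem empty1 (hp : Function.Injective p) (hN : ∀ x ∈ W, p x < N ∧ q x < N) {x y : XX W u}
    (hxy : sh N p u x.1 < sh N p u y.1) (h : ∀ t : XX W u, ¬ InA p q x.1 y.1 t.1) :
    ∀ t ∈ W, ¬ InA p q x.1 y.1 t := by
  intro t ht hA
  by_cases htu : t = u
  · subst htu
    have := (cyc_mid_u hp (hN x.1 x.2.1).1 (hN y.1 y.2.1).1 x.2.2 y.2.2).1 hA.1
    omega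
  · exact h ⟨t, ht, htu⟩ hA

theorem empty2 (hq : Function.Injective q) (hN : ∀ x ∈ W, p x < N ∧ q x < N) {x y : XX W u}
    (hxy : sh N q u x.1 < sh N q u y.1) (h : ∀ t : XX W u, ¬ InA p q y.1 x.1 t.1) :
    ∀ t ∈ W, ¬ InA p q y.1 x.1 t := by
  intro t ht hA
  by_cases htu : t = u
  · subst htu
    have := (cyc_mid_u hq (hN x.1 x.2.1).2 (hN y.1 y.2.1).2 x.2.2 y.2.2).1 hA.2
    omega
  · exact h ⟨t, ht, htu⟩ hA

/-- the hypotheses of Lemma P' hold at a blue root -/
theorem hyp_of_hwc (hp : Function.Injective p) (hq : Function.Injective q)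
    (hN : ∀ x ∈ W, p x < N ∧ q x < N) (h : HWc p q red W) (huW : u ∈ W) (hu : red u = false) :
    P2.Hyp (fun x : XX W u => sh N p u x.1) (fun x : XX W u => sh N q u x.1)
      (ltu p q W u) (rd red W u) where
  ha := fun x y e => Subtype.ext (sh_inj hp (hN x.1 x.2.1).1 (hN y.1 y.2.1).1 e)
  hb := fun x y e => Subtype.ext (sh_inj hq (hN x.1 x.2.1).2 (hN y.1 y.2.1).2 e)
  hlt := by
    intro x y
    unfold ltu
    rw [cyc_u hp (hN x.1 x.2.1).1 (hN y.1 y.2.1).1 x.2.2 y.2.2,
      cyc_u hq (hN x.1 x.2.1).2 (hN y.1 y.2.1).2 x.2.2 y.2.2]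
  ntw := by
    intro x y hx hy hxy
    by_contra hcon
    push Not at hcon
    obtain ⟨h1, h2⟩ := hcon
    have e2 := (cyc_u hq (hN x.1 x.2.1).2 (hN y.1 y.2.1).2 x.2.2 y.2.2).1 hxy.2
    have e1 := (cyc_u hp (hN x.1 x.2.1).1 (hN y.1 y.2.1).1 x.2.2 y.2.2).1 hxy.1
    have hne : x.1 ≠ y.1 := by
      intro e; rw [e] at e1; omega
    have hE2 := empty2 (p := p) hq hN e2 (fun t ht => h2 t ((strip2 hp hq hN hxy).1 ht))
    have hE1 := empty1 (q := q) hp hN e1 (fun t ht => h1 t ((strip1 hp hq hN hxy).1 ht))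
    obtain ⟨v, hv, _, hA, _⟩ := h.rr x.1 x.2.1 y.1 y.2.1 hx hy hne hE2
    exact hE1 v hv hA
  h1 := by
    intro v hv _ hm
    have hvb : red v.1 = false := by
      cases e : red v.1
      · rfl
      · exact absurd e hv
    rcases hm with hm | hm
    · have hE : ∀ t ∈ W, ¬ InD p q u v.1 t := by
        intro t ht hD
        have htu : t ≠ u := fun e => by rw [e] at hD; exact not_cyc_self_left hD.1
        exact hm ⟨t, ht, htu⟩ hD
      obtain ⟨s, hs, hsr, hsD, hcov⟩ := h.bb v.1 v.2.1 u huW hvb hu v.2.2 hE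
      have hsu : s ≠ u := fun e => by rw [e] at hsr; rw [hu] at hsr; exact Bool.noConfusion hsr
      have hvs : ltu p q W u v ⟨s, hs, hsu⟩ := ⟨hsD.1.rot', hsD.2.rot'⟩
      refine ⟨⟨s, hs, hsu⟩, hsr, Or.inl hvs, ?_⟩
      intro t ht
      rcases ht with ht | ht | ⟨_, ht⟩
      · have h1 := hcov t.1 t.2.1 ⟨Cyc.rot ht.1, Cyc.rot ht.2⟩
        rcases h1 with h1 | h1 | h1
        · exact Or.inr (Or.inr ⟨Subtype.ext h1.symm, hsr⟩)
        · refine Or.inr (Or.inl ⟨?_, ?_⟩)
          · have a1 : Cyc p u v.1 s := hvs.1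
            have a2 := h1.1
            show Cyc p u t.1 s
            unfold Cyc at a1 a2 ⊢; omega
          · have a1 : Cyc q u v.1 s := hvs.2
            have a2 := h1.2
            show Cyc q u t.1 s
            unfold Cyc at a1 a2 ⊢; omega
        · exact Or.inl ⟨Cyc.rot' h1.1, Cyc.rot' h1.2⟩
      · exact absurd ht (hm t)
      · exact absurd ht hv
    · have hE : ∀ t ∈ W, ¬ InD p q v.1 u t := by
        intro t ht hD
        have htu : t ≠ u := fun e => by rw [e] at hD; exact not_cyc_self_right hD.1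
        exact hm ⟨t, ht, htu⟩ ⟨hD.1.rot', hD.2.rot'⟩
      obtain ⟨s, hs, hsr, hsD, hcov⟩ := h.bb u huW v.1 v.2.1 hu hvb v.2.2.symm hE
      have hsu : s ≠ u := fun e => by rw [e] at hsr; rw [hu] at hsr; exact Bool.noConfusion hsr
      have hsv : ltu p q W u ⟨s, hs, hsu⟩ v := ⟨hsD.1, hsD.2⟩
      refine ⟨⟨s, hs, hsu⟩, hsr, Or.inr (Or.inl hsv), ?_⟩
      intro t ht
      rcases ht with ht | ht | ⟨_, ht⟩
      · exact absurd ht (hm t)
      · have h1 := hcov t.1 t.2.1 ⟨ht.1, ht.2⟩
        rcases h1 with h1 | h1 | h1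
        · exact Or.inr (Or.inr ⟨Subtype.ext h1.symm, hsr⟩)
        · exact Or.inr (Or.inl ⟨h1.1, h1.2⟩)
        · refine Or.inl ⟨?_, ?_⟩
          · have a1 : Cyc p u s v.1 := hsv.1
            have a2 := h1.1
            show Cyc p u s t.1
            unfold Cyc at a1 a2 ⊢; omega
          · have a1 : Cyc q u s v.1 := hsv.2
            have a2 := h1.2
            show Cyc q u s t.1
            unfold Cyc at a1 a2 ⊢; omega
      · exact absurd ht hv
  h2 := by
    intro x y hx hy hxy hE
    have e2 := (cyc_u hq (hN x.1 x.2.1).2 (hN y.1 y.2.1).2 x.2.2 y.2.2).1 hxy.2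
    have e1 := (cyc_u hp (hN x.1 x.2.1).1 (hN y.1 y.2.1).1 x.2.2 y.2.2).1 hxy.1
    have hne : x.1 ≠ y.1 := by
      intro e; rw [e] at e1; omega
    have hr := lt_rt (red := red) hp hq hu hxy
    have main : ∃ v, SplitOn (gT p q red) W v x.1 y.1 := by
      rcases hE with ⟨hE, _⟩ | ⟨hE, _⟩
      · have hE1 := empty1 (q := q) hp hN e1 (fun t ht => hE t ((strip1 hp hq hN hxy).1 ht))
        obtain ⟨v, hv, hvb, hA, hcov⟩ := h.rr y.1 y.2.1 x.1 x.2.1 hy hx hne.symm hE1
        exact ⟨v, (splitOn_red hp hq x.2.1 hx hy hne).2 ⟨hv, hvb, Or.inr ⟨hA, hcov⟩⟩⟩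
      · have hE2 := empty2 (p := p) hq hN e2 (fun t ht => hE t ((strip2 hp hq hN hxy).1 ht))
        obtain ⟨v, hv, hvb, hA, hcov⟩ := h.rr x.1 x.2.1 y.1 y.2.1 hx hy hne hE2
        exact ⟨v, (splitOn_red hp hq x.2.1 hx hy hne).2 ⟨hv, hvb, Or.inl ⟨hA, hcov⟩⟩⟩
    obtain ⟨v, hv⟩ := main
    exact side_of_split hp hq hu huW hx hy hr hv
  h3 := by
    intro x y hx hy ha hb hE hc
    have hne : x.1 ≠ y.1 := by
      intro e
      have : x = y := Subtype.ext e
      subst this; omega
    have hxN := hN x.1 x.2.1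
    have hyN := hN y.1 y.2.1
    have hE1 : ∀ t ∈ W, ¬ InA p q x.1 y.1 t := by
      refine empty1 (q := q) hp hN ha ?_
      intro t hA
      have htN := hN t.1 t.2.1
      unfold InA at hA
      rw [cyc_sh hp hxN.1 htN.1 hyN.1 x.2.2 t.2.2 y.2.2,
        cyc_sh hq hyN.2 htN.2 hxN.2 y.2.2 t.2.2 x.2.2] at hA
      apply hE t
      refine ⟨by omega, by omega, by omega, by omega⟩
    obtain ⟨v, hv, hvb, hA, hcov⟩ := h.rr y.1 y.2.1 x.1 x.2.1 hy hx hne.symm hE1
    have hS : SplitOn (gT p q red) W v x.1 y.1 :=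
      (splitOn_red hp hq x.2.1 hx hy hne).2 ⟨hv, hvb, Or.inr ⟨hA, hcov⟩⟩
    have hr : rt (gT p q red) u x.1 y.1 = false := by
      rw [← Bool.not_eq_true, ← nb_iff hp hq hu]
      rintro (e | e | ⟨e, _⟩)
      · have := (cyc_u hq hxN.2 hyN.2 x.2.2 y.2.2).1 e.2; omega
      · have := (cyc_u hp hyN.1 hxN.1 y.2.2 x.2.2).1 e.1; omega
      · exact hne (congrArg Subtype.val e)
    exact far_of_split hp hq hu huW hx hy hr hc hS

end

end SC

end Pool.GOD
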