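import Mathlib
import Pool.Agent.GOD.SideC

/-!
GOD (helper88): a torus system in which the monochromatic pairs with an EMPTY rectangle are split
(`HWc`) is a twin-free tree.
-/

namespace Pool.GOD

variable {V : Type*} [DecidableEq V]

namespace SC

open Lf

section abs

variable {g : V → V → Bool} {W : Finset V}

omit [DecidableEq V] in
theorem mono_right {K K' : Finset V} {z u : V} (h : ESplit g K K' z u) {L : Finset V}
    (hL : L ⊆ K') (hu : u ∈ L) : ESplit g K L z u :=
  ⟨h.hz, hu, Finset.disjoint_of_subset_right hL h.hd, h.hzu,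
    fun t ht s hs => h.h1 t ht s (hL hs), fun s hs => h.h2 s (hL hs)⟩

/-- the side `K` at the root `u` -/
def SideAt (g : V → V → Bool) (W : Finset V) (u : V) (K : Finset V) (z : V) : Prop :=
  K ⊆ W ∧ ESplit g K (W \ K) z u

/-- membership in a side -/
theorem SideAt.mem (hs : ∀ x y, g x y = g y x) {u z : V} {K : Finset V} (h : SideAt g W u K z)
    {t : V} (ht : t ∈ W) : t ∈ K ↔ rt g u t z = true := by
  obtain ⟨hK, hE⟩ := h
  have hzu := hE.hzu
  constructor
  · intro htK
    have h1 := hE.h1 t htK u hE.hu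
    revert h1 hzu
    unfold rt bil
    rw [hs z u, hs t u]
    cases g z z <;> cases g u z <;> cases g t z <;> cases g u t <;> cases g u u <;> decide
  · intro h1
    by_contra htK
    have h2 := hE.h2 t (Finset.mem_sdiff.2 ⟨ht, htK⟩)
    revert h1 h2
    unfold rt bil
    cases g u z <;> cases g u u <;> cases g t z <;> cases g t u <;> decide

/-- there is no adjacency between a side and its complement -/
theorem SideAt.cut (hs : ∀ x y, g x y = g y x) {u z : V} {K : Finset V} (h : SideAt g W u K z)
    {t s : V} (ht : t ∈ K) (hsW : s ∈ W) (hsK : s ∉ K) : rt g u t s = false := by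
  have h1 := h.2.h1 t ht s (Finset.mem_sdiff.2 ⟨hsW, hsK⟩)
  rw [bil_rt g u z t z s] at h1
  have a1 : rt g u z z = true := (h.mem hs (h.1 h.2.hz)).1 h.2.hz
  have a2 : rt g u t z = true := (h.mem hs (h.1 ht)).1 ht
  have a3 : rt g u z s = false := by
    rw [rt_comm hs, ← Bool.not_eq_true, ← h.mem hs hsW]
    exact hsK
  rw [a1, a2, a3] at h1
  revert h1
  cases rt g u t s <;> decide

theorem SideAt.sub (hs : ∀ x y, g x y = g y x) {u z z' : V} {K K' : Finset V}
    (h : SideAt g W u K z) (h' : SideAt g W u K' z') {t : V} (ht : t ∈ K) (ht' : t ∈ K') :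
    K' ⊆ K := by
  have a1 : rt g u t z' = true := (h'.mem hs (h'.1 ht')).1 ht'
  have hz' : z' ∈ K := by
    by_contra hn
    have := h.cut hs ht (h'.1 h'.2.hz) hn
    rw [a1] at this
    exact Bool.noConfusion this
  intro s hs'
  by_contra hn
  have a2 := (h'.mem hs (h'.1 hs')).1 hs'
  have a3 := h.cut hs hz' (h'.1 hs') hn
  rw [rt_comm hs, a2] at a3
  exact Bool.noConfusion a3

/-- the complement of a side is a side at the other end of the edge -/
theorem SideAt.compl (hs : ∀ x y, g x y = g y x) {u z : V} {K : Finset V}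
    (h : SideAt g W u K z) : SideAt g W z (W \ K) u := by
  refine ⟨Finset.sdiff_subset, ?_⟩
  rw [Finset.sdiff_sdiff_eq_self h.1]
  exact h.2.symm hs

theorem SideAt.root_notMem {u z : V} {K : Finset V} (h : SideAt g W u K z) : u ∉ K :=
  (Finset.mem_sdiff.1 h.2.hu).2

/-- gluing the sides at a root -/
theorem grow (hs : ∀ x y, g x y = g y x)
    (H : ∀ u ∈ W, ∀ x ∈ W, x ≠ u → ∃ K z, x ∈ K ∧ SideAt g W u K z) (u : V) (hu : u ∈ W) :
    ∀ n : ℕ, ∀ S : Finset V, S.card = n → S ⊆ W → u ∉ S →
      (∀ x ∈ S, ∀ K z, x ∈ K → SideAt g W u K z → K ⊆ S ∧ TreeE g K) →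
      TreeE g (insert u S) := by
  intro n
  induction n using Nat.strong_induction_on with
  | _ n ih =>
    intro S hn hSW huS hcl
    rcases Finset.eq_empty_or_nonempty S with e | ⟨x, hx⟩
    · subst e
      exact TreeE.single u
    · have hxu : x ≠ u := fun e => huS (e ▸ hx)
      obtain ⟨K, z, hxK, hK⟩ := H u hu x (hSW hx) hxu
      obtain ⟨hKS, hKT⟩ := hcl x hx K z hxK hK
      have hcard : (S \ K).card < n := by
        rw [← hn]
        exact Finset.card_lt_card ⟨Finset.sdiff_subset, fun hc =>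
          (Finset.mem_sdiff.1 (hc hx)).2 hxK⟩
      have hT := ih _ hcard (S \ K) rfl (Finset.sdiff_subset.trans hSW)
        (fun hc => huS (Finset.sdiff_subset hc)) (by
          intro y hy L z' hyL hL
          obtain ⟨hyS, hyK⟩ := Finset.mem_sdiff.1 hy
          obtain ⟨h1, h2⟩ := hcl y hyS L z' hyL hL
          refine ⟨?_, h2⟩
          intro t ht
          refine Finset.mem_sdiff.2 ⟨h1 ht, ?_⟩
          intro htK
          exact hyK (hK.sub hs hL htK ht hyL))
      have hE : ESplit g K (insert u (S \ K)) z u := by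
        refine mono_right hK.2 ?_ (Finset.mem_insert_self _ _)
        intro t ht
        rcases Finset.mem_insert.1 ht with e | ht
        · subst e; exact hK.2.hu
        · obtain ⟨h1, h2⟩ := Finset.mem_sdiff.1 ht
          exact Finset.mem_sdiff.2 ⟨hSW h1, h2⟩
      have := TreeE.edge K (insert u (S \ K)) z u hE hKT hT
      have e : K ∪ insert u (S \ K) = insert u S := by
        rw [Finset.union_insert, Finset.union_sdiff_of_subset hKS]
      rwa [e] at this

/-- sides are trees -/
theorem side_tree (hs : ∀ x y, g x y = g y x)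
    (H : ∀ u ∈ W, ∀ x ∈ W, x ≠ u → ∃ K z, x ∈ K ∧ SideAt g W u K z) :
    ∀ n : ℕ, ∀ K z u, K.card = n → SideAt g W u K z → TreeE g K := by
  intro n
  induction n using Nat.strong_induction_on with
  | _ n ih =>
    intro K z u hn hK
    have hz : z ∈ K := hK.2.hz
    have h1 := grow hs H z (hK.1 hz) _ (K.erase z) rfl ((Finset.erase_subset _ _).trans hK.1)
      (Finset.notMem_erase z K) (by
        intro x hx L z' hxL hL
        obtain ⟨hxz, hxK⟩ := Finset.mem_erase.1 hx
        have hLK : L ⊆ K.erase z := by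
          intro t ht
          refine Finset.mem_erase.2 ⟨fun e => hL.root_notMem (e ▸ ht), ?_⟩
          by_contra htK
          have h2 := (hK.compl hs).sub hs hL (Finset.mem_sdiff.2 ⟨hL.1 ht, htK⟩) ht hxL
          exact (Finset.mem_sdiff.1 h2).2 hxK
        refine ⟨hLK, ?_⟩
        have hlt : L.card < n := by
          have h3 := Finset.card_le_card hLK
          have h4 := Finset.card_erase_lt_of_mem hz
          omega
        exact ih _ hlt L z' z rfl hL)
    rwa [Finset.insert_erase hz] at h1

/-- if every point is in a side at every root, then the system is a tree -/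
theorem treeE_of_sides (hs : ∀ x y, g x y = g y x) (hW : W.Nonempty)
    (H : ∀ u ∈ W, ∀ x ∈ W, x ≠ u → ∃ K z, x ∈ K ∧ SideAt g W u K z) : TreeE g W := by
  obtain ⟨u, hu⟩ := hW
  have h1 := grow hs H u hu _ (W.erase u) rfl (Finset.erase_subset _ _)
    (Finset.notMem_erase u W) (by
      intro x _ L z' _ hL
      refine ⟨?_, side_tree hs H _ L z' u rfl hL⟩
      intro t ht
      exact Finset.mem_erase.2 ⟨fun e => hL.root_notMem (e ▸ ht), hL.1 ht⟩)
  rwa [Finset.insert_erase hu] at h1

end abs

section torus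

variable {p q : V → ℕ} {red : V → Bool} {W : Finset V} {u : V}

/-- the sides at a blue root -/
theorem side_blue (hp : Function.Injective p) (hq : Function.Injective q)
    (h : HWc p q red W) (huW : u ∈ W) (hu : red u = false) {x : V} (hx : x ∈ W) (hxu : x ≠ u) :
    ∃ K z, x ∈ K ∧ SideAt (gT p q red) W u K z := by
  classical
  -- a common bound
  obtain ⟨N, hN⟩ : ∃ N, ∀ x ∈ W, p x < N ∧ q x < N := by
    refine ⟨W.sup p + W.sup q + 1, ?_⟩
    intro x hx
    have h1 : p x ≤ W.sup p := Finset.le_sup (f := p) hx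
    have h2 : q x ≤ W.sup q := Finset.le_sup (f := q) hx
    omega
  have hyp := hyp_of_hwc (red := red) hp hq hN h huW hu
  let cmp : XX W u → XX W u → Prop := fun x y => ltu p q W u x y ∨ ltu p q W u y x
  let X0 : XX W u := ⟨x, hx, hxu⟩
  have hltt : ∀ a b c : XX W u, ltu p q W u a b → ltu p q W u b c → ltu p q W u a c := by
    intro a b c h1 h2
    rw [hyp.hlt] at h1 h2 ⊢
    omega
  -- a minimal point below `x`
  obtain ⟨m, hm1, hm2⟩ : ∃ m : XX W u, Relation.ReflTransGen cmp X0 m ∧
      ∀ t, ¬ ltu p q W u t m := by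
    have key : ∀ n : ℕ, ∀ y : XX W u, (sh N p u y.1).toNat = n →
        ∃ m : XX W u, Relation.ReflTransGen cmp y m ∧ ∀ t, ¬ ltu p q W u t m := by
      intro n
      induction n using Nat.strong_induction_on with
      | _ n ih =>
        intro y hy
        by_cases hmin : ∀ t, ¬ ltu p q W u t y
        · exact ⟨y, Relation.ReflTransGen.refl, hmin⟩
        · push Not at hmin
          obtain ⟨t, ht⟩ := hmin
          have h1 := (hyp.hlt t y).1 ht
          have h2 : (0 : ℤ) ≤ sh N p u t.1 := by unfold sh; split_ifs <;> omega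
          have h3 : (sh N p u t.1).toNat < n := by
            have := h1.1
            beta_reduce at this
            omega
          obtain ⟨m, hm1, hm2⟩ := ih _ h3 t rfl
          exact ⟨m, Relation.ReflTransGen.head (Or.inr ht) hm1, hm2⟩
    exact key _ X0 rfl
  -- a red point in the component
  obtain ⟨r, hr1, hr2⟩ : ∃ r : XX W u, Relation.ReflTransGen cmp X0 r ∧ rd red W u r := by
    by_cases hmr : rd red W u m
    · exact ⟨m, hm1, hmr⟩
    · have hvb : red m.1 = false := by
        cases e : red m.1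
        · rfl
        · exact absurd e hmr
      have hE : ∀ t ∈ W, ¬ InD p q u m.1 t := by
        intro t ht hD
        have htu : t ≠ u := fun e => by rw [e] at hD; exact not_cyc_self_left hD.1
        exact hm2 ⟨t, ht, htu⟩ hD
      obtain ⟨s, hs, hsr, hsD, _⟩ := h.bb m.1 m.2.1 u huW hvb hu m.2.2 hE
      have hsu : s ≠ u := fun e => by rw [e] at hsr; rw [hu] at hsr; exact Bool.noConfusion hsr
      have hvs : ltu p q W u m ⟨s, hs, hsu⟩ := ⟨hsD.1.rot', hsD.2.rot'⟩
      exact ⟨⟨s, hs, hsu⟩, hm1.tail (Or.inl hvs), hsr⟩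
  obtain ⟨z, hz1, hz2⟩ := hyp.lemmaP' r hr2
  have hrev : ∀ a b, Relation.ReflTransGen cmp a b → Relation.ReflTransGen cmp b a := by
    intro a b hab
    induction hab with
    | refl => exact Relation.ReflTransGen.refl
    | tail _ h2 ih => exact Relation.ReflTransGen.head h2.symm ih
  have huniv : ∀ t, Relation.ReflTransGen cmp X0 t → P2.Nb (ltu p q W u) (rd red W u) z t :=
    fun t ht => hz2 t ((hrev _ _ hr1).trans ht)
  have hzX : Relation.ReflTransGen cmp X0 z := by
    rcases huniv X0 Relation.ReflTransGen.refl with e | e | ⟨e, _⟩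
    · exact Relation.ReflTransGen.single (Or.inr e)
    · exact Relation.ReflTransGen.single (Or.inl e)
    · rw [e]
  -- the side
  let K : Finset V := W.filter (fun t => ∃ ht : t ∈ W ∧ t ≠ u,
    Relation.ReflTransGen cmp X0 ⟨t, ht⟩)
  have hmemK : ∀ t : XX W u, t.1 ∈ K ↔ Relation.ReflTransGen cmp X0 t := by
    intro t
    constructor
    · intro ht
      obtain ⟨_, ht1, ht2⟩ := Finset.mem_filter.1 ht
      exact ht2
    · intro ht
      exact Finset.mem_filter.2 ⟨t.2.1, t.2, ht⟩
  have huK : u ∉ K := by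
    intro hc
    obtain ⟨_, ht1, _⟩ := Finset.mem_filter.1 hc
    exact ht1.2 rfl
  have hsg : ∀ a b, gT p q red a b = gT p q red b a := gT_symm hp hq
  have hz3 : ∀ t : XX W u, t.1 ∈ K → rt (gT p q red) u z.1 t.1 = true := by
    intro t ht
    exact (nb_iff hp hq hu _ _).1 (huniv t ((hmemK t).1 ht))
  have hcut : ∀ t : XX W u, ∀ s : XX W u, t.1 ∈ K → s.1 ∉ K →
      rt (gT p q red) u t.1 s.1 = false := by
    intro t s ht hs
    rw [← Bool.not_eq_true, ← nb_iff hp hq hu]
    intro hN
    apply hs
    rw [hmemK] at ht ⊢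
    rcases hN with e | e | ⟨e, _⟩
    · exact ht.tail (Or.inl e)
    · exact ht.tail (Or.inr e)
    · rw [← e]; exact ht
  have hKu : ∀ t ∈ K, t ∈ W ∧ t ≠ u := by
    intro t ht
    exact (Finset.mem_filter.1 ht).2.1
  have hz0 : z.1 ∈ K := (hmemK z).2 hzX
  refine ⟨K, z.1, (hmemK X0).2 Relation.ReflTransGen.refl, Finset.filter_subset _ _,
    hz0, Finset.mem_sdiff.2 ⟨huW, huK⟩, Finset.disjoint_sdiff, ?_, ?_, ?_⟩
  · rw [gT_self, gT_self, hu]
    have : red z.1 = true := hz1
    rw [this]; decide
  · intro t ht s hs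
    obtain ⟨hsW, hsK⟩ := Finset.mem_sdiff.1 hs
    rw [bil_rt _ u]
    have a1 := hz3 z hz0
    have a2 : rt (gT p q red) u t z.1 = true := by
      rw [rt_comm hsg]; exact hz3 ⟨t, hKu t ht⟩ ht
    rw [a1, a2]
    by_cases hsu : s = u
    · rw [hsu, rt_gT_self_right hp hq, rt_gT_self_right hp hq]; rfl
    · have a3 := hcut z ⟨s, hsW, hsu⟩ hz0 hsK
      have a4 := hcut ⟨t, hKu t ht⟩ ⟨s, hsW, hsu⟩ ht hsK
      have a3' : rt (gT p q red) u z.1 s = false := a3
      have a4' : rt (gT p q red) u t s = false := a4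
      rw [a3', a4']; rfl
  · intro s hs
    obtain ⟨hsW, hsK⟩ := Finset.mem_sdiff.1 hs
    rw [bil_swap_right]
    show rt (gT p q red) u s z.1 = false
    by_cases hsu : s = u
    · rw [hsu]; exact rt_gT_self_left u _
    · rw [rt_comm hsg]
      exact hcut z ⟨s, hsW, hsu⟩ hz0 hsK

/-- reversal of the second circuit -/
def rev (M : ℕ) (q : V → ℕ) (x : V) : ℕ := if q x ≤ M then M - q x else q x

omit [DecidableEq V] in
theorem rev_inj {M : ℕ} (hq : Function.Injective q) : Function.Injective (rev M q) := by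
  intro x y hxy
  apply hq
  unfold rev at hxy
  split_ifs at hxy <;> omega

omit [DecidableEq V] in
theorem cyc_rev {M : ℕ} {x t y : V} (hx : q x ≤ M) (ht : q t ≤ M) (hy : q y ≤ M) :
    Cyc (rev M q) x t y ↔ Cyc q y t x := by
  unfold Cyc rev
  rw [if_pos hx, if_pos ht, if_pos hy]
  omega

theorem gT_rev (hq : Function.Injective q) {M : ℕ} {x y : V} (hx : q x ≤ M) (hy : q y ≤ M) :
    gT p (rev M q) (fun t => !(red t)) x y = !(gT p q red x y) := by
  by_cases h : x = y
  · subst h; rw [gT_self, gT_self]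
  · rw [gT_ne h, gT_ne h]
    have h1 : q x ≠ q y := fun e => h (hq e)
    have h2 : (rev M q x < rev M q y) ↔ ¬ (q x < q y) := by
      unfold rev
      rw [if_pos hx, if_pos hy]
      omega
    rw [Bool.eq_iff_iff, Bool.not_eq_true', decide_eq_true_iff, decide_eq_false_iff_not, h2]
    tauto

omit [DecidableEq V] in
theorem hwc_rev {M : ℕ} (hM : ∀ x ∈ W, q x ≤ M) (h : HWc p q red W) :
    HWc p (rev M q) (fun t => !(red t)) W where
  rr := by
    intro x hx y hy hrx hry hxy hE
    have hrx' : red x = false := by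
      cases e : red x
      · rfl
      · rw [e] at hrx; exact absurd hrx (by decide)
    have hry' : red y = false := by
      cases e : red y
      · rfl
      · rw [e] at hry; exact absurd hry (by decide)
    have k : ∀ a ∈ W, ∀ b ∈ W, ∀ t ∈ W, (InA p (rev M q) a b t ↔ InD p q a b t) := by
      intro a ha b hb t ht
      unfold InA InD
      rw [cyc_rev (hM b hb) (hM t ht) (hM a ha)]
    obtain ⟨v, hv, hvr, hA, hcov⟩ := h.bb x hx y hy hrx' hry' hxy
      (fun t ht hD => hE t ht ((k y hy x hx t ht).2 hD))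
    refine ⟨v, hv, by rw [hvr]; rfl, (k x hx y hy v hv).2 hA, ?_⟩
    intro t ht hAt
    rcases hcov t ht ((k x hx y hy t ht).1 hAt) with e | e | e
    · exact Or.inl e
    · exact Or.inr (Or.inl ((k x hx v hv t ht).2 e))
    · exact Or.inr (Or.inr ((k v hv y hy t ht).2 e))
  bb := by
    intro x hx y hy hrx hry hxy hE
    have hrx' : red x = true := by
      cases e : red x
      · rw [e] at hrx; exact absurd hrx (by decide)
      · rfl
    have hry' : red y = true := by
      cases e : red y
      · rw [e] at hry; exact absurd hry (by decide)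
      · rfl
    have k : ∀ a ∈ W, ∀ b ∈ W, ∀ t ∈ W, (InD p (rev M q) a b t ↔ InA p q a b t) := by
      intro a ha b hb t ht
      unfold InA InD
      rw [cyc_rev (hM a ha) (hM t ht) (hM b hb)]
    obtain ⟨v, hv, hvr, hA, hcov⟩ := h.rr x hx y hy hrx' hry' hxy
      (fun t ht hD => hE t ht ((k y hy x hx t ht).2 hD))
    refine ⟨v, hv, by rw [hvr]; rfl, (k x hx y hy v hv).2 hA, ?_⟩
    intro t ht hAt
    rcases hcov t ht ((k x hx y hy t ht).1 hAt) with e | e | e
    · exact Or.inl e
    · exact Or.inr (Or.inl ((k x hx v hv t ht).2 e))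
    · exact Or.inr (Or.inr ((k v hv y hy t ht).2 e))

omit [DecidableEq V] in
theorem bil_not {g g' : V → V → Bool} {x y z t : V} (h1 : g' x z = !(g x z))
    (h2 : g' x t = !(g x t)) (h3 : g' y z = !(g y z)) (h4 : g' y t = !(g y t)) :
    bil g' x y z t = bil g x y z t := by
  unfold bil
  rw [h1, h2, h3, h4]
  cases g x z <;> cases g x t <;> cases g y z <;> cases g y t <;> rfl

/-- the sides at every root -/
theorem side_any (hp : Function.Injective p) (hq : Function.Injective q)
    (h : HWc p q red W) : ∀ u ∈ W, ∀ x ∈ W, x ≠ u →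
    ∃ K z, x ∈ K ∧ SideAt (gT p q red) W u K z := by
  intro u hu x hx hxu
  cases hr : red u with
  | false => exact side_blue hp hq h hu hr hx hxu
  | true =>
    have hM : ∀ x ∈ W, q x ≤ W.sup q := fun x hx => Finset.le_sup (f := q) hx
    obtain ⟨K, z, hxK, hKW, hE⟩ := side_blue (red := fun t => !(red t)) hp
      (rev_inj (M := W.sup q) hq) (hwc_rev hM h) hu (by rw [hr]; rfl) hx hxu
    have hg : ∀ a ∈ W, ∀ b ∈ W,
        gT p (rev (W.sup q) q) (fun t => !(red t)) a b = !(gT p q red a b) :=
      fun a ha b hb => gT_rev hq (hM a ha) (hM b hb)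
    have hzW : z ∈ W := hKW hE.hz
    refine ⟨K, z, hxK, hKW, hE.hz, hE.hu, hE.hd, ?_, ?_, ?_⟩
    · have := hE.hzu
      rw [hg z hzW z hzW, hg u hu u hu] at this
      intro e
      exact this (by rw [e])
    · intro t ht s hs
      have htW := hKW ht
      have hsW := (Finset.mem_sdiff.1 hs).1
      rw [← hE.h1 t ht s hs]
      exact (bil_not (hg z hzW z hzW) (hg z hzW s hsW) (hg t htW z hzW) (hg t htW s hsW)).symm
    · intro s hs
      have hsW := (Finset.mem_sdiff.1 hs).1
      rw [← hE.h2 s hs]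
      exact (bil_not (hg u hu z hzW) (hg u hu u hu) (hg s hsW z hzW) (hg s hsW u hu)).symm

end torus

end SC

open Lf

variable {p q : V → ℕ} {red : V → Bool} {W : Finset V}

/-- **Theorem** (one-rooted Lemma P' at all roots) -/
theorem treeE_of_hwc (hp : Function.Injective p) (hq : Function.Injective q)
    (h : HWc p q red W) (hW : W.Nonempty) : TreeE (gT p q red) W :=
  SC.treeE_of_sides (gT_symm hp hq) hW (SC.side_any hp hq h)

/-- at least three points: two triangles with different leaves -/
theorem two_triangles_of_hwc (hp : Function.Injective p) (hq : Function.Injective q)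
    (h : HWc p q red W) (h3 : 3 ≤ W.card) :
    ∃ w v w' v', Tri p q red W w v ∧ Tri p q red W w' v' ∧ w ≠ w' ∧ w' ≠ v ∧ v' ≠ w :=
  two_tri hp hq (treeE_of_hwc hp hq h (Finset.card_pos.1 (by omega))) h3

end Pool.GOD
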