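import Pool.Agent.GOD.Dict4
import Pool.Agent.GOD.TreeC

/-!
Hamilton pairs without further removable circuits contain triangles (MP_7b7176_co).
-/

set_option autoImplicit false

namespace Pool.GOD

/-- at least two points: a triangle -/
theorem tri_of_treeE {V : Type*} [DecidableEq V] {p q : V → ℕ} {red : V → Bool} {W : Finset V}
    (hp : Function.Injective p) (hq : Function.Injective q)
    (hE : Lf.TreeE (gT p q red) W) (h2 : 2 ≤ W.card) : ∃ w v, Lf.Tri p q red W w v := by
  rcases Nat.lt_or_ge W.card 3 with h | h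
  · cases hE with
    | single z => simp at h2
    | edge K K' z u e hK hK' =>
      have hcard : (K ∪ K').card = K.card + K'.card := Finset.card_union_of_disjoint e.hd
      have h4 : 0 < K.card := Finset.card_pos.2 ⟨z, e.hz⟩
      have h5 : 0 < K'.card := Finset.card_pos.2 ⟨u, e.hu⟩
      have h6 : K.card ≤ 1 := by omega
      have h7 : K'.card ≤ 1 := by omega
      have hzu : z ≠ u := fun h => Finset.disjoint_left.1 e.hd e.hz (h ▸ e.hu)
      have hmem : ∀ t ∈ K ∪ K', t = z ∨ t = u := by
        intro t ht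
        rcases Finset.mem_union.1 ht with ht | ht
        · exact Or.inl (Finset.card_le_one.1 h6 t ht z e.hz)
        · exact Or.inr (Finset.card_le_one.1 h7 t ht u e.hu)
      have hN1 : ∀ r : V → ℕ, Lf.Next r (K ∪ K') u z := by
        intro r
        refine ⟨hzu.symm, ?_⟩
        intro t ht h1 h2
        rcases hmem t ht with h | h
        · exact absurd h h2
        · exact absurd h h1
      have hN2 : ∀ r : V → ℕ, Lf.Next r (K ∪ K') z u := by
        intro r
        refine ⟨hzu, ?_⟩
        intro t ht h1 h2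
        rcases hmem t ht with h | h
        · exact absurd h h1
        · exact absurd h h2
      refine ⟨z, u, Finset.mem_union_left _ e.hz, Finset.mem_union_right _ e.hu, ?_,
        Or.inl ⟨hN1 p, fun _ => hN1 q, fun _ => hN2 q⟩⟩
      have := e.hzu
      rwa [gT_self, gT_self] at this
  · obtain ⟨w, v, _, _, T, _⟩ := Lf.two_tri hp hq hE h
    exact ⟨w, v, T⟩

theorem HWcut.hwc {V : Type*} [DecidableEq V] {p q : V → ℕ} {red : V → Bool} {W : Finset V}
    (h : HWcut p q red W) : HWc p q red W where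
  rr x hx y hy rx ry hxy hemp := h.rr y hy x hx (Ne.symm hxy) ry rx hemp
  bb x hx y hy rx ry hxy hemp := h.bb y hy x hx (Ne.symm hxy) ry rx hemp

namespace MGraph

variable {V E : Type*} [Fintype V] [DecidableEq V] [Fintype E] [DecidableEq E] {G : MGraph V E}
  {H1 H2 : Finset E}

/-- the common edges form a perfect matching -/
theorem HamPair.card_eq (h : G.HamPair H1 H2) : Fintype.card V = 2 * (H1 ∩ H2).card := by
  have h1 : ∀ a, G.deg (H1 ∩ H2) a = 1 := by
    intro a
    have h2 : G.deg (H1 ∪ H2) a + G.deg (H1 ∩ H2) a = G.deg H1 a + G.deg H2 a := by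
      unfold deg
      rw [Finset.filter_union, Finset.filter_inter_distrib]
      exact Finset.card_union_add_card_inter _ _
    have h3 := h.deg1 a
    have h4 : G.deg (H1 ∪ H2) a = 3 := by rw [h.union]; exact h.cubic a
    omega
  have h2 := G.sum_deg (H1 ∩ H2) Finset.univ
  rw [Finset.sum_congr rfl (fun a _ => h1 a), Finset.sum_const, smul_eq_mul, mul_one, cut_univ,
    Finset.inter_empty, Finset.card_empty, Nat.zero_add, Finset.card_univ] at h2
  rw [h2]
  congr 2
  rw [Finset.filter_true_of_mem]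
  intro e _ a _
  exact Finset.mem_univ a

theorem HamPair.card_coe (h : G.HamPair H1 H2) :
    Fintype.card V = 2 * (Finset.univ : Finset ↥(H1 ∩ H2)).card := by
  rw [h.card_eq, Finset.card_univ, Fintype.card_coe]

/-- **Hamilton pairs, one triangle** -/
theorem HamPair.exists_triangle (h : G.HamPair H1 H2)
    (hrem : ∀ D, G.IsRemovable Finset.univ (fun e => chi H1 e + chi H2 e) D → D = H1 ∨ D = H2)
    (h4 : 4 ≤ Fintype.card V) : ∃ w v f g a b c, IsTriangle G H1 H2 w v f g a b c := by
  obtain ⟨n1, v1, e1, E1⟩ := h.c1.exists_enum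
  obtain ⟨n2, v2, e2, E2⟩ := h.c2.exists_enum
  obtain ⟨hp, hq, hc⟩ := h.hwcut hrem E1 E2
  have h5 := h.card_coe
  have hT := treeE_of_hwc hp hq hc.hwc (Finset.card_pos.1 (by omega))
  obtain ⟨w, v, T⟩ := tri_of_treeE hp hq hT (by omega)
  obtain ⟨f, g, a, b, c, hh⟩ := h.triangle E1 E2 T
  exact ⟨w.1, v.1, f, g, a, b, c, hh⟩

/-- **Hamilton pairs, two triangles** -/
theorem HamPair.exists_two_triangles (h : G.HamPair H1 H2)
    (hrem : ∀ D, G.IsRemovable Finset.univ (fun e => chi H1 e + chi H2 e) D → D = H1 ∨ D = H2)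
    (h6 : 6 ≤ Fintype.card V) : ∃ w v f g a b c w' v' f' g' a' b' c',
      IsTriangle G H1 H2 w v f g a b c ∧ IsTriangle G H1 H2 w' v' f' g' a' b' c' ∧
        w ≠ w' ∧ w' ≠ v ∧ v' ≠ w := by
  obtain ⟨n1, v1, e1, E1⟩ := h.c1.exists_enum
  obtain ⟨n2, v2, e2, E2⟩ := h.c2.exists_enum
  obtain ⟨hp, hq, hc⟩ := h.hwcut hrem E1 E2
  have h5 := h.card_coe
  obtain ⟨w, v, w', v', T, T', g1, g2, g3⟩ := two_triangles_of_hwc hp hq hc.hwc (by omega)
  obtain ⟨f, g, a, b, c, hh⟩ := h.triangle E1 E2 T
  obtain ⟨f', g', a', b', c', hh'⟩ := h.triangle E1 E2 T'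
  exact ⟨w.1, v.1, f, g, a, b, c, w'.1, v'.1, f', g', a', b', c', hh, hh',
    fun e => g1 (Subtype.ext e), fun e => g2 (Subtype.ext e), fun e => g3 (Subtype.ext e)⟩

end MGraph

end Pool.GOD
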