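import Pool.Agent.GOD.Piece

/-!
Twins of a Hamilton pair give edge cuts with at most two edges (MP_7b7176_co).
-/

set_option autoImplicit false
set_option linter.unusedSectionVars false

namespace Pool.GOD

namespace MGraph

variable {V E : Type*} [Fintype V] [DecidableEq V] [Fintype E] [DecidableEq E] {G : MGraph V E}
  {H1 H2 : Finset E} {n1 n2 : ℕ} {v1 v2 : ℕ → V} {e1 e2 : ℕ → E} {x y : E}

/-- every vertex is an end of a common edge -/
theorem HamPair.exists_common (h : G.HamPair H1 H2) (a : V) :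
    ∃ m, m ∈ H1 ∧ m ∈ H2 ∧ a ∈ G.ends m := by
  have h2 : G.deg (H1 ∪ H2) a + G.deg (H1 ∩ H2) a = G.deg H1 a + G.deg H2 a := by
    unfold deg
    rw [Finset.filter_union, Finset.filter_inter_distrib]
    exact Finset.card_union_add_card_inter _ _
  have h3 := h.deg1 a
  have h4 : G.deg (H1 ∪ H2) a = 3 := by rw [h.union]; exact h.cubic a
  obtain ⟨m, hm, ha⟩ := (G.deg_pos_iff (X := H1 ∩ H2) (v := a)).1 (by omega)
  rw [Finset.mem_inter] at hm
  exact ⟨m, hm.1, hm.2, ha⟩

/-- twins, same direction -/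
theorem HamPair.twin_same (h : G.HamPair H1 H2) (h1 : Enum G H1 n1 v1 e1)
    (h2 : Enum G H2 n2 v2 e2) (hx1 : x ∈ H1) (hx2 : x ∈ H2) (hy1 : y ∈ H1) (hy2 : y ∈ H2)
    (hxy : x ≠ y) (dx : SameDir v1 e1 v2 e2 x) (dy : SameDir v1 e1 v2 e2 y)
    (hA : ∀ t, t ∈ H1 → t ∈ H2 → ¬ InA (idx e1) (idx e2) x y t)
    (hA' : ∀ t, t ∈ H1 → t ∈ H2 → ¬ InA (idx e1) (idx e2) y x t) :
    ∃ S : Finset V, S.Nonempty ∧ S ≠ Finset.univ ∧ (G.cut S).card ≤ 2 := by
  obtain ⟨k1, k2, V1, V2, E1, E2, w1, w2, pk1, lk1, pk2, lk2, x1, x2, y1, y2, hv0, hvk,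
    m1, m1', m2, m2'⟩ := walk_enum h1 h2 hx1 hx2 hy1 hy2 hxy dx dy
  -- common edges other than x, y
  have key : ∀ t, t ∈ H1 → t ∈ H2 → t ≠ x → t ≠ y →
      (Cyc (idx e1) x t y ↔ Cyc (idx e2) x t y) ∧ (¬ Cyc (idx e1) x t y ↔ Cyc (idx e1) y t x) ∧
      (¬ Cyc (idx e2) x t y ↔ Cyc (idx e2) y t x) := by
    intro t t1 t2 tx ty
    have g1 : idx e1 t ≠ idx e1 x := fun h => tx (h1.idx_inj t1 hx1 h)
    have g2 : idx e1 t ≠ idx e1 y := fun h => ty (h1.idx_inj t1 hy1 h)
    have g3 : idx e1 x ≠ idx e1 y := fun h => hxy (h1.idx_inj hx1 hy1 h)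
    have g4 : idx e2 t ≠ idx e2 x := fun h => tx (h2.idx_inj t2 hx2 h)
    have g5 : idx e2 t ≠ idx e2 y := fun h => ty (h2.idx_inj t2 hy2 h)
    have g6 : idx e2 x ≠ idx e2 y := fun h => hxy (h2.idx_inj hx2 hy2 h)
    have r1 : ¬ Cyc (idx e1) x t y ↔ Cyc (idx e1) y t x := by unfold Cyc; omega
    have r2 : ¬ Cyc (idx e2) x t y ↔ Cyc (idx e2) y t x := by unfold Cyc; omega
    have a1 := hA t t1 t2
    have a2 := hA' t t1 t2
    unfold InA at a1 a2
    refine ⟨?_, r1, r2⟩
    constructor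
    · intro c
      by_contra c'
      exact a1 ⟨c, r2.1 c'⟩
    · intro c
      by_contra c'
      exact a2 ⟨r1.1 c', c⟩
  set S : Finset V := (Finset.Icc 1 k1).image V1 with hS
  have memS : ∀ a, a ∈ S ↔ ∃ i, 1 ≤ i ∧ i ≤ k1 ∧ V1 i = a := by
    intro a
    rw [hS, Finset.mem_image]
    constructor
    · rintro ⟨i, hi, hia⟩
      rw [Finset.mem_Icc] at hi
      exact ⟨i, hi.1, hi.2, hia⟩
    · rintro ⟨i, hi, hi', hia⟩
      exact ⟨i, Finset.mem_Icc.2 ⟨hi, hi'⟩, hia⟩
  have s1 : ∀ i, i < n1 → (V1 i ∈ S ↔ 1 ≤ i ∧ i ≤ k1) := by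
    intro i hi
    rw [memS]
    constructor
    · rintro ⟨j, hj, hj', hji⟩
      have := w1.injv _ _ (by omega) hi hji
      omega
    · rintro ⟨c1, c2⟩
      exact ⟨i, c1, c2, rfl⟩
  have V1n : V1 n1 = V1 0 := by
    have := w1.pv 0
    rwa [Nat.zero_add] at this
  have V2n : V2 n2 = V2 0 := by
    have := w2.pv 0
    rwa [Nat.zero_add] at this
  have s1' : ∀ i, i ≤ n1 → (V1 i ∈ S ↔ 1 ≤ i ∧ i ≤ k1) := by
    intro i hi
    rcases Nat.lt_or_ge i n1 with c | c
    · exact s1 i c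
    · have : i = n1 := by omega
      rw [this, V1n, s1 0 (by omega)]
      omega
  -- vertices of the second circuit
  have hyk1 : G.ends y = s(V1 k1, V1 (k1 + 1)) := by rw [← y1]; exact w1.ends _
  have hyk2 : G.ends y = s(V2 k2, V2 (k2 + 1)) := by rw [← y2]; exact w2.ends _
  have hxk1 : G.ends x = s(V1 0, V1 1) := by rw [← x1]; exact w1.ends _
  have hxk2 : G.ends x = s(V2 0, V2 1) := by rw [← x2]; exact w2.ends _
  have hv1 : V1 1 = V2 1 := by
    rw [hxk1, hv0] at hxk2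
    exact Sym2.congr_right.1 hxk2
  have hvk' : V1 k1 = V2 k2 := by
    have h3 : s(V1 k1, V1 (k1 + 1)) = s(V2 k2, V2 (k2 + 1)) := by rw [← hyk1, hyk2]
    rw [hvk] at h3
    exact Sym2.congr_left.1 h3
  have s2 : ∀ j, j < n2 → (V2 j ∈ S ↔ 1 ≤ j ∧ j ≤ k2) := by
    intro j hj
    obtain ⟨t, t1, t2, ta⟩ := h.exists_common (V2 j)
    -- position of t on H2
    obtain ⟨k, hk, hkt⟩ := (w2.mem t).1 t2
    have hkj : k = j ∨ (k + 1) % n2 = j := by
      rw [← hkt, w2.ends, Sym2.mem_iff] at ta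
      rcases ta with ta | ta
      · exact Or.inl (w2.injv _ _ hk hj ta.symm)
      · right
        have := (w2.v_eq_iff _ _).1 ta
        rw [Nat.mod_eq_of_lt hj] at this
        exact this.symm
    by_cases tx : t = x
    · subst tx
      have hk0 : k = 0 := w2.inje _ _ hk (by omega) (hkt.trans x2.symm)
      subst hk0
      rcases hkj with c | c
      · rw [← c, ← hv0, s1 0 (by omega)]
        omega
      · rw [Nat.zero_add] at c
        rw [Nat.mod_eq_of_lt (by have := w2.two; omega)] at c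
        rw [← c, ← hv1, s1' 1 (by omega)]
        omega
    by_cases ty : t = y
    · subst ty
      have hk0 : k = k2 := w2.inje _ _ hk (by omega) (hkt.trans y2.symm)
      rw [hk0] at hkj
      rcases hkj with c | c
      · rw [← c, ← hvk', s1' k1 (by omega)]
        omega
      · have c' : V2 j = V1 (k1 + 1) := by
          rw [hvk, ← c, w2.v_mod]
        rw [c', s1' (k1 + 1) (by omega)]
        have : ¬ (1 ≤ j ∧ j ≤ k2) := by
          rintro ⟨c1, c2⟩
          rcases Nat.lt_or_ge (k2 + 1) n2 with c3 | c3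
          · rw [Nat.mod_eq_of_lt c3] at c; omega
          · have c4 : k2 + 1 = n2 := by omega
            rw [c4, Nat.mod_self] at c
            omega
        omega
    obtain ⟨q1, q2, q3⟩ := key t t1 t2 tx ty
    obtain ⟨i, hi, hit⟩ := (w1.mem t).1 t1
    have hkne0 : k ≠ 0 := fun c => tx (by rw [← hkt, c, x2])
    have hknek : k ≠ k2 := fun c => ty (by rw [← hkt, c, y2])
    have hine0 : i ≠ 0 := fun c => tx (by rw [← hit, c, x1])
    have hinek : i ≠ k1 := fun c => ty (by rw [← hit, c, y1])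
    -- sides
    have side1 : Cyc (idx e1) x t y → i < k1 := by
      intro c
      obtain ⟨i', hi', hi'', h'⟩ := m1' t t1 c
      have := w1.inje _ _ hi (by omega) (hit.trans h'.symm)
      omega
    have side1' : i < k1 → Cyc (idx e1) x t y := by
      intro c
      have := (m1 i (by omega) c).2
      rwa [hit] at this
    have side2 : Cyc (idx e2) y t x ↔ k2 < k := by
      constructor
      · intro c
        obtain ⟨j', hj', hj'', h'⟩ := m2' t t2 c
        have := w2.inje _ _ hk (by omega) (hkt.trans h'.symm)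
        omega
      · intro c
        have := (m2 k c hk).2
        rwa [hkt] at this
    have hends : V2 j = V1 i ∨ V2 j = V1 (i + 1) := by
      rw [← hit, w1.ends, Sym2.mem_iff] at ta
      exact ta
    have hiS : V2 j ∈ S ↔ i < k1 := by
      rcases hends with c | c
      · rw [c, s1' i (by omega)]; omega
      · rw [c, s1' (i + 1) (by omega)]; omega
    rw [hiS]
    have hik : i < k1 ↔ k < k2 := by
      constructor
      · intro c
        have c1 := q1.1 (side1' c)
        have c2 : ¬ Cyc (idx e2) y t x := fun c3 => (q3.2 c3) c1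
        rw [side2] at c2
        omega
      · intro c
        have c1 : ¬ Cyc (idx e2) y t x := by rw [side2]; omega
        have c2 : Cyc (idx e2) x t y := by
          by_contra c3; exact c1 (q3.1 c3)
        exact side1 (q1.2 c2)
    rw [hik]
    rcases hkj with c | c
    · omega
    · rcases Nat.lt_or_ge (k + 1) n2 with c3 | c3
      · rw [Nat.mod_eq_of_lt c3] at c; omega
      · have c4 : k + 1 = n2 := by omega
        rw [c4, Nat.mod_self] at c
        omega
  have s2' : ∀ j, j ≤ n2 → (V2 j ∈ S ↔ 1 ≤ j ∧ j ≤ k2) := by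
    intro j hj
    rcases Nat.lt_or_ge j n2 with c | c
    · exact s2 j c
    · have : j = n2 := by omega
      rw [this, V2n, s2 0 (by omega)]
      omega
  refine ⟨S, ⟨V1 1, (s1' 1 (by omega)).2 (by omega)⟩, ?_, ?_⟩
  · intro hU
    have : V1 0 ∈ S := by rw [hU]; exact Finset.mem_univ _
    rw [s1 0 (by omega)] at this
    omega
  · have hsub : G.cut S ⊆ {x, y} := by
      intro f hf
      rw [Finset.mem_insert, Finset.mem_singleton]
      rcases h.cov f with f1 | f2
      · obtain ⟨i, hi, rfl⟩ := (w1.mem f).1 f1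
        rw [G.mem_cut (w1.ends i), s1' i (by omega), s1' (i + 1) (by omega)] at hf
        have : i = 0 ∨ i = k1 := by omega
        rcases this with c | c
        · left; rw [c, x1]
        · right; rw [c, y1]
      · obtain ⟨j, hj, rfl⟩ := (w2.mem f).1 f2
        rw [G.mem_cut (w2.ends j), s2' j (by omega), s2' (j + 1) (by omega)] at hf
        have : j = 0 ∨ j = k2 := by omega
        rcases this with c | c
        · left; rw [c, x2]
        · right; rw [c, y2]
    exact (Finset.card_le_card hsub).trans Finset.card_le_two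

/-- twins, opposite directions -/
theorem HamPair.twin_opp (h : G.HamPair H1 H2) (h1 : Enum G H1 n1 v1 e1)
    (h2 : Enum G H2 n2 v2 e2) (hx1 : x ∈ H1) (hx2 : x ∈ H2) (hy1 : y ∈ H1) (hy2 : y ∈ H2)
    (hxy : x ≠ y) (dx : ¬ SameDir v1 e1 v2 e2 x) (dy : ¬ SameDir v1 e1 v2 e2 y)
    (hA : ∀ t, t ∈ H1 → t ∈ H2 → ¬ InD (idx e1) (idx e2) x y t)
    (hA' : ∀ t, t ∈ H1 → t ∈ H2 → ¬ InD (idx e1) (idx e2) y x t) :
    ∃ S : Finset V, S.Nonempty ∧ S ≠ Finset.univ ∧ (G.cut S).card ≤ 2 := by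
  obtain ⟨-, hd⟩ := rev_facts h1 h2
  exact h.twin_same h1 h2.rev hx1 hx2 hy1 hy2 hxy
    ((hd x hx1 hx2).2 dx) ((hd y hy1 hy2).2 dy)
    (fun t ht1 ht2 h' => hA t ht1 ht2 ((inD_iff h1 h2 hx2 hy2 ht2).2 h'))
    (fun t ht1 ht2 h' => hA' t ht1 ht2 ((inD_iff h1 h2 hy2 hx2 ht2).2 h'))

end MGraph

end Pool.GOD
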