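import Pool.Agent.GOD.HamTri
import Pool.Agent.GOD.Twin

/-!
Hamilton weights (MP_7b7176_co): a 3-connected cubic graph with a Hamilton weight such that no
removable circuit leaves a contra pair contains a triangle.
-/

set_option autoImplicit false
set_option linter.unusedSectionVars false

namespace Pool.GOD

namespace MGraph

variable {V E : Type*} [Fintype V] [DecidableEq V] [Fintype E] [DecidableEq E] (G : MGraph V E)

/-- A Hamilton circuit: a circuit through all vertices. -/
def IsHam (D : Finset E) : Prop := G.IsCircuit D ∧ ∀ v, G.deg D v = 2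

/-- `L` is a faithful cover of `(G, w)`. -/
def IsCover (w : E → ℕ) (L : List (Finset E)) : Prop :=
  (∀ D ∈ L, G.IsCircuit D) ∧ ∀ e, L.countP (fun D => decide (e ∈ D)) = w e

/-- `w` is a Hamilton weight: an eulerian `(1,2)`-weight with a faithful cover, all of whose faithful
covers consist of exactly two Hamilton circuits. -/
def IsHamWeight (w : E → ℕ) : Prop :=
  G.IsEul Finset.univ w ∧ (∃ L, G.IsCover w L) ∧
    ∀ L, G.IsCover w L → L.length = 2 ∧ ∀ D ∈ L, G.IsHam D

/-- Every edge cut has at least three edges. -/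
def ThreeEdgeConnected : Prop :=
  ∀ S : Finset V, S.Nonempty → S ≠ Finset.univ → 3 ≤ (G.cut S).card

/-- `a`, `b`, `c` are the vertices of a triangle. -/
def IsTri (a b c : V) : Prop :=
  ∃ e f g, G.ends e = s(a, b) ∧ G.ends f = s(b, c) ∧ G.ends g = s(c, a)

variable {G} {H1 H2 : Finset E}

theorem IsTriangle.isTri {w v f g : E} {a b c : V} (h : IsTriangle G H1 H2 w v f g a b c) :
    G.IsTri a b c :=
  ⟨w, g, f, h.ew, by rw [h.eg, Sym2.eq_swap], h.ef⟩

/-- two triangles of a Hamilton pair are disjoint -/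
theorem HamPair.triangles_disjoint (h : G.HamPair H1 H2) {w v f g w' v' f' g' : E}
    {a b c a' b' c' : V} (h1 : IsTriangle G H1 H2 w v f g a b c)
    (h2 : IsTriangle G H1 H2 w' v' f' g' a' b' c') (g1 : w ≠ w') (g2 : w' ≠ v) (g3 : v' ≠ w) :
    Disjoint ({a, b, c} : Finset V) {a', b', c'} := by
  have aw : ∀ z, z ∈ ({a, b} : Finset V) → z ∈ G.ends w := by
    intro z hz
    rw [Finset.mem_insert, Finset.mem_singleton] at hz
    rw [h1.ew, Sym2.mem_iff]; exact hz
  have aw' : ∀ z, z ∈ ({a', b'} : Finset V) → z ∈ G.ends w' := by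
    intro z hz
    rw [Finset.mem_insert, Finset.mem_singleton] at hz
    rw [h2.ew, Sym2.mem_iff]; exact hz
  have k1 : ∀ z, z ∈ ({a, b} : Finset V) → z ∈ ({a', b'} : Finset V) → False := fun z hz hz' =>
    g1 (h.not_adj h1.w1 h1.w2 h2.w1 h2.w2 (aw z hz) (aw' z hz'))
  have k2 : ∀ z, z = c → z ∈ ({a', b'} : Finset V) → False := by
    rintro z rfl hz'
    exact g2 (h.not_adj h2.w1 h2.w2 h1.v1 h1.v2 (aw' _ hz') h1.cv)
  have k3 : ∀ z, z = c' → z ∈ ({a, b} : Finset V) → False := by
    rintro z rfl hz'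
    exact g3 (h.not_adj h2.v1 h2.v2 h1.w1 h1.w2 h2.cv (aw _ hz'))
  have k4 : c ≠ c' := by
    intro hc
    have hv : v = v' := h.not_adj h1.v1 h1.v2 h2.v1 h2.v2 h1.cv (by rw [hc]; exact h2.cv)
    have cf : c ∈ G.ends f := by rw [h1.ef]; exact Sym2.mem_mk_left _ _
    have cf' : c ∈ G.ends f' := by rw [hc, h2.ef]; exact Sym2.mem_mk_left _ _
    have hfv : v ≠ f := fun e => h1.f2 (e ▸ h1.v2)
    have h3 : f' = v ∨ f' = f :=
      eq_or_eq_of_deg_two (h.deg1 c).1 h1.v1 h1.f1 h2.f1 h1.cv cf cf' hfv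
    rcases h3 with h3 | h3
    · exact h2.f2 (h3 ▸ h1.v2)
    · have h4 : s(c, a) = s(c, a') := by rw [← h1.ef, ← h3, h2.ef, hc]
      have h5 : a = a' := Sym2.congr_right.1 h4
      exact k1 a (by simp) (by rw [h5]; simp)
  rw [Finset.disjoint_left]
  intro z hz hz'
  rw [Finset.mem_insert, Finset.mem_insert, Finset.mem_singleton] at hz hz'
  have m1 : z ∈ ({a, b} : Finset V) ∨ z = c := by
    rw [Finset.mem_insert, Finset.mem_singleton]; tauto
  have m2 : z ∈ ({a', b'} : Finset V) ∨ z = c' := by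
    rw [Finset.mem_insert, Finset.mem_singleton]; tauto
  rcases m1 with m1 | m1 <;> rcases m2 with m2 | m2
  · exact k1 z m1 m2
  · exact k3 z m2 m1
  · exact k2 z m1 m2
  · exact k4 (m1.symm.trans m2)

/-- a faithful cover of the rest of a circuit gives a faithful cover -/
theorem cover_cons {w : E → ℕ} (hw : ∀ e, 1 ≤ w e) {D : Finset E} (hD : G.IsCircuit D)
    (h : G.HasCover (Finset.univ.filter (fun e => 0 < w e - chi D e)) (fun e => w e - chi D e)) :
    ∃ L, G.IsCover w (D :: L) ∧ ∀ e, L.countP (fun D => decide (e ∈ D)) = w e - chi D e := by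
  obtain ⟨L, h1, h2⟩ := h
  have h3 : ∀ e, L.countP (fun D => decide (e ∈ D)) = w e - chi D e := by
    intro e
    by_cases he : 0 < w e - chi D e
    · exact h2 e (Finset.mem_filter.2 ⟨Finset.mem_univ _, he⟩)
    · have h4 : w e - chi D e = 0 := by omega
      rw [h4, List.countP_eq_zero]
      intro C hC hCe
      rw [decide_eq_true_iff] at hCe
      have := (h1 C hC).2 hCe
      rw [Finset.mem_filter] at this
      exact he this.2
  refine ⟨L, ⟨?_, ?_⟩, h3⟩
  · intro C hC
    rcases List.mem_cons.1 hC with h4 | h4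
    · rw [h4]; exact hD
    · exact (h1 C h4).1
  · intro e
    rw [List.countP_cons, h3 e]
    have h5 := hw e
    unfold chi
    by_cases he : e ∈ D
    · simp only [he, decide_true, if_true]
      omega
    · simp [he]

/-- from a Hamilton weight to the torus system -/
theorem HamPair.hwcut_of_weight (h : G.HamPair H1 H2) (h3 : G.ThreeEdgeConnected)
    (hH : ∀ L, G.IsCover (fun e => chi H1 e + chi H2 e) L → L.length = 2)
    (hrem : ∀ D, G.IsRemovable Finset.univ (fun e => chi H1 e + chi H2 e) D →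
      ¬ G.IsContra (Finset.univ.filter (fun e => 0 < chi H1 e + chi H2 e - chi D e))
        (fun e => chi H1 e + chi H2 e - chi D e))
    {n1 n2 : ℕ} {v1 v2 : ℕ → V} {e1 e2 : ℕ → E}
    (h1 : Enum G H1 n1 v1 e1) (h2 : Enum G H2 n2 v2 e2) :
    Function.Injective (fun s : ↥(H1 ∩ H2) => idx e1 s.1) ∧
    Function.Injective (fun s : ↥(H1 ∩ H2) => idx e2 s.1) ∧
    HWcut (fun s : ↥(H1 ∩ H2) => idx e1 s.1) (fun s : ↥(H1 ∩ H2) => idx e2 s.1)
      (colour v1 e1 v2 e2) Finset.univ := by
  have hw : G.IsEul Finset.univ (fun e => chi H1 e + chi H2 e) := by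
    rw [← h.union]; exact isEul_pair h.c1 h.c2
  have hw1 : ∀ e, 1 ≤ chi H1 e + chi H2 e := by
    intro e
    have := hw.1 e (Finset.mem_univ e)
    simp only at this
    omega
  -- a removable circuit has a complementary circuit
  have comp : ∀ T, G.IsCircuit T → G.Bridgeless (Finset.univ.filter
      (fun e => 0 < chi H1 e + chi H2 e - chi T e)) →
      ∀ e, chi H1 e + chi H2 e - chi T e ≤ 1 := by
    intro T hT hb e
    have hR : G.IsRemovable Finset.univ (fun e => chi H1 e + chi H2 e) T :=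
      ⟨hT, Finset.subset_univ _, isEul_sub hw hT (Finset.subset_univ _), hb⟩
    have hc : G.HasCover (Finset.univ.filter (fun e => 0 < chi H1 e + chi H2 e - chi T e))
        (fun e => chi H1 e + chi H2 e - chi T e) := by
      by_contra hcon
      exact hrem T hR ⟨hb, hcon⟩
    obtain ⟨L, g1, g2⟩ := cover_cons hw1 hT hc
    have g3 := hH _ g1
    rw [List.length_cons] at g3
    rw [← g2 e]
    have g4 : L.countP (fun D => decide (e ∈ D)) ≤ L.length := List.countP_le_length
    omega
  have two : ∀ t, t ∈ H1 → t ∈ H2 → chi H1 t + chi H2 t = 2 := by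
    intro t t1 t2
    unfold chi
    rw [if_pos t1, if_pos t2]
  refine Piece.hwcut h1 h2 ?_ ?_
  · intro x y hx1 hx2 hy1 hy2 hxy dx dy hemp
    obtain ⟨T, hT, hc⟩ := h.piece.trail_same h1 h2 hx1 hx2 hy1 hy2 hxy dx dy hemp
    refine hc.cutp fun hb => ?_
    have g1 := comp T hc.circ hb
    obtain ⟨S, s1, s2, s3⟩ := h.twin_same h1 h2 hx1 hx2 hy1 hy2 hxy dx dy hemp (by
      intro t t1 t2 ht
      have g2 := g1 t
      rw [two t t1 t2] at g2
      have g3 : t ∈ T := by
        by_contra g4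
        unfold chi at g2
        rw [if_neg g4] at g2
        omega
      rcases (hT t).1 g3 with h' | h' | h' | h'
      · rw [h'] at ht; exact not_cyc_self_right ht.1
      · rw [h'] at ht; exact not_cyc_self_left ht.1
      · have c1 := h'.2
        have c2 := ht.1
        unfold Cyc at c1 c2
        omega
      · have c1 := h'.2
        have c2 := ht.2
        unfold Cyc at c1 c2
        omega)
    have := h3 S s1 s2
    omega
  · intro x y hx1 hx2 hy1 hy2 hxy dx dy hemp
    obtain ⟨T, hT, hc⟩ := h.piece.trail_opp h1 h2 hx1 hx2 hy1 hy2 hxy dx dy hemp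
    refine hc.cutp fun hb => ?_
    have g1 := comp T hc.circ hb
    obtain ⟨S, s1, s2, s3⟩ := h.twin_opp h1 h2 hx1 hx2 hy1 hy2 hxy dx dy hemp (by
      intro t t1 t2 ht
      have g2 := g1 t
      rw [two t t1 t2] at g2
      have g3 : t ∈ T := by
        by_contra g4
        unfold chi at g2
        rw [if_neg g4] at g2
        omega
      rcases (hT t).1 g3 with h' | h' | h' | h'
      · rw [h'] at ht; exact not_cyc_self_right ht.1
      · rw [h'] at ht; exact not_cyc_self_left ht.1
      · have c1 := h'.2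
        have c2 := ht.1
        unfold Cyc at c1 c2
        omega
      · have c1 := h'.2
        have c2 := ht.2
        unfold Cyc at c1 c2
        omega)
    have := h3 S s1 s2
    omega

/-- the pair of Hamilton circuits of a Hamilton weight -/
theorem IsHamWeight.exists_pair {w : E → ℕ} (hc : G.Cubic) (h : G.IsHamWeight w) :
    ∃ H1 H2, G.HamPair H1 H2 ∧ w = fun e => chi H1 e + chi H2 e := by
  obtain ⟨h1, ⟨L, hL⟩, h2⟩ := h
  obtain ⟨h3, h4⟩ := h2 L hL
  obtain ⟨H1, H2, rfl⟩ := List.length_eq_two.1 h3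
  have hw : ∀ e, w e = chi H1 e + chi H2 e := by
    intro e
    rw [← hL.2 e]
    unfold chi
    by_cases e1 : e ∈ H1 <;> by_cases e2 : e ∈ H2 <;> simp [e1, e2]
  refine ⟨H1, H2, ⟨hc, hL.1 _ (by simp), hL.1 _ (by simp), ?_⟩, funext hw⟩
  intro e
  by_contra hcon
  push Not at hcon
  have h5 := h1.1 e (Finset.mem_univ e)
  rw [hw e] at h5
  unfold chi at h5
  rw [if_neg hcon.1, if_neg hcon.2] at h5
  omega

/-- **Theorem.** -/
theorem IsHamWeight.triangles {w : E → ℕ} (hc : G.Cubic) (h3 : G.ThreeEdgeConnected)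
    (h : G.IsHamWeight w)
    (hrem : ∀ D, G.IsRemovable Finset.univ w D →
      ¬ G.IsContra (Finset.univ.filter (fun e => 0 < w e - chi D e)) (fun e => w e - chi D e)) :
    (4 ≤ Fintype.card V → ∃ a b c, G.IsTri a b c) ∧
      (6 ≤ Fintype.card V → ∃ a b c a' b' c', G.IsTri a b c ∧ G.IsTri a' b' c' ∧
        Disjoint ({a, b, c} : Finset V) {a', b', c'}) := by
  obtain ⟨H1, H2, hp, rfl⟩ := h.exists_pair hc
  obtain ⟨n1, v1, e1, E1⟩ := hp.c1.exists_enum
  obtain ⟨n2, v2, e2, E2⟩ := hp.c2.exists_enum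
  obtain ⟨ip, iq, hcut⟩ := hp.hwcut_of_weight h3 (fun L hL => (h.2.2 L hL).1) hrem E1 E2
  have h5 := hp.card_coe
  constructor
  · intro h4
    have hT := treeE_of_hwc ip iq hcut.hwc (Finset.card_pos.1 (by omega))
    obtain ⟨w, v, T⟩ := tri_of_treeE ip iq hT (by omega)
    obtain ⟨f, g, a, b, c, hh⟩ := hp.triangle E1 E2 T
    exact ⟨a, b, c, hh.isTri⟩
  · intro h6
    obtain ⟨w, v, w', v', T, T', g1, g2, g3⟩ := two_triangles_of_hwc ip iq hcut.hwc (by omega)
    obtain ⟨f, g, a, b, c, hh⟩ := hp.triangle E1 E2 T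
    obtain ⟨f', g', a', b', c', hh'⟩ := hp.triangle E1 E2 T'
    exact ⟨a, b, c, a', b', c', hh.isTri, hh'.isTri, hp.triangles_disjoint hh hh'
      (fun e => g1 (Subtype.ext e)) (fun e => g2 (Subtype.ext e)) (fun e => g3 (Subtype.ext e))⟩

end MGraph

end Pool.GOD
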