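import Pool.Agent.GOD.StmtG

/-!
Kotzig's theorem for multigraphs: a multigraph with a unique perfect matching has a matching edge
which is a bridge.  Proof by contraction of an odd alternating closed walk.
-/

set_option autoImplicit false
set_option linter.unusedSectionVars false

namespace Pool.GOD

namespace MGraph

namespace KotzigX

variable {V E : Type*} [Fintype V] [DecidableEq V] [DecidableEq E]

/-- perfect matchings of the edge set `X` -/
def PM (ends : E → Sym2 V) (X N : Finset E) : Prop :=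
  N ⊆ X ∧ ∀ e ∈ X, ∀ v ∈ ends e, ∃! f, f ∈ N ∧ v ∈ ends f

/-- the pair has exactly one member in `S` -/
def Cross (s : Sym2 V) (S : Set V) : Prop := (∃ a ∈ s, a ∈ S) ∧ ∃ b ∈ s, b ∉ S

lemma rep (s : Sym2 V) : ∃ a b, s = s(a, b) := by
  induction s with | h a b => ?_
  exact ⟨a, b, rfl⟩

/-- the statement for one edge set -/
def Concl (ends : E → Sym2 V) (X M : Finset E) : Prop :=
  ∃ e ∈ M, ∃ S : Set V, ∀ f ∈ X, (Cross (ends f) S ↔ f = e)

/-- the hypotheses for one edge set -/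
structure Hyp (ends : E → Sym2 V) (X M : Finset E) : Prop where
  nl : ∀ e ∈ X, ¬ (ends e).IsDiag
  ne : X.Nonempty
  pm : PM ends X M
  uni : ∀ N, PM ends X N → N = M

open Classical in
/-- contraction of a factor-critical set -/
lemma contract {ends : E → Sym2 V} {X M : Finset E} (h : Hyp ends X M)
    (IH : ∀ (ends' : E → Sym2 V) (X' M' : Finset E), X'.card < X.card → Hyp ends' X' M' →
      Concl ends' X' M')
    (C : Set V) (z : V) (hzC : z ∈ C)
    (hz : ∃ f ∈ M, z ∈ ends f ∧ ∃ b ∈ ends f, b ∉ C)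
    (hb : ∀ c ∈ C, c ≠ z → ∀ f ∈ M, c ∈ ends f → ∀ b ∈ ends f, b ∈ C)
    (hc : ∀ c ∈ C, ∃ N : Finset E, N ⊆ X ∧ (∀ f ∈ N, ∀ b ∈ ends f, b ∈ C) ∧
      (∀ v ∈ C, v ≠ c → ∃! f, f ∈ N ∧ v ∈ ends f) ∧ ∀ f ∈ N, c ∉ ends f)
    (hd : ∃ f ∈ X, ∀ b ∈ ends f, b ∈ C) : Concl ends X M := by
  obtain ⟨f0, hf0M, hf0z, b0, hb0, hb0C⟩ := hz
  set π : V → V := fun v => if v ∈ C then z else v with hπ
  have πin : ∀ v ∈ C, π v = z := fun v hv => by simp only [hπ, if_pos hv]
  have πout : ∀ v, v ∉ C → π v = v := fun v hv => by simp only [hπ, if_neg hv]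
  have πz : ∀ v, π v = z → v ∈ C := by
    intro v hv
    by_contra hcon
    rw [πout v hcon] at hv
    exact hcon (hv ▸ hzC)
  have πv : ∀ a v, v ∉ C → π a = v → a = v := by
    intro a v hv hav
    by_cases ha : a ∈ C
    · rw [πin a ha] at hav
      exact absurd (hav ▸ hzC) hv
    · rw [πout a ha] at hav
      exact hav
  set X' : Finset E := X.filter (fun e => ∃ b ∈ ends e, b ∉ C) with hX'
  set M' : Finset E := M.filter (fun e => ∃ b ∈ ends e, b ∉ C) with hM'
  have memX' : ∀ e, e ∈ X' ↔ e ∈ X ∧ ∃ b ∈ ends e, b ∉ C := fun e => by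
    rw [hX', Finset.mem_filter]
  have memM' : ∀ e, e ∈ M' ↔ e ∈ M ∧ ∃ b ∈ ends e, b ∉ C := fun e => by
    rw [hM', Finset.mem_filter]
  set ends' : E → Sym2 V := fun e => (ends e).map π with hends'
  have mem' : ∀ e v, v ∈ ends' e ↔ ∃ a ∈ ends e, π a = v := fun e v => by
    rw [hends', Sym2.mem_map]
  have hf0X : f0 ∈ X := h.pm.1 hf0M
  have hf0X' : f0 ∈ X' := (memX' f0).mpr ⟨hf0X, b0, hb0, hb0C⟩
  have hf0M' : f0 ∈ M' := (memM' f0).mpr ⟨hf0M, b0, hb0, hb0C⟩
  have hf0z' : z ∈ ends' f0 := (mem' f0 z).mpr ⟨z, hf0z, πin z hzC⟩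
  -- vertices outside
  have outmem : ∀ e v, v ∉ C → (v ∈ ends' e ↔ v ∈ ends e) := by
    intro e v hv
    rw [mem']
    constructor
    · rintro ⟨a, ha, hav⟩
      rwa [← πv a v hv hav]
    · intro hve
      exact ⟨v, hve, πout v hv⟩
  have hcard : X'.card < X.card := by
    obtain ⟨f, hf, hfC⟩ := hd
    refine Finset.card_lt_card ⟨Finset.filter_subset _ _, fun hcon => ?_⟩
    obtain ⟨-, b, hb1, hb2⟩ := (memX' f).mp (hcon hf)
    exact hb2 (hfC b hb1)
  have hyp' : Hyp ends' X' M' := by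
    refine ⟨?_, ⟨f0, hf0X'⟩, ⟨?_, ?_⟩, ?_⟩
    · intro e he hdiag
      obtain ⟨heX, b, hb1, hb2⟩ := (memX' e).mp he
      obtain ⟨x, y, hxy⟩ := rep (ends e)
      have hne : x ≠ y := by
        intro hxy'
        apply h.nl e heX
        rw [hxy, hxy']
        exact Sym2.mk_isDiag_iff.mpr rfl
      have hd' : π x = π y := by
        have h1 : (s(π x, π y)).IsDiag := by
          have h2 : ends' e = s(π x, π y) := by
            simp only [hends', hxy, Sym2.map_mk]
          rwa [h2] at hdiag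
        exact Sym2.mk_isDiag_iff.mp h1
      rw [hxy, Sym2.mem_iff] at hb1
      rcases hb1 with rfl | rfl
      · rw [πout b hb2] at hd'
        exact hne (πv y b hb2 hd'.symm).symm
      · rw [πout b hb2] at hd'
        exact hne (πv x b hb2 hd')
    · intro e he
      obtain ⟨h1, h2⟩ := (memM' e).mp he
      exact (memX' e).mpr ⟨h.pm.1 h1, h2⟩
    · intro e he v hv
      obtain ⟨heX, -⟩ := (memX' e).mp he
      by_cases hvC : v ∈ C
      · have hvz : v = z := by
          obtain ⟨a, ha, hav⟩ := (mem' e v).mp hv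
          by_cases haC : a ∈ C
          · rw [← hav, πin a haC]
          · rw [πout a haC] at hav
            exact absurd (hav ▸ hvC) haC
        subst hvz
        refine ⟨f0, ⟨hf0M', hf0z'⟩, ?_⟩
        rintro g ⟨hg, hgz⟩
        obtain ⟨hgM, b, hb1, hb2⟩ := (memM' g).mp hg
        obtain ⟨a, ha, haz⟩ := (mem' g v).mp hgz
        have haC := πz a haz
        by_cases hav : a = v
        · subst hav
          obtain ⟨u, -, hu⟩ := h.pm.2 f0 hf0X a hf0z
          rw [hu g ⟨hgM, ha⟩, hu f0 ⟨hf0M, hf0z⟩]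
        · exact absurd (hb a haC hav g hgM ha b hb1) hb2
      · have hve : v ∈ ends e := (outmem e v hvC).mp hv
        obtain ⟨f, ⟨hfM, hfv⟩, hu⟩ := h.pm.2 e heX v hve
        refine ⟨f, ⟨(memM' f).mpr ⟨hfM, v, hfv, hvC⟩, (outmem f v hvC).mpr hfv⟩, ?_⟩
        rintro g ⟨hg, hgv⟩
        exact hu g ⟨((memM' g).mp hg).1, (outmem g v hvC).mp hgv⟩
    · intro N' hN'
      obtain ⟨f, ⟨hfN, hfz⟩, hfu⟩ := hN'.2 f0 hf0X' z hf0z'
      obtain ⟨c, hcf, hcz⟩ := (mem' f z).mp hfz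
      have hcC : c ∈ C := πz c hcz
      obtain ⟨Nc, hNX, hNC, hNu, hNc⟩ := hc c hcC
      have hfX' : f ∈ X' := hN'.1 hfN
      have hinz : ∀ g v, v ∈ C → v ∈ ends g → z ∈ ends' g := fun g v hv hg =>
        (mem' g z).mpr ⟨v, hg, πin v hv⟩
      have hPM : PM ends X (N' ∪ Nc) := by
        refine ⟨Finset.union_subset (hN'.1.trans (Finset.filter_subset _ _)) hNX, ?_⟩
        intro e he v hv
        by_cases hvC : v ∈ C
        · by_cases hvc : v = c
          · subst hvc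
            refine ⟨f, ⟨Finset.mem_union_left _ hfN, hcf⟩, ?_⟩
            rintro g ⟨hg, hgv⟩
            rcases Finset.mem_union.mp hg with hg | hg
            · exact hfu g ⟨hg, hinz g v hvC hgv⟩
            · exact absurd hgv (hNc g hg)
          · obtain ⟨g, ⟨hgN, hgv⟩, hgu⟩ := hNu v hvC hvc
            refine ⟨g, ⟨Finset.mem_union_right _ hgN, hgv⟩, ?_⟩
            rintro g' ⟨hg', hgv'⟩
            rcases Finset.mem_union.mp hg' with hg' | hg'
            · exfalso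
              have h1 : g' = f := hfu g' ⟨hg', hinz g' v hvC hgv'⟩
              subst h1
              obtain ⟨-, b, hb1, hb2⟩ := (memX' g').mp hfX'
              have h2 : ends g' = s(v, c) := (Sym2.mem_and_mem_iff hvc).mp ⟨hgv', hcf⟩
              rw [h2, Sym2.mem_iff] at hb1
              rcases hb1 with rfl | rfl
              · exact hb2 hvC
              · exact hb2 hcC
            · exact hgu g' ⟨hg', hgv'⟩
        · have heX' : e ∈ X' := (memX' e).mpr ⟨he, v, hv, hvC⟩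
          obtain ⟨g, ⟨hgN, hgv⟩, hgu⟩ := hN'.2 e heX' v ((outmem e v hvC).mpr hv)
          refine ⟨g, ⟨Finset.mem_union_left _ hgN, (outmem g v hvC).mp hgv⟩, ?_⟩
          rintro g' ⟨hg', hgv'⟩
          rcases Finset.mem_union.mp hg' with hg' | hg'
          · exact hgu g' ⟨hg', (outmem g' v hvC).mpr hgv'⟩
          · exact absurd (hNC g' hg' v hgv') hvC
      have hEq := h.uni _ hPM
      ext g
      rw [memM']
      constructor
      · intro hg
        have h1 : g ∈ N' ∪ Nc := Finset.mem_union_left _ hg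
        rw [hEq] at h1
        exact ⟨h1, ((memX' g).mp (hN'.1 hg)).2⟩
      · rintro ⟨h1, b, hb1, hb2⟩
        rw [← hEq] at h1
        rcases Finset.mem_union.mp h1 with h1 | h1
        · exact h1
        · exact absurd (hNC g h1 b hb1) hb2
  obtain ⟨e, he, S, hS⟩ := IH ends' X' M' hcard hyp'
  obtain ⟨heM, he2⟩ := (memM' e).mp he
  refine ⟨e, heM, π ⁻¹' S, fun f hf => ?_⟩
  have hcr : Cross (ends f) (π ⁻¹' S) ↔ Cross (ends' f) S := by
    constructor
    · rintro ⟨⟨a, ha, haS⟩, b, hb1, hbS⟩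
      exact ⟨⟨π a, (mem' f _).mpr ⟨a, ha, rfl⟩, haS⟩, π b, (mem' f _).mpr ⟨b, hb1, rfl⟩, hbS⟩
    · rintro ⟨⟨a, ha, haS⟩, b, hb1, hbS⟩
      obtain ⟨a', ha', rfl⟩ := (mem' f _).mp ha
      obtain ⟨b', hb', rfl⟩ := (mem' f _).mp hb1
      exact ⟨⟨a', ha', haS⟩, b', hb', hbS⟩
  rw [hcr]
  by_cases hfX : f ∈ X'
  · exact hS f hfX
  · have hall : ∀ b ∈ ends f, b ∈ C := by
      intro b hb1
      by_contra hcon
      exact hfX ((memX' f).mpr ⟨hf, b, hb1, hcon⟩)
    constructor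
    · rintro ⟨⟨a, ha, haS⟩, b, hb1, hbS⟩
      obtain ⟨a', ha', rfl⟩ := (mem' f _).mp ha
      obtain ⟨b', hb', rfl⟩ := (mem' f _).mp hb1
      rw [πin a' (hall a' ha')] at haS
      rw [πin b' (hall b' hb')] at hbS
      exact absurd haS hbS
    · rintro rfl
      exact absurd ((memX' f).mpr ⟨hf, he2⟩) hfX

/-- an alternating walk -/
lemma walk {ends : E → Sym2 V} {X M : Finset E} (h : Hyp ends X M)
    (hn : ∀ e ∈ X, ∀ v ∈ ends e, ∃ f ∈ X, f ∉ M ∧ v ∈ ends f) :
    ∃ (w : ℕ → V) (e : ℕ → E), (∀ k, ends (e k) = s(w k, w (k + 1))) ∧ (∀ k, e k ∈ X) ∧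
      ∀ k, (e k ∈ M ↔ k % 2 = 0) := by
  obtain ⟨e0, he0⟩ := h.ne
  obtain ⟨v0, v1, hv01⟩ := rep (ends e0)
  have hv0 : v0 ∈ ends e0 := by rw [hv01]; exact Sym2.mem_mk_left v0 v1
  have other : ∀ (f : E) (v : V), v ∈ ends f → ∃ u, ends f = s(v, u) := by
    intro f v hv
    obtain ⟨a, b, hab⟩ := rep (ends f)
    rw [hab, Sym2.mem_iff] at hv
    rcases hv with rfl | rfl
    · exact ⟨b, hab⟩
    · exact ⟨a, by rw [hab, Sym2.eq_swap]⟩
  have step : ∀ (k : ℕ) (v : V), (∃ e ∈ X, v ∈ ends e) →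
      ∃ (e : E) (u : V), ends e = s(v, u) ∧ e ∈ X ∧ (e ∈ M ↔ k % 2 = 0) := by
    rintro k v ⟨e, he, hv⟩
    by_cases hk : k % 2 = 0
    · obtain ⟨f, ⟨hfM, hfv⟩, -⟩ := h.pm.2 e he v hv
      obtain ⟨u, hu⟩ := other f v hfv
      exact ⟨f, u, hu, h.pm.1 hfM, ⟨fun _ => hk, fun _ => hfM⟩⟩
    · obtain ⟨f, hfX, hfM, hfv⟩ := hn e he v hv
      obtain ⟨u, hu⟩ := other f v hfv
      exact ⟨f, u, hu, hfX, ⟨fun h' => absurd h' hfM, fun h' => absurd h' hk⟩⟩
  have : Nonempty E := ⟨e0⟩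
  have : Nonempty V := ⟨v0⟩
  choose! ed nx hstep using step
  let w : ℕ → V := fun k => Nat.rec v0 (fun k v => nx k v) k
  have hw1 : ∀ k, w (k + 1) = nx k (w k) := fun k => rfl
  have hwX : ∀ k, ∃ e ∈ X, w k ∈ ends e := by
    intro k
    induction k with
    | zero => exact ⟨e0, he0, hv0⟩
    | succ k ih =>
      obtain ⟨h1, h2, -⟩ := hstep k (w k) ih
      refine ⟨ed k (w k), h2, ?_⟩
      rw [h1, hw1]
      exact Sym2.mem_mk_right _ _
  refine ⟨w, fun k => ed k (w k), fun k => ?_, fun k => ?_, fun k => ?_⟩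
  · rw [(hstep k (w k) (hwX k)).1, hw1]
  · exact (hstep k (w k) (hwX k)).2.1
  · exact (hstep k (w k) (hwX k)).2.2

open Classical in
/-- Kotzig's theorem for one edge set, from smaller ones -/
lemma main_step {ends : E → Sym2 V} {X M : Finset E} (h : Hyp ends X M)
    (IH : ∀ (ends' : E → Sym2 V) (X' M' : Finset E), X'.card < X.card → Hyp ends' X' M' →
      Concl ends' X' M') : Concl ends X M := by
  by_cases hn : ∀ e ∈ X, ∀ v ∈ ends e, ∃ f ∈ X, f ∉ M ∧ v ∈ ends f
  swap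
  · push Not at hn
    obtain ⟨e, he, v, hv, hall⟩ := hn
    obtain ⟨f0, ⟨hf0M, hf0v⟩, hu⟩ := h.pm.2 e he v hv
    refine ⟨f0, hf0M, {v}, fun f hf => ?_⟩
    constructor
    · rintro ⟨⟨a, ha, haS⟩, -⟩
      rw [Set.mem_singleton_iff] at haS
      subst haS
      by_contra hne
      have h1 : f ∈ M := by
        by_contra h1
        exact hall f hf h1 ha
      exact hne (hu f ⟨h1, ha⟩)
    · rintro rfl
      obtain ⟨a, b, hab⟩ := rep (ends f)
      have hne : a ≠ b := by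
        intro hab'
        apply h.nl f hf
        rw [hab, hab']
        exact Sym2.mk_isDiag_iff.mpr rfl
      refine ⟨⟨v, hf0v, rfl⟩, ?_⟩
      rw [hab, Sym2.mem_iff] at hf0v
      rcases hf0v with rfl | rfl
      · exact ⟨b, by rw [hab]; exact Sym2.mem_mk_right _ _, fun hcon => hne hcon.symm⟩
      · exact ⟨a, by rw [hab]; exact Sym2.mem_mk_left _ _, fun hcon => hne hcon⟩
  obtain ⟨w, e, hends, heX, heM⟩ := walk h hn
  have hex : ∃ q, ∃ p, p < q ∧ w p = w q := by
    obtain ⟨x, y, hxy, hw⟩ := Finite.exists_ne_map_eq_of_infinite w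
    rcases lt_or_gt_of_ne hxy with hlt | hlt
    · exact ⟨y, x, hlt, hw⟩
    · exact ⟨x, y, hlt, hw.symm⟩
  obtain ⟨j, hjq, hwj⟩ := Nat.find_spec hex
  set q := Nat.find hex with hq
  have hmin : ∀ a b, a < b → b < q → w a ≠ w b := by
    intro a b hab hbq hw
    exact Nat.find_min hex hbq ⟨a, hab, hw⟩
  have inj : ∀ a b, a < q → b < q → w a = w b → a = b := by
    intro a b ha hb hw
    rcases lt_trichotomy a b with hlt | heq | hlt
    · exact absurd hw (hmin a b hlt hb)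
    · exact heq
    · exact absurd hw.symm (hmin b a hlt ha)
  have memends : ∀ k v, v ∈ ends (e k) ↔ v = w k ∨ v = w (k + 1) := by
    intro k v
    rw [hends, Sym2.mem_iff]
  have inc : ∀ k s, k < q → s < q → w s ∈ ends (e k) → s = k ∨ s = k + 1 ∨ (k + 1 = q ∧ s = j) := by
    intro k s hk hs hm
    rcases (memends k _).mp hm with h1 | h1
    · exact Or.inl (inj s k hs hk h1)
    · rcases Nat.lt_or_ge (k + 1) q with hlt | hge
      · exact Or.inr (Or.inl (inj s (k + 1) hs hlt h1))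
      · have hkq : k + 1 = q := by omega
        rw [hkq, ← hwj] at h1
        exact Or.inr (Or.inr ⟨hkq, inj s j hs hjq h1⟩)
  have hloop : ∀ k, w k ≠ w (k + 1) := by
    intro k hk
    apply h.nl (e k) (heX k)
    rw [hends, hk]
    exact Sym2.mk_isDiag_iff.mpr rfl
  have mu : ∀ s, ∀ f ∈ M, w s ∈ ends f → f = e (s - s % 2) := by
    intro s f hf hm
    obtain ⟨g, -, hu⟩ := h.pm.2 f (h.pm.1 hf) (w s) hm
    have h1 : e (s - s % 2) ∈ M := (heM _).mpr (by omega)
    have h2 : w s ∈ ends (e (s - s % 2)) := by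
      rw [memends]
      rcases Nat.mod_two_eq_zero_or_one s with h3 | h3
      · left; congr 1; omega
      · right; congr 1; omega
    rw [hu f ⟨hf, hm⟩, hu _ ⟨h1, h2⟩]
  have qev : q % 2 = 0 := by
    by_contra hcon
    have h1 : e (q - 1) ∈ M := (heM _).mpr (by omega)
    have h2 : w j ∈ ends (e (q - 1)) := by
      rw [memends, hwj]
      right; congr 1; omega
    have h3 := mu j _ h1 h2
    have hjne : j ≠ q - 1 := by
      intro hjq'
      apply hloop (q - 1)
      rw [← hjq', hwj]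
      congr 1; omega
    rcases Nat.mod_two_eq_zero_or_one j with h4 | h4
    · have h5 : w (j + 1) ∈ ends (e (q - 1)) := by
        rw [h3, h4, Nat.sub_zero, memends]
        exact Or.inr rfl
      rcases inc (q - 1) (j + 1) (by omega) (by omega) h5 with h6 | h6 | h6
      · omega
      · omega
      · omega
    · have h5 : w (j - 1) ∈ ends (e (q - 1)) := by
        rw [h3, h4, memends]
        exact Or.inl rfl
      rcases inc (q - 1) (j - 1) (by omega) (by omega) h5 with h6 | h6 | h6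
      · omega
      · omega
      · omega
  rcases Nat.mod_two_eq_zero_or_one j with hj | hj
  · -- an alternating circuit gives a second matching
    exfalso
    set N : Finset E := X.filter (fun f => (f ∈ M ∧ ∀ k, j ≤ k → k < q → k % 2 = 0 → f ≠ e k) ∨
      ∃ k, j ≤ k ∧ k < q ∧ k % 2 = 1 ∧ f = e k) with hN
    have memN : ∀ f, f ∈ N ↔ f ∈ X ∧ ((f ∈ M ∧ ∀ k, j ≤ k → k < q → k % 2 = 0 → f ≠ e k) ∨
      ∃ k, j ≤ k ∧ k < q ∧ k % 2 = 1 ∧ f = e k) := fun f => by rw [hN, Finset.mem_filter]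
    have hPM : PM ends X N := by
      refine ⟨Finset.filter_subset _ _, ?_⟩
      intro e' he' v hv
      by_cases hvs : ∃ s, j ≤ s ∧ s < q ∧ v = w s
      · obtain ⟨s, hjs, hsq, rfl⟩ := hvs
        have huniq : ∀ g, g ∈ N ∧ w s ∈ ends g → ∃ k, j ≤ k ∧ k < q ∧ k % 2 = 1 ∧ g = e k ∧
            (s = k ∨ s = k + 1 ∨ (k + 1 = q ∧ s = j)) := by
          rintro g ⟨hg, hgs⟩
          obtain ⟨-, ⟨hgM, hg2⟩ | ⟨k, h1, h2, h3, h4⟩⟩ := (memN g).mp hg
          · exact absurd (mu s g hgM hgs) (hg2 (s - s % 2) (by omega) (by omega) (by omega))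
          · refine ⟨k, h1, h2, h3, h4, ?_⟩
            rw [h4] at hgs
            exact inc k s h2 hsq hgs
        have hexk : ∃ k, j ≤ k ∧ k < q ∧ k % 2 = 1 ∧ w s ∈ ends (e k) ∧
            ∀ k', j ≤ k' → k' < q → k' % 2 = 1 → (s = k' ∨ s = k' + 1 ∨ (k' + 1 = q ∧ s = j)) →
              k' = k := by
          rcases Nat.mod_two_eq_zero_or_one s with h1 | h1
          · by_cases hsj : s = j
            · refine ⟨q - 1, by omega, by omega, by omega, ?_, by omega⟩
              rw [memends, hsj, hwj]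
              right; congr 1; omega
            · refine ⟨s - 1, by omega, by omega, by omega, ?_, by omega⟩
              rw [memends]
              right; congr 1; omega
          · refine ⟨s, by omega, by omega, by omega, ?_, by omega⟩
            rw [memends]
            exact Or.inl rfl
        obtain ⟨k, hk1, hk2, hk3, hk4, hk5⟩ := hexk
        refine ⟨e k, ⟨(memN _).mpr ⟨heX k, Or.inr ⟨k, hk1, hk2, hk3, rfl⟩⟩, hk4⟩, ?_⟩
        intro g hg
        obtain ⟨k', h1, h2, h3, h4, h5⟩ := huniq g hg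
        rw [h4, hk5 k' h1 h2 h3 h5]
      · have hnot : ∀ k, j ≤ k → k < q → v ∉ ends (e k) := by
          intro k h1 h2 h3
          rcases (memends k v).mp h3 with h4 | h4
          · exact hvs ⟨k, h1, h2, h4⟩
          · rcases Nat.lt_or_ge (k + 1) q with hlt | hge
            · exact hvs ⟨k + 1, by omega, hlt, h4⟩
            · have hkq : k + 1 = q := by omega
              rw [hkq, ← hwj] at h4
              exact hvs ⟨j, le_rfl, hjq, h4⟩
        obtain ⟨f, ⟨hfM, hfv⟩, hu⟩ := h.pm.2 e' he' v hv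
        refine ⟨f, ⟨(memN f).mpr ⟨h.pm.1 hfM, Or.inl ⟨hfM, ?_⟩⟩, hfv⟩, ?_⟩
        · rintro k h1 h2 - rfl
          exact hnot k h1 h2 hfv
        · rintro g ⟨hg, hgv⟩
          obtain ⟨-, ⟨hgM, -⟩ | ⟨k, h1, h2, -, h4⟩⟩ := (memN g).mp hg
          · exact hu g ⟨hgM, hgv⟩
          · rw [h4] at hgv
            exact absurd hgv (hnot k h1 h2)
    have hEq := h.uni N hPM
    have h1 : e (q - 1) ∈ N :=
      (memN _).mpr ⟨heX _, Or.inr ⟨q - 1, by omega, by omega, by omega, rfl⟩⟩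
    rw [hEq, heM] at h1
    omega
  · -- an odd closed walk is contracted
    refine contract h IH {v | ∃ s, j ≤ s ∧ s < q ∧ v = w s} (w j) ⟨j, le_rfl, hjq, rfl⟩ ?_ ?_ ?_ ?_
    · refine ⟨e (j - 1), (heM _).mpr (by omega), ?_, w (j - 1), ?_, ?_⟩
      · rw [memends]
        right; congr 1; omega
      · rw [memends]
        exact Or.inl rfl
      · rintro ⟨s, h1, h2, h3⟩
        have := inj (j - 1) s (by omega) h2 h3
        omega
    · rintro c ⟨s, h1, h2, rfl⟩ hne f hf hcf b hb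
      have hsj : s ≠ j := by
        rintro rfl
        exact hne rfl
      rw [mu s f hf hcf, memends] at hb
      rcases hb with rfl | rfl
      · exact ⟨s - s % 2, by omega, by omega, rfl⟩
      · exact ⟨s - s % 2 + 1, by omega, by omega, rfl⟩
    · rintro c ⟨t, h1, h2, rfl⟩
      have memN : ∀ f, f ∈ X.filter (fun f => ∃ k, j ≤ k ∧ k < q ∧
          ((t < k ∧ k % 2 ≠ t % 2) ∨ (k < t ∧ k % 2 = t % 2)) ∧ f = e k) ↔ f ∈ X ∧ ∃ k, j ≤ k ∧
          k < q ∧ ((t < k ∧ k % 2 ≠ t % 2) ∨ (k < t ∧ k % 2 = t % 2)) ∧ f = e k := fun f => by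
        rw [Finset.mem_filter]
      refine ⟨X.filter (fun f => ∃ k, j ≤ k ∧ k < q ∧
          ((t < k ∧ k % 2 ≠ t % 2) ∨ (k < t ∧ k % 2 = t % 2)) ∧ f = e k),
          Finset.filter_subset _ _, ?_, ?_, ?_⟩
      · rintro f hf b hb
        obtain ⟨-, k, hk1, hk2, -, rfl⟩ := (memN f).mp hf
        rcases (memends k b).mp hb with rfl | rfl
        · exact ⟨k, hk1, hk2, rfl⟩
        · rcases Nat.lt_or_ge (k + 1) q with hlt | hge
          · exact ⟨k + 1, by omega, hlt, rfl⟩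
          · have hkq : k + 1 = q := by omega
            exact ⟨j, le_rfl, hjq, by rw [hkq, hwj]⟩
      · rintro v ⟨s, hjs, hsq, rfl⟩ hne
        have hst : s ≠ t := by
          rintro rfl
          exact hne rfl
        have hexk : ∃ k, j ≤ k ∧ k < q ∧
            ((t < k ∧ k % 2 ≠ t % 2) ∨ (k < t ∧ k % 2 = t % 2)) ∧ w s ∈ ends (e k) ∧
            ∀ k', j ≤ k' → k' < q → ((t < k' ∧ k' % 2 ≠ t % 2) ∨ (k' < t ∧ k' % 2 = t % 2)) →
              (s = k' ∨ s = k' + 1 ∨ (k' + 1 = q ∧ s = j)) → k' = k := by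
          by_cases hcase : (t < s ∧ s % 2 ≠ t % 2) ∨ (s < t ∧ s % 2 = t % 2)
          · refine ⟨s, hjs, hsq, hcase, ?_, by omega⟩
            rw [memends]
            exact Or.inl rfl
          · by_cases hsj : s = j
            · refine ⟨q - 1, by omega, by omega, by omega, ?_, by omega⟩
              rw [memends, hsj, hwj]
              right; congr 1; omega
            · refine ⟨s - 1, by omega, by omega, by omega, ?_, by omega⟩
              rw [memends]
              right; congr 1; omega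
        obtain ⟨k, hk1, hk2, hk3, hk4, hk5⟩ := hexk
        refine ⟨e k, ⟨(memN _).mpr ⟨heX k, k, hk1, hk2, hk3, rfl⟩, hk4⟩, ?_⟩
        rintro g ⟨hg, hgs⟩
        obtain ⟨-, k', h3, h4, h5, rfl⟩ := (memN g).mp hg
        rw [hk5 k' h3 h4 h5 (inc k' s h4 hsq hgs)]
      · rintro f hf hcf
        obtain ⟨-, k, hk1, hk2, hk3, rfl⟩ := (memN f).mp hf
        have := inc k t hk2 h2 hcf
        omega
    · refine ⟨e j, heX j, ?_⟩
      intro b hb
      rcases (memends j b).mp hb with rfl | rfl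
      · exact ⟨j, le_rfl, hjq, rfl⟩
      · rcases Nat.lt_or_ge (j + 1) q with hlt | hge
        · exact ⟨j + 1, by omega, hlt, rfl⟩
        · have hkq : j + 1 = q := by omega
          exact ⟨j, le_rfl, hjq, by rw [hkq, hwj]⟩

/-- Kotzig's theorem, uniqueness form -/
lemma main_all (n : ℕ) : ∀ (ends : E → Sym2 V) (X M : Finset E), X.card = n → Hyp ends X M →
    Concl ends X M := by
  induction n using Nat.strong_induction_on with
  | _ n ih =>
    intro ends X M hX h
    refine main_step h fun ends' X' M' hlt h' => ih X'.card (by omega) ends' X' M' rfl h'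

section circuit

variable [Fintype E] (G : MGraph V E)

lemma deg_eq_one {N : Finset E} {v : V} {f : E} (hf : f ∈ N) (hv : v ∈ G.ends f)
    (hu : ∀ g ∈ N, v ∈ G.ends g → g = f) : G.deg N v = 1 := by
  unfold deg
  rw [Finset.card_eq_one]
  refine ⟨f, ?_⟩
  ext g
  rw [Finset.mem_filter, Finset.mem_singleton]
  constructor
  · rintro ⟨h1, h2⟩
    exact hu g h1 h2
  · rintro rfl
    exact ⟨hf, hv⟩

lemma exu_of_deg {N : Finset E} {v : V} (h : G.deg N v = 1) : ∃! f, f ∈ N ∧ v ∈ G.ends f := by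
  unfold deg at h
  obtain ⟨f, hf⟩ := Finset.card_eq_one.mp h
  have h1 : ∀ g, (g ∈ N ∧ v ∈ G.ends g) ↔ g = f := by
    intro g
    rw [← Finset.mem_filter (p := fun e => v ∈ G.ends e), hf, Finset.mem_singleton]
  exact ⟨f, (h1 f).mpr rfl, fun g hg => (h1 g).mp hg⟩

open Classical in
/-- without alternating circuits the perfect matching is unique -/
lemma unique_of {X M : Finset E} (hpm : PM G.ends X M)
    (hno : ∀ D, D ⊆ X → G.IsCircuit D → ∃ v, G.deg D v = 2 ∧ G.deg (D ∩ M) v ≠ 1)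
    (N : Finset E) (hN : PM G.ends X N) : N = M := by
  by_contra hne
  set D1 : Finset E := X.filter (fun f => (f ∈ M ∧ f ∉ N) ∨ (f ∈ N ∧ f ∉ M)) with hD1
  have mem1 : ∀ f, f ∈ D1 ↔ f ∈ X ∧ ((f ∈ M ∧ f ∉ N) ∨ (f ∈ N ∧ f ∉ M)) := fun f => by
    rw [hD1, Finset.mem_filter]
  have hex : ∃ f0, f0 ∈ D1 := by
    by_contra hcon
    push Not at hcon
    apply hne
    ext f
    constructor
    · intro hf
      by_contra hfM
      exact hcon f ((mem1 f).mpr ⟨hN.1 hf, Or.inr ⟨hf, hfM⟩⟩)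
    · intro hf
      by_contra hfN
      exact hcon f ((mem1 f).mpr ⟨hpm.1 hf, Or.inl ⟨hf, hfN⟩⟩)
  obtain ⟨f0, hf0⟩ := hex
  obtain ⟨a, a', -, haa⟩ := G.exists_ends f0
  have ha0 : a ∈ G.ends f0 := by rw [haa]; exact Sym2.mem_mk_left _ _
  set D : Finset E := D1.filter (fun f => ∀ b ∈ G.ends f, G.ConnIn D1 a b) with hD
  have memD : ∀ f, f ∈ D ↔ f ∈ D1 ∧ ∀ b ∈ G.ends f, G.ConnIn D1 a b := fun f => by
    rw [hD, Finset.mem_filter]
  have ends_conn : ∀ f ∈ D1, ∀ b ∈ G.ends f, G.ConnIn D1 a b → f ∈ D := by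
    intro f hf b hb hab
    refine (memD f).mpr ⟨hf, fun c hc => ?_⟩
    obtain ⟨x, y, -, hxy⟩ := G.exists_ends f
    rw [hxy, Sym2.mem_iff] at hb hc
    have h1 : G.ConnIn D1 x y := ConnIn.single hf hxy
    rcases hb with rfl | rfl <;> rcases hc with rfl | rfl
    · exact hab
    · exact hab.trans h1
    · exact hab.trans h1.symm
    · exact hab
  have hsub : D ⊆ X := fun f hf => ((mem1 f).mp ((memD f).mp hf).1).1
  have hf0D : f0 ∈ D := ends_conn f0 hf0 a ha0 (ConnIn.refl _ _)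
  -- the two edges at a vertex
  have key : ∀ v f, f ∈ D → v ∈ G.ends f → ∃ g h, g ∈ M ∧ h ∈ N ∧ g ≠ h ∧ v ∈ G.ends g ∧
      v ∈ G.ends h ∧ g ∉ N ∧ h ∉ M ∧ g ∈ D ∧ h ∈ D ∧ ∀ f' ∈ D, v ∈ G.ends f' → f' = g ∨ f' = h := by
    intro v f hf hv
    obtain ⟨hf1, hf2⟩ := (memD f).mp hf
    obtain ⟨hfX, hf3⟩ := (mem1 f).mp hf1
    obtain ⟨g, ⟨hgM, hgv⟩, hgu⟩ := hpm.2 f hfX v hv
    obtain ⟨h, ⟨hhN, hhv⟩, hhu⟩ := hN.2 f hfX v hv
    have hgh : g ≠ h := by
      rintro rfl
      rcases hf3 with ⟨h1, h2⟩ | ⟨h1, h2⟩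
      · exact h2 (hgu f ⟨h1, hv⟩ ▸ hhN)
      · exact h2 (hhu f ⟨h1, hv⟩ ▸ hgM)
    have hgN : g ∉ N := fun h1 => hgh (hhu g ⟨h1, hgv⟩)
    have hhM : h ∉ M := fun h1 => hgh (hgu h ⟨h1, hhv⟩).symm
    have hgD1 : g ∈ D1 := (mem1 g).mpr ⟨hpm.1 hgM, Or.inl ⟨hgM, hgN⟩⟩
    have hhD1 : h ∈ D1 := (mem1 h).mpr ⟨hN.1 hhN, Or.inr ⟨hhN, hhM⟩⟩
    refine ⟨g, h, hgM, hhN, hgh, hgv, hhv, hgN, hhM, ends_conn g hgD1 v hgv (hf2 v hv),
      ends_conn h hhD1 v hhv (hf2 v hv), fun f' hf' hv' => ?_⟩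
    obtain ⟨-, hf4⟩ := (mem1 f').mp ((memD f').mp hf').1
    rcases hf4 with ⟨h1, -⟩ | ⟨h1, -⟩
    · exact Or.inl (hgu f' ⟨h1, hv'⟩)
    · exact Or.inr (hhu f' ⟨h1, hv'⟩)
  have hdeg : ∀ v, G.deg D v = 0 ∨ (G.deg D v = 2 ∧ G.deg (D ∩ M) v = 1 ∧ G.ConnIn D1 a v) := by
    intro v
    by_cases hv : ∃ f ∈ D, v ∈ G.ends f
    · right
      obtain ⟨f, hf, hfv⟩ := hv
      obtain ⟨g, h, hgM, hhN, hgh, hgv, hhv, hgN, hhM, hgD, hhD, hall⟩ := key v f hf hfv
      refine ⟨?_, ?_, ((memD f).mp hf).2 v hfv⟩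
      · unfold deg
        rw [Finset.card_eq_two]
        refine ⟨g, h, hgh, ?_⟩
        ext f'
        rw [Finset.mem_filter, Finset.mem_insert, Finset.mem_singleton]
        constructor
        · rintro ⟨h1, h2⟩
          exact hall f' h1 h2
        · rintro (rfl | rfl)
          · exact ⟨hgD, hgv⟩
          · exact ⟨hhD, hhv⟩
      · refine deg_eq_one G (Finset.mem_inter.mpr ⟨hgD, hgM⟩) hgv ?_
        intro f' hf' hv'
        rw [Finset.mem_inter] at hf'
        rcases hall f' hf'.1 hv' with h1 | h1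
        · exact h1
        · exact absurd hf'.2 (h1 ▸ hhM)
    · left
      push Not at hv
      unfold deg
      rw [Finset.card_eq_zero, Finset.eq_empty_iff_forall_notMem]
      intro f hf
      rw [Finset.mem_filter] at hf
      exact hv f hf.1 hf.2
  have hconn : ∀ b, G.ConnIn D1 a b → G.ConnIn D a b := by
    intro b hb
    induction hb with
    | refl => exact ConnIn.refl _ _
    | @tail c d hac hcd ih =>
      obtain ⟨f, hf, hfe⟩ := hcd
      refine ih.trans (ConnIn.single (ends_conn f hf c ?_ hac) hfe)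
      rw [hfe]
      exact Sym2.mem_mk_left _ _
  have hcirc : G.IsCircuit D := by
    refine ⟨⟨f0, hf0D⟩, fun v => ?_, fun x y hx hy => ?_⟩
    · rcases hdeg v with h1 | h1
      · exact Or.inl h1
      · exact Or.inr h1.1
    · have h1 : G.ConnIn D a x := by
        rcases hdeg x with h1 | h1
        · omega
        · exact hconn x h1.2.2
      have h2 : G.ConnIn D a y := by
        rcases hdeg y with h2 | h2
        · omega
        · exact hconn y h2.2.2
      exact h1.symm.trans h2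
  obtain ⟨v, hv1, hv2⟩ := hno D hsub hcirc
  rcases hdeg v with h1 | h1
  · omega
  · exact hv2 h1.2.1

end circuit

end KotzigX

open Classical in
open KotzigX in
/-- Kotzig's theorem -/
theorem t_Kotzig : Stmt_Kotzig := by
  intro V E _ _ _ _ G X M hMX hX hM hno
  have hpm : PM G.ends X M := by
    refine ⟨hMX, fun e he v hv => exu_of_deg G (hM v ?_)⟩
    have : 0 < G.deg X v := G.deg_pos_iff.mpr ⟨e, he, hv⟩
    omega
  obtain ⟨e, heM, S, hS⟩ := main_all X.card G.ends X M rfl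
    ⟨fun e _ => G.loopless e, hX, hpm, fun N hN => unique_of G hpm hno N hN⟩
  refine ⟨e, heM, G.isBridge_iff.mpr ⟨Finset.univ.filter (fun v => v ∈ S), ?_⟩⟩
  ext f
  rw [Finset.mem_inter, Finset.mem_singleton]
  constructor
  · rintro ⟨hf, hfc⟩
    rw [← hS f hf]
    simp only [cut, Finset.mem_filter, Finset.mem_univ, true_and] at hfc
    exact hfc
  · rintro rfl
    have h1 := (hS f (hMX heM)).mpr rfl
    refine ⟨hMX heM, ?_⟩
    simp only [cut, Finset.mem_filter, Finset.mem_univ, true_and]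
    exact h1

end MGraph

end Pool.GOD
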