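import Mathlib

/-!
Lemma P of helper64 (problem MP_7b7176_co, graph case of the Hamilton weight theorem).

A finite poset `X` with a set of red points.  `nb red x t` is the rooted matrix: `t` is comparable
to `x` and different from `x`, or `t = x` and `x` is red.  Under the one-rooted splitting
conditions every connected component of the comparability graph that contains a red point has a
red point adjacent to all its other points.
-/

namespace Pool.Agent.GOD

/-- strict comparability -/
def Cmp {X : Type*} [PartialOrder X] (x y : X) : Prop := x < y ∨ y < x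

/-- row of the rooted matrix: comparability graph, looped exactly at the red points -/
def Nb {X : Type*} [PartialOrder X] (red : X → Prop) (x t : X) : Prop :=
  Cmp x t ∨ (x = t ∧ red x)

/-- (1) every blue point with a neighbour is dominated by a red neighbour -/
def Dominated {X : Type*} [PartialOrder X] (red : X → Prop) : Prop :=
  ∀ v, ¬ red v → (∃ t, Nb red v t) →
    ∃ z, red z ∧ Nb red v z ∧ ∀ t, Nb red v t → Nb red z t

/-- `v` is a splitter of the adjacent red points `p, q` on the side of `p` -/
def SideSplit {X : Type*} [PartialOrder X] (red : X → Prop) (p q v : X) : Prop :=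
  ¬ red v ∧ Nb red p v ∧ ¬ Nb red q v ∧ (∀ t, Nb red v t → Nb red p t → Nb red q t) ∧
    (∀ t, Nb red q t → Nb red v t ∨ Nb red p t)

/-- (2) adjacent red points with different rows have a splitter -/
def AdjSplit {X : Type*} [PartialOrder X] (red : X → Prop) : Prop :=
  ∀ p q, red p → red q → Cmp p q → (∃ t, ¬ (Nb red p t ↔ Nb red q t)) →
    ∃ v, SideSplit red p q v ∨ SideSplit red q p v

/-- (3) non-adjacent red points with a common neighbour have a splitter -/
def FarSplit {X : Type*} [PartialOrder X] (red : X → Prop) : Prop :=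
  ∀ p q, red p → red q → p ≠ q → ¬ Cmp p q → (∃ t, Nb red p t ∧ Nb red q t) →
    ∃ v, ¬ red v ∧ ¬ Nb red p v ∧ ¬ Nb red q v ∧
      (∀ t, Nb red p t → Nb red q t → Nb red v t) ∧
      (∀ t, Nb red v t → Nb red p t ∨ Nb red q t)

variable {X : Type*} [PartialOrder X] {red : X → Prop}

theorem Cmp.symm {x y : X} (h : Cmp x y) : Cmp y x := by
  rcases h with h | h
  · exact Or.inr h
  · exact Or.inl h

theorem Nb.symm {x y : X} (h : Nb red x y) : Nb red y x := by
  rcases h with h | ⟨h, h'⟩
  · exact Or.inl h.symm
  · subst h; exact Or.inr ⟨rfl, h'⟩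

theorem nb_self {x : X} (h : red x) : Nb red x x := Or.inr ⟨rfl, h⟩

theorem Cmp.nb {x y : X} (h : Cmp x y) : Nb red x y := Or.inl h

/-- `x` is dominated by `y` -/
def Le (red : X → Prop) (x y : X) : Prop := ∀ t, Nb red x t → Nb red y t

/-- a red point with an inclusion-maximal row -/
def IsMax (red : X → Prop) (s : X) : Prop :=
  red s ∧ ∀ s', red s' → Le red s s' → Le red s' s

theorem exists_isMax [Finite X] {x : X} (hx : red x) : ∃ s, IsMax red s ∧ Le red x s := by
  classical
  have : Fintype X := Fintype.ofFinite X
  let f : X → ℕ := fun s => (Finset.univ.filter (fun t => Nb red s t)).card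
  have hne : (Finset.univ.filter (fun s => red s ∧ Le red x s)).Nonempty :=
    ⟨x, by simp only [Finset.mem_filter, Finset.mem_univ, true_and]; exact ⟨hx, fun t h => h⟩⟩
  obtain ⟨s, hs, hmax⟩ := Finset.exists_max_image _ f hne
  simp only [Finset.mem_filter, Finset.mem_univ, true_and] at hs hmax
  refine ⟨s, ⟨hs.1, ?_⟩, hs.2⟩
  intro s' hs' hle
  have h1 : f s' ≤ f s := hmax s' ⟨hs', fun t ht => hle t (hs.2 t ht)⟩
  have hsub : Finset.univ.filter (fun t => Nb red s t) ⊆
      Finset.univ.filter (fun t => Nb red s' t) := by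
    intro t ht
    simp only [Finset.mem_filter, Finset.mem_univ, true_and] at ht ⊢
    exact hle t ht
  have heq := Finset.eq_of_subset_of_card_le hsub h1
  intro t ht
  have : t ∈ Finset.univ.filter (fun t => Nb red s' t) := by
    simp only [Finset.mem_filter, Finset.mem_univ, true_and]; exact ht
  rw [← heq] at this
  simpa only [Finset.mem_filter, Finset.mem_univ, true_and] using this

/-- every point with a neighbour (or red) has a star -/
theorem exists_star [Finite X] (h1 : Dominated red) {t : X} (ht : ∃ s, Nb red t s) :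
    ∃ d, IsMax red d ∧ Nb red d t ∧ Le red t d := by
  classical
  by_cases hr : red t
  · obtain ⟨s, hs, hle⟩ := exists_isMax hr
    exact ⟨s, hs, hle t (nb_self hr), hle⟩
  · obtain ⟨z, hz, htz, hle⟩ := h1 t hr ht
    obtain ⟨s, hs, hle'⟩ := exists_isMax hz
    exact ⟨s, hs, hle' t htz.symm, fun u hu => hle' u (hle u hu)⟩

/-- `p` is a maximal red point below the maximal red point `q`, with another row -/
def Below (red : X → Prop) (p q : X) : Prop :=
  p < q ∧ IsMax red p ∧ IsMax red q ∧ ¬ Le red p q

theorem IsMax.le_symm {p q : X} (hp : IsMax red p) (hq : IsMax red q) (h : Le red p q) :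
    Le red q p := hp.2 q hq.1 h

/-- the central step: no two maximal red points with different rows are comparable -/
theorem no_below [Finite X] (h1 : Dominated red) (h2 : AdjSplit red) (h3 : FarSplit red)
    (p q : X) (hpq : Below red p q) : False := by
  classical
  have : Fintype X := Fintype.ofFinite X
  -- choose `q` minimal among the points having something below
  have hex : ∃ q : X, (∃ p, Below red p q) ∧ ∀ q', q' < q → ¬ ∃ p, Below red p q' := by
    obtain ⟨m, hm, hmin⟩ := (wellFounded_lt (α := X)).has_min {q : X | ∃ p, Below red p q}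
      ⟨q, p, hpq⟩
    exact ⟨m, hm, fun q' hq' h => hmin q' h hq'⟩
  clear hpq
  obtain ⟨q, ⟨p, hpq⟩, hmin⟩ := hex
  obtain ⟨hlt, hpM, hqM, hnle⟩ := hpq
  have hqr : red q := hqM.1
  -- elements of the block are pairwise incomparable up to twins
  have hanti : ∀ x y, Below red x q → Below red y q → Cmp x y → Le red x y := by
    intro x y hx hy hxy
    by_contra hcon
    rcases hxy with hxy | hxy
    · exact hmin y hy.1 ⟨x, hxy, hx.2.1, hy.2.1, hcon⟩
    · refine hmin x hx.1 ⟨y, hxy, hy.2.1, hx.2.1, ?_⟩
      intro h
      exact hcon (hy.2.1.le_symm hx.2.1 h)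
  -- (G)
  have hG : ∀ w, w < q → ∃ d, Nb red d w ∧ Le red w d ∧ (Below red d q ∨ Le red d q) := by
    intro w hw
    have hwq : Nb red w q := Or.inl (Or.inl hw)
    obtain ⟨d, hd, hdw, hle⟩ := exists_star h1 ⟨q, hwq⟩
    refine ⟨d, hdw, hle, ?_⟩
    have hdq : Nb red d q := hle q hwq
    rcases hdq with (h | h) | ⟨h, _⟩
    · by_cases hl : Le red d q
      · exact Or.inr hl
      · exact Or.inl ⟨h, hd, hqM, hl⟩
    · right
      have hqd : Le red q d := by
        intro t ht
        rcases ht with (h' | h') | ⟨h', _⟩
        · exact hle t (Or.inl (Or.inl (lt_trans hw h')))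
        · exact Or.inl (Or.inr (lt_trans h' h))
        · subst h'; exact Or.inl (Or.inr h)
      exact hqM.le_symm hd hqd
    · subst h; exact Or.inr (fun t ht => ht)
  by_cases hB : ∀ x, Below red x q → Le red x p
  · -- (A) the block is one twin class
    have key : ∀ w, Nb red q w → ¬ Nb red p w → Le red w q := by
      intro w hqw hpw
      have hwlt : w < q := by
        rcases hqw with (h | h) | ⟨h, _⟩
        · exact absurd (Or.inl (Or.inl (lt_trans hlt h))) hpw
        · exact h
        · subst h; exact absurd (Or.inl (Or.inl hlt)) hpw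
      obtain ⟨d, hdw, hle, hd | hd⟩ := hG w hwlt
      · exact absurd (hB d hd w hdw) hpw
      · exact fun t ht => hd t (hle t ht)
    have hqp : ¬ Le red q p := fun h => hnle (hqM.le_symm hpM h)
    obtain ⟨w, hw⟩ : ∃ w, Nb red q w ∧ ¬ Nb red p w := by
      by_contra hcon
      push Not at hcon
      exact hqp (fun t ht => hcon t ht)
    have hne : ∃ t, ¬ (Nb red p t ↔ Nb red q t) := ⟨w, fun h => hw.2 (h.2 hw.1)⟩
    obtain ⟨v, hv | hv⟩ := h2 p q hpM.1 hqr (Or.inl hlt) hne
    · obtain ⟨_, hpv, hqv, _, hcov⟩ := hv
      rcases hcov w hw.1 with h | h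
      · exact hqv (key w hw.1 hw.2 v h.symm)
      · exact hw.2 h
    · obtain ⟨_, hqv, hpv, _, hcov⟩ := hv
      have hvq := key v hqv hpv
      apply hnle
      intro t ht
      rcases hcov t ht with h | h
      · exact hvq t h
      · exact h
  · -- (B) two different elements of the block
    push Not at hB
    obtain ⟨x, hx, hxp⟩ := hB
    have hp : Below red p q := ⟨hlt, hpM, hqM, hnle⟩
    -- rename: y = p
    have hxy : ¬ Cmp x p := fun h => hxp (hanti x p hx hp h)
    have hxne : x ≠ p := by
      intro h; subst h; exact hxp (fun t ht => ht)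
    have hxq : ¬ Le red q x := fun h => hx.2.2.2 (hqM.le_symm hx.2.1 h)
    have hnexq : ∃ t, ¬ (Nb red x t ↔ Nb red q t) := by
      by_contra hcon
      push Not at hcon
      exact hx.2.2.2 (fun t ht => (hcon t).1 ht)
    -- (B1)
    obtain ⟨z, hz⟩ : ∃ z, SideSplit red x q z := by
      obtain ⟨z, hz | hz⟩ := h2 x q hx.2.1.1 hqr (Or.inl hx.1) hnexq
      · exact ⟨z, hz⟩
      · exfalso
        obtain ⟨hzb, hqz, hxz, hin, hcov⟩ := hz
        have hzlt : z < q := by
          rcases hqz with (h | h) | ⟨h, h'⟩
          · exact absurd (Or.inl (Or.inl (lt_trans hx.1 h))) hxz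
          · exact h
          · subst h; exact absurd h' hzb
        obtain ⟨m, hmz, hle, hm | hm⟩ := hG z hzlt
        · have h1' : Nb red x m := hin m hmz.symm (Or.inl (Or.inr hm.1))
          rcases h1' with h | ⟨h, _⟩
          · exact hxz (hanti m x hm hx h.symm z hmz)
          · subst h; exact hxz hmz
        · apply hx.2.2.2
          intro t ht
          rcases hcov t ht with h | h
          · exact hm t (hle t h)
          · exact h
    obtain ⟨hzb, hxz, hqz, _, hcov⟩ := hz
    have hpz : Nb red p z := by
      rcases hcov p (Or.inl (Or.inr hlt)) with h | h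
      · exact h.symm
      · rcases h with h | ⟨h, _⟩
        · exact absurd h hxy
        · exact absurd h hxne
    -- (B2)
    obtain ⟨v, hvb, hxv, hpv, hin, hout⟩ := h3 x p hx.2.1.1 hpM.1 hxne hxy
      ⟨q, Or.inl (Or.inl hx.1), Or.inl (Or.inl hlt)⟩
    have hvq : Nb red v q := hin q (Or.inl (Or.inl hx.1)) (Or.inl (Or.inl hlt))
    have hvz : Nb red v z := hin z hxz hpz
    have hvlt : v < q := by
      rcases hvq with (h | h) | ⟨h, h'⟩
      · exact h
      · exact absurd (Or.inl (Or.inl (lt_trans hlt h))) hpv
      · exact absurd h' hvb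
    obtain ⟨m, hmv, hle, hm | hm⟩ := hG v hvlt
    · rcases hout m hmv.symm with h | h
      · rcases h with h | ⟨h, _⟩
        · exact hxv (hanti m x hm hx h.symm v hmv)
        · subst h; exact hxv hmv
      · rcases h with h | ⟨h, _⟩
        · exact hpv (hanti m p hm hp h.symm v hmv)
        · subst h; exact hpv hmv
    · exact hqz (hm z (hle z hvz))

/-- **Lemma P** (helper64).  In a finite poset with a set of red points satisfying the one-rooted
splitting conditions, every connected component of the comparability graph which contains a red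
point contains a red point comparable to all its other points. -/
theorem lemmaP [Finite X] (h1 : Dominated red) (h2 : AdjSplit red) (h3 : FarSplit red)
    (r : X) (hr : red r) :
    ∃ z, red z ∧ ∀ t, Relation.ReflTransGen Cmp r t → Nb red z t := by
  classical
  have htw : ∀ s s', IsMax red s → IsMax red s' → Nb red s s' → Le red s s' := by
    intro s s' hs hs' h
    by_contra hcon
    rcases h with (h | h) | ⟨h, _⟩
    · exact no_below h1 h2 h3 s s' ⟨h, hs, hs', hcon⟩
    · exact no_below h1 h2 h3 s' s ⟨h, hs', hs, fun hle => hcon (hs'.le_symm hs hle)⟩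
    · subst h; exact hcon (fun t ht => ht)
  obtain ⟨z, hz, hzr⟩ := exists_isMax hr
  refine ⟨z, hz.1, ?_⟩
  have main : ∀ t, Relation.ReflTransGen Cmp r t →
      ∃ d, IsMax red d ∧ Nb red d t ∧ Le red t d ∧ Le red d z := by
    intro t ht
    induction ht with
    | refl => exact ⟨z, hz, hzr r (nb_self hr), hzr, fun t ht => ht⟩
    | tail _ hbc ih =>
      rename_i b c _
      obtain ⟨d, hd, hdb, hbd, hdz⟩ := ih
      obtain ⟨d', hd', hdc, hcd⟩ := exists_star h1 ⟨b, (Or.inl hbc.symm : Nb red c b)⟩
      have h5 : Nb red d' b := hcd b (Or.inl hbc.symm)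
      have h6 : Nb red d d' := hbd d' h5.symm
      have h7 : Le red d' d := htw d' d hd' hd h6.symm
      exact ⟨d', hd', hdc, hcd, fun t ht => hdz t (h7 t ht)⟩
  intro t ht
  obtain ⟨d, _, hdt, _, hdz⟩ := main t ht
  exact hdz t hdt

end Pool.Agent.GOD
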