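import Mathlib

/-!
Compact model of permutation graphs for MP_7b7176_co.  `V` is the set of matching edges, `f` and `g`
are the cyclic successor maps on the two circuits.  The vertices of the graph are the pairs
`(v, f-side)` and `(v, g-side)`, the edges are the `f`-edges `v -> f v`, the `g`-edges `v -> g v`
and the matching edges `v`.  An even subgraph is given by its `f`-edges `X` and its `g`-edges `Y`
with `bd f X = bd g Y`; this common boundary is the set of its matching edges.
-/

set_option autoImplicit false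
set_option linter.unusedSectionVars false

namespace Pool.GOD.PG

variable {V : Type*} [Fintype V] [DecidableEq V]

/-- The boundary of a set of `f`-edges: the vertices with exactly one edge of `A`. -/
def bd (f : Equiv.Perm V) (A : Finset V) : Finset V :=
  Finset.univ.filter (fun v => ¬ (v ∈ A ↔ f.symm v ∈ A))

/-- `f` is a single cycle. -/
def Cyc (f : Equiv.Perm V) : Prop :=
  ∀ S : Finset V, S.Nonempty → (∀ v ∈ S, f v ∈ S) → S = Finset.univ

/-- Alternating sets: disjoint unions of alternating circuits. -/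
structure Alt (f g : Equiv.Perm V) (A B : Finset V) : Prop where
  ne : A.Nonempty
  indA : ∀ v ∈ A, f v ∉ A
  indB : ∀ v ∈ B, g v ∉ B
  bd : bd f A = bd g B

/-- The matching edge `z` lies in an even subgraph of the rest. -/
def Cert (f g : Equiv.Perm V) (A B : Finset V) (z : V) : Prop :=
  ∃ X Y : Finset V, Disjoint X A ∧ Disjoint Y B ∧ bd f X = bd g Y ∧ z ∈ bd f X

/-- The matching edge `z` is a bridge of the rest. -/
def Br (f g : Equiv.Perm V) (A B : Finset V) (z : V) : Prop :=
  ∃ P Q : Finset V, (∀ v, v ∉ A → (v ∈ P ↔ f v ∈ P)) ∧ (∀ v, v ∉ B → (v ∈ Q ↔ g v ∈ Q)) ∧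
    (∀ v, v ≠ z → (v ∈ P ↔ v ∈ Q)) ∧ ¬ (z ∈ P ↔ z ∈ Q)

/-- `(A, B)` is removable. -/
def Rem (f g : Equiv.Perm V) (A B : Finset V) : Prop :=
  Alt f g A B ∧ ∀ z, Cert f g A B z

/-- Nothing is removable. -/
def NN (f g : Equiv.Perm V) : Prop := ∀ A B : Finset V, ¬ Rem f g A B

variable {f g : Equiv.Perm V}

lemma mem_bd {A : Finset V} {v : V} : v ∈ bd f A ↔ ¬ (v ∈ A ↔ f.symm v ∈ A) := by
  simp [bd]

lemma bd_compl (A : Finset V) : bd f Aᶜ = bd f A := by
  ext v
  rw [mem_bd, mem_bd, Finset.mem_compl, Finset.mem_compl]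
  tauto

lemma bd_symmDiff (A B : Finset V) : bd f (symmDiff A B) = symmDiff (bd f A) (bd f B) := by
  ext v
  simp only [mem_bd, Finset.mem_symmDiff]
  tauto

@[simp] lemma bd_empty : bd f (∅ : Finset V) = ∅ := by
  ext v
  simp [mem_bd]

lemma bd_singleton (u : V) : bd f {u} = symmDiff {u} {f u} := by
  ext v
  simp only [mem_bd, Finset.mem_symmDiff, Finset.mem_singleton]
  have h : f.symm v = u ↔ v = f u := by
    constructor
    · rintro rfl
      simp
    · rintro rfl
      simp
  rw [h]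
  tauto

lemma Cyc.induct (hf : Cyc f) {p : V → Prop} {a : V} (h0 : p a) (h1 : ∀ v, p v → p (f v)) (v : V) :
    p v := by
  classical
  have h := hf (Finset.univ.filter p) ⟨a, by simp [h0]⟩ (by
    intro v hv
    simp only [Finset.mem_filter, Finset.mem_univ, true_and] at hv ⊢
    exact h1 v hv)
  have h2 : v ∈ Finset.univ.filter p := by
    rw [h]
    exact Finset.mem_univ v
  simpa using h2

/-- A set of edges with a given boundary `{a, b}` avoiding an edge. -/
lemma Cyc.exists_path (hf : Cyc f) (v0 a b : V) : ∃ X : Finset V, v0 ∉ X ∧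
    bd f X = symmDiff {a} {b} := by
  have key : ∀ u, ∃ X : Finset V, v0 ∉ X ∧ bd f X = symmDiff {f v0} {u} := by
    intro u
    refine hf.induct (p := fun u => ∃ X : Finset V, v0 ∉ X ∧ bd f X = symmDiff {f v0} {u})
      (a := f v0) ⟨∅, by simp, by simp⟩ ?_ u
    rintro u ⟨X, h1, h2⟩
    by_cases hu : u = v0
    · exact ⟨∅, by simp, by simp [hu]⟩
    · refine ⟨symmDiff X {u}, ?_, ?_⟩
      · rw [Finset.mem_symmDiff, Finset.mem_singleton]
        tauto
      · rw [bd_symmDiff, h2, bd_singleton]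
        ext x
        simp only [Finset.mem_symmDiff, Finset.mem_singleton]
        tauto
  obtain ⟨X, h1, h2⟩ := key a
  obtain ⟨Y, h3, h4⟩ := key b
  refine ⟨symmDiff X Y, ?_, ?_⟩
  · rw [Finset.mem_symmDiff]
    tauto
  · rw [bd_symmDiff, h2, h4]
    ext x
    simp only [Finset.mem_symmDiff, Finset.mem_singleton]
    tauto

lemma cert_of_mem {A B : Finset V} (h : bd f A = bd g B) {z : V} (hz : z ∈ bd f A) :
    Cert f g A B z :=
  ⟨Aᶜ, Bᶜ, disjoint_compl_left, disjoint_compl_left, by rw [bd_compl, bd_compl, h], by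
    rwa [bd_compl]⟩

/-- A certificate excludes a bridge. -/
lemma not_br_of_cert {A B : Finset V} {z : V} (h : Cert f g A B z) : ¬ Br f g A B z := by
  rintro ⟨P, Q, h1, h2, h3, h4⟩
  obtain ⟨X, Y, hX, hY, hXY, hz⟩ := h
  -- count modulo 2
  have hc : ∀ (h : Equiv.Perm V) (X P : Finset V), (∀ v ∈ X, (v ∈ P ↔ h v ∈ P)) →
      Even ((bd h X) ∩ P).card := by
    intro h X P hP
    have e1 : ∀ v, (if v ∈ bd h X ∩ P then (1 : ZMod 2) else 0) =
        (if v ∈ X ∧ v ∈ P then 1 else 0) + (if h.symm v ∈ X ∧ v ∈ P then 1 else 0) := by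
      intro v
      have a0 : v ∈ bd h X ∩ P ↔ ¬ (v ∈ X ↔ h.symm v ∈ X) ∧ v ∈ P := by
        rw [Finset.mem_inter, mem_bd]
      by_cases a1 : v ∈ X <;> by_cases a2 : h.symm v ∈ X <;> by_cases a3 : v ∈ P <;>
        simp [a0, a1, a2, a3, CharTwo.add_self_eq_zero]
    have e2 : ((bd h X ∩ P).card : ZMod 2) = ∑ v, if v ∈ bd h X ∩ P then (1 : ZMod 2) else 0 := by
      rw [Finset.sum_boole, Finset.filter_univ_mem]
    have e3 : ∑ v, (if h.symm v ∈ X ∧ v ∈ P then (1 : ZMod 2) else 0) =
        ∑ v, if v ∈ X ∧ v ∈ P then (1 : ZMod 2) else 0 := by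
      rw [← Equiv.sum_comp h]
      refine Finset.sum_congr rfl fun v _ => ?_
      rw [Equiv.symm_apply_apply]
      by_cases a : v ∈ X
      · simp [a, hP v a]
      · simp [a]
    have e4 : ((bd h X ∩ P).card : ZMod 2) = 0 := by
      rw [e2, Finset.sum_congr rfl (fun v _ => e1 v), Finset.sum_add_distrib, e3]
      exact CharTwo.add_self_eq_zero _
    exact (ZMod.natCast_eq_zero_iff_even).mp e4
  have c1 := hc f X P (fun v hv => h1 v (Finset.disjoint_left.mp hX hv))
  have c2 := hc g Y Q (fun v hv => h2 v (Finset.disjoint_left.mp hY hv))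
  rw [← hXY] at c2
  by_cases hzP : z ∈ P
  · have hzQ : z ∉ Q := fun h => h4 ⟨fun _ => h, fun _ => hzP⟩
    have : bd f X ∩ P = insert z (bd f X ∩ Q) := by
      ext v
      simp only [Finset.mem_inter, Finset.mem_insert]
      by_cases hv : v = z
      · subst hv
        simp [hz, hzP]
      · simp only [hv, false_or]
        rw [h3 v hv]
    rw [this, Finset.card_insert_of_notMem (by simp [hzQ])] at c1
    exact (Nat.not_even_iff_odd.mpr (Even.add_one c2)) c1
  · have hzQ : z ∈ Q := by
      by_contra h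
      exact h4 ⟨fun h' => absurd h' hzP, fun h' => absurd h' h⟩
    have : bd f X ∩ Q = insert z (bd f X ∩ P) := by
      ext v
      simp only [Finset.mem_inter, Finset.mem_insert]
      by_cases hv : v = z
      · subst hv
        simp [hz, hzQ]
      · simp only [hv, false_or]
        rw [h3 v hv]
    rw [this, Finset.card_insert_of_notMem (by simp [hzP])] at c2
    exact (Nat.not_even_iff_odd.mpr (Even.add_one c1)) c2

lemma sd1 (Z a b c : Finset V) : symmDiff (symmDiff Z (symmDiff a b)) (symmDiff b c) =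
    symmDiff Z (symmDiff a c) := by
  rw [symmDiff_assoc, symmDiff_assoc, symmDiff_symmDiff_cancel_left]

lemma sd2 (Z a b c : Finset V) : symmDiff (symmDiff Z (symmDiff a c)) (symmDiff b c) =
    symmDiff Z (symmDiff a b) := by
  rw [symmDiff_comm b c, sd1]

lemma sd3 (Z a b : Finset V) : symmDiff Z (symmDiff a b) = symmDiff (symmDiff Z b) a := by
  rw [symmDiff_comm a b, symmDiff_assoc]

lemma sd4 (Z b : Finset V) : symmDiff (symmDiff Z b) b = Z := by
  rw [symmDiff_assoc, symmDiff_self]
  simp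

/-- Duality: a matching edge is a bridge or it lies in an even subgraph. -/
lemma cert_or_br (A B : Finset V) (z : V) : Cert f g A B z ∨ Br f g A B z := by
  classical
  let Cf : V → Prop := fun u => ∃ X Y Z : Finset V, Disjoint X A ∧ Disjoint Y B ∧ z ∉ Z ∧
    bd f X = symmDiff Z (symmDiff {z} {u}) ∧ bd g Y = Z
  let Cg : V → Prop := fun u => ∃ X Y Z : Finset V, Disjoint X A ∧ Disjoint Y B ∧ z ∉ Z ∧
    bd f X = symmDiff Z {z} ∧ bd g Y = symmDiff Z {u}
  have dis : ∀ (S T : Finset V) (v : V), Disjoint S T → v ∉ T → Disjoint (symmDiff S {v}) T := by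
    intro S T v h1 h2
    rw [Finset.disjoint_left] at h1 ⊢
    intro x hx hxT
    rw [Finset.mem_symmDiff, Finset.mem_singleton] at hx
    rcases hx with hx | hx
    · exact h1 hx.1 hxT
    · exact h2 (hx.1 ▸ hxT)
  have sd : ∀ (S T : Finset V) (v : V), z ∉ S → v ≠ z → z ∉ symmDiff S {v} := by
    intro S T v h1 h2 h3
    rw [Finset.mem_symmDiff, Finset.mem_singleton] at h3
    rcases h3 with h3 | h3
    · exact h1 h3.1
    · exact h2 h3.1.symm
  have f1 : ∀ v, v ∉ A → (Cf v ↔ Cf (f v)) := by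
    intro v hv
    constructor
    · rintro ⟨X, Y, Z, h1, h2, h3, h4, h5⟩
      refine ⟨symmDiff X {v}, Y, Z, dis X A v h1 hv, h2, h3, ?_, h5⟩
      rw [bd_symmDiff, h4, bd_singleton, sd1]
    · rintro ⟨X, Y, Z, h1, h2, h3, h4, h5⟩
      refine ⟨symmDiff X {v}, Y, Z, dis X A v h1 hv, h2, h3, ?_, h5⟩
      rw [bd_symmDiff, h4, bd_singleton, sd2]
  have g1 : ∀ v, v ∉ B → (Cg v ↔ Cg (g v)) := by
    intro v hv
    constructor
    · rintro ⟨X, Y, Z, h1, h2, h3, h4, h5⟩
      refine ⟨X, symmDiff Y {v}, Z, h1, dis Y B v h2 hv, h3, h4, ?_⟩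
      rw [bd_symmDiff, h5, bd_singleton, symmDiff_assoc, symmDiff_symmDiff_cancel_left]
    · rintro ⟨X, Y, Z, h1, h2, h3, h4, h5⟩
      refine ⟨X, symmDiff Y {v}, Z, h1, dis Y B v h2 hv, h3, h4, ?_⟩
      rw [bd_symmDiff, h5, bd_singleton, symmDiff_assoc,
        symmDiff_comm ({v} : Finset V) ({g v} : Finset V), symmDiff_symmDiff_cancel_left]
  have m1 : ∀ v, v ≠ z → (Cf v ↔ Cg v) := by
    intro v hv
    constructor
    · rintro ⟨X, Y, Z, h1, h2, h3, h4, h5⟩
      refine ⟨X, Y, symmDiff Z {v}, h1, h2, sd Z Z v h3 hv, ?_, ?_⟩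
      · rw [h4, sd3]
      · rw [h5, sd4]
    · rintro ⟨X, Y, Z, h1, h2, h3, h4, h5⟩
      refine ⟨X, Y, symmDiff Z {v}, h1, h2, sd Z Z v h3 hv, ?_, ?_⟩
      · rw [h4, sd3, sd4]
      · rw [h5]
  by_cases hz : Cg z
  · left
    obtain ⟨X, Y, Z, h1, h2, h3, h4, h5⟩ := hz
    refine ⟨X, Y, h1, h2, by rw [h4, h5], ?_⟩
    rw [h4, Finset.mem_symmDiff, Finset.mem_singleton]
    exact Or.inr ⟨rfl, h3⟩
  · right
    refine ⟨Finset.univ.filter Cf, Finset.univ.filter Cg, ?_, ?_, ?_, ?_⟩
    · intro v hv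
      simpa using f1 v hv
    · intro v hv
      simpa using g1 v hv
    · intro v hv
      simpa using m1 v hv
    · have h0 : Cf z := ⟨∅, ∅, ∅, by simp, by simp, by simp, by simp, by simp⟩
      simp only [Finset.mem_filter, Finset.mem_univ, true_and]
      exact fun h => hz (h.mp h0)

/-- Under `NN` every alternating set has a bridge. -/
lemma NN.exists_br (h : NN f g) {A B : Finset V} (hA : Alt f g A B) :
    ∃ z, z ∉ bd f A ∧ Br f g A B z := by
  by_contra hc
  push Not at hc
  refine h A B ⟨hA, fun z => ?_⟩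
  rcases cert_or_br (f := f) (g := g) A B z with h1 | h1
  · exact h1
  · by_cases hz : z ∈ bd f A
    · exact cert_of_mem hA.bd hz
    · exact absurd h1 (hc z hz)

/-- Even sets of vertices are boundaries of sets avoiding a given edge. -/
lemma Cyc.exists_bd (hf : Cyc f) (v0 a : V) (Z : Finset V) : ∃ X : Finset V, v0 ∉ X ∧
    ((Even Z.card ∧ bd f X = Z) ∨ (¬ Even Z.card ∧ bd f X = symmDiff Z {a})) := by
  induction Z using Finset.induction_on with
  | empty => exact ⟨∅, by simp, Or.inl ⟨by simp, by simp⟩⟩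
  | insert u Z hu ih =>
    obtain ⟨X, h1, h2⟩ := ih
    obtain ⟨Y, h3, h4⟩ := hf.exists_path v0 a u
    have e : insert u Z = symmDiff Z {u} := by
      ext x
      rw [Finset.mem_insert, Finset.mem_symmDiff, Finset.mem_singleton]
      by_cases hx : x = u
      · subst hx
        simp [hu]
      · simp [hx]
    refine ⟨symmDiff X Y, ?_, ?_⟩
    · rw [Finset.mem_symmDiff]
      tauto
    · rw [Finset.card_insert_of_notMem hu, bd_symmDiff, h4, e]
      rcases h2 with ⟨h5, h6⟩ | ⟨h5, h6⟩
      · right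
        refine ⟨fun h => ?_, ?_⟩
        · rw [Nat.even_add_one] at h
          exact h h5
        · rw [h6, sd3]
      · left
        refine ⟨Nat.even_add_one.mpr h5, ?_⟩
        rw [h6, symmDiff_assoc, symmDiff_symmDiff_cancel_left]

lemma Cyc.symm (hf : Cyc f) : Cyc f.symm := by
  intro S hS h
  apply hf S hS
  intro v hv
  have h1 : S.image f.symm = S := by
    apply Finset.eq_of_subset_of_card_le
    · intro x hx
      obtain ⟨y, hy, rfl⟩ := Finset.mem_image.mp hx
      exact h y hy
    · rw [Finset.card_image_of_injective _ f.symm.injective]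
  rw [← h1] at hv
  obtain ⟨y, hy, rfl⟩ := Finset.mem_image.mp hv
  rwa [Equiv.apply_symm_apply]

lemma Cyc.ne (hf : Cyc f) (hc : 2 ≤ Fintype.card V) (v : V) : f v ≠ v := by
  intro h
  have h1 := hf {v} ⟨v, by simp⟩ (by
    intro x hx
    rw [Finset.mem_singleton] at hx
    subst hx
    rw [h]
    simp)
  have h2 := congrArg Finset.card h1
  rw [Finset.card_singleton, Finset.card_univ] at h2
  omega

/-- No two matching edges are consecutive on both circuits. -/
lemma NN.no_common (h : NN f g) (hf : Cyc f) (hg : Cyc g) (hc : 2 ≤ Fintype.card V) (v : V) :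
    f v ≠ g v ∧ f (g v) ≠ v := by
  constructor
  · intro e
    refine h {v} {v} ⟨⟨⟨v, by simp⟩, ?_, ?_, ?_⟩, ?_⟩
    · intro x hx
      rw [Finset.mem_singleton] at hx ⊢
      subst hx
      exact hf.ne hc x
    · intro x hx
      rw [Finset.mem_singleton] at hx ⊢
      subst hx
      exact hg.ne hc x
    · rw [bd_singleton, bd_singleton, e]
    · intro z
      by_cases hz : z = v
      · subst hz
        refine cert_of_mem (by rw [bd_singleton, bd_singleton, e]) ?_
        rw [bd_singleton, Finset.mem_symmDiff, Finset.mem_singleton, Finset.mem_singleton]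
        exact Or.inl ⟨rfl, (hf.ne hc z).symm⟩
      · obtain ⟨X, h1, h2⟩ := hf.exists_path v z v
        obtain ⟨Y, h3, h4⟩ := hg.exists_path v z v
        refine ⟨X, Y, by simpa using h1, by simpa using h3, by rw [h2, h4], ?_⟩
        rw [h2, Finset.mem_symmDiff, Finset.mem_singleton, Finset.mem_singleton]
        exact Or.inl ⟨rfl, hz⟩
  · intro e
    have e2 : bd f {g v} = bd g {v} := by
      rw [bd_singleton, bd_singleton, e, symmDiff_comm]
    refine h {g v} {v} ⟨⟨⟨g v, by simp⟩, ?_, ?_, e2⟩, ?_⟩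
    · intro x hx
      rw [Finset.mem_singleton] at hx ⊢
      subst hx
      exact hf.ne hc _
    · intro x hx
      rw [Finset.mem_singleton] at hx ⊢
      subst hx
      exact hg.ne hc x
    · intro z
      by_cases hz : z = v
      · subst hz
        refine cert_of_mem e2 ?_
        rw [e2, bd_singleton, Finset.mem_symmDiff, Finset.mem_singleton, Finset.mem_singleton]
        exact Or.inl ⟨rfl, (hg.ne hc z).symm⟩
      · obtain ⟨X, h1, h2⟩ := hf.exists_path (g v) z v
        obtain ⟨Y, h3, h4⟩ := hg.exists_path v z v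
        refine ⟨X, Y, by simpa using h1, by simpa using h3, by rw [h2, h4], ?_⟩
        rw [h2, Finset.mem_symmDiff, Finset.mem_singleton, Finset.mem_singleton]
        exact Or.inl ⟨rfl, hz⟩

end Pool.GOD.PG
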