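import Pool.Agent.GOD.FinG
import Pool.Agent.GOD.PG

/-!
Dictionary between the permutation graphs of `Pool.Agent.GOD.StmtG` and the compact model of
`Pool.Agent.GOD.PG` (MP_7b7176_co): the main theorem for the compact model implies `Stmt_Main`.
-/

set_option autoImplicit false
set_option linter.unusedSectionVars false

namespace Pool.GOD

namespace MGraph

namespace PGDictX

open PG

variable {V E : Type} [Fintype V] [DecidableEq V] [Fintype E] [DecidableEq E] {G : MGraph V E}
  {w : E → ℕ} {n : ℕ} [NeZero n] {a b : ZMod n → V} {p q m : ZMod n → E}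
  {π : Equiv.Perm (ZMod n)}

/-- The successor on the first circuit. -/
def fs (n : ℕ) : Equiv.Perm (ZMod n) := Equiv.addRight 1

/-- The successor on the second circuit. -/
def gs (π : Equiv.Perm (ZMod n)) : Equiv.Perm (ZMod n) :=
  (π.trans (Equiv.addRight 1)).trans π.symm

omit [NeZero n] in
lemma fs_apply (i : ZMod n) : fs n i = i + 1 := rfl

omit [NeZero n] in
lemma fs_symm (i : ZMod n) : (fs n).symm i = i - 1 := by
  rw [Equiv.symm_apply_eq, fs_apply, sub_add_cancel]

omit [NeZero n] in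
lemma gs_apply (π : Equiv.Perm (ZMod n)) (i : ZMod n) : gs π i = π.symm (π i + 1) := rfl

omit [NeZero n] in
lemma gs_symm (π : Equiv.Perm (ZMod n)) (i : ZMod n) : (gs π).symm i = π.symm (π i - 1) := by
  rw [Equiv.symm_apply_eq, gs_apply, Equiv.apply_symm_apply, sub_add_cancel,
    Equiv.symm_apply_apply]

lemma cyc_fs : Cyc (fs n) := by
  rintro S ⟨i0, h0⟩ hS
  ext i
  simp only [Finset.mem_univ, iff_true]
  exact Cyc4X.cyc_step (P := fun i => i ∈ S) (fun i hi => hS i hi) h0 i

lemma cyc_gs (π : Equiv.Perm (ZMod n)) : Cyc (gs π) := by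
  rintro S ⟨i0, h0⟩ hS
  ext i
  simp only [Finset.mem_univ, iff_true]
  have h1 := Cyc4X.cyc_step (P := fun j => π.symm j ∈ S) (i0 := π i0) (fun j hj => by
    have h2 := hS _ hj
    rwa [gs_apply, Equiv.apply_symm_apply] at h2) (by rwa [Equiv.symm_apply_apply]) (π i)
  rwa [Equiv.symm_apply_apply] at h1

/-- The edges at a vertex of the first circuit. -/
lemma mem_a (h : G.PermData w n a b p q m π) (i : ZMod n) (e : E) :
    a i ∈ G.ends e ↔ e = p i ∨ e = p (i - 1) ∨ e = m i := by
  constructor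
  · intro he
    rcases h.surjE e with ⟨j, rfl⟩ | ⟨j, rfl⟩ | ⟨j, rfl⟩
    · rw [h.endp, Sym2.mem_iff] at he
      rcases he with he | he
      · left
        rw [h.inja he]
      · right
        left
        rw [h.inja he, add_sub_cancel_right]
    · rw [h.endq, Sym2.mem_iff] at he
      rcases he with he | he
      · exact absurd he (h.disj _ _)
      · exact absurd he (h.disj _ _)
    · rw [h.endm, Sym2.mem_iff] at he
      rcases he with he | he
      · right
        right
        rw [h.inja he]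
      · exact absurd he (h.disj _ _)
  · rintro (rfl | rfl | rfl)
    · rw [h.endp]
      exact Sym2.mem_mk_left _ _
    · rw [h.endp, sub_add_cancel]
      exact Sym2.mem_mk_right _ _
    · rw [h.endm]
      exact Sym2.mem_mk_left _ _

lemma sub_one_ne (h : G.PermData w n a b p q m π) (i : ZMod n) : i - 1 ≠ i := by
  intro h1
  have h2 : ((1 : ℕ) : ZMod n) = 0 := by
    rw [Nat.cast_one]
    exact sub_eq_self.1 h1
  have h3 := Nat.le_of_dvd (by norm_num) ((ZMod.natCast_eq_zero_iff 1 n).1 h2)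
  have h4 := h.five
  omega

lemma deg_a (h : G.PermData w n a b p q m π) (D : Finset E) (i : ZMod n) :
    G.deg D (a i) = (if p i ∈ D then 1 else 0) + (if p (i - 1) ∈ D then 1 else 0) +
      (if m i ∈ D then 1 else 0) := by
  have h1 : D.filter (fun e => a i ∈ G.ends e) =
      ({p i, p (i - 1), m i} : Finset E).filter (fun e => e ∈ D) := by
    ext e
    rw [Finset.mem_filter, Finset.mem_filter, mem_a h]
    simp only [Finset.mem_insert, Finset.mem_singleton]
    tauto
  have h2 : p i ≠ p (i - 1) := fun hh => sub_one_ne h i (Cyc4X.p_inj h hh).symm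
  have h3 : p i ≠ m i := (Cyc4X.m_ne_p h i i).symm
  have h4 : p (i - 1) ≠ m i := (Cyc4X.m_ne_p h i (i - 1)).symm
  unfold deg
  rw [h1, Finset.card_filter, Finset.sum_insert, Finset.sum_insert, Finset.sum_singleton, add_assoc]
  · rw [Finset.mem_singleton]
    exact h4
  · rw [Finset.mem_insert, Finset.mem_singleton]
    push Not
    exact ⟨h2, h3⟩

lemma deg_b (h : G.PermData w n a b p q m π) (D : Finset E) (i : ZMod n) :
    G.deg D (b (π i)) = (if q (π i) ∈ D then 1 else 0) + (if q (π i - 1) ∈ D then 1 else 0) +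
      (if m i ∈ D then 1 else 0) := by
  have h1 := deg_a (Cyc4X.swap h) D (π i)
  simp only [Equiv.symm_apply_apply] at h1
  exact h1

lemma deg_ab (h : G.PermData w n a b p q m π) (v : V) :
    (∃ i, v = a i) ∨ ∃ i, v = b (π i) := by
  rcases h.surj v with h1 | ⟨j, h1⟩
  · exact Or.inl h1
  · exact Or.inr ⟨π.symm j, by rw [Equiv.apply_symm_apply]; exact h1⟩

/-- The even set of a pair with the same boundary. -/
def Phi (p q m : ZMod n → E) (π : Equiv.Perm (ZMod n)) (X Y : Finset (ZMod n)) : Finset E :=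
  X.image p ∪ Y.image (fun i => q (π i)) ∪ (bd (fs n) X).image m

lemma p_mem (h : G.PermData w n a b p q m π) {X Y : Finset (ZMod n)} {i : ZMod n} :
    p i ∈ Phi p q m π X Y ↔ i ∈ X := by
  unfold Phi
  rw [Finset.mem_union, Finset.mem_union, Finset.mem_image, Finset.mem_image, Finset.mem_image]
  constructor
  · rintro ((⟨j, hj, h1⟩ | ⟨j, hj, h1⟩) | ⟨j, hj, h1⟩)
    · rw [← Cyc4X.p_inj h h1]
      exact hj
    · exact absurd h1.symm (Cyc4X.p_ne_q h _ _)
    · exact absurd h1 (Cyc4X.m_ne_p h _ _)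
  · intro hi
    exact Or.inl (Or.inl ⟨i, hi, rfl⟩)

lemma q_mem (h : G.PermData w n a b p q m π) {X Y : Finset (ZMod n)} {i : ZMod n} :
    q (π i) ∈ Phi p q m π X Y ↔ i ∈ Y := by
  unfold Phi
  rw [Finset.mem_union, Finset.mem_union, Finset.mem_image, Finset.mem_image, Finset.mem_image]
  constructor
  · rintro ((⟨j, hj, h1⟩ | ⟨j, hj, h1⟩) | ⟨j, hj, h1⟩)
    · exact absurd h1 (Cyc4X.p_ne_q h _ _)
    · have h2 := Cyc4X.p_inj (Cyc4X.swap h) h1
      rw [← π.injective h2]
      exact hj
    · have h2 := Cyc4X.m_ne_p (Cyc4X.swap h) (π j) (π i)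
      simp only [Equiv.symm_apply_apply] at h2
      exact absurd h1 h2
  · intro hi
    exact Or.inl (Or.inr ⟨i, hi, rfl⟩)

lemma m_mem (h : G.PermData w n a b p q m π) {X Y : Finset (ZMod n)} {i : ZMod n} :
    m i ∈ Phi p q m π X Y ↔ i ∈ bd (fs n) X := by
  unfold Phi
  rw [Finset.mem_union, Finset.mem_union, Finset.mem_image, Finset.mem_image, Finset.mem_image]
  constructor
  · rintro ((⟨j, hj, h1⟩ | ⟨j, hj, h1⟩) | ⟨j, hj, h1⟩)
    · exact absurd h1.symm (Cyc4X.m_ne_p h _ _)
    · have h2 := Cyc4X.m_ne_p (Cyc4X.swap h) (π i) (π j)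
      simp only [Equiv.symm_apply_apply] at h2
      exact absurd h1.symm h2
    · rw [← Cyc4X.m_inj h h1]
      exact hj
  · intro hi
    exact Or.inr ⟨i, hi, rfl⟩

lemma even_phi (h : G.PermData w n a b p q m π) {X Y : Finset (ZMod n)}
    (hXY : bd (fs n) X = bd (gs π) Y) : G.IsEven (Phi p q m π X Y) := by
  intro v
  rcases deg_ab h v with ⟨i, rfl⟩ | ⟨i, rfl⟩
  · rw [deg_a h]
    simp only [p_mem h, m_mem h, mem_bd, fs_symm]
    by_cases h1 : i ∈ X <;> by_cases h2 : i - 1 ∈ X <;> simp [h1, h2]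
  · rw [deg_b h]
    have h3 : π i - 1 = π ((gs π).symm i) := by rw [gs_symm, Equiv.apply_symm_apply]
    rw [h3]
    simp only [q_mem h, m_mem h, hXY, mem_bd]
    by_cases h1 : i ∈ Y <;> by_cases h2 : (gs π).symm i ∈ Y <;> simp [h1, h2]

lemma hw (h : G.PermData w n a b p q m π) (e : E) : w e = 1 ∨ w e = 2 := by
  rcases h.surjE e with ⟨j, rfl⟩ | ⟨j, rfl⟩ | ⟨j, rfl⟩
  · exact Or.inl (h.wp j)
  · exact Or.inl (h.wq j)
  · exact Or.inr (h.wm j)

lemma hd (h : G.PermData w n a b p q m π) (v : V) :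
    G.deg (two w) v = 1 ∧ G.deg (one w) v = 2 := by
  rcases deg_ab h v with ⟨i, rfl⟩ | ⟨i, rfl⟩
  · rw [deg_a h, deg_a h]
    simp only [AltX.mem_two, AltX.mem_one, h.wp, h.wm]
    decide
  · rw [deg_b h, deg_b h]
    simp only [AltX.mem_two, AltX.mem_one, h.wq, h.wm]
    decide

/-- An edge of an even subset is not a bridge. -/
lemma not_bridge {R Z : Finset E} (hZ : G.IsEven Z) (hZR : Z ⊆ R) {e : E} (he : e ∈ Z) :
    ¬ G.IsBridge R e := by
  intro hb
  obtain ⟨S, hS⟩ := G.isBridge_iff.mp hb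
  have h1 : Z ∩ G.cut S = {e} := by
    apply Finset.Subset.antisymm
    · rw [← hS]
      exact Finset.inter_subset_inter_right hZR
    · rw [Finset.singleton_subset_iff, Finset.mem_inter]
      refine ⟨he, ?_⟩
      have h2 : e ∈ R ∩ G.cut S := by
        rw [hS]
        exact Finset.mem_singleton_self e
      exact (Finset.mem_inter.1 h2).2
  have h2 := hZ.card_inter_cut G S
  rw [h1, Finset.card_singleton] at h2
  exact absurd h2 (by decide)

lemma phi_disj (h : G.PermData w n a b p q m π) {X Y A B : Finset (ZMod n)}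
    (hX : Disjoint X A) (hY : Disjoint Y B) {C : Finset E} (hC : C ⊆ Phi p q m π A B) :
    Phi p q m π X Y ⊆ rest w C := by
  intro e he
  rw [rest, Finset.mem_sdiff, Finset.mem_inter, AltX.mem_one]
  refine ⟨Finset.mem_univ _, ?_⟩
  rintro ⟨h1, h2⟩
  have h3 := hC h1
  rcases h.surjE e with ⟨j, rfl⟩ | ⟨j, rfl⟩ | ⟨j, rfl⟩
  · rw [p_mem h] at he h3
    exact Finset.disjoint_left.1 hX he h3
  · obtain ⟨i, rfl⟩ := π.surjective j
    rw [q_mem h] at he h3
    exact Finset.disjoint_left.1 hY he h3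
  · rw [h.wm] at h2
    omega

lemma nn (h : G.PermData w n a b p q m π) (hm : G.MinContra w) : NN (fs n) (gs π) := by
  rintro A B ⟨hA, hcert⟩
  have hev : G.IsEven (Phi p q m π A B) := even_phi h hA.bd
  obtain ⟨L, hL, hc⟩ := a_BDeco V E G _ hev
  obtain ⟨v0, hv0⟩ := hA.ne
  have h1 : 0 < L.countP (fun C => decide (p v0 ∈ C)) := by
    rw [hc, chi, if_pos ((p_mem h).2 hv0)]
    exact Nat.one_pos
  obtain ⟨C, hCL, -⟩ := List.countP_pos_iff.1 h1
  obtain ⟨hCc, hCD⟩ := hL C hCL
  have hCev : G.IsEven C := hCc.isEven G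
  -- the circuit is alternating
  have halt : G.IsAlt w C := by
    refine ⟨hCc, ?_⟩
    intro v hv
    rcases deg_ab h v with ⟨i, rfl⟩ | ⟨i, rfl⟩
    · rw [deg_a h] at hv ⊢
      have e1 : ¬ (p i ∈ C ∧ p (i - 1) ∈ C) := by
        rintro ⟨e1, e2⟩
        have e3 := (p_mem h).1 (hCD e1)
        have e4 := (p_mem h).1 (hCD e2)
        have e5 := hA.indA _ e4
        rw [fs_apply, sub_add_cancel] at e5
        exact e5 e3
      have e2 : ∀ j, p j ∉ C ∩ two w := by
        intro j hj
        rw [Finset.mem_inter, AltX.mem_two, h.wp] at hj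
        omega
      rw [if_neg (e2 _), if_neg (e2 _)]
      by_cases e3 : m i ∈ C
      · rw [if_pos (Finset.mem_inter.2 ⟨e3, AltX.mem_two.2 (h.wm i)⟩)]
      · exfalso
        rw [if_neg e3] at hv
        by_cases e4 : p i ∈ C <;> by_cases e5 : p (i - 1) ∈ C <;> simp [e4, e5] at hv e1
    · rw [deg_b h] at hv ⊢
      have h3 : π i - 1 = π ((gs π).symm i) := by rw [gs_symm, Equiv.apply_symm_apply]
      rw [h3] at hv ⊢
      have e1 : ¬ (q (π i) ∈ C ∧ q (π ((gs π).symm i)) ∈ C) := by
        rintro ⟨e1, e2⟩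
        have e3 := (q_mem h).1 (hCD e1)
        have e4 := (q_mem h).1 (hCD e2)
        have e5 := hA.indB _ e4
        rw [Equiv.apply_symm_apply] at e5
        exact e5 e3
      have e2 : ∀ j, q j ∉ C ∩ two w := by
        intro j hj
        rw [Finset.mem_inter, AltX.mem_two, h.wq] at hj
        omega
      rw [if_neg (e2 _), if_neg (e2 _)]
      by_cases e3 : m i ∈ C
      · rw [if_pos (Finset.mem_inter.2 ⟨e3, AltX.mem_two.2 (h.wm i)⟩)]
      · exfalso
        rw [if_neg e3] at hv
        by_cases e4 : q (π i) ∈ C <;> by_cases e5 : q (π ((gs π).symm i)) ∈ C <;>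
          simp [e4, e5] at hv e1
  -- the rest is bridgeless
  have hbr : G.Bridgeless (rest w C) := by
    intro e he
    have hbd : bd (fs n) Aᶜ = bd (gs π) Bᶜ := by rw [bd_compl, bd_compl, hA.bd]
    have key1 : e ∉ Phi p q m π Aᶜ Bᶜ := by
      intro h2
      exact not_bridge (even_phi h hbd)
        (phi_disj h disjoint_compl_left disjoint_compl_left hCD) h2 he
    have key2 : w e = 1 → e ∉ Phi p q m π A B := by
      intro hwe h2
      have h3 : e ∉ C := by
        intro h3
        have h4 := he.1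
        rw [rest, Finset.mem_sdiff, Finset.mem_inter, AltX.mem_one] at h4
        exact h4.2 ⟨h3, hwe⟩
      refine not_bridge (IsEven.sdiff G hev hCev hCD) ?_ (Finset.mem_sdiff.2 ⟨h2, h3⟩) he
      intro e' he'
      rw [Finset.mem_sdiff] at he'
      rw [rest, Finset.mem_sdiff, Finset.mem_inter]
      exact ⟨Finset.mem_univ _, fun h4 => he'.2 h4.1⟩
    rcases h.surjE e with ⟨j, rfl⟩ | ⟨j, rfl⟩ | ⟨j, rfl⟩
    · have h2 := key2 (h.wp j)
      rw [p_mem h] at h2 key1
      exact key1 (Finset.mem_compl.2 h2)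
    · obtain ⟨i, rfl⟩ := π.surjective j
      have h2 := key2 (h.wq _)
      rw [q_mem h] at h2 key1
      exact key1 (Finset.mem_compl.2 h2)
    · obtain ⟨X, Y, hX, hY, hXY, hj⟩ := hcert j
      exact not_bridge (even_phi h hXY) (phi_disj h hX hY hCD) ((m_mem h).2 hj) he
  exact hm.2.2.2.1 C (((t_Alt V E G w (hw h) (hd h)).1 C).2 ⟨halt, hbr⟩)

end PGDictX

open PG PGDictX in
/-- The main theorem for the compact model implies the main theorem for minimal contra pairs. -/
theorem main_of_pg (hPN : ∀ (V : Type) [Fintype V] [DecidableEq V] (f g : Equiv.Perm V),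
    Cyc f → Cyc g → Odd (Fintype.card V) → 3 ≤ Fintype.card V → NN f g → Fintype.card V = 5) :
    Stmt_Main := by
  intro V E _ _ _ _ G w hm n a b p q m π h
  have hn : NeZero n := ⟨by have := h.five; omega⟩
  have h1 := hPN (ZMod n) (fs n) (gs π) cyc_fs (cyc_gs π) (by rw [ZMod.card]; exact h.odd)
    (by rw [ZMod.card]; have := h.five; omega) (nn h hm)
  rwa [ZMod.card] at h1

/-- Q1 follows from the main theorem for the compact model. -/
theorem q1_of_pg (hPN : ∀ (V : Type) [Fintype V] [DecidableEq V] (f g : Equiv.Perm V),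
    PG.Cyc f → PG.Cyc g → Odd (Fintype.card V) → 3 ≤ Fintype.card V → PG.NN f g →
    Fintype.card V = 5) : Q1 :=
  q1_of_main (main_of_pg hPN)

end MGraph

end Pool.GOD
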