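import Pool.Agent.GOD.PG

/-!
The 4-cut lemma in the compact model: a minimal counterexample has no proper set of at least two
matching edges which is an interval on both circuits.
-/

set_option autoImplicit false
set_option linter.unusedSectionVars false

namespace Pool.GOD.PG

section

variable {V : Type*} [Fintype V] [DecidableEq V] {f g : Equiv.Perm V}

/-- `P` is an interval of `f` which is entered from `l` and left at `r`; `c` is the parity of the
position. -/
structure Blk (f : Equiv.Perm V) (P : Finset V) (c : V → Prop) (l r : V) : Prop where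
  hl : l ∉ P
  hfl : f l ∈ P
  hr : r ∈ P
  hfr : f r ∉ P
  ul : ∀ v, v ∉ P → f v ∈ P → v = l
  ur : ∀ v, v ∈ P → f v ∉ P → v = r
  cl : ¬ c (f l)
  cr : c r
  cc : ∀ v, v ∈ P → f v ∈ P → (c (f v) ↔ ¬ c v)

/-- Skip the interval. -/
def skip (f : Equiv.Perm V) (l r : V) : Equiv.Perm V := f * Equiv.swap l r

lemma skip_left (l r : V) : skip f l r l = f r := by
  simp [skip]

lemma skip_right (l r : V) : skip f l r r = f l := by
  simp [skip]

lemma skip_of_ne {l r v : V} (h1 : v ≠ l) (h2 : v ≠ r) : skip f l r v = f v := by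
  simp [skip, Equiv.swap_apply_of_ne_of_ne h1 h2]

variable {P : Finset V} {c : V → Prop} {l r : V}

lemma Blk.skip_mem (h : Blk f P c l r) (v : V) : skip f l r v ∉ P ↔ v ∉ P := by
  by_cases h1 : v = l
  · subst h1
    rw [skip_left]
    exact ⟨fun _ => h.hl, fun _ => h.hfr⟩
  · by_cases h2 : v = r
    · subst h2
      rw [skip_right]
      exact ⟨fun h3 => absurd h.hfl h3, fun h3 => absurd h.hr h3⟩
    · rw [skip_of_ne h1 h2]
      constructor
      · intro h3 h4
        exact h2 (h.ur v h4 h3)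
      · intro h3 h4
        exact h1 (h.ul v h3 h4)

/-- The successor map on the complement of the interval. -/
def Blk.out (h : Blk f P c l r) : Equiv.Perm {v // v ∉ P} :=
  (skip f l r).subtypePerm h.skip_mem

lemma Blk.out_coe (h : Blk f P c l r) (v : {v // v ∉ P}) : (h.out v : V) = skip f l r v := rfl

lemma Blk.out_l (h : Blk f P c l r) : (h.out ⟨l, h.hl⟩ : V) = f r := by
  rw [h.out_coe, skip_left]

lemma Blk.out_ne (h : Blk f P c l r) {v : {v // v ∉ P}} (hv : (v : V) ≠ l) :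
    (h.out v : V) = f v := by
  rw [h.out_coe, skip_of_ne hv]
  intro h2
  exact v.2 (h2 ▸ h.hr)

lemma Blk.out_ne_mem (h : Blk f P c l r) {v : V} (hv : v ∉ P) (h1 : v ≠ l) : f v ∉ P :=
  fun h2 => h1 (h.ul v hv h2)

/-- The complement of the interval is a cycle. -/
lemma Blk.cyc (h : Blk f P c l r) (hf : Cyc f) : Cyc h.out := by
  intro S hS hinv
  classical
  let T : Finset V := Finset.univ.filter (fun v => (∃ hv : v ∉ P, (⟨v, hv⟩ : {v // v ∉ P}) ∈ S) ∨
    (v ∈ P ∧ (⟨l, h.hl⟩ : {v // v ∉ P}) ∈ S))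
  have hT : T = Finset.univ := by
    apply hf
    · obtain ⟨v, hv⟩ := hS
      exact ⟨v, by simp only [T, Finset.mem_filter, Finset.mem_univ, true_and]; exact Or.inl ⟨v.2, hv⟩⟩
    · intro v hv
      simp only [T, Finset.mem_filter, Finset.mem_univ, true_and] at hv ⊢
      rcases hv with ⟨hvP, hv⟩ | ⟨hvP, hl⟩
      · by_cases h1 : v = l
        · subst h1
          exact Or.inr ⟨h.hfl, hv⟩
        · left
          refine ⟨h.out_ne_mem hvP h1, ?_⟩
          have h2 := hinv _ hv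
          have h3 : h.out ⟨v, hvP⟩ = ⟨f v, h.out_ne_mem hvP h1⟩ := Subtype.ext (h.out_ne h1)
          rwa [h3] at h2
      · by_cases h1 : f v ∈ P
        · exact Or.inr ⟨h1, hl⟩
        · left
          refine ⟨h1, ?_⟩
          have h4 := h.ur v hvP h1
          have h2 := hinv _ hl
          have h3 : h.out ⟨l, h.hl⟩ = ⟨f v, h1⟩ := by
            apply Subtype.ext
            rw [h.out_l]
            exact congrArg f h4.symm
          rwa [h3] at h2
  ext v
  simp only [Finset.mem_univ, iff_true]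
  have h1 : (v : V) ∈ T := by
    rw [hT]
    exact Finset.mem_univ _
  simp only [T, Finset.mem_filter, Finset.mem_univ, true_and] at h1
  rcases h1 with ⟨_, h2⟩ | ⟨h2, _⟩
  · exact h2
  · exact absurd h2 v.2

/-- The boundary outside of the interval. -/
lemma Blk.mem_bd_out (h : Blk f P c l r) {S : Finset V} {S1 : Finset {v // v ∉ P}}
    (hS : ∀ (v : V) (hv : v ∉ P), v ∈ S ↔ (⟨v, hv⟩ : {v // v ∉ P}) ∈ S1) (hlr : l ∈ S ↔ r ∈ S)
    {v : V} (hv : v ∉ P) : v ∈ bd f S ↔ (⟨v, hv⟩ : {v // v ∉ P}) ∈ bd h.out S1 := by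
  rw [mem_bd, mem_bd, ← hS v hv]
  have key : (f.symm v ∈ S ↔ h.out.symm ⟨v, hv⟩ ∈ S1) := by
    by_cases hu : f.symm v ∈ P
    · have h1 : f.symm v = r := h.ur _ hu (by rwa [Equiv.apply_symm_apply])
      have h2 : h.out.symm ⟨v, hv⟩ = ⟨l, h.hl⟩ := by
        rw [Equiv.symm_apply_eq]
        apply Subtype.ext
        rw [h.out_l, ← h1, Equiv.apply_symm_apply]
      rw [h2, ← hS l h.hl, h1, hlr]
    · have h1 : f.symm v ≠ l := by
        intro h1
        apply hv
        have := h.hfl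
        rwa [← h1, Equiv.apply_symm_apply] at this
      have h2 : h.out.symm ⟨v, hv⟩ = ⟨f.symm v, hu⟩ := by
        rw [Equiv.symm_apply_eq]
        apply Subtype.ext
        rw [h.out_ne (v := ⟨f.symm v, hu⟩) h1, Equiv.apply_symm_apply]
      rw [h2, ← hS _ hu]
  rw [key]

open Classical in
/-- Lift without using the matching edges of the interval. -/
noncomputable def lnone (P : Finset V) (l : V) (S1 : Finset {v // v ∉ P}) : Finset V :=
  Finset.univ.filter (fun v => (∃ hv : v ∉ P, (⟨v, hv⟩ : {v // v ∉ P}) ∈ S1) ∨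
    (v ∈ P ∧ ∃ hl : l ∉ P, (⟨l, hl⟩ : {v // v ∉ P}) ∈ S1))

open Classical in
/-- Lift using all the matching edges of the interval. -/
noncomputable def lfull (P : Finset V) (c : V → Prop) (l : V) (S1 : Finset {v // v ∉ P}) :
    Finset V :=
  Finset.univ.filter (fun v => (∃ hv : v ∉ P, (⟨v, hv⟩ : {v // v ∉ P}) ∈ S1) ∨
    (v ∈ P ∧ (c v ↔ ∃ hl : l ∉ P, (⟨l, hl⟩ : {v // v ∉ P}) ∈ S1)))

lemma mem_lnone_out {S1 : Finset {v // v ∉ P}} (v : V) (hv : v ∉ P) :
    v ∈ lnone P l S1 ↔ (⟨v, hv⟩ : {v // v ∉ P}) ∈ S1 := by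
  simp [lnone, hv]

lemma mem_lnone_in {S1 : Finset {v // v ∉ P}} (hl : l ∉ P) {v : V} (hv : v ∈ P) :
    v ∈ lnone P l S1 ↔ (⟨l, hl⟩ : {v // v ∉ P}) ∈ S1 := by
  simp [lnone, hv, hl]

lemma mem_lfull_out {S1 : Finset {v // v ∉ P}} (v : V) (hv : v ∉ P) :
    v ∈ lfull P c l S1 ↔ (⟨v, hv⟩ : {v // v ∉ P}) ∈ S1 := by
  simp [lfull, hv]

lemma mem_lfull_in {S1 : Finset {v // v ∉ P}} (hl : l ∉ P) {v : V} (hv : v ∈ P) :
    v ∈ lfull P c l S1 ↔ (c v ↔ (⟨l, hl⟩ : {v // v ∉ P}) ∈ S1) := by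
  simp [lfull, hv, hl]

lemma Blk.bd_lnone_out (h : Blk f P c l r) (S1 : Finset {v // v ∉ P}) {v : V} (hv : v ∉ P) :
    v ∈ bd f (lnone P l S1) ↔ (⟨v, hv⟩ : {v // v ∉ P}) ∈ bd h.out S1 :=
  h.mem_bd_out mem_lnone_out (by rw [mem_lnone_out l h.hl, mem_lnone_in h.hl h.hr]) hv

lemma Blk.bd_lfull_out (h : Blk f P c l r) (S1 : Finset {v // v ∉ P}) {v : V} (hv : v ∉ P) :
    v ∈ bd f (lfull P c l S1) ↔ (⟨v, hv⟩ : {v // v ∉ P}) ∈ bd h.out S1 :=
  h.mem_bd_out mem_lfull_out (by
    rw [mem_lfull_out l h.hl, mem_lfull_in h.hl h.hr]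
    simp [h.cr]) hv

lemma Blk.bd_lnone_in (h : Blk f P c l r) (S1 : Finset {v // v ∉ P}) {v : V} (hv : v ∈ P) :
    v ∉ bd f (lnone P l S1) := by
  rw [mem_bd, not_not, mem_lnone_in h.hl hv]
  by_cases hu : f.symm v ∈ P
  · rw [mem_lnone_in h.hl hu]
  · have h1 : f.symm v = l := h.ul _ hu (by rwa [Equiv.apply_symm_apply])
    rw [h1, mem_lnone_out l h.hl]

lemma Blk.bd_lfull_in (h : Blk f P c l r) (S1 : Finset {v // v ∉ P}) {v : V} (hv : v ∈ P) :
    v ∈ bd f (lfull P c l S1) := by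
  rw [mem_bd, mem_lfull_in h.hl hv]
  by_cases hu : f.symm v ∈ P
  · rw [mem_lfull_in h.hl hu]
    have h1 := h.cc _ hu (by rwa [Equiv.apply_symm_apply])
    rw [Equiv.apply_symm_apply] at h1
    tauto
  · have h1 : f.symm v = l := h.ul _ hu (by rwa [Equiv.apply_symm_apply])
    have h2 : ¬ c v := by
      have := h.cl
      rwa [← h1, Equiv.apply_symm_apply] at this
    rw [h1, mem_lfull_out l h.hl]
    tauto

lemma Blk.ind_lnone (h : Blk f P c l r) {S1 : Finset {v // v ∉ P}}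
    (hl : (⟨l, h.hl⟩ : {v // v ∉ P}) ∉ S1) (hi : ∀ v ∈ S1, h.out v ∉ S1) :
    ∀ v ∈ lnone P l S1, f v ∉ lnone P l S1 := by
  intro v hv
  by_cases hvP : v ∈ P
  · exact absurd ((mem_lnone_in h.hl hvP).mp hv) hl
  · have hv1 := (mem_lnone_out v hvP).mp hv
    have h1 : v ≠ l := by
      rintro rfl
      exact hl hv1
    rw [mem_lnone_out _ (h.out_ne_mem hvP h1)]
    have h2 := hi _ hv1
    have h3 : h.out ⟨v, hvP⟩ = ⟨f v, h.out_ne_mem hvP h1⟩ := Subtype.ext (h.out_ne h1)
    rwa [h3] at h2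

lemma Blk.ind_lfull (h : Blk f P c l r) {S1 : Finset {v // v ∉ P}}
    (hi : ∀ v ∈ S1, h.out v ∉ S1) : ∀ v ∈ lfull P c l S1, f v ∉ lfull P c l S1 := by
  intro v hv
  by_cases hvP : v ∈ P
  · have hv1 := (mem_lfull_in h.hl hvP).mp hv
    by_cases h1 : f v ∈ P
    · rw [mem_lfull_in h.hl h1, h.cc v hvP h1]
      tauto
    · have h2 := h.ur v hvP h1
      have h3 : (⟨l, h.hl⟩ : {v // v ∉ P}) ∈ S1 := hv1.mp (h2 ▸ h.cr)
      rw [mem_lfull_out _ h1]
      have h4 := hi _ h3
      have h5 : h.out ⟨l, h.hl⟩ = ⟨f v, h1⟩ := by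
        apply Subtype.ext
        rw [h.out_l]
        exact congrArg f h2.symm
      rwa [h5] at h4
  · have hv1 := (mem_lfull_out v hvP).mp hv
    by_cases h1 : v = l
    · subst h1
      rw [mem_lfull_in h.hl h.hfl]
      have := h.cl
      tauto
    · rw [mem_lfull_out _ (h.out_ne_mem hvP h1)]
      have h2 := hi _ hv1
      have h3 : h.out ⟨v, hvP⟩ = ⟨f v, h.out_ne_mem hvP h1⟩ := Subtype.ext (h.out_ne h1)
      rwa [h3] at h2

variable {c' : V → Prop} {l' r' : V}

/-- Replacing the even interval by two edges preserves `NN`. -/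
theorem NN.out (hN : NN f g) (hf : Blk f P c l r) (hg : Blk g P c' l' r') :
    NN hf.out hg.out := by
  rintro A1 B1 ⟨hA, hC⟩
  have disn : ∀ (m : V) (hm : m ∉ P) (S T : Finset {v // v ∉ P}) (U : Finset V), Disjoint S T →
      (∀ (v : V) (hv : v ∉ P), v ∈ U ↔ (⟨v, hv⟩ : {v // v ∉ P}) ∈ T) →
      (⟨m, hm⟩ : {v // v ∉ P}) ∉ S → Disjoint (lnone P m S) U := by
    intro m hm S T U h1 h2 h3
    rw [Finset.disjoint_left] at h1 ⊢
    intro v hv hvU
    by_cases hvP : v ∈ P
    · exact h3 ((mem_lnone_in hm hvP).mp hv)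
    · exact h1 ((mem_lnone_out v hvP).mp hv) ((h2 v hvP).mp hvU)
  by_cases hu : (⟨l, hf.hl⟩ : {v // v ∉ P}) ∈ A1 ∨ (⟨l', hg.hl⟩ : {v // v ∉ P}) ∈ B1
  · -- the lift uses all matching edges of `P`
    have hbd : bd f (lfull P c l A1) = bd g (lfull P c' l' B1) := by
      ext v
      by_cases hvP : v ∈ P
      · simp only [hf.bd_lfull_in A1 hvP, hg.bd_lfull_in B1 hvP]
      · rw [hf.bd_lfull_out A1 hvP, hg.bd_lfull_out B1 hvP, hA.bd]
    refine hN (lfull P c l A1) (lfull P c' l' B1) ⟨⟨?_, hf.ind_lfull hA.indA,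
      hg.ind_lfull hA.indB, hbd⟩, ?_⟩
    · obtain ⟨v, hv⟩ := hA.ne
      exact ⟨v, (mem_lfull_out (v : V) v.2).mpr hv⟩
    · intro z
      by_cases hz : z ∈ P
      · exact cert_of_mem hbd (hf.bd_lfull_in A1 hz)
      · obtain ⟨X, Y, hX, hY, hXY, hzX⟩ := hC ⟨z, hz⟩
        have hX' := Finset.disjoint_left.mp hX
        have hY' := Finset.disjoint_left.mp hY
        by_cases hw : (⟨l, hf.hl⟩ : {v // v ∉ P}) ∈ X ∨ (⟨l', hg.hl⟩ : {v // v ∉ P}) ∈ Y
        · refine ⟨lfull P c l X, lfull P c' l' Y, ?_, ?_, ?_, ?_⟩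
          · rw [Finset.disjoint_left]
            intro v hv hv'
            by_cases hvP : v ∈ P
            · have e1 := (mem_lfull_in hf.hl hvP).mp hv
              have e2 := (mem_lfull_in hf.hl hvP).mp hv'
              have e3 := @hX' ⟨l, hf.hl⟩
              have e4 := @hY' ⟨l', hg.hl⟩
              tauto
            · exact hX' ((mem_lfull_out v hvP).mp hv) ((mem_lfull_out v hvP).mp hv')
          · rw [Finset.disjoint_left]
            intro v hv hv'
            by_cases hvP : v ∈ P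
            · have e1 := (mem_lfull_in hg.hl hvP).mp hv
              have e2 := (mem_lfull_in hg.hl hvP).mp hv'
              have e3 := @hX' ⟨l, hf.hl⟩
              have e4 := @hY' ⟨l', hg.hl⟩
              tauto
            · exact hY' ((mem_lfull_out v hvP).mp hv) ((mem_lfull_out v hvP).mp hv')
          · ext v
            by_cases hvP : v ∈ P
            · simp only [hf.bd_lfull_in X hvP, hg.bd_lfull_in Y hvP]
            · rw [hf.bd_lfull_out X hvP, hg.bd_lfull_out Y hvP, hXY]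
          · rw [hf.bd_lfull_out X hz]
            exact hzX
        · push Not at hw
          refine ⟨lnone P l X, lnone P l' Y,
            disn l hf.hl X A1 _ hX (fun v hv => mem_lfull_out v hv) hw.1,
            disn l' hg.hl Y B1 _ hY (fun v hv => mem_lfull_out v hv) hw.2, ?_, ?_⟩
          · ext v
            by_cases hvP : v ∈ P
            · simp only [hf.bd_lnone_in X hvP, hg.bd_lnone_in Y hvP]
            · rw [hf.bd_lnone_out X hvP, hg.bd_lnone_out Y hvP, hXY]
          · rw [hf.bd_lnone_out X hz]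
            exact hzX
  · push Not at hu
    have hbd : bd f (lnone P l A1) = bd g (lnone P l' B1) := by
      ext v
      by_cases hvP : v ∈ P
      · simp only [hf.bd_lnone_in A1 hvP, hg.bd_lnone_in B1 hvP]
      · rw [hf.bd_lnone_out A1 hvP, hg.bd_lnone_out B1 hvP, hA.bd]
    refine hN (lnone P l A1) (lnone P l' B1) ⟨⟨?_, hf.ind_lnone hu.1 hA.indA,
      hg.ind_lnone hu.2 hA.indB, hbd⟩, ?_⟩
    · obtain ⟨v, hv⟩ := hA.ne
      exact ⟨v, (mem_lnone_out (v : V) v.2).mpr hv⟩
    · have hPn : ∀ (m : V) (hm : m ∉ P) (S : Finset {v // v ∉ P}),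
          (⟨m, hm⟩ : {v // v ∉ P}) ∉ S → ∀ v ∈ lnone P m S, v ∉ P := by
        intro m hm S h1 v hv hvP
        exact h1 ((mem_lnone_in hm hvP).mp hv)
      intro z
      by_cases hz : z ∈ P
      · refine ⟨lfull P c l ∅, lfull P c' l' ∅, ?_, ?_, ?_, hf.bd_lfull_in ∅ hz⟩
        · rw [Finset.disjoint_right]
          intro v hv hv'
          rw [mem_lfull_out v (hPn l hf.hl A1 hu.1 v hv)] at hv'
          exact absurd hv' (Finset.notMem_empty _)
        · rw [Finset.disjoint_right]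
          intro v hv hv'
          rw [mem_lfull_out v (hPn l' hg.hl B1 hu.2 v hv)] at hv'
          exact absurd hv' (Finset.notMem_empty _)
        · ext v
          by_cases hvP : v ∈ P
          · simp only [hf.bd_lfull_in ∅ hvP, hg.bd_lfull_in ∅ hvP]
          · rw [hf.bd_lfull_out ∅ hvP, hg.bd_lfull_out ∅ hvP, bd_empty, bd_empty]
      · obtain ⟨X, Y, hX, hY, hXY, hzX⟩ := hC ⟨z, hz⟩
        refine ⟨lnone P l X, lnone P l' Y, ?_, ?_, ?_, ?_⟩
        · rw [Finset.disjoint_left]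
          intro v hv hv'
          have hvP := hPn l hf.hl A1 hu.1 v hv'
          exact Finset.disjoint_left.mp hX ((mem_lnone_out v hvP).mp hv)
            ((mem_lnone_out v hvP).mp hv')
        · rw [Finset.disjoint_left]
          intro v hv hv'
          have hvP := hPn l' hg.hl B1 hu.2 v hv'
          exact Finset.disjoint_left.mp hY ((mem_lnone_out v hvP).mp hv)
            ((mem_lnone_out v hvP).mp hv')
        · ext v
          by_cases hvP : v ∈ P
          · simp only [hf.bd_lnone_in X hvP, hg.bd_lnone_in Y hvP]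
          · rw [hf.bd_lnone_out X hvP, hg.bd_lnone_out Y hvP, hXY]
        · rw [hf.bd_lnone_out X hz]
          exact hzX

/-- The numbers of entries and exits of a set coincide. -/
lemma card_exit (f : Equiv.Perm V) (P : Finset V) :
    (Finset.univ.filter (fun v => v ∉ P ∧ f v ∈ P)).card =
      (Finset.univ.filter (fun v => v ∈ P ∧ f v ∉ P)).card := by
  have h1 : (Finset.univ.filter (fun v => v ∈ P ∧ f v ∉ P)).card +
      (Finset.univ.filter (fun v => v ∈ P ∧ f v ∈ P)).card = P.card := by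
    rw [← Finset.card_union_of_disjoint]
    · congr 1
      ext v
      simp only [Finset.mem_union, Finset.mem_filter, Finset.mem_univ, true_and]
      tauto
    · rw [Finset.disjoint_left]
      intro v h1 h2
      simp only [Finset.mem_filter, Finset.mem_univ, true_and] at h1 h2
      exact h1.2 h2.2
  have h2 : (Finset.univ.filter (fun v => v ∉ P ∧ f v ∈ P)).card +
      (Finset.univ.filter (fun v => v ∈ P ∧ f v ∈ P)).card = P.card := by
    rw [← Finset.card_union_of_disjoint]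
    · have h3 : Finset.univ.filter (fun v => v ∉ P ∧ f v ∈ P) ∪
          Finset.univ.filter (fun v => v ∈ P ∧ f v ∈ P) = P.image f.symm := by
        ext v
        simp only [Finset.mem_union, Finset.mem_filter, Finset.mem_univ, true_and,
          Finset.mem_image]
        constructor
        · intro h
          exact ⟨f v, by tauto, by simp⟩
        · rintro ⟨u, hu, rfl⟩
          rw [Equiv.apply_symm_apply]
          tauto
      rw [h3, Finset.card_image_of_injective _ f.symm.injective]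
    · rw [Finset.disjoint_left]
      intro v h1 h2
      simp only [Finset.mem_filter, Finset.mem_univ, true_and] at h1 h2
      exact h1.1 h2.1
  omega

/-- An even interval with its colouring. -/
lemma exists_blk (hf : Cyc f) {P : Finset V} (hP : ∃! v, v ∈ P ∧ f v ∉ P) (he : Even P.card) :
    ∃ (c : V → Prop) (l r : V), Blk f P c l r := by
  obtain ⟨r, ⟨hr, hfr⟩, hr'⟩ := hP
  have h1 : (Finset.univ.filter (fun v => v ∈ P ∧ f v ∉ P)).card = 1 := by
    rw [Finset.card_eq_one]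
    refine ⟨r, ?_⟩
    ext v
    simp only [Finset.mem_filter, Finset.mem_univ, true_and, Finset.mem_singleton]
    exact ⟨fun h => hr' v h, fun h => h ▸ ⟨hr, hfr⟩⟩
  rw [← card_exit, Finset.card_eq_one] at h1
  obtain ⟨l, hl⟩ := h1
  have hl1 : ∀ v, v ∉ P ∧ f v ∈ P ↔ v = l := by
    intro v
    have := congrArg (fun S => v ∈ S) hl
    simpa using this
  obtain ⟨hlP, hflP⟩ := (hl1 l).mpr rfl
  have hne : f r ≠ f l := fun h => hfr (h ▸ hflP)
  obtain ⟨X, hX1, hX2⟩ := hf.exists_bd l l (insert (f r) (P.erase (f l)))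
  have hcard : (insert (f r) (P.erase (f l))).card = P.card := by
    rw [Finset.card_insert_of_notMem (fun h => hfr (Finset.mem_of_mem_erase h)),
      Finset.card_erase_of_mem hflP]
    have : 0 < P.card := Finset.card_pos.mpr ⟨_, hr⟩
    omega
  rw [hcard] at hX2
  have hX : bd f X = insert (f r) (P.erase (f l)) := by
    rcases hX2 with h | h
    · exact h.2
    · exact absurd he h.1
  have hmem : ∀ v, v ∈ insert (f r) (P.erase (f l)) ↔ ¬ (v ∈ X ↔ f.symm v ∈ X) := by
    intro v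
    rw [← hX, mem_bd]
  have hout : ∀ v, v ∉ P → v ∉ X := by
    intro v
    refine hf.symm.induct (p := fun v => v ∉ P → v ∉ X) (a := l) (fun _ => hX1) ?_ v
    intro v hv hvP
    by_cases h2 : v ∈ P
    · have h3 : f.symm v = l := (hl1 _).mp ⟨hvP, by rwa [Equiv.apply_symm_apply]⟩
      rw [h3]
      exact hX1
    · have h3 : v ∉ insert (f r) (P.erase (f l)) := by
        rw [Finset.mem_insert, Finset.mem_erase]
        rintro (h4 | h4)
        · apply hvP
          rw [h4, Equiv.symm_apply_apply]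
          exact hr
        · exact h2 h4.2
      rw [hmem, not_not] at h3
      rw [← h3]
      exact hv h2
  refine ⟨fun v => v ∈ X, l, r, hlP, hflP, hr, hfr, fun v h2 h3 => (hl1 v).mp ⟨h2, h3⟩,
    fun v h2 h3 => hr' v ⟨h2, h3⟩, ?_, ?_, ?_⟩
  · intro h2
    have h3 : f l ∉ insert (f r) (P.erase (f l)) := by
      rw [Finset.mem_insert, Finset.mem_erase]
      rintro (h4 | h4)
      · exact hne h4.symm
      · exact h4.1 rfl
    rw [hmem, not_not, Equiv.symm_apply_apply] at h3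
    exact hX1 (h3.mp h2)
  · have h3 : f r ∈ insert (f r) (P.erase (f l)) := Finset.mem_insert_self _ _
    rw [hmem, Equiv.symm_apply_apply] at h3
    have h4 := hout (f r) hfr
    show r ∈ X
    tauto
  · intro v hv hfv
    have h3 : f v ∈ insert (f r) (P.erase (f l)) := by
      rw [Finset.mem_insert, Finset.mem_erase]
      exact Or.inr ⟨fun h => hlP (f.injective h ▸ hv), hfv⟩
    rw [hmem, Equiv.symm_apply_apply] at h3
    show f v ∈ X ↔ ¬ v ∈ X
    tauto

/-- A return of a cycle. -/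
lemma Cyc.card_le (hf : Cyc f) {a : V} {k : ℕ} (hk : 0 < k) (h : f^[k] a = a) :
    Fintype.card V ≤ k := by
  have h1 := hf ((Finset.range k).image (fun i => f^[i] a))
    ⟨a, Finset.mem_image.mpr ⟨0, Finset.mem_range.mpr hk, rfl⟩⟩ (by
      intro v hv
      obtain ⟨i, hi, rfl⟩ := Finset.mem_image.mp hv
      rw [Finset.mem_range] at hi
      rw [Finset.mem_image]
      by_cases h2 : i + 1 = k
      · refine ⟨0, Finset.mem_range.mpr hk, ?_⟩
        show a = f (f^[i] a)
        rw [← Function.iterate_succ_apply' f i a, show i.succ = k from h2, h]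
      · refine ⟨i + 1, Finset.mem_range.mpr (by omega), ?_⟩
        show f^[i + 1] a = f (f^[i] a)
        rw [Function.iterate_succ_apply'])
  rw [← Finset.card_univ, ← h1]
  exact Finset.card_image_le.trans (by rw [Finset.card_range])

/-- Cyclic enumeration of a 5-cycle. -/
lemma Cyc.five (hf : Cyc f) (hc : Fintype.card V = 5) (a : V) :
    ∃ x1 x2 x3 x4 : V, f a = x1 ∧ f x1 = x2 ∧ f x2 = x3 ∧ f x3 = x4 ∧ f x4 = a ∧
      a ≠ x1 ∧ a ≠ x2 ∧ a ≠ x3 ∧ a ≠ x4 ∧ x1 ≠ x2 ∧ x1 ≠ x3 ∧ x1 ≠ x4 ∧ x2 ≠ x3 ∧ x2 ≠ x4 ∧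
      x3 ≠ x4 ∧ ∀ v, v = a ∨ v = x1 ∨ v = x2 ∨ v = x3 ∨ v = x4 := by
  have hne : ∀ (b : V) (k : ℕ), 0 < k → k < 5 → f^[k] b ≠ b := by
    intro b k h1 h2 h3
    have := hf.card_le h1 h3
    omega
  have n1 : ∀ b, f b ≠ b := fun b => hne b 1 (by norm_num) (by norm_num)
  have n2 : ∀ b, f (f b) ≠ b := fun b => hne b 2 (by norm_num) (by norm_num)
  have n3 : ∀ b, f (f (f b)) ≠ b := fun b => hne b 3 (by norm_num) (by norm_num)
  have n4 : ∀ b, f (f (f (f b))) ≠ b := fun b => hne b 4 (by norm_num) (by norm_num)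
  have hcard : ({a, f a, f (f a), f (f (f a)), f (f (f (f a)))} : Finset V).card = 5 := by
    have m1 := n1 a
    have m2 := n2 a
    have m3 := n3 a
    have m4 := n4 a
    have m5 := n1 (f a)
    have m6 := n2 (f a)
    have m7 := n3 (f a)
    have m8 := n1 (f (f a))
    have m9 := n2 (f (f a))
    have m10 := n1 (f (f (f a)))
    rw [Finset.card_insert_of_notMem, Finset.card_insert_of_notMem, Finset.card_insert_of_notMem,
      Finset.card_insert_of_notMem, Finset.card_singleton]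
    · simp only [Finset.mem_singleton]
      exact m10.symm
    · simp only [Finset.mem_insert, Finset.mem_singleton, not_or]
      exact ⟨m8.symm, m9.symm⟩
    · simp only [Finset.mem_insert, Finset.mem_singleton, not_or]
      exact ⟨m5.symm, m6.symm, m7.symm⟩
    · simp only [Finset.mem_insert, Finset.mem_singleton, not_or]
      exact ⟨m1.symm, m2.symm, m3.symm, m4.symm⟩
  have huniv : ({a, f a, f (f a), f (f (f a)), f (f (f (f a)))} : Finset V) = Finset.univ := by
    rw [← Finset.card_eq_iff_eq_univ, hcard, hc]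
  have hall : ∀ v, v = a ∨ v = f a ∨ v = f (f a) ∨ v = f (f (f a)) ∨ v = f (f (f (f a))) := by
    intro v
    have h1 : v ∈ ({a, f a, f (f a), f (f (f a)), f (f (f (f a)))} : Finset V) := by
      rw [huniv]
      exact Finset.mem_univ v
    simpa using h1
  refine ⟨f a, f (f a), f (f (f a)), f (f (f (f a))), rfl, rfl, rfl, rfl, ?_, (n1 a).symm,
    (n2 a).symm, (n3 a).symm, (n4 a).symm, (n1 (f a)).symm, (n2 (f a)).symm, (n3 (f a)).symm,
    (n1 (f (f a))).symm, (n2 (f (f a))).symm, (n1 (f (f (f a)))).symm, hall⟩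
  rcases hall (f (f (f (f (f a))))) with h | h | h | h | h
  · exact h
  · exact absurd h (n4 (f a))
  · exact absurd h (n3 (f (f a)))
  · exact absurd h (n2 (f (f (f a))))
  · exact absurd h (n1 (f (f (f (f a)))))

/-- The other circuit of a system on five points. -/
lemma five_other {G : Equiv.Perm V} {a x1 x2 x3 x4 : V}
    (h0 : f a = x1) (h1 : f x1 = x2) (h2 : f x2 = x3) (h3 : f x3 = x4) (h4 : f x4 = a)
    (n01 : a ≠ x1) (n04 : a ≠ x4) (n12 : x1 ≠ x2) (n23 : x2 ≠ x3) (n34 : x3 ≠ x4)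
    (hall : ∀ v, v = a ∨ v = x1 ∨ v = x2 ∨ v = x3 ∨ v = x4)
    (g1 : ∀ v, G v ≠ v) (g2 : ∀ v, f v ≠ G v) (g3 : ∀ v, f (G v) ≠ v) :
    (G a = x2 ∧ G x1 = x3 ∧ G x2 = x4 ∧ G x3 = a ∧ G x4 = x1) ∨
      (G a = x3 ∧ G x1 = x4 ∧ G x2 = a ∧ G x3 = x1 ∧ G x4 = x2) := by
  have e0 : G a = x2 ∨ G a = x3 := by
    rcases hall (G a) with h | h | h | h | h
    · exact absurd h (g1 a)
    · exact absurd (h0.trans h.symm) (g2 a)
    · exact Or.inl h
    · exact Or.inr h
    · exact absurd (by rw [h, h4]) (g3 a)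
  have e1 : G x1 = x3 ∨ G x1 = x4 := by
    rcases hall (G x1) with h | h | h | h | h
    · exact absurd (by rw [h, h0]) (g3 x1)
    · exact absurd h (g1 x1)
    · exact absurd (h1.trans h.symm) (g2 x1)
    · exact Or.inl h
    · exact Or.inr h
  have e2 : G x2 = x4 ∨ G x2 = a := by
    rcases hall (G x2) with h | h | h | h | h
    · exact Or.inr h
    · exact absurd (by rw [h, h1]) (g3 x2)
    · exact absurd h (g1 x2)
    · exact absurd (h2.trans h.symm) (g2 x2)
    · exact Or.inl h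
  have e3 : G x3 = a ∨ G x3 = x1 := by
    rcases hall (G x3) with h | h | h | h | h
    · exact Or.inl h
    · exact Or.inr h
    · exact absurd (by rw [h, h2]) (g3 x3)
    · exact absurd h (g1 x3)
    · exact absurd (h3.trans h.symm) (g2 x3)
  have e4 : G x4 = x1 ∨ G x4 = x2 := by
    rcases hall (G x4) with h | h | h | h | h
    · exact absurd (h4.trans h.symm) (g2 x4)
    · exact Or.inl h
    · exact Or.inr h
    · exact absurd (by rw [h, h3]) (g3 x4)
    · exact absurd h (g1 x4)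
  have inj : ∀ {u v w : V}, G u = w → G v = w → u = v := fun h h' => G.injective (h.trans h'.symm)
  rcases e0 with e0 | e0
  · left
    have e4' : G x4 = x1 := e4.resolve_right (fun h => n04 (inj e0 h))
    have e3' : G x3 = a := e3.resolve_right (fun h => n34 (inj h e4'))
    have e2' : G x2 = x4 := e2.resolve_right (fun h => n23 (inj h e3'))
    have e1' : G x1 = x3 := e1.resolve_right (fun h => n12 (inj h e2'))
    exact ⟨e0, e1', e2', e3', e4'⟩
  · right
    have e1' : G x1 = x4 := e1.resolve_left (fun h => n01 (inj e0 h))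
    have e2' : G x2 = a := e2.resolve_left (fun h => n12 (inj e1' h))
    have e3' : G x3 = x1 := e3.resolve_left (fun h => n23 (inj e2' h))
    have e4' : G x4 = x2 := e4.resolve_left (fun h => n34 (inj e3' h))
    exact ⟨e0, e1', e2', e3', e4'⟩

lemma bd_pair {a b : V} (h : a ≠ b) :
    bd f {a, b} = symmDiff (symmDiff {a} {f a}) (symmDiff {b} {f b}) := by
  have h1 : ({a, b} : Finset V) = symmDiff {a} {b} := by
    ext v
    simp only [Finset.mem_insert, Finset.mem_singleton, Finset.mem_symmDiff]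
    by_cases h1 : v = a
    · subst h1
      simp [h]
    · simp [h1]
  rw [h1, bd_symmDiff, bd_singleton, bd_singleton]

/-- Sets closed under the edges outside of `A` are constant along the interval. -/
lemma Blk.const (h : Blk f P c l r) (hf : Cyc f) {A P0 : Finset V} (hA : ∀ v ∈ P, v ∉ A)
    (hl : l ∉ A) (h1 : ∀ v, v ∉ A → (v ∈ P0 ↔ f v ∈ P0)) :
    (∀ v ∈ P, (v ∈ P0 ↔ l ∈ P0)) ∧
      ∀ w : {v // v ∉ P}, (w : V) ∉ A → ((w : V) ∈ P0 ↔ (h.out w : V) ∈ P0) := by
  have h2 : ∀ v ∈ P, (v ∈ P0 ↔ l ∈ P0) := by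
    intro v
    refine hf.induct (p := fun v => v ∈ P → (v ∈ P0 ↔ l ∈ P0)) (a := f l)
      (fun _ => (h1 l hl).symm) ?_ v
    intro v hv hfv
    by_cases hvP : v ∈ P
    · rw [← h1 v (hA v hvP)]
      exact hv hvP
    · rw [h.ul v hvP hfv]
      exact (h1 l hl).symm
  refine ⟨h2, fun w hw => ?_⟩
  by_cases h3 : (w : V) = l
  · have h4 : w = ⟨l, h.hl⟩ := Subtype.ext h3
    rw [h4, h.out_l, ← h1 r (hA r h.hr), h2 r h.hr]
  · rw [h.out_ne h3]
    exact h1 _ hw

/-- The complement of the interval is not the weighted Petersen graph. -/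
lemma core (hf : Blk f P c l r) (hg : Blk g P c' l' r') (hcf : Cyc f) (hcg : Cyc g)
    (hN : NN f g) (h2 : 2 ≤ P.card) {y0 y1 y2 y3 y4 b1 b2 : {v // v ∉ P}}
    (e0 : hf.out y0 = y1) (e1 : hf.out y1 = y2) (e2 : hf.out y2 = y3) (e3 : hf.out y3 = y4)
    (e4 : hf.out y4 = y0)
    (n01 : y0 ≠ y1) (n02 : y0 ≠ y2) (n03 : y0 ≠ y3) (n04 : y0 ≠ y4) (n12 : y1 ≠ y2)
    (n13 : y1 ≠ y3) (n14 : y1 ≠ y4) (n23 : y2 ≠ y3) (n24 : y2 ≠ y4) (n34 : y3 ≠ y4)
    (hall : ∀ v, v = y0 ∨ v = y1 ∨ v = y2 ∨ v = y3 ∨ v = y4)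
    (hG : (b1 = y1 ∧ b2 = y2 ∧ hg.out y1 = y3 ∧ hg.out y2 = y4 ∧ hg.out y0 = y2 ∧
        hg.out y3 = y0 ∧ hg.out y4 = y1) ∨
      (b1 = y3 ∧ b2 = y4 ∧ hg.out y3 = y1 ∧ hg.out y4 = y2 ∧ hg.out y0 = y3 ∧
        hg.out y2 = y0 ∧ hg.out y1 = y4))
    (hL : (((⟨l, hf.hl⟩ : {v // v ∉ P}) = y0 ∨ (⟨l, hf.hl⟩ : {v // v ∉ P}) = y4) ∧
        ((⟨l', hg.hl⟩ : {v // v ∉ P}) = y0 ∨ (b1 = y1 ∧ (⟨l', hg.hl⟩ : {v // v ∉ P}) = y3) ∨
          (b1 = y3 ∧ (⟨l', hg.hl⟩ : {v // v ∉ P}) = y2))) ∨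
      ((⟨l, hf.hl⟩ : {v // v ∉ P}) = y2 ∧ ((b1 = y1 ∧ (⟨l', hg.hl⟩ : {v // v ∉ P}) = y4) ∨
          (b1 = y3 ∧ (⟨l', hg.hl⟩ : {v // v ∉ P}) = y1)))) : False := by
  have cn : ∀ {x y : {v // v ∉ P}}, x ≠ y → (x : V) ≠ (y : V) := fun h h' => h (Subtype.ext h')
  have l1 : (⟨l, hf.hl⟩ : {v // v ∉ P}) ≠ y1 := by
    rintro h
    rcases hL with ⟨h1 | h1, -⟩ | ⟨h1, -⟩
    · exact n01 (h1.symm.trans h)
    · exact n14 (h.symm.trans h1)
    · exact n12 (h.symm.trans h1)
  have l3 : (⟨l, hf.hl⟩ : {v // v ∉ P}) ≠ y3 := by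
    rintro h
    rcases hL with ⟨h1 | h1, -⟩ | ⟨h1, -⟩
    · exact n03 (h1.symm.trans h)
    · exact n34 (h.symm.trans h1)
    · exact n23 (h1.symm.trans h)
  have m1 : (⟨l', hg.hl⟩ : {v // v ∉ P}) ≠ b1 := by
    rintro h
    rcases hL with ⟨-, h1 | ⟨h0, h1⟩ | ⟨h0, h1⟩⟩ | ⟨-, ⟨h0, h1⟩ | ⟨h0, h1⟩⟩
    · rcases hG with ⟨h3, -⟩ | ⟨h3, -⟩
      · exact n01 (h1.symm.trans (h.trans h3))
      · exact n03 (h1.symm.trans (h.trans h3))
    · exact n13 (h0.symm.trans (h.symm.trans h1))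
    · exact n23 (h1.symm.trans (h.trans h0))
    · exact n14 (h0.symm.trans (h.symm.trans h1))
    · exact n13 (h1.symm.trans (h.trans h0))
  have m2 : (⟨l', hg.hl⟩ : {v // v ∉ P}) ≠ b2 := by
    rintro h
    rcases hG with ⟨h3, h4, -⟩ | ⟨h3, h4, -⟩
    · rcases hL with ⟨-, h1 | ⟨h0, h1⟩ | ⟨h0, h1⟩⟩ | ⟨-, ⟨h0, h1⟩ | ⟨h0, h1⟩⟩
      · exact n02 (h1.symm.trans (h.trans h4))
      · exact n23 (h4.symm.trans (h.symm.trans h1))
      · exact n13 (h3.symm.trans h0)
      · exact n24 (h4.symm.trans (h.symm.trans h1))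
      · exact n13 (h3.symm.trans h0)
    · rcases hL with ⟨-, h1 | ⟨h0, h1⟩ | ⟨h0, h1⟩⟩ | ⟨-, ⟨h0, h1⟩ | ⟨h0, h1⟩⟩
      · exact n04 (h1.symm.trans (h.trans h4))
      · exact n13 (h0.symm.trans h3)
      · exact n24 (h1.symm.trans (h.trans h4))
      · exact n13 (h0.symm.trans h3)
      · exact n14 (h1.symm.trans (h.trans h4))
  have f1 : f y1 = y2 := by
    rw [← hf.out_ne (fun h => l1 (Subtype.ext h.symm)), e1]
  have f3 : f y3 = y4 := by
    rw [← hf.out_ne (fun h => l3 (Subtype.ext h.symm)), e3]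
  have gb : ∀ {x y : {v // v ∉ P}}, (⟨l', hg.hl⟩ : {v // v ∉ P}) ≠ x → hg.out x = y →
      g x = y := by
    intro x y h1 h2
    rw [← hg.out_ne (fun h => h1 (Subtype.ext h.symm)), h2]
  have hbd1 : bd f {(y1 : V), (y3 : V)} =
      symmDiff (symmDiff {(y1 : V)} {(y2 : V)}) (symmDiff {(y3 : V)} {(y4 : V)}) := by
    rw [bd_pair (cn n13), f1, f3]
  have hb12 : b1 ≠ b2 := by
    rcases hG with ⟨h3, h4, -⟩ | ⟨h3, h4, -⟩
    · rw [h3, h4]
      exact n12
    · rw [h3, h4]
      exact n34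
  have hbd2 : bd g {(b1 : V), (b2 : V)} =
      symmDiff (symmDiff {(y1 : V)} {(y2 : V)}) (symmDiff {(y3 : V)} {(y4 : V)}) := by
    rw [bd_pair (cn hb12)]
    rcases hG with ⟨h3, h4, h5, h6, -⟩ | ⟨h3, h4, h5, h6, -⟩
    · subst h3 h4
      rw [gb m1 h5, gb m2 h6, symmDiff_symmDiff_symmDiff_comm]
    · subst h3 h4
      rw [gb m1 h5, gb m2 h6, symmDiff_symmDiff_symmDiff_comm, symmDiff_comm]
  have hA : ∀ v ∈ P, v ∉ ({(y1 : V), (y3 : V)} : Finset V) := by
    intro v hv h
    simp only [Finset.mem_insert, Finset.mem_singleton] at h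
    rcases h with h | h
    · exact y1.2 (h ▸ hv)
    · exact y3.2 (h ▸ hv)
  have hB : ∀ v ∈ P, v ∉ ({(b1 : V), (b2 : V)} : Finset V) := by
    intro v hv h
    simp only [Finset.mem_insert, Finset.mem_singleton] at h
    rcases h with h | h
    · exact b1.2 (h ▸ hv)
    · exact b2.2 (h ▸ hv)
  have hlA : l ∉ ({(y1 : V), (y3 : V)} : Finset V) := by
    intro h
    simp only [Finset.mem_insert, Finset.mem_singleton] at h
    rcases h with h | h
    · exact l1 (Subtype.ext h)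
    · exact l3 (Subtype.ext h)
  have hlB : l' ∉ ({(b1 : V), (b2 : V)} : Finset V) := by
    intro h
    simp only [Finset.mem_insert, Finset.mem_singleton] at h
    rcases h with h | h
    · exact m1 (Subtype.ext h)
    · exact m2 (Subtype.ext h)
  have hAlt : Alt f g {(y1 : V), (y3 : V)} {(b1 : V), (b2 : V)} := by
    refine ⟨⟨y1, by simp⟩, ?_, ?_, hbd1.trans hbd2.symm⟩
    · intro v hv h
      simp only [Finset.mem_insert, Finset.mem_singleton] at hv h
      rcases hv with rfl | rfl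
      · rw [f1] at h
        rcases h with h | h
        · exact cn n12 h.symm
        · exact cn n23 h
      · rw [f3] at h
        rcases h with h | h
        · exact cn n14 h.symm
        · exact cn n34 h.symm
    · intro v hv h
      simp only [Finset.mem_insert, Finset.mem_singleton] at hv h
      rcases hG with ⟨h3, h4, h5, h6, -⟩ | ⟨h3, h4, h5, h6, -⟩
      · subst h3 h4
        rcases hv with rfl | rfl
        · rw [gb m1 h5] at h
          rcases h with h | h
          · exact cn n13 h.symm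
          · exact cn n23 h.symm
        · rw [gb m2 h6] at h
          rcases h with h | h
          · exact cn n14 h.symm
          · exact cn n24 h.symm
      · subst h3 h4
        rcases hv with rfl | rfl
        · rw [gb m1 h5] at h
          rcases h with h | h
          · exact cn n13 h
          · exact cn n14 h
        · rw [gb m2 h6] at h
          rcases h with h | h
          · exact cn n23 h
          · exact cn n24 h
  obtain ⟨z, hz, P0, Q0, hP0, hQ0, hPQ, hzz⟩ := hN.exists_br hAlt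
  obtain ⟨cf1, cf2⟩ := hf.const hcf hA hlA hP0
  obtain ⟨cg1, cg2⟩ := hg.const hcg hB hlB hQ0
  by_cases hzP : z ∈ P
  · obtain ⟨u, hu, huz⟩ := Finset.exists_mem_ne (s := P) (by omega) z
    have h3 := cf1 z hzP
    have h4 := cf1 u hu
    have h5 := cg1 z hzP
    have h6 := cg1 u hu
    have h7 := hPQ u huz
    exact hzz (by rw [h3, ← h4, h7, h6, ← h5])
  · have hz0 : z = y0 := by
      have k12 := cn n12
      have k13 := cn n13
      have k14 := cn n14
      have k23 := cn n23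
      have k24 := cn n24
      have k34 := cn n34
      have hm : (y1 : V) ∈ bd f {(y1 : V), (y3 : V)} ∧ (y2 : V) ∈ bd f {(y1 : V), (y3 : V)} ∧
          (y3 : V) ∈ bd f {(y1 : V), (y3 : V)} ∧ (y4 : V) ∈ bd f {(y1 : V), (y3 : V)} := by
        rw [hbd1]
        simp only [Finset.mem_symmDiff, Finset.mem_singleton]
        refine ⟨Or.inl ⟨Or.inl ⟨trivial, k12⟩, ?_⟩, Or.inl ⟨Or.inr ⟨trivial, k12.symm⟩, ?_⟩,
          Or.inr ⟨Or.inl ⟨trivial, k34⟩, ?_⟩, Or.inr ⟨Or.inr ⟨trivial, k34.symm⟩, ?_⟩⟩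
        · rintro (⟨h, -⟩ | ⟨h, -⟩)
          · exact k13 h
          · exact k14 h
        · rintro (⟨h, -⟩ | ⟨h, -⟩)
          · exact k23 h
          · exact k24 h
        · rintro (⟨h, -⟩ | ⟨h, -⟩)
          · exact k13 h.symm
          · exact k23 h.symm
        · rintro (⟨h, -⟩ | ⟨h, -⟩)
          · exact k14 h.symm
          · exact k24 h.symm
      rcases hall ⟨z, hzP⟩ with h | h | h | h | h
      · exact congrArg Subtype.val h
      · have h' : z = y1 := congrArg Subtype.val h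
        exact absurd (h' ▸ hm.1) hz
      · have h' : z = y2 := congrArg Subtype.val h
        exact absurd (h' ▸ hm.2.1) hz
      · have h' : z = y3 := congrArg Subtype.val h
        exact absurd (h' ▸ hm.2.2.1) hz
      · have h' : z = y4 := congrArg Subtype.val h
        exact absurd (h' ▸ hm.2.2.2) hz
    subst hz0
    have hyA : ∀ {y : {v // v ∉ P}}, y ≠ y1 → y ≠ y3 →
        (y : V) ∉ ({(y1 : V), (y3 : V)} : Finset V) := by
      intro y h3 h4 h
      simp only [Finset.mem_insert, Finset.mem_singleton] at h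
      rcases h with h | h
      · exact h3 (Subtype.ext h)
      · exact h4 (Subtype.ext h)
    have hyB : ∀ {y : {v // v ∉ P}}, y ≠ b1 → y ≠ b2 →
        (y : V) ∉ ({(b1 : V), (b2 : V)} : Finset V) := by
      intro y h3 h4 h
      simp only [Finset.mem_insert, Finset.mem_singleton] at h
      rcases h with h | h
      · exact h3 (Subtype.ext h)
      · exact h4 (Subtype.ext h)
    have p01 := cf2 y0 (hyA n01 n03)
    have p23 := cf2 y2 (hyA n12.symm n23)
    have p40 := cf2 y4 (hyA n14.symm n34.symm)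
    rw [e0] at p01
    rw [e2] at p23
    rw [e4] at p40
    have q : ((y0 : V) ∈ Q0 ↔ (y2 : V) ∈ Q0) ∧ ((y0 : V) ∈ Q0 ↔ (y3 : V) ∈ Q0) ∧
        ((y1 : V) ∈ Q0 ↔ (y4 : V) ∈ Q0) := by
      rcases hG with ⟨h3, h4, -, -, h5, h6, h7⟩ | ⟨h3, h4, -, -, h5, h6, h7⟩
      · subst h3 h4
        have q1 := cg2 y0 (hyB n01 n02)
        have q2 := cg2 y3 (hyB n13.symm n23.symm)
        have q3 := cg2 y4 (hyB n14.symm n24.symm)
        rw [h5] at q1
        rw [h6] at q2
        rw [h7] at q3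
        exact ⟨q1, q2.symm, q3.symm⟩
      · subst h3 h4
        have q1 := cg2 y0 (hyB n03 n04)
        have q2 := cg2 y2 (hyB n23 n24)
        have q3 := cg2 y1 (hyB n13 n14)
        rw [h5] at q1
        rw [h6] at q2
        rw [h7] at q3
        exact ⟨q2.symm, q1, q3⟩
    have r1 := hPQ y1 (cn n01.symm)
    have r2 := hPQ y2 (cn n02.symm)
    have r3 := hPQ y3 (cn n03.symm)
    have r4 := hPQ y4 (cn n04.symm)
    obtain ⟨u, hu⟩ : P.Nonempty := Finset.card_pos.mp (by omega)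
    have huy : u ≠ y0 := fun h => y0.2 (h ▸ hu)
    have s1 := cf1 u hu
    have s2 := cg1 u hu
    have s3 := hPQ u huy
    have key : (l ∈ P0 ↔ l' ∈ Q0) := by rw [← s1, ← s2, s3]
    have lval : ∀ {y : {v // v ∉ P}}, (⟨l, hf.hl⟩ : {v // v ∉ P}) = y → l = y :=
      fun h => congrArg Subtype.val h
    have lval' : ∀ {y : {v // v ∉ P}}, (⟨l', hg.hl⟩ : {v // v ∉ P}) = y → l' = y :=
      fun h => congrArg Subtype.val h
    have a1 : ((y0 : V) ∈ P0 ↔ (y1 : V) ∈ P0) := p01
    rcases hL with ⟨h1, h3⟩ | ⟨h1, h3⟩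
    · have t1 : (l ∈ P0 ↔ (y0 : V) ∈ P0) := by
        rcases h1 with h1 | h1
        · rw [lval h1]
        · rw [lval h1]
          exact p40
      have t2 : (l' ∈ Q0 ↔ (y0 : V) ∈ Q0) := by
        rcases h3 with h3 | ⟨-, h3⟩ | ⟨-, h3⟩
        · rw [lval' h3]
        · rw [lval' h3]
          exact q.2.1.symm
        · rw [lval' h3]
          exact q.1.symm
      exact hzz (by rw [← t1, key, t2])
    · have t1 : (l ∈ P0 ↔ (y0 : V) ∈ Q0) := by
        rw [lval h1, r2]
        exact q.1.symm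
      have t2 : (l' ∈ Q0 ↔ (y0 : V) ∈ P0) := by
        rcases h3 with ⟨-, h3⟩ | ⟨-, h3⟩
        · rw [lval' h3, ← r4]
          exact p40
        · rw [lval' h3, ← r1]
          exact p01.symm
      exact hzz (by rw [← t2, ← key, t1])

end


/-- No even interval. -/
theorem no_block_even {V : Type} [Fintype V] [DecidableEq V] {f g : Equiv.Perm V}
    (hcf : Cyc f) (hcg : Cyc g) (hodd : Odd (Fintype.card V)) (hN : NN f g)
    (hmin : ∀ (W : Type) [Fintype W] [DecidableEq W] (f' g' : Equiv.Perm W), Cyc f' → Cyc g' →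
      Odd (Fintype.card W) → 3 ≤ Fintype.card W → Fintype.card W < Fintype.card V →
      NN f' g' → Fintype.card W = 5)
    {P : Finset V} (he : Even P.card) (h2 : 2 ≤ P.card) (h3 : P.card + 2 ≤ Fintype.card V)
    (hP : ∃! v, v ∈ P ∧ f v ∉ P) (hQ : ∃! v, v ∈ P ∧ g v ∉ P) : False := by
  obtain ⟨c, l, r, hf⟩ := exists_blk hcf hP he
  obtain ⟨c', l', r', hg⟩ := exists_blk hcg hQ he
  have hcard : Fintype.card {v // v ∉ P} + P.card = Fintype.card V := by
    have h4 : Fintype.card {v // v ∉ P} = (Pᶜ).card := by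
      rw [Fintype.card_subtype]
      congr 1
      ext v
      simp
    rw [h4, Finset.card_compl]
    omega
  have hoddW : Odd (Fintype.card {v // v ∉ P}) := by
    rw [← hcard] at hodd
    by_contra h
    rw [Nat.not_odd_iff_even] at h
    exact (Nat.not_even_iff_odd.mpr hodd) (h.add he)
  have h5 : Fintype.card {v // v ∉ P} = 5 := by
    apply hmin _ hf.out hg.out (hf.cyc hcf) (hg.cyc hcg) hoddW _ (by omega) (hN.out hf hg)
    rcases hoddW with ⟨k, hk⟩
    omega
  have hN1 := hN.out hf hg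
  have hcf1 := hf.cyc hcf
  have hcg1 := hg.cyc hcg
  obtain ⟨x1, x2, x3, x4, e0, e1, e2, e3, e4, n01, n02, n03, n04, n12, n13, n14, n23, n24, n34,
    hall⟩ := hcf1.five h5 ⟨l, hf.hl⟩
  have hG := five_other (G := hg.out) e0 e1 e2 e3 e4 n01 n04 n12 n23 n34 hall
    (fun v => hcg1.ne (by omega) v) (fun v => (hN1.no_common hcf1 hcg1 (by omega) v).1)
    (fun v => (hN1.no_common hcf1 hcg1 (by omega) v).2)
  generalize hx0 : (⟨l, hf.hl⟩ : {v // v ∉ P}) = x0 at *
  rcases hG with hG | hG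
  · obtain ⟨g0, g1, g2, g3, g4⟩ := hG
    rcases hall ⟨l', hg.hl⟩ with h | h | h | h | h
    · exact core hf hg hcf hcg hN h2 (y0 := x0) (y1 := x1)
        (y2 := x2) (y3 := x3) (y4 := x4) (b1 := x1) (b2 := x2) e0 e1 e2 e3 e4
        n01 n02 n03 n04 n12 n13 n14 n23 n24 n34
        (fun v => by rcases hall v with h | h | h | h | h <;> simp [h])
        (Or.inl ⟨rfl, rfl, g1, g2, g0, g3, g4⟩) (Or.inl ⟨Or.inl hx0, Or.inl h⟩)
    · exact core hf hg hcf hcg hN h2 (y0 := x1) (y1 := x2)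
        (y2 := x3) (y3 := x4) (y4 := x0) (b1 := x2) (b2 := x3) e1 e2 e3 e4 e0
        n12 n13 n14 n01.symm n23 n24 n02.symm n34 n03.symm n04.symm
        (fun v => by rcases hall v with h | h | h | h | h <;> simp [h])
        (Or.inl ⟨rfl, rfl, g2, g3, g1, g4, g0⟩) (Or.inl ⟨Or.inr hx0, Or.inl h⟩)
    · exact core hf hg hcf hcg hN h2 (y0 := x3) (y1 := x4)
        (y2 := x0) (y3 := x1) (y4 := x2) (b1 := x4) (b2 := x0) e3 e4 e0 e1 e2
        n34 n03.symm n13.symm n23.symm n04.symm n14.symm n24.symm n01 n02 n12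
        (fun v => by rcases hall v with h | h | h | h | h <;> simp [h])
        (Or.inl ⟨rfl, rfl, g4, g0, g3, g1, g2⟩) (Or.inr ⟨hx0, Or.inl ⟨rfl, h⟩⟩)
    · exact core hf hg hcf hcg hN h2 (y0 := x0) (y1 := x1)
        (y2 := x2) (y3 := x3) (y4 := x4) (b1 := x1) (b2 := x2) e0 e1 e2 e3 e4
        n01 n02 n03 n04 n12 n13 n14 n23 n24 n34
        (fun v => by rcases hall v with h | h | h | h | h <;> simp [h])
        (Or.inl ⟨rfl, rfl, g1, g2, g0, g3, g4⟩) (Or.inl ⟨Or.inl hx0, Or.inr (Or.inl ⟨rfl, h⟩)⟩)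
    · exact core hf hg hcf hcg hN h2 (y0 := x1) (y1 := x2)
        (y2 := x3) (y3 := x4) (y4 := x0) (b1 := x2) (b2 := x3) e1 e2 e3 e4 e0
        n12 n13 n14 n01.symm n23 n24 n02.symm n34 n03.symm n04.symm
        (fun v => by rcases hall v with h | h | h | h | h <;> simp [h])
        (Or.inl ⟨rfl, rfl, g2, g3, g1, g4, g0⟩) (Or.inl ⟨Or.inr hx0, Or.inr (Or.inl ⟨rfl, h⟩)⟩)
  · obtain ⟨g0, g1, g2, g3, g4⟩ := hG
    rcases hall ⟨l', hg.hl⟩ with h | h | h | h | h
    · exact core hf hg hcf hcg hN h2 (y0 := x0) (y1 := x1)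
        (y2 := x2) (y3 := x3) (y4 := x4) (b1 := x3) (b2 := x4) e0 e1 e2 e3 e4
        n01 n02 n03 n04 n12 n13 n14 n23 n24 n34
        (fun v => by rcases hall v with h | h | h | h | h <;> simp [h])
        (Or.inr ⟨rfl, rfl, g3, g4, g0, g2, g1⟩) (Or.inl ⟨Or.inl hx0, Or.inl h⟩)
    · exact core hf hg hcf hcg hN h2 (y0 := x1) (y1 := x2)
        (y2 := x3) (y3 := x4) (y4 := x0) (b1 := x4) (b2 := x0) e1 e2 e3 e4 e0
        n12 n13 n14 n01.symm n23 n24 n02.symm n34 n03.symm n04.symm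
        (fun v => by rcases hall v with h | h | h | h | h <;> simp [h])
        (Or.inr ⟨rfl, rfl, g4, g0, g1, g3, g2⟩) (Or.inl ⟨Or.inr hx0, Or.inl h⟩)
    · exact core hf hg hcf hcg hN h2 (y0 := x0) (y1 := x1)
        (y2 := x2) (y3 := x3) (y4 := x4) (b1 := x3) (b2 := x4) e0 e1 e2 e3 e4
        n01 n02 n03 n04 n12 n13 n14 n23 n24 n34
        (fun v => by rcases hall v with h | h | h | h | h <;> simp [h])
        (Or.inr ⟨rfl, rfl, g3, g4, g0, g2, g1⟩) (Or.inl ⟨Or.inl hx0, Or.inr (Or.inr ⟨rfl, h⟩)⟩)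
    · exact core hf hg hcf hcg hN h2 (y0 := x1) (y1 := x2)
        (y2 := x3) (y3 := x4) (y4 := x0) (b1 := x4) (b2 := x0) e1 e2 e3 e4 e0
        n12 n13 n14 n01.symm n23 n24 n02.symm n34 n03.symm n04.symm
        (fun v => by rcases hall v with h | h | h | h | h <;> simp [h])
        (Or.inr ⟨rfl, rfl, g4, g0, g1, g3, g2⟩) (Or.inl ⟨Or.inr hx0, Or.inr (Or.inr ⟨rfl, h⟩)⟩)
    · exact core hf hg hcf hcg hN h2 (y0 := x3) (y1 := x4)
        (y2 := x0) (y3 := x1) (y4 := x2) (b1 := x1) (b2 := x2) e3 e4 e0 e1 e2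
        n34 n03.symm n13.symm n23.symm n04.symm n14.symm n24.symm n01 n02 n12
        (fun v => by rcases hall v with h | h | h | h | h <;> simp [h])
        (Or.inr ⟨rfl, rfl, g1, g2, g3, g0, g4⟩) (Or.inr ⟨hx0, Or.inr ⟨rfl, h⟩⟩)

/-- The 4-cut lemma: a minimal counterexample has no proper set of at least two matching edges
which is an interval on both circuits. -/
theorem no_block {V : Type} [Fintype V] [DecidableEq V] {f g : Equiv.Perm V}
    (hcf : Cyc f) (hcg : Cyc g) (hodd : Odd (Fintype.card V)) (hN : NN f g)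
    (hmin : ∀ (W : Type) [Fintype W] [DecidableEq W] (f' g' : Equiv.Perm W), Cyc f' → Cyc g' →
      Odd (Fintype.card W) → 3 ≤ Fintype.card W → Fintype.card W < Fintype.card V →
      NN f' g' → Fintype.card W = 5)
    {P : Finset V} (h2 : 2 ≤ P.card) (h3 : P.card + 2 ≤ Fintype.card V)
    (hP : ∃! v, v ∈ P ∧ f v ∉ P) (hQ : ∃! v, v ∈ P ∧ g v ∉ P) : False := by
  by_cases he : Even P.card
  · exact no_block_even hcf hcg hodd hN hmin he h2 h3 hP hQ
  · have hc : (Pᶜ).card = Fintype.card V - P.card := Finset.card_compl P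
    have he' : Even (Pᶜ).card := by
      rw [hc]
      rw [Nat.not_even_iff_odd] at he
      exact Nat.Odd.sub_odd hodd he
    have key : ∀ h : Equiv.Perm V, (∃! v, v ∈ P ∧ h v ∉ P) → ∃! v, v ∈ Pᶜ ∧ h v ∉ Pᶜ := by
      rintro h ⟨r, hr, hr'⟩
      have h1 : (Finset.univ.filter (fun v => v ∈ P ∧ h v ∉ P)).card = 1 := by
        rw [Finset.card_eq_one]
        refine ⟨r, ?_⟩
        ext v
        simp only [Finset.mem_filter, Finset.mem_univ, true_and, Finset.mem_singleton]
        exact ⟨fun h => hr' v h, fun h => h ▸ hr⟩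
      rw [← card_exit, Finset.card_eq_one] at h1
      obtain ⟨l, hl⟩ := h1
      have hl1 : ∀ v, v ∉ P ∧ h v ∈ P ↔ v = l := by
        intro v
        have := congrArg (fun S => v ∈ S) hl
        simpa using this
      refine ⟨l, ?_, ?_⟩
      · have := (hl1 l).mpr rfl
        simpa using this
      · intro v hv
        apply (hl1 v).mp
        simpa using hv
    exact no_block_even hcf hcg hodd hN hmin he' (by omega) (by omega) (key f hP) (key g hQ)

end Pool.GOD.PG
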