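import Pool.Agent.GOD.PGDict
import Pool.Agent.GOD.PGFour

/-!
The remaining combinatorial statement of MP_7b7176_co in the compact model, and its reduction to
cyclically 5-edge-connected permutation graphs.
-/

set_option autoImplicit false

namespace Pool.GOD

namespace PG

/-- The main theorem for the compact model. -/
def Stmt_PN : Prop :=
  ∀ (V : Type) [Fintype V] [DecidableEq V] (f g : Equiv.Perm V), Cyc f → Cyc g →
    Odd (Fintype.card V) → 3 ≤ Fintype.card V → NN f g → Fintype.card V = 5

/-- No common block: no set of at least 2 and at most `n - 2` matching edges is an interval on both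
circuits. -/
def NoBlk {V : Type} [Fintype V] [DecidableEq V] (f g : Equiv.Perm V) : Prop :=
  ∀ P : Finset V, 2 ≤ P.card → P.card + 2 ≤ Fintype.card V → (∃! v, v ∈ P ∧ f v ∉ P) →
    ¬ ∃! v, v ∈ P ∧ g v ∉ P

/-- The main theorem for systems without common blocks. -/
def Stmt_PN5 : Prop :=
  ∀ (V : Type) [Fintype V] [DecidableEq V] (f g : Equiv.Perm V), Cyc f → Cyc g →
    Odd (Fintype.card V) → 7 ≤ Fintype.card V → NoBlk f g → ¬ NN f g

/-- There is no system of order 3 without removable pairs. -/
lemma NN.ne_three {V : Type} [Fintype V] [DecidableEq V] {f g : Equiv.Perm V} (hf : Cyc f)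
    (hg : Cyc g) (hN : NN f g) : Fintype.card V ≠ 3 := by
  intro hc
  have hne : Nonempty V := Fintype.card_pos_iff.1 (by omega)
  obtain ⟨v⟩ := hne
  have f1 : ∀ u, f u ≠ u := hf.ne (by omega)
  have g1 : ∀ u, g u ≠ u := hg.ne (by omega)
  have f2 : ∀ u, f (f u) ≠ u := by
    intro u hu
    have h1 := hf {u, f u} ⟨u, by simp⟩ (by
      intro x hx
      rw [Finset.mem_insert, Finset.mem_singleton] at hx ⊢
      rcases hx with rfl | rfl
      · exact Or.inr rfl
      · exact Or.inl hu)
    have h2 := congrArg Finset.card h1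
    rw [Finset.card_univ, hc] at h2
    have h3 : ({u, f u} : Finset V).card ≤ 2 := Finset.card_le_two
    omega
  have hall : ({v, f v, f (f v)} : Finset V) = Finset.univ := by
    apply Finset.eq_univ_of_card
    rw [hc, Finset.card_eq_three]
    exact ⟨v, f v, f (f v), (f1 v).symm, (f2 v).symm, (f1 (f v)).symm, rfl⟩
  have mem : ∀ u : V, u = v ∨ u = f v ∨ u = f (f v) := by
    intro u
    have h1 : u ∈ ({v, f v, f (f v)} : Finset V) := by
      rw [hall]
      exact Finset.mem_univ u
    simpa using h1
  have h3 : f (f (f v)) = v := by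
    rcases mem (f (f (f v))) with h | h | h
    · exact h
    · exact absurd (f.injective h) (f2 v)
    · exact absurd h (f1 _)
  obtain ⟨h4, h5⟩ := hN.no_common hf hg (by omega) v
  rcases mem (g v) with h | h | h
  · exact g1 v h
  · exact h4 h.symm
  · rw [h] at h5
    exact h5 h3

theorem pn_of_pn5 (h5 : Stmt_PN5) : Stmt_PN := by
  have key : ∀ (k : ℕ) (V : Type) [Fintype V] [DecidableEq V] (f g : Equiv.Perm V),
      Fintype.card V = k → Cyc f → Cyc g → Odd (Fintype.card V) → 3 ≤ Fintype.card V →
      NN f g → Fintype.card V = 5 := by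
    intro k
    induction k using Nat.strong_induction_on with
    | _ k ih =>
      intro V _ _ f g hk hf hg ho h3 hN
      have hmin : ∀ (W : Type) [Fintype W] [DecidableEq W] (f' g' : Equiv.Perm W), Cyc f' →
          Cyc g' → Odd (Fintype.card W) → 3 ≤ Fintype.card W →
          Fintype.card W < Fintype.card V → NN f' g' → Fintype.card W = 5 := by
        intro W _ _ f' g' hf' hg' ho' h3' hlt hN'
        exact ih (Fintype.card W) (hk ▸ hlt) W f' g' rfl hf' hg' ho' h3' hN'
      by_contra hne
      have h7 : 7 ≤ Fintype.card V := by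
        have h4 := hN.ne_three hf hg
        rcases ho with ⟨t, ht⟩
        omega
      refine h5 V f g hf hg ho h7 ?_ hN
      intro P h1 h2 hP hQ
      exact no_block hf hg ho hN hmin h1 h2 hP hQ
  intro V _ _ f g hf hg ho h3 hN
  exact key _ V f g rfl hf hg ho h3 hN

end PG

/-- Q1 follows from the statement for systems without common blocks. -/
theorem MGraph.q1_of_pn5 (h5 : PG.Stmt_PN5) : MGraph.Q1 :=
  MGraph.q1_of_pg (PG.pn_of_pn5 h5)

end Pool.GOD
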