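import Pool.Agent.GOD.FinS

/-!
# The weighted Petersen graph is the only minimal contra pair with the extension property

A minimal contra pair `(G, w)` has the extension property if, for every edge `e` of weight 2, every
family of circuits of `G - e` which covers every edge `f` at most `w f` times and leaves a
bridgeless rest extends to a faithful cover of `(G - e, w)`.  The minimal contra pairs with the
extension property are exactly the weighted graphs isomorphic to `(P10, w10)`.
-/

namespace Pool.GOD.PetersenExtension

open Pool.GOD Pool.GOD.MGraph

theorem result : ∀ (V E : Type) [Fintype V] [DecidableEq V] [Fintype E] [DecidableEq E]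
    (G : MGraph V E) (w : E → ℕ),
    (G.MinContra w ∧ G.Extendable w) ↔ WIso G w P10 w10 := by
  intro V E _ _ _ _ G w
  exact strong_iff G w

end Pool.GOD.PetersenExtension
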