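import Pool.Agent.GOD.Dict3

/-!
Pieces: two circuits `D1`, `D2` of a graph of maximal degree three whose common edges are pairwise
not adjacent (MP_7b7176_co).  `Piece.trail_same`, `Piece.trail_opp`: the trail of a monochromatic pair
of common edges with an empty rectangle.
-/

set_option autoImplicit false
set_option linter.unusedSectionVars false

namespace Pool.GOD

namespace MGraph

variable {V E : Type*} [Fintype V] [DecidableEq V] [Fintype E] [DecidableEq E] {G : MGraph V E}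
  {D1 D2 : Finset E}

/-- two circuits of a graph of maximal degree three, the common edges are pairwise not adjacent -/
structure Piece (G : MGraph V E) (D1 D2 : Finset E) : Prop where
  c1 : G.IsCircuit D1
  c2 : G.IsCircuit D2
  dle : ∀ (T : Finset E) (a : V), G.deg T a ≤ 3
  nadj : ∀ x s, x ∈ D1 → x ∈ D2 → s ∈ D1 → s ∈ D2 → ∀ a, a ∈ G.ends x → a ∈ G.ends s → x = s

theorem HamPair.piece (h : G.HamPair D1 D2) : G.Piece D1 D2 where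
  c1 := h.c1
  c2 := h.c2
  dle := h.deg_le
  nadj _ _ h1 h2 h3 h4 _ h5 h6 := h.not_adj h1 h2 h3 h4 h5 h6

theorem Piece.symm (h : G.Piece D1 D2) : G.Piece D2 D1 where
  c1 := h.c2
  c2 := h.c1
  dle := h.dle
  nadj x s h1 h2 h3 h4 := h.nadj x s h2 h1 h4 h3

/-- the conclusion for a monochromatic pair `x, y` with an empty rectangle: `T` is a circuit different
from `D1` and `D2`, and if `D1 + D2 - T` is not bridgeless then there is a cut point `u`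
satisfying `P u`. -/
structure TrailConc (G : MGraph V E) (D1 D2 : Finset E) (x y : E) (T : Finset E)
    (P : E → Prop) : Prop where
  circ : G.IsCircuit T
  sub : T ⊆ D1 ∪ D2
  ne1 : ∃ g ∈ T, g ∈ D2 ∧ g ∉ D1
  ne2 : ∃ f ∈ T, f ∈ D1 ∧ f ∉ D2
  memx : x ∈ T
  memy : y ∈ T
  cutp : ¬ G.Bridgeless (Finset.univ.filter (fun e => 0 < chi D1 e + chi D2 e - chi T e)) →
    ∃ u, P u

variable {n1 n2 : ℕ} {v1 v2 : ℕ → V} {e1 e2 : ℕ → E} {x y : E}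

/-- cut points, red pairs -/
def CutSame (D1 D2 : Finset E) (v1 : ℕ → V) (e1 : ℕ → E) (v2 : ℕ → V) (e2 : ℕ → E) (x y u : E) :
    Prop :=
  u ∈ D1 ∧ u ∈ D2 ∧ InA (idx e1) (idx e2) y x u ∧ ¬ SameDir v1 e1 v2 e2 u ∧
    ∀ t, t ∈ D1 → t ∈ D2 → InA (idx e1) (idx e2) y x t →
      t = u ∨ InA (idx e1) (idx e2) y u t ∨ InA (idx e1) (idx e2) u x t

/-- cut points, blue pairs -/
def CutOpp (D1 D2 : Finset E) (v1 : ℕ → V) (e1 : ℕ → E) (v2 : ℕ → V) (e2 : ℕ → E) (x y u : E) :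
    Prop :=
  u ∈ D1 ∧ u ∈ D2 ∧ InD (idx e1) (idx e2) y x u ∧ SameDir v1 e1 v2 e2 u ∧
    ∀ t, t ∈ D1 → t ∈ D2 → InD (idx e1) (idx e2) y x t →
      t = u ∨ InD (idx e1) (idx e2) y u t ∨ InD (idx e1) (idx e2) u x t

/-- **red pairs** -/
theorem Piece.trail_same (h : G.Piece D1 D2) (h1 : Enum G D1 n1 v1 e1)
    (h2 : Enum G D2 n2 v2 e2) (hx1 : x ∈ D1) (hx2 : x ∈ D2) (hy1 : y ∈ D1) (hy2 : y ∈ D2)
    (hxy : x ≠ y) (dx : SameDir v1 e1 v2 e2 x) (dy : SameDir v1 e1 v2 e2 y)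
    (hemp : ∀ t, t ∈ D1 → t ∈ D2 → ¬ InA (idx e1) (idx e2) x y t) :
    ∃ T, (∀ f, f ∈ T ↔ SuppA D1 D2 (idx e1) (idx e2) x y f) ∧
      TrailConc G D1 D2 x y T (CutSame D1 D2 v1 e1 v2 e2 x y) := by
  classical
  set T : Finset E := Finset.univ.filter (fun f => SuppA D1 D2 (idx e1) (idx e2) x y f) with hTd
  have hT : ∀ f, f ∈ T ↔ SuppA D1 D2 (idx e1) (idx e2) x y f := by
    intro f; rw [hTd, Finset.mem_filter]; simp
  have hc := circuit_same h1 h2 hx1 hx2 hy1 hy2 hxy dx dy (h.dle T) hT hemp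
  refine ⟨T, hT, hc, ?_, ?_, ?_, ?_, ?_, ?_⟩
  · intro f hf
    rw [Finset.mem_union]
    rcases (hT f).1 hf with h' | h' | h' | h'
    · rw [h']; exact Or.inl hx1
    · rw [h']; exact Or.inl hy1
    · exact Or.inl h'.1
    · exact Or.inr h'.1
  · -- the edge after `y` on `D2`
    obtain ⟨k1, k2, V1, V2, E1, E2, w1, w2, i1, i2, pk1, lk1, pk2, lk2, x1, x2, y1, y2, hv0, hvk,
      m1, m1', m2, m2'⟩ := walk_same h1 h2 hx1 hx2 hy1 hy2 hxy dx dy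
    have hs : E2 (k2 + 1) ∈ D2 ∧ E2 (k2 + 1) ∈ T ∧ E2 (k2 + 1) ≠ y := by
      rcases Nat.lt_or_ge (k2 + 1) n2 with c | c
      · obtain ⟨g1, g2⟩ := m2 (k2 + 1) (by omega) c
        refine ⟨g1, (hT _).2 (Or.inr (Or.inr (Or.inr ⟨g1, g2⟩))), ?_⟩
        intro h'
        rw [← y2] at h'
        have := i2 _ _ c lk2 h'
        omega
      · have h3 : k2 + 1 = 0 + n2 := by omega
        have h4 : E2 (k2 + 1) = x := by rw [h3, w2.pe, x2]
        rw [h4]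
        exact ⟨hx2, (hT _).2 (Or.inl rfl), hxy⟩
    obtain ⟨s2, sT, sy⟩ := hs
    refine ⟨_, sT, s2, fun sD => sy (h.nadj _ _ hy1 hy2 sD s2 (V2 (k2 + 1)) ?_ ?_).symm⟩
    · rw [← y2, w2.ends]; exact Sym2.mem_mk_right _ _
    · rw [w2.ends]; exact Sym2.mem_mk_left _ _
  · obtain ⟨k1, k2, V1, V2, E1, E2, w1, w2, i1, i2, pk1, lk1, pk2, lk2, x1, x2, y1, y2, hv0, hvk,
      m1, m1', m2, m2'⟩ := walk_same h1 h2 hx1 hx2 hy1 hy2 hxy dx dy
    have hs : E1 1 ∈ D1 ∧ E1 1 ∈ T ∧ E1 1 ≠ x := by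
      have hne : E1 1 ≠ x := by
        intro h'
        rw [← x1] at h'
        have := i1 _ _ (by omega) (by omega) h'
        omega
      rcases Nat.lt_or_ge 1 k1 with c | c
      · obtain ⟨g1, g2⟩ := m1 1 (by omega) c
        exact ⟨g1, (hT _).2 (Or.inr (Or.inr (Or.inl ⟨g1, g2⟩))), hne⟩
      · have h3 : 1 = k1 := by omega
        have h4 : E1 1 = y := by rw [h3, y1]
        rw [h4] at hne ⊢
        exact ⟨hy1, (hT _).2 (Or.inr (Or.inl rfl)), hne⟩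
    obtain ⟨s2, sT, sx⟩ := hs
    refine ⟨_, sT, s2, fun sD => sx (h.nadj _ _ hx1 hx2 s2 sD (V1 1) ?_ ?_).symm⟩
    · rw [← x1, w1.ends]; exact Sym2.mem_mk_right _ _
    · rw [w1.ends]; exact Sym2.mem_mk_left _ _
  · exact (hT _).2 (Or.inl rfl)
  · exact (hT _).2 (Or.inr (Or.inl rfl))
  · intro hnr
    unfold Bridgeless at hnr
    push Not at hnr
    obtain ⟨u, hu⟩ := hnr
    exact ⟨u, bridge_same h1 h2 hy1 hy2 hx1 hx2 (Ne.symm hxy) dy dx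
      (fun f => by
        rw [Finset.mem_filter]
        simp only [Finset.mem_univ, true_and]
        exact supp_compl_same h1 h2 hx1 hx2 hy1 hy2 hxy hT hemp f) hu⟩

/-- **blue pairs** -/
theorem Piece.trail_opp (h : G.Piece D1 D2) (h1 : Enum G D1 n1 v1 e1)
    (h2 : Enum G D2 n2 v2 e2) (hx1 : x ∈ D1) (hx2 : x ∈ D2) (hy1 : y ∈ D1) (hy2 : y ∈ D2)
    (hxy : x ≠ y) (dx : ¬ SameDir v1 e1 v2 e2 x) (dy : ¬ SameDir v1 e1 v2 e2 y)
    (hemp : ∀ t, t ∈ D1 → t ∈ D2 → ¬ InD (idx e1) (idx e2) x y t) :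
    ∃ T, (∀ f, f ∈ T ↔ SuppD D1 D2 (idx e1) (idx e2) x y f) ∧
      TrailConc G D1 D2 x y T (CutOpp D1 D2 v1 e1 v2 e2 x y) := by
  obtain ⟨-, hd⟩ := rev_facts h1 h2
  obtain ⟨T, hT, g1, g2, g3, g4, g5, g6, g7⟩ := h.trail_same h1 h2.rev hx1 hx2 hy1 hy2 hxy
    ((hd x hx1 hx2).2 dx) ((hd y hy1 hy2).2 dy)
    (fun t ht1 ht2 h' => hemp t ht1 ht2 ((inD_iff h1 h2 hx2 hy2 ht2).2 h'))
  refine ⟨T, fun f => (hT f).trans (suppD_iff h1 h2 hx2 hy2 f).symm, g1, g2, g3, g4, g5, g6, ?_⟩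
  intro hnr
  obtain ⟨u, k1, k2, k3, k4, k5⟩ := g7 hnr
  refine ⟨u, k1, k2, (inD_iff h1 h2 hy2 hx2 k2).2 k3, ?_, ?_⟩
  · by_contra h'
    exact k4 ((hd u k1 k2).2 h')
  · intro t t1 t2 ht
    rcases k5 t t1 t2 ((inD_iff h1 h2 hy2 hx2 t2).1 ht) with h' | h' | h'
    · exact Or.inl h'
    · exact Or.inr (Or.inl ((inD_iff h1 h2 hy2 k2 t2).2 h'))
    · exact Or.inr (Or.inr ((inD_iff h1 h2 k2 hx2 t2).2 h'))

/-- the torus system of a piece all of whose monochromatic pairs with an empty rectangle have cut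
points -/
theorem Piece.hwcut (h1 : Enum G D1 n1 v1 e1) (h2 : Enum G D2 n2 v2 e2)
    (hS : ∀ x y, x ∈ D1 → x ∈ D2 → y ∈ D1 → y ∈ D2 → x ≠ y → SameDir v1 e1 v2 e2 x →
      SameDir v1 e1 v2 e2 y → (∀ t, t ∈ D1 → t ∈ D2 → ¬ InA (idx e1) (idx e2) x y t) →
      ∃ u, CutSame D1 D2 v1 e1 v2 e2 x y u)
    (hO : ∀ x y, x ∈ D1 → x ∈ D2 → y ∈ D1 → y ∈ D2 → x ≠ y → ¬ SameDir v1 e1 v2 e2 x →
      ¬ SameDir v1 e1 v2 e2 y → (∀ t, t ∈ D1 → t ∈ D2 → ¬ InD (idx e1) (idx e2) x y t) →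
      ∃ u, CutOpp D1 D2 v1 e1 v2 e2 x y u) :
    Function.Injective (fun s : ↥(D1 ∩ D2) => idx e1 s.1) ∧
    Function.Injective (fun s : ↥(D1 ∩ D2) => idx e2 s.1) ∧
    HWcut (fun s : ↥(D1 ∩ D2) => idx e1 s.1) (fun s : ↥(D1 ∩ D2) => idx e2 s.1)
      (colour v1 e1 v2 e2) Finset.univ := by
  have hm1 : ∀ s : ↥(D1 ∩ D2), s.1 ∈ D1 := fun s => (Finset.mem_inter.1 s.2).1
  have hm2 : ∀ s : ↥(D1 ∩ D2), s.1 ∈ D2 := fun s => (Finset.mem_inter.1 s.2).2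
  refine ⟨?_, ?_, ?_, ?_⟩
  · intro s t hst
    exact Subtype.ext (h1.idx_inj (hm1 s) (hm1 t) hst)
  · intro s t hst
    exact Subtype.ext (h2.idx_inj (hm2 s) (hm2 t) hst)
  · intro x _ y _ hxy hx hy hemp
    rw [colour_true] at hx hy
    obtain ⟨u, g1, g2, g3, g4, g5⟩ := hS x.1 y.1 (hm1 x) (hm2 x) (hm1 y) (hm2 y)
      (fun h' => hxy (Subtype.ext h')) hx hy
      (fun t t1 t2 ht => hemp ⟨t, Finset.mem_inter.2 ⟨t1, t2⟩⟩ (Finset.mem_univ _) ht)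
    refine ⟨⟨u, Finset.mem_inter.2 ⟨g1, g2⟩⟩, Finset.mem_univ _, (colour_false _).2 g4, g3, ?_⟩
    intro t _ ht
    rcases g5 t.1 (hm1 t) (hm2 t) ht with h' | h' | h'
    · exact Or.inl (Subtype.ext h')
    · exact Or.inr (Or.inl h')
    · exact Or.inr (Or.inr h')
  · intro x _ y _ hxy hx hy hemp
    rw [colour_false] at hx hy
    obtain ⟨u, g1, g2, g3, g4, g5⟩ := hO x.1 y.1 (hm1 x) (hm2 x) (hm1 y) (hm2 y)
      (fun h' => hxy (Subtype.ext h')) hx hy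
      (fun t t1 t2 ht => hemp ⟨t, Finset.mem_inter.2 ⟨t1, t2⟩⟩ (Finset.mem_univ _) ht)
    refine ⟨⟨u, Finset.mem_inter.2 ⟨g1, g2⟩⟩, Finset.mem_univ _, (colour_true _).2 g4, g3, ?_⟩
    intro t _ ht
    rcases g5 t.1 (hm1 t) (hm2 t) ht with h' | h' | h'
    · exact Or.inl (Subtype.ext h')
    · exact Or.inr (Or.inl h')
    · exact Or.inr (Or.inr h')

end MGraph

end Pool.GOD
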