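import Pool.Agent.GOD.Piece

/-!
The trails of a piece with more information on the edges next to the two switches
(MP_7b7176_co).
-/

set_option autoImplicit false
set_option linter.unusedSectionVars false

namespace Pool.GOD

namespace MGraph

variable {V E : Type*} [Fintype V] [DecidableEq V] [Fintype E] [DecidableEq E] {G : MGraph V E}
  {D1 D2 : Finset E} {n1 n2 : ℕ} {v1 v2 : ℕ → V} {e1 e2 : ℕ → E} {x y : E}

/-- `T` contains an edge of `D2` only, adjacent to `y`, and an edge of `D1` only, adjacent to `x` -/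
structure TrailConcS (G : MGraph V E) (D1 D2 : Finset E) (x y : E) (T : Finset E) : Prop where
  adj1 : ∃ g ∈ T, g ∈ D2 ∧ g ∉ D1 ∧ ∃ a, a ∈ G.ends g ∧ a ∈ G.ends y
  adj2 : ∃ f ∈ T, f ∈ D1 ∧ f ∉ D2 ∧ ∃ a, a ∈ G.ends f ∧ a ∈ G.ends x

/-- **red pairs** -/
theorem Piece.trail_sameS (h : G.Piece D1 D2) (h1 : Enum G D1 n1 v1 e1)
    (h2 : Enum G D2 n2 v2 e2) (hx1 : x ∈ D1) (hx2 : x ∈ D2) (hy1 : y ∈ D1) (hy2 : y ∈ D2)
    (hxy : x ≠ y) (dx : SameDir v1 e1 v2 e2 x) (dy : SameDir v1 e1 v2 e2 y)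
    (hemp : ∀ t, t ∈ D1 → t ∈ D2 → ¬ InA (idx e1) (idx e2) x y t) :
    ∃ T, TrailConcS G D1 D2 x y T ∧
      TrailConc G D1 D2 x y T (CutSame D1 D2 v1 e1 v2 e2 x y) := by
  classical
  obtain ⟨T, hT, hc⟩ := h.trail_same h1 h2 hx1 hx2 hy1 hy2 hxy dx dy hemp
  refine ⟨T, ⟨?_, ?_⟩, hc⟩
  · obtain ⟨k1, k2, V1, V2, E1, E2, w1, w2, i1, i2, pk1, lk1, pk2, lk2, x1, x2, y1, y2, hv0, hvk,
      m1, m1', m2, m2'⟩ := walk_same h1 h2 hx1 hx2 hy1 hy2 hxy dx dy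
    have hs : E2 (k2 + 1) ∈ D2 ∧ E2 (k2 + 1) ∈ T ∧ E2 (k2 + 1) ≠ y := by
      rcases Nat.lt_or_ge (k2 + 1) n2 with c | c
      · obtain ⟨g1, g2⟩ := m2 (k2 + 1) (by omega) c
        refine ⟨g1, (hT _).2 (Or.inr (Or.inr (Or.inr ⟨g1, g2⟩))), ?_⟩
        intro h'
        rw [← y2] at h'
        have := i2 _ _ c lk2 h'
        omega
      · have h3 : k2 + 1 = 0 + n2 := by omega
        have h4 : E2 (k2 + 1) = x := by rw [h3, w2.pe, x2]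
        rw [h4]
        exact ⟨hx2, (hT _).2 (Or.inl rfl), hxy⟩
    obtain ⟨s2, sT, sy⟩ := hs
    have a1 : V2 (k2 + 1) ∈ G.ends y := by
      rw [← y2, w2.ends]; exact Sym2.mem_mk_right _ _
    have a2 : V2 (k2 + 1) ∈ G.ends (E2 (k2 + 1)) := by
      rw [w2.ends]; exact Sym2.mem_mk_left _ _
    exact ⟨_, sT, s2, fun sD => sy (h.nadj _ _ hy1 hy2 sD s2 (V2 (k2 + 1)) a1 a2).symm,
      _, a2, a1⟩
  · obtain ⟨k1, k2, V1, V2, E1, E2, w1, w2, i1, i2, pk1, lk1, pk2, lk2, x1, x2, y1, y2, hv0, hvk,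
      m1, m1', m2, m2'⟩ := walk_same h1 h2 hx1 hx2 hy1 hy2 hxy dx dy
    have hs : E1 1 ∈ D1 ∧ E1 1 ∈ T ∧ E1 1 ≠ x := by
      have hne : E1 1 ≠ x := by
        intro h'
        rw [← x1] at h'
        have := i1 _ _ (by omega) (by omega) h'
        omega
      rcases Nat.lt_or_ge 1 k1 with c | c
      · obtain ⟨g1, g2⟩ := m1 1 (by omega) c
        exact ⟨g1, (hT _).2 (Or.inr (Or.inr (Or.inl ⟨g1, g2⟩))), hne⟩
      · have h3 : 1 = k1 := by omega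
        have h4 : E1 1 = y := by rw [h3, y1]
        rw [h4] at hne ⊢
        exact ⟨hy1, (hT _).2 (Or.inr (Or.inl rfl)), hne⟩
    obtain ⟨s2, sT, sx⟩ := hs
    have a1 : V1 1 ∈ G.ends x := by
      rw [← x1, w1.ends]; exact Sym2.mem_mk_right _ _
    have a2 : V1 1 ∈ G.ends (E1 1) := by
      rw [w1.ends]; exact Sym2.mem_mk_left _ _
    exact ⟨_, sT, s2, fun sD => sx (h.nadj _ _ hx1 hx2 s2 sD (V1 1) a1 a2).symm, _, a2, a1⟩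

/-- **blue pairs** -/
theorem Piece.trail_oppS (h : G.Piece D1 D2) (h1 : Enum G D1 n1 v1 e1)
    (h2 : Enum G D2 n2 v2 e2) (hx1 : x ∈ D1) (hx2 : x ∈ D2) (hy1 : y ∈ D1) (hy2 : y ∈ D2)
    (hxy : x ≠ y) (dx : ¬ SameDir v1 e1 v2 e2 x) (dy : ¬ SameDir v1 e1 v2 e2 y)
    (hemp : ∀ t, t ∈ D1 → t ∈ D2 → ¬ InD (idx e1) (idx e2) x y t) :
    ∃ T, TrailConcS G D1 D2 x y T ∧
      TrailConc G D1 D2 x y T (CutOpp D1 D2 v1 e1 v2 e2 x y) := by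
  obtain ⟨-, hd⟩ := rev_facts h1 h2
  obtain ⟨T, hS, g1, g2, g3, g4, g5, g6, g7⟩ := h.trail_sameS h1 h2.rev hx1 hx2 hy1 hy2 hxy
    ((hd x hx1 hx2).2 dx) ((hd y hy1 hy2).2 dy)
    (fun t ht1 ht2 h' => hemp t ht1 ht2 ((inD_iff h1 h2 hx2 hy2 ht2).2 h'))
  refine ⟨T, hS, g1, g2, g3, g4, g5, g6, ?_⟩
  intro hnr
  obtain ⟨u, k1, k2, k3, k4, k5⟩ := g7 hnr
  refine ⟨u, k1, k2, (inD_iff h1 h2 hy2 hx2 k2).2 k3, ?_, ?_⟩
  · by_contra h'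
    exact k4 ((hd u k1 k2).2 h')
  · intro t t1 t2 ht
    rcases k5 t t1 t2 ((inD_iff h1 h2 hy2 hx2 t2).1 ht) with h' | h' | h'
    · exact Or.inl h'
    · exact Or.inr (Or.inl ((inD_iff h1 h2 hy2 k2 t2).2 h'))
    · exact Or.inr (Or.inr ((inD_iff h1 h2 k2 hx2 t2).2 h'))

end MGraph

end Pool.GOD
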