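import Mathlib

/-!
# S2 (MP_7b7176_co): signed cyclic words (helper12's proof)

The letters of a signed cyclic word `D` are linearly ordered by `κ` (their order along the
circuit `K`).  If every valid pair has a splitter, then there is no valid pair.
The linear core works with `L : α → ℤ`, the position on `D` seen from a base letter.
-/

set_option autoImplicit false

namespace Pool.GOD.S2

open Classical

variable {α : Type*}

/-- `x` lies strictly inside the forward arc from `a` to `b` -/
def FA (L : α → ℤ) (a b x : α) : Prop :=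
  (L a < L b ∧ L a < L x ∧ L x < L b) ∨ (L b < L a ∧ (L a < L x ∨ L x < L b))

/-- valid pair of plus letters -/
def Vp (κ L : α → ℤ) (pl : α → Prop) (a c : α) : Prop :=
  κ a < κ c ∧ pl a ∧ pl c ∧ ∀ x, κ a < κ x → κ x < κ c → FA L a c x

/-- valid pair of minus letters -/
def Vm (κ L : α → ℤ) (pl : α → Prop) (a c : α) : Prop :=
  κ a < κ c ∧ ¬ pl a ∧ ¬ pl c ∧ ∀ x, κ a < κ x → κ x < κ c → FA L c a x

/-- left splitter of a pair of plus letters -/
def LSp (κ L : α → ℤ) (pl : α → Prop) (FU : α → α → Prop) (a c w : α) : Prop :=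
  κ w < κ a ∧ ¬ pl w ∧ FA L a c w ∧ FU a w ∧
    (∀ x, FA L a w x → κ w < κ x ∧ κ x < κ c) ∧
    (∀ x, FA L w c x → ¬ (κ w < κ x ∧ κ x < κ a))

/-- left splitter of a pair of minus letters -/
def LSm (κ L : α → ℤ) (pl : α → Prop) (FU : α → α → Prop) (a c w : α) : Prop :=
  κ w < κ a ∧ pl w ∧ FA L c a w ∧ FU w a ∧
    (∀ x, FA L w a x → κ w < κ x ∧ κ x < κ c) ∧
    (∀ x, FA L c w x → ¬ (κ w < κ x ∧ κ x < κ a))

/-- right splitter of a pair of plus letters -/
def RSp (κ L : α → ℤ) (pl : α → Prop) (FU : α → α → Prop) (a c u : α) : Prop :=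
  κ c < κ u ∧ ¬ pl u ∧ FA L a c u ∧ FU u c ∧
    (∀ x, FA L u c x → κ a < κ x ∧ κ x < κ u) ∧
    (∀ x, FA L a u x → ¬ (κ c < κ x ∧ κ x < κ u))

lemma exMax [Finite α] (g : α → ℤ) (S : α → Prop) (h : ∃ x, S x) :
    ∃ x, S x ∧ ∀ y, S y → g y ≤ g x := by
  obtain ⟨x, hx, hm⟩ := Set.exists_max_image {x | S x} g (Set.toFinite _) h
  exact ⟨x, hx, hm⟩

lemma exMin [Finite α] (g : α → ℤ) (S : α → Prop) (h : ∃ x, S x) :
    ∃ x, S x ∧ ∀ y, S y → g x ≤ g y := by
  obtain ⟨x, hx, hm⟩ := Set.exists_min_image {x | S x} g (Set.toFinite _) h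
  exact ⟨x, hx, hm⟩

section five

variable [Finite α] {κ L : α → ℤ} (hκ : Function.Injective κ) (hL : Function.Injective L)
  {pl : α → Prop} {FU : α → α → Prop} {a b : α}

include hκ hL

/-- the inner states -/
lemma inner
    (H2p : ∀ x y, κ a < κ x → Vp κ L pl x y → ∃ w, LSp κ L pl FU x y w)
    (H2m : ∀ x y, κ a < κ x → Vm κ L pl x y → ∃ w, LSm κ L pl FU x y w)
    (hC : ∀ g w t, ¬ pl w → κ w < κ t → L g < L w → FU g w →
      (∀ c, (L g < L c ∧ L c < L w ∨ c = g) ↔ (κ w < κ c ∧ κ c ≤ κ t)) → False)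
    (f : α) (hf : pl f) :
    ∀ N : ℕ, ∀ (w : α) (e : ℤ), (e - κ f).toNat ≤ N → ¬ pl w → κ a < κ w → κ w < κ f →
      κ f < e → L f < L w → FU f w →
      (∀ x, L f < L x → L x < L w → κ w < κ x ∧ κ x < e) →
      (∀ x, κ w < κ x → κ x < κ f → L f < L x ∧ L x < L w) →
      (∀ x, κ f < κ x → κ x < e → L f < L x) → False := by
  intro N
  induction N with
  | zero => intro w e hN _ _ _ he; omega
  | succ N ih =>
    intro w e hN hw haw hwf hfe hfw hU hA hB hO
    obtain ⟨t, ht, htm⟩ := exMax κ (fun x => (L f < L x ∧ L x < L w) ∨ x = f) ⟨f, Or.inr rfl⟩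
    have hft : κ f ≤ κ t := htm f (Or.inr rfl)
    by_cases hS : ∃ x, (κ f < κ x ∧ κ x < κ t) ∧ ¬ (L f < L x ∧ L x < L w)
    · obtain ⟨b1, ⟨⟨hb1, hb2⟩, hb3⟩, hbm⟩ := exMin κ _ hS
      have htf : t ≠ f := by rintro rfl; omega
      have ht' : L f < L t ∧ L t < L w := by
        rcases ht with h | h
        · exact h
        · exact absurd h htf
      have hte : κ t < e := (hA t ht'.1 ht'.2).2
      have hfb : L f < L b1 := hO b1 hb1 (by omega)
      have hbw : L b1 ≠ L w := fun h => by have := hL h; subst this; omega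
      have hwb : L w < L b1 := by
        by_contra hh
        exact hb3 ⟨hfb, by omega⟩
      have hin : ∀ x, κ w < κ x → κ x < κ b1 → L f ≤ L x ∧ L x < L w := by
        intro x hx1 hx2
        rcases lt_trichotomy (κ x) (κ f) with h | h | h
        · have := hB x hx1 h; omega
        · have := hκ h; subst this; omega
        · by_contra hcon
          have := hbm x ⟨⟨h, by omega⟩, fun h' => hcon ⟨by omega, h'.2⟩⟩
          omega
      by_cases hpb : pl b1
      · have hV : Vp κ L pl f b1 := by
          refine ⟨hb1, hf, hpb, fun x hx1 hx2 => Or.inl ⟨hfb, ?_, ?_⟩⟩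
          · exact hO x hx1 (by omega)
          · have := hin x (by omega) hx2; omega
        obtain ⟨v, hv1, hv2, hv3, hv4, hv5, hv6⟩ := H2p f b1 (by omega) hV
        have hv3' : L f < L v ∧ L v < L b1 := by
          rcases hv3 with h | h
          · exact ⟨h.2.1, h.2.2⟩
          · omega
        have hvt : L v < L t := by
          have hne : L v ≠ L t := fun h => by have := hL h; subst this; omega
          by_contra hcon
          have := hv5 t (Or.inl ⟨hv3'.1, ht'.1, by omega⟩)
          omega
        have hwv : κ w < κ v := (hA v hv3'.1 (by omega)).1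
        refine ih v (κ b1) (by omega) hv2 (by omega) hv1 hb1 hv3'.1 hv4 ?_ ?_ ?_
        · intro x hx1 hx2
          exact hv5 x (Or.inl ⟨hv3'.1, hx1, hx2⟩)
        · intro x hx1 hx2
          have h1 := hB x (by omega) hx2
          refine ⟨h1.1, ?_⟩
          by_contra hcon
          have hne : L x ≠ L v := fun h => by have := hL h; subst this; omega
          exact hv6 x (Or.inl ⟨hv3'.2, by omega, by omega⟩) ⟨hx1, hx2⟩
        · intro x hx1 hx2
          exact hO x hx1 (by omega)
      · have hV : Vm κ L pl w b1 := by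
          refine ⟨by omega, hw, hpb, fun x hx1 hx2 => Or.inr ⟨hwb, Or.inr ?_⟩⟩
          exact (hin x hx1 hx2).2
        obtain ⟨v, hv1, hv2, hv3, hv4, hv5, hv6⟩ := H2m w b1 haw hV
        have hne : L v ≠ L w := fun h => by have := hL h; subst this; omega
        have hne' : L v ≠ L t := fun h => by have := hL h; subst this; omega
        have hvw : L v < L w := by
          by_contra hcon
          have := hv5 t (Or.inr ⟨by omega, Or.inr ht'.2⟩)
          omega
        have htv : L t < L v := by
          by_contra hcon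
          have := hv5 t (Or.inl ⟨hvw, by omega, ht'.2⟩)
          omega
        have := hA v (by omega) hvw
        omega
    · refine hC f w t hw (by omega) hfw hU ?_
      intro c
      constructor
      · intro hc
        refine ⟨?_, htm c hc⟩
        rcases hc with h | h
        · exact (hA c h.1 h.2).1
        · subst h; exact hwf
      · rintro ⟨hc1, hc2⟩
        rcases lt_trichotomy (κ c) (κ f) with h | h | h
        · exact Or.inl (hB c hc1 h)
        · exact Or.inr (hκ h)
        · rcases lt_or_eq_of_le hc2 with h2 | h2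
          · left
            by_contra hcon
            exact hS ⟨c, ⟨h, h2⟩, hcon⟩
          · have := hκ h2; subst this; exact ht

/-- step (5) of the proof -/
lemma five (hab : κ a < κ b) (hb : pl b)
    (H1 : ∀ c, κ a < κ c → κ c ≤ κ b → pl c → (∀ x, κ c < κ x → κ x ≤ κ b → L c < L x) →
      ∃ w, κ a < κ w ∧ κ w < κ c ∧ ¬ pl w ∧ L c < L w ∧ FU c w ∧
        (∀ x, L c < L x → L x < L w → κ w < κ x ∧ κ x ≤ κ b) ∧
        (∀ x, κ w < κ x → κ x < κ c → L x < L w))
    (H2p : ∀ x y, κ a < κ x → Vp κ L pl x y → ∃ w, LSp κ L pl FU x y w)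
    (H2m : ∀ x y, κ a < κ x → Vm κ L pl x y → ∃ w, LSm κ L pl FU x y w)
    (hC : ∀ g w t, ¬ pl w → κ w < κ t → L g < L w → FU g w →
      (∀ c, (L g < L c ∧ L c < L w ∨ c = g) ↔ (κ w < κ c ∧ κ c ≤ κ t)) → False) : False := by
  have key : ∀ N : ℕ, ∀ g w : α, (κ g - κ a).toNat ≤ N → pl g → ¬ pl w → κ a < κ w →
      κ w < κ g → κ g ≤ κ b → L g < L w → FU g w →
      (∀ x, L g < L x → L x < L w → κ w < κ x ∧ κ x ≤ κ b) →
      (∀ x, κ w < κ x → κ x ≤ κ b → L x < L w) →
      (∀ x, κ g < κ x → κ x ≤ κ b → L g < L x) → False := by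
    intro N
    induction N with
    | zero => intro g w hN _ _ _ _; omega
    | succ N ih =>
      intro g w hN hg hw haw hwg hgb hgw hU hA hB hG
      obtain ⟨f, ⟨hf1, hf2⟩, hfm⟩ := exMin L (fun x => κ w ≤ κ x ∧ κ x ≤ κ b)
        ⟨g, by omega, hgb⟩
      have hfg : L f ≤ L g := hfm g ⟨by omega, hgb⟩
      have hfw : f ≠ w := by rintro rfl; omega
      have hwf : κ w < κ f := lt_of_le_of_ne hf1 (fun h => hfw (hκ h).symm)
      by_cases hfe : f = g
      · subst hfe
        refine hC f w b hw (by omega) hgw hU ?_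
        intro c
        constructor
        · rintro (h | h)
          · exact hA c h.1 h.2
          · subst h; exact ⟨hwf, hgb⟩
        · rintro ⟨hc1, hc2⟩
          have h1 := hfm c ⟨by omega, hc2⟩
          have h2 := hB c hc1 hc2
          rcases lt_or_eq_of_le h1 with h | h
          · exact Or.inl ⟨h, h2⟩
          · exact Or.inr (hL h).symm
      · have hfg' : κ f < κ g := by
          by_contra hcon
          have : κ g < κ f := lt_of_le_of_ne (by omega) (fun h => hfe (hκ h).symm)
          have := hG f this hf2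
          omega
        have hmin : ∀ x, κ w ≤ κ x → κ x ≤ κ b → κ x ≠ κ f → L f < L x := by
          intro x hx1 hx2 hx3
          refine lt_of_le_of_ne (hfm x ⟨hx1, hx2⟩) (fun h => hx3 ?_)
          rw [hL h]
        by_cases hpf : pl f
        · obtain ⟨v, hv1, hv2, hv3, hv4, hv5, hv6, hv7⟩ := H1 f (by omega) hf2 hpf
            (fun x hx1 hx2 => hmin x (by omega) hx2 (by omega))
          by_cases hvw : κ v ≤ κ w
          · have hwv : L w ≤ L v := by
              rcases lt_or_eq_of_le hvw with h | h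
              · exact (hv7 w h hwf).le
              · rw [hκ h]
            refine ih f v (by omega) hpf hv3 hv1 hv2 hf2 hv4 hv5 hv6 ?_ ?_
            · intro x hx1 hx2
              rcases lt_or_ge (κ x) (κ f) with h | h
              · exact hv7 x hx1 h
              · have := hB x (by omega) hx2
                omega
            · intro x hx1 hx2
              exact hmin x (by omega) hx2 (by omega)
          · refine inner hκ hL H2p H2m hC f hpf _ v (κ b + 1) le_rfl hv3 hv1 hv2 (by omega)
              hv4 hv5 ?_ ?_ ?_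
            · intro x hx1 hx2
              have := hv6 x hx1 hx2
              omega
            · intro x hx1 hx2
              exact ⟨hmin x (by omega) (by omega) (by omega), hv7 x hx1 hx2⟩
            · intro x hx1 hx2
              exact hmin x (by omega) (by omega) (by omega)
        · have hV : Vm κ L pl w f := by
            refine ⟨hwf, hw, hpf, fun x hx1 hx2 => Or.inl ⟨by omega, ?_, ?_⟩⟩
            · exact hmin x (by omega) (by omega) (by omega)
            · exact hB x hx1 (by omega)
          obtain ⟨v, hv1, hv2, hv3, hv4, hv5, hv6⟩ := H2m w f haw hV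
          have hv3' : L f < L v ∧ L v < L w := by
            rcases hv3 with h | h
            · exact ⟨h.2.1, h.2.2⟩
            · omega
          have hgv : L g < L v := by
            have hne : L v ≠ L g := fun h => by have := hL h; subst this; omega
            by_contra hcon
            have := hv5 g (Or.inl ⟨hv3'.2, by omega, hgw⟩)
            omega
          have := hA v hgv hv3'.2
          omega
  obtain ⟨w, hw1, hw2, hw3, hw4, hw5, hw6, hw7⟩ := H1 b hab le_rfl hb
    (fun x hx1 hx2 => by omega)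
  refine key _ b w le_rfl hb hw3 hw1 hw2 le_rfl hw4 hw5 hw6 ?_ (fun x hx1 hx2 => by omega)
  intro x hx1 hx2
  rcases lt_or_eq_of_le hx2 with h | h
  · exact hw7 x hx1 h
  · rw [hκ h]; exact hw4

end five

section mirror

variable {κ L : α → ℤ} {pl : α → Prop} {FU : α → α → Prop}

lemma FA_neg (a b x : α) : FA (fun y => - L y) a b x ↔ FA L b a x := by
  unfold FA
  beta_reduce
  constructor
  · rintro (h | ⟨h, h2⟩)
    · left; omega
    · right; refine ⟨by omega, ?_⟩; omega
  · rintro (h | ⟨h, h2⟩)
    · left; omega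
    · right; refine ⟨by omega, ?_⟩; omega

lemma Vp_neg (a c : α) :
    Vp κ (fun y => - L y) (fun y => ¬ pl y) a c ↔ Vm κ L pl a c := by
  simp only [Vp, Vm, FA_neg]

lemma Vm_neg (a c : α) :
    Vm κ (fun y => - L y) (fun y => ¬ pl y) a c ↔ Vp κ L pl a c := by
  simp only [Vp, Vm, FA_neg, not_not]

lemma LSp_neg (a c w : α) :
    LSp κ (fun y => - L y) (fun y => ¬ pl y) (fun y z => FU z y) a c w ↔
      LSm κ L pl FU a c w := by
  simp only [LSp, LSm, FA_neg, not_not]

lemma LSm_neg (a c w : α) :
    LSm κ (fun y => - L y) (fun y => ¬ pl y) (fun y z => FU z y) a c w ↔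
      LSp κ L pl FU a c w := by
  simp only [LSp, LSm, FA_neg]

end mirror

section core

variable [Finite α] {κ L : α → ℤ} (hκ : Function.Injective κ) (hL : Function.Injective L)
  {pl : α → Prop} {FU : α → α → Prop}

include hκ hL

/-- steps (2) - (5) of the proof -/
lemma core {mk : ℤ → Prop} {p q u : α}
    (hFU : ∀ a b, L a < L b → (FU a b ↔ ∀ j, L a ≤ j → j < L b → ¬ mk j))
    (hp0 : ∀ x, x ≠ p → L p < L x)
    (hV : Vp κ L pl p q) (hR : RSp κ L pl FU p q u) (hQ : ∀ w, ¬ LSp κ L pl FU p q w)
    (hq : ∀ z, κ q < κ z → Vp κ L pl p z → ∃ w, LSp κ L pl FU p z w)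
    (H2p : ∀ x y, κ p < κ x → Vp κ L pl x y → ∃ w, LSp κ L pl FU x y w)
    (H2m : ∀ x y, κ p < κ x → Vm κ L pl x y → ∃ w, LSm κ L pl FU x y w)
    (hCm : ∀ g w t, ¬ pl w → κ w < κ t → L g < L w → FU g w →
      (∀ c, (L g < L c ∧ L c < L w ∨ c = g) ↔ (κ w < κ c ∧ κ c ≤ κ t)) → False)
    (hCp : ∀ g w t, pl w → κ w < κ t → L w < L g → FU w g →
      (∀ c, (L w < L c ∧ L c < L g ∨ c = g) ↔ (κ w < κ c ∧ κ c ≤ κ t)) → False)
    (hCl : ∀ y w t, ¬ pl w → κ t < κ w → L w < L y → FU w y →
      (∀ c, (L w < L c ∧ L c < L y ∨ c = y) ↔ (κ t ≤ κ c ∧ κ c < κ w)) → False) : False := by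
  obtain ⟨hpq, hpp, hpq', hVx⟩ := hV
  obtain ⟨hqu, hu, hu1, hu2, hu3, hu4⟩ := hR
  have hne : ∀ {x y : α}, κ x ≠ κ y → L x ≠ L y := fun h h' => h (by rw [hL h'])
  have hne' : ∀ {x y : α}, L x ≠ L y → κ x ≠ κ y := fun h h' => h (by rw [hκ h'])
  have hpL : ∀ x, κ x ≠ κ p → L p < L x := fun x h => hp0 x (fun h' => h (by rw [h']))
  have hpuq : L p < L u ∧ L u < L q := by
    have h0 := hpL u (by omega)
    have h0' := hpL q (by omega)
    rcases hu1 with h | h
    · exact ⟨h.2.1, h.2.2⟩
    · omega
  have hpq2 : ∀ x, κ p < κ x → κ x < κ q → L p < L x ∧ L x < L q := by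
    intro x h1 h2
    rcases hVx x h1 h2 with h | h
    · exact ⟨h.2.1, h.2.2⟩
    · omega
  -- columns between q and u lie behind u
  have hqu2 : ∀ x, κ q < κ x → κ x < κ u → L u < L x := by
    intro x h1 h2
    by_contra hcon
    have := hne (x := x) (y := u) (by omega)
    exact hu4 x (Or.inl ⟨hpuq.1, hpL x (by omega), by omega⟩) ⟨h1, h2⟩
  -- lemma A
  have lemA : ∀ v, κ q < κ v → κ v < κ u → L q < L v → ¬ Vp κ L pl p v := by
    intro v hv1 hv2 hv3 hv
    obtain ⟨w, hw1, hw2, hw3, hw4, hw5, hw6⟩ := hq v hv1 hv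
    have hw3' : L p < L w ∧ L w < L v := by
      rcases hw3 with h | h
      · exact ⟨h.2.1, h.2.2⟩
      · omega
    have hwu : L w < L u := by
      have := hne (x := w) (y := u) (by omega)
      by_contra hcon
      have := hw5 u (Or.inl ⟨hw3'.1, hpuq.1, by omega⟩)
      omega
    refine hQ w ⟨hw1, hw2, Or.inl ⟨by omega, hw3'.1, by omega⟩, hw4, ?_, ?_⟩
    · intro x hx
      have h1 := hw5 x hx
      refine ⟨h1.1, ?_⟩
      have hx' : L p < L x ∧ L x < L w := by
        rcases hx with h | h
        · exact ⟨h.2.1, h.2.2⟩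
        · omega
      have h2 := hu4 x (Or.inl ⟨hpuq.1, hx'.1, by omega⟩)
      have h3 := hne' (x := x) (y := q) (by omega)
      by_contra hcon
      exact h2 ⟨by omega, by omega⟩
    · intro x hx
      refine hw6 x ?_
      rcases hx with h | h
      · exact Or.inl ⟨hw3'.2, h.2.1, by omega⟩
      · omega
  -- step (2)
  obtain ⟨y, hy1, hy2, hy3, hy4⟩ : ∃ y, L q ≤ L y ∧ FU u y ∧
      (∀ x, L u < L x → L x ≤ L y → κ p < κ x ∧ κ x < κ u) ∧
      (∀ x, κ q < κ x → κ x < κ u → L u < L x ∧ L x ≤ L y) := by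
    have hq3 : ∀ x, L u < L x → L x ≤ L q → κ p < κ x ∧ κ x < κ u := by
      intro x h1 h2
      rcases lt_or_eq_of_le h2 with h | h
      · exact hu3 x (Or.inl ⟨hpuq.2, h1, h⟩)
      · have := hL h; subst this; exact ⟨hpq, hqu⟩
    by_cases hZ : ∃ x, (κ q < κ x ∧ κ x < κ u) ∧ L q < L x
    · obtain ⟨z, ⟨⟨hz1, hz2⟩, hz3⟩, hzm⟩ := exMax L _ hZ
      have hzm' : ∀ x, κ q < κ x → κ x < κ u → L x ≤ L z := by
        intro x h1 h2
        by_cases h : L q < L x
        · exact hzm x ⟨⟨h1, h2⟩, h⟩
        · omega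
      by_cases hpz : pl z
      · exfalso
        refine lemA z hz1 hz2 hz3 ⟨by omega, hpp, hpz, fun x hx1 hx2 => Or.inl ⟨by omega,
          hpL x (by omega), ?_⟩⟩
        rcases lt_trichotomy (κ x) (κ q) with h | h | h
        · have := hpq2 x hx1 h; omega
        · have := hκ h; subst this; exact hz3
        · have := hzm' x h (by omega)
          have := hne (x := x) (y := z) (by omega)
          omega
      · have hVm : Vm κ L pl z u := by
          refine ⟨hz2, hpz, hu, fun x hx1 hx2 => Or.inl ⟨by omega, ?_, ?_⟩⟩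
          · exact hqu2 x (by omega) hx2
          · have := hzm' x (by omega) hx2
            have := hne (x := x) (y := z) (by omega)
            omega
        obtain ⟨v, hv1, hv2, hv3, hv4, hv5, hv6⟩ := H2m z u (by omega) hVm
        have hv3' : L u < L v ∧ L v < L z := by
          rcases hv3 with h | h
          · exact ⟨h.2.1, h.2.2⟩
          · omega
        have hvz : ∀ x, L v < L x → L x < L z → κ v < κ x ∧ κ x < κ u :=
          fun x h1 h2 => hv5 x (Or.inl ⟨hv3'.2, h1, h2⟩)
        have hqv : L v ≤ L q := by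
          by_contra hcon
          have h1 := hv6 q (Or.inl ⟨hv3'.1, hpuq.2, by omega⟩)
          have h2 := hne' (x := v) (y := q) (by omega)
          have h3 : κ q < κ v := by
            by_contra hcon2
            exact h1 ⟨by omega, by omega⟩
          refine lemA v h3 (by omega) (by omega) ⟨by omega, hpp, hv2, fun x hx1 hx2 =>
            Or.inl ⟨by have := hpL v (by omega); omega, hpL x (by omega), ?_⟩⟩
          rcases lt_trichotomy (κ x) (κ q) with h | h | h
          · have := hpq2 x hx1 h; omega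
          · have := hκ h; subst this; omega
          · have h4 := hzm' x h (by omega)
            have h5 := hne (x := x) (y := z) (by omega)
            have h6 := hne (x := x) (y := v) (by omega)
            by_contra hcon2
            have := hvz x (by omega) (by omega)
            omega
        have hpv : κ p < κ v := by
          rcases lt_or_eq_of_le hqv with h | h
          · exact (hu3 v (Or.inl ⟨hpuq.2, hv3'.1, h⟩)).1
          · have := hL h; subst this; exact hpq
        refine ⟨z, hz3.le, ?_, ?_, ?_⟩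
        · rw [hFU u z (by omega)]
          intro j hj1 hj2
          rcases lt_or_ge j (L q) with h | h
          · exact (hFU u q hpuq.2).1 hu2 j hj1 h
          · exact (hFU v z hv3'.2).1 hv4 j (by omega) hj2
        · intro x hx1 hx2
          rcases le_or_gt (L x) (L q) with h | h
          · exact hq3 x hx1 h
          · rcases lt_or_eq_of_le hx2 with h2 | h2
            · have := hvz x (by omega) h2
              omega
            · have := hL h2; subst this; omega
        · intro x hx1 hx2
          exact ⟨hqu2 x hx1 hx2, hzm' x hx1 hx2⟩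
    · refine ⟨q, le_rfl, hu2, hq3, fun x hx1 hx2 => ⟨hqu2 x hx1 hx2, ?_⟩⟩
      by_contra hcon
      exact hZ ⟨x, ⟨hx1, hx2⟩, by omega⟩
  -- step (3)
  have h3 : ∀ d, κ p ≤ κ d → κ d < κ q → ¬ (∀ x, (L u < L x ∧ L x ≤ L y) ↔
      (κ d < κ x ∧ κ x < κ u)) := by
    intro d hd1 hd2 hd
    obtain ⟨t, ht, htm⟩ := exMin κ (fun x => κ d < κ x) ⟨q, hd2⟩
    have htq := htm q hd2
    refine hCl y u t hu (by omega) (by omega) hy2 ?_
    intro c
    have hc := hd c
    constructor
    · intro h
      have h' : L u < L c ∧ L c ≤ L y := by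
        rcases h with h | h
        · omega
        · subst h; omega
      have h2 := hc.1 h'
      exact ⟨htm c h2.1, h2.2⟩
    · rintro ⟨h1, h2⟩
      have h4 := hc.2 ⟨by omega, h2⟩
      rcases lt_or_eq_of_le h4.2 with h | h
      · exact Or.inl ⟨h4.1, h⟩
      · exact Or.inr (hL h)
  have hqS : L u < L q ∧ L q ≤ L y := ⟨hpuq.2, hy1⟩
  obtain ⟨b, hb1, hb2, hb3, hbm⟩ : ∃ b, κ p < κ b ∧ κ b < κ q ∧ L b < L u ∧
      ∀ x, κ b < κ x → κ x < κ q → L u < L x := by
    have hex : ∃ x, (κ p < κ x ∧ κ x < κ q) ∧ L x < L u := by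
      by_contra hcon
      refine h3 p le_rfl hpq (fun x => ⟨fun h => hy3 x h.1 h.2, fun h => ?_⟩)
      rcases lt_trichotomy (κ x) (κ q) with h' | h' | h'
      · have h4 := hpq2 x h.1 h'
        have h5 := hne (x := x) (y := u) (by omega)
        have h6 : ¬ L x < L u := fun h6 => hcon ⟨x, ⟨h.1, h'⟩, h6⟩
        omega
      · have := hκ h'; subst this; exact hqS
      · exact hy4 x h' h.2
    obtain ⟨b, ⟨⟨hb1, hb2⟩, hb3⟩, hbm⟩ := exMax κ _ hex
    refine ⟨b, hb1, hb2, hb3, fun x hx1 hx2 => ?_⟩
    have h5 := hne (x := x) (y := u) (by omega)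
    by_contra hcon
    have := hbm x ⟨⟨by omega, hx2⟩, by omega⟩
    omega
  obtain ⟨a, ha1, ha2, ha3, ham⟩ : ∃ a, κ p < κ a ∧ κ a < κ b ∧ L u < L a ∧
      ∀ x, κ a < κ x → κ x ≤ κ b → L x < L u := by
    have hex : ∃ x, (κ p < κ x ∧ κ x < κ b) ∧ L u < L x := by
      by_contra hcon
      refine h3 b hb1.le hb2 (fun x => ⟨fun h => ⟨?_, (hy3 x h.1 h.2).2⟩, fun h => ?_⟩)
      · have h4 := hy3 x h.1 h.2
        by_contra hcon2
        rcases lt_or_eq_of_le (not_lt.1 hcon2) with h5 | h5
        · exact hcon ⟨x, ⟨h4.1, h5⟩, h.1⟩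
        · have := hκ h5; subst this; omega
      · rcases lt_trichotomy (κ x) (κ q) with h' | h' | h'
        · have h4 := hpq2 x (by omega) h'
          have := hbm x h.1 h'
          omega
        · have := hκ h'; subst this; exact hqS
        · exact hy4 x h' h.2
    obtain ⟨a, ⟨⟨ha1, ha2⟩, ha3⟩, ham⟩ := exMax κ _ hex
    refine ⟨a, ha1, ha2, ha3, fun x hx1 hx2 => ?_⟩
    rcases lt_or_eq_of_le hx2 with h | h
    · have h5 := hne (x := x) (y := u) (by omega)
      by_contra hcon
      have := ham x ⟨⟨by omega, h⟩, by omega⟩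
      omega
    · rw [hκ h]; exact hb3
  have haq : L a < L q := (hpq2 a ha1 (by omega)).2
  -- step (4), plus
  have H1p : ∀ c, κ a < κ c → κ c ≤ κ b → pl c →
      (∀ x, κ c < κ x → κ x ≤ κ b → L c < L x) →
      ∃ w, κ a < κ w ∧ κ w < κ c ∧ ¬ pl w ∧ L c < L w ∧ FU c w ∧
        (∀ x, L c < L x → L x < L w → κ w < κ x ∧ κ x ≤ κ b) ∧
        (∀ x, κ w < κ x → κ x < κ c → L x < L w) := by
    intro c hc1 hc2 hc3 hc4
    have hcu : L c < L u := ham c hc1 hc2
    have hV' : Vp κ L pl c q := by
      refine ⟨by omega, hc3, hpq', fun x hx1 hx2 => Or.inl ⟨by omega, ?_, ?_⟩⟩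
      · rcases le_or_gt (κ x) (κ b) with h | h
        · exact hc4 x hx1 h
        · have := hbm x h hx2; omega
      · exact (hpq2 x (by omega) hx2).2
    obtain ⟨w, hw1, hw2, hw3, hw4, hw5, hw6⟩ := H2p c q (by omega) hV'
    have hw3' : L c < L w ∧ L w < L q := by
      rcases hw3 with h | h
      · exact ⟨h.2.1, h.2.2⟩
      · omega
    have hwu : L w < L u := by
      have := hne (x := w) (y := u) (by omega)
      by_contra hcon
      have := hw5 u (Or.inl ⟨hw3'.1, hcu, by omega⟩)
      omega
    have haw : κ a < κ w := by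
      have := hne' (x := w) (y := a) (by omega)
      by_contra hcon
      exact hw6 a (Or.inl ⟨hw3'.2, by omega, haq⟩) ⟨by omega, hc1⟩
    refine ⟨w, haw, hw1, hw2, hw3'.1, hw4, ?_, ?_⟩
    · intro x hx1 hx2
      have h1 := hw5 x (Or.inl ⟨hw3'.1, hx1, hx2⟩)
      refine ⟨h1.1, ?_⟩
      by_contra hcon
      have := hbm x (by omega) h1.2
      omega
    · intro x hx1 hx2
      have h1 := hne (x := x) (y := w) (by omega)
      have h2 := ham x (by omega) (by omega)
      by_contra hcon
      exact hw6 x (Or.inl ⟨hw3'.2, by omega, by omega⟩) ⟨hx1, hx2⟩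
  -- step (4), minus
  have H1m : ∀ c, κ a < κ c → κ c ≤ κ b → ¬ pl c →
      (∀ x, κ c < κ x → κ x ≤ κ b → L x < L c) →
      ∃ w, κ a < κ w ∧ κ w < κ c ∧ pl w ∧ L w < L c ∧ FU w c ∧
        (∀ x, L w < L x → L x < L c → κ w < κ x ∧ κ x ≤ κ b) ∧
        (∀ x, κ w < κ x → κ x < κ c → L w < L x) := by
    intro c hc1 hc2 hc3 hc4
    have hcu : L c < L u := ham c hc1 hc2
    have hcL : L p < L c := hpL c (by omega)
    have hV' : Vm κ L pl c u := by
      refine ⟨by omega, hc3, hu, fun x hx1 hx2 => Or.inr ⟨hcu, ?_⟩⟩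
      rcases le_or_gt (κ x) (κ b) with h | h
      · exact Or.inr (hc4 x hx1 h)
      · left
        rcases lt_trichotomy (κ x) (κ q) with h' | h' | h'
        · exact hbm x h h'
        · have := hκ h'; subst this; exact hpuq.2
        · exact hqu2 x h' hx2
    obtain ⟨w, hw1, hw2, hw3, hw4, hw5, hw6⟩ := H2m c u (by omega) hV'
    have hwc : L w < L c := by
      have hnc := hne (x := w) (y := c) (by omega)
      by_contra hcon
      have hwu : L u < L w := by
        rcases hw3 with h | h
        · omega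
        · omega
      have h1 := hw5 p (Or.inr ⟨by omega, Or.inr hcL⟩)
      rcases lt_trichotomy (L w) (L q) with h | h | h
      · have := hu3 w (Or.inl ⟨hpuq.2, hwu, h⟩)
        omega
      · have := hL h; subst this; omega
      · exact hw6 a (Or.inl ⟨hwu, ha3, by omega⟩) ⟨by omega, hc1⟩
    have haw : κ a < κ w := by
      have := hne' (x := w) (y := a) (by omega)
      by_contra hcon
      exact hw6 a (Or.inr ⟨by omega, Or.inl ha3⟩) ⟨by omega, hc1⟩
    refine ⟨w, haw, hw1, hw2, hwc, hw4, ?_, ?_⟩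
    · intro x hx1 hx2
      have h1 := hw5 x (Or.inl ⟨hwc, hx1, hx2⟩)
      refine ⟨h1.1, ?_⟩
      by_contra hcon
      rcases lt_trichotomy (κ x) (κ q) with h' | h' | h'
      · have := hbm x (by omega) h'
        omega
      · have := hκ h'; subst this; omega
      · have := hqu2 x h' h1.2
        omega
    · intro x hx1 hx2
      have h1 := hne (x := x) (y := w) (by omega)
      by_contra hcon
      exact hw6 x (Or.inr ⟨by omega, Or.inr (by omega)⟩) ⟨hx1, hx2⟩
  -- step (5)
  by_cases hpb : pl b
  · exact five hκ hL ha2 hpb H1p (fun x y hx => H2p x y (by omega))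
      (fun x y hx => H2m x y (by omega)) hCm
  · have hLn : Function.Injective (fun y => - L y) := fun x y h => hL (by simpa using h)
    refine five (κ := κ) (L := fun y => - L y) (pl := fun y => ¬ pl y)
      (FU := fun y z => FU z y) (a := a) (b := b) hκ hLn ha2 hpb ?_ ?_ ?_ ?_
    · intro c hc1 hc2 hc3 hc4
      obtain ⟨w, h1, h2, h3, h4, h5, h6, h7⟩ := H1m c hc1 hc2 hc3
        (fun x hx1 hx2 => by have := hc4 x hx1 hx2; omega)
      refine ⟨w, h1, h2, not_not.2 h3, by omega, h5, ?_, ?_⟩
      · intro x hx1 hx2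
        exact h6 x (by omega) (by omega)
      · intro x hx1 hx2
        have := h7 x hx1 hx2
        omega
    · intro x y hx hxy
      rw [Vp_neg] at hxy
      obtain ⟨w, hw⟩ := H2m x y (by omega) hxy
      exact ⟨w, (LSp_neg x y w).2 hw⟩
    · intro x y hx hxy
      rw [Vm_neg] at hxy
      obtain ⟨w, hw⟩ := H2p x y (by omega) hxy
      exact ⟨w, (LSm_neg x y w).2 hw⟩
    · intro g w t hw ht hg hU hc
      refine hCp g w t (not_not.1 hw) ht (by omega) hU ?_
      intro c
      rw [← hc c]
      constructor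
      · rintro (h | h)
        · exact Or.inl (by omega)
        · exact Or.inr h
      · rintro (h | h)
        · exact Or.inl (by omega)
        · exact Or.inr h

/-- step (0): the valid pair with the smallest right end and then the largest left end has no
left splitter -/
lemma zero {mk : ℤ → Prop} {p q w : α}
    (hFU : ∀ a b, L a < L b → (FU a b ↔ ∀ j, L a ≤ j → j < L b → ¬ mk j))
    (hp0 : ∀ x, x ≠ p → L p < L x)
    (hV : Vp κ L pl p q)
    (hmin : ∀ a c, κ c < κ q → ¬ Vp κ L pl a c ∧ ¬ Vm κ L pl a c)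
    (hmax : ∀ a, κ p < κ a → ¬ Vp κ L pl a q)
    (hw : LSp κ L pl FU p q w)
    (hCm : ∀ g w t, ¬ pl w → κ w < κ t → L g < L w → FU g w →
      (∀ c, (L g < L c ∧ L c < L w ∨ c = g) ↔ (κ w < κ c ∧ κ c ≤ κ t)) → False)
    (hCp : ∀ g w t, pl w → κ w < κ t → L w < L g → FU w g →
      (∀ c, (L w < L c ∧ L c < L g ∨ c = g) ↔ (κ w < κ c ∧ κ c ≤ κ t)) → False) : False := by
  obtain ⟨hpq, hpp, hpq', hVx⟩ := hV
  obtain ⟨hw1, hw2, hw3, hw4, hw5, hw6⟩ := hw
  have hne : ∀ {x y : α}, κ x ≠ κ y → L x ≠ L y := fun h h' => h (by rw [hL h'])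
  have hne' : ∀ {x y : α}, L x ≠ L y → κ x ≠ κ y := fun h h' => h (by rw [hκ h'])
  have hpL : ∀ x, κ x ≠ κ p → L p < L x := fun x h => hp0 x (fun h' => h (by rw [h']))
  have hpwq : L p < L w ∧ L w < L q := by
    have h0 := hpL w (by omega)
    have h0' := hpL q (by omega)
    rcases hw3 with h | h
    · exact ⟨h.2.1, h.2.2⟩
    · omega
  have hpq2 : ∀ x, κ p < κ x → κ x < κ q → L p < L x ∧ L x < L q := by
    intro x h1 h2
    rcases hVx x h1 h2 with h | h
    · exact ⟨h.2.1, h.2.2⟩
    · omega
  obtain ⟨f, hfp, hfm⟩ := exMin L (fun x => x ≠ p) ⟨q, by rintro rfl; omega⟩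
  have hpf : L p < L f := hp0 f hfp
  have hfw : L f ≤ L w := hfm w (by rintro rfl; omega)
  have hfm' : ∀ x, κ x ≠ κ p → κ x ≠ κ f → L f < L x := by
    intro x h1 h2
    have h3 := hfm x (by rintro rfl; exact h1 rfl)
    have h4 := hne h2
    omega
  have hUf : FU p f := by
    rw [hFU p f hpf]
    intro j hj1 hj2
    exact (hFU p w hpwq.1).1 hw4 j hj1 (by omega)
  have hκfp : κ f ≠ κ p := fun h => hfp (hκ h)
  rcases lt_or_gt_of_ne hκfp with hlt | hgt
  · by_cases hf : pl f
    · refine (hmin f p hpq).1 ⟨hlt, hf, hpp, fun x hx1 hx2 => Or.inr ⟨hpf, Or.inl ?_⟩⟩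
      exact hfm' x (by omega) (by omega)
    · by_cases hex : ∃ x, κ f < κ x ∧ κ x < κ p
      · obtain ⟨g, ⟨hg1, hg2⟩, hgm⟩ := exMin L _ hex
        have hgm' : ∀ x, κ f < κ x → κ x < κ p → κ x ≠ κ g → L g < L x := by
          intro x h1 h2 h3
          have h4 := hgm x ⟨h1, h2⟩
          have h5 := hne h3
          omega
        by_cases hg : pl g
        · refine (hmin g p hpq).1 ⟨hg2, hg, hpp, fun x hx1 hx2 => Or.inr ⟨hpL g (by omega),
            Or.inl ?_⟩⟩
          exact hgm' x (by omega) hx2 (by omega)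
        · refine (hmin f g (by omega)).2 ⟨hg1, hf, hg, fun x hx1 hx2 =>
            Or.inr ⟨hfm' g (by omega) (by omega), Or.inl ?_⟩⟩
          exact hgm' x hx1 (by omega) (by omega)
      · refine hCm p f p hf hlt hpf hUf ?_
        intro c
        constructor
        · rintro (h | h)
          · exfalso
            have := hfm c (by rintro rfl; omega)
            omega
          · subst h; exact ⟨hlt, le_rfl⟩
        · rintro ⟨h1, h2⟩
          rcases lt_or_eq_of_le h2 with h | h
          · exact absurd ⟨c, h1, h⟩ hex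
          · exact Or.inr (hκ h)
  · have hfq : κ f < κ q := by
      rcases lt_or_eq_of_le hfw with h | h
      · exact (hw5 f (Or.inl ⟨hpwq.1, hpf, h⟩)).2
      · have := hL h; subst this; omega
    by_cases hf : pl f
    · refine hmax f hgt ⟨hfq, hf, hpq', fun x hx1 hx2 => Or.inl ⟨by omega, ?_, ?_⟩⟩
      · exact hfm' x (by omega) (by omega)
      · exact (hpq2 x (by omega) hx2).2
    · by_cases hex : ∃ x, κ p < κ x ∧ κ x < κ f
      · obtain ⟨g, ⟨hg1, hg2⟩, hgm⟩ := exMax L _ hex
        have hgm' : ∀ x, κ p < κ x → κ x < κ f → κ x ≠ κ g → L x < L g := by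
          intro x h1 h2 h3
          have h4 := hgm x ⟨h1, h2⟩
          have h5 := hne h3
          omega
        by_cases hg : pl g
        · refine (hmin p g (by omega)).1 ⟨hg1, hpp, hg, fun x hx1 hx2 =>
            Or.inl ⟨hpL g (by omega), hpL x (by omega), ?_⟩⟩
          exact hgm' x hx1 (by omega) (by omega)
        · refine (hmin g f hfq).2 ⟨hg2, hg, hf, fun x hx1 hx2 =>
            Or.inl ⟨hfm' g (by omega) (by omega), hfm' x (by omega) (by omega), ?_⟩⟩
          exact hgm' x (by omega) hx2 (by omega)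
      · refine hCp f p f hpp hgt hpf hUf ?_
        intro c
        constructor
        · rintro (h | h)
          · exfalso
            have := hfm c (by rintro rfl; omega)
            omega
          · subst h; exact ⟨hgt, le_rfl⟩
        · rintro ⟨h1, h2⟩
          rcases lt_or_eq_of_le h2 with h | h
          · exact absurd ⟨c, h1, h⟩ hex
          · exact Or.inr (hκ h)

end core

/-! ### The statement -/

/-- the `D`-distance from `a` to `b` in direction `s` (`true` is the direction of increasing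
positions) -/
def dst {n : ℕ} (pos : α → ZMod n) (s : Bool) (a b : α) : ℕ :=
  if s then (pos b - pos a).val else (pos a - pos b).val

/-- `x` lies strictly inside the `D`-arc which leaves `a` in direction `s` and ends in `b` -/
def Arc {n : ℕ} (pos : α → ZMod n) (s : Bool) (a b x : α) : Prop :=
  0 < dst pos s a x ∧ dst pos s a x < dst pos s a b

/-- no gap of the arc from `a` to `b` in direction `s` is marked; the gap between the positions
`i` and `i + 1` has the name `i` -/
def Unm {n : ℕ} (pos : α → ZMod n) (mark : ZMod n → Prop) (s : Bool) (a b : α) : Prop :=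
  ∀ i : ℕ, i < dst pos s a b → ¬ mark (if s then pos a + i else pos a - i - 1)

/-- valid pair of letters of sign `s` -/
def Valid {n : ℕ} (κ : α → ℤ) (pos : α → ZMod n) (sg : α → Bool) (s : Bool) (p q : α) : Prop :=
  κ p < κ q ∧ sg p = s ∧ sg q = s ∧ ∀ x, κ p < κ x → κ x < κ q → Arc pos s p q x

/-- `w` is a left splitter of the valid pair `p, q` (its leaf is unmarked) -/
def LSpl {n : ℕ} (κ : α → ℤ) (pos : α → ZMod n) (sg : α → Bool) (mark : ZMod n → Prop)
    (s : Bool) (p q w : α) : Prop :=
  κ w < κ p ∧ sg w ≠ s ∧ Arc pos s p q w ∧ Unm pos mark s p w ∧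
    (∀ x, Arc pos s p w x → κ w < κ x ∧ κ x < κ q) ∧
    (∀ x, Arc pos s w q x → ¬ (κ w < κ x ∧ κ x < κ p))

/-- `u` is a right splitter of the valid pair `p, q` (its leaf is unmarked) -/
def RSpl {n : ℕ} (κ : α → ℤ) (pos : α → ZMod n) (sg : α → Bool) (mark : ZMod n → Prop)
    (s : Bool) (p q u : α) : Prop :=
  κ q < κ u ∧ sg u ≠ s ∧ Arc pos s p q u ∧ Unm pos mark s u q ∧
    (∀ x, Arc pos s u q x → κ p < κ x ∧ κ x < κ u) ∧
    (∀ x, Arc pos s p u x → ¬ (κ q < κ x ∧ κ x < κ u))

/-- the 3-edge-cuts which are used: the next letters of `D` behind the upper (lower) end of `u`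
form an interval of `K` adjacent to this end -/
def NoCut {n : ℕ} (κ : α → ℤ) (pos : α → ZMod n) (sg : α → Bool) (mark : ZMod n → Prop) : Prop :=
  (∀ u y t, κ u < κ t → Unm pos mark (sg u) u y →
    ¬ ∀ x, (Arc pos (sg u) u y x ∨ x = y) ↔ (κ u < κ x ∧ κ x ≤ κ t)) ∧
  (∀ u y t, κ t < κ u → Unm pos mark (!sg u) u y →
    ¬ ∀ x, (Arc pos (!sg u) u y x ∨ x = y) ↔ (κ t ≤ κ x ∧ κ x < κ u))

section conv

variable {n : ℕ} [NeZero n] {pos : α → ZMod n} {mark : ZMod n → Prop} {sg : α → Bool}
  {κ : α → ℤ}

lemma val_sub' (x y : ZMod n) :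
    ((x - y).val : ℤ) = if (y.val : ℤ) ≤ x.val then (x.val : ℤ) - y.val
      else n + x.val - y.val := by
  split_ifs with h
  · have h' : y.val ≤ x.val := by exact_mod_cast h
    rw [ZMod.val_sub h']
    omega
  · have h' : x.val ≤ y.val := by omega
    have h1 : x - y = -(y - x) := by ring
    have h2 : y - x ≠ 0 := by
      intro h3
      have : y = x := sub_eq_zero.1 h3
      subst this
      omega
    have h4 : (y - x).val = y.val - x.val := ZMod.val_sub h'
    rw [h1, ZMod.neg_val, if_neg h2, h4]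
    have := ZMod.val_lt y
    omega

lemma dst_base (s : Bool) (p a b : α) :
    (dst pos s a b : ℤ) = if (dst pos s p a : ℤ) ≤ dst pos s p b
      then (dst pos s p b : ℤ) - dst pos s p a else n + dst pos s p b - dst pos s p a := by
  cases s
  · have := val_sub' (pos p - pos b) (pos p - pos a)
    rw [show pos p - pos b - (pos p - pos a) = pos a - pos b by ring] at this
    simpa [dst] using this
  · have := val_sub' (pos b - pos p) (pos a - pos p)
    rw [show pos b - pos p - (pos a - pos p) = pos b - pos a by ring] at this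
    simpa [dst] using this

lemma dst_lt (s : Bool) (p a : α) : (dst pos s p a : ℤ) < n := by
  cases s
  · have := ZMod.val_lt (pos p - pos a)
    simp only [dst, Bool.false_eq_true, if_false]
    exact_mod_cast this
  · have := ZMod.val_lt (pos a - pos p)
    simp only [dst, if_true]
    exact_mod_cast this

omit [NeZero n] in
lemma dst_not (s : Bool) (a b : α) : dst pos (!s) a b = dst pos s b a := by
  cases s <;> simp [dst]

lemma dst_inj (hpos : Function.Injective pos) (s : Bool) (p a b : α)
    (h : dst pos s p a = dst pos s p b) : a = b := by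
  apply hpos
  cases s
  · have h1 : pos p - pos a = pos p - pos b := ZMod.val_injective n (by simpa [dst] using h)
    exact sub_right_injective h1
  · have h1 : pos a - pos p = pos b - pos p := ZMod.val_injective n (by simpa [dst] using h)
    exact sub_left_injective h1

lemma arc_base (s : Bool) (p a b x : α) :
    Arc pos s a b x ↔ FA (fun y => (dst pos s p y : ℤ)) a b x := by
  have h1 := dst_base (pos := pos) s p a x
  have h2 := dst_base (pos := pos) s p a b
  have h3 := dst_lt (pos := pos) s p a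
  have h4 := dst_lt (pos := pos) s p b
  have h5 := dst_lt (pos := pos) s p x
  unfold Arc FA
  beta_reduce
  constructor
  · rintro ⟨h6, h7⟩
    split_ifs at h1 h2 <;> omega
  · intro h
    split_ifs at h1 h2 <;> omega

lemma arc_base' (s : Bool) (p a b x : α) :
    Arc pos (!s) a b x ↔ FA (fun y => (dst pos s p y : ℤ)) b a x := by
  have h1 := dst_base (pos := pos) s p x a
  have h2 := dst_base (pos := pos) s p b a
  have h3 := dst_lt (pos := pos) s p a
  have h4 := dst_lt (pos := pos) s p b
  have h5 := dst_lt (pos := pos) s p x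
  unfold Arc FA
  rw [dst_not, dst_not]
  beta_reduce
  constructor
  · rintro ⟨h6, h7⟩
    split_ifs at h1 h2 <;> omega
  · intro h
    split_ifs at h1 h2 <;> omega

lemma pos_true (a b : α) : pos b = pos a + (dst pos true a b : ℕ) := by
  simp [dst]

lemma pos_false (a b : α) : pos b = pos a - (dst pos false a b : ℕ) := by
  simp [dst]

lemma unm_not (s : Bool) (a b : α) : Unm pos mark (!s) a b ↔ Unm pos mark s b a := by
  have aux : ∀ (s : Bool) (a b : α), Unm pos mark s b a → Unm pos mark (!s) a b := by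
    intro s a b h i hi
    rw [dst_not] at hi
    have h1 := h (dst pos s b a - 1 - i) (by omega)
    have h2 : (i : ℤ) + ((dst pos s b a - 1 - i : ℕ) : ℤ) + 1 = dst pos s b a := by omega
    have h3 : (i : ZMod n) + ((dst pos s b a - 1 - i : ℕ) : ZMod n) + 1 = dst pos s b a := by
      exact_mod_cast congrArg (Int.cast : ℤ → ZMod n) h2
    cases s
    · simp only [Bool.not_false, if_true, Bool.false_eq_true, if_false] at h1 ⊢
      rw [show pos a + (i : ZMod n) = pos b - ((dst pos false b a - 1 - i : ℕ) : ZMod n) - 1 by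
        rw [pos_false (pos := pos) b a, ← h3]; ring]
      exact h1
    · simp only [Bool.not_true, if_true, Bool.false_eq_true, if_false] at h1 ⊢
      rw [show pos a - (i : ZMod n) - 1 = pos b + ((dst pos true b a - 1 - i : ℕ) : ZMod n) by
        rw [pos_true (pos := pos) b a, ← h3]; ring]
      exact h1
  constructor
  · intro h
    have := aux (!s) b a h
    rwa [Bool.not_not] at this
  · exact aux s a b

lemma unm_base (s : Bool) (p a b : α) (h : (dst pos s p a : ℤ) < dst pos s p b) :
    Unm pos mark s a b ↔ ∀ j : ℤ, (dst pos s p a : ℤ) ≤ j → j < dst pos s p b →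
      ¬ mark (if s then pos p + j else pos p - j - 1) := by
  have h1 := dst_base (pos := pos) s p a b
  rw [if_pos h.le] at h1
  have h2 : ∀ i : ℕ, ∀ j : ℤ, j = dst pos s p a + i →
      (if s then pos a + i else pos a - i - 1) = (if s then pos p + j else pos p - j - 1) := by
    intro i j hj
    cases s
    · simp only [Bool.false_eq_true, if_false]
      rw [pos_false (pos := pos) p a, hj]
      push_cast
      ring
    · simp only [if_true]
      rw [pos_true (pos := pos) p a, hj]
      push_cast
      ring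
  constructor
  · intro h3 j hj1 hj2
    have h4 := h3 (j - dst pos s p a).toNat (by omega)
    rwa [h2 (j - dst pos s p a).toNat j (by omega)] at h4
  · intro h3 i hi
    rw [h2 i (dst pos s p a + i) rfl]
    exact h3 _ (by omega) (by omega)

end conv

/-- **S2** (helper12).  If every valid pair has a (left or right) splitter and there is no small
cut, then there is no valid pair. -/
theorem s2 [Finite α] {n : ℕ} [NeZero n] {κ : α → ℤ} (hκ : Function.Injective κ)
    {pos : α → ZMod n} (hpos : Function.Injective pos) (sg : α → Bool) (mark : ZMod n → Prop)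
    (hC : NoCut κ pos sg mark)
    (hS : ∀ s p q, Valid κ pos sg s p q →
      ∃ w, LSpl κ pos sg mark s p q w ∨ RSpl κ pos sg mark s p q w) :
    ∀ s p q, ¬ Valid κ pos sg s p q := by
  -- linear coordinates with base `p` in direction `s`
  have hLi : ∀ (s : Bool) (p : α), Function.Injective (fun y => (dst pos s p y : ℤ)) := by
    intro s p a b hab
    have hab' : (dst pos s p a : ℤ) = dst pos s p b := hab
    exact dst_inj hpos s p a b (by exact_mod_cast hab')
  have hL0 : ∀ (s : Bool) (p x : α), x ≠ p → (dst pos s p p : ℤ) < dst pos s p x := by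
    intro s p x hx
    have h1 : dst pos s p p = 0 := by cases s <;> simp [dst]
    have h2 : dst pos s p x ≠ 0 := fun h => hx (dst_inj hpos s p x p (by rw [h, h1]))
    omega
  have hVp : ∀ (s : Bool) (p a c : α), Valid κ pos sg s a c ↔
      Vp κ (fun y => (dst pos s p y : ℤ)) (fun y => sg y = s) a c := by
    intro s p a c
    simp only [Valid, Vp, arc_base (pos := pos) s p]
  have hVm : ∀ (s : Bool) (p a c : α), Valid κ pos sg (!s) a c ↔
      Vm κ (fun y => (dst pos s p y : ℤ)) (fun y => sg y = s) a c := by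
    intro s p a c
    simp only [Valid, Vm, arc_base' (pos := pos) s p]
    have : ∀ x, sg x = !s ↔ ¬ sg x = s := by intro x; cases sg x <;> cases s <;> simp
    simp only [this]
  have hLp : ∀ (s : Bool) (p a c w : α), LSpl κ pos sg mark s a c w ↔
      LSp κ (fun y => (dst pos s p y : ℤ)) (fun y => sg y = s) (Unm pos mark s) a c w := by
    intro s p a c w
    simp only [LSpl, LSp, arc_base (pos := pos) s p, ne_eq]
  have hLm : ∀ (s : Bool) (p a c w : α), LSpl κ pos sg mark (!s) a c w ↔
      LSm κ (fun y => (dst pos s p y : ℤ)) (fun y => sg y = s) (Unm pos mark s) a c w := by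
    intro s p a c w
    simp only [LSpl, LSm, arc_base' (pos := pos) s p, unm_not]
    have : ∀ x, sg x ≠ !s ↔ sg x = s := by intro x; cases sg x <;> cases s <;> simp
    simp only [this]
  have hRp : ∀ (s : Bool) (p a c u : α), RSpl κ pos sg mark s a c u ↔
      RSp κ (fun y => (dst pos s p y : ℤ)) (fun y => sg y = s) (Unm pos mark s) a c u := by
    intro s p a c u
    simp only [RSpl, RSp, arc_base (pos := pos) s p, ne_eq]
  have hCm : ∀ (s : Bool) (p g w t : α), ¬ sg w = s → κ w < κ t →
      (dst pos s p g : ℤ) < dst pos s p w → Unm pos mark s g w →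
      (∀ c, ((dst pos s p g : ℤ) < dst pos s p c ∧ (dst pos s p c : ℤ) < dst pos s p w ∨ c = g) ↔
        (κ w < κ c ∧ κ c ≤ κ t)) → False := by
    intro s p g w t hw ht hgw hU hc
    have hws : sg w = !s := by revert hw; cases sg w <;> cases s <;> simp
    refine hC.1 w g t ht (by rw [hws, unm_not]; exact hU) ?_
    intro x
    rw [← hc x, hws, arc_base' s p]
    unfold FA
    beta_reduce
    constructor
    · rintro (h | h)
      · left; omega
      · exact Or.inr h
    · rintro (h | h)
      · left; omega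
      · exact Or.inr h
  have hCp : ∀ (s : Bool) (p g w t : α), sg w = s → κ w < κ t →
      (dst pos s p w : ℤ) < dst pos s p g → Unm pos mark s w g →
      (∀ c, ((dst pos s p w : ℤ) < dst pos s p c ∧ (dst pos s p c : ℤ) < dst pos s p g ∨ c = g) ↔
        (κ w < κ c ∧ κ c ≤ κ t)) → False := by
    intro s p g w t hw ht hgw hU hc
    refine hC.1 w g t ht (by rw [hw]; exact hU) ?_
    intro x
    rw [← hc x, hw, arc_base s p]
    unfold FA
    beta_reduce
    constructor
    · rintro (h | h)
      · left; omega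
      · exact Or.inr h
    · rintro (h | h)
      · left; omega
      · exact Or.inr h
  have hCl : ∀ (s : Bool) (p y w t : α), ¬ sg w = s → κ t < κ w →
      (dst pos s p w : ℤ) < dst pos s p y → Unm pos mark s w y →
      (∀ c, ((dst pos s p w : ℤ) < dst pos s p c ∧ (dst pos s p c : ℤ) < dst pos s p y ∨ c = y) ↔
        (κ t ≤ κ c ∧ κ c < κ w)) → False := by
    intro s p y w t hw ht hgw hU hc
    have hws : (!sg w) = s := by revert hw; cases sg w <;> cases s <;> simp
    refine hC.2 w y t ht (by rw [hws]; exact hU) ?_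
    intro x
    rw [← hc x, hws, arc_base s p]
    unfold FA
    beta_reduce
    constructor
    · rintro (h | h)
      · left; omega
      · exact Or.inr h
    · rintro (h | h)
      · left; omega
      · exact Or.inr h
  have hFU : ∀ (s : Bool) (p a b : α), (dst pos s p a : ℤ) < dst pos s p b →
      (Unm pos mark s a b ↔ ∀ j : ℤ, (dst pos s p a : ℤ) ≤ j → j < dst pos s p b →
        ¬ mark (if s then pos p + j else pos p - j - 1)) :=
    fun s p a b h => unm_base s p a b h
  intro s0 p0 q0 h0
  -- a valid pair without left splitter exists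
  have hQ : ∃ p q, ∃ s, Valid κ pos sg s p q ∧ ∀ w, ¬ LSpl κ pos sg mark s p q w := by
    obtain ⟨q, ⟨s1, p1, hq⟩, hqm⟩ := exMin κ (fun q => ∃ s p, Valid κ pos sg s p q)
      ⟨q0, s0, p0, h0⟩
    obtain ⟨p, ⟨s, hp⟩, hpm⟩ := exMax κ (fun p => ∃ s, Valid κ pos sg s p q) ⟨p1, s1, hq⟩
    refine ⟨p, q, s, hp, fun w hw => ?_⟩
    refine zero hκ (hLi s p) (hFU s p) (hL0 s p) ((hVp s p p q).1 hp) ?_ ?_
      ((hLp s p p q w).1 hw) (hCm s p) (hCp s p)
    · intro a c hc
      constructor
      · intro h
        have := hqm c ⟨s, a, (hVp s p a c).2 h⟩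
        omega
      · intro h
        have := hqm c ⟨!s, a, (hVm s p a c).2 h⟩
        omega
    · intro a ha h
      have := hpm a ⟨s, (hVp s p a q).2 h⟩
      omega
  obtain ⟨p, hp, hpm⟩ := exMax κ (fun p => ∃ q, ∃ s, Valid κ pos sg s p q ∧
    ∀ w, ¬ LSpl κ pos sg mark s p q w) hQ
  obtain ⟨q, ⟨s, hV, hno⟩, hqm⟩ := exMax κ (fun q => ∃ s, Valid κ pos sg s p q ∧
    ∀ w, ¬ LSpl κ pos sg mark s p q w) hp
  obtain ⟨u, hu | hu⟩ := hS s p q hV
  · exact hno u hu
  have hblock : ∀ (s' : Bool) (a c : α), κ p < κ a → Valid κ pos sg s' a c →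
      ∃ w, LSpl κ pos sg mark s' a c w := by
    intro s' a c ha hV'
    by_contra hcon
    have := hpm a ⟨c, s', hV', fun w hw => hcon ⟨w, hw⟩⟩
    omega
  refine core hκ (hLi s p) (hFU s p) (hL0 s p) ((hVp s p p q).1 hV) ((hRp s p p q u).1 hu)
    (fun w hw => hno w ((hLp s p p q w).2 hw)) ?_ ?_ ?_ (hCm s p) (hCp s p) (hCl s p)
  · intro z hz hVz
    by_contra hcon
    have := hqm z ⟨s, (hVp s p p z).2 hVz, fun w hw => hcon ⟨w, (hLp s p p z w).1 hw⟩⟩
    omega
  · intro x y hx hxy
    obtain ⟨w, hw⟩ := hblock s x y hx ((hVp s p x y).2 hxy)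
    exact ⟨w, (hLp s p x y w).1 hw⟩
  · intro x y hx hxy
    obtain ⟨w, hw⟩ := hblock (!s) x y hx ((hVm s p x y).2 hxy)
    exact ⟨w, (hLm s p x y w).1 hw⟩

end Pool.GOD.S2
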