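import Pool.Agent.GOD.BaseApi

/-!
Statements of the graph-theoretic part of MP_7b7176_co.  Notation: `w` is the weight of a minimal
contra pair, `M` is the set of edges of weight 2, an alternating circuit is a circuit all of whose
vertices are incident with one of its edges of weight 2.
-/

set_option autoImplicit false
set_option linter.unusedSectionVars false

namespace Pool.GOD

namespace MGraph

section defs

variable {V E : Type*} [Fintype V] [DecidableEq V] [Fintype E] [DecidableEq E] (G : MGraph V E)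

/-- The edges of weight 2. -/
def two (w : E → ℕ) : Finset E := Finset.univ.filter (fun e => w e = 2)

/-- The edges of weight 1. -/
def one (w : E → ℕ) : Finset E := Finset.univ.filter (fun e => w e = 1)

/-- An alternating circuit: a circuit `D` such that every vertex of `D` has exactly one edge of
weight 2 in `D`. -/
def IsAlt (w : E → ℕ) (D : Finset E) : Prop :=
  G.IsCircuit D ∧ ∀ v, G.deg D v = 2 → G.deg (D ∩ two w) v = 1

/-- The support of `w - χ_D` for a weight with values 1 and 2. -/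
def rest (w : E → ℕ) (D : Finset E) : Finset E := Finset.univ \ (D ∩ one w)

/-- `D 0, ..., D (t-1)` is a chain of circuits from `x` to `y` covering `G - e`: consecutive
circuits share only edges of weight 2, other pairs of circuits are disjoint, `x` is only on the
first one and `y` only on the last one. -/
structure IsChain (w : E → ℕ) (e : E) (x y : V) (t : ℕ) (D : ℕ → Finset E) : Prop where
  pos : 0 < t
  ends : G.ends e = s(x, y)
  circ : ∀ i < t, G.IsCircuit (D i)
  emem : ∀ i < t, e ∉ D i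
  alt : ∀ i < t, ∀ v, v ≠ x → v ≠ y → G.deg (D i) v = 2 → G.deg (D i ∩ two w) v = 1
  cover1 : ∀ f, w f = 1 → ∃! i, i < t ∧ f ∈ D i
  cover2 : ∀ f, w f = 2 → f ≠ e → ∃ i, i + 1 < t ∧ f ∈ D i ∧ f ∈ D (i + 1) ∧
    ∀ j < t, f ∈ D j → j = i ∨ j = i + 1
  disj : ∀ i < t, ∀ j < t, i + 1 < j → ∀ v, G.deg (D i) v = 0 ∨ G.deg (D j) v = 0
  meet : ∀ i, i + 1 < t → ∃ f, w f = 2 ∧ f ∈ D i ∧ f ∈ D (i + 1)
  first : ∀ i < t, G.deg (D i) x = 2 ↔ i = 0
  last : ∀ i < t, G.deg (D i) y = 2 ↔ i + 1 = t

/-- `G` is the permutation graph of `π`: two circuits `a 0, a 1, ...` and `b 0, b 1, ...` of length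
`n` of weight 1 and the matching `a i - b (π i)` of weight 2. -/
structure PermData (w : E → ℕ) (n : ℕ) (a b : ZMod n → V) (p q m : ZMod n → E)
    (π : Equiv.Perm (ZMod n)) : Prop where
  odd : Odd n
  five : 5 ≤ n
  inja : Function.Injective a
  injb : Function.Injective b
  disj : ∀ i j, a i ≠ b j
  surj : ∀ v, (∃ i, v = a i) ∨ ∃ i, v = b i
  endp : ∀ i, G.ends (p i) = s(a i, a (i + 1))
  endq : ∀ i, G.ends (q i) = s(b i, b (i + 1))
  endm : ∀ i, G.ends (m i) = s(a i, b (π i))
  wp : ∀ i, w (p i) = 1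
  wq : ∀ i, w (q i) = 1
  wm : ∀ i, w (m i) = 2
  surjE : ∀ e, (∃ i, e = p i) ∨ (∃ i, e = q i) ∨ ∃ i, e = m i

end defs

/-- Every edge which is not a bridge lies on a circuit. -/
def Stmt_BCirc : Prop :=
  ∀ (V E : Type) [Fintype V] [DecidableEq V] [Fintype E] [DecidableEq E] (G : MGraph V E)
    (X : Finset E) (e : E), e ∈ X → ¬ G.IsBridge X e → ∃ D, D ⊆ X ∧ e ∈ D ∧ G.IsCircuit D

/-- A circuit contains no smaller nonempty even set. -/
def Stmt_BMin : Prop :=
  ∀ (V E : Type) [Fintype V] [DecidableEq V] [Fintype E] [DecidableEq E] (G : MGraph V E)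
    (D D' : Finset E), G.IsCircuit D → D' ⊆ D → D'.Nonempty → G.IsEven D' → D' = D

/-- Even sets are disjoint unions of circuits. -/
def Stmt_BDeco : Prop :=
  ∀ (V E : Type) [Fintype V] [DecidableEq V] [Fintype E] [DecidableEq E] (G : MGraph V E)
    (D : Finset E), G.IsEven D → ∃ L : List (Finset E), (∀ C ∈ L, G.IsCircuit C ∧ C ⊆ D) ∧
      ∀ e, L.countP (fun C => decide (e ∈ C)) = chi D e

/-- Cyclic enumeration of a circuit. -/
def Stmt_BEnum : Prop :=
  ∀ (V E : Type) [Fintype V] [DecidableEq V] [Fintype E] [DecidableEq E] (G : MGraph V E)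
    (D : Finset E), G.IsCircuit D → ∃ (a : ZMod D.card → V) (p : ZMod D.card → E),
      2 ≤ D.card ∧ Function.Injective a ∧ Function.Injective p ∧
      (∀ i, G.ends (p i) = s(a i, a (i + 1))) ∧ (∀ e, e ∈ D ↔ ∃ i, e = p i) ∧
      ∀ v, G.deg D v = 2 ↔ ∃ i, v = a i

/-- Kotzig's theorem.  `X` is a nonempty subgraph, `M ⊆ X` a perfect matching of it (on the
vertices that are not isolated in `X`) and `X` has no `M`-alternating circuit.  Then some edge of
`M` is a bridge of `X`. -/
def Stmt_Kotzig : Prop :=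
  ∀ (V E : Type) [Fintype V] [DecidableEq V] [Fintype E] [DecidableEq E] (G : MGraph V E)
    (X M : Finset E), M ⊆ X → X.Nonempty → (∀ v, G.deg X v ≠ 0 → G.deg M v = 1) →
    (∀ D, D ⊆ X → G.IsCircuit D → ∃ v, G.deg D v = 2 ∧ G.deg (D ∩ M) v ≠ 1) →
    ∃ e ∈ M, G.IsBridge X e

/-- The circuits of a cover of `G - e` form a chain. -/
def Stmt_Chain : Prop :=
  ∀ (V E : Type) [Fintype V] [DecidableEq V] [Fintype E] [DecidableEq E] (G : MGraph V E)
    (w : E → ℕ), G.MinContra w → ∀ (e : E) (x y : V), w e = 2 → G.ends e = s(x, y) →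
    ∀ L : List (Finset E), (∀ D ∈ L, G.IsCircuit D ∧ D ⊆ Finset.univ.erase e) →
    (∀ f ∈ Finset.univ.erase e, L.countP (fun D => decide (f ∈ D)) = w f) →
    ∃ (D : ℕ → Finset E), G.IsChain w e x y L.length D ∧
      ∀ C, C ∈ L ↔ ∃ i < L.length, C = D i

/-- A minimal contra pair is a permutation graph of odd order `n ≥ 5`. -/
def Stmt_Perm : Prop :=
  ∀ (V E : Type) [Fintype V] [DecidableEq V] [Fintype E] [DecidableEq E] (G : MGraph V E)
    (w : E → ℕ), G.MinContra w → ∃ (n : ℕ) (a b : ZMod n → V) (p q m : ZMod n → E)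
      (π : Equiv.Perm (ZMod n)), G.PermData w n a b p q m π

/-- Small cuts of permutation graphs. -/
def Stmt_Cyc4 : Prop :=
  ∀ (V E : Type) [Fintype V] [DecidableEq V] [Fintype E] [DecidableEq E] (G : MGraph V E)
    (w : E → ℕ) (n : ℕ) (a b : ZMod n → V) (p q m : ZMod n → E) (π : Equiv.Perm (ZMod n)),
    G.PermData w n a b p q m π → ∀ S : Finset V, (G.cut S).card ≤ 3 →
      S = ∅ ∨ S = Finset.univ ∨ (∃ v, S = {v}) ∨ ∃ v, S = {v}ᶜ

/-- The circuits of a faithful cover of a permutation graph are alternating; the same holds for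
the removable circuits. -/
def Stmt_Alt : Prop :=
  ∀ (V E : Type) [Fintype V] [DecidableEq V] [Fintype E] [DecidableEq E] (G : MGraph V E)
    (w : E → ℕ), (∀ e, w e = 1 ∨ w e = 2) → (∀ v, G.deg (two w) v = 1 ∧ G.deg (one w) v = 2) →
    (∀ D, G.IsRemovable Finset.univ w D ↔ G.IsAlt w D ∧ G.Bridgeless (rest w D)) ∧
    ∀ L : List (Finset E), (∀ D ∈ L, G.IsCircuit D) →
      (∀ f, L.countP (fun D => decide (f ∈ D)) = w f) → ∀ D ∈ L, G.IsAlt w D

/-- A minimal contra pair has no alternating circuit with two edges of weight 2. -/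
def Stmt_Quad : Prop :=
  ∀ (V E : Type) [Fintype V] [DecidableEq V] [Fintype E] [DecidableEq E] (G : MGraph V E)
    (w : E → ℕ), G.MinContra w → ∀ (n : ℕ) (a b : ZMod n → V) (p q m : ZMod n → E)
    (π : Equiv.Perm (ZMod n)), G.PermData w n a b p q m π →
    (∀ D, G.IsAlt w D → 4 ≤ (D ∩ two w).card) ∧
    ∀ i, π (i + 1) ≠ π i + 1 ∧ π (i + 1) ≠ π i - 1

/-- The weighted Petersen graph is a minimal contra pair. -/
def Stmt_P10 : Prop := P10.MinContra w10

/-- Minimal contra pairs are invariant under isomorphism. -/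
def Stmt_Iso : Prop :=
  ∀ (V E V' E' : Type) [Fintype V] [DecidableEq V] [Fintype E] [DecidableEq E]
    [Fintype V'] [DecidableEq V'] [Fintype E'] [DecidableEq E']
    (G : MGraph V E) (w : E → ℕ) (G' : MGraph V' E') (w' : E' → ℕ),
    WIso G w G' w' → G'.MinContra w' → G.MinContra w

/-- The case `n = 5`. -/
def Stmt_Five : Prop :=
  ∀ (V E : Type) [Fintype V] [DecidableEq V] [Fintype E] [DecidableEq E] (G : MGraph V E)
    (w : E → ℕ) (a b : ZMod 5 → V) (p q m : ZMod 5 → E) (π : Equiv.Perm (ZMod 5)),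
    G.PermData w 5 a b p q m π → (∀ i, π (i + 1) ≠ π i + 1 ∧ π (i + 1) ≠ π i - 1) →
    WIso G w P10 w10

/-- The main theorem (open part): minimal contra pairs have order 10. -/
def Stmt_Main : Prop :=
  ∀ (V E : Type) [Fintype V] [DecidableEq V] [Fintype E] [DecidableEq E] (G : MGraph V E)
    (w : E → ℕ), G.MinContra w → ∀ (n : ℕ) (a b : ZMod n → V) (p q m : ZMod n → E)
    (π : Equiv.Perm (ZMod n)), G.PermData w n a b p q m π → n = 5

/-- Assembly. -/
theorem q1_of (hPerm : Stmt_Perm) (hQuad : Stmt_Quad) (hP10 : Stmt_P10) (hIso : Stmt_Iso)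
    (hFive : Stmt_Five) (hMain : Stmt_Main) : Q1 := by
  intro V E _ _ _ _ G w
  constructor
  · intro h
    obtain ⟨n, a, b, p, q, m, π, hd⟩ := hPerm V E G w h
    obtain rfl := hMain V E G w h n a b p q m π hd
    exact hFive V E G w a b p q m π hd (hQuad V E G w h 5 a b p q m π hd).2
  · intro h
    exact hIso V E (Fin 10) (Fin 15) G w P10 w10 h hP10

end MGraph

end Pool.GOD
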