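import Pool.Agent.GOD.FinG
import Pool.Agent.GOD.HamTri
import Pool.Agent.GOD.PieceS

/-!
Statements for the strong version of Q1 of MP_7b7176_co: a minimal contra pair `(G, w)` in which,
for every edge `e` of weight 2, every partial cover of `(G - e, w)` with bridgeless rest extends
to a faithful cover of `(G - e, w)`, is isomorphic to `(P10, w10)`.

Every `def Stmt_S_... : Prop` below is a module; its doc-string contains the full proof.
Notation: `M` is the set of edges of weight 2 (`two w`), `1-edges` are the edges of weight 1.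
-/

set_option autoImplicit false
set_option linter.unusedSectionVars false

namespace Pool.GOD

namespace MGraph

section defs

variable {V E : Type*} [Fintype V] [DecidableEq V] [Fintype E] [DecidableEq E]

/-- For every edge `e` of weight 2: circuits `L` of `G - e` which cover no edge `f` more than
`w f` times, and which leave a bridgeless rest, extend to a faithful cover of `(G - e, w)`. -/
def Extendable (G : MGraph V E) (w : E → ℕ) : Prop :=
  ∀ e, w e = 2 → ∀ L : List (Finset E), (∀ C ∈ L, G.IsCircuit C ∧ C ⊆ Finset.univ.erase e) →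
    (∀ f ∈ Finset.univ.erase e, L.countP (fun C => decide (f ∈ C)) ≤ w f) →
    G.Bridgeless ((Finset.univ.erase e).filter
      (fun f => L.countP (fun C => decide (f ∈ C)) < w f)) →
    ∃ L' : List (Finset E), (∀ C ∈ L', G.IsCircuit C ∧ C ⊆ Finset.univ.erase e) ∧
      ∀ f ∈ Finset.univ.erase e, (L ++ L').countP (fun C => decide (f ∈ C)) = w f

/-- The facts on strongly minimal contra pairs that are used below. -/
structure SP (G : MGraph V E) (w : E → ℕ) : Prop where
  mc : G.MinContra w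
  ext : G.Extendable w
  val : ∀ e, w e = 1 ∨ w e = 2
  d2 : ∀ v, G.deg (two w) v = 1
  d1 : ∀ v, G.deg (one w) v = 2
  par : ∀ D, G.IsEven D → Even (D ∩ two w).card
  simple : ∀ e f, G.ends e = G.ends f → e = f
  odd : ∀ e x y, w e = 2 → G.ends e = s(x, y) → ∃ t D, 3 ≤ t ∧ G.IsChain w e x y t D
  delta : ∀ e x y t D t' D', G.IsChain w e x y t D → G.IsChain w e x y t' D' →
    (∃ k < t, ∃ k' < t', D k = D' k') → ∀ f i i', w f = 1 → i < t → i' < t' → f ∈ D i →
      f ∈ D' i' → (Even i ↔ Even i')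

/-- Cyclic enumeration of an end circuit of a chain from its root `x`: the length is `2 m + 1`, the
edges of weight 2 are `e 1, e 3, ..., e (2 m - 1)`. -/
structure EndE (G : MGraph V E) (w : E → ℕ) (D : Finset E) (x : V) (m : ℕ) (v : ℕ → V)
    (e : ℕ → E) : Prop extends Enum G D (2 * m + 1) v e where
  v0 : v 0 = x
  alt : ∀ i, i < 2 * m + 1 → (w (e i) = 2 ↔ Odd i)

/-- A bond of `D0`, `D1`: an enumeration of `D1` of length `2 N` with the edges of weight 2 at the
even positions.  The leaf is `e 0 = s(v 0, v 1)`, its neighbour is `e (2 k + 2)`, both are in `D0`,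
the edges of `D1` between them are not in `D0`; the 1-edge `f` of `D0` joins `v 0` to
`v (2 k + 2)`. -/
structure Bond (G : MGraph V E) (w : E → ℕ) (D0 D1 : Finset E) (N : ℕ) (v : ℕ → V) (e : ℕ → E)
    (k : ℕ) (f : E) : Prop extends Enum G D1 (2 * N) v e where
  alt : ∀ i, w (e i) = 2 ↔ Even i
  q0 : e 0 ∈ D0
  p0 : e (2 * k + 2) ∈ D0
  lt : k + 1 < N
  gap : ∀ i, 0 < i → i < 2 * k + 2 → e i ∉ D0
  f0 : f ∈ D0
  f1 : f ∉ D1
  wf : w f = 1
  ef : G.ends f = s(v 0, v (2 * k + 2))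

/-- The new circuit through `f` given by a bond: `f` and the edges `e (2 k + 2), ..., e (2 N - 1)`. -/
def newEnd (N k : ℕ) (e : ℕ → E) (f : E) : Finset E :=
  insert f ((Finset.Ico (2 * k + 2) (2 * N)).image e)

/-- The other new circuit given by a bond: `D0` without `e 0` and `f`, and `e 1, ..., e (2 k + 1)`. -/
def newOther (D0 : Finset E) (k : ℕ) (e : ℕ → E) (f : E) : Finset E :=
  ((D0.erase (e 0)).erase f) ∪ (Finset.Ioo 0 (2 * k + 2)).image e

/-- All end circuits (of chains with at least three circuits) have at most `m` edges of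
weight 2. -/
def MaxEnd (G : MGraph V E) (w : E → ℕ) (m : ℕ) : Prop :=
  ∀ e0 x y t D, G.IsChain w e0 x y t D → 3 ≤ t → (D 0 ∩ two w).card ≤ m

end defs

/-! ### A. from permutation graphs to `SP` -/

/-- Parity of the indices along the two circuits of a permutation graph.
Proof.  Part 1, induction on `j`.  `j = 0`: `p i0 ∈ D i` is at `x = a i0`, the degree of `D i` at
`x` is 0 or 2 and it is not 0, so it is 2, so `i = 0` (`IsChain.first`).  Step: let `i'` be the index
with `p (i0 + j) ∈ D i'` (`cover1`, `wp`) and `p (i0 + (j + 1)) ∈ D i`, `z = a (i0 + (j + 1))`.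
`z ≠ x` since `j + 1 < n`, `z ≠ y` since `y = b (π i0)` (`ends` of `m i0`).  Let `g` be the `m`-edge
`m (i0 + (j + 1))` at `z`; `g ≠ e`; by `cover2` there is `l` with `g ∈ D l`, `g ∈ D (l + 1)`, and
only these.  The circuits `D i`, `D i'` have degree 2 at `z`, by `alt` each contains exactly one
edge of `M` at `z`, which is `g` (the only edge of weight 2 at `z`: edges at `z = a c` are
`p c`, `p (c - 1)`, `m c`), so `i, i' ∈ {l, l + 1}`; and `i ≠ i'`, since `D i` contains only one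
1-edge at `z`.  So `i = i' + 1` or `i' = i + 1`.
Part 2: the same from the other end: `q (π i0)` is at `y = b (π i0)`, so it is in the last circuit:
index `t - 1`; then the parity changes at every step. -/
def Stmt_S_Delta0 : Prop :=
  ∀ (V E : Type) [Fintype V] [DecidableEq V] [Fintype E] [DecidableEq E] (G : MGraph V E)
    (w : E → ℕ) (n : ℕ) (a b : ZMod n → V) (p q m : ZMod n → E) (π : Equiv.Perm (ZMod n)),
    G.PermData w n a b p q m π → ∀ (i0 : ZMod n) (y : V) (t : ℕ) (D : ℕ → Finset E),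
    G.IsChain w (m i0) (a i0) y t D →
    (∀ j : ℕ, j < n → ∀ i, i < t → p (i0 + j) ∈ D i → (Even i ↔ Even j)) ∧
    ∀ j : ℕ, j < n → ∀ i, i < t → q (π i0 + j) ∈ D i → (Even i ↔ Even (j + (t - 1)))

/-- Permutation graphs may be turned upside down. Proof: field by field. -/
def Stmt_S_PermSymm : Prop :=
  ∀ (V E : Type) [Fintype V] [DecidableEq V] [Fintype E] [DecidableEq E] (G : MGraph V E)
    (w : E → ℕ) (n : ℕ) (a b : ZMod n → V) (p q m : ZMod n → E) (π : Equiv.Perm (ZMod n)),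
    G.PermData w n a b p q m π →
    G.PermData w n b a q p (fun i => m (π.symm i)) π.symm

/-- The basic facts.  Proof.  `val`: `MinContra` contains `IsEul`.  `d2`, `d1`: the edges at `a c` are
exactly `p c`, `p (c - 1)` (weight 1, different since `n ≥ 5`) and `m c` (weight 2): use `surjE`,
`endp`, `endq`, `endm`, `inja`, `disj`; the same for `b c`.  Parity: `two w = G.cut S` for
`S = univ.image a` and `IsEven.card_inter_cut`.  Simple: the ends of an edge `p i` determine `i`
(`n ≥ 3`), the same for `q i` and `m i`, and edges of different kinds have different ends; by `surjE`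
every edge is of one of the three kinds. -/
def Stmt_S_Basic : Prop :=
  ∀ (V E : Type) [Fintype V] [DecidableEq V] [Fintype E] [DecidableEq E] (G : MGraph V E)
    (w : E → ℕ) (n : ℕ) (a b : ZMod n → V) (p q m : ZMod n → E) (π : Equiv.Perm (ZMod n)),
    G.PermData w n a b p q m π → (∀ v, G.deg (two w) v = 1) ∧ (∀ v, G.deg (one w) v = 2) ∧
    (∀ D, G.IsEven D → Even (D ∩ two w).card) ∧ ∀ e f, G.ends e = G.ends f → e = f

/-- For every edge `e` of weight 2 (with ends in any order) there is a chain with at least 3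
circuits.
Proof.  By `surjE` and `wp`, `wq` we have `e = m i0`.  `X0` is the set of the edges `m i ≠ e`,
`p (i0 + j)` and `q (π i0 + j)` with `j < n` even (`j : ℕ`), `X1` the same with `j` odd.  All degrees
of `X0` and `X1` are even: at `a (i0 + j)`, `0 < j < n`, each of them contains exactly one of
`p (i0 + (j - 1))`, `p (i0 + j)`, and `m (i0 + j)`; at `a i0` the set `X0` contains
`p i0` and `p (i0 + (n - 1))` (`n - 1` is even) and `X1` contains no edge; the same at the `b`
vertices.  And `chi X0 f + chi X1 f = w f` for `f ≠ e`.  By `a_BDeco` for `X0` and `X1` there are lists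
`L0`, `L1` of circuits with `countP = chi X0` resp. `chi X1`; `L = L0 ++ L1` satisfies the hypotheses
of `a_Chain` (with the given `x`, `y`), which gives a chain `D` with `t = L.length` circuits, all of
them in `L`, so contained in `X0` or in `X1`.
`t ≠ 1` (and `t ≠ 0` by `pos`): otherwise by `cover2` there is no edge of weight 2 different from
`e`, but `m (i0 + 1) ≠ e`.  So it suffices that `t` is odd.  First assume `x = a i0` (so
`y = b (π i0)`).  `D 0` contains an edge `g ≠ e` of weight 2 (`meet`, `t ≥ 2`), `g = m i1`; the ends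
of `g` are different from `x`, `y` (`inja`, `injb`), so `D 0` contains a 1-edge at `a i1`, which is
some `p (i0 + j)`, and a 1-edge at `b (π i1)`, which is some `q (π i0 + j')`
(`alt`: the degree of `D 0` is 2 and only one of the two edges is in `M`).  As `D 0 ⊆ X0` or
`D 0 ⊆ X1`, the numbers `j`, `j'` have the same parity.  By `Stmt_S_Delta0` `Even 0 ↔ Even j` and
`Even 0 ↔ Even (j' + (t - 1))`, so `t - 1` is even.  If `x = b (π i0)`, `y = a i0`, use
`Stmt_S_PermSymm`. -/
def Stmt_S_Odd : Prop :=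
  ∀ (V E : Type) [Fintype V] [DecidableEq V] [Fintype E] [DecidableEq E] (G : MGraph V E)
    (w : E → ℕ), G.MinContra w → ∀ (n : ℕ) (a b : ZMod n → V) (p q m : ZMod n → E)
    (π : Equiv.Perm (ZMod n)), G.PermData w n a b p q m π → ∀ e x y, w e = 2 →
    G.ends e = s(x, y) → ∃ t D, 3 ≤ t ∧ G.IsChain w e x y t D

/-- Two chains for the same edge with a common circuit.
Proof.  `e = m i0` (`surjE`; `w e = 2` because a chain exists only for such an edge: otherwise `e`
is a 1-edge, in some `D i` by `cover1`, against `emem`).  By `Stmt_S_PermSymm` we may assume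
`x = a i0` (`ends`, `endm`).  `Stmt_S_Delta0` for both chains: for a 1-edge `f = p (i0 + j)`, `j < n`
(every element of `ZMod n` is `i0 + j` for some `j : ℕ`, `j < n`) `Even i ↔ Even j ↔ Even i'`.  For
`f = q (π i0 + j)`: `Even i ↔ Even (j + (t - 1))`, `Even i' ↔ Even (j + (t' - 1))`, so we need that
`t` and `t'` have the same parity.  `t ≥ 2`, since otherwise by `cover2` `e` is the only edge of
weight 2.  `D k` contains an edge `g ≠ e` of weight 2 (`meet k` or `meet (k - 1)`), `g = m i1`, its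
ends are different from `x`, `y`, so by `alt` it contains a 1-edge at `a i1`, some `p (i0 + j)`,
and a 1-edge at `b (π i1)`, some `q (π i0 + j')`, `j, j' < n`.  `D k = D' k'` gives
`Even k ↔ Even j ↔ Even k'` and `Even k ↔ Even (j' + (t - 1))`, `Even k' ↔ Even (j' + (t' - 1))`. -/
def Stmt_S_Delta : Prop :=
  ∀ (V E : Type) [Fintype V] [DecidableEq V] [Fintype E] [DecidableEq E] (G : MGraph V E)
    (w : E → ℕ) (n : ℕ) (a b : ZMod n → V) (p q m : ZMod n → E) (π : Equiv.Perm (ZMod n)),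
    G.PermData w n a b p q m π → ∀ e x y t D t' D', G.IsChain w e x y t D →
    G.IsChain w e x y t' D' → (∃ k < t, ∃ k' < t', D k = D' k') → ∀ f i i', w f = 1 → i < t →
    i' < t' → f ∈ D i → f ∈ D' i' → (Even i ↔ Even i')

/-! ### B. end circuits -/

/-- Enumeration of the first circuit of a chain.
Proof.  `D 0 ∩ two w ⊆ D 1`: `f ∈ D 0`, `w f = 2`, `f ≠ e0` (`emem`); `cover2` gives `i` with
`f ∈ D i`, `f ∈ D (i + 1)` and `0 = i` or `0 = i + 1`, so `i = 0`.  Even: `SP.par`, `IsCircuit.isEven`.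
Positive: `meet 0`.  Enumeration: `IsCircuit.exists_enum` and `Enum.rot` such that `v 0 = x` (the
degree of `D 0` at `x` is 2 by `first`, so `x` is an end of some `e i`, so `x = v i` or
`x = v (i + 1)`).  Let `n` be the length.  The edge of weight 2 at `x` is `e0` (`ends`, `d2`), it is
not in `D 0`, so `e 0` and `e (n - 1)` are 1-edges.  For `0 < i < n` the vertex `v i` is different
from `x` (`injv`) and from `y` (`last`, `2 ≤ t`), so by `alt` exactly one of `e (i - 1)`, `e i` (the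
two edges of `D 0` at `v i`, they are different by `inje`, or `n = 2` ... note `n ≥ 2`; `n = 2` is
impossible by `SP.simple`) is in `M`.  So by induction `w (e i) = 2 ↔ Odd i` for `i < n`, `n - 1`
is even, `n = 2 m + 1`, and `m = card (D 0 ∩ two w)` (the image of the odd numbers below `n`
under the map `e`, which is injective there). -/
def Stmt_S_EndE : Prop :=
  ∀ (V E : Type) [Fintype V] [DecidableEq V] [Fintype E] [DecidableEq E] (G : MGraph V E)
    (w : E → ℕ), G.SP w → ∀ e0 x y t D, G.IsChain w e0 x y t D → 2 ≤ t →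
    D 0 ∩ two w ⊆ D 1 ∧ Even (D 0 ∩ two w).card ∧ 0 < (D 0 ∩ two w).card ∧
    ∃ v e, G.EndE w (D 0) x (D 0 ∩ two w).card v e

/-- The reversed enumeration.  Proof: `Enum.rev`, with `n = 2 m + 1`: `v (n - 0 % n) = v n = v 0`
(`pv`) and `n - 1 - i = 2 m - i` is odd iff `i` is odd. -/
def Stmt_S_EndRev : Prop :=
  ∀ (V E : Type) [Fintype V] [DecidableEq V] [Fintype E] [DecidableEq E] (G : MGraph V E)
    (w : E → ℕ) (D : Finset E) (x : V) (m : ℕ) (v : ℕ → V) (e : ℕ → E), G.EndE w D x m v e →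
    G.EndE w D x m (fun i => v (2 * m + 1 - i % (2 * m + 1)))
      (fun i => e (2 * m + 1 - 1 - i % (2 * m + 1)))

/-- The second circuit of a chain with at least three circuits alternates.
Proof.  `D 1` has degree 0 at `x` and `y` (`first`, `last`; degrees of circuits are 0 or 2).  So for
an enumeration of `D 1` starting with `q ∈ D 0 ∩ D 1` of weight 2 (`exists_enum`, `rot`, and
`rev` if the orientation is wrong; here any orientation is allowed), at every vertex `v i` exactly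
one of the two edges `e (i - 1)`, `e i` has weight 2 (`alt`).  So the parity alternates, and the
length is even.  `N = card (D 1 ∩ two w)` as in `Stmt_S_EndE`.  The statement: every enumeration
`v, e` of `D 1` with `w (e 0) = 2` has length `2 N`, and `w (e i) = 2 ↔ Even i` for all `i`. -/
def Stmt_S_MidE : Prop :=
  ∀ (V E : Type) [Fintype V] [DecidableEq V] [Fintype E] [DecidableEq E] (G : MGraph V E)
    (w : E → ℕ), G.SP w → ∀ e0 x y t D, G.IsChain w e0 x y t D → 3 ≤ t → ∀ n v e,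
    Enum G (D 1) n v e → w (e 0) = 2 → n = 2 * (D 1 ∩ two w).card ∧ ∀ i, w (e i) = 2 ↔ Even i

/-! ### C. the first two circuits form a piece with cut points -/

/-- The trails of pieces, with a little more information (`Piece.trail_same`, `Piece.trail_opp`,
file `PieceS.lean`, proved): `T` contains an edge `g` of `D1` only, adjacent to `b`, and an edge `f`
of `D0` only, adjacent to `a`.

The statement to prove: the torus system of the common edges of `D 0` and `D 1` satisfies `HWcut`.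
Proof.  `Piece G (D 0) (D 1)`: `nadj`: common edges have weight 2 (`val`, `cover1`), and two
different edges of weight 2 are not adjacent (`d2`); `dle`: `G.Cubic` and `deg_mono`.  By
`Piece.hwcut` it remains to show for a monochromatic pair `a ≠ b` in `D 0 ∩ D 1` with an empty
rectangle that there is a cut point.  Let `T` be the circuit given by `PieceS.trail_same`
resp. `PieceS.trail_opp`.  If there is no cut point then
`supp (chi D0 + chi D1 - chi T)` is bridgeless (`TrailConc.cutp`).  Apply `SP.ext` to `e0` and the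
list `L = T :: (List.range (t - 2)).map (fun i => D (i + 2))`: all members are circuits without `e0`
(`T ⊆ D 0 ∪ D 1`); `chi T f ≤ chi (D 0) f + chi (D 1) f`, and
`w f = Σ_{i<t} chi (D i) f` for `f ≠ e0` (`cover1`, `cover2`), so `countP ≤ w f`, and the rest is
`{f ≠ e0 | chi T f < chi (D 0) f + chi (D 1) f}`, which is the bridgeless set above (`e0` is
in no circuit).  So there is `L'`, and `a_Chain` applied to `L ++ L'` gives a chain `D'`, `t'` for
`e0` with `T = D' j` and `D 2 = D' k'`.  By `SP.delta` (common circuit `D 2`) for the 1-edges `f ∈ T`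
with `f ∈ D 0` and `g ∈ T` with `g ∈ D 1`: `Even 0 ↔ Even j` and `Even 1 ↔ Even j`, a
contradiction.  (`f`, `g` are 1-edges since they are adjacent to the edges `a`, `b` of weight 2 and
different from them, `d2`, `val`.) -/
def Stmt_S_Cut : Prop :=
  ∀ (V E : Type) [Fintype V] [DecidableEq V] [Fintype E] [DecidableEq E] (G : MGraph V E)
    (w : E → ℕ), G.SP w → ∀ e0 x y t D, G.IsChain w e0 x y t D → 3 ≤ t →
    ∀ n0 v0 e0' n1 v1 e1, Enum G (D 0) n0 v0 e0' → Enum G (D 1) n1 v1 e1 →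
    Function.Injective (fun s : ↥(D 0 ∩ D 1) => idx e0' s.1) ∧
    Function.Injective (fun s : ↥(D 0 ∩ D 1) => idx e1 s.1) ∧
    HWcut (fun s : ↥(D 0 ∩ D 1) => idx e0' s.1) (fun s : ↥(D 0 ∩ D 1) => idx e1 s.1)
      (colour v0 e0' v1 e1) Finset.univ

/-! ### D. bonds -/

/-- Consecutive elements on a circuit.
Proof.  With `i = idx e1 a`, `j = idx e1 b` (both `< n1`, `Enum.idx_lt`) put `d = j - i` if `i < j`,
`d = j + n1 - i` if `j < i` (`i ≠ j` by `idx_inj`).  `e1 (i + d) = e1 j = b` (`pe`).  If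
`0 < l < d` and `c = e1 (i + l) ∈ D0` then `c ∈ D0 ∩ D1` and `idx e1 c` is `i + l` or `i + l - n1`,
so it is different from `i`, `j`, and `Cyc (idx e1) a c b`, against `Cyc (idx e1) a b c` from
`Next`. -/
def Stmt_S_Next : Prop :=
  ∀ (V E : Type) [Fintype V] [DecidableEq V] [Fintype E] [DecidableEq E] (G : MGraph V E)
    (D0 D1 : Finset E) (n1 : ℕ) (v1 : ℕ → V) (e1 : ℕ → E), Enum G D1 n1 v1 e1 →
    ∀ a b : ↥(D0 ∩ D1), Lf.Next (fun s : ↥(D0 ∩ D1) => idx e1 s.1) Finset.univ a b →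
    ∃ d, 0 < d ∧ d < n1 ∧ e1 (idx e1 a.1 + d) = b.1 ∧
      ∀ l, 0 < l → l < d → e1 (idx e1 a.1 + l) ∉ D0

/-- Triangles of the torus system are bonds, or pass through the root.
Proof.  Put `A = a.1` (the leaf), `B = b.1` (the neighbour); `M`-edges of `D 0` are common edges
(`Stmt_S_EndE`), common edges are `M`-edges (`cover1`).  `A = e0' j`, `B = e0' i` with odd
`i, j < 2 m + 1` (`idx`).  Case `Next p b a` (first case of `Tri`): by the definition of `Next`
and because `e0' 1, e0' 3, ..., e0' (2 m - 1)` are the common edges, `j = i + 2`, or `i = 2 m - 1`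
and `j = 1` (if `m = 1` impossible as `a ≠ b`): the exceptional case.  Let `j = i + 2`,
`f = e0' (i + 1)`: a 1-edge, joins `c = v0 (i + 1)` and `q1 = v0 (i + 2)`; `A` has ends `q1` and
`q2 = v0 (i + 3)`, `B` has ends `v0 i`, `c`.
 - `b` blue: `Next q a b`.  `a` is red.  `D 1` passes `A` from `q1` to `q2` (red: same direction) and
 then, after `d` steps without edges of `D 0` (`Stmt_S_Next`), passes `B` in the direction opposite
 to `D 0`, so from `c`.  Rotate the enumeration `v1, e1` to start at `A` (`Enum.rot`): `v 0 = q1`,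
 `v 1 = q2`, `e d = B`, `v d = c`.  `Stmt_S_MidE`: length `2 N`, weight 2 at the even positions, so
 `d` is even, `d = 2 k + 2` with `k ≥ 0`; `d < 2 N` gives `k + 1 < N`.
 - `b` red: `Next q b a`, `a` is blue.  `D 1` passes `B` from `v0 i` to `c`, then after `d` steps `A`
 from `q2` to `q1`.  Reverse the enumeration (`Enum.rev`, `Enum.rot`): start at `A`.
Case `Next p a b`: `i = j + 2` (or exceptional), `f = e0' (j + 1)` joins `q1 = v0 (j + 1)` and
`c = v0 (j + 2)`, `q2 = v0 j`; similar: `b` red, `a` blue, `Next q a b`: `D 1` passes `A` from `q1` to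
`q2` and then `B` from `c`: rotate; `b` blue, `a` red, `Next q b a`: `D 1` passes `B` from
`v0 (j + 3)` to `c` and then `A` from `q2` to `q1`: reverse. -/
def Stmt_S_Tri : Prop :=
  ∀ (V E : Type) [Fintype V] [DecidableEq V] [Fintype E] [DecidableEq E] (G : MGraph V E)
    (w : E → ℕ), G.SP w → ∀ e0 x y t D, G.IsChain w e0 x y t D → 3 ≤ t →
    ∀ m v0 e0' n1 v1 e1, G.EndE w (D 0) x m v0 e0' → Enum G (D 1) n1 v1 e1 →
    ∀ a b : ↥(D 0 ∩ D 1), Lf.Tri (fun s : ↥(D 0 ∩ D 1) => idx e0' s.1)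
      (fun s : ↥(D 0 ∩ D 1) => idx e1 s.1) (colour v0 e0' v1 e1) Finset.univ a b →
    (a.1 = e0' 1 ∧ b.1 = e0' (2 * m - 1)) ∨ (a.1 = e0' (2 * m - 1) ∧ b.1 = e0' 1) ∨
    ∃ N v e k f, G.Bond w (D 0) (D 1) N v e k f ∧ e 0 = a.1 ∧ e (2 * k + 2) = b.1

/-- The new end circuit of a bond.
Proof.  `v' i = if i % (2 m + 1) = 0 then v 0 else v (2 k + 1 + i % (2 m + 1))` with
`m = N - k - 1`, `e' i = if i % (2 m + 1) = 0 then f else e (2 k + 1 + i % (2 m + 1))`; note
`2 k + 1 + 2 m = 2 N - 1`, `v (2 N) = v 0`.  Everything from `injv`, `inje`, `f ∉ D1`, `ends`, `ef`,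
`alt`, `wf`. -/
def Stmt_S_NewEnd : Prop :=
  ∀ (V E : Type) [Fintype V] [DecidableEq V] [Fintype E] [DecidableEq E] (G : MGraph V E)
    (w : E → ℕ) (D0 D1 : Finset E) (N : ℕ) (v : ℕ → V) (e : ℕ → E) (k : ℕ) (f : E),
    G.Bond w D0 D1 N v e k f →
    ∃ v' e', G.EndE w (newEnd N k e f) (v 0) (N - k - 1) v' e' ∧ e' 0 = f ∧
      (∀ i, 1 ≤ i → i ≤ 2 * (N - k - 1) → e' i = e (2 * k + 1 + i)) ∧
      ∀ i, 1 ≤ i → i ≤ 2 * (N - k - 1) + 1 → v' i = v (2 * k + 1 + i)

/-- The other new circuit of a bond.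
Proof.  `D0` is a circuit which contains the two adjacent edges `f = s(c, q1)` and
`e 0 = s(q1, q2)`, where `q1 = v 0`, `q2 = v 1`, `c = v (2 k + 2)` (`c ≠ q2`, `f ≠ e 0`).
Enumerate `D0` (`exists_enum`, `rot`, `rev`) as `v0, e0'` of length `n0` with `e0' 0 = f`,
`v0 0 = c`, `v0 1 = q1`, then `e0' 1 = e 0`, `v0 2 = q2` (the edge of `D0` at `q1` different from `f`;
degree 2).  The closed walk of length `(n0 - 2) + (2 k + 1)`: `q2 = v0 2, e0' 2, v0 3, ...,
e0' (n0 - 1), v0 n0 = c = v (2 k + 2), e (2 k + 1), v (2 k + 1), ..., e 1, v 1 = q2`.  Its edges are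
different (`e i ∉ D0` for `0 < i < 2 k + 2`), its edge set is `newOther D0 k e f`, the degrees are at
most 3, so it is a circuit (`CWalk.isCircuit`).  Second part: if `z ≠ v 0` and the degree of `D0`
at `z` is 2 then `z` is an end of an edge of `D0` in `newOther`: `z = v0 i`, `i < n0`, `i ≠ 1`; for
`i ≥ 2` take `e0' i`, for `i = 0` take `e (2 k + 1)`, which has the end `v (2 k + 2) = c = v0 0`.
Then `IsCircuit.deg_eq_two`. -/
def Stmt_S_NewOther : Prop :=
  ∀ (V E : Type) [Fintype V] [DecidableEq V] [Fintype E] [DecidableEq E] (G : MGraph V E)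
    (w : E → ℕ) (D0 D1 : Finset E) (N : ℕ) (v : ℕ → V) (e : ℕ → E) (k : ℕ) (f : E),
    (∀ (T : Finset E) (a : V), G.deg T a ≤ 3) → G.IsCircuit D0 → G.Bond w D0 D1 N v e k f →
    G.IsCircuit (newOther D0 k e f) ∧
      ∀ z, G.deg D0 z = 2 → z ≠ v 0 → G.deg (newOther D0 k e f) z = 2

/-- The exchange does not change the sum up to the leaf.
Proof: if `g = e i` with `i < 2 N` (unique): `i = 0`, `0 < i < 2 k + 2` and `2 k + 2 ≤ i` one by
one; if `g ∉ D1`: `g = f` or not. -/
def Stmt_S_Sum : Prop :=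
  ∀ (V E : Type) [Fintype V] [DecidableEq V] [Fintype E] [DecidableEq E] (G : MGraph V E)
    (w : E → ℕ) (D0 D1 : Finset E) (N : ℕ) (v : ℕ → V) (e : ℕ → E) (k : ℕ) (f : E),
    G.Bond w D0 D1 N v e k f → ∀ g, chi D0 g + chi D1 g =
      chi (newEnd N k e f) g + chi (newOther D0 k e f) g + 2 * (if g = e 0 then 1 else 0)

/-- The exchange: a bond of the first two circuits of a chain (with at least 3 circuits) gives a
chain for the leaf, with at least 3 circuits and first circuit `newEnd`.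
Proof.  `C = newEnd N k e f` is a circuit (`Stmt_S_NewEnd`, `CWalk.isCircuit`) with `N - k - 1` edges
of weight 2 (as in `Stmt_S_EndE`), so `N - k - 1` is even (`par`); `D 1` has `N` edges of weight 2,
so `N` is even; hence `k` is odd, so `k ≥ 1`.  Put `B = newOther (D 0) k e f`.  The edge `r = e 2` is
in `B` (`2 < 2 k + 2`), has weight 2, is in `D 1` and not in `D 0`, so it is in `D 2` (`cover2`).
`SP.ext` for the edge `e 0` and `L = [C]`: `e 0 ∉ C`; `chi C g ≤ w g`; the rest
`R = {g ≠ e 0 | chi C g < w g}`.  For `g ≠ e 0`, `g ≠ e0`: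
`w g = Σ_{i<t} chi (D i) g = chi C g + chi B g + Σ_{2≤i<t} chi (D i) g` (`Stmt_S_Sum`), so `R` is
the union of `{e0}`, `B` and the `D i`, `2 ≤ i < t` (`e0` is in none of the circuits, `e0 ≠ e 0`).
`R` is bridgeless: every edge of a circuit contained in `R` is not a bridge (`IsEven.bridgeless` and
monotonicity of connectivity); for `e0 = s(x, y)` we need `ConnIn (R.erase e0) x y`:
`x` is a vertex of `B` (`first`; `x ≠ v 0` because `v 0` is an end of `e 0 ≠ e0` and `d2`;
`Stmt_S_NewOther`), `B` is connected, `B` and `D 2` share `r`; `D i` and `D (i + 1)` share an edge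
(`meet`), `y` is a vertex of `D (t - 1)` (`last`).  So there is `L'` and `C :: L'` satisfies the
hypotheses of `a_Chain` for the edge `e 0` with ends `v 0`, `v 1`: a chain `D'` of length
`t' = 1 + L'.length` with `C = D' j` for some `j < t'`.  The degree of `C` at `v 0` is 2 (`f ∈ C`), so
`j = 0`.  `t' ≥ 3`: `e0 ∉ C`, `w e0 = 2`, so `countP (e0 ∈ ·) L' = 2`, so `L'.length ≥ 2`. -/
def Stmt_S_Exch : Prop :=
  ∀ (V E : Type) [Fintype V] [DecidableEq V] [Fintype E] [DecidableEq E] (G : MGraph V E)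
    (w : E → ℕ), G.SP w → ∀ e0 x y t D, G.IsChain w e0 x y t D → 3 ≤ t →
    ∀ N v e k f, G.Bond w (D 0) (D 1) N v e k f →
    Odd k ∧ ∃ t' D', 3 ≤ t' ∧ G.IsChain w (e 0) (v 0) (v 1) t' D' ∧ D' 0 = newEnd N k e f ∧
      (D' 0 ∩ two w).card = N - k - 1

/-- The leaf of a bond is next to the root.
Proof.  `Stmt_S_Exch` gives the chain `D'`, `t' ≥ 3` for `e 0`, `D' 0 = C = newEnd N k e f`.
Let `g = s(v 1, z)` and assume `z ≠ x`.  `w g = 1` (`g ≠ e 0` is at `v 1`, `d2`).  `z ≠ v 0`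
(otherwise `g = e 0` by `simple`), `z ≠ v 1`.  `z ≠ y` (`last`: `D 0` has degree 0 at `y`).  By `alt`
for `D 0` at `z` the edge `s` of weight 2 at `z` is in `D 0`, so in `D 1` (`Stmt_S_EndE`), `s ≠ e 0`
(`z ≠ v 0, v 1`), so `s = e j` with `2 k + 2 ≤ j < 2 N` (`gap`), so `s ∈ C = D' 0`, so `s ∈ D' 1`
(`Stmt_S_EndE` for `D'`).  The circuits `D' 0` and `D' 1` have degree 2 at `z`, `z ≠ v 0, v 1`, so by
`alt` each of them contains exactly one 1-edge at `z`, and these are different (`cover1`); there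
are two 1-edges at `z` (`d1`), so `g` is one of them.  `g ∉ D' 0`: `g ∉ D 1` (`cover1`), `g ≠ f`
since `v 1` is not an end of `f` (`v 1 ≠ v 0`, `v 1 ≠ v (2 k + 2)` by `injv`).  So `g ∈ D' 1`, the
degree of `D' 1` at `v 1` is 2, and `1 + 1 = t'` by `last`.  Contradiction. -/
def Stmt_S_Ext : Prop :=
  ∀ (V E : Type) [Fintype V] [DecidableEq V] [Fintype E] [DecidableEq E] (G : MGraph V E)
    (w : E → ℕ), G.SP w → ∀ e0 x y t D, G.IsChain w e0 x y t D → 3 ≤ t →
    ∀ N v e k f, G.Bond w (D 0) (D 1) N v e k f →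
    ∀ g ∈ D 0, g ≠ e 0 → v 1 ∈ G.ends g → x ∈ G.ends g

/-- The position of a bond.
Proof.  `e 0 = e0' j` with `j` odd, `j < 2 m + 1` (`EndE.alt`), its ends are `v0 j`, `v0 (j + 1)`
and `v 0`, `v 1`.  If `v 1 = v0 j`: the edge `g = e0' (j - 1)` of `D 0` is at `v 1`, by `Stmt_S_Ext`
`x = v0 0` is an end of it, so `v0 0 = v0 (j - 1)` (`v0 j ≠ v0 0`), so `j = 1`; `v 0 = v0 2`; `f` is
the edge of `D 0` at `v 0` different from `e 0`, so `f = e0' 2`, so `v (2 k + 2) = v0 3`; `e (2 k + 2)`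
is an edge of `D 0` of weight 2 at `v0 3`, so it is `e0' 3` (if `m = 1` then `e0' 2` goes back to
the root `v0 3 = v0 0 = x`, where no edge of `D 0` has weight 2; so `m ≥ 2`).  If
`v 1 = v0 (j + 1)`: `g = e0' (j + 1)`, `x = v0 (j + 2)`, so `j + 2 = 2 m + 1`; symmetric. -/
def Stmt_S_Pos : Prop :=
  ∀ (V E : Type) [Fintype V] [DecidableEq V] [Fintype E] [DecidableEq E] (G : MGraph V E)
    (w : E → ℕ), G.SP w → ∀ e0 x y t D, G.IsChain w e0 x y t D → 3 ≤ t →
    ∀ m v0 e0', G.EndE w (D 0) x m v0 e0' → ∀ N v e k f, G.Bond w (D 0) (D 1) N v e k f →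
    (2 ≤ m ∧ e 0 = e0' 1 ∧ v 1 = v0 1 ∧ v 0 = v0 2 ∧ f = e0' 2 ∧ v (2 * k + 2) = v0 3 ∧
      e (2 * k + 2) = e0' 3) ∨
    (2 ≤ m ∧ e 0 = e0' (2 * m - 1) ∧ v 1 = v0 (2 * m) ∧ v 0 = v0 (2 * m - 1) ∧
      f = e0' (2 * m - 2) ∧ v (2 * k + 2) = v0 (2 * m - 2) ∧ e (2 * k + 2) = e0' (2 * m - 3))

/-- The bond at the beginning of the first circuit.
Proof.  `n1, v1, e1` an enumeration of `D 1`.  `Stmt_S_Cut`, `HWcut.hwc` and `two_triangles_of_hwc`
(`TreeC.lean`; the set `D 0 ∩ D 1` has at least `m ≥ 3` elements) give two triangles `(a, b)`,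
`(a', b')` with `a ≠ a'`, `a' ≠ b`, `b' ≠ a`.  By `Stmt_S_Tri` each of them is exceptional or a bond;
by `Stmt_S_Pos` the leaf of a bond is `e0' 1` or `e0' (2 m - 1)`.  If `(a, b)` is exceptional then
`{a, b} = {e0' 1, e0' (2 m - 1)}`, so `(a', b')` is not exceptional (it would have `a' ∈ {a, b}`)
and it is not a bond (`a' ∈ {e0' 1, e0' (2 m - 1)} = {a, b}` again), contradiction.  If `(a', b')` is
exceptional: `(a, b)` has `a ∈ {e0' 1, e0' (2 m - 1)} = {a', b'}`, contradiction again.  So both are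
bonds; their leaves are different, both in `{e0' 1, e0' (2 m - 1)}`, so one of them is `e0' 1`
(`e0' 1 ≠ e0' (2 m - 1)`), and `Stmt_S_Pos` gives the rest (`e0' 1 ≠ e0' (2 m - 1)` as `m ≥ 3`). -/
def Stmt_S_Bonds : Prop :=
  ∀ (V E : Type) [Fintype V] [DecidableEq V] [Fintype E] [DecidableEq E] (G : MGraph V E)
    (w : E → ℕ), G.SP w → ∀ e0 x y t D, G.IsChain w e0 x y t D → 3 ≤ t →
    ∀ m v0 e0', G.EndE w (D 0) x m v0 e0' → 3 ≤ m →
    ∃ N v e k f, G.Bond w (D 0) (D 1) N v e k f ∧ e 0 = e0' 1 ∧ v 1 = v0 1 ∧ v 0 = v0 2 ∧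
      f = e0' 2 ∧ v (2 * k + 2) = v0 3 ∧ e (2 * k + 2) = e0' 3

/-! ### E. the maximal end circuit -/

/-- Two enumerations of a circuit which start with the same edge.
Proof.  `n = n' = card D` (`mem`, `inje`).  The ends of `e 0` are `v 0`, `v 1` and `v' 0`, `v' 1`.  If
`v' 0 = v 0`, `v' 1 = v 1`: by induction on `i` `e' i = e i` and `v' i = v i`, `v' (i + 1) =
v (i + 1)`: the edges of `D` at `v (i + 1)` are `e i` and `e (i + 1)` (degree 2, different), so
`e' (i + 1)` is different from `e' i = e i` (if `n ≥ 2`), so it is `e (i + 1)`, and the other end is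
`v (i + 2)`.  If `v' 0 = v 1`, `v' 1 = v 0`: the same for the enumeration
`i ↦ v (n + 1 - i), e (n - i)` for `i ≤ n`. -/
def Stmt_S_Uniq : Prop :=
  ∀ (V E : Type) [Fintype V] [DecidableEq V] [Fintype E] [DecidableEq E] (G : MGraph V E)
    (D : Finset E) (n : ℕ) (v : ℕ → V) (e : ℕ → E) (n' : ℕ) (v' : ℕ → V) (e' : ℕ → E),
    G.IsCircuit D → Enum G D n v e → Enum G D n' v' e' → e' 0 = e 0 →
    n = n' ∧ ((∀ i, e' i = e i) ∨ ∀ i, i ≤ n → e' i = e (n - i))

/-- The two bonds of a maximal end circuit.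
Proof.  `N = N'` (both are half of `card D1`).  Let `r < 2 N` with `e' 0 = e r` (`mem`);
`w (e' 0) = 2`, so `r` is even; `r ≠ 0` since `e0' 1 ≠ e0' (2 m - 1)`; `r ≥ 2 k + 2` by `gap` and
`q0`; `r ≠ 2 k + 2` since `e (2 k + 2) = e0' 3 ≠ e0' (2 m - 1)` (`m ≥ 4`).  `Stmt_S_Uniq` for
`i ↦ e (i + r)` (`Enum.rot`): (A) `e' i = e (r + i)` for all `i`, or (B) `e' i = e (r + 2 N - i)` for
`i ≤ 2 N`, so `e' i = e (r - i)` for `i ≤ r` (`pe`).
The open gap `e' i`, `0 < i < 2 k' + 2`, contains no edge of `D0`, in particular not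
`e 0 = e (2 N)` and not `e (2 k + 2)`.  (A): `r + (2 k' + 2) ≤ 2 N`.  (B):
`r - (2 k' + 2) ≥ 2 k + 2` (`r - i` would take the value `2 k + 2` for `i = r - (2 k + 2)`, if this
is `< 2 k' + 2`).  So the edges `e 2, e 4, ..., e (2 k)` and `e' 2, ..., e' (2 k')` are `k + k'`
different edges of weight 2 of `D1` which are not in `D0`.  `D1` has `N` edges of weight 2 and `m`
of them are in `D0` (`D0 ∩ two w ⊆ D1`, `card (D0 ∩ two w) = m` from `EndE`).  So
`k + k' ≤ N - m`.  With `N - k - 1 ≤ m`, `N - k' - 1 ≤ m`: `k' ≤ 1` and `k ≤ 1`, so `k = k' = 1`,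
`N = m + 2`.  Assume `e 6 ∉ D0` (`6 < 2 N`).  The edges of weight 2 of `D1` not in `D0` are exactly
two, `e 2` and `e 6`, so `e' 2 = e 6` (it is not `e 2` by the above).  (A): `r + 2 = 6`, `r = 4`,
`e' 0 = e 4 = e0' 3`, so `2 m - 1 = 3`; impossible.  (B): `r - 2 = 6`, `e' 4 = e (r - 4) = e 4`, so
`e0' (2 m - 3) = e0' 3`, `2 m - 3 = 3`, impossible as `m ≥ 4`. -/
def Stmt_S_K : Prop :=
  ∀ (V E : Type) [Fintype V] [DecidableEq V] [Fintype E] [DecidableEq E] (G : MGraph V E)
    (w : E → ℕ) (D0 D1 : Finset E) (x : V) (m : ℕ) (v0 : ℕ → V) (e0' : ℕ → E), G.IsCircuit D1 →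
    G.EndE w D0 x m v0 e0' → D0 ∩ two w ⊆ D1 → 4 ≤ m →
    ∀ (N : ℕ) (v : ℕ → V) (e : ℕ → E) (k : ℕ) (f : E), G.Bond w D0 D1 N v e k f → e 0 = e0' 1 →
    e (2 * k + 2) = e0' 3 →
    ∀ (N' : ℕ) (v' : ℕ → V) (e' : ℕ → E) (k' : ℕ) (f' : E), G.Bond w D0 D1 N' v' e' k' f' →
    e' 0 = e0' (2 * m - 1) → e' (2 * k' + 2) = e0' (2 * m - 3) → 1 ≤ k → 1 ≤ k' →
    N - k - 1 ≤ m → N' - k' - 1 ≤ m → k = 1 ∧ N = m + 2 ∧ e 6 ∈ D0

/-- The structure of a maximal end circuit with at least 4 edges of weight 2.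
Proof.  `m = card (D 0 ∩ two w)` (from `EndE.alt`, `Enum`).  `Stmt_S_Bonds` for the enumeration
`v0, e0'` gives the first bond; `Stmt_S_Bonds` for the reversed enumeration
(`Stmt_S_EndRev`: `e (2 m + 1 - 1 - i % (2 m + 1))`: positions 1, 3 become `2 m - 1`,
`2 m - 3`) gives the second one.  `Stmt_S_Exch` and `MaxEnd` give `k` odd, `N - k - 1 ≤ m`, the same
for the second bond.  `Stmt_S_K`. -/
def Stmt_S_Struct : Prop :=
  ∀ (V E : Type) [Fintype V] [DecidableEq V] [Fintype E] [DecidableEq E] (G : MGraph V E)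
    (w : E → ℕ), G.SP w → ∀ m, G.MaxEnd w m → 4 ≤ m → ∀ e0 x y t D, G.IsChain w e0 x y t D →
    3 ≤ t → ∀ v0 e0', G.EndE w (D 0) x m v0 e0' →
    ∃ v e f, G.Bond w (D 0) (D 1) (m + 2) v e 1 f ∧ e 0 = e0' 1 ∧ v 1 = v0 1 ∧ v 0 = v0 2 ∧
      f = e0' 2 ∧ v 4 = v0 3 ∧ e 4 = e0' 3 ∧ e 6 ∈ D 0

/-- A maximal end circuit has at most 3 edges of weight 2.
Proof.  Assume `m ≥ 4`.  `Stmt_S_EndE` gives an enumeration `v0, e0'` of `D 0`, `Stmt_S_Struct` the
bond `v, e, f` (`N = m + 2`, `k = 1`), with `e 6 ∈ D 0`.  `Stmt_S_Exch` gives the chain `D'`,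
`t' ≥ 3` for `e 0` from `v 0` to `v 1` with `D' 0 = newEnd (m + 2) 1 e f`.  `Stmt_S_NewEnd` gives the
enumeration `v', e'` of `D' 0` (`N - k - 1 = m`) with `e' 0 = f`, `e' i = e (3 + i)`,
`v' i = v (3 + i)` for `1 ≤ i ≤ 2 m`.  `Stmt_S_Struct` for this chain and this enumeration gives a
bond `u, g, h` of `D' 0`, `D' 1` (`k = 1`) with `g 0 = e' 1 = e 4`, `u 1 = v' 1 = v 4`,
`u 4 = v' 3 = v 6`.  The edges `g 1 = s(u 1, u 2)`, `g 2 = s(u 2, u 3)`, `g 3 = s(u 3, u 4)` are
of weight 1, 2, 1 and not in `D' 0` (`gap`).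
`g 1` is a 1-edge at `v 4`; the 1-edges at `v 4` are `e 3` (`e 3 = s(v 3, v 4)`) and
`f = s(v 0, v 4)`, `f ∈ D' 0`, so `g 1 = e 3`, `u 2 = v 3` (`d1`).  `g 2` is the edge of weight 2 at
`v 3`, so `g 2 = e 2 = s(v 2, v 3)` (`d2`), `u 3 = v 2`.  `g 3` is a 1-edge joining `v 2` and `v 6`.
`g 3 ≠ e 1 = s(v 1, v 2)` since `v 6 ≠ v 1, v 2` (`injv`, `6 < 2 N`).  The edge `e 2` is in `D 1` and
not in `D 0` (`gap` of the first bond), so it is in `D 2` (`cover2`).  `D 2` has degree 2 at `v 2`;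
`v 2 ≠ x, y` (the edge of weight 2 at `x` and at `y` is `e0 ≠ e 2`), so by `alt` it contains a 1-edge
at `v 2`, which is not `e 1` (`cover1`, `e 1 ∈ D 1`), so it is `g 3` (`d1`).  So `v 6` is a vertex of
`D 2`.  But `e 6 ∈ D 0` has the end `v 6`, so `v 6` is a vertex of `D 0`, against `disj` for 0, 2. -/
def Stmt_S_Fin : Prop :=
  ∀ (V E : Type) [Fintype V] [DecidableEq V] [Fintype E] [DecidableEq E] (G : MGraph V E)
    (w : E → ℕ), G.SP w → ∀ m, G.MaxEnd w m → ∀ e0 x y t D, G.IsChain w e0 x y t D → 3 ≤ t →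
    (D 0 ∩ two w).card = m → m ≤ 3

/-! ### F. the end -/

/-- If all end circuits have exactly 2 edges of weight 2, then `π` maps distance 2 to distance 1.
Proof.  Part 1: `SP.odd` for the edge `m i` with the ends `x = a i`, `y = b (π i)`: a chain `D`,
`t ≥ 3`; `Stmt_S_EndE` and `card = 2`: an enumeration `v, e` of `D 0` of length 5 with `v 0 = a i`;
`e 0`, `e 4` are the two 1-edges at `a i`: `p i`, `p (i - 1)` in some order, so `v 1`, `v 4` are
`a (i + 1)`, `a (i - 1)` in some order; `e 1` is the edge of weight 2 at `v 1`, so `v 2` is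
`b (π (i + 1))` resp. `b (π (i - 1))`; `e 3` the edge of weight 2 at `v 4`, so `v 3` is the other one;
`e 2` is a 1-edge joining the two `b`-vertices, so it is some `q j` (`surjE`, `disj`) and
`{j, j + 1} = {π (i + 1), π (i - 1)}` (`injb`).  Part 2: the same for `Stmt_S_PermSymm`. -/
def Stmt_S_Pi : Prop :=
  ∀ (V E : Type) [Fintype V] [DecidableEq V] [Fintype E] [DecidableEq E] (G : MGraph V E)
    (w : E → ℕ), G.SP w → ∀ (n : ℕ) (a b : ZMod n → V) (p q m : ZMod n → E)
    (π : Equiv.Perm (ZMod n)), G.PermData w n a b p q m π →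
    (∀ e0 x y t D, G.IsChain w e0 x y t D → 3 ≤ t → (D 0 ∩ two w).card = 2) →
    ∀ i, π (i + 1) = π (i - 1) + 1 ∨ π (i + 1) = π (i - 1) - 1

/-- Arithmetic: such a permutation exists only for `n = 5`.
Proof.  Put `c k = π (2 k)` for `k : ZMod n`.  `c (k + 1) = c k ± 1` for all `k` (first hypothesis with
`i = 2 k + 1`).  `c (k + 2) ≠ c k` (`π` injective, `4 ≠ 0` in `ZMod n` as `n ≥ 5`), so the signs of
two consecutive steps are equal; so there is a sign `ε = ±1` with `c (k + 1) = c k + ε` for all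
`k = 0, 1, 2, ...` (naturals cast to `ZMod n`), so `π (2 k) = c 0 + ε k` for all `k : ℕ`.  In
particular `π 2 = c 0 + ε` and `π (-2) = c 0 - ε` (`k = n - 1`).  The second hypothesis for
`j = c 0`: `π.symm (c 0 + 1) - π.symm (c 0 - 1) = ± 1`, and this difference is `4` or `-4`.  So
`4 = 1` or `4 = -1` in `ZMod n`: `n` divides 3 or 5. -/
def Stmt_S_Arith : Prop :=
  ∀ (n : ℕ) (π : Equiv.Perm (ZMod n)), Odd n → 5 ≤ n →
    (∀ i, π (i + 1) = π (i - 1) + 1 ∨ π (i + 1) = π (i - 1) - 1) →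
    (∀ j, π.symm (j + 1) = π.symm (j - 1) + 1 ∨ π.symm (j + 1) = π.symm (j - 1) - 1) → n = 5

/-! ### Assembly -/

theorem sp_of (hB : Stmt_S_Basic) (hO : Stmt_S_Odd) (hD : Stmt_S_Delta) {V E : Type} [Fintype V]
    [DecidableEq V] [Fintype E] [DecidableEq E] {G : MGraph V E} {w : E → ℕ}
    (hm : G.MinContra w) (hx : G.Extendable w) {n : ℕ} {a b : ZMod n → V} {p q m : ZMod n → E}
    {π : Equiv.Perm (ZMod n)} (hd : G.PermData w n a b p q m π) : G.SP w := by
  obtain ⟨h1, h2, h3, h4⟩ := hB V E G w n a b p q m π hd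
  exact ⟨hm, hx, fun e => hm.2.1.1 e (Finset.mem_univ e), h1, h2, h3, h4,
    hO V E G w hm n a b p q m π hd, hD V E G w n a b p q m π hd⟩

theorem card_two_of (hE : Stmt_S_EndE) (hF : Stmt_S_Fin) {V E : Type} [Fintype V]
    [DecidableEq V] [Fintype E] [DecidableEq E] {G : MGraph V E} {w : E → ℕ} (h : G.SP w) :
    ∀ e0 x y t D, G.IsChain w e0 x y t D → 3 ≤ t → (D 0 ∩ two w).card = 2 := by
  classical
  -- the maximum
  have hb : ∀ c, (∃ e0 x y t D, G.IsChain w e0 x y t D ∧ 3 ≤ t ∧ (D 0 ∩ two w).card = c) →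
      c ≤ Fintype.card E := by
    rintro c ⟨e0, x, y, t, D, -, -, rfl⟩
    exact Finset.card_le_univ _
  have key : ∀ m, (∃ e0 x y t D, G.IsChain w e0 x y t D ∧ 3 ≤ t ∧ (D 0 ∩ two w).card = m) →
      m ≤ 3 := by
    intro m hm
    set P : ℕ → Prop := fun c => ∃ e0 x y t D, G.IsChain w e0 x y t D ∧ 3 ≤ t ∧
      (D 0 ∩ two w).card = c with hP
    set c := Nat.findGreatest P (Fintype.card E) with hc
    have h1 : P c := Nat.findGreatest_spec (P := P) (hb m hm) hm
    have h2 : G.MaxEnd w c := by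
      intro e0 x y t D hD ht
      exact Nat.le_findGreatest (hb _ ⟨e0, x, y, t, D, hD, ht, rfl⟩) ⟨e0, x, y, t, D, hD, ht, rfl⟩
    obtain ⟨e0, x, y, t, D, g1, g2, g3⟩ := h1
    have h3 := hF V E G w h c h2 e0 x y t D g1 g2 g3
    obtain ⟨e0, x, y, t, D, g1, g2, g3⟩ := hm
    have h4 := h2 e0 x y t D g1 g2
    omega
  intro e0 x y t D hD ht
  have h1 := key _ ⟨e0, x, y, t, D, hD, ht, rfl⟩
  obtain ⟨-, h2, h3, -⟩ := hE V E G w h e0 x y t D hD (by omega)
  obtain ⟨r, hr⟩ := h2
  omega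

/-- **the strong version** -/
theorem strong_of (hB : Stmt_S_Basic) (hO : Stmt_S_Odd) (hD : Stmt_S_Delta)
    (hS : Stmt_S_PermSymm) (hE : Stmt_S_EndE) (hF : Stmt_S_Fin) (hP : Stmt_S_Pi)
    (hA : Stmt_S_Arith) {V E : Type} [Fintype V] [DecidableEq V] [Fintype E] [DecidableEq E]
    (G : MGraph V E) (w : E → ℕ) (hm : G.MinContra w) (hx : G.Extendable w) :
    WIso G w P10 w10 := by
  obtain ⟨n, a, b, p, q, m, π, hd⟩ := a_Perm V E G w hm
  have h := sp_of hB hO hD hm hx hd
  have h2 := card_two_of hE hF h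
  obtain rfl : n = 5 := hA n π hd.odd hd.five (hP V E G w h n a b p q m π hd h2)
    (hP V E G w h n b a q p _ π.symm (hS V E G w n a b p q m π hd) h2)
  exact t_Five V E G w a b p q m π hd (a_Quad V E G w hm 5 a b p q m π hd).2

end MGraph

end Pool.GOD
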