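import Pool.Agent.GOD.StmtS

/-!
The converse of the strong version of Q1 of MP_7b7176_co: `(P10, w10)` has the extension
property, and the extension property is invariant under isomorphism.
-/

set_option autoImplicit false
set_option linter.unusedSectionVars false

namespace Pool.GOD

namespace MGraph

/-- The extension property is invariant under isomorphism.
Proof.  Let `φ`, `ψ` be the isomorphism.  `C ↦ C.map ψ` maps circuits of `G` to circuits of `G'`
and back (see `Iso.lean`, where covers, circuits and bridges are transported for `Stmt_Iso`).  Given
`e`, `L` for `(G, w)`, apply the property of `(G', w')` to `ψ e`, `L.map (Finset.map ψ)`, and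
transport the list `L'` back with `ψ.symm`. -/
def Stmt_S_IsoExt : Prop :=
  ∀ (V E V' E' : Type) [Fintype V] [DecidableEq V] [Fintype E] [DecidableEq E]
    [Fintype V'] [DecidableEq V'] [Fintype E'] [DecidableEq E']
    (G : MGraph V E) (w : E → ℕ) (G' : MGraph V' E') (w' : E' → ℕ),
    WIso G w G' w' → G'.Extendable w' → G.Extendable w

/-- The weighted Petersen graph has the extension property.
Proof (finite check).  Let `e` be one of the five spokes `5, ..., 9`, `L` a partial cover, and
`r f = w10 f - countP (f ∈ ·) L` for `f ≠ e`, `r e = 0`.  At every vertex the sum of `r` is even
(`w10` has sum 4, or 2 without `e`; circuits have degree 0 or 2; truncated subtraction is exact by the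
hypothesis `countP ≤ w10`).  So `r` is one of finitely many functions `r ≤ w10`: the set of edges with
odd `r` is one of the 64 even sets of `P10`, and `r` is 0 or 2 on the other spokes: at most 512
functions for every `e`.  For each of them either there is a bridge of the support (a vertex set
`S` such that the cut of `S` contains exactly one edge of the support, `isBridge_iff`), against
the hypothesis, or a list `L'` of circuits with `countP (f ∈ ·) L' = r f` for all `f` (this gives
`L'`; the circuits avoid `e` since `r e = 0`).  To do this in the kernel: encode a weight
`r : Fin 15 → Fin 3` by a pair of bit masks (or one number in base 4), let `table` be the list of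
the circuits of `P10` avoiding `e` as bit masks (`P10X.isCircuit_of` in `P10.lean` proves that a set is
a circuit, from a list of vertices; everything there is decidable), write a search function with fuel
which returns a list of circuits or a vertex set `S`, prove that a positive answer is correct, and
`decide` (with `Nat.land`, `Nat.testBit`, ... the kernel is fast) that it succeeds for all `r`.
By the symmetry `i ↦ i + 1` of the five spokes one may treat `e = 5` only, but it is simpler to check
all five. -/
def Stmt_S_P10Ext : Prop := P10.Extendable w10

/-- **characterisation** -/
theorem char_of (h1 : Stmt_S_IsoExt) (h2 : Stmt_S_P10Ext)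
    (hs : ∀ (V E : Type) [Fintype V] [DecidableEq V] [Fintype E] [DecidableEq E]
      (G : MGraph V E) (w : E → ℕ), G.MinContra w → G.Extendable w → WIso G w P10 w10)
    {V E : Type} [Fintype V] [DecidableEq V] [Fintype E] [DecidableEq E]
    (G : MGraph V E) (w : E → ℕ) : (G.MinContra w ∧ G.Extendable w) ↔ WIso G w P10 w10 :=
  ⟨fun h => hs V E G w h.1 h.2, fun h => ⟨t_Iso V E (Fin 10) (Fin 15) G w P10 w10 h t_P10,
    h1 V E (Fin 10) (Fin 15) G w P10 w10 h h2⟩⟩

end MGraph

end Pool.GOD
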