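import Mathlib

/-!
Abstract layer for MP_7b7176_co (Goddyn's question on minimal contra pairs), part I.

A coloured system on a type `V` is a symmetric function `g : V → V → Bool`; `g x x` is the colour of
`x` (`true` is red, `false` is blue).  The form `B(x+y, z+t)` on even sets is `bil g x y z t`, the
rooted graph at `u` is `rt g u`.  All notions are relative to a finite set `W` of points, so that
they can be restricted to subsets.
-/

namespace Pool.GOD

variable {V : Type*}

/-- the form `B(x+y, z+t)` -/
def bil (g : V → V → Bool) (x y z t : V) : Bool :=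
  xor (xor (g x z) (g x t)) (xor (g y z) (g y t))

/-- the rooted graph at `u`: `B(u+x, u+y)` -/
def rt (g : V → V → Bool) (u x y : V) : Bool := bil g u x u y

/-- `v` splits the monochromatic pair `x, y` inside `W` -/
def SplitOn (g : V → V → Bool) (W : Finset V) (v x y : V) : Prop :=
  v ∈ W ∧ g v v ≠ g x x ∧ g v v ≠ g y y ∧ ∀ t ∈ W, ¬ (rt g v x t = true ∧ rt g v y t = true)

/-- `x` and `y` are twins inside `W` -/
def TwinOn (g : V → V → Bool) (W : Finset V) (x y : V) : Prop :=
  g x x = g y y ∧ ∀ t ∈ W, rt g x y t = false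

/-- every monochromatic pair of `W` is a pair of twins or is split inside `W` -/
def HWOn (g : V → V → Bool) (W : Finset V) : Prop :=
  ∀ x ∈ W, ∀ y ∈ W, g x x = g y y → ¬ TwinOn g W x y → ∃ v, SplitOn g W v x y

/-- for every blue root of `W` the rooted graph is a comparability graph -/
def CmpOn (g : V → V → Bool) (W : Finset V) : Prop :=
  ∀ u ∈ W, g u u = false → ∃ lt : V → V → Prop, (∀ a, ¬ lt a a) ∧
    (∀ a b c, lt a b → lt b c → lt a c) ∧
    ∀ x ∈ W, ∀ y ∈ W, x ≠ u → y ≠ u → x ≠ y → (rt g u x y = true ↔ lt x y ∨ lt y x)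

/-- trees of twin classes: either all pairs are twins, or `W` is cut by an edge `z u`
(the even subsets of `K`, the even subsets of `K'` and `z + u` are pairwise orthogonal) -/
inductive TreeOn [DecidableEq V] (g : V → V → Bool) : Finset V → Prop
  | twins (W : Finset V) (h : ∀ x ∈ W, ∀ y ∈ W, TwinOn g W x y) : TreeOn g W
  | edge (K K' : Finset V) (z u : V) (hz : z ∈ K) (hu : u ∈ K') (hd : Disjoint K K')
      (hB : ∀ t ∈ K, ∀ s ∈ K', bil g z t u s = false)
      (h1 : ∀ t ∈ K, bil g z t z u = false) (h2 : ∀ s ∈ K', bil g u s z u = false)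
      (hzu : g z z ≠ g u u) (hK : TreeOn g K) (hK' : TreeOn g K') : TreeOn g (K ∪ K')

end Pool.GOD
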