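import Pool.Agent.GOD.PG

/-!
# Theta states (MP_7b7176_co, helper38's lemma and the first hit)

Compact model of `Pool.Agent.GOD.PG`.  `Half f x A` : `A` consists of alternate `f`-edges and
misses exactly the vertex `x`.  For `Half f x A` and `Half g y B` the set `c = (A, B)` is the
perfect matching of `O_1 - x` and `O_2 - y` and `b = (Aᶜ, Bᶜ)` is the rest.  The state is a theta
(`Theta f g A B`) if `M ∪ b` has no bridge.  Under `NN` every theta state is pure: `M ∪ c` is a
Hamiltonian path and `M ∪ b` is connected (`theta_conn_c`, `theta_conn_b`), and in every column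
`x` there is a theta state with `y ≠ x` (`exists_theta`).
-/

set_option autoImplicit false
set_option linter.unusedSectionVars false

namespace Pool.GOD.PG

variable {V : Type*} [Fintype V] [DecidableEq V]

/-- `A` consists of alternate `f`-edges and misses exactly the vertex `x`. -/
structure Half (f : Equiv.Perm V) (x : V) (A : Finset V) : Prop where
  ind : ∀ v ∈ A, f v ∉ A
  hbd : bd f A = {x}ᶜ

/-- `M` and the edges outside `(A, B)` have no bridge. -/
def Theta (f g : Equiv.Perm V) (A B : Finset V) : Prop := ∀ z, Cert f g A B z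

/-- `M` and the edges `(E, F)` form a connected spanning graph. -/
def Conn (f g : Equiv.Perm V) (E F : Finset V) : Prop :=
  ∀ S : Finset V, S.Nonempty → (∀ v ∈ E, (v ∈ S ↔ f v ∈ S)) → (∀ v ∈ F, (v ∈ S ↔ g v ∈ S)) →
    S = Finset.univ

variable {f g : Equiv.Perm V}

lemma even_card_bd (X : Finset V) : Even (bd f X).card := by
  have e1 : bd f X = symmDiff X (X.image f) := by
    ext v
    rw [mem_bd, Finset.mem_symmDiff, Finset.mem_image]
    have : (∃ a ∈ X, f a = v) ↔ f.symm v ∈ X := by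
      constructor
      · rintro ⟨a, ha, rfl⟩
        simpa using ha
      · intro h
        exact ⟨f.symm v, h, by simp⟩
    rw [this]
    tauto
  have e2 : (X.image f).card = X.card := Finset.card_image_of_injective _ f.injective
  have e3 : (symmDiff X (X.image f)).card = (X \ X.image f).card + (X.image f \ X).card := by
    rw [symmDiff_def, Finset.sup_eq_union, Finset.card_union_of_disjoint]
    exact disjoint_sdiff_sdiff
  have e4 := Finset.card_sdiff_add_card_inter X (X.image f)
  have e5 := Finset.card_sdiff_add_card_inter (X.image f) X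
  rw [Finset.inter_comm] at e5
  rw [e1, e3]
  exact ⟨(X \ X.image f).card, by omega⟩

lemma bd_inter_of_closed {E S : Finset V} (h : ∀ v ∈ E, (v ∈ S ↔ f v ∈ S)) :
    bd f (E ∩ S) = bd f E ∩ S := by
  ext v
  have h1 := h (f.symm v)
  rw [Equiv.apply_symm_apply] at h1
  rw [mem_bd, Finset.mem_inter, Finset.mem_inter, Finset.mem_inter, mem_bd]
  tauto

lemma card_odd_iff {x : V} {E S : Finset V} (hE : bd f E = {x}ᶜ)
    (h : ∀ v ∈ E, (v ∈ S ↔ f v ∈ S)) : Odd S.card ↔ x ∈ S := by
  have h1 := even_card_bd (f := f) (E ∩ S)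
  rw [bd_inter_of_closed h, hE] at h1
  have h2 : ({x}ᶜ : Finset V) ∩ S = S.erase x := by
    ext v
    simp only [Finset.mem_inter, Finset.mem_compl, Finset.mem_singleton, Finset.mem_erase]
  rw [h2] at h1
  by_cases hx : x ∈ S
  · have h3 := Finset.card_erase_add_one hx
    rw [← h3]
    exact ⟨fun _ => hx, fun _ => Even.add_one h1⟩
  · rw [Finset.erase_eq_of_notMem hx] at h1
    exact ⟨fun h4 => absurd h1 (Nat.not_even_iff_odd.2 h4), fun h4 => absurd h4 hx⟩

/-- A bridge separates the two cubic vertices. -/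
lemma sep {x y z : V} {E F P Q : Finset V} (hE : bd f E = {x}ᶜ) (hF : bd g F = {y}ᶜ)
    (hP : ∀ v ∈ E, (v ∈ P ↔ f v ∈ P)) (hQ : ∀ v ∈ F, (v ∈ Q ↔ g v ∈ Q))
    (hPQ : ∀ v, v ≠ z → (v ∈ P ↔ v ∈ Q)) (hz : ¬ (z ∈ P ↔ z ∈ Q)) : x ∈ P ↔ y ∉ Q := by
  have h1 := card_odd_iff hE hP
  have h2 := card_odd_iff hF hQ
  have h3 : P.erase z = Q.erase z := by
    ext v
    simp only [Finset.mem_erase]
    constructor
    · rintro ⟨a, b⟩
      exact ⟨a, (hPQ v a).1 b⟩
    · rintro ⟨a, b⟩
      exact ⟨a, (hPQ v a).2 b⟩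
  have h4 : Odd P.card ↔ ¬ Odd Q.card := by
    by_cases hp : z ∈ P
    · have hq : z ∉ Q := fun h => hz ⟨fun _ => h, fun _ => hp⟩
      have h5 := Finset.card_erase_add_one hp
      rw [h3, Finset.erase_eq_of_notMem hq] at h5
      rw [← h5, Nat.odd_add_one]
    · have hq : z ∈ Q := by
        by_contra h
        exact hz ⟨fun h' => absurd h' hp, fun h' => absurd h' h⟩
      have h5 := Finset.card_erase_add_one hq
      rw [← h3, Finset.erase_eq_of_notMem hp] at h5
      rw [← h5, Nat.odd_add_one, not_not]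
  rw [← h1, h4, h2]

lemma compl_bd {x : V} {A : Finset V} (h : bd f A = {x}ᶜ) : bd f Aᶜ = {x}ᶜ := by
  rw [bd_compl, h]

lemma Half.notMem {x : V} {A : Finset V} (h : Half f x A) : x ∉ A ∧ f.symm x ∉ A := by
  have h1 : x ∉ bd f A := by rw [h.hbd]; simp
  rw [mem_bd, not_not] at h1
  have h2 : x ∉ A := by
    intro hx
    have := h.ind _ (h1.1 hx)
    rw [Equiv.apply_symm_apply] at this
    exact this hx
  exact ⟨h2, fun h3 => h2 (h1.2 h3)⟩

lemma Half.mem_iff {x v : V} {A : Finset V} (h : Half f x A) (hv : v ≠ x) :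
    v ∈ A ↔ f.symm v ∉ A := by
  have h1 : v ∈ bd f A := by rw [h.hbd]; simpa using hv
  rw [mem_bd] at h1
  tauto

lemma exists_half (hf : Cyc f) (ho : Odd (Fintype.card V)) (x : V) : ∃ A, Half f x A := by
  obtain ⟨A, h1, h2⟩ := hf.exists_bd x x {x}ᶜ
  have h3 : Even ({x}ᶜ : Finset V).card := by
    rw [Finset.card_compl, Finset.card_singleton]
    obtain ⟨k, hk⟩ := ho
    exact ⟨k, by omega⟩
  rcases h2 with ⟨_, h2⟩ | ⟨h4, _⟩
  · refine ⟨A, ?_, h2⟩
    intro v hv hv'
    have h5 : f v ∉ bd f A := by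
      rw [mem_bd, not_not, Equiv.symm_apply_apply]
      exact ⟨fun _ => hv, fun _ => hv'⟩
    rw [h2, Finset.mem_compl, Finset.mem_singleton, not_not] at h5
    rw [h5] at hv'
    exact h1 hv'
  · exact absurd h3 h4

lemma Cyc.eq_of_bd (hf : Cyc f) {A B : Finset V} (h : PG.bd f A = PG.bd f B) {x : V} (hA : x ∉ A)
    (hB : x ∉ B) : A = B := by
  have h1 : PG.bd f (symmDiff A B) = ∅ := by
    rw [bd_symmDiff, h, symmDiff_self]
    rfl
  have h2 : ∀ v ∈ (symmDiff A B), f v ∈ symmDiff A B := by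
    intro v hv
    by_contra hc
    have h3 : f v ∈ PG.bd f (symmDiff A B) := by
      rw [mem_bd, Equiv.symm_apply_apply]
      exact fun h => hc (h.2 hv)
    rw [h1] at h3
    simp at h3
  have h4 : symmDiff A B = ∅ := by
    by_contra hc
    have h5 := hf _ (Finset.nonempty_iff_ne_empty.2 hc) h2
    have h6 : x ∈ symmDiff A B := by rw [h5]; exact Finset.mem_univ x
    rw [Finset.mem_symmDiff] at h6
    tauto
  exact symmDiff_eq_bot.1 h4

lemma half_unique (hf : Cyc f) {x : V} {A B : Finset V} (hA : Half f x A) (hB : Half f x B) :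
    A = B :=
  hf.eq_of_bd (by rw [hA.hbd, hB.hbd]) hA.notMem.1 hB.notMem.1

lemma Cyc.ne2 (hf : Cyc f) (hc : 3 ≤ Fintype.card V) (v : V) : f (f v) ≠ v := by
  intro h
  have h1 := hf {v, f v} ⟨v, by simp⟩ (by
    intro x hx
    rw [Finset.mem_insert, Finset.mem_singleton] at hx ⊢
    rcases hx with rfl | rfl
    · exact Or.inr rfl
    · exact Or.inl h)
  have h2 := congrArg Finset.card h1
  rw [Finset.card_univ] at h2
  have h3 : ({v, f v} : Finset V).card ≤ 2 := Finset.card_le_two
  omega

/-- The half state moves by two steps. -/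
lemma Half.move (hf : Cyc f) (hc : 3 ≤ Fintype.card V) {x : V} {A : Finset V} (h : Half f x A) :
    Half f (f (f x)) (insert x (A.erase (f x))) := by
  have n1 := hf.ne (by omega) x
  have n2 := hf.ne2 hc x
  have n3 := hf.ne (by omega) (f x)
  have m1 : f x ∈ A := by
    rw [h.mem_iff n1, Equiv.symm_apply_apply]
    exact h.notMem.1
  constructor
  · intro v hv
    rw [Finset.mem_insert, Finset.mem_erase] at hv
    rw [Finset.mem_insert, Finset.mem_erase, not_or, not_and]
    rcases hv with rfl | ⟨hv1, hv2⟩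
    · exact ⟨n1, fun hh => absurd rfl hh⟩
    · refine ⟨?_, fun _ => h.ind v hv2⟩
      rintro hh
      have h1 := h.notMem.2
      rw [← hh, Equiv.symm_apply_apply] at h1
      exact h1 hv2
  · have e : insert x (A.erase (f x)) = symmDiff (symmDiff A {f x}) {x} := by
      ext v
      simp only [Finset.mem_insert, Finset.mem_erase, Finset.mem_symmDiff, Finset.mem_singleton]
      by_cases h1 : v = x
      · subst h1
        have := h.notMem.1
        simp [this, Ne.symm n1]
      · by_cases h2 : v = f x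
        · subst h2
          simp [m1, n1]
        · simp [h1, h2]
    rw [e, bd_symmDiff, bd_symmDiff, h.hbd, bd_singleton, bd_singleton]
    ext v
    simp only [Finset.mem_symmDiff, Finset.mem_compl, Finset.mem_singleton]
    by_cases h1 : v = x
    · subst h1
      simp [Ne.symm n1, Ne.symm n2]
    · by_cases h2 : v = f x
      · subst h2
        simp [n1, Ne.symm n3]
      · by_cases h3 : v = f (f x)
        · subst h3
          simp [n2, n3]
        · simp [h1, h2, h3]

/-! ### Theta states are pure -/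

lemma Cert.mono {A B A' B' : Finset V} (hA : A' ⊆ A) (hB : B' ⊆ B) {z : V}
    (h : Cert f g A B z) : Cert f g A' B' z := by
  obtain ⟨X, Y, h1, h2, h3, h4⟩ := h
  exact ⟨X, Y, Finset.disjoint_of_subset_right hA h1, Finset.disjoint_of_subset_right hB h2,
    h3, h4⟩

/-- An alternating circuit inside `M ∪ c` is removable. -/
lemma Theta.rem_c {A B A' B' : Finset V} (h : Theta f g A B) (hA : A' ⊆ A) (hB : B' ⊆ B)
    (ha : Alt f g A' B') : Rem f g A' B' :=
  ⟨ha, fun z => (h z).mono hA hB⟩

/-- An alternating circuit inside `M ∪ b` which avoids the two cubic vertices is removable. -/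
lemma Theta.rem_b {x y : V} {A B A' B' : Finset V} (h : Theta f g A B) (hA : Half f x A)
    (hB : Half g y B) (dA : Disjoint A' A) (dB : Disjoint B' B) (ha : Alt f g A' B')
    (hx : x ∉ bd f A') (hy : y ∉ bd f A') : Rem f g A' B' := by
  refine ⟨ha, fun z => ?_⟩
  rcases cert_or_br (f := f) (g := g) A' B' z with h1 | h1
  · exact h1
  exfalso
  obtain ⟨P, Q, hP, hQ, hPQ, hz⟩ := h1
  -- the vertices of the circuit
  have key : ∀ (k : Equiv.Perm V) (u : V) (C C' : Finset V), Half k u C → Disjoint C' C →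
      (∀ v ∈ C', k v ∉ C') → u ∉ bd k C' → ∀ v, v ∉ C → v ∉ C' →
      v ∉ bd k C' ∧ k v ∉ bd k C' := by
    intro k u C C' hC hd hi hu v hv hv'
    have hu1 : u ∉ C' ∧ k.symm u ∉ C' := by
      rw [mem_bd, not_not] at hu
      have h2 : u ∉ C' := by
        intro hh
        have := hi _ (hu.1 hh)
        rw [Equiv.apply_symm_apply] at this
        exact this hh
      exact ⟨h2, fun h3 => h2 (hu.2 h3)⟩
    constructor
    · by_cases hvu : v = u
      · rw [hvu]; exact hu
      · have h2 : k.symm v ∈ C := by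
          by_contra h3
          exact hv ((hC.mem_iff hvu).2 h3)
        have h3 : k.symm v ∉ C' := fun h4 => (Finset.disjoint_left.1 hd) h4 h2
        rw [mem_bd, not_not]
        exact ⟨fun h => absurd h hv', fun h => absurd h h3⟩
    · by_cases hvu : k v = u
      · rw [hvu]; exact hu
      · have h2 : k v ∈ C := by
          rw [hC.mem_iff hvu, Equiv.symm_apply_apply]
          exact hv
        have h3 : k v ∉ C' := fun h4 => (Finset.disjoint_left.1 hd) h4 h2
        rw [mem_bd, Equiv.symm_apply_apply, not_not]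
        exact ⟨fun h => absurd h h3, fun h => absurd h hv'⟩
  have hzD : z ∉ bd f A' := by
    intro hz'
    refine not_br_of_cert (cert_of_mem ha.bd hz') ⟨P, Q, hP, hQ, hPQ, hz⟩
  refine not_br_of_cert (h z) ⟨P \ bd f A', Q \ bd f A', ?_, ?_, ?_, ?_⟩
  · intro v hv
    rw [Finset.mem_sdiff, Finset.mem_sdiff]
    by_cases hv' : v ∈ A'
    · have h2 : v ∈ bd f A' := by
        rw [mem_bd]
        intro h3
        have := ha.indA _ (h3.1 hv')
        rw [Equiv.apply_symm_apply] at this
        exact this hv'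
      have h3 : f v ∈ bd f A' := by
        rw [mem_bd, Equiv.symm_apply_apply]
        intro h3
        exact ha.indA _ hv' (h3.2 hv')
      simp [h2, h3]
    · have h2 := key f x A A' hA dA ha.indA hx v hv hv'
      simp [h2.1, h2.2, hP v hv']
  · intro v hv
    rw [Finset.mem_sdiff, Finset.mem_sdiff]
    by_cases hv' : v ∈ B'
    · have h2 : v ∈ bd f A' := by
        rw [ha.bd, mem_bd]
        intro h3
        have := ha.indB _ (h3.1 hv')
        rw [Equiv.apply_symm_apply] at this
        exact this hv'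
      have h3 : g v ∈ bd f A' := by
        rw [ha.bd, mem_bd, Equiv.symm_apply_apply]
        intro h3
        exact ha.indB _ hv' (h3.2 hv')
      simp [h2, h3]
    · have h2 := key g y B B' hB dB ha.indB (by rw [← ha.bd]; exact hy) v hv hv'
      rw [← ha.bd] at h2
      simp [h2.1, h2.2, hQ v hv']
  · intro v hv
    rw [Finset.mem_sdiff, Finset.mem_sdiff, hPQ v hv]
  · rw [Finset.mem_sdiff, Finset.mem_sdiff]
    simpa [hzD] using hz

/-- A closed set avoiding the odd vertices gives an alternating circuit. -/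
lemma alt_of_closed {x y : V} {E F S : Finset V} (hE : bd f E = {x}ᶜ) (hF : bd g F = {y}ᶜ)
    (hS : S.Nonempty) (h1 : ∀ v ∈ E, (v ∈ S ↔ f v ∈ S)) (h2 : ∀ v ∈ F, (v ∈ S ↔ g v ∈ S))
    (hx : x ∉ S) (hy : y ∉ S) : Alt f g (E ∩ S) (F ∩ S) ∧ bd f (E ∩ S) = S := by
  have e1 : bd f (E ∩ S) = S := by
    rw [bd_inter_of_closed h1, hE]
    ext v
    simp only [Finset.mem_inter, Finset.mem_compl, Finset.mem_singleton]
    constructor
    · exact fun h => h.2
    · intro h
      exact ⟨by rintro rfl; exact hx h, h⟩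
  have e2 : bd g (F ∩ S) = S := by
    rw [bd_inter_of_closed h2, hF]
    ext v
    simp only [Finset.mem_inter, Finset.mem_compl, Finset.mem_singleton]
    constructor
    · exact fun h => h.2
    · intro h
      exact ⟨by rintro rfl; exact hy h, h⟩
  refine ⟨⟨?_, ?_, ?_, by rw [e1, e2]⟩, e1⟩
  · rw [Finset.nonempty_iff_ne_empty]
    intro h
    rw [h, bd_empty] at e1
    rw [← e1] at hS
    simp at hS
  · intro v hv hv'
    have h3 : f v ∈ bd f (E ∩ S) := by
      rw [e1]
      exact (Finset.mem_inter.1 hv').2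
    rw [mem_bd, Equiv.symm_apply_apply] at h3
    exact h3 ⟨fun _ => hv, fun _ => hv'⟩
  · intro v hv hv'
    have h3 : g v ∈ bd g (F ∩ S) := by
      rw [e2]
      exact (Finset.mem_inter.1 hv').2
    rw [mem_bd, Equiv.symm_apply_apply] at h3
    exact h3 ⟨fun _ => hv, fun _ => hv'⟩

lemma closed_compl {E S : Finset V} (h : ∀ v ∈ E, (v ∈ S ↔ f v ∈ S)) :
    ∀ v ∈ E, (v ∈ Sᶜ ↔ f v ∈ Sᶜ) := by
  intro v hv
  rw [Finset.mem_compl, Finset.mem_compl, h v hv]

/-- A proper closed set can be chosen to avoid the two odd vertices. -/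
lemma exists_closed {x y : V} {E F S : Finset V} (hE : bd f E = {x}ᶜ) (hF : bd g F = {y}ᶜ)
    (hS : S.Nonempty) (h1 : ∀ v ∈ E, (v ∈ S ↔ f v ∈ S)) (h2 : ∀ v ∈ F, (v ∈ S ↔ g v ∈ S))
    (hu : S ≠ Finset.univ) : ∃ T : Finset V, T.Nonempty ∧ (∀ v ∈ E, (v ∈ T ↔ f v ∈ T)) ∧
      (∀ v ∈ F, (v ∈ T ↔ g v ∈ T)) ∧ x ∉ T ∧ y ∉ T := by
  have h3 : x ∈ S ↔ y ∈ S := by
    rw [← card_odd_iff hE h1, ← card_odd_iff hF h2]
  by_cases hx : x ∈ S
  · refine ⟨Sᶜ, ?_, closed_compl h1, closed_compl h2, by simpa using hx,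
      by simpa using h3.1 hx⟩
    rw [Finset.nonempty_iff_ne_empty]
    intro h
    exact hu ((Finset.compl_eq_empty_iff _).1 h)
  · exact ⟨S, hS, h1, h2, hx, fun h => hx (h3.2 h)⟩

/-- Under `NN` a theta state has a Hamiltonian path `M ∪ c`. -/
theorem theta_conn_c (hN : NN f g) {x y : V} {A B : Finset V} (hA : Half f x A)
    (hB : Half g y B) (h : Theta f g A B) : Conn f g A B := by
  intro S hS h1 h2
  by_contra hu
  obtain ⟨T, hT, h3, h4, h5, h6⟩ := exists_closed hA.hbd hB.hbd hS h1 h2 hu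
  obtain ⟨h7, _⟩ := alt_of_closed hA.hbd hB.hbd hT h3 h4 h5 h6
  exact hN _ _ (h.rem_c Finset.inter_subset_left Finset.inter_subset_left h7)

/-- Under `NN` the theta is spanning. -/
theorem theta_conn_b (hN : NN f g) {x y : V} {A B : Finset V} (hA : Half f x A)
    (hB : Half g y B) (h : Theta f g A B) : Conn f g Aᶜ Bᶜ := by
  intro S hS h1 h2
  by_contra hu
  obtain ⟨T, hT, h3, h4, h5, h6⟩ := exists_closed (compl_bd hA.hbd) (compl_bd hB.hbd) hS h1 h2 hu
  obtain ⟨h7, h8⟩ := alt_of_closed (compl_bd hA.hbd) (compl_bd hB.hbd) hT h3 h4 h5 h6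
  refine hN _ _ (h.rem_b hA hB ?_ ?_ h7 (by rw [h8]; exact h5) (by rw [h8]; exact h6))
  · exact Finset.disjoint_of_subset_left Finset.inter_subset_left disjoint_compl_left
  · exact Finset.disjoint_of_subset_left Finset.inter_subset_left disjoint_compl_left

/-! ### The first hit -/

lemma Cyc.sq (hf : Cyc f) (ho : Odd (Fintype.card V)) {S : Finset V} (hS : S.Nonempty)
    (h : ∀ v ∈ S, f (f v) ∈ S) : S = Finset.univ := by
  have h1 : S.image (fun v => f (f v)) = S := by
    apply Finset.eq_of_subset_of_card_le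
    · intro x hx
      obtain ⟨y, hy, rfl⟩ := Finset.mem_image.mp hx
      exact h y hy
    · exact (Finset.card_image_of_injective S (f.injective.comp f.injective)).ge
  have h2 : S ∪ S.image f = Finset.univ := by
    apply hf
    · exact hS.mono Finset.subset_union_left
    · intro v hv
      rw [Finset.mem_union] at hv ⊢
      rcases hv with hv | hv
      · exact Or.inr (Finset.mem_image_of_mem f hv)
      · obtain ⟨y, hy, rfl⟩ := Finset.mem_image.mp hv
        exact Or.inl (h y hy)
  by_cases hd : (S ∩ S.image f).Nonempty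
  · have h3 : S ∩ S.image f = Finset.univ := by
      apply hf _ hd
      intro v hv
      rw [Finset.mem_inter] at hv ⊢
      refine ⟨?_, Finset.mem_image_of_mem f hv.1⟩
      obtain ⟨y, hy, rfl⟩ := Finset.mem_image.mp hv.2
      exact h y hy
    rw [Finset.eq_univ_iff_forall] at h3 ⊢
    intro v
    exact (Finset.mem_inter.1 (h3 v)).1
  · exfalso
    have h3 : Disjoint S (S.image f) := by
      rw [Finset.disjoint_iff_inter_eq_empty]
      exact Finset.not_nonempty_iff_eq_empty.1 hd
    have h4 := Finset.card_union_of_disjoint h3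
    rw [h2, Finset.card_univ, Finset.card_image_of_injective _ f.injective] at h4
    rw [h4] at ho
    obtain ⟨k, hk⟩ := ho
    omega

/-- In every column there is a theta state. -/
theorem exists_theta (hf : Cyc f) (hg : Cyc g) (ho : Odd (Fintype.card V))
    (h3 : 3 ≤ Fintype.card V) (hN : NN f g) (x : V) :
    ∃ y, y ≠ x ∧ ∃ A B, Half f x A ∧ Half g y B ∧ Theta f g A B := by
  classical
  obtain ⟨A, hA⟩ := exists_half hf ho x
  obtain ⟨B0, hB0⟩ := exists_half hg ho x
  -- the members of the family of cuts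
  let Fam : Finset V → Prop := fun Q => x ∉ Q ∧
    (∀ u, u ∉ A → (u ∈ insert x Q ↔ f u ∈ insert x Q)) ∧ (∀ u, u ∉ B0 → (u ∈ Q ↔ g u ∈ Q))
  have hex : ∃ Q, Fam Q := by
    have hne : A.Nonempty := by
      rw [Finset.nonempty_iff_ne_empty]
      rintro rfl
      have h1 := hA.hbd
      rw [bd_empty] at h1
      have h2 := congrArg Finset.card h1
      rw [Finset.card_empty, Finset.card_compl, Finset.card_singleton] at h2
      omega
    have hAlt : Alt f g A B0 := ⟨hne, hA.ind, hB0.ind, by rw [hA.hbd, hB0.hbd]⟩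
    obtain ⟨z, hz1, P, Q, hP, hQ, hPQ, hz⟩ := hN.exists_br hAlt
    rw [hA.hbd, Finset.mem_compl, Finset.mem_singleton, not_not] at hz1
    subst hz1
    by_cases hp : z ∈ P
    · have hq : z ∉ Q := fun h => hz ⟨fun _ => h, fun _ => hp⟩
      have e : insert z Q = P := by
        ext v
        rw [Finset.mem_insert]
        by_cases hv : v = z
        · subst hv; simp [hp]
        · simp [hv, hPQ v hv]
      exact ⟨Q, hq, by rw [e]; exact hP, hQ⟩
    · have hq : z ∈ Q := by
        by_contra h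
        exact hz ⟨fun h' => absurd h' hp, fun h' => absurd h' h⟩
      have e : insert z Qᶜ = Pᶜ := by
        ext v
        rw [Finset.mem_insert, Finset.mem_compl, Finset.mem_compl]
        by_cases hv : v = z
        · subst hv; simp [hp]
        · simp [hv, hPQ v hv]
      refine ⟨Qᶜ, by simpa using hq, ?_, ?_⟩
      · rw [e]
        intro u hu
        rw [Finset.mem_compl, Finset.mem_compl, hP u hu]
      · intro u hu
        rw [Finset.mem_compl, Finset.mem_compl, hQ u hu]
  obtain ⟨Q, hQF, hQmin⟩ : ∃ Q, Fam Q ∧ ∀ Q', Fam Q' → Q.card ≤ Q'.card := by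
    obtain ⟨Q, hQ⟩ := hex
    obtain ⟨Q1, h1, h2⟩ := Finset.exists_min_image (Finset.univ.filter Fam) Finset.card
      ⟨Q, by simp [hQ]⟩
    exact ⟨Q1, by simpa using h1, fun Q' h' => h2 Q' (by simp [h'])⟩
  obtain ⟨hxQ, hQ1, hQ2⟩ := hQF
  have hQne : f x ∈ Q := by
    have h1 := (hQ1 x hA.notMem.1).1 (Finset.mem_insert_self x Q)
    rw [Finset.mem_insert] at h1
    rcases h1 with h1 | h1
    · exact absurd h1 (hf.ne (by omega) x)
    · exact h1
  -- a hit
  obtain ⟨y, B, hB, hyQ, hJ1, hJ2⟩ : ∃ y B, Half g y B ∧ y ∈ Q ∧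
      (∀ u ∈ Q, (u ∈ B ↔ u ∈ B0)) ∧ (∀ u ∈ Q, u ≠ y → (g.symm u ∈ B ↔ g.symm u ∈ B0)) := by
    by_contra hcon
    let T : Finset V := Finset.univ.filter (fun y => ∃ B, Half g y B ∧
      (∀ u ∈ Q, (u ∈ B ↔ u ∈ B0)) ∧ (∀ u ∈ Q, (g.symm u ∈ B ↔ g.symm u ∈ B0)))
    have hT : T = Finset.univ := by
      apply hg.sq ho
      · exact ⟨x, by simp only [T, Finset.mem_filter, Finset.mem_univ, true_and]; exact
          ⟨B0, hB0, fun u _ => Iff.rfl, fun u _ => Iff.rfl⟩⟩
      · intro y hy
        simp only [T, Finset.mem_filter, Finset.mem_univ, true_and] at hy ⊢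
        obtain ⟨B, hB, hI1, hI2⟩ := hy
        have hyQ : y ∉ Q := fun h => hcon ⟨y, B, hB, h, hI1, fun u hu _ => hI2 u hu⟩
        have hgyQ : g y ∉ Q := by
          intro h
          have h1 := hI2 _ h
          rw [Equiv.symm_apply_apply] at h1
          have h2 : y ∉ B0 := fun h' => hB.notMem.1 (h1.2 h')
          exact hyQ ((hQ2 y h2).2 h)
        have hm := hB.move hg h3
        have c1 : ∀ u ∈ Q, (u ∈ insert y (B.erase (g y)) ↔ u ∈ B0) := by
          intro u hu
          rw [Finset.mem_insert, Finset.mem_erase, ← hI1 u hu]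
          have h1 : u ≠ y := by rintro rfl; exact hyQ hu
          have h2 : u ≠ g y := by rintro rfl; exact hgyQ hu
          simp [h1, h2]
        have c2 : ∀ u ∈ Q, u ≠ g (g y) →
            (g.symm u ∈ insert y (B.erase (g y)) ↔ g.symm u ∈ B0) := by
          intro u hu hne
          rw [Finset.mem_insert, Finset.mem_erase, ← hI2 u hu]
          have h1 : g.symm u ≠ y := by
            rintro h
            rw [Equiv.symm_apply_eq] at h
            subst h
            exact hgyQ hu
          have h2 : g.symm u ≠ g y := by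
            rintro h
            rw [Equiv.symm_apply_eq] at h
            exact hne h
          simp [h1, h2]
        by_cases hh : g (g y) ∈ Q
        · exact absurd ⟨g (g y), _, hm, hh, c1, c2⟩ hcon
        · exact ⟨_, hm, c1, fun u hu => c2 u hu (by rintro rfl; exact hh hu)⟩
    have h1 : f x ∈ T := by rw [hT]; exact Finset.mem_univ _
    simp only [T, Finset.mem_filter, Finset.mem_univ, true_and] at h1
    obtain ⟨B, hB, hI1, hI2⟩ := h1
    exact hcon ⟨f x, B, hB, hQne, hI1, fun u hu _ => hI2 u hu⟩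
  refine ⟨y, by rintro rfl; exact hxQ hyQ, A, B, hA, hB, fun z => ?_⟩
  rcases cert_or_br (f := f) (g := g) A B z with h1 | h1
  · exact h1
  exfalso
  by_cases hzQ : z ∈ Q
  · refine not_br_of_cert ?_ h1
    refine ⟨Aᶜ ∩ insert x Q, B0ᶜ ∩ Q, ?_, ?_, ?_, ?_⟩
    · exact Finset.disjoint_of_subset_left Finset.inter_subset_left disjoint_compl_left
    · rw [Finset.disjoint_left]
      intro u hu hu'
      rw [Finset.mem_inter, Finset.mem_compl] at hu
      exact hu.1 ((hJ1 u hu.2).1 hu')
    · rw [bd_inter_of_closed (fun u hu => hQ1 u (Finset.mem_compl.1 hu)),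
        bd_inter_of_closed (fun u hu => hQ2 u (Finset.mem_compl.1 hu)), compl_bd hA.hbd,
        compl_bd hB0.hbd]
      ext u
      simp only [Finset.mem_inter, Finset.mem_compl, Finset.mem_singleton, Finset.mem_insert]
      tauto
    · rw [bd_inter_of_closed (fun u hu => hQ1 u (Finset.mem_compl.1 hu)), compl_bd hA.hbd]
      simp only [Finset.mem_inter, Finset.mem_compl, Finset.mem_singleton, Finset.mem_insert]
      exact ⟨by rintro rfl; exact hxQ hzQ, Or.inr hzQ⟩
  -- the general step
  have step : ∀ P2 Q2 : Finset V, (∀ v, v ∉ A → (v ∈ P2 ↔ f v ∈ P2)) →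
      (∀ v, v ∉ B → (v ∈ Q2 ↔ g v ∈ Q2)) → (∀ v, v ≠ z → (v ∈ P2 ↔ v ∈ Q2)) →
      x ∈ P2 → y ∉ Q2 → False := by
    intro P2 Q2 hP hQ hPQ hx hy
    have hin : insert x (Q ∩ Q2) = insert x Q ∩ P2 := by
      ext u
      rw [Finset.mem_insert, Finset.mem_inter, Finset.mem_inter, Finset.mem_insert]
      by_cases hu : u = x
      · subst hu; simp [hx]
      · simp only [hu, false_or]
        constructor
        · rintro ⟨h1, h2⟩
          exact ⟨h1, (hPQ u (fun h => hzQ (h ▸ h1))).2 h2⟩
        · rintro ⟨h1, h2⟩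
          exact ⟨h1, (hPQ u (fun h => hzQ (h ▸ h1))).1 h2⟩
    have hF : Fam (Q ∩ Q2) := by
      refine ⟨fun h => hxQ (Finset.mem_inter.1 h).1, ?_, ?_⟩
      · rw [hin]
        intro u hu
        rw [Finset.mem_inter, Finset.mem_inter, hQ1 u hu, hP u hu]
      · intro u hu
        rw [Finset.mem_inter, Finset.mem_inter, hQ2 u hu]
        constructor
        · rintro ⟨h1, h2⟩
          have h3 := (hQ2 u hu).2 h1
          exact ⟨h1, (hQ u (fun h => hu ((hJ1 u h3).1 h))).1 h2⟩
        · rintro ⟨h1, h2⟩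
          have h3 := (hQ2 u hu).2 h1
          exact ⟨h1, (hQ u (fun h => hu ((hJ1 u h3).1 h))).2 h2⟩
    have h1 := hQmin _ hF
    have h2 : Q ∩ Q2 = Q := Finset.eq_of_subset_of_card_le Finset.inter_subset_left h1
    rw [← h2] at hyQ
    exact hy (Finset.mem_inter.1 hyQ).2
  obtain ⟨P2, Q2, hP, hQ, hPQ, hz⟩ := h1
  have hs : x ∈ P2 ↔ y ∉ Q2 := sep (compl_bd hA.hbd) (compl_bd hB.hbd)
    (fun v hv => hP v (Finset.mem_compl.1 hv)) (fun v hv => hQ v (Finset.mem_compl.1 hv)) hPQ hz
  by_cases hx : x ∈ P2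
  · exact step P2 Q2 hP hQ hPQ hx (hs.1 hx)
  · refine step P2ᶜ Q2ᶜ ?_ ?_ ?_ (by simpa using hx) ?_
    · intro v hv
      rw [Finset.mem_compl, Finset.mem_compl, hP v hv]
    · intro v hv
      rw [Finset.mem_compl, Finset.mem_compl, hQ v hv]
    · intro v hv
      rw [Finset.mem_compl, Finset.mem_compl, hPQ v hv]
    · rw [Finset.mem_compl, not_not]
      by_contra h
      exact hx (hs.2 h)

/-- In every column there is a pure theta state. -/
theorem exists_pure_theta (hf : Cyc f) (hg : Cyc g) (ho : Odd (Fintype.card V))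
    (h3 : 3 ≤ Fintype.card V) (hN : NN f g) (x : V) :
    ∃ y, y ≠ x ∧ ∃ A B, Half f x A ∧ Half g y B ∧ Theta f g A B ∧ Conn f g A B ∧
      Conn f g Aᶜ Bᶜ := by
  obtain ⟨y, hy, A, B, hA, hB, h⟩ := exists_theta hf hg ho h3 hN x
  exact ⟨y, hy, A, B, hA, hB, h, theta_conn_c hN hA hB h, theta_conn_b hN hA hB h⟩

end Pool.GOD.PG
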