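import Pool.Agent.GOD.Sys
import Pool.Agent.CW.LemmaP

/-!
MP_7b7176_co, part I.1 (module GOD_Tree): a coloured system all of whose monochromatic non-twin
pairs are split and whose rooted graphs at blue points are comparability graphs is a tree of twin
classes.
-/

namespace Pool.GOD

variable {V : Type*}

namespace Tree

theorem rt_symm (g : V → V → Bool) (hs : ∀ x y, g x y = g y x) (u x y : V) :
    rt g u x y = rt g u y x := by
  unfold rt bil
  rw [hs x u, hs x y, hs u y]
  cases g u u <;> cases g y u <;> cases g u x <;> cases g y x <;> rfl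

theorem rt_left (g : V → V → Bool) (u t : V) : rt g u u t = false := by
  unfold rt bil
  cases g u u <;> cases g u t <;> rfl

theorem rt_right (g : V → V → Bool) (u t : V) : rt g u t u = false := by
  unfold rt bil
  cases g u u <;> cases g t u <;> rfl

/-- change of the root -/
theorem rt_root (g : V → V → Bool) (u z x t : V) :
    rt g z x t = xor (xor (rt g u z z) (rt g u z t)) (xor (rt g u x z) (rt g u x t)) := by
  unfold rt bil
  cases g u u <;> cases g u z <;> cases g z u <;> cases g z z <;> cases g u t <;> cases g z t <;>
    cases g x u <;> cases g x z <;> cases g x t <;> rfl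

theorem rt_self (g : V → V → Bool) (hs : ∀ x y, g x y = g y x) (u x : V) :
    rt g u x x = xor (g u u) (g x x) := by
  unfold rt bil
  rw [hs x u]
  cases g u u <;> cases g u x <;> cases g x x <;> rfl

/-- `B(z+t, u+s)` in terms of the graph rooted at `u` -/
theorem bil_us (g : V → V → Bool) (u z t s : V) :
    bil g z t u s = xor (rt g u z s) (rt g u t s) := by
  unfold rt bil
  cases g u u <;> cases g u s <;> cases g z u <;> cases g z s <;> cases g t u <;>
    cases g t s <;> rfl

theorem bil_zu (g : V → V → Bool) (u z t : V) :
    bil g z t z u = xor (rt g u z z) (rt g u t z) := by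
  unfold rt bil
  cases g u u <;> cases g u z <;> cases g z u <;> cases g z z <;> cases g t u <;>
    cases g t z <;> rfl

theorem bil_su (g : V → V → Bool) (u z s : V) :
    bil g u s z u = rt g u s z := by
  unfold rt bil
  cases g u u <;> cases g u z <;> cases g s z <;> cases g s u <;> rfl

/-- the EDGE step -/
theorem edge_exists [DecidableEq V] (g : V → V → Bool) (hs : ∀ x y, g x y = g y x)
    (W : Finset V) (h1 : HWOn g W) (h2 : CmpOn g W) (u r : V) (hu : u ∈ W) (hr : r ∈ W)
    (hub : g u u = false) (hrr : g r r = true) :
    ∃ (K : Finset V) (z : V), K ⊆ W ∧ z ∈ K ∧ u ∉ K ∧ g z z = true ∧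
      (∀ t ∈ K, rt g u z t = true) ∧ (∀ t ∈ K, ∀ s ∈ W, s ∉ K → rt g u t s = false) := by
  classical
  obtain ⟨lt, hirr, htr, hcmp⟩ := h2 u hu hub
  have hru : r ≠ u := by
    rintro rfl
    rw [hub] at hrr
    exact Bool.false_ne_true hrr
  have hfin : Finite {x : V // x ∈ W ∧ x ≠ u} :=
    Finite.of_injective (fun a => (⟨a.1, a.2.1⟩ : {x : V // x ∈ W}))
      (fun a b h => Subtype.ext (congrArg (fun c => c.1) h))
  have key := Pool.CW.lemmaP (X := {x : V // x ∈ W ∧ x ≠ u}) (fun a b => lt a.1 b.1)
    (fun a => g a.1 a.1 = true) (fun a b => rt g u a.1 b.1 = true)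
    (fun a => hirr _) (fun a b c => htr _ _ _)
    (by
      rintro ⟨x, hxW, hxu⟩ ⟨t, htW, htu⟩
      simp only [Subtype.mk.injEq]
      by_cases hxt : x = t
      · subst hxt
        rw [rt_self g hs, hub]
        simp only [Bool.false_xor, true_and, Pool.CW.Cmp]
        constructor
        · intro h
          exact Or.inl h
        · rintro (h | h | h)
          · exact h
          · exact absurd h (hirr _)
          · exact absurd h (hirr _)
      · rw [hcmp x hxW t htW hxu htu hxt]
        simp only [hxt, false_and, false_or, Pool.CW.Cmp])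
    (by
      rintro ⟨v, hvW, hvu⟩ hvb ⟨⟨t, htW, htu⟩, hvt⟩
      simp only [Bool.not_eq_true] at hvb hvt ⊢
      have hnt : ¬ TwinOn g W u v := by
        rintro ⟨-, h⟩
        rw [h t htW] at hvt
        exact Bool.false_ne_true hvt
      obtain ⟨z, hzW, hz1, hz2, hz3⟩ := h1 u hu v hvW (by rw [hub, hvb]) hnt
      rw [hub] at hz1
      have hzr : g z z = true := by
        cases h : g z z
        · exact absurd h hz1
        · rfl
      have hzu : z ≠ u := by
        rintro rfl
        rw [hub] at hzr
        exact Bool.false_ne_true hzr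
      have hzz : rt g u z z = true := by rw [rt_self g hs, hub, hzr]; rfl
      have hvv : rt g u v v = false := by rw [rt_self g hs, hub, hvb]; rfl
      have hvz : rt g u v z = true := by
        have h := hz3 v hvW
        rw [rt_root g u z u v, rt_root g u z v v, rt_left, rt_left, hzz, hvv,
          rt_symm g hs u z v] at h
        cases h5 : rt g u v z
        · rw [h5] at h
          simp at h
        · rfl
      refine ⟨⟨z, hzW, hzu⟩, hzr, hvz, ?_⟩
      rintro ⟨t', ht'W, ht'u⟩ ht'
      simp only at ht' ⊢
      have h := hz3 t' ht'W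
      rw [rt_root g u z u t', rt_root g u z v t', rt_left, rt_left, hzz, hvz, ht'] at h
      cases h5 : rt g u z t'
      · rw [h5] at h
        simp at h
      · rfl)
    (by
      rintro ⟨p, hpW, hpu⟩ ⟨q, hqW, hqu⟩ hpr hqr hpq ⟨⟨t0, ht0W, ht0u⟩, ht1, ht2⟩ -
      simp only at hpr hqr ht1 ht2
      have hpqne : p ≠ q := by
        rintro rfl
        rcases hpq with h | h
        · exact hirr _ h
        · exact hirr _ h
      have hMpq : rt g u p q = true := by
        rw [hcmp p hpW q hqW hpu hqu hpqne]
        exact hpq
      have hMqp : rt g u q p = true := by rw [rt_symm g hs]; exact hMpq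
      have hpp : rt g u p p = true := by rw [rt_self g hs, hub, hpr]; rfl
      have hqq : rt g u q q = true := by rw [rt_self g hs, hub, hqr]; rfl
      have hnt : ¬ TwinOn g W p q := by
        rintro ⟨-, h⟩
        have h := h t0 ht0W
        simp only [Bool.not_eq_true] at ht2
        rw [rt_root g u p q t0, hpp, ht2, hMqp, ht1] at h
        simp at h
      obtain ⟨v, hvW, hv1, hv2, hv3⟩ := h1 p hpW q hqW (by rw [hpr, hqr]) hnt
      have hvb : g v v = false := by
        cases h : g v v
        · rfl
        · rw [h, hpr] at hv1
          exact absurd rfl hv1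
      have hvv : rt g u v v = false := by rw [rt_self g hs, hub, hvb]; rfl
      have hvu : v ≠ u := by
        rintro rfl
        exact hv3 p hpW ⟨hpp, hMqp⟩
      have hex : xor (rt g u p v) (rt g u q v) = true := by
        have h := hv3 p hpW
        rw [rt_root g u v p p, rt_root g u v q p, hvv, rt_symm g hs u v p, hpp, hMqp] at h
        cases h5 : rt g u p v <;> cases h6 : rt g u q v <;> rw [h5, h6] at h <;> simp at h ⊢
      refine ⟨⟨v, hvW, hvu⟩, by simp [hvb], ?_⟩
      cases h5 : rt g u p v
      · right
        have h6 : rt g u q v = true := by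
          rw [h5] at hex
          simpa using hex
        refine ⟨h6, by simp, ?_, ?_⟩
        · rintro ⟨t, htW, htu⟩ hvt hqt
          simp only at hvt hqt ⊢
          have h := hv3 t htW
          rw [rt_root g u v p t, rt_root g u v q t, hvv, hvt, h5, h6, hqt] at h
          cases h7 : rt g u p t
          · rw [h7] at h
            simp at h
          · rfl
        · rintro ⟨t, htW, htu⟩ hpt
          simp only at hpt ⊢
          have h := hv3 t htW
          rw [rt_root g u v p t, rt_root g u v q t, hvv, h5, h6, hpt] at h
          cases h7 : rt g u v t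
          · right
            cases h8 : rt g u q t
            · rw [h7, h8] at h
              simp at h
            · rfl
          · exact Or.inl rfl
      · left
        have h6 : rt g u q v = false := by
          rw [h5] at hex
          simpa using hex
        refine ⟨rfl, by simp [h6], ?_, ?_⟩
        · rintro ⟨t, htW, htu⟩ hvt hpt
          simp only at hvt hpt ⊢
          have h := hv3 t htW
          rw [rt_root g u v p t, rt_root g u v q t, hvv, hvt, h5, h6, hpt] at h
          cases h7 : rt g u q t
          · rw [h7] at h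
            simp at h
          · rfl
        · rintro ⟨t, htW, htu⟩ hqt
          simp only at hqt ⊢
          have h := hv3 t htW
          rw [rt_root g u v p t, rt_root g u v q t, hvv, h5, h6, hqt] at h
          cases h7 : rt g u v t
          · right
            cases h8 : rt g u p t
            · rw [h7, h8] at h
              simp at h
            · rfl
          · exact Or.inl rfl)
    (by
      rintro ⟨p, hpW, hpu⟩ ⟨q, hqW, hqu⟩ hpr hqr hpqne hncmp ⟨⟨t0, ht0W, ht0u⟩, ht1, ht2⟩
      simp only at hpr hqr ht1 ht2
      have hpqne' : p ≠ q := fun h => hpqne (Subtype.ext h)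
      have hMpq : rt g u p q = false := by
        cases h : rt g u p q
        · rfl
        · exfalso
          apply hncmp
          rw [hcmp p hpW q hqW hpu hqu hpqne'] at h
          exact h
      have hMqp : rt g u q p = false := by rw [rt_symm g hs]; exact hMpq
      have hpp : rt g u p p = true := by rw [rt_self g hs, hub, hpr]; rfl
      have hqq : rt g u q q = true := by rw [rt_self g hs, hub, hqr]; rfl
      have hnt : ¬ TwinOn g W p q := by
        rintro ⟨-, h⟩
        have h := h t0 ht0W
        rw [rt_root g u p q t0, hpp, ht1, hMqp, ht2] at h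
        simp at h
      obtain ⟨v, hvW, hv1, hv2, hv3⟩ := h1 p hpW q hqW (by rw [hpr, hqr]) hnt
      have hvb : g v v = false := by
        cases h : g v v
        · rfl
        · rw [h, hpr] at hv1
          exact absurd rfl hv1
      have hvv : rt g u v v = false := by rw [rt_self g hs, hub, hvb]; rfl
      have hvu : v ≠ u := by
        rintro rfl
        exact hv3 t0 ht0W ⟨ht1, ht2⟩
      have hex : xor (rt g u p v) (rt g u q v) = false := by
        have h := hv3 p hpW
        rw [rt_root g u v p p, rt_root g u v q p, hvv, rt_symm g hs u v p, hpp, hMqp] at h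
        cases h5 : rt g u p v <;> cases h6 : rt g u q v <;> rw [h5, h6] at h <;> simp at h ⊢
      have hpv : rt g u p v = false := by
        have h := hv3 u hu
        rw [rt_root g u v p u, rt_root g u v q u, hvv, rt_right, rt_right, rt_right] at h
        cases h5 : rt g u p v
        · rfl
        · cases h6 : rt g u q v <;> rw [h5, h6] at h hex <;> simp at h hex
      have hqv : rt g u q v = false := by
        rw [hpv] at hex
        simpa using hex
      refine ⟨⟨v, hvW, hvu⟩, by simp [hvb], by simp [hpv], by simp [hqv], ?_, ?_⟩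
      · rintro ⟨t, htW, htu⟩ hpt hqt
        simp only at hpt hqt ⊢
        have h := hv3 t htW
        rw [rt_root g u v p t, rt_root g u v q t, hvv, hpv, hqv, hpt, hqt] at h
        cases h7 : rt g u v t
        · rw [h7] at h
          simp at h
        · rfl
      · rintro ⟨t, htW, htu⟩ hvt
        simp only at hvt ⊢
        have h := hv3 t htW
        rw [rt_root g u v p t, rt_root g u v q t, hvv, hpv, hqv, hvt] at h
        cases h7 : rt g u p t
        · right
          cases h8 : rt g u q t
          · rw [h7, h8] at h
            simp at h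
          · rfl
        · exact Or.inl rfl)
    ⟨r, hr, hru⟩ hrr
  obtain ⟨⟨z, hzW, hzu⟩, hzr, hrz, hzall⟩ := key
  simp only at hzr
  let R : {x : V // x ∈ W ∧ x ≠ u} → {x : V // x ∈ W ∧ x ≠ u} → Prop :=
    Pool.CW.Cmp (fun a b => lt a.1 b.1)
  let K : Finset V := W.filter (fun t => ∃ h : t ∈ W ∧ t ≠ u,
    Relation.ReflTransGen R ⟨r, hr, hru⟩ ⟨t, h⟩)
  have hK : ∀ t, t ∈ K ↔ ∃ h : t ∈ W ∧ t ≠ u,
      Relation.ReflTransGen R ⟨r, hr, hru⟩ ⟨t, h⟩ := by
    intro t
    simp only [K, Finset.mem_filter]
    constructor
    · exact fun h => h.2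
    · exact fun h => ⟨h.1.1, h⟩
  refine ⟨K, z, Finset.filter_subset _ _, (hK z).2 ⟨⟨hzW, hzu⟩, hrz⟩, ?_, hzr, ?_, ?_⟩
  · intro h
    obtain ⟨⟨-, h⟩, -⟩ := (hK u).1 h
    exact h rfl
  · intro t ht
    obtain ⟨⟨htW, htu⟩, hrt⟩ := (hK t).1 ht
    by_cases htz : t = z
    · subst htz
      rw [rt_self g hs, hub, hzr]
      rfl
    · have h := hzall ⟨t, htW, htu⟩ hrt (fun h => htz (congrArg Subtype.val h))
      rw [rt_symm g hs, hcmp t htW z hzW htu hzu htz]
      exact h
  · intro t ht s hsW hsK
    obtain ⟨⟨htW, htu⟩, hrt⟩ := (hK t).1 ht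
    by_cases hsu : s = u
    · subst hsu
      exact rt_right g _ _
    · have hts : t ≠ s := by
        rintro rfl
        exact hsK ht
      cases h : rt g u t s
      · rfl
      · exfalso
        apply hsK
        rw [hcmp t htW s hsW htu hsu hts] at h
        exact (hK s).2 ⟨⟨hsW, hsu⟩, hrt.tail h⟩

end Tree

/-- **Trees from splitters** (graph case of (HW2)). -/
theorem treeOn_of_hw [DecidableEq V] (g : V → V → Bool) (hs : ∀ x y, g x y = g y x)
    (W : Finset V) (h1 : HWOn g W) (h2 : CmpOn g W) : TreeOn g W := by
  classical
  induction W using Finset.strongInduction with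
  | H W ih =>
    by_cases hmono : ∀ x ∈ W, ∀ y ∈ W, g x x = g y y
    · -- one colour only: all pairs are twins
      apply TreeOn.twins
      intro x hx y hy
      by_contra hnt
      obtain ⟨v, hvW, hv1, -, -⟩ := h1 x hx y hy (hmono x hx y hy) hnt
      exact hv1 (hmono v hvW x hx)
    · -- both colours occur
      obtain ⟨u, hu, r, hr, hub, hrr⟩ : ∃ u ∈ W, ∃ r ∈ W, g u u = false ∧ g r r = true := by
        push Not at hmono
        obtain ⟨x, hx, y, hy, hxy⟩ := hmono
        cases hgx : g x x
        · cases hgy : g y y
          · rw [hgx, hgy] at hxy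
            exact absurd rfl hxy
          · exact ⟨x, hx, y, hy, hgx, hgy⟩
        · cases hgy : g y y
          · exact ⟨y, hy, x, hx, hgy, hgx⟩
          · rw [hgx, hgy] at hxy
            exact absurd rfl hxy
      obtain ⟨K, z, hKW, hzK, huK, hzr, hKz, hcross⟩ :=
        Tree.edge_exists g hs W h1 h2 u r hu hr hub hrr
      let K' : Finset V := W \ K
      have hK'W : K' ⊆ W := Finset.sdiff_subset
      have huK' : u ∈ K' := Finset.mem_sdiff.2 ⟨hu, huK⟩
      have hzK' : z ∉ K' := fun h => (Finset.mem_sdiff.1 h).2 hzK
      have hcr : ∀ t ∈ K, ∀ s ∈ K', rt g u t s = false := fun t ht s hs' =>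
        hcross t ht s (Finset.mem_sdiff.1 hs').1 (Finset.mem_sdiff.1 hs').2
      have hun : K ∪ K' = W := Finset.union_sdiff_of_subset hKW
      have hzz : rt g u z z = true := hKz z hzK
      have hssK : K ⊂ W := by
        refine Finset.ssubset_iff_subset_ne.2 ⟨hKW, ?_⟩
        rintro rfl
        exact huK hu
      have hssK' : K' ⊂ W := by
        refine Finset.ssubset_iff_subset_ne.2 ⟨hK'W, ?_⟩
        intro h
        exact hzK' (h ▸ hKW hzK)
      have hcmp : ∀ L ⊆ W, CmpOn g L := by
        intro L hL u' hu' hb
        obtain ⟨lt, hi, ht, hc⟩ := h2 u' (hL hu') hb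
        exact ⟨lt, hi, ht, fun x hx y hy => hc x (hL hx) y (hL hy)⟩
      -- (HW) on K
      have hHK : HWOn g K := by
        intro x hx y hy hxy hnt
        have hnt' : ¬ TwinOn g W x y := fun h => hnt ⟨h.1, fun t ht => h.2 t (hKW ht)⟩
        obtain ⟨v, hvW, hv1, hv2, hv3⟩ := h1 x (hKW hx) y (hKW hy) hxy hnt'
        by_cases hvK : v ∈ K
        · exact ⟨v, hvK, hv1, hv2, fun t ht => hv3 t (hKW ht)⟩
        · have hvK' : v ∈ K' := Finset.mem_sdiff.2 ⟨hvW, hvK⟩
          have hvt : ∀ t ∈ K, rt g u v t = false := fun t ht => by
            rw [Tree.rt_symm g hs]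
            exact hcr t ht v hvK'
          have hxz : rt g u x z = true := by rw [Tree.rt_symm g hs]; exact hKz x hx
          have hyz : rt g u y z = true := by rw [Tree.rt_symm g hs]; exact hKz y hy
          have hvv : rt g u v v = g v v := by
            rw [Tree.rt_self g hs, hub, Bool.false_xor]
          have hvr : g v v = true := by
            have h := hv3 z (hKW hzK)
            rw [Tree.rt_root g u v x z, Tree.rt_root g u v y z, hvv, hvt z hzK, hxz, hyz,
              Tree.rt_symm g hs u x v, Tree.rt_symm g hs u y v, hvt x hx, hvt y hy] at h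
            cases h5 : g v v
            · rw [h5] at h
              simp at h
            · rfl
          refine ⟨z, hzK, ?_, ?_, ?_⟩
          · rw [hzr, ← hvr]
            exact hv1
          · rw [hzr, ← hvr]
            exact hv2
          · intro t ht h
            apply hv3 t (hKW ht)
            rw [Tree.rt_root g u v x t, Tree.rt_root g u v y t, hvv, hvr, hvt t ht,
              Tree.rt_symm g hs u x v, Tree.rt_symm g hs u y v, hvt x hx, hvt y hy]
            rw [Tree.rt_root g u z x t, Tree.rt_root g u z y t, hzz, hKz t ht, hxz, hyz] at h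
            simpa using h
      -- (HW) on K'
      have hHK' : HWOn g K' := by
        intro x hx y hy hxy hnt
        have hnt' : ¬ TwinOn g W x y := fun h => hnt ⟨h.1, fun t ht => h.2 t (hK'W ht)⟩
        obtain ⟨v, hvW, hv1, hv2, hv3⟩ := h1 x (hK'W hx) y (hK'W hy) hxy hnt'
        by_cases hvK : v ∈ K
        · have hxv : rt g u x v = false := by rw [Tree.rt_symm g hs]; exact hcr v hvK x hx
          have hyv : rt g u y v = false := by rw [Tree.rt_symm g hs]; exact hcr v hvK y hy
          have hvv : rt g u v v = g v v := by
            rw [Tree.rt_self g hs, hub, Bool.false_xor]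
          have hvb : g v v = false := by
            have h := hv3 u hu
            rw [Tree.rt_root g u v x u, Tree.rt_root g u v y u, hvv, hxv, hyv,
              Tree.rt_right, Tree.rt_right, Tree.rt_right] at h
            cases h5 : g v v
            · rfl
            · rw [h5] at h
              simp at h
          refine ⟨u, huK', ?_, ?_, ?_⟩
          · rw [hub, ← hvb]
            exact hv1
          · rw [hub, ← hvb]
            exact hv2
          · intro t ht h
            apply hv3 t (hK'W ht)
            rw [Tree.rt_root g u v x t, Tree.rt_root g u v y t, hvv, hvb, hcr v hvK t ht,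
              hxv, hyv]
            simpa using h
        · exact ⟨v, Finset.mem_sdiff.2 ⟨hvW, hvK⟩, hv1, hv2, fun t ht => hv3 t (hK'W ht)⟩
      have hT := ih K hssK hHK (hcmp K hKW)
      have hT' := ih K' hssK' hHK' (hcmp K' hK'W)
      have hres : TreeOn g (K ∪ K') := by
        refine TreeOn.edge K K' z u hzK huK' Finset.disjoint_sdiff ?_ ?_ ?_ ?_ hT hT'
        · intro t ht s hs'
          rw [Tree.bil_us, hcr z hzK s hs', hcr t ht s hs']
          rfl
        · intro t ht
          rw [Tree.bil_zu, hzz, Tree.rt_symm g hs, hKz t ht]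
          rfl
        · intro s hs'
          rw [Tree.bil_su, Tree.rt_symm g hs]
          exact hcr z hzK s hs'
        · rw [hzr, hub]
          exact Bool.false_ne_true.symm
      rwa [hun] at hres

end Pool.GOD
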