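import Pool.Agent.GOD.Enum

/-!
Bridges of closed walks and spliced closed walks (MP_7b7176_co, graph to torus dictionary).
-/

set_option autoImplicit false

namespace Pool.GOD

namespace MGraph

variable {V E : Type*}

section bridge

variable [DecidableEq E] {G : MGraph V E} {n : ℕ} {v : ℕ → V} {e : ℕ → E} {X : Finset E} {u : E}

/-- an edge which is passed only once by a closed walk is not a bridge -/
theorem CWalk.not_bridge_of_once (h : CWalk G n v e) (hX : ∀ k, e k ∈ X) {i : ℕ} (hi : e i = u)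
    (ho : ∀ k, i < k → k < i + n → e k ≠ u) : ¬ G.IsBridge X u := by
  intro hb
  refine hb.2 (v i) (v (i + 1)) (by rw [← hi]; exact h.ends i) ?_
  have hn := h.pos
  have h1 : G.ConnIn (X.erase u) (v (i + 1)) (v (i + n)) :=
    h.seg (by omega) fun k h1 h2 => Finset.mem_erase.2 ⟨ho k (by omega) h2, hX k⟩
  rw [h.pv] at h1
  exact h1.symm

/-- an edge which is passed twice in the same direction is not a bridge -/
theorem CWalk.not_bridge_of_same (h : CWalk G n v e) (hX : ∀ k, e k ∈ X) {i j : ℕ} (hi : e i = u)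
    (hij : i < j) (hv : v i = v j) (ho : ∀ k, i < k → k < j → e k ≠ u) : ¬ G.IsBridge X u := by
  intro hb
  refine hb.2 (v i) (v (i + 1)) (by rw [← hi]; exact h.ends i) ?_
  have h1 : G.ConnIn (X.erase u) (v (i + 1)) (v j) :=
    h.seg (by omega) fun k h1 h2 => Finset.mem_erase.2 ⟨ho k (by omega) h2, hX k⟩
  rw [← hv] at h1
  exact h1.symm

/-- the two parts of a closed walk between the two passages of a bridge have no common edge -/
theorem CWalk.bridge_disj (h : CWalk G n v e) (hX : ∀ k, e k ∈ X) {i j : ℕ} (hi : e i = u)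
    (ho1 : ∀ k, i < k → k < j → e k ≠ u)
    (ho2 : ∀ k, j < k → k < i + n → e k ≠ u) (hb : G.IsBridge X u) {k l : ℕ} (hk : i < k)
    (hk' : k < j) (hl : j < l) (hl' : l < i + n) (hkl : e k = e l) : False := by
  refine hb.2 (v i) (v (i + 1)) (by rw [← hi]; exact h.ends i) ?_
  have h1 : G.ConnIn (X.erase u) (v (i + 1)) (v k) :=
    h.seg (by omega) fun m h1 h2 => Finset.mem_erase.2 ⟨ho1 m (by omega) (by omega), hX m⟩
  have h2 : G.ConnIn (X.erase u) (v l) (v (i + n)) :=
    h.seg hl'.le fun m h1 h2 => Finset.mem_erase.2 ⟨ho2 m (by omega) h2, hX m⟩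
  have h3 : G.AdjIn (X.erase u) (v l) (v (l + 1)) :=
    h.adj (Finset.mem_erase.2 ⟨ho2 l hl hl', hX l⟩)
  have h4 : G.ConnIn (X.erase u) (v k) (v l) := by
    have h5 : v k ∈ s(v l, v (l + 1)) := by
      rw [← h.ends l, ← hkl, h.ends k]
      exact Sym2.mem_mk_left _ _
    rw [Sym2.mem_iff] at h5
    rcases h5 with h5 | h5
    · rw [h5]; exact ConnIn.refl _ _
    · rw [h5]; exact (ConnIn.of_adj h3).symm
  rw [h.pv] at h2
  exact ((h1.trans h4).trans h2).symm

end bridge

/-! ### Splicing two closed walks -/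

/-- the vertices of the spliced walk: `v1` on `[0, k1]`, then `v2` on `(k2, n2)` -/
def spl {A : Type*} (k1 k2 n2 : ℕ) (f1 f2 : ℕ → A) (i : ℕ) : A :=
  if i % (k1 + (n2 - k2)) ≤ k1 then f1 (i % (k1 + (n2 - k2)))
  else f2 (i % (k1 + (n2 - k2)) - k1 + k2)

section splice

variable {G : MGraph V E} {n1 n2 k1 k2 : ℕ} {v1 v2 : ℕ → V} {e1 e2 : ℕ → E}

theorem spl_left {A : Type*} (f1 f2 : ℕ → A) {i : ℕ} (h2 : k2 < n2) (hi : i ≤ k1) :
    spl k1 k2 n2 f1 f2 i = f1 i := by
  unfold spl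
  rw [Nat.mod_eq_of_lt (by omega : i < k1 + (n2 - k2)), if_pos hi]

theorem spl_right {A : Type*} (f1 f2 : ℕ → A) {j : ℕ} (hj : k2 < j) (hj' : j < n2) :
    spl k1 k2 n2 f1 f2 (k1 + (j - k2)) = f2 j := by
  unfold spl
  rw [Nat.mod_eq_of_lt (by omega : k1 + (j - k2) < k1 + (n2 - k2)), if_neg (by omega)]
  congr 1
  omega

theorem spl_period {A : Type*} (f1 f2 : ℕ → A) (i : ℕ) :
    spl k1 k2 n2 f1 f2 (i + (k1 + (n2 - k2))) = spl k1 k2 n2 f1 f2 i := by
  unfold spl
  rw [Nat.add_mod_right]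

/-- the splice of two closed walks is a closed walk -/
theorem splice (h1 : CWalk G n1 v1 e1) (h2 : CWalk G n2 v2 e2) (hk2 : k2 < n2)
    (h0 : v1 0 = v2 0) (hk : v1 (k1 + 1) = v2 (k2 + 1)) :
    CWalk G (k1 + (n2 - k2)) (spl k1 k2 n2 v1 v2) (spl k1 k2 n2 e1 e2) where
  pos := by omega
  pv i := spl_period _ _ _
  pe i := spl_period _ _ _
  ends i := by
    have hm : i % (k1 + (n2 - k2)) < k1 + (n2 - k2) := Nat.mod_lt _ (by omega)
    have hn2 : v2 n2 = v1 0 := by
      have := h2.pv 0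
      rw [Nat.zero_add] at this
      rw [this, h0]
    by_cases hl : i % (k1 + (n2 - k2)) + 1 = k1 + (n2 - k2)
    · have h3 : (i + 1) % (k1 + (n2 - k2)) = 0 := by
        rw [Nat.add_mod]
        by_cases h1' : k1 + (n2 - k2) = 1
        · rw [h1', Nat.mod_one]
        · rw [Nat.mod_eq_of_lt (show 1 < k1 + (n2 - k2) by omega), hl, Nat.mod_self]
      unfold spl
      rw [h3, if_pos (Nat.zero_le _)]
      by_cases h4 : i % (k1 + (n2 - k2)) ≤ k1
      · rw [if_pos h4, if_pos h4, h1.ends]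
        have h5 : i % (k1 + (n2 - k2)) = k1 := by omega
        rw [h5, hk, show k2 + 1 = n2 by omega, hn2]
      · rw [if_neg h4, if_neg h4, h2.ends]
        rw [show i % (k1 + (n2 - k2)) - k1 + k2 + 1 = n2 by omega, hn2]
    · have h3 : (i + 1) % (k1 + (n2 - k2)) = i % (k1 + (n2 - k2)) + 1 := by
        rw [Nat.add_mod, Nat.mod_eq_of_lt (show 1 < k1 + (n2 - k2) by omega)]
        exact Nat.mod_eq_of_lt (by omega)
      unfold spl
      rw [h3]
      by_cases h4 : i % (k1 + (n2 - k2)) ≤ k1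
      · rw [if_pos h4, if_pos h4, h1.ends]
        by_cases h5 : i % (k1 + (n2 - k2)) + 1 ≤ k1
        · rw [if_pos h5]
        · rw [if_neg h5]
          have h6 : i % (k1 + (n2 - k2)) = k1 := by omega
          rw [h6, hk, show k1 + 1 - k1 + k2 = k2 + 1 by omega]
      · rw [if_neg h4, if_neg h4, h2.ends, if_neg (by omega)]
        rw [show i % (k1 + (n2 - k2)) + 1 - k1 + k2 = i % (k1 + (n2 - k2)) - k1 + k2 + 1 by omega]

/-- every index of the spliced walk is in the first or in the second part -/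
theorem spl_cases {A : Type*} (f1 f2 : ℕ → A) (h2 : k2 < n2) (i : ℕ) :
    (∃ j, j ≤ k1 ∧ spl k1 k2 n2 f1 f2 i = f1 j) ∨
      ∃ j, k2 < j ∧ j < n2 ∧ spl k1 k2 n2 f1 f2 i = f2 j := by
  have hm : i % (k1 + (n2 - k2)) < k1 + (n2 - k2) := Nat.mod_lt _ (by omega)
  unfold spl
  by_cases h : i % (k1 + (n2 - k2)) ≤ k1
  · exact Or.inl ⟨_, h, by rw [if_pos h]⟩
  · exact Or.inr ⟨i % (k1 + (n2 - k2)) - k1 + k2, by omega, by omega, by rw [if_neg h]⟩

variable [DecidableEq E] {X : Finset E} {u : E}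

/-- Bridges of a spliced walk. -/
theorem splice_bridge (h1 : CWalk G n1 v1 e1) (h2 : CWalk G n2 v2 e2)
    (i1 : ∀ i j, i < n1 → j < n1 → e1 i = e1 j → i = j)
    (i2 : ∀ i j, i < n2 → j < n2 → e2 i = e2 j → i = j)
    (hk1 : k1 < n1) (hk2 : k2 < n2) (hk2' : 0 < k2)
    (hx : e1 0 = e2 0) (hy : e1 k1 = e2 k2)
    (h0 : v1 0 = v2 0) (hk : v1 (k1 + 1) = v2 (k2 + 1))
    (hX1 : ∀ i, i ≤ k1 → e1 i ∈ X) (hX2 : ∀ j, k2 < j → j < n2 → e2 j ∈ X)
    (hX : ∀ f ∈ X, (∃ i, i ≤ k1 ∧ e1 i = f) ∨ ∃ j, k2 < j ∧ j < n2 ∧ e2 j = f)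
    (hb : G.IsBridge X u) :
    ∃ i j, 0 < i ∧ i < k1 ∧ k2 < j ∧ j < n2 ∧ e1 i = u ∧ e2 j = u ∧ v1 i ≠ v2 j ∧
      ∀ i' j', 0 < i' → i' < k1 → k2 < j' → j' < n2 → e1 i' = e2 j' → i' ≠ i →
        (i' < i ∧ j < j') ∨ (i < i' ∧ j' < j) := by
  have hT := splice h1 h2 hk2 h0 hk
  have hTX : ∀ k, spl k1 k2 n2 e1 e2 k ∈ X := by
    intro k
    rcases spl_cases (k1 := k1) e1 e2 hk2 k with ⟨j, hj, h⟩ | ⟨j, hj, hj', h⟩
    · rw [h]; exact hX1 j hj
    · rw [h]; exact hX2 j hj hj'
  have hL : ∀ i, i ≤ k1 → spl k1 k2 n2 e1 e2 i = e1 i := fun i hi => spl_left e1 e2 hk2 hi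
  have hR : ∀ k, k1 < k → k < k1 + (n2 - k2) →
      spl k1 k2 n2 e1 e2 k = e2 (k - k1 + k2) := by
    intro k hk' hk''
    have := spl_right (k1 := k1) e1 e2 (j := k - k1 + k2) (k2 := k2) (n2 := n2) (by omega)
      (by omega)
    rwa [show k1 + (k - k1 + k2 - k2) = k by omega] at this
  have hP : ∀ k, spl k1 k2 n2 e1 e2 (k + (k1 + (n2 - k2))) = spl k1 k2 n2 e1 e2 k :=
    fun k => spl_period e1 e2 k
  -- values at an index in the second period
  have hL' : ∀ k, k1 + (n2 - k2) ≤ k → k ≤ k1 + (n2 - k2) + k1 →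
      spl k1 k2 n2 e1 e2 k = e1 (k - (k1 + (n2 - k2))) := by
    intro k hk' hk''
    have := hP (k - (k1 + (n2 - k2)))
    rw [show k - (k1 + (n2 - k2)) + (k1 + (n2 - k2)) = k by omega] at this
    rw [this, hL _ (by omega)]
  have hR' : ∀ k, k1 + (n2 - k2) + k1 < k → k < 2 * (k1 + (n2 - k2)) →
      spl k1 k2 n2 e1 e2 k = e2 (k - (k1 + (n2 - k2)) - k1 + k2) := by
    intro k hk' hk''
    have := hP (k - (k1 + (n2 - k2)))
    rw [show k - (k1 + (n2 - k2)) + (k1 + (n2 - k2)) = k by omega] at this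
    rw [this, hR _ (by omega) (by omega)]
  have p1 : ∃ i, i ≤ k1 ∧ e1 i = u := by
    by_contra hc
    push Not at hc
    rcases hX u hb.1 with ⟨i, hi, h⟩ | ⟨j, hj, hj', h⟩
    · exact hc i hi h
    · refine hT.not_bridge_of_once hTX (i := k1 + (j - k2)) ?_ ?_ hb
      · rw [spl_right e1 e2 hj hj', h]
      · intro k hk3 hk4
        by_cases c1 : k < k1 + (n2 - k2)
        · rw [hR k (by omega) c1]
          intro h'
          have := i2 _ _ (by omega) hj' (h'.trans h.symm)
          omega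
        · by_cases c2 : k ≤ k1 + (n2 - k2) + k1
          · rw [hL' k (by omega) c2]
            exact hc _ (by omega)
          · rw [hR' k (by omega) (by omega)]
            intro h'
            have := i2 _ _ (by omega) hj' (h'.trans h.symm)
            omega
  have p2 : ∃ j, k2 < j ∧ j < n2 ∧ e2 j = u := by
    by_contra hc
    push Not at hc
    obtain ⟨i, hi, h⟩ := p1
    refine hT.not_bridge_of_once hTX (i := i) ?_ ?_ hb
    · rw [hL i hi, h]
    · intro k hk3 hk4
      by_cases c1 : k ≤ k1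
      · rw [hL k c1]
        intro h'
        have := i1 _ _ (by omega) (by omega) (h'.trans h.symm)
        omega
      · by_cases c2 : k < k1 + (n2 - k2)
        · rw [hR k (by omega) c2]
          exact hc _ (by omega) (by omega)
        · rw [hL' k (by omega) (by omega)]
          intro h'
          have := i1 _ _ (by omega) (by omega) (h'.trans h.symm)
          omega
  obtain ⟨i, hi, hiu⟩ := p1
  obtain ⟨j, hj, hj', hju⟩ := p2
  have hi0 : i ≠ 0 := by
    rintro rfl
    rw [hx] at hiu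
    have := i2 _ _ (by omega) hj' (hiu.trans hju.symm)
    omega
  have hik : i ≠ k1 := by
    rintro rfl
    rw [hy] at hiu
    have := i2 _ _ hk2 hj' (hiu.trans hju.symm)
    omega
  have hmid : ∀ k, i < k → k < k1 + (j - k2) → spl k1 k2 n2 e1 e2 k ≠ u := by
    intro k hk3 hk4
    by_cases c1 : k ≤ k1
    · rw [hL k c1]
      intro h'
      have := i1 _ _ (by omega) (by omega) (h'.trans hiu.symm)
      omega
    · rw [hR k (by omega) (by omega)]
      intro h'
      have := i2 _ _ (by omega) hj' (h'.trans hju.symm)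
      omega
  have hout : ∀ k, k1 + (j - k2) < k → k < i + (k1 + (n2 - k2)) →
      spl k1 k2 n2 e1 e2 k ≠ u := by
    intro k hk3 hk4
    by_cases c1 : k < k1 + (n2 - k2)
    · rw [hR k (by omega) c1]
      intro h'
      have := i2 _ _ (by omega) hj' (h'.trans hju.symm)
      omega
    · rw [hL' k (by omega) (by omega)]
      intro h'
      have := i1 _ _ (by omega) (by omega) (h'.trans hiu.symm)
      omega
  have hiT : spl k1 k2 n2 e1 e2 i = u := by rw [hL i hi, hiu]
  refine ⟨i, j, by omega, by omega, hj, hj', hiu, hju, ?_, ?_⟩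
  · intro hv
    refine hT.not_bridge_of_same hTX (i := i) (j := k1 + (j - k2)) hiT (by omega) ?_ hmid hb
    rw [spl_left v1 v2 hk2 hi, spl_right v1 v2 hj hj', hv]
  · intro i' j' hi' hi'' hj3 hj4 hij hne
    have hne' : j' ≠ j := by
      rintro rfl
      exact hne (i1 _ _ (by omega) (by omega) ((hij.trans hju).trans hiu.symm))
    rcases Nat.lt_or_gt_of_ne hne with c1 | c1
    · rcases Nat.lt_or_gt_of_ne hne' with c2 | c2
      · exfalso
        refine hT.bridge_disj hTX (i := i) (j := k1 + (j - k2)) hiT hmid hout hb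
          (k := k1 + (j' - k2)) (l := i' + (k1 + (n2 - k2))) (by omega) (by omega) (by omega)
          (by omega) ?_
        rw [spl_right e1 e2 hj3 hj4, hP, hL i' (by omega), hij]
      · exact Or.inl ⟨c1, c2⟩
    · rcases Nat.lt_or_gt_of_ne hne' with c2 | c2
      · exact Or.inr ⟨c1, c2⟩
      · exfalso
        refine hT.bridge_disj hTX (i := i) (j := k1 + (j - k2)) hiT hmid hout hb
          (k := i') (l := k1 + (j' - k2)) (by omega) (by omega) (by omega) (by omega) ?_
        rw [spl_right e1 e2 hj3 hj4, hL i' (by omega), hij]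

end splice

end MGraph

end Pool.GOD
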